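import Pool.Agent.Lib.MP_4eed4e_an_I.AFam
import Pool.Agent.Lib.MP_4eed4e_an_XL.LBes

set_option autoImplicit false

/-!
Project I, block A: the inequality of Berezin for subsets of the unit square, with the sine
functions `ss p` of the square.
-/

namespace Pool.Agent.MP4eed4eI

open Pool.Agent.MP4eed4eP Pool.Agent.MP4eed4eX.L MeasureTheory Set Filter Topology

variable {D : Set P} [DU D]

/-- The coefficient of a function. -/
noncomputable def cD (D : Set P) (f : P → ℝ) (p : ℕ × ℕ) : ℝ := inner ℝ (sD D p) (clD D f)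

omit [DU D] in
private theorem ABer_off {f : P → ℝ} (hf : LipC D f) {x : P} (hx : x ∉ D) :
    x ∉ tsupport f := fun h => hx (hf.2.2 h)

/-- Parseval: `∑ c_p² = l2 f`.

Proof. `frame_sD (clD D f)` and `‖clD D f‖² = ∫ x in D, f x * f x` (`inner_clD`,
`real_inner_self_eq_norm_sq`), `= l2 f` since `f` vanishes off `D`
(`setIntegral_eq_integral_of_forall_compl_eq_zero`). -/
theorem hasSum_cD {f : P → ℝ} (hf : LipC D f) : HasSum (fun p => cD D f p ^ 2) (l2 f) := by
  have h := frame_sD (clD D f)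
  have h1 : ‖clD D f‖ ^ 2 = l2 f := by
    rw [← real_inner_self_eq_norm_sq, inner_clD (lipC_memLpD hf) (lipC_memLpD hf),
      setIntegral_eq_integral_of_forall_compl_eq_zero fun x hx => by
        rw [image_eq_zero_of_notMem_tsupport (ABer_off hf hx), mul_zero]]
    unfold l2
    refine integral_congr_ae (Eventually.of_forall fun x => ?_)
    show f x * f x = f x ^ 2
    ring
  rw [h1] at h
  exact h

/-- Bessel: `∑ lams p * c_p² ≤ en f`.

Proof. `adj_sD p ⟨f, hf⟩ : inner (sD D p) (valD D f) = lT p * inner (kD D p) (grdD D f)` with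
`lT p = 1 / √(lams p)`, so `lams p * c_p² = inner (kD D p) (grdD D f) ^ 2`; `bessel_kD`, and
`‖grdD D f‖² = ∫ x in D, (d1 f x * d1 f x + d2 f x * d2 f x)` (`inner_prD`, `grdD_apply`) `= en f`
since the derivatives vanish off the support. -/
theorem bessel_cD {f : P → ℝ} (hf : LipC D f) : Summable (fun p => lams p * cD D f p ^ 2) ∧
    ∑' p, lams p * cD D f p ^ 2 ≤ en f := by
  obtain ⟨K, hK⟩ := hf.1
  have h1 : ∀ p, lams p * cD D f p ^ 2 =
      (inner ℝ (kD D p) (grdD D (⟨f, hf⟩ : LipS D)) : ℝ) ^ 2 := by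
    intro p
    have h2 := adj_sD p (⟨f, hf⟩ : LipS D)
    have h3 : cD D f p = lT p * inner ℝ (kD D p) (grdD D (⟨f, hf⟩ : LipS D)) := h2
    have h4 := lams_pos p
    rw [h3, lT, mul_pow, div_pow, one_pow, Real.sq_sqrt h4.le]
    field_simp
  have h3 : ‖grdD D (⟨f, hf⟩ : LipS D)‖ ^ 2 = en f := by
    rw [← real_inner_self_eq_norm_sq, grdD_apply,
      inner_prD (memLp_d1D hK) (memLp_d2D hK) (memLp_d1D hK) (memLp_d2D hK)]
    show ∫ x in D, (d1 f x * d1 f x + d2 f x * d2 f x) = en f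
    rw [setIntegral_eq_integral_of_forall_compl_eq_zero fun x hx => by
        rw [d1_zero_of_notMem (ABer_off hf hx), d2_zero_of_notMem (ABer_off hf hx)]
        ring]
    unfold en
    refine integral_congr_ae (Eventually.of_forall fun x => ?_)
    show d1 f x * d1 f x + d2 f x * d2 f x = d1 f x ^ 2 + d2 f x ^ 2
    ring
  simp only [h1]
  rw [← h3]
  exact bessel_kD _

/-- For one function.

Proof. `L * l2 f - en f ≤ ∑' p, (L - lams p) * c_p²` (`hasSum_cD`, `bessel_cD`), and the terms with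
`p ∉ F` are `≤ 0`, the other ones `≤ max 0 (L - lams p) * c_p²`
(`Summable.sum_add_tsum_compl` or `sum_le_tsum` for the negatives). -/
theorem ber_one {f : P → ℝ} (hf : LipC D f) (L : ℝ) (F : Finset (ℕ × ℕ))
    (hF : ∀ p, lams p < L → p ∈ F) :
    L * l2 f - en f ≤ ∑ p ∈ F, max 0 (L - lams p) * cD D f p ^ 2 := by
  obtain ⟨h1, h2⟩ := bessel_cD hf
  have h3 : HasSum (fun p => L * cD D f p ^ 2 - lams p * cD D f p ^ 2)
      (L * l2 f - ∑' p, lams p * cD D f p ^ 2) := ((hasSum_cD hf).mul_left L).sub h1.hasSum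
  have h4 : HasSum (fun p => if p ∈ F then max 0 (L - lams p) * cD D f p ^ 2 else 0)
      (∑ p ∈ F, max 0 (L - lams p) * cD D f p ^ 2) := by
    have h5 : HasSum (fun p => if p ∈ F then max 0 (L - lams p) * cD D f p ^ 2 else 0)
        (∑ p ∈ F, (if p ∈ F then max 0 (L - lams p) * cD D f p ^ 2 else 0)) :=
      hasSum_sum_of_ne_finset_zero fun p hp => if_neg hp
    have h6 : ∑ p ∈ F, (if p ∈ F then max 0 (L - lams p) * cD D f p ^ 2 else 0) =
        ∑ p ∈ F, max 0 (L - lams p) * cD D f p ^ 2 :=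
      Finset.sum_congr rfl fun p hp => if_pos hp
    rwa [h6] at h5
  have h5 := hasSum_le (fun p => ?_) h3 h4
  · linarith
  · by_cases hp : p ∈ F
    · rw [if_pos hp, ← sub_mul]
      exact mul_le_mul_of_nonneg_right (le_max_right _ _) (sq_nonneg _)
    · rw [if_neg hp, ← sub_mul]
      have h6 : L - lams p ≤ 0 := by
        by_contra h7
        exact hp (hF p (by linarith))
      exact mul_nonpos_of_nonpos_of_nonneg h6 (sq_nonneg _)

/-- Bessel for an orthonormal family: `∑_k <f_k, s_p>² ≤ ∫_D s_p²`.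

Proof. The classes `clD D (f k)`, `k < n`, are orthonormal (`inner_clD`, the functions vanish off
`D`); `Orthonormal.sum_inner_products_le` for the vector `sD D p = clD D (ss p)`, whose norm square is
`∫ x in D, ss p x ^ 2` (`memLp_ssD`, `inner_clD`). Index the family by `Fin n` or by
`Finset.range n` as a subtype. -/
theorem bessel_fam {n : ℕ} {f : ℕ → P → ℝ} (hf : ∀ k, k < n → LipC D (f k) ∧ l2 (f k) = 1)
    (ho : ∀ i j, i < j → j < n → ∫ x, f i x * f j x = 0) (p : ℕ × ℕ) (S : Finset ℕ)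
    (hS : ∀ k ∈ S, k < n) :
    ∑ k ∈ S, cD D (f k) p ^ 2 ≤ ∫ x in D, ss p x ^ 2 := by
  have hin : ∀ i j, i < n → j < n → (inner ℝ (clD D (f i)) (clD D (f j)) : ℝ) =
      ∫ x, f i x * f j x := by
    intro i j hi hj
    rw [inner_clD (lipC_memLpD (hf i hi).1) (lipC_memLpD (hf j hj).1),
      setIntegral_eq_integral_of_forall_compl_eq_zero fun x hx => by
        rw [image_eq_zero_of_notMem_tsupport (ABer_off (hf i hi).1 hx), zero_mul]]
  have hO : Orthonormal ℝ (fun k : S => clD D (f k)) := by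
    rw [orthonormal_iff_ite]
    rintro ⟨i, hi⟩ ⟨j, hj⟩
    have hi' := hS i hi
    have hj' := hS j hj
    show (inner ℝ (clD D (f i)) (clD D (f j)) : ℝ) = _
    rw [hin i j hi' hj']
    rcases lt_trichotomy i j with h | h | h
    · rw [ho i j h hj', if_neg]
      intro he
      exact h.ne (congrArg Subtype.val he)
    · subst h
      rw [if_pos rfl, ← (hf i hi').2]
      unfold l2
      refine integral_congr_ae (Eventually.of_forall fun x => ?_)
      show f i x * f i x = f i x ^ 2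
      ring
    · rw [if_neg fun he => h.ne (congrArg Subtype.val he).symm, ← ho j i h hi']
      refine integral_congr_ae (Eventually.of_forall fun x => ?_)
      show f i x * f j x = f j x * f i x
      ring
  have h1 := hO.sum_inner_products_le (s := S.attach) (sD D p)
  have h2 : ‖sD D p‖ ^ 2 = ∫ x in D, ss p x ^ 2 := by
    rw [← real_inner_self_eq_norm_sq, sD, inner_clD (memLp_ssD p).1 (memLp_ssD p).1]
    refine integral_congr_ae (Eventually.of_forall fun x => ?_)
    show ss p x * ss p x = ss p x ^ 2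
    ring
  rw [h2] at h1
  refine le_trans (le_of_eq ?_) h1
  rw [← Finset.sum_attach]
  refine Finset.sum_congr rfl fun k _ => ?_
  rw [cD, Real.norm_eq_abs, sq_abs, real_inner_comm]

/-- The inequality of Berezin.

Proof. Let `δ > 0` and `f` from `exists_fam` (`D` is open and nonempty: `isOpen_DU`, `DU.nonempty`),
`S = {k < n | lamL D (k + 1) < L}`. The left side is `∑ k ∈ S, (L - lamL D (k + 1))
≤ ∑ k ∈ S, (L - en (f k) + δ) ≤ ∑ k ∈ S, ∑ p ∈ F, max 0 (L - lams p) * c_p(f k)² + n δ` (`ber_one`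
with `l2 (f k) = 1`) `≤ ∑ p ∈ F, max 0 (L - lams p) * ∫ x in D, ss p x ^ 2 + n δ` (`bessel_fam`,
`Finset.sum_comm`). Let `δ → 0` (`le_of_forall_pos_le_add`). -/
theorem berezin (L : ℝ) (n : ℕ) (F : Finset (ℕ × ℕ)) (hF : ∀ p, lams p < L → p ∈ F) :
    ∑ k ∈ Finset.range n, max 0 (L - lamL D (k + 1)) ≤
      ∑ p ∈ F, max 0 (L - lams p) * ∫ x in D, ss p x ^ 2 := by
  refine le_of_forall_pos_le_add fun ε hε => ?_
  have hn : (0 : ℝ) < (n : ℝ) + 1 := by positivity
  obtain ⟨f, hf, ho⟩ := exists_fam (isOpen_DU D) DU.ne (div_pos hε hn) n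
  set δ : ℝ := ε / ((n : ℝ) + 1) with hδ
  have hδ0 : 0 < δ := div_pos hε hn
  set S : Finset ℕ := (Finset.range n).filter fun k => lamL D (k + 1) < L with hS
  have hSn : ∀ k ∈ S, k < n := fun k hk => Finset.mem_range.1 (Finset.mem_filter.1 hk).1
  have e1 : ∑ k ∈ Finset.range n, max 0 (L - lamL D (k + 1)) =
      ∑ k ∈ S, (L - lamL D (k + 1)) := by
    rw [hS, Finset.sum_filter]
    refine Finset.sum_congr rfl fun k _ => ?_
    split_ifs with h
    · exact max_eq_right (by linarith)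
    · exact max_eq_left (by linarith)
  have e2 : ∀ k ∈ S, L - lamL D (k + 1) ≤
      (∑ p ∈ F, max 0 (L - lams p) * cD D (f k) p ^ 2) + δ := by
    intro k hk
    obtain ⟨h1, h2, h3⟩ := hf k (hSn k hk)
    have h4 := ber_one h1 L F hF
    rw [h3] at h4
    linarith
  have e3 : ∑ k ∈ S, (L - lamL D (k + 1)) ≤
      (∑ k ∈ S, ∑ p ∈ F, max 0 (L - lams p) * cD D (f k) p ^ 2) + (n : ℝ) * δ := by
    refine (Finset.sum_le_sum e2).trans ?_
    rw [Finset.sum_add_distrib, Finset.sum_const, nsmul_eq_mul]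
    have hc : (S.card : ℝ) ≤ n := by
      have := Finset.card_filter_le (Finset.range n) fun k => lamL D (k + 1) < L
      rw [Finset.card_range] at this
      exact_mod_cast this
    have := mul_le_mul_of_nonneg_right hc hδ0.le
    linarith
  have e4 : ∑ k ∈ S, ∑ p ∈ F, max 0 (L - lams p) * cD D (f k) p ^ 2 ≤
      ∑ p ∈ F, max 0 (L - lams p) * ∫ x in D, ss p x ^ 2 := by
    rw [Finset.sum_comm]
    refine Finset.sum_le_sum fun p _ => ?_
    rw [← Finset.mul_sum]
    exact mul_le_mul_of_nonneg_left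
      (bessel_fam (fun k hk => ⟨(hf k hk).1, (hf k hk).2.2⟩) ho p S hSn) (le_max_left _ _)
  have e5 : (n : ℝ) * δ ≤ ε := by
    rw [hδ, mul_div_assoc', div_le_iff₀ hn]
    nlinarith
  rw [e1]
  linarith

end Pool.Agent.MP4eed4eI
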