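import Pool.Agent.Lib.MP_4eed4e_an_I.IDefs
import Pool.Agent.Lib.MP_4eed4e_an_PC.CForm
import Pool.Agent.Lib.MP_4eed4e_an_PG.GClose

set_option autoImplicit false

/-!
Project I, block A: an orthonormal family of test functions whose energies are bounded by the
min-max values.
-/

namespace Pool.Agent.MP4eed4eI

open Pool.Agent.MP4eed4eP MeasureTheory Set Filter Topology

/-- In a space of dimension `k + 1` of Lipschitz functions there is a function with norm `1` which
is orthogonal to `k` given functions.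

Proof. The linear map `V → (Fin k → ℝ)`, `f ↦ (∫ x, g i x * f x)_i` (linear since all products of
functions in `LipC D` are integrable: continuous with compact support) has a kernel different from
zero (`finrank V = k + 1 > k`, e.g. `LinearMap.exists_ne_zero_of_finrank_lt..` or rank-nullity).
Take `f ≠ 0` in the kernel and scale it by `1 / √(l2 f)` (`LipC.l2_pos` / `l2_pos`, `l2_smul`,
`en_smul`). -/
theorem exists_orth {D : Set P} {k : ℕ} {r : ℝ} (hr : r ∈ PG.RS D (k + 1)) (g : ℕ → P → ℝ)
    (hg : ∀ i, i < k → LipC D (g i)) :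
    ∃ f : P → ℝ, LipC D f ∧ en f ≤ r ∧ l2 f = 1 ∧ ∀ i, i < k → ∫ x, g i x * f x = 0 := by
  obtain ⟨V, hV, hVf⟩ := hr
  have hfd : FiniteDimensional ℝ V := FiniteDimensional.of_finrank_pos (by omega)
  have hint : ∀ i : Fin k, ∀ f ∈ V, Integrable (fun x => g i x * f x) := fun i f hf =>
    ((hg i i.2).continuous.mul (hVf f hf).1.continuous).integrable_of_hasCompactSupport
      (hg i i.2).2.1.mul_right
  let T : V →ₗ[ℝ] (Fin k → ℝ) :=
    { toFun := fun f i => ∫ x, g i x * f.1 x
      map_add' := fun f f' => by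
        funext i
        change ∫ x, g i x * (f.1 x + f'.1 x) = (∫ x, g i x * f.1 x) + ∫ x, g i x * f'.1 x
        rw [← integral_add (hint i f.1 f.2) (hint i f'.1 f'.2)]
        refine integral_congr_ae (Eventually.of_forall fun x => ?_)
        change g i x * (f.1 x + f'.1 x) = g i x * f.1 x + g i x * f'.1 x
        ring
      map_smul' := fun c f => by
        funext i
        change ∫ x, g i x * (c * f.1 x) = c * ∫ x, g i x * f.1 x
        rw [← integral_const_mul]
        refine integral_congr_ae (Eventually.of_forall fun x => ?_)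
        change g i x * (c * f.1 x) = c * (g i x * f.1 x)
        ring }
  have hker : LinearMap.ker T ≠ ⊥ := by
    refine LinearMap.ker_ne_bot_of_finrank_lt ?_
    rw [hV, Module.finrank_fin_fun]
    exact Nat.lt_succ_self k
  obtain ⟨f0, hf0, hne⟩ := Submodule.exists_mem_ne_zero_of_ne_bot hker
  have hne' : f0.1 ≠ 0 := fun h => hne (Subtype.ext h)
  obtain ⟨hL, hle⟩ := hVf f0.1 f0.2
  have hpos := l2_pos hL hne'
  have hs : (√(l2 f0.1))⁻¹ ^ 2 * l2 f0.1 = 1 := by
    rw [inv_pow, Real.sq_sqrt hpos.le, inv_mul_cancel₀ hpos.ne']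
  have horth : ∀ i : Fin k, ∫ x, g i x * f0.1 x = 0 := fun i =>
    congrFun (LinearMap.mem_ker.1 hf0) i
  refine ⟨(√(l2 f0.1))⁻¹ • f0.1, hL.smul _, ?_, ?_, fun i hi => ?_⟩
  · rw [en_smul]
    have h1 : 0 ≤ (√(l2 f0.1))⁻¹ ^ 2 := by positivity
    calc (√(l2 f0.1))⁻¹ ^ 2 * en f0.1 ≤ (√(l2 f0.1))⁻¹ ^ 2 * (r * l2 f0.1) :=
          mul_le_mul_of_nonneg_left hle h1
      _ = r * ((√(l2 f0.1))⁻¹ ^ 2 * l2 f0.1) := by ring
      _ = r := by rw [hs, mul_one]
  · rw [l2_smul]
    exact hs
  · have h1 : ∀ x, g i x * ((√(l2 f0.1))⁻¹ • f0.1) x = (√(l2 f0.1))⁻¹ * (g i x * f0.1 x) := by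
      intro x
      rw [Pi.smul_apply, smul_eq_mul]
      ring
    rw [integral_congr_ae (Eventually.of_forall h1), integral_const_mul, horth ⟨i, hi⟩, mul_zero]

/-- The family.

Proof. Induction on `n`. For the step: `lamL D (n + 1) = sInf (PG.RS D (n + 1))`
(`PG.lamL_def`), the set is nonempty (`PG.RS_nonempty`), so it has an element
`r < lamL D (n + 1) + δ` (`Real.lt_sInf_add_pos` / `exists_lt_of_csInf_lt`); apply `exists_orth`
with `k = n` and the family so far, and define the new family by `Function.update`. -/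
theorem exists_fam {D : Set P} (hD : IsOpen D) (hne : D.Nonempty) {δ : ℝ} (hδ : 0 < δ) (n : ℕ) :
    ∃ f : ℕ → P → ℝ, (∀ k, k < n → LipC D (f k) ∧ en (f k) ≤ lamL D (k + 1) + δ ∧ l2 (f k) = 1) ∧
      ∀ i j, i < j → j < n → ∫ x, f i x * f j x = 0 := by
  induction n with
  | zero =>
    exact ⟨fun _ => 0, fun k hk => absurd hk (Nat.not_lt_zero k),
      fun i j _ hj => absurd hj (Nat.not_lt_zero j)⟩
  | succ n ih =>
    obtain ⟨f, hf, ho⟩ := ih
    have h1 : sInf (PG.RS D (n + 1)) < lamL D (n + 1) + δ := by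
      rw [← PG.lamL_def]
      exact lt_add_of_pos_right _ hδ
    obtain ⟨r, hr, hrl⟩ := exists_lt_of_csInf_lt (PG.RS_nonempty hD hne (n + 1)) h1
    obtain ⟨g, hg1, hg2, hg3, hg4⟩ := exists_orth hr f fun i hi => (hf i hi).1
    refine ⟨Function.update f n g, fun k hk => ?_, fun i j hij hj => ?_⟩
    · rcases Nat.lt_succ_iff_lt_or_eq.1 hk with h2 | h2
      · rw [Function.update_of_ne h2.ne]
        exact hf k h2
      · rw [h2, Function.update_self]
        exact ⟨hg1, hg2.trans hrl.le, hg3⟩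
    · rcases Nat.lt_succ_iff_lt_or_eq.1 hj with h2 | h2
      · rw [Function.update_of_ne h2.ne, Function.update_of_ne (hij.trans h2).ne]
        exact ho i j hij h2
      · rw [h2, Function.update_self, Function.update_of_ne (h2 ▸ hij).ne]
        exact hg4 i (h2 ▸ hij)

end Pool.Agent.MP4eed4eI
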