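import Pool.Agent.Lib.MP_4eed4e_an_I.ALat

set_option autoImplicit false

/-!
Project I, block A: the two integrals.
-/

namespace Pool.Agent.MP4eed4eI

open Pool.Agent.MP4eed4eP MeasureTheory Set Filter Topology

/-- The integral in the radius. -/
private theorem AInt_rad {L : ℝ} (hL : 0 ≤ L) :
    ∫ r in Ioi (0 : ℝ), r * max 0 (L - r ^ 2) = L ^ 2 / 4 := by
  have h1 : ∫ r in Ioi (0 : ℝ), r * max 0 (L - r ^ 2) =
      ∫ r in Ioc (0 : ℝ) (√L), r * max 0 (L - r ^ 2) := by
    refine setIntegral_eq_of_subset_of_forall_sdiff_eq_zero measurableSet_Ioi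
      (fun x hx => hx.1) ?_
    intro x hx
    have hx0 : 0 < x := hx.1
    have hx1 : √L < x := by
      by_contra hcon
      exact hx.2 ⟨hx0, not_lt.1 hcon⟩
    have hx2 : L ≤ x ^ 2 := by
      have := Real.sq_sqrt hL
      nlinarith [Real.sqrt_nonneg L]
    rw [max_eq_left (by linarith), mul_zero]
  have h2 : ∫ r in Ioc (0 : ℝ) (√L), r * max 0 (L - r ^ 2) =
      ∫ r in (0 : ℝ)..(√L), (L * r - r ^ 3) := by
    rw [intervalIntegral.integral_of_le (Real.sqrt_nonneg L)]
    refine setIntegral_congr_fun measurableSet_Ioc ?_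
    intro x hx
    have hx2 : x ^ 2 ≤ L := by
      have := Real.sq_sqrt hL
      nlinarith [Real.sqrt_nonneg L, hx.1, hx.2]
    simp only
    rw [max_eq_right (by linarith)]
    ring
  have c1 : IntervalIntegrable (fun r : ℝ => L * r) volume 0 (√L) :=
    (continuous_const.mul continuous_id).intervalIntegrable _ _
  have c2 : IntervalIntegrable (fun r : ℝ => r ^ 3) volume 0 (√L) :=
    (continuous_pow 3).intervalIntegrable _ _
  rw [h1, h2, intervalIntegral.integral_sub c1 c2, intervalIntegral.integral_const_mul,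
    integral_id, integral_pow]
  have h3 : √L ^ 2 = L := Real.sq_sqrt hL
  have h4 : √L ^ (3 + 1) = L ^ 2 := by
    rw [show √L ^ (3 + 1) = (√L ^ 2) ^ 2 by ring, h3]
  rw [h4, h3]
  norm_num
  ring

/-- Polar coordinates for a sector. -/
private theorem AInt_pol {L : ℝ} (hL : 0 ≤ L) (S : Set P) (hS : MeasurableSet S) (α β : ℝ)
    (hαβ : α ≤ β) (h1 : -Real.pi ≤ α) (h2 : β ≤ Real.pi)
    (hSc : ∀ r θ : ℝ, 0 < r → θ ∈ Ioo (-Real.pi) Real.pi →
      ((r * Real.cos θ, r * Real.sin θ) ∈ S ↔ θ ∈ Ioo α β)) :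
    ∫ v in S, max 0 (L - (v.1 ^ 2 + v.2 ^ 2)) = (β - α) * L ^ 2 / 4 := by
  rw [← integral_indicator hS, ← integral_comp_polarCoord_symm, polarCoord_target]
  have e1 : ∫ p in Ioi (0 : ℝ) ×ˢ Ioo (-Real.pi) Real.pi,
      p.1 • (S.indicator (fun v : P => max 0 (L - (v.1 ^ 2 + v.2 ^ 2)))) (polarCoord.symm p) =
      ∫ p in Ioi (0 : ℝ) ×ˢ Ioo (-Real.pi) Real.pi,
        (p.1 * max 0 (L - p.1 ^ 2)) * (Ioo α β).indicator (fun _ => (1 : ℝ)) p.2 := by
    refine setIntegral_congr_fun (measurableSet_Ioi.prod measurableSet_Ioo) ?_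
    rintro ⟨r, θ⟩ ⟨hr, hθ⟩
    simp only [polarCoord_symm_apply, smul_eq_mul]
    have hiff := hSc r θ hr hθ
    by_cases hm : θ ∈ Ioo α β
    · rw [indicator_of_mem (hiff.2 hm), indicator_of_mem hm, mul_one]
      have : (r * Real.cos θ) ^ 2 + (r * Real.sin θ) ^ 2 = r ^ 2 := by
        have := Real.cos_sq_add_sin_sq θ
        calc (r * Real.cos θ) ^ 2 + (r * Real.sin θ) ^ 2 =
            r ^ 2 * (Real.cos θ ^ 2 + Real.sin θ ^ 2) := by ring
          _ = r ^ 2 := by rw [this, mul_one]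
      simp only [this]
    · rw [indicator_of_notMem (fun h => hm (hiff.1 h)), indicator_of_notMem hm, mul_zero,
        mul_zero]
  rw [e1, Measure.volume_eq_prod, setIntegral_prod_mul (fun r : ℝ => r * max 0 (L - r ^ 2))
    (fun θ : ℝ => (Ioo α β).indicator (fun _ => (1 : ℝ)) θ), AInt_rad hL]
  have e2 : ∫ θ in Ioo (-Real.pi) Real.pi, (Ioo α β).indicator (fun _ => (1 : ℝ)) θ = β - α := by
    rw [setIntegral_indicator measurableSet_Ioo,
      inter_eq_self_of_subset_right (Ioo_subset_Ioo h1 h2), setIntegral_const,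
      Measure.real, Real.volume_Ioo, ENNReal.toReal_ofReal (by linarith), smul_eq_mul, mul_one]
  rw [e2]
  ring

private theorem AInt_cos {θ : ℝ} (hθ : θ ∈ Ioo (-Real.pi) Real.pi) :
    0 < Real.cos θ ↔ θ ∈ Ioo (-(Real.pi / 2)) (Real.pi / 2) := by
  constructor
  · intro h
    by_contra hcon
    have : Real.cos θ ≤ 0 := by
      rw [mem_Ioo, not_and_or, not_lt, not_lt] at hcon
      rcases hcon with hc | hc
      · rw [← Real.cos_neg]
        exact Real.cos_nonpos_of_pi_div_two_le_of_le (by linarith) (by linarith [hθ.1])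
      · exact Real.cos_nonpos_of_pi_div_two_le_of_le hc (by linarith [hθ.2])
    linarith
  · intro h
    exact Real.cos_pos_of_mem_Ioo h

private theorem AInt_sec : MeasurableSet {v : P | 0 < v.1 ∧ √3 * v.1 < v.2} := by
  refine MeasurableSet.inter ?_ ?_
  · exact (isOpen_lt continuous_const continuous_fst).measurableSet
  · exact (isOpen_lt (continuous_const.mul continuous_fst) continuous_snd).measurableSet

private theorem AInt_Qd : MeasurableSet Qd := measurableSet_Ioi.prod measurableSet_Ioi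

/-- The linear change of variables. -/
private theorem AInt_lin (g : P → ℝ) (hg : Measurable g) :
    ∫ x : P, g (√3 / 2 * x.1, 3 / 2 * x.1 + x.2) = 2 / √3 * ∫ x, g x := by
  have h3 : (0 : ℝ) < √3 := Real.sqrt_pos.2 (by norm_num)
  set A : P →ₗ[ℝ] P := Matrix.toLin (Module.Basis.finTwoProd ℝ) (Module.Basis.finTwoProd ℝ)
    !![√3 / 2, 0; 3 / 2, 1] with hA
  have hAa : ∀ x : P, A x = (√3 / 2 * x.1, 3 / 2 * x.1 + x.2) := by
    intro x
    rw [hA, Matrix.toLin_finTwoProd_apply]
    simp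
  have hd : LinearMap.det A = √3 / 2 := by
    rw [hA, LinearMap.det_toLin, Matrix.det_fin_two_of]
    ring
  have hne : LinearMap.det A ≠ 0 := by
    rw [hd]
    positivity
  have hmap := Measure.map_linearMap_addHaar_eq_smul_addHaar (volume : Measure P) hne
  have hAm : Measurable A := A.continuous_of_finiteDimensional.measurable
  have e1 : ∫ x : P, g (√3 / 2 * x.1, 3 / 2 * x.1 + x.2) =
      ∫ y, g y ∂(Measure.map A volume) := by
    rw [integral_map hAm.aemeasurable hg.aestronglyMeasurable]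
    refine integral_congr_ae (Eventually.of_forall fun x => ?_)
    simp only [hAa]
  rw [e1, hmap, hd, integral_smul_measure, ENNReal.toReal_ofReal (abs_nonneg _),
    abs_of_pos (by positivity), smul_eq_mul]
  congr 1
  rw [inv_div]

/-- The integral is homogeneous in the form. -/
private theorem AInt_scale {L k : ℝ} (hk : 0 < k) (S : Set P) (f : P → ℝ) :
    ∫ v in S, max 0 (L - k * f v) = k * ∫ v in S, max 0 (L / k - f v) := by
  rw [← integral_const_mul]
  refine integral_congr_ae (Eventually.of_forall fun v => ?_)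
  simp only
  rw [mul_max_of_nonneg _ _ hk.le, mul_zero, mul_sub, mul_div_cancel₀ _ hk.ne']

/-- Polar coordinates, for a sector with the angle `π / 2`.

Proof. `integral_comp_polarCoord_symm` for the function
`Qd.indicator (fun v => max 0 (L - (v.1 ^ 2 + v.2 ^ 2)))`: in polar coordinates the set is
`0 < cos θ, 0 < sin θ`, i.e. `0 < θ < π / 2` in `(-π, π)`; the integral is
`∫ θ in 0..π/2, ∫ r in Ioi 0, r * max 0 (L - r²) = (π / 2) * (L² / 4)` (`integral_prod_mul`; the
integrand in `r` is `r (L - r²)` on `(0, √L)` and `0` beyond). -/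
theorem int_quad {L : ℝ} (hL : 0 ≤ L) :
    ∫ v in Qd, max 0 (L - (v.1 ^ 2 + v.2 ^ 2)) = Real.pi * L ^ 2 / 8 := by
  rw [AInt_pol hL Qd AInt_Qd 0 (Real.pi / 2) (by positivity) (by linarith [Real.pi_pos])
    (by linarith [Real.pi_pos])]
  · ring
  · intro r θ hr hθ
    constructor
    · rintro ⟨ha, hb⟩
      have ha' : 0 < r * Real.cos θ := ha
      have hb' : 0 < r * Real.sin θ := hb
      have hc : 0 < Real.cos θ := (mul_pos_iff_of_pos_left hr).1 ha'
      have hs : 0 < Real.sin θ := (mul_pos_iff_of_pos_left hr).1 hb'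
      refine ⟨?_, ((AInt_cos hθ).1 hc).2⟩
      by_contra hcon
      have := Real.sin_nonpos_of_nonpos_of_neg_pi_le (not_lt.1 hcon) hθ.1.le
      linarith
    · rintro ⟨ha, hb⟩
      refine ⟨?_, ?_⟩
      · exact mul_pos hr (Real.cos_pos_of_mem_Ioo ⟨by linarith, hb⟩)
      · exact mul_pos hr (Real.sin_pos_of_pos_of_lt_pi ha hθ.2)

/-- The same for the sector `{v | 0 < v.1, √3 v.1 < v.2}` with the angle `π / 6`.

Proof. As above; the condition is `π / 3 < θ < π / 2` (or exchange the coordinates first: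
`0 < v.2, √3 v.2 < v.1` is `0 < θ < π / 6`). -/
theorem int_sect {L : ℝ} (hL : 0 ≤ L) :
    ∫ v in {v : P | 0 < v.1 ∧ √3 * v.1 < v.2}, max 0 (L - (v.1 ^ 2 + v.2 ^ 2)) =
      Real.pi * L ^ 2 / 24 := by
  have hpi := Real.pi_pos
  rw [AInt_pol hL _ AInt_sec (Real.pi / 3) (Real.pi / 2) (by linarith) (by linarith)
    (by linarith)]
  · ring
  · intro r θ hr hθ
    have hsub : Real.sin (θ - Real.pi / 3) = (Real.sin θ - √3 * Real.cos θ) / 2 := by
      rw [Real.sin_sub, Real.cos_pi_div_three, Real.sin_pi_div_three]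
      ring
    simp only [mem_ofPred_eq]
    constructor
    · rintro ⟨ha, hb⟩
      have hc : 0 < Real.cos θ := (mul_pos_iff_of_pos_left hr).1 ha
      have hb' : 0 < r * (Real.sin θ - √3 * Real.cos θ) := by nlinarith
      have hs : 0 < Real.sin θ - √3 * Real.cos θ := (mul_pos_iff_of_pos_left hr).1 hb'
      have hci := (AInt_cos hθ).1 hc
      refine ⟨?_, hci.2⟩
      by_contra hcon
      have := Real.sin_nonpos_of_nonpos_of_neg_pi_le (x := θ - Real.pi / 3)
        (by linarith [not_lt.1 hcon]) (by linarith [hci.1])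
      rw [hsub] at this
      linarith
    · rintro ⟨ha, hb⟩
      refine ⟨mul_pos hr (Real.cos_pos_of_mem_Ioo ⟨by linarith, hb⟩), ?_⟩
      have := Real.sin_pos_of_pos_of_lt_pi (x := θ - Real.pi / 3) (by linarith) (by linarith)
      rw [hsub] at this
      nlinarith

/-- For the square: `Λ² / (8 π)`.

Proof. `int_quad` and the scaling `v ↦ π v` of the quadrant (`Measure.setIntegral_comp_smul` or
`integral_comp_mul_left_Ioi` twice after Fubini; `PG.integral_cf` with `α = π`, `β = 0` for the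
indicator functions). -/
theorem int_box {L : ℝ} (hL : 0 ≤ L) :
    ∫ v in Qd, max 0 (L - qf (Real.pi ^ 2) 0 (Real.pi ^ 2) v) = L ^ 2 / (8 * Real.pi) := by
  have hpi := Real.pi_pos
  have hpi2 : (0 : ℝ) < Real.pi ^ 2 := by positivity
  have e1 : ∫ v in Qd, max 0 (L - qf (Real.pi ^ 2) 0 (Real.pi ^ 2) v) =
      ∫ v in Qd, max 0 (L - Real.pi ^ 2 * (v.1 ^ 2 + v.2 ^ 2)) := by
    refine integral_congr_ae (Eventually.of_forall fun v => ?_)
    simp only [qf]
    congr 1
    ring
  rw [e1, AInt_scale hpi2 Qd (fun v => v.1 ^ 2 + v.2 ^ 2), int_quad (by positivity)]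
  field_simp

/-- For the triangle: `√3 Λ² / (16 π)`.

Proof. The linear map `A v = (π v.1 / √3, π (3 v.1 + 2 v.2) / 3)` with the determinant
`2 π² / (3 √3)` maps `Qd` onto the sector of `int_sect`, and
`(A v).1² + (A v).2² = 4 π² / 9 (3 v.1² + 3 v.1 v.2 + v.2²)`. Change of variables:
`integral_image_eq_integral_abs_det_fderiv_smul`, or `Measure.addHaar_preimage_linearMap`, or on the
slices (for fixed `v.1` substitute in `v.2`, then in `v.1`). -/
theorem int_tri {L : ℝ} (hL : 0 ≤ L) :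
    ∫ v in Qd, max 0 (L - qf (4 * Real.pi ^ 2 / 3) (4 * Real.pi ^ 2 / 3) (4 * Real.pi ^ 2 / 9) v) =
      √3 * L ^ 2 / (16 * Real.pi) := by
  have hpi := Real.pi_pos
  have h3 : (0 : ℝ) < √3 := Real.sqrt_pos.2 (by norm_num)
  have h33 : √3 ^ 2 = 3 := Real.sq_sqrt (by norm_num)
  have hk : (0 : ℝ) < 4 * Real.pi ^ 2 / 9 := by positivity
  have e1 : ∫ v in Qd, max 0 (L - qf (4 * Real.pi ^ 2 / 3) (4 * Real.pi ^ 2 / 3)
      (4 * Real.pi ^ 2 / 9) v) = ∫ v in Qd, max 0 (L - 4 * Real.pi ^ 2 / 9 *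
        ((√3 / 2 * v.1) ^ 2 + (3 / 2 * v.1 + v.2) ^ 2)) := by
    refine integral_congr_ae (Eventually.of_forall fun v => ?_)
    simp only [qf]
    congr 2
    have : (√3 / 2 * v.1) ^ 2 = 3 / 4 * v.1 ^ 2 := by
      rw [mul_pow, div_pow, h33]; ring
    rw [this]
    ring
  set M : ℝ := L / (4 * Real.pi ^ 2 / 9) with hM
  have hM0 : 0 ≤ M := by positivity
  set T : Set P := {v : P | 0 < v.1 ∧ √3 * v.1 < v.2} with hT
  have hTm : MeasurableSet T := AInt_sec
  have e2 : ∫ v in Qd, max 0 (M - ((√3 / 2 * v.1) ^ 2 + (3 / 2 * v.1 + v.2) ^ 2)) =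
      2 / √3 * ∫ v in T, max 0 (M - (v.1 ^ 2 + v.2 ^ 2)) := by
    rw [← integral_indicator AInt_Qd, ← integral_indicator hTm, ← AInt_lin]
    · refine integral_congr_ae (Eventually.of_forall fun v => ?_)
      have hiff : v ∈ Qd ↔ ((√3 / 2 * v.1, 3 / 2 * v.1 + v.2) : P) ∈ T := by
        simp only [hT, Qd, mem_prod, mem_Ioi, mem_ofPred_eq]
        have e : √3 * (√3 / 2 * v.1) = 3 / 2 * v.1 := by
          have : √3 * (√3 / 2 * v.1) = √3 ^ 2 / 2 * v.1 := by ring
          rw [this, h33]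
        rw [e]
        constructor
        · rintro ⟨ha, hb⟩
          exact ⟨by positivity, by linarith⟩
        · rintro ⟨ha, hb⟩
          exact ⟨(mul_pos_iff_of_pos_left (by positivity)).1 ha, by linarith⟩
      by_cases hv : v ∈ Qd
      · simp only [indicator_of_mem hv, indicator_of_mem (hiff.1 hv)]
      · simp only [indicator_of_notMem hv, indicator_of_notMem (fun h => hv (hiff.2 h))]
    · refine Measurable.indicator ?_ hTm
      fun_prop
  rw [e1, AInt_scale hk Qd (fun v => (√3 / 2 * v.1) ^ 2 + (3 / 2 * v.1 + v.2) ^ 2), ← hM, e2,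
    int_sect hM0, hM]
  have hpi0 : Real.pi ≠ 0 := hpi.ne'
  have h30 : √3 ≠ 0 := h3.ne'
  field_simp
  have : (0 : ℝ) = 0 := rfl
  nlinarith [h33]

end Pool.Agent.MP4eed4eI
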