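import Pool.Agent.Lib.MP_4eed4e_an_I.IDefs

set_option autoImplicit false

/-!
Project I, block A: sums over the points of a lattice and integrals over the quadrant.
-/

namespace Pool.Agent.MP4eed4eI

open Pool.Agent.MP4eed4eP MeasureTheory Set Filter Topology

/-- The quadratic form. -/
def qf (a b c : ℝ) (v : P) : ℝ := a * v.1 ^ 2 + b * (v.1 * v.2) + c * v.2 ^ 2

/-- The open quadrant. -/
def Qd : Set P := Ioi 0 ×ˢ Ioi 0

/-- The lattice point `(m + 1, n + 1)`. -/
def lat (p : ℕ × ℕ) : P := ((p.1 : ℝ) + 1, (p.2 : ℝ) + 1)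

variable {a b c : ℝ}

/-- `qf` is increasing in both variables on the closed quadrant. -/
theorem qf_mono (ha : 0 < a) (hb : 0 ≤ b) (hc : 0 < c) {v w : P} (h1 : 0 ≤ v.1) (h2 : 0 ≤ v.2)
    (h3 : v.1 ≤ w.1) (h4 : v.2 ≤ w.2) : qf a b c v ≤ qf a b c w := by
  unfold qf
  have e1 : v.1 ^ 2 ≤ w.1 ^ 2 := by gcongr
  have e2 : v.2 ^ 2 ≤ w.2 ^ 2 := by gcongr
  have e3 : v.1 * v.2 ≤ w.1 * w.2 := mul_le_mul h3 h4 h2 (h1.trans h3)
  have e4 := mul_le_mul_of_nonneg_left e1 ha.le
  have e5 := mul_le_mul_of_nonneg_left e2 hc.le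
  have e6 := mul_le_mul_of_nonneg_left e3 hb
  linarith

private theorem ALat_cont (a b c L : ℝ) :
    Continuous (fun v : P => max 0 (L - qf a b c v)) := by
  unfold qf
  fun_prop

private theorem ALat_nonneg (a b c L : ℝ) (v : P) : 0 ≤ max 0 (L - qf a b c v) :=
  le_max_left _ _

/-- In the level set both coordinates are bounded. -/
private theorem ALat_bd (ha : 0 < a) (hb : 0 ≤ b) (hc : 0 < c) {L : ℝ} {v : P} (h1 : 0 ≤ v.1)
    (h2 : 0 ≤ v.2) (h : qf a b c v < L) : v.1 < √(L / a) ∧ v.2 < √(L / c) := by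
  have h3 : 0 ≤ b * (v.1 * v.2) := mul_nonneg hb (mul_nonneg h1 h2)
  have h4 : 0 ≤ a * v.1 ^ 2 := by positivity
  have h5 : 0 ≤ c * v.2 ^ 2 := by positivity
  unfold qf at h
  constructor
  · apply Real.lt_sqrt_of_sq_lt
    rw [lt_div_iff₀ ha]
    linarith
  · apply Real.lt_sqrt_of_sq_lt
    rw [lt_div_iff₀ hc]
    linarith

/-- The unit square above and to the right of the point `(x, y)`. -/
private def ALatSq (p : ℕ × ℕ) : Set P :=
  Ioc (p.1 : ℝ) ((p.1 : ℝ) + 1) ×ˢ Ioc (p.2 : ℝ) ((p.2 : ℝ) + 1)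

private theorem ALatSq_meas (p : ℕ × ℕ) : MeasurableSet (ALatSq p) :=
  measurableSet_Ioc.prod measurableSet_Ioc

private theorem ALatSq_vol (p : ℕ × ℕ) : (volume : Measure P).real (ALatSq p) = 1 := by
  unfold ALatSq
  rw [Measure.volume_eq_prod, measureReal_prod_prod]
  simp [Measure.real]

private theorem ALatSq_disj {p q : ℕ × ℕ} (h : p ≠ q) : Disjoint (ALatSq p) (ALatSq q) := by
  rw [Set.disjoint_left]
  rintro v ⟨h1, h2⟩ ⟨h3, h4⟩
  apply h
  have key : ∀ {m n : ℕ} {x : ℝ}, x ∈ Ioc (m : ℝ) ((m : ℝ) + 1) →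
      x ∈ Ioc (n : ℝ) ((n : ℝ) + 1) → m = n := by
    intro m n x hm hn
    have e1 : (m : ℝ) < n + 1 := lt_of_lt_of_le hm.1 hn.2
    have e2 : (n : ℝ) < m + 1 := lt_of_lt_of_le hn.1 hm.2
    have e3 : m < n + 1 := by exact_mod_cast e1
    have e4 : n < m + 1 := by exact_mod_cast e2
    omega
  exact Prod.ext (key h1 h3) (key h2 h4)

/-- There are only finitely many lattice points below a given level, at most `C L` many; precisely
they lie in a box.

Proof. `a (m + 1)² ≤ qf < L`. -/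
theorem lat_fin (ha : 0 < a) (hb : 0 ≤ b) (hc : 0 < c) (L : ℝ) :
    {p : ℕ × ℕ | qf a b c (lat p) < L}.Finite := by
  refine Set.Finite.subset ((Finset.range ⌈√(L / a)⌉₊ ×ˢ Finset.range ⌈√(L / c)⌉₊).finite_toSet)
    ?_
  intro p hp
  have h1 : (0 : ℝ) ≤ (lat p).1 := by unfold lat; positivity
  have h2 : (0 : ℝ) ≤ (lat p).2 := by unfold lat; positivity
  obtain ⟨h3, h4⟩ := ALat_bd ha hb hc h1 h2 hp
  simp only [Finset.coe_product, Finset.coe_range, Set.mem_prod, Set.mem_Iio]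
  have h5 : (lat p).1 = (p.1 : ℝ) + 1 := rfl
  have h6 : (lat p).2 = (p.2 : ℝ) + 1 := rfl
  constructor
  · rw [Nat.lt_ceil]
    linarith
  · rw [Nat.lt_ceil]
    linarith

/-- Integrability on the quadrant.

Proof. The function is continuous, bounded by `max 0 L`, and on `Qd` it vanishes outside the bounded
set `{v | v.1 ≤ √(L / a) ∧ v.2 ≤ √(L / c)}`. -/
theorem int_gq (ha : 0 < a) (hb : 0 ≤ b) (hc : 0 < c) (L : ℝ) :
    IntegrableOn (fun v : P => max 0 (L - qf a b c v)) Qd := by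
  have hK : IntegrableOn (fun v : P => max 0 (L - qf a b c v))
      (Icc ((0 : ℝ), (0 : ℝ)) (√(L / a), √(L / c))) :=
    (ALat_cont a b c L).continuousOn.integrableOn_compact isCompact_Icc
  refine hK.of_forall_sdiff_eq_zero (measurableSet_Ioi.prod measurableSet_Ioi) ?_
  rintro v ⟨⟨h1, h2⟩, h3⟩
  have h1' : 0 < v.1 := h1
  have h2' : 0 < v.2 := h2
  refine max_eq_left ?_
  by_contra hcon
  push Not at hcon
  obtain ⟨h4, h5⟩ := ALat_bd ha hb hc (L := L) h1'.le h2'.le (by linarith)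
  exact h3 ⟨⟨h1'.le, h2'.le⟩, ⟨h4.le, h5.le⟩⟩

/-- Upper bound for the sum.

Proof. The squares `Ioc m (m + 1) ×ˢ Ioc n (n + 1)`, `(m, n) ∈ F`, are disjoint subsets of `Qd` with
measure `1`; on such a square the function is `≥` its value at `lat (m, n)` (`qf_mono`). So the
sum is `≤ ∑ ∫ over the square = ∫ over the union ≤ ∫ over Qd` (`integral_biUnion_finset`,
`setIntegral_mono_set`). -/
theorem lat_upper (ha : 0 < a) (hb : 0 ≤ b) (hc : 0 < c) (L : ℝ) (F : Finset (ℕ × ℕ)) :
    ∑ p ∈ F, max 0 (L - qf a b c (lat p)) ≤ ∫ v in Qd, max 0 (L - qf a b c v) := by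
  have hint := int_gq ha hb hc L
  have hsub : ∀ p : ℕ × ℕ, ALatSq p ⊆ Qd := by
    rintro p v ⟨h1, h2⟩
    refine ⟨?_, ?_⟩
    · exact lt_of_le_of_lt (Nat.cast_nonneg _) h1.1
    · exact lt_of_le_of_lt (Nat.cast_nonneg _) h2.1
  have h1 : ∀ p ∈ F, max 0 (L - qf a b c (lat p)) ≤
      ∫ v in ALatSq p, max 0 (L - qf a b c v) := by
    intro p _
    have h2 : ∫ v in ALatSq p, max 0 (L - qf a b c (lat p)) = max 0 (L - qf a b c (lat p)) := by
      rw [setIntegral_const, ALatSq_vol, one_smul]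
    rw [← h2]
    have hfin : volume (ALatSq p) ≠ ⊤ := by
      intro h
      have := ALatSq_vol p
      simp [Measure.real, h] at this
    refine setIntegral_mono_on (integrableOn_const hfin) (hint.mono_set (hsub p))
      (ALatSq_meas p) ?_
    rintro v ⟨hv1, hv2⟩
    have e1 : (0 : ℝ) ≤ v.1 := le_trans (Nat.cast_nonneg _) hv1.1.le
    have e2 : (0 : ℝ) ≤ v.2 := le_trans (Nat.cast_nonneg _) hv2.1.le
    have := qf_mono ha hb hc (v := v) (w := lat p) e1 e2 hv1.2 hv2.2
    exact max_le_max le_rfl (by linarith)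
  calc ∑ p ∈ F, max 0 (L - qf a b c (lat p))
      ≤ ∑ p ∈ F, ∫ v in ALatSq p, max 0 (L - qf a b c v) := Finset.sum_le_sum h1
    _ = ∫ v in ⋃ p ∈ F, ALatSq p, max 0 (L - qf a b c v) := by
        rw [integral_biUnion_finset F (fun p _ => ALatSq_meas p)
          (fun p _ q _ h => ALatSq_disj h) (fun p _ => hint.mono_set (hsub p))]
    _ ≤ ∫ v in Qd, max 0 (L - qf a b c v) := by
        refine setIntegral_mono_set hint ?_ ?_
        · exact Eventually.of_forall fun v => ALat_nonneg a b c L v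
        · exact (iUnion₂_subset fun p _ => hsub p).eventuallyLE

/-- Lower bound for the sum.

Proof. Split `Qd` in `{v | 1 ≤ v.1 ∧ 1 ≤ v.2}` and the rest. On the rest the function is `≤ L` and
vanishes outside `(0, 1) × (0, √(L / c))` and `(0, √(L / a)) × (0, 1)`: the integral over the rest
is `≤ L (√(L / c) + √(L / a))`. The integral over the first part is the integral over its
intersection with `{qf < L}`, which is contained in the union of the disjoint squares
`Ico (m + 1) (m + 2) ×ˢ Ico (n + 1) (n + 2)`, `(m, n) ∈ F` (`m + 1 = ⌊v.1⌋₊`, and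
`qf (lat (m, n)) ≤ qf v < L`); on the square the function is `≤` its value at `lat (m, n)`. -/
theorem lat_lower (ha : 0 < a) (hb : 0 ≤ b) (hc : 0 < c) {L : ℝ} (hL : 0 ≤ L)
    (F : Finset (ℕ × ℕ)) (hF : ∀ p, qf a b c (lat p) < L → p ∈ F) :
    (∫ v in Qd, max 0 (L - qf a b c v)) - L * (√(L / a) + √(L / c)) ≤
      ∑ p ∈ F, max 0 (L - qf a b c (lat p)) := by
  classical
  set A : Set P := Ioc (0 : ℝ) 1 ×ˢ Ioc (0 : ℝ) (√(L / c)) with hA
  set B : Set P := Ioc (0 : ℝ) (√(L / a)) ×ˢ Ioc (0 : ℝ) 1 with hB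
  set Sq : ℕ × ℕ → Set P := fun p =>
    Ico ((p.1 : ℝ) + 1) ((p.1 : ℝ) + 2) ×ˢ Ico ((p.2 : ℝ) + 1) ((p.2 : ℝ) + 2) with hSq
  set g : P → ℝ := fun v => (∑ p ∈ F, (Sq p).indicator
    (fun _ => max 0 (L - qf a b c (lat p))) v) + A.indicator (fun _ => L) v +
      B.indicator (fun _ => L) v with hg
  have mA : MeasurableSet A := measurableSet_Ioc.prod measurableSet_Ioc
  have mB : MeasurableSet B := measurableSet_Ioc.prod measurableSet_Ioc
  have mS : ∀ p, MeasurableSet (Sq p) := fun p => measurableSet_Ico.prod measurableSet_Ico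
  have vA : (volume : Measure P).real A = √(L / c) := by
    rw [hA, Measure.volume_eq_prod, measureReal_prod_prod]
    simp [Measure.real]
  have vB : (volume : Measure P).real B = √(L / a) := by
    rw [hB, Measure.volume_eq_prod, measureReal_prod_prod]
    simp [Measure.real]
  have vS : ∀ p, (volume : Measure P).real (Sq p) = 1 := by
    intro p
    simp only [hSq]
    rw [Measure.volume_eq_prod, measureReal_prod_prod]
    have e : ∀ x : ℝ, x + 2 - (x + 1) = 1 := fun x => by ring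
    simp [Measure.real, e]
  have fin : ∀ {a1 a2 b1 b2 : ℝ}, (volume : Measure P) (Ioc a1 a2 ×ˢ Ioc b1 b2) ≠ ⊤ := by
    intro a1 a2 b1 b2
    rw [Measure.volume_eq_prod, Measure.prod_prod]
    exact ENNReal.mul_ne_top (by simp) (by simp)
  have finS : ∀ p, (volume : Measure P) (Sq p) ≠ ⊤ := by
    intro p
    simp only [hSq]
    rw [Measure.volume_eq_prod, Measure.prod_prod]
    exact ENNReal.mul_ne_top (by simp) (by simp)
  have iA : Integrable (A.indicator (fun _ => L)) := (integrable_indicator_iff mA).2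
    (integrableOn_const fin)
  have iB : Integrable (B.indicator (fun _ => L)) := (integrable_indicator_iff mB).2
    (integrableOn_const fin)
  have iS : ∀ p, Integrable ((Sq p).indicator (fun _ => max 0 (L - qf a b c (lat p)))) :=
    fun p => (integrable_indicator_iff (mS p)).2 (integrableOn_const (finS p))
  have iSum : Integrable (fun v => ∑ p ∈ F, (Sq p).indicator
      (fun _ => max 0 (L - qf a b c (lat p))) v) := integrable_finsetSum F fun p _ => iS p
  have ig : Integrable g := (iSum.add iA).add iB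
  have g0 : ∀ v, 0 ≤ g v := by
    intro v
    simp only [hg]
    have e1 : 0 ≤ ∑ p ∈ F, (Sq p).indicator (fun _ => max 0 (L - qf a b c (lat p))) v :=
      Finset.sum_nonneg fun p _ => Set.indicator_nonneg (fun _ _ => le_max_left _ _) v
    have e2 : 0 ≤ A.indicator (fun _ => L) v := Set.indicator_nonneg (fun _ _ => hL) v
    have e3 : 0 ≤ B.indicator (fun _ => L) v := Set.indicator_nonneg (fun _ _ => hL) v
    linarith
  have hfg : ∀ v ∈ Qd, max 0 (L - qf a b c v) ≤ g v := by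
    rintro v ⟨h1, h2⟩
    have h1' : 0 < v.1 := h1
    have h2' : 0 < v.2 := h2
    rcases le_or_gt L (qf a b c v) with h3 | h3
    · rw [max_eq_left (by linarith)]
      exact g0 v
    obtain ⟨h4, h5⟩ := ALat_bd ha hb hc h1'.le h2'.le h3
    have hq : 0 ≤ qf a b c v := by
      unfold qf
      positivity
    have e1 : 0 ≤ ∑ p ∈ F, (Sq p).indicator (fun _ => max 0 (L - qf a b c (lat p))) v :=
      Finset.sum_nonneg fun p _ => Set.indicator_nonneg (fun _ _ => le_max_left _ _) v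
    have e2 : 0 ≤ A.indicator (fun _ => L) v := Set.indicator_nonneg (fun _ _ => hL) v
    have e3 : 0 ≤ B.indicator (fun _ => L) v := Set.indicator_nonneg (fun _ _ => hL) v
    have e4 : max 0 (L - qf a b c v) ≤ L := max_le hL (by linarith)
    rcases le_or_gt v.1 1 with h6 | h6
    · have : A.indicator (fun _ => L) v = L :=
        Set.indicator_of_mem (show v ∈ A from ⟨⟨h1', h6⟩, ⟨h2', h5.le⟩⟩) _
      simp only [hg]
      linarith
    rcases le_or_gt v.2 1 with h7 | h7
    · have : B.indicator (fun _ => L) v = L :=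
        Set.indicator_of_mem (show v ∈ B from ⟨⟨h1', h4.le⟩, ⟨h2', h7⟩⟩) _
      simp only [hg]
      linarith
    set p : ℕ × ℕ := (⌊v.1 - 1⌋₊, ⌊v.2 - 1⌋₊) with hp
    have f1 : (⌊v.1 - 1⌋₊ : ℝ) ≤ v.1 - 1 := Nat.floor_le (by linarith)
    have f2 : (⌊v.2 - 1⌋₊ : ℝ) ≤ v.2 - 1 := Nat.floor_le (by linarith)
    have f3 : v.1 - 1 < (⌊v.1 - 1⌋₊ : ℝ) + 1 := Nat.lt_floor_add_one _
    have f4 : v.2 - 1 < (⌊v.2 - 1⌋₊ : ℝ) + 1 := Nat.lt_floor_add_one _
    have hle : qf a b c (lat p) ≤ qf a b c v := by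
      refine qf_mono ha hb hc ?_ ?_ ?_ ?_
      · change (0 : ℝ) ≤ (⌊v.1 - 1⌋₊ : ℝ) + 1
        positivity
      · change (0 : ℝ) ≤ (⌊v.2 - 1⌋₊ : ℝ) + 1
        positivity
      · change (⌊v.1 - 1⌋₊ : ℝ) + 1 ≤ v.1
        linarith
      · change (⌊v.2 - 1⌋₊ : ℝ) + 1 ≤ v.2
        linarith
    have hpF : p ∈ F := hF p (by linarith)
    have hv : v ∈ Sq p := by
      refine ⟨⟨?_, ?_⟩, ⟨?_, ?_⟩⟩
      · change (⌊v.1 - 1⌋₊ : ℝ) + 1 ≤ v.1
        linarith
      · change v.1 < (⌊v.1 - 1⌋₊ : ℝ) + 2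
        linarith
      · change (⌊v.2 - 1⌋₊ : ℝ) + 1 ≤ v.2
        linarith
      · change v.2 < (⌊v.2 - 1⌋₊ : ℝ) + 2
        linarith
    have h8 : (Sq p).indicator (fun _ => max 0 (L - qf a b c (lat p))) v =
        max 0 (L - qf a b c (lat p)) := Set.indicator_of_mem hv _
    have h9 : (Sq p).indicator (fun _ => max 0 (L - qf a b c (lat p))) v ≤
        ∑ p ∈ F, (Sq p).indicator (fun _ => max 0 (L - qf a b c (lat p))) v :=
      Finset.single_le_sum (f := fun p => (Sq p).indicator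
        (fun _ => max 0 (L - qf a b c (lat p))) v)
        (fun p _ => Set.indicator_nonneg (fun _ _ => le_max_left _ _) v) hpF
    have h10 : max 0 (L - qf a b c v) ≤ max 0 (L - qf a b c (lat p)) :=
      max_le_max le_rfl (by linarith)
    simp only [hg]
    linarith
  have hint := int_gq ha hb hc L
  have k1 : ∫ v in Qd, max 0 (L - qf a b c v) ≤ ∫ v in Qd, g v :=
    setIntegral_mono_on hint ig.integrableOn (measurableSet_Ioi.prod measurableSet_Ioi) hfg
  have k2 : ∫ v in Qd, g v ≤ ∫ v, g v :=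
    setIntegral_le_integral ig (Eventually.of_forall g0)
  have k3 : ∫ v, g v = (∑ p ∈ F, max 0 (L - qf a b c (lat p))) + L * √(L / c) +
      L * √(L / a) := by
    have q1 : ∫ v, g v = (∫ v, ((∑ p ∈ F, (Sq p).indicator
        (fun _ => max 0 (L - qf a b c (lat p))) v) + A.indicator (fun _ => L) v)) +
        ∫ v, B.indicator (fun _ => L) v := integral_add (iSum.add iA) iB
    have q2 : ∫ v, ((∑ p ∈ F, (Sq p).indicator
        (fun _ => max 0 (L - qf a b c (lat p))) v) + A.indicator (fun _ => L) v) =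
        (∫ v, ∑ p ∈ F, (Sq p).indicator (fun _ => max 0 (L - qf a b c (lat p))) v) +
        ∫ v, A.indicator (fun _ => L) v := integral_add iSum iA
    rw [q1, q2, integral_finsetSum F fun p _ => iS p,
      integral_indicator_const _ mA, integral_indicator_const _ mB, vA, vB]
    have : ∀ p ∈ F, ∫ v, (Sq p).indicator (fun _ => max 0 (L - qf a b c (lat p))) v =
        max 0 (L - qf a b c (lat p)) := by
      intro p _
      rw [integral_indicator_const _ (mS p), vS, one_smul]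
    rw [Finset.sum_congr rfl this]
    simp only [smul_eq_mul]
    ring
  have k4 : L * (√(L / a) + √(L / c)) = L * √(L / c) + L * √(L / a) := by ring
  linarith

/-- The number of lattice points with one small coordinate.

Proof. `F` is contained in the union of the sets `{p | p.1 < M, p.2 < N}`, `{p | p.1 < N, p.2 < M}`,
`N = ⌈√(L / a)⌉₊` (as `a (p.i + 1)² < L`): cardinality `≤ 2 M N ≤ 2 M (√(L / a) + 1)`. -/
theorem lat_card (ha : 0 < a) {L : ℝ} (hL : 0 ≤ L) (M : ℕ) (F : Finset (ℕ × ℕ))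
    (hF : ∀ p ∈ F, qf a 0 a (lat p) < L ∧ (p.1 < M ∨ p.2 < M)) :
    (F.card : ℝ) ≤ 2 * M * (√(L / a) + 1) := by
  classical
  set N : ℕ := ⌈√(L / a)⌉₊ with hN
  have h1 : F ⊆ (Finset.range M ×ˢ Finset.range N) ∪ (Finset.range N ×ˢ Finset.range M) := by
    intro p hp
    obtain ⟨h2, h3⟩ := hF p hp
    have e1 : (0 : ℝ) ≤ (lat p).1 := by unfold lat; positivity
    have e2 : (0 : ℝ) ≤ (lat p).2 := by unfold lat; positivity
    obtain ⟨h4, h5⟩ := ALat_bd ha le_rfl ha e1 e2 h2
    have h6 : (lat p).1 = (p.1 : ℝ) + 1 := rfl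
    have h7 : (lat p).2 = (p.2 : ℝ) + 1 := rfl
    have h8 : p.1 < N := by
      rw [hN, Nat.lt_ceil]
      linarith
    have h9 : p.2 < N := by
      rw [hN, Nat.lt_ceil]
      linarith
    simp only [Finset.mem_union, Finset.mem_product, Finset.mem_range]
    rcases h3 with h3 | h3
    · left
      exact ⟨h3, h9⟩
    · right
      exact ⟨h8, h3⟩
  have h2 : F.card ≤ M * N + N * M := by
    refine (Finset.card_le_card h1).trans ((Finset.card_union_le _ _).trans ?_)
    simp
  have h3 : (N : ℝ) < √(L / a) + 1 := Nat.ceil_lt_add_one (Real.sqrt_nonneg _)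
  have h4 : (F.card : ℝ) ≤ M * N + N * M := by exact_mod_cast h2
  have h5 : (M : ℝ) * N ≤ M * (√(L / a) + 1) := by
    gcongr
  linarith [mul_comm (N : ℝ) (M : ℝ)]

end Pool.Agent.MP4eed4eI
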