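import Pool.Agent.Lib.MP_4eed4e_an_I.IDefs

set_option autoImplicit false

/-!
Project I, block A: the lemma of Riemann and Lebesgue on a set of finite measure.
-/

namespace Pool.Agent.MP4eed4eI

open Pool.Agent.MP4eed4eP MeasureTheory Set Filter Topology

/-- The functional with the coordinates `a`, `b`. -/
private noncomputable def ARL_w (a b : ℝ) : StrongDual ℝ P :=
  a • ContinuousLinearMap.fst ℝ ℝ ℝ + b • ContinuousLinearMap.snd ℝ ℝ ℝ

private lemma ARL_apply (a b : ℝ) (v : P) : ARL_w a b v = a * v.1 + b * v.2 := rfl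

private lemma ARL_norm (a b : ℝ) : |a| ≤ ‖ARL_w a b‖ ∧ |b| ≤ ‖ARL_w a b‖ := by
  have n1 : ‖((1 : ℝ), (0 : ℝ))‖ = 1 := by simp [Prod.norm_def]
  have n2 : ‖((0 : ℝ), (1 : ℝ))‖ = 1 := by simp [Prod.norm_def]
  have h1 := (ARL_w a b).le_opNorm (1, 0)
  have h2 := (ARL_w a b).le_opNorm (0, 1)
  rw [ARL_apply, n1, mul_one, Real.norm_eq_abs] at h1
  rw [ARL_apply, n2, mul_one, Real.norm_eq_abs] at h2
  simp only [mul_one, mul_zero, add_zero, zero_add] at h1 h2
  exact ⟨h1, h2⟩

private lemma ARL_int {D : Set P} (hD : MeasurableSet D) (hv : volume D < ⊤) (a b : ℝ) :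
    ∫ x in D, Real.cos (2 * Real.pi * (a * x.1 + b * x.2)) =
      (∫ v, Real.fourierChar (-(ARL_w a b v)) • D.indicator (fun _ => (1 : ℂ)) v).re := by
  have h1 : (fun v => Real.fourierChar (-(ARL_w a b v)) • D.indicator (fun _ => (1 : ℂ)) v) =
      D.indicator fun v => ((Real.fourierChar (-(ARL_w a b v)) : Circle) : ℂ) := by
    funext v
    by_cases hvD : v ∈ D
    · rw [Set.indicator_of_mem hvD, Set.indicator_of_mem hvD, Circle.smul_def, smul_eq_mul,
        mul_one]
    · rw [Set.indicator_of_notMem hvD, Set.indicator_of_notMem hvD, smul_zero]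
  have hI : IntegrableOn (fun v : P => ((Real.fourierChar (-(ARL_w a b v)) : Circle) : ℂ)) D := by
    apply Measure.integrableOn_of_bounded (M := 1) hv.ne
    · have hc : Continuous fun v : P =>
          ((Real.fourierChar (-(ARL_w a b v)) : Circle) : ℂ) :=
        continuous_subtype_val.comp
          (Real.continuous_fourierChar.comp (ARL_w a b).continuous.neg)
      exact hc.aestronglyMeasurable
    · exact Eventually.of_forall fun x => by rw [Circle.norm_coe]
  rw [h1, integral_indicator hD, ← RCLike.re_eq_complex_re, ← integral_re hI]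
  refine integral_congr_ae (Eventually.of_forall fun x => ?_)
  simp only [RCLike.re_eq_complex_re]
  rw [Real.fourierChar_apply, Complex.exp_ofReal_mul_I_re, mul_neg, Real.cos_neg, ARL_apply]

/-- Proof. `cos a * cos b = (cos (a + b) + cos (a - b)) / 2`, and `∫_D cos (w x)` with
`w x = 2 π (m x.1 ± n x.2)` is the real part of the Fourier integral of the indicator function of
`D` at a point of the dual which tends to infinity: `Real.zero_at_infty_vector_fourierIntegral` or
`tendsto_integral_exp_smul_cocompact` / `zero_at_infty_fourierIntegral` (file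
`Mathlib/Analysis/Fourier/RiemannLebesgueLemma.lean`). The norm of the functional with the
coordinates `(m, ± n)` is at least `max m n`. -/
theorem riem_leb {D : Set P} (hD : MeasurableSet D) (hv : volume D < ⊤) {ε : ℝ} (hε : 0 < ε) :
    ∃ M : ℕ, ∀ m n : ℕ, (M ≤ m ∨ M ≤ n) →
      |∫ x in D, Real.cos (2 * Real.pi * m * x.1) * Real.cos (2 * Real.pi * n * x.2)| ≤ ε := by
  have ht := tendsto_integral_exp_smul_cocompact (D.indicator fun _ => (1 : ℂ))
    (volume : Measure P)
  obtain ⟨K, hK, hKs⟩ := Filter.mem_cocompact.1 (Metric.tendsto_nhds.1 ht ε hε)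
  obtain ⟨R, hR⟩ := hK.isBounded.exists_norm_le
  obtain ⟨M, hM⟩ := exists_nat_gt R
  refine ⟨M, fun m n hmn => ?_⟩
  have key : ∀ b : ℝ, |b| = n →
      |∫ x in D, Real.cos (2 * Real.pi * (m * x.1 + b * x.2))| ≤ ε := by
    intro b hb
    have hnK : ARL_w m b ∉ K := by
      intro hin
      have h1 := hR _ hin
      obtain ⟨h2, h3⟩ := ARL_norm m b
      rw [hb] at h3
      rw [Nat.abs_cast] at h2
      rcases hmn with h | h
      · have h4 : (M : ℝ) ≤ m := by exact_mod_cast h
        linarith
      · have h4 : (M : ℝ) ≤ n := by exact_mod_cast h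
        linarith
    have h5 := hKs hnK
    simp only [Set.mem_ofPred_eq, dist_zero_right] at h5
    rw [ARL_int hD hv]
    exact (Complex.abs_re_le_norm _).trans h5.le
  have hcos : ∀ b : ℝ, IntegrableOn
      (fun x : P => Real.cos (2 * Real.pi * (m * x.1 + b * x.2))) D := by
    intro b
    apply Measure.integrableOn_of_bounded (M := 1) hv.ne
    · exact (by fun_prop : Continuous fun x : P =>
        Real.cos (2 * Real.pi * (m * x.1 + b * x.2))).aestronglyMeasurable
    · exact Eventually.of_forall fun x => by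
        rw [Real.norm_eq_abs]; exact Real.abs_cos_le_one _
  have hsplit : ∫ x in D, Real.cos (2 * Real.pi * m * x.1) * Real.cos (2 * Real.pi * n * x.2) =
      1 / 2 * ((∫ x in D, Real.cos (2 * Real.pi * (m * x.1 + (n : ℝ) * x.2))) +
        ∫ x in D, Real.cos (2 * Real.pi * (m * x.1 + (-(n : ℝ)) * x.2))) := by
    rw [← integral_add (hcos _) (hcos _), ← integral_const_mul]
    refine integral_congr_ae (Eventually.of_forall fun x => ?_)
    simp only
    have e1 : 2 * Real.pi * (m * x.1 + (n : ℝ) * x.2) =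
        2 * Real.pi * m * x.1 + 2 * Real.pi * n * x.2 := by ring
    have e2 : 2 * Real.pi * (m * x.1 + (-(n : ℝ)) * x.2) =
        2 * Real.pi * m * x.1 - 2 * Real.pi * n * x.2 := by ring
    rw [e1, e2, Real.cos_add, Real.cos_sub]
    ring
  rw [hsplit, abs_mul, abs_of_pos (by norm_num : (0 : ℝ) < 1 / 2)]
  have h1 := key n (Nat.abs_cast n)
  have h2 := key (-(n : ℝ)) (by rw [abs_neg, Nat.abs_cast])
  have h3 := abs_add_le (∫ x in D, Real.cos (2 * Real.pi * (m * x.1 + (n : ℝ) * x.2)))
    (∫ x in D, Real.cos (2 * Real.pi * (m * x.1 + (-(n : ℝ)) * x.2)))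
  linarith

end Pool.Agent.MP4eed4eI
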