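import Pool.Agent.Lib.MP_4eed4e_an_I.TSpec
import Pool.Agent.Lib.MP_4eed4e_an_I.AInt

set_option autoImplicit false

/-!
Project I, block A: the lower bound for the sums of the eigenvalues of the triangle `T0`.
-/

namespace Pool.Agent.MP4eed4eI

open Pool.Agent.MP4eed4eP MeasureTheory Set Filter Topology

/-- The parameters of the eigenfunctions as pairs `(m, n)`: `κ = (m + 1, 3 (m + 1) + 2 (n + 1))`. -/
theorem exists_lat : ∃ g : ℕ × ℕ ≃ KS, ∀ p,
    (mu (g p))⁻¹ = qf (4 * Real.pi ^ 2 / 3) (4 * Real.pi ^ 2 / 3) (4 * Real.pi ^ 2 / 9) (lat p) := by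
  refine ⟨{ toFun := fun p => ⟨(p.1 + 1, 3 * (p.1 + 1) + 2 * (p.2 + 1)), by
              refine ⟨?_, ?_, ?_⟩
              · change 1 ≤ p.1 + 1
                omega
              · change 3 * (p.1 + 1) < 3 * (p.1 + 1) + 2 * (p.2 + 1)
                omega
              · change (p.1 + 1) % 2 = (3 * (p.1 + 1) + 2 * (p.2 + 1)) % 2
                omega⟩
            invFun := fun κ => (κ.1.1 - 1, (κ.1.2 - 3 * κ.1.1) / 2 - 1)
            left_inv := ?_
            right_inv := ?_ }, fun p => ?_⟩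
  · rintro ⟨m, n⟩
    simp only [Prod.mk.injEq]
    omega
  · rintro ⟨⟨M, M'⟩, q1, q2, q3⟩
    simp only at q1 q2 q3
    simp only [Subtype.mk.injEq, Prod.mk.injEq]
    omega
  · unfold mu
    rw [inv_div]
    unfold nrm qf lat
    simp only [Equiv.coe_fn_mk]
    push_cast
    ring

/-- The lower bound.

Proof. `e : ℕ ≃ KS` from `lamL_T0`, `g` from `exists_lat`. Let `F` be the finite set of all `p` with
`qf .. (lat p) < L` (`lat_fin`), and `n` larger than all `e.symm (g p)`, `p ∈ F`. Then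
`∑ k < n, max 0 (L - lamL T0 (k + 1)) ≥ ∑ p ∈ F, max 0 (L - qf (lat p))` (the map
`p ↦ e.symm (g p)` is injective from `F` into `range n`, all terms are `≥ 0`:
`Finset.sum_le_sum_of_subset_of_nonneg` after `Finset.sum_image`) and `lat_lower`, `int_tri`;
`√(L / a) + √(L / c) ≤ √L` for `L ≥ 0` since `a = 4 π² / 3 ≥ 13`, `c = 4 π² / 9 ≥ 4`. -/
theorem tri_lower {L : ℝ} (hL : 0 ≤ L) : ∃ n : ℕ,
    √3 * L ^ 2 / (16 * Real.pi) - L * √L ≤
      ∑ k ∈ Finset.range n, max 0 (L - lamL T0 (k + 1)) := by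
  obtain ⟨e, -, hl⟩ := lamL_T0
  obtain ⟨g, hg⟩ := exists_lat
  have hpi : 9 < Real.pi ^ 2 := by
    have := Real.pi_gt_three
    nlinarith
  have ha : 0 < 4 * Real.pi ^ 2 / 3 := by positivity
  have hc : 0 < 4 * Real.pi ^ 2 / 9 := by positivity
  have hfin := lat_fin ha ha.le hc L
  have hlow := lat_lower ha ha.le hc hL hfin.toFinset
    (fun p hp => by rw [Set.Finite.mem_toFinset]; exact hp)
  rw [int_tri hL] at hlow
  have hsq : √(L / (4 * Real.pi ^ 2 / 3)) + √(L / (4 * Real.pi ^ 2 / 9)) ≤ √L := by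
    have h0 := Real.sqrt_nonneg L
    have h1 : √(L / (4 * Real.pi ^ 2 / 3)) ≤ √L / 3 := by
      rw [Real.sqrt_le_left (by positivity), div_pow, Real.sq_sqrt hL]
      exact div_le_div_of_nonneg_left hL (by norm_num) (by nlinarith)
    have h2 : √(L / (4 * Real.pi ^ 2 / 9)) ≤ √L / 2 := by
      rw [Real.sqrt_le_left (by positivity), div_pow, Real.sq_sqrt hL]
      exact div_le_div_of_nonneg_left hL (by norm_num) (by nlinarith)
    linarith
  have hmul := mul_le_mul_of_nonneg_left hsq hL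
  refine ⟨(hfin.toFinset.image (fun p => e.symm (g p))).sup id + 1, ?_⟩
  have hsum : ∑ p ∈ hfin.toFinset, max 0 (L - qf (4 * Real.pi ^ 2 / 3) (4 * Real.pi ^ 2 / 3)
      (4 * Real.pi ^ 2 / 9) (lat p)) =
      ∑ k ∈ hfin.toFinset.image (fun p => e.symm (g p)), max 0 (L - lamL T0 (k + 1)) := by
    rw [Finset.sum_image (fun p _ p' _ h => g.injective (e.symm.injective h))]
    refine Finset.sum_congr rfl fun p _ => ?_
    rw [hl, Equiv.apply_symm_apply, hg]
  have hsub : ∑ k ∈ hfin.toFinset.image (fun p => e.symm (g p)), max 0 (L - lamL T0 (k + 1)) ≤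
      ∑ k ∈ Finset.range ((hfin.toFinset.image (fun p => e.symm (g p))).sup id + 1),
        max 0 (L - lamL T0 (k + 1)) := by
    refine Finset.sum_le_sum_of_subset_of_nonneg (fun k hk => ?_) fun k _ _ => le_max_left _ _
    rw [Finset.mem_range, Nat.lt_succ_iff]
    exact Finset.le_sup (f := id) hk
  rw [hsum] at hlow
  linarith

end Pool.Agent.MP4eed4eI
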