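import Pool.Agent.Lib.MP_4eed4e_an_I.ABer
import Pool.Agent.Lib.MP_4eed4e_an_I.ARL
import Pool.Agent.Lib.MP_4eed4e_an_I.AInt

set_option autoImplicit false

/-!
Project I, block A: the upper bound for the sums of the eigenvalues of a subset of the square.
-/

namespace Pool.Agent.MP4eed4eI

open Pool.Agent.MP4eed4eP Pool.Agent.MP4eed4eX.L MeasureTheory Set Filter Topology

variable {D : Set P} [DU D]

private theorem AUp_vol (D : Set P) [DU D] : (volume D).toReal ≤ 1 := by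
  have h1 : (volume : Measure P) (Ioo (0 : ℝ) 1 ×ˢ Ioo (0 : ℝ) 1) = 1 := by
    rw [Measure.volume_eq_prod, Measure.prod_prod, Real.volume_Ioo]
    simp
  have h2 : volume D ≤ 1 := h1 ▸ measure_mono (DU_subset D)
  have h3 := ENNReal.toReal_mono ENNReal.one_ne_top h2
  rwa [ENNReal.toReal_one] at h3

private theorem AUp_int (D : Set P) [DU D] {f : P → ℝ} (hf : Continuous f) {C : ℝ}
    (hC : ∀ x, |f x| ≤ C) : IntegrableOn f D := by
  apply Measure.integrableOn_of_bounded (M := C) (volume_DU_lt_top D).ne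
    hf.aestronglyMeasurable
  exact Eventually.of_forall fun x => by
    rw [Real.norm_eq_abs]
    exact hC x

private theorem AUp_cos (D : Set P) [DU D] (m n : ℕ) : Integrable (fun x : P =>
    Real.cos (2 * Real.pi * (m : ℝ) * x.1) * Real.cos (2 * Real.pi * (n : ℝ) * x.2))
    (volume.restrict D) := by
  refine AUp_int D (by fun_prop) (C := 1) fun x => ?_
  rw [abs_mul]
  exact mul_le_one₀ (Real.abs_cos_le_one _) (abs_nonneg _) (Real.abs_cos_le_one _)

private theorem AUp_sum {D : Set P} [DU D] {f g h : P → ℝ}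
    (hf : Integrable f (volume.restrict D)) (hg : Integrable g (volume.restrict D))
    (hh : Integrable h (volume.restrict D)) {ε : ℝ} (h1 : -(ε / 3) ≤ ∫ x in D, f x)
    (h2 : -(ε / 3) ≤ ∫ x in D, g x) (h3 : ∫ x in D, h x ≤ ε / 3) :
    ∫ x in D, (1 - f x - g x + h x) ≤ (volume D).toReal + ε := by
  have i1 : Integrable (fun _ : P => (1 : ℝ)) (volume.restrict D) := integrable_const _
  have i2 : Integrable (fun x => 1 - f x) (volume.restrict D) := i1.sub hf
  have i3 : Integrable (fun x => 1 - f x - g x) (volume.restrict D) := i2.sub hg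
  rw [integral_add i3 hh, integral_sub i2 hg, integral_sub i1 hf, setIntegral_const,
    smul_eq_mul, mul_one]
  have h5 : (volume : Measure P).real D = (volume D).toReal := rfl
  rw [h5]
  linarith

private theorem AUp_four (p : ℕ × ℕ) (x : P) : ss p x ^ 2 ≤ 4 := by
  unfold ss
  have h1 := Real.sin_sq_le_one ((p.1 + 1 : ℝ) * Real.pi * x.1)
  have h2 := Real.sin_sq_le_one ((p.2 + 1 : ℝ) * Real.pi * x.2)
  have h3 := mul_le_one₀ h1 (sq_nonneg _) h2
  nlinarith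

private theorem AUp_id (p : ℕ × ℕ) (x : P) : ss p x ^ 2 = (((1 : ℝ) -
        Real.cos (2 * Real.pi * ((p.1 + 1 : ℕ) : ℝ) * x.1) *
          Real.cos (2 * Real.pi * ((0 : ℕ) : ℝ) * x.2)) -
        Real.cos (2 * Real.pi * ((0 : ℕ) : ℝ) * x.1) *
          Real.cos (2 * Real.pi * ((p.2 + 1 : ℕ) : ℝ) * x.2)) +
        Real.cos (2 * Real.pi * ((p.1 + 1 : ℕ) : ℝ) * x.1) *
          Real.cos (2 * Real.pi * ((p.2 + 1 : ℕ) : ℝ) * x.2) := by
  have e1 : 2 * Real.pi * ((p.1 + 1 : ℕ) : ℝ) * x.1 =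
      2 * ((p.1 + 1 : ℝ) * Real.pi * x.1) := by
    push_cast
    ring
  have e2 : 2 * Real.pi * ((p.2 + 1 : ℕ) : ℝ) * x.2 =
      2 * ((p.2 + 1 : ℝ) * Real.pi * x.2) := by
    push_cast
    ring
  rw [e1, e2, Nat.cast_zero, mul_zero, zero_mul, zero_mul, Real.cos_zero, Real.cos_two_mul,
    Real.cos_two_mul]
  unfold ss
  have h1 := Real.sin_sq_add_cos_sq ((p.1 + 1 : ℝ) * Real.pi * x.1)
  have h2 := Real.sin_sq_add_cos_sq ((p.2 + 1 : ℝ) * Real.pi * x.2)
  have h3 : Real.cos ((p.1 + 1 : ℝ) * Real.pi * x.1) ^ 2 =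
      1 - Real.sin ((p.1 + 1 : ℝ) * Real.pi * x.1) ^ 2 := by linarith
  have h4 : Real.cos ((p.2 + 1 : ℝ) * Real.pi * x.2) ^ 2 =
      1 - Real.sin ((p.2 + 1 : ℝ) * Real.pi * x.2) ^ 2 := by linarith
  rw [h3, h4]
  ring

/-- `∫_D s_p² = |D| - oscillating integrals`, and it is `≤ 4`.

Proof. `(2 sin a sin b)² = (1 - cos 2a) (1 - cos 2b)`; with `a = (m + 1) π x`, and `M` from
`riem_leb` (for `ε / 3`): each of the three oscillating integrals (`cos 2a`, `cos 2b`,
`cos 2a cos 2b`; take `n = 0` or `m = 0` in `riem_leb` for the first two) is `≤ ε / 3` in absolute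
value when `M ≤ p.1` and `M ≤ p.2`. The bound `4`: the integrand is `≤ 4` and `|D| ≤ 1`. -/
theorem int_ss_le {ε : ℝ} (hε : 0 < ε) : ∃ M : ℕ, ∀ p : ℕ × ℕ,
    (∫ x in D, ss p x ^ 2) ≤ 4 ∧
    (M ≤ p.1 → M ≤ p.2 → (∫ x in D, ss p x ^ 2) ≤ (volume D).toReal + ε) := by
  obtain ⟨M, hM⟩ := riem_leb (measurableSet_DU D) (volume_DU_lt_top D) (ε := ε / 3)
    (by positivity)
  refine ⟨M, fun p => ⟨?_, fun h1 h2 => ?_⟩⟩
  · have h3 : (∫ x in D, ss p x ^ 2) ≤ ∫ _ in D, (4 : ℝ) := by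
      refine setIntegral_mono (AUp_int D (by unfold ss; fun_prop) (C := 4) fun x => ?_)
        (integrable_const _) fun x => AUp_four p x
      rw [abs_of_nonneg (sq_nonneg _)]
      exact AUp_four p x
    refine h3.trans ?_
    rw [setIntegral_const, smul_eq_mul]
    have h4 := AUp_vol D
    have h5 : (volume : Measure P).real D = (volume D).toReal := rfl
    rw [h5]
    linarith
  · have i2 := AUp_cos D (p.1 + 1) 0
    have i3 := AUp_cos D 0 (p.2 + 1)
    have i4 := AUp_cos D (p.1 + 1) (p.2 + 1)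
    have e : (∫ x in D, ss p x ^ 2) = ∫ x in D, ((((1 : ℝ) -
        Real.cos (2 * Real.pi * ((p.1 + 1 : ℕ) : ℝ) * x.1) *
          Real.cos (2 * Real.pi * ((0 : ℕ) : ℝ) * x.2)) -
        Real.cos (2 * Real.pi * ((0 : ℕ) : ℝ) * x.1) *
          Real.cos (2 * Real.pi * ((p.2 + 1 : ℕ) : ℝ) * x.2)) +
        Real.cos (2 * Real.pi * ((p.1 + 1 : ℕ) : ℝ) * x.1) *
          Real.cos (2 * Real.pi * ((p.2 + 1 : ℕ) : ℝ) * x.2)) := by
      refine integral_congr_ae (Eventually.of_forall fun x => ?_)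
      exact AUp_id p x
    rw [e]
    exact AUp_sum i2 i3 i4 (abs_le.1 (hM (p.1 + 1) 0 (Or.inl (by omega)))).1
      (abs_le.1 (hM 0 (p.2 + 1) (Or.inr (by omega)))).1
      (abs_le.1 (hM (p.1 + 1) (p.2 + 1) (Or.inl (by omega)))).2

private theorem AUp_lams (p : ℕ × ℕ) :
    lams p = qf (Real.pi ^ 2) 0 (Real.pi ^ 2) (lat p) := by
  unfold lams qf lat
  ring

/-- The upper bound.

Proof. Let `F` be the finite set of all `p` with `lams p < L` (`lams p = qf (π²) 0 (π²) (lat p)`,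
`lat_fin`). `berezin`; split `F` in the part with `M ≤ p.1, M ≤ p.2` (sum
`≤ (|D| + ε) L² / (8 π)` by `lat_upper`, `int_box`) and the rest, which has at most
`2 M (√L / π + 1)` elements (`lat_card`), so that its contribution is at most
`4 L * 2 M (√L / π + 1) ≤ ε L²` for large `L`. (Apply `int_ss_le` with a suitable `ε`.) -/
theorem box_upper {ε : ℝ} (hε : 0 < ε) : ∃ L0 : ℝ, ∀ L, L0 ≤ L → ∀ n : ℕ,
    ∑ k ∈ Finset.range n, max 0 (L - lamL D (k + 1)) ≤
      ((volume D).toReal / (8 * Real.pi) + ε) * L ^ 2 := by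
  classical
  have hpi := Real.pi_pos
  have hpi2 : (0 : ℝ) < Real.pi ^ 2 := by positivity
  obtain ⟨M, hM⟩ := int_ss_le (D := D) (ε := 4 * Real.pi * ε) (by positivity)
  refine ⟨1 + (32 * M / ε) ^ 2, fun L hL n => ?_⟩
  have hL1 : 1 ≤ L := by nlinarith [sq_nonneg (32 * (M : ℝ) / ε)]
  have hL0 : 0 ≤ L := by linarith
  have hfin := lat_fin hpi2 le_rfl hpi2 L
  set F : Finset (ℕ × ℕ) := hfin.toFinset with hF
  have hmem : ∀ p, p ∈ F ↔ qf (Real.pi ^ 2) 0 (Real.pi ^ 2) (lat p) < L := by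
    intro p
    rw [hF, Set.Finite.mem_toFinset]
    rfl
  have hb := berezin (D := D) L n F fun p hp => by
    rw [hmem, ← AUp_lams]
    exact hp
  set F1 : Finset (ℕ × ℕ) := F.filter fun p => M ≤ p.1 ∧ M ≤ p.2 with hF1
  set F2 : Finset (ℕ × ℕ) := F.filter fun p => ¬ (M ≤ p.1 ∧ M ≤ p.2) with hF2
  have hsplit : ∑ p ∈ F, max 0 (L - lams p) * ∫ x in D, ss p x ^ 2 =
      (∑ p ∈ F1, max 0 (L - lams p) * ∫ x in D, ss p x ^ 2) +
      ∑ p ∈ F2, max 0 (L - lams p) * ∫ x in D, ss p x ^ 2 :=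
    (Finset.sum_filter_add_sum_filter_not F _ _).symm
  have hv0 : 0 ≤ (volume D).toReal := ENNReal.toReal_nonneg
  have h1 : ∑ p ∈ F1, max 0 (L - lams p) * ∫ x in D, ss p x ^ 2 ≤
      ((volume D).toReal + 4 * Real.pi * ε) * (L ^ 2 / (8 * Real.pi)) := by
    have h2 : ∑ p ∈ F1, max 0 (L - lams p) * ∫ x in D, ss p x ^ 2 ≤
        ∑ p ∈ F1, max 0 (L - qf (Real.pi ^ 2) 0 (Real.pi ^ 2) (lat p)) *
          ((volume D).toReal + 4 * Real.pi * ε) := by
      refine Finset.sum_le_sum fun p hp => ?_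
      rw [AUp_lams]
      obtain ⟨h3, h4⟩ := (Finset.mem_filter.1 hp).2
      exact mul_le_mul_of_nonneg_left ((hM p).2 h3 h4) (le_max_left _ _)
    refine h2.trans ?_
    rw [← Finset.sum_mul, mul_comm, ← int_box hL0]
    exact mul_le_mul_of_nonneg_left (lat_upper hpi2 le_rfl hpi2 L F1) (by positivity)
  have h2 : ∑ p ∈ F2, max 0 (L - lams p) * ∫ x in D, ss p x ^ 2 ≤
      (2 * M * (√(L / Real.pi ^ 2) + 1)) * (L * 4) := by
    have h3 : ∑ p ∈ F2, max 0 (L - lams p) * ∫ x in D, ss p x ^ 2 ≤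
        ∑ _p ∈ F2, L * 4 := by
      refine Finset.sum_le_sum fun p _ => ?_
      have h4 : 0 ≤ lams p := (lams_pos p).le
      have h5 : max 0 (L - lams p) ≤ L := max_le hL0 (by linarith)
      have h6 : 0 ≤ ∫ x in D, ss p x ^ 2 := integral_nonneg fun x => sq_nonneg _
      exact mul_le_mul h5 (hM p).1 h6 hL0
    refine h3.trans ?_
    rw [Finset.sum_const, nsmul_eq_mul]
    refine mul_le_mul_of_nonneg_right (lat_card hpi2 hL0 M F2 fun p hp => ?_) (by positivity)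
    obtain ⟨h4, h5⟩ := Finset.mem_filter.1 hp
    refine ⟨(hmem p).1 h4, ?_⟩
    by_contra hcon
    push Not at hcon
    exact h5 hcon
  have h3 : √(L / Real.pi ^ 2) ≤ √L := by
    apply Real.sqrt_le_sqrt
    apply div_le_self hL0
    nlinarith [Real.pi_gt_three]
  have h4 : 1 ≤ √L := Real.one_le_sqrt.2 hL1
  have h5 : 32 * (M : ℝ) / ε ≤ √L := by
    apply Real.le_sqrt_of_sq_le
    linarith
  have h6 : 32 * (M : ℝ) ≤ √L * ε := (div_le_iff₀ hε).1 h5
  have h7 : √L * √L = L := Real.mul_self_sqrt hL0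
  have hM0 : (0 : ℝ) ≤ M := Nat.cast_nonneg _
  have h8 : (2 * M * (√(L / Real.pi ^ 2) + 1)) * (L * 4) ≤ ε / 2 * L ^ 2 := by
    calc (2 * M * (√(L / Real.pi ^ 2) + 1)) * (L * 4)
        ≤ (2 * M * (√L + √L)) * (L * 4) := by gcongr
      _ = (32 * (M : ℝ)) * (√L * L / 2) := by ring
      _ ≤ (√L * ε) * (√L * L / 2) := by gcongr
      _ = ε / 2 * ((√L * √L) * L) := by ring
      _ = ε / 2 * L ^ 2 := by rw [h7, sq]
  have h9 : ((volume D).toReal + 4 * Real.pi * ε) * (L ^ 2 / (8 * Real.pi)) =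
      (volume D).toReal / (8 * Real.pi) * L ^ 2 + ε / 2 * L ^ 2 := by
    field_simp
    ring
  rw [hsplit] at hb
  have h10 : ((volume D).toReal / (8 * Real.pi) + ε) * L ^ 2 =
      (volume D).toReal / (8 * Real.pi) * L ^ 2 + ε / 2 * L ^ 2 + ε / 2 * L ^ 2 := by ring
  rw [h10]
  linarith

end Pool.Agent.MP4eed4eI
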