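import Mathlib

set_option autoImplicit false

/-!
Project I, block C: concave functions and cosines.
-/

namespace Pool.Agent.MP4eed4eI

open MeasureTheory Set Filter Topology

private theorem CCos_pos1 {a l s : ℝ} (hl : 0 < l) (h1 : a < s) (h2 : s < a + l / 4) :
    0 < Real.cos (2 * Real.pi * (s - a) / l) := by
  have hp := Real.pi_pos
  have h3 : 0 < 2 * Real.pi * (s - a) / l :=
    div_pos (mul_pos (by positivity) (sub_pos.2 h1)) hl
  refine Real.cos_pos_of_mem_Ioo ⟨by linarith, ?_⟩
  rw [div_lt_iff₀ hl]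
  nlinarith

private theorem CCos_neg {a l s : ℝ} (hl : 0 < l) (h1 : a + l / 4 < s)
    (h2 : s < a + 3 * l / 4) : Real.cos (2 * Real.pi * (s - a) / l) < 0 := by
  have hp := Real.pi_pos
  refine Real.cos_neg_of_pi_div_two_lt_of_lt ?_ ?_
  · rw [lt_div_iff₀ hl]
    nlinarith
  · rw [div_lt_iff₀ hl]
    nlinarith

private theorem CCos_pos2 {a l s : ℝ} (hl : 0 < l) (h1 : a + 3 * l / 4 < s)
    (h2 : s < a + l) : 0 < Real.cos (2 * Real.pi * (s - a) / l) := by
  have hp := Real.pi_pos
  rw [← Real.cos_sub_two_pi]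
  have h3 : 3 * Real.pi / 2 < 2 * Real.pi * (s - a) / l := by
    rw [lt_div_iff₀ hl]
    nlinarith
  have h4 : 2 * Real.pi * (s - a) / l < 2 * Real.pi := by
    rw [div_lt_iff₀ hl]
    nlinarith
  exact Real.cos_pos_of_mem_Ioo ⟨by linarith, by linarith⟩

private theorem CCos_zero (c m a : ℝ) {l : ℝ} (hl : 0 < l) :
    ∫ s in a..(a + l), (c + m * s) * Real.cos (2 * Real.pi * (s - a) / l) = 0 := by
  have hp := Real.pi_pos
  have hd : ∀ s : ℝ, HasDerivAt (fun s => (c + m * s) * (l / (2 * Real.pi) *
      Real.sin (2 * Real.pi * (s - a) / l)) +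
      m * (l / (2 * Real.pi)) ^ 2 * Real.cos (2 * Real.pi * (s - a) / l))
      ((c + m * s) * Real.cos (2 * Real.pi * (s - a) / l)) s := by
    intro s
    have h1 : HasDerivAt (fun s : ℝ => 2 * Real.pi * (s - a) / l) (2 * Real.pi / l) s := by
      have h := (((hasDerivAt_id s).sub_const a).const_mul (2 * Real.pi)).div_const l
      simpa using h
    have h2 : HasDerivAt (fun s : ℝ => c + m * s) m s := by
      have h := ((hasDerivAt_id s).const_mul m).const_add c
      simpa using h
    have h3 := (h2.mul (h1.sin.const_mul (l / (2 * Real.pi)))).add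
      (h1.cos.const_mul (m * (l / (2 * Real.pi)) ^ 2))
    refine HasDerivAt.congr_deriv h3 ?_
    field_simp
    ring
  rw [intervalIntegral.integral_eq_sub_of_hasDerivAt (fun s _ => hd s)
    (Continuous.intervalIntegrable (by fun_prop) _ _)]
  have e1 : 2 * Real.pi * (a + l - a) / l = 2 * Real.pi := by
    field_simp
    ring
  have e2 : 2 * Real.pi * (a - a) / l = 0 := by
    rw [sub_self, mul_zero, zero_div]
  rw [e1, e2, Real.sin_two_pi, Real.cos_two_pi, Real.sin_zero, Real.cos_zero]
  ring

private theorem CCos_main {f : ℝ → ℝ} {a l : ℝ} (hl : 0 < l)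
    (hf : ConcaveOn ℝ (Ioo a (a + l)) f)
    (hi : IntervalIntegrable f volume a (a + l)) :
    ∃ c m : ℝ, f (a + l / 4) = c + m * (a + l / 4) ∧
      f (a + 3 * l / 4) = c + m * (a + 3 * l / 4) ∧
      (∀ s ∈ Ioo a (a + l), (f s - (c + m * s)) * Real.cos (2 * Real.pi * (s - a) / l) ≤ 0) ∧
      IntegrableOn (fun s => (f s - (c + m * s)) * Real.cos (2 * Real.pi * (s - a) / l))
        (Ioo a (a + l)) ∧
      ∫ s in a..(a + l), f s * Real.cos (2 * Real.pi * (s - a) / l) =
        ∫ s in Ioo a (a + l), (f s - (c + m * s)) * Real.cos (2 * Real.pi * (s - a) / l) := by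
  obtain ⟨m, hm⟩ : ∃ m : ℝ, m * (l / 2) = f (a + 3 * l / 4) - f (a + l / 4) :=
    ⟨(f (a + 3 * l / 4) - f (a + l / 4)) / (l / 2), by field_simp⟩
  obtain ⟨c, hc⟩ : ∃ c : ℝ, c = f (a + l / 4) - m * (a + l / 4) := ⟨_, rfl⟩
  have hu : a + l / 4 ∈ Ioo a (a + l) := ⟨by linarith, by linarith⟩
  have hv : a + 3 * l / 4 ∈ Ioo a (a + l) := ⟨by linarith, by linarith⟩
  have e1 : f (a + l / 4) = c + m * (a + l / 4) := by rw [hc]; ring
  have e2 : f (a + 3 * l / 4) = c + m * (a + 3 * l / 4) := by
    rw [hc]
    linarith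
  have hle : ∀ s ∈ Ioo a (a + l),
      (f s - (c + m * s)) * Real.cos (2 * Real.pi * (s - a) / l) ≤ 0 := by
    intro s hs
    rcases lt_trichotomy s (a + l / 4) with h1 | h1 | h1
    · have h2 := hf.slope_anti_adjacent hs hv h1 (by linarith)
      rw [div_le_div_iff₀ (by linarith) (by linarith)] at h2
      have h3 : f s - (c + m * s) ≤ 0 := by
        have h4 : (a + 3 * l / 4 - (a + l / 4)) = l / 2 := by ring
        rw [h4, ← hm] at h2
        have h5 : l / 2 * (m * (a + l / 4 - s)) ≤ l / 2 * (f (a + l / 4) - f s) := by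
          linarith
        have h6 := le_of_mul_le_mul_left h5 (by linarith)
        linarith
      exact mul_nonpos_of_nonpos_of_nonneg h3 (CCos_pos1 hl hs.1 h1).le
    · rw [h1, e1]
      simp
    · rcases lt_trichotomy s (a + 3 * l / 4) with h2 | h2 | h2
      · have h3 := hf.slope_anti_adjacent hu hv h1 h2
        rw [div_le_div_iff₀ (by linarith) (by linarith)] at h3
        have h4 : 0 ≤ f s - (c + m * s) := by
          have h5 : l / 2 * (c + m * s) ≤ l / 2 * f s := by
            rw [e1, e2] at h3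
            linarith
          have h6 := le_of_mul_le_mul_left h5 (by linarith)
          linarith
        exact mul_nonpos_of_nonneg_of_nonpos h4 (CCos_neg hl h1 h2).le
      · rw [h2, e2]
        simp
      · have h3 := hf.slope_anti_adjacent hu hs (by linarith : a + l / 4 < a + 3 * l / 4) h2
        rw [div_le_div_iff₀ (by linarith) (by linarith)] at h3
        have h4 : f s - (c + m * s) ≤ 0 := by
          have h5 : l / 2 * f s ≤ l / 2 * (c + m * s) := by
            rw [e1, e2] at h3
            linarith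
          have h6 := le_of_mul_le_mul_left h5 (by linarith)
          linarith
        exact mul_nonpos_of_nonpos_of_nonneg h4 (CCos_pos2 hl h2 hs.2).le
  have hcos : Continuous fun s : ℝ => Real.cos (2 * Real.pi * (s - a) / l) := by fun_prop
  have hi1 : IntervalIntegrable (fun s => f s * Real.cos (2 * Real.pi * (s - a) / l)) volume
      a (a + l) := hi.mul_continuousOn hcos.continuousOn
  have hi2 : IntervalIntegrable (fun s => (c + m * s) * Real.cos (2 * Real.pi * (s - a) / l))
      volume a (a + l) := Continuous.intervalIntegrable (by fun_prop) _ _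
  have hsub : (fun s => (f s - (c + m * s)) * Real.cos (2 * Real.pi * (s - a) / l)) =
      fun s => f s * Real.cos (2 * Real.pi * (s - a) / l) -
        (c + m * s) * Real.cos (2 * Real.pi * (s - a) / l) := by
    funext s
    ring
  refine ⟨c, m, e1, e2, hle, ?_, ?_⟩
  · rw [hsub]
    have h := (intervalIntegrable_iff_integrableOn_Ioo_of_le (by linarith)).1 (hi1.sub hi2)
    exact h
  · rw [hsub, ← integral_Ioc_eq_integral_Ioo, ← intervalIntegral.integral_of_le (by linarith),
      intervalIntegral.integral_sub hi1 hi2, CCos_zero c m a hl, sub_zero]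

/-- Proof. Let `g` be the affine function which agrees with `f` at `a + l / 4` and `a + 3 l / 4`. By
concavity `g ≤ f` between these points, where the cosine is `≤ 0`, and `f ≤ g` outside, where the
cosine is `≥ 0`. So `(f - g) cos ≤ 0`; `∫ g cos = 0` (full period). -/
theorem cos_int_le {f : ℝ → ℝ} {a l : ℝ} (hl : 0 < l) (hf : ConcaveOn ℝ (Ioo a (a + l)) f)
    (hi : IntervalIntegrable f volume a (a + l)) :
    ∫ s in a..(a + l), f s * Real.cos (2 * Real.pi * (s - a) / l) ≤ 0 := by
  obtain ⟨c, m, -, -, hle, -, he⟩ := CCos_main hl hf hi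
  rw [he]
  exact setIntegral_nonpos measurableSet_Ioo hle

/-- Proof. With `g` as above `(f - g) cos = 0` almost everywhere (`integral_eq_zero_iff_of_nonneg`),
and `f - g` is continuous on the open interval (`ConcaveOn.continuousOn`), so `f = g` there. -/
theorem cos_int_eq {f : ℝ → ℝ} {a l : ℝ} (hl : 0 < l) (hf : ConcaveOn ℝ (Ioo a (a + l)) f)
    (hi : IntervalIntegrable f volume a (a + l))
    (h0 : 0 ≤ ∫ s in a..(a + l), f s * Real.cos (2 * Real.pi * (s - a) / l)) :
    ∃ c m : ℝ, ∀ s ∈ Ioo a (a + l), f s = c + m * s := by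
  obtain ⟨c, m, e1, e2, hle, hint, he⟩ := CCos_main hl hf hi
  rw [he] at h0
  have h1 : ∫ s in Ioo a (a + l),
      -((f s - (c + m * s)) * Real.cos (2 * Real.pi * (s - a) / l)) = 0 := by
    rw [integral_neg, neg_eq_zero]
    exact le_antisymm (setIntegral_nonpos measurableSet_Ioo hle) h0
  rw [setIntegral_eq_zero_iff_of_nonneg_ae] at h1
  rotate_left
  · refine (ae_restrict_iff' measurableSet_Ioo).2 (Eventually.of_forall fun s hs => ?_)
    exact neg_nonneg.2 (hle s hs)
  · exact hint.neg
  have hcf : ContinuousOn f (Ioo a (a + l)) := hf.continuousOn isOpen_Ioo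
  have hcos : Continuous fun s : ℝ => Real.cos (2 * Real.pi * (s - a) / l) := by fun_prop
  have hg : Continuous fun s : ℝ => c + m * s := by fun_prop
  have h2 := Measure.eqOn_open_of_ae_eq h1 isOpen_Ioo
    ((hcf.sub hg.continuousOn).mul hcos.continuousOn).neg continuousOn_const
  refine ⟨c, m, fun s hs => ?_⟩
  have h3 : -((f s - (c + m * s)) * Real.cos (2 * Real.pi * (s - a) / l)) = 0 := h2 hs
  rw [neg_eq_zero, mul_eq_zero] at h3
  rcases lt_trichotomy s (a + l / 4) with h4 | h4 | h4
  · exact sub_eq_zero.1 (h3.resolve_right (CCos_pos1 hl hs.1 h4).ne')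
  · rw [h4, e1]
  · rcases lt_trichotomy s (a + 3 * l / 4) with h5 | h5 | h5
    · exact sub_eq_zero.1 (h3.resolve_right (CCos_neg hl h4 h5).ne)
    · rw [h5, e2]
    · exact sub_eq_zero.1 (h3.resolve_right (CCos_pos2 hl h5 hs.2).ne')

end Pool.Agent.MP4eed4eI
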