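import Pool.Agent.Lib.MP_4eed4e_an_I.CShape

set_option autoImplicit false

/-!
Project I, block C: the sign conditions.
-/

namespace Pool.Agent.MP4eed4eI

open Pool.Agent.MP4eed4eP MeasureTheory Set Filter Topology

private theorem CIneq_int (c m L : ℝ) {w : ℝ} (hw : w ≠ 0) :
    ∫ s in (0 : ℝ)..L, (c + m * s) * Real.cos (w * s) =
      (c + m * L) * Real.sin (w * L) / w + m * (Real.cos (w * L) - 1) / w ^ 2 := by
  have hd : ∀ s ∈ uIcc 0 L, HasDerivAt
      (fun s : ℝ => (c + m * s) * Real.sin (w * s) / w + m * Real.cos (w * s) / w ^ 2)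
      ((c + m * s) * Real.cos (w * s)) s := by
    intro s _
    have h1 : HasDerivAt (fun s : ℝ => w * s) w s := by
      simpa using (hasDerivAt_id s).const_mul w
    have h2 : HasDerivAt (fun s : ℝ => c + m * s) m s := by
      simpa using ((hasDerivAt_id s).const_mul m).const_add c
    have h3 := ((h2.mul h1.sin).div_const w).add ((h1.cos.const_mul m).div_const (w ^ 2))
    refine h3.congr_deriv ?_
    field_simp
    ring
  have hc : IntervalIntegrable (fun s : ℝ => (c + m * s) * Real.cos (w * s)) volume 0 L :=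
    Continuous.intervalIntegrable (by fun_prop) _ _
  rw [intervalIntegral.integral_eq_sub_of_hasDerivAt hd hc]
  simp only [mul_zero, Real.sin_zero, Real.cos_zero, zero_div, zero_add, mul_one]
  ring

private theorem CIneq_int0 (c m L : ℝ) :
    ∫ s in (0 : ℝ)..L, (c + m * s) = c * L + m * L ^ 2 / 2 := by
  have hd : ∀ s ∈ uIcc 0 L, HasDerivAt (fun s : ℝ => c * s + m * s ^ 2 / 2) (c + m * s) s := by
    intro s _
    have h1 : HasDerivAt (fun s : ℝ => c * s) c s := by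
      simpa using (hasDerivAt_id s).const_mul c
    have h2 := ((hasDerivAt_pow 2 s).const_mul m).div_const 2
    refine (h1.add h2).congr_deriv ?_
    simp
    ring
  have hc : IntervalIntegrable (fun s : ℝ => c + m * s) volume 0 L :=
    Continuous.intervalIntegrable (by fun_prop) _ _
  rw [intervalIntegral.integral_eq_sub_of_hasDerivAt hd hc]
  ring

private theorem CIneq_split {g : ℝ → ℝ} (hg : Continuous g) :
    ∫ s in (0 : ℝ)..2, max (1 - s) 0 * g s = ∫ s in (0 : ℝ)..1, (1 + -1 * s) * g s := by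
  have h1 : ∀ a b : ℝ, IntervalIntegrable (fun s => max (1 - s) 0 * g s) volume a b :=
    fun a b => Continuous.intervalIntegrable (by fun_prop) _ _
  rw [← intervalIntegral.integral_add_adjacent_intervals (h1 0 1) (h1 1 2)]
  have h2 : ∫ s in (1 : ℝ)..2, max (1 - s) 0 * g s = 0 := by
    have h3 : ∫ s in (1 : ℝ)..2, max (1 - s) 0 * g s = ∫ s in (1 : ℝ)..2, (0 : ℝ) := by
      refine intervalIntegral.integral_congr ?_
      intro s hs
      rw [uIcc_of_le (by norm_num : (1 : ℝ) ≤ 2)] at hs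
      have h4 : max (1 - s) 0 = 0 := max_eq_right (by linarith [hs.1])
      show max (1 - s) 0 * g s = 0
      rw [h4, zero_mul]
    rw [h3]
    simp
  rw [h2, add_zero]
  refine intervalIntegral.integral_congr ?_
  intro s hs
  rw [uIcc_of_le (by norm_num : (0 : ℝ) ≤ 1)] at hs
  have h4 : max (1 - s) 0 = 1 - s := max_eq_left (by linarith [hs.2])
  show max (1 - s) 0 * g s = (1 + -1 * s) * g s
  rw [h4]
  ring

private theorem CIneq_two (c a : Fin 3 → ℝ) (k : ℝ) {g : ℝ → ℝ} (hg : Continuous g) :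
    ∫ s in (0 : ℝ)..2, shp c a k 2 s * g s =
      (∫ s in (0 : ℝ)..2, (c 2 + a 2 * s) * g s) -
        k * ∫ s in (0 : ℝ)..1, (1 + -1 * s) * g s := by
  rw [← CIneq_split hg, ← intervalIntegral.integral_const_mul, ← intervalIntegral.integral_sub]
  · refine intervalIntegral.integral_congr ?_
    intro s _
    show shp c a k 2 s * g s = (c 2 + a 2 * s) * g s - k * (max (1 - s) 0 * g s)
    rw [shp, if_pos rfl]
    ring
  · exact Continuous.intervalIntegrable (by fun_prop) _ _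
  · exact Continuous.intervalIntegrable (by fun_prop) _ _

private theorem CIneq_one (c a : Fin 3 → ℝ) (k : ℝ) (s : ℝ) : shp c a k 1 s = c 1 + a 1 * s := by
  rw [shp, if_neg (by decide), sub_zero]

private theorem CIneq_zero (c a : Fin 3 → ℝ) (k : ℝ) (s : ℝ) : shp c a k 0 s = c 0 + a 0 * s := by
  rw [shp, if_neg (by decide), sub_zero]

private theorem CIneq_vI (c a : Fin 3 → ℝ) (k : ℝ) {x w e : ℝ} (hw : w = Real.pi * x / 3)
    (h0 : w ≠ 0) (he : ∀ s, Real.cos (Real.pi * x * (3 - s) / 3) = e * Real.cos (w * s)) :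
    vI (shp c a k) x = (c 2 + a 2 * 2) * Real.sin (w * 2) / w
      + a 2 * (Real.cos (w * 2) - 1) / w ^ 2 - k * ((1 - Real.cos w) / w ^ 2)
      + e * ((c 1 + a 1) * Real.sin w / w + a 1 * (Real.cos w - 1) / w ^ 2) := by
  have h1 : ∀ s : ℝ, Real.pi * x * s / 3 = w * s := by
    intro s
    rw [hw]
    ring
  have hg : Continuous fun s : ℝ => Real.cos (w * s) := by fun_prop
  rw [vI]
  simp only [he]
  simp only [h1, CIneq_one]
  rw [CIneq_two c a k hg, CIneq_int (c 2) (a 2) 2 h0, CIneq_int 1 (-1) 1 h0]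
  have h2 : ∫ s in (0 : ℝ)..1, (c 1 + a 1 * s) * (e * Real.cos (w * s)) =
      e * ∫ s in (0 : ℝ)..1, (c 1 + a 1 * s) * Real.cos (w * s) := by
    rw [← intervalIntegral.integral_const_mul]
    refine intervalIntegral.integral_congr ?_
    intro s _
    show (c 1 + a 1 * s) * (e * Real.cos (w * s)) = e * ((c 1 + a 1 * s) * Real.cos (w * s))
    ring
  rw [h2, CIneq_int (c 1) (a 1) 1 h0]
  simp only [mul_one]
  ring

private theorem CIneq_wI (c a : Fin 3 → ℝ) (k : ℝ) {x w : ℝ} (hw : w = Real.pi * x / √3)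
    (h0 : w ≠ 0) : wI (shp c a k) x = (c 0 + a 0 * √3) * Real.sin (w * √3) / w
      + a 0 * (Real.cos (w * √3) - 1) / w ^ 2 := by
  have h1 : ∀ s : ℝ, Real.pi * x * s / √3 = w * s := by
    intro s
    rw [hw]
    ring
  rw [wI]
  simp only [h1, CIneq_zero]
  exact CIneq_int (c 0) (a 0) √3 h0

private theorem CIneq_wI2 (c a : Fin 3 → ℝ) (k : ℝ) : wI (shp c a k) 2 = 0 := by
  have hq : (0 : ℝ) < √3 := Real.sqrt_pos.2 (by norm_num)
  have hp := Real.pi_pos
  have h0 : Real.pi * 2 / √3 ≠ 0 := by positivity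
  rw [CIneq_wI c a k rfl h0]
  have h1 : Real.pi * 2 / √3 * √3 = 2 * Real.pi := by
    rw [div_mul_cancel₀ _ hq.ne']
    ring
  rw [h1, Real.sin_two_pi, Real.cos_two_pi]
  ring

private theorem CIneq_cos1 : Real.cos (Real.pi * 2 / 3) = -(1 / 2) := by
  have h : Real.pi * 2 / 3 = Real.pi - Real.pi / 3 := by ring
  rw [h, Real.cos_pi_sub, Real.cos_pi_div_three]

private theorem CIneq_sin1 : Real.sin (Real.pi * 2 / 3) = √3 / 2 := by
  have h : Real.pi * 2 / 3 = Real.pi - Real.pi / 3 := by ring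
  rw [h, Real.sin_pi_sub, Real.sin_pi_div_three]

private theorem CIneq_cos2 : Real.cos (Real.pi * 4 / 3) = -(1 / 2) := by
  have h : Real.pi * 4 / 3 = Real.pi / 3 + Real.pi := by ring
  rw [h, Real.cos_add_pi, Real.cos_pi_div_three]

private theorem CIneq_sin2 : Real.sin (Real.pi * 4 / 3) = -(√3 / 2) := by
  have h : Real.pi * 4 / 3 = Real.pi / 3 + Real.pi := by ring
  rw [h, Real.sin_add_pi, Real.sin_pi_div_three]

private theorem CIneq_cos4 : Real.cos (Real.pi * 4 / 3 * 2) = -(1 / 2) := by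
  have h : Real.pi * 4 / 3 * 2 = Real.pi * 2 / 3 + 2 * Real.pi := by ring
  rw [h, Real.cos_add_two_pi, CIneq_cos1]

private theorem CIneq_sin4 : Real.sin (Real.pi * 4 / 3 * 2) = √3 / 2 := by
  have h : Real.pi * 4 / 3 * 2 = Real.pi * 2 / 3 + 2 * Real.pi := by ring
  rw [h, Real.sin_add_two_pi, CIneq_sin1]

/-- Replace `W` by its shape in the transforms. -/
theorem vI_congr {W W' : Fin 3 → ℝ → ℝ} (h : ∀ i, ∀ s ∈ Ioo 0 (lenI i), W i s = W' i s) (x : ℝ) :
    vI W x = vI W' x ∧ wI W x = wI W' x := by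
  have hq : (0 : ℝ) ≤ √3 := Real.sqrt_nonneg 3
  have h0 : ∀ s ∈ Ioo (0 : ℝ) √3, W 0 s = W' 0 s := h 0
  have h1 : ∀ s ∈ Ioo (0 : ℝ) 1, W 1 s = W' 1 s := h 1
  have h2 : ∀ s ∈ Ioo (0 : ℝ) 2, W 2 s = W' 2 s := h 2
  constructor
  · unfold vI
    congr 1
    · refine intervalIntegral.integral_congr_Ioo_of_le (by norm_num) fun s hs => ?_
      show W 2 s * _ = W' 2 s * _
      rw [h2 s hs]
    · refine intervalIntegral.integral_congr_Ioo_of_le (by norm_num) fun s hs => ?_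
      show W 1 s * _ = W' 1 s * _
      rw [h1 s hs]
  · unfold wI
    refine intervalIntegral.integral_congr_Ioo_of_le hq fun s hs => ?_
    show W 0 s * _ = W' 0 s * _
    rw [h0 s hs]

/-- The area condition. Proof. `∫ max (1 - s) 0` over `(0,2)` is `1/2`. -/
theorem area_shp (c a : Fin 3 → ℝ) (k : ℝ) (h0 : vI (shp c a k) 0 + wI (shp c a k) 0 = 0) :
    ∑ i, (c i * lenI i + a i * lenI i ^ 2 / 2) = k / 2 := by
  have hq : √3 ^ 2 = (3 : ℝ) := Real.sq_sqrt (by norm_num)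
  have hg : Continuous fun _ : ℝ => (1 : ℝ) := continuous_const
  have e1 : vI (shp c a k) 0 = (c 2 * 2 + a 2 * 2 ^ 2 / 2) - k * (1 * 1 + -1 * 1 ^ 2 / 2)
      + (c 1 * 1 + a 1 * 1 ^ 2 / 2) := by
    rw [vI]
    simp only [mul_zero, zero_mul, zero_div, Real.cos_zero]
    rw [CIneq_two c a k hg]
    simp only [mul_one, CIneq_one]
    rw [CIneq_int0, CIneq_int0, CIneq_int0]
    ring
  have e2 : wI (shp c a k) 0 = c 0 * √3 + a 0 * √3 ^ 2 / 2 := by
    rw [wI]
    simp only [mul_zero, zero_mul, zero_div, Real.cos_zero, mul_one, CIneq_zero]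
    rw [CIneq_int0]
  rw [e1, e2] at h0
  have l0 : lenI 0 = √3 := rfl
  have l1 : lenI 1 = 1 := rfl
  have l2 : lenI 2 = 2 := rfl
  rw [Fin.sum_univ_three, l0, l1, l2]
  linarith

/-- Proof. `vI 3 = -2 k / π² + 2 a_1 / π²`, `wI 2 = 0`, `wI 1 = -6 a_0 / π²`: `∫_0^2 (c + a s) cos πs
= 0`, `∫_0^1 (1 - s) cos πs = 2 / π²`, `cos (π (3 - s)) = -cos πs`,
`∫_0^1 (c + a s) (-cos πs) = 2 a / π²`, `∫_0^{√3} (c + a s) cos (π s / √3) = -6 a / π²`. -/
theorem sign_x (c a : Fin 3 → ℝ) (k : ℝ) (h0 : vI (shp c a k) 0 + wI (shp c a k) 0 = 0)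
    (h1 : 3 * vI (shp c a k) 0 - 3 * vI (shp c a k) 3 + 3 * wI (shp c a k) 0
      - 2 * wI (shp c a k) 2 - wI (shp c a k) 1 ≤ 0) : 0 ≤ a 1 - a 0 - k := by
  have hp := Real.pi_pos
  have hq : (0 : ℝ) < √3 := Real.sqrt_pos.2 (by norm_num)
  have hq2 : √3 ^ 2 = (3 : ℝ) := Real.sq_sqrt (by norm_num)
  have e1 : vI (shp c a k) 3 = (2 * a 1 - 2 * k) / Real.pi ^ 2 := by
    have hw : Real.pi = Real.pi * 3 / 3 := by ring
    rw [CIneq_vI c a k (e := -1) hw hp.ne' (fun s => ?_)]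
    · have h1 : Real.pi * 2 = 2 * Real.pi := by ring
      rw [h1, Real.sin_two_pi, Real.cos_two_pi, Real.sin_pi, Real.cos_pi]
      ring
    · have h1 : Real.pi * 3 * (3 - s) / 3 = (Real.pi - Real.pi * s) + 2 * Real.pi := by ring
      rw [h1, Real.cos_add_two_pi, Real.cos_pi_sub]
      ring
  have e2 : wI (shp c a k) 1 = -6 * a 0 / Real.pi ^ 2 := by
    have hw0 : Real.pi * 1 / √3 ≠ 0 := by positivity
    rw [CIneq_wI c a k rfl hw0]
    have h1 : Real.pi * 1 / √3 * √3 = Real.pi := by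
      rw [div_mul_cancel₀ _ hq.ne']
      ring
    rw [h1, Real.sin_pi, Real.cos_pi, div_pow, hq2]
    field_simp
    ring
  rw [e1, e2, CIneq_wI2] at h1
  have h2 : 3 * ((2 * a 1 - 2 * k) / Real.pi ^ 2) + -6 * a 0 / Real.pi ^ 2 =
      6 / Real.pi ^ 2 * (a 1 - a 0 - k) := by ring
  have h3 : 0 ≤ 6 / Real.pi ^ 2 * (a 1 - a 0 - k) := by
    rw [← h2]
    linarith
  have h4 : 0 < 6 / Real.pi ^ 2 := by positivity
  exact nonneg_of_mul_nonneg_right h3 h4

/-- Proof. `wI 2 = 0`. With `ω = 2 π / 3`: `vI 2 = ∫_0^2 W_2 cos ω s + ∫_0^1 W_1 cos ω s`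
(`cos (ω (3 - s)) = cos (ω s)`), `vI 4` the same with `2 ω`. Elementary integrals; the result is
`2 vI 4 + vI 2 = 81 / (16 π²) * (-a_1 - a_2 - k)`. The terms with `c_2` and `c_1` cancel because
`2 sin (4 ω) / (2 ω) + sin (2 ω) / ω = 0` and `2 sin (2 ω) / (2 ω) + sin ω / ω = 0`. -/
theorem sign_y (c a : Fin 3 → ℝ) (k : ℝ) (h0 : vI (shp c a k) 0 + wI (shp c a k) 0 = 0)
    (h3 : 3 * vI (shp c a k) 0 - 2 * vI (shp c a k) 4 - vI (shp c a k) 2 + 3 * wI (shp c a k) 0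
      - 3 * wI (shp c a k) 2 ≤ 0) : 0 ≤ -a 1 - a 2 - k := by
  have hp := Real.pi_pos
  have e1 : vI (shp c a k) 2 = (c 2 + a 2 * 2) * -(√3 / 2) / (Real.pi * 2 / 3)
      + a 2 * (-(1 / 2) - 1) / (Real.pi * 2 / 3) ^ 2
      - k * ((1 - -(1 / 2)) / (Real.pi * 2 / 3) ^ 2)
      + 1 * ((c 1 + a 1) * (√3 / 2) / (Real.pi * 2 / 3)
      + a 1 * (-(1 / 2) - 1) / (Real.pi * 2 / 3) ^ 2) := by
    rw [CIneq_vI c a k (e := 1) rfl (by positivity) (fun s => ?_)]
    · have h1 : Real.pi * 2 / 3 * 2 = Real.pi * 4 / 3 := by ring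
      rw [h1, CIneq_cos1, CIneq_sin1, CIneq_cos2, CIneq_sin2]
    · have h1 : Real.pi * 2 * (3 - s) / 3 = 2 * Real.pi - Real.pi * 2 / 3 * s := by ring
      rw [h1, Real.cos_two_pi_sub, one_mul]
  have e2 : vI (shp c a k) 4 = (c 2 + a 2 * 2) * (√3 / 2) / (Real.pi * 4 / 3)
      + a 2 * (-(1 / 2) - 1) / (Real.pi * 4 / 3) ^ 2
      - k * ((1 - -(1 / 2)) / (Real.pi * 4 / 3) ^ 2)
      + 1 * ((c 1 + a 1) * -(√3 / 2) / (Real.pi * 4 / 3)
      + a 1 * (-(1 / 2) - 1) / (Real.pi * 4 / 3) ^ 2) := by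
    rw [CIneq_vI c a k (e := 1) rfl (by positivity) (fun s => ?_)]
    · rw [CIneq_cos4, CIneq_sin4, CIneq_cos2, CIneq_sin2]
    · have h1 : Real.pi * 4 * (3 - s) / 3 =
          (2 * Real.pi - Real.pi * 4 / 3 * s) + 2 * Real.pi := by ring
      rw [h1, Real.cos_add_two_pi, Real.cos_two_pi_sub, one_mul]
  have h4 : 2 * vI (shp c a k) 4 + vI (shp c a k) 2 =
      81 / (16 * Real.pi ^ 2) * (-a 1 - a 2 - k) := by
    rw [e1, e2]
    field_simp
    ring
  rw [CIneq_wI2] at h3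
  have h5 : 0 ≤ 81 / (16 * Real.pi ^ 2) * (-a 1 - a 2 - k) := by
    rw [← h4]
    linarith
  have h6 : 0 < 81 / (16 * Real.pi ^ 2) := by positivity
  exact nonneg_of_mul_nonneg_right h5 h6

end Pool.Agent.MP4eed4eI
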