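import Pool.Agent.Lib.MP_4eed4e_an_I.FDefs
import Pool.Agent.Lib.MP_4eed4e_an_I.CCos

set_option autoImplicit false

/-!
Project I, block C: the shape of the limit function.
-/

namespace Pool.Agent.MP4eed4eI

open Pool.Agent.MP4eed4eP MeasureTheory Set Filter Topology

/-- The functions with the coefficients `c`, `a` and the kink `k` at the point `1` of the
hypotenuse. -/
noncomputable def shp (c a : Fin 3 → ℝ) (k : ℝ) (i : Fin 3) (s : ℝ) : ℝ :=
  c i + a i * s - if i = 2 then k * max (1 - s) 0 else 0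

private theorem cShape_sub {f : ℝ → ℝ} {a b x y : ℝ} (hi : IntervalIntegrable f volume x y)
    (h1 : x ≤ a) (h2 : a ≤ b) (h3 : b ≤ y) : IntervalIntegrable f volume a b :=
  hi.mono_set (by
    rw [uIcc_of_le h2, uIcc_of_le (h1.trans (h2.trans h3))]
    exact Icc_subset_Icc h1 h3)

private theorem cShape_le {f g : ℝ → ℝ} {a b : ℝ} (hab : a < b) (hf : ConcaveOn ℝ (Ioo a b) f)
    (hi : IntervalIntegrable f volume a b)
    (hg : ∀ s, g s = Real.cos (2 * Real.pi * (s - a) / (b - a))) :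
    ∫ s in a..b, f s * g s ≤ 0 := by
  have e : a + (b - a) = b := by ring
  have h := cos_int_le (f := f) (a := a) (l := b - a) (by linarith) (by rwa [e]) (by rwa [e])
  rw [e] at h
  simp only [hg]
  exact h

private theorem cShape_eq {f g : ℝ → ℝ} {a b : ℝ} (hab : a < b) (hf : ConcaveOn ℝ (Ioo a b) f)
    (hi : IntervalIntegrable f volume a b)
    (hg : ∀ s, g s = Real.cos (2 * Real.pi * (s - a) / (b - a)))
    (h0 : 0 ≤ ∫ s in a..b, f s * g s) : ∃ c m : ℝ, ∀ s ∈ Ioo a b, f s = c + m * s := by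
  have e : a + (b - a) = b := by ring
  have h := cos_int_eq (f := f) (a := a) (l := b - a) (by linarith) (by rwa [e]) (by rwa [e])
    (by
      rw [e]
      simp only [hg] at h0
      exact h0)
  rw [e] at h
  exact h

private theorem cShape_split {f g : ℝ → ℝ} {a b c : ℝ} (hab : a < b) (hbc : b < c)
    (hi : IntervalIntegrable f volume a c) (hg : Continuous g) :
    ∫ s in a..c, f s * g s = (∫ s in a..b, f s * g s) + ∫ s in b..c, f s * g s := by
  have h1 : IntervalIntegrable (fun s => f s * g s) volume a b :=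
    (cShape_sub hi le_rfl hab.le hbc.le).mul_continuousOn hg.continuousOn
  have h2 : IntervalIntegrable (fun s => f s * g s) volume b c :=
    (cShape_sub hi hab.le hbc.le le_rfl).mul_continuousOn hg.continuousOn
  exact (intervalIntegral.integral_add_adjacent_intervals h1 h2).symm

/-- Two affine pieces of a concave function. -/
private theorem cShape_glue {f : ℝ → ℝ} (hf : ConcaveOn ℝ (Ioo 0 2) f) {c m c' m' : ℝ}
    (h1 : ∀ s ∈ Ioo (0 : ℝ) 1, f s = c + m * s) (h2 : ∀ s ∈ Ioo (1 : ℝ) 2, f s = c' + m' * s) :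
    f 1 = c + m ∧ f 1 = c' + m' ∧ m' ≤ m := by
  have hcont : ContinuousAt f 1 :=
    (hf.continuousOn isOpen_Ioo).continuousAt (isOpen_Ioo.mem_nhds ⟨by norm_num, by norm_num⟩)
  have e1 : f 1 = c + m := by
    have t1 : Tendsto f (𝓝[<] 1) (𝓝 (f 1)) := hcont.tendsto.mono_left nhdsWithin_le_nhds
    have t2 : Tendsto (fun s : ℝ => c + m * s) (𝓝[<] 1) (𝓝 (c + m * 1)) := by
      have : Continuous fun s : ℝ => c + m * s := by fun_prop
      exact (this.tendsto 1).mono_left nhdsWithin_le_nhds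
    have t3 : Tendsto f (𝓝[<] 1) (𝓝 (c + m * 1)) := by
      refine t2.congr' ?_
      have h3 : Ioo (0 : ℝ) 1 ∈ 𝓝[<] (1 : ℝ) := Ioo_mem_nhdsLT (by norm_num)
      filter_upwards [h3] with s hs
      exact (h1 s hs).symm
    have := tendsto_nhds_unique t1 t3
    rw [this, mul_one]
  have e2 : f 1 = c' + m' := by
    have t1 : Tendsto f (𝓝[>] 1) (𝓝 (f 1)) := hcont.tendsto.mono_left nhdsWithin_le_nhds
    have t2 : Tendsto (fun s : ℝ => c' + m' * s) (𝓝[>] 1) (𝓝 (c' + m' * 1)) := by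
      have : Continuous fun s : ℝ => c' + m' * s := by fun_prop
      exact (this.tendsto 1).mono_left nhdsWithin_le_nhds
    have t3 : Tendsto f (𝓝[>] 1) (𝓝 (c' + m' * 1)) := by
      refine t2.congr' ?_
      have h3 : Ioo (1 : ℝ) 2 ∈ 𝓝[>] (1 : ℝ) := Ioo_mem_nhdsGT (by norm_num)
      filter_upwards [h3] with s hs
      exact (h2 s hs).symm
    have := tendsto_nhds_unique t1 t3
    rw [this, mul_one]
  refine ⟨e1, e2, ?_⟩
  have hx : (1 / 2 : ℝ) ∈ Ioo (0 : ℝ) 2 := ⟨by norm_num, by norm_num⟩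
  have hy : (3 / 2 : ℝ) ∈ Ioo (0 : ℝ) 2 := ⟨by norm_num, by norm_num⟩
  have hh : (0 : ℝ) ≤ 1 / 2 := by norm_num
  have h3 := hf.2 hx hy hh hh (by norm_num)
  have h4 := h1 (1 / 2) ⟨by norm_num, by norm_num⟩
  have h5 := h2 (3 / 2) ⟨by norm_num, by norm_num⟩
  rw [h4, h5] at h3
  simp only [smul_eq_mul] at h3
  have e3 : (1 / 2 : ℝ) * (1 / 2) + 1 / 2 * (3 / 2) = 1 := by norm_num
  rw [e3] at h3
  linarith

/-- Proof. By `h0`, `h2` reads `-3 vI W 6 - 2 wI W 4 - wI W 2 ≤ 0`, and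
`vI W 6 = ∫_0^1 W 2 cos 2πs + ∫_1^2 W 2 cos 2πs + ∫_0^1 W 1 cos 2πs`,
`wI W 4 = ∫_0^{√3/2} W 0 cos + ∫_{√3/2}^{√3} W 0 cos`, `wI W 2 = ∫_0^{√3} W 0 cos` are sums of full
period integrals of concave functions, `≤ 0` by `cos_int_le`. So all vanish: `cos_int_eq` for the
intervals `(0,1)`, `(1,2)` of `W 2`, `(0,1)` of `W 1`, `(0,√3)` of `W 0`. The two affine pieces of
`W 2` agree at `1` (continuity, or concavity at `1` and values on both sides: a concave function on
an open interval is continuous), and `k ≥ 0` by concavity. -/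
theorem shape {W : Fin 3 → ℝ → ℝ} (hc : ∀ i, ConcaveOn ℝ (Ioo 0 (lenI i)) (W i))
    (hi : ∀ i, IntervalIntegrable (W i) volume 0 (lenI i)) (h0 : vI W 0 + wI W 0 = 0)
    (h2 : 3 * vI W 0 - 3 * vI W 6 + 3 * wI W 0 - 2 * wI W 4 - wI W 2 ≤ 0) :
    ∃ (c a : Fin 3 → ℝ) (k : ℝ), 0 ≤ k ∧ ∀ i, ∀ s ∈ Ioo 0 (lenI i), W i s = shp c a k i s := by
  have hq : (0 : ℝ) < √3 := Real.sqrt_pos.2 (by norm_num)
  have hc0 : ConcaveOn ℝ (Ioo 0 √3) (W 0) := hc 0
  have hc1 : ConcaveOn ℝ (Ioo 0 1) (W 1) := hc 1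
  have hc2 : ConcaveOn ℝ (Ioo 0 2) (W 2) := hc 2
  have hi0 : IntervalIntegrable (W 0) volume 0 √3 := hi 0
  have hi1 : IntervalIntegrable (W 1) volume 0 1 := hi 1
  have hi2 : IntervalIntegrable (W 2) volume 0 2 := hi 2
  obtain ⟨g, hg⟩ : ∃ g : ℝ → ℝ, g = fun s => Real.cos (2 * Real.pi * s) := ⟨_, rfl⟩
  obtain ⟨g4, hg4⟩ : ∃ g : ℝ → ℝ, g = fun s => Real.cos (Real.pi * 4 * s / √3) := ⟨_, rfl⟩
  obtain ⟨g2, hg2⟩ : ∃ g : ℝ → ℝ, g = fun s => Real.cos (Real.pi * 2 * s / √3) := ⟨_, rfl⟩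
  have gc : Continuous g := by
    rw [hg]
    fun_prop
  have gc4 : Continuous g4 := by
    rw [hg4]
    fun_prop
  have hv : vI W 6 = (∫ s in (0 : ℝ)..1, W 2 s * g s) + (∫ s in (1 : ℝ)..2, W 2 s * g s)
      + ∫ s in (0 : ℝ)..1, W 1 s * g s := by
    rw [← cShape_split (by norm_num) (by norm_num) hi2 gc, vI]
    have e1 : ∀ s : ℝ, Real.cos (Real.pi * 6 * s / 3) = g s := by
      intro s
      rw [hg]
      show _ = Real.cos (2 * Real.pi * s)
      congr 1
      ring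
    have e2 : ∀ s : ℝ, g (3 - s) = g s := by
      intro s
      rw [hg]
      show Real.cos (2 * Real.pi * (3 - s)) = Real.cos (2 * Real.pi * s)
      have e3 : 2 * Real.pi * (3 - s) = (3 : ℕ) * (2 * Real.pi) - 2 * Real.pi * s := by
        push_cast
        ring
      rw [e3, Real.cos_nat_mul_two_pi_sub]
    simp only [e1, e2]
  have hw4 : wI W 4 = (∫ s in (0 : ℝ)..(√3 / 2), W 0 s * g4 s)
      + ∫ s in (√3 / 2)..√3, W 0 s * g4 s := by
    rw [← cShape_split (by linarith) (by linarith) hi0 gc4, wI, hg4]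
  have hw2 : wI W 2 = ∫ s in (0 : ℝ)..√3, W 0 s * g2 s := by
    rw [wI, hg2]
  have p1 : ∀ s, g s = Real.cos (2 * Real.pi * (s - 0) / (1 - 0)) := by
    intro s
    rw [hg]
    show Real.cos (2 * Real.pi * s) = _
    congr 1
    ring
  have p2 : ∀ s, g s = Real.cos (2 * Real.pi * (s - 1) / (2 - 1)) := by
    intro s
    rw [hg]
    show Real.cos (2 * Real.pi * s) = _
    have e3 : 2 * Real.pi * (s - 1) / (2 - 1) = 2 * Real.pi * s - 2 * Real.pi := by
      ring
    rw [e3, Real.cos_sub_two_pi]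
  have p3 : ∀ s, g4 s = Real.cos (2 * Real.pi * (s - 0) / (√3 / 2 - 0)) := by
    intro s
    rw [hg4]
    show Real.cos (Real.pi * 4 * s / √3) = _
    congr 1
    field_simp
    ring
  have p4 : ∀ s, g4 s = Real.cos (2 * Real.pi * (s - √3 / 2) / (√3 - √3 / 2)) := by
    intro s
    rw [hg4]
    show Real.cos (Real.pi * 4 * s / √3) = _
    have e3 : 2 * Real.pi * (s - √3 / 2) / (√3 - √3 / 2) = Real.pi * 4 * s / √3 - 2 * Real.pi := by
      have e4 : √3 - √3 / 2 = √3 / 2 := by ring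
      rw [e4]
      field_simp
      ring
    rw [e3, Real.cos_sub_two_pi]
  have p5 : ∀ s, g2 s = Real.cos (2 * Real.pi * (s - 0) / (√3 - 0)) := by
    intro s
    rw [hg2]
    show Real.cos (Real.pi * 2 * s / √3) = _
    congr 1
    rw [sub_zero, sub_zero]
    ring
  have c21 : ConcaveOn ℝ (Ioo 0 1) (W 2) :=
    hc2.subset (Ioo_subset_Ioo le_rfl (by norm_num)) (convex_Ioo _ _)
  have c22 : ConcaveOn ℝ (Ioo 1 2) (W 2) :=
    hc2.subset (Ioo_subset_Ioo (by norm_num) le_rfl) (convex_Ioo _ _)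
  have c01 : ConcaveOn ℝ (Ioo 0 (√3 / 2)) (W 0) :=
    hc0.subset (Ioo_subset_Ioo le_rfl (by linarith)) (convex_Ioo _ _)
  have c02 : ConcaveOn ℝ (Ioo (√3 / 2) √3) (W 0) :=
    hc0.subset (Ioo_subset_Ioo (by linarith) le_rfl) (convex_Ioo _ _)
  have i21 := cShape_sub hi2 (a := 0) (b := 1) le_rfl (by norm_num) (by norm_num)
  have i22 := cShape_sub hi2 (a := 1) (b := 2) (by norm_num) (by norm_num) le_rfl
  have i01 := cShape_sub hi0 (a := 0) (b := √3 / 2) le_rfl (by linarith) (by linarith)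
  have i02 := cShape_sub hi0 (a := √3 / 2) (b := √3) (by linarith) (by linarith) le_rfl
  have q1 := cShape_le (by norm_num) c21 i21 p1
  have q2 := cShape_le (by norm_num) c22 i22 p2
  have q3 := cShape_le (by norm_num) hc1 hi1 p1
  have q4 := cShape_le (by linarith) c01 i01 p3
  have q5 := cShape_le (by linarith) c02 i02 p4
  have q6 := cShape_le hq hc0 hi0 p5
  rw [hv, hw4, hw2] at h2
  obtain ⟨a1, b1, r1⟩ := cShape_eq (by norm_num) c21 i21 p1 (by linarith)
  obtain ⟨a2, b2, r2⟩ := cShape_eq (by norm_num) c22 i22 p2 (by linarith)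
  obtain ⟨a3, b3, r3⟩ := cShape_eq (by norm_num) hc1 hi1 p1 (by linarith)
  obtain ⟨a4, b4, r4⟩ := cShape_eq hq hc0 hi0 p5 (by linarith)
  obtain ⟨g1, g3, g5⟩ := cShape_glue hc2 r1 r2
  refine ⟨![a4, a3, a2], ![b4, b3, b2], b1 - b2, by linarith, ?_⟩
  intro i s hs
  fin_cases i
  · have h := r4 s hs
    simpa [shp] using h
  · have h := r3 s hs
    simpa [shp] using h
  · have hs' : s ∈ Ioo (0 : ℝ) 2 := hs
    show W 2 s = a2 + b2 * s - (if (2 : Fin 3) = 2 then (b1 - b2) * max (1 - s) 0 else 0)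
    rw [if_pos rfl]
    rcases lt_trichotomy s 1 with h | h | h
    · rw [max_eq_left (by linarith), r1 s ⟨hs'.1, h⟩]
      linear_combination g3 - g1
    · subst h
      rw [sub_self, max_self, mul_zero, sub_zero, mul_one]
      exact g3
    · rw [max_eq_right (by linarith), r2 s ⟨h, hs'.2⟩]
      ring

end Pool.Agent.MP4eed4eI
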