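import Pool.Agent.Lib.MP_4eed4e_an_I.IDefs

set_option autoImplicit false

/-!
Project I, block W: selection of a convergent subsequence of concave functions.
-/

namespace Pool.Agent.MP4eed4eI

open Pool.Agent.MP4eed4eP MeasureTheory Set Filter Topology

/-- A bound gives a Lipschitz bound for a concave function inside the interval.

Proof. The slope between two points of `[a + d, b - d]` is at most the slope on `[a, a + d]` and at
least the slope on `[b - d, b]`. -/
theorem lip_of_bound {f : ℝ → ℝ} {a b d B s s' : ℝ} (hd : 0 < d) (hf : ConcaveOn ℝ (Icc a b) f)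
    (hB : ∀ x ∈ Icc a b, |f x| ≤ B) (hs : s ∈ Icc (a + d) (b - d))
    (hs' : s' ∈ Icc (a + d) (b - d)) : |f s - f s'| ≤ 2 * B / d * |s - s'| := by
  wlog hss : s ≤ s' generalizing s s'
  · rw [abs_sub_comm, abs_sub_comm s s']
    exact this hs' hs (le_of_not_ge hss)
  rcases eq_or_lt_of_le hss with rfl | hlt
  · simp
  have hab : a + d ≤ s := hs.1
  have hbd : s' ≤ b - d := hs'.2
  have ha : a ∈ Icc a b := ⟨le_rfl, by linarith⟩
  have hb : b ∈ Icc a b := ⟨by linarith, le_rfl⟩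
  have hsm : s ∈ Icc a b := ⟨by linarith, by linarith⟩
  have hsm' : s' ∈ Icc a b := ⟨by linarith, by linarith⟩
  have b1 := abs_le.1 (hB a ha)
  have b2 := abs_le.1 (hB b hb)
  have b3 := abs_le.1 (hB s hsm)
  have b4 := abs_le.1 (hB s' hsm')
  have hB0 : 0 ≤ B := le_trans (abs_nonneg _) (hB s hsm)
  have k1 := hf.slope_anti_adjacent ha hsm' (by linarith : a < s) hlt
  have k2 := hf.slope_anti_adjacent hsm hb hlt (by linarith : s' < b)
  have hpos : 0 < s' - s := by linarith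
  have k3 : (f s - f a) / (s - a) ≤ 2 * B / d :=
    div_le_div₀ (by linarith) (by linarith) hd (by linarith)
  have k4 : -(2 * B / d) ≤ (f b - f s') / (b - s') := by
    rw [← neg_div, div_le_div_iff₀ hd (by linarith)]
    have h1 : -(2 * B) * (b - s') ≤ -(2 * B) * d :=
      mul_le_mul_of_nonpos_left (by linarith) (by linarith)
    have h2 : -(2 * B) * d ≤ (f b - f s') * d :=
      mul_le_mul_of_nonneg_right (by linarith) hd.le
    linarith
  have k5 : f s' - f s ≤ 2 * B / d * (s' - s) := by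
    rw [← div_le_iff₀ hpos]
    exact k1.trans k3
  have k6 : -(2 * B / d) * (s' - s) ≤ f s' - f s := by
    rw [← le_div_iff₀ hpos]
    exact k4.trans k2
  rw [abs_sub_comm, abs_sub_comm s s', abs_of_pos hpos, abs_le]
  constructor
  · linarith
  · exact k5

/-- Selection.

Proof. Let `Q = {(i, q) | q rational, q ∈ Ioo 0 (lenI i)}` (countable; or all of `Fin 3 × ℚ` with the
value `0` outside) and `x n (i, q) = f n i q` if `q ∈ JI i (d n)`, `0` otherwise: a sequence in the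
compact product of the intervals `[-C / rI i q, C / rI i q]` (`isCompact_univ_pi`,
`IsCompact.tendsto_subseq`; countable products of `ℝ` are first countable). So along a subsequence
`f n i q` converges for all `(i, q)`. For real `s`: `f n i` is Lipschitz near `s` with a constant
which does not depend on `n` (`lip_of_bound`), so `f n i s` is a Cauchy sequence. The limit is
concave. -/
theorem helly (f : ℕ → Fin 3 → ℝ → ℝ) (d : ℕ → ℝ) (hd0 : ∀ n, 0 < d n)
    (hd : Tendsto d atTop (𝓝 0)) (C : ℝ) (hc : ∀ n i, ConcaveOn ℝ (JI i (d n)) (f n i))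
    (hb : ∀ n i, ∀ s ∈ JI i (d n), |f n i s| ≤ C / rI i s) :
    ∃ φ : ℕ → ℕ, StrictMono φ ∧ ∃ W : Fin 3 → ℝ → ℝ,
      (∀ i, ConcaveOn ℝ (Ioo 0 (lenI i)) (W i)) ∧
      ∀ i, ∀ s ∈ Ioo 0 (lenI i), Tendsto (fun n => f (φ n) i s) atTop (𝓝 (W i s)) := by
  classical
  let x : ℕ → (Fin 3 × ℚ → ℝ) := fun n p =>
    if (p.2 : ℝ) ∈ JI p.1 (d n) then f n p.1 (p.2 : ℝ) else 0
  let S : Set (Fin 3 × ℚ → ℝ) := univ.pi fun p : Fin 3 × ℚ =>
    Icc (-|C / rI p.1 (p.2 : ℝ)|) |C / rI p.1 (p.2 : ℝ)|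
  have hS : IsCompact S := isCompact_univ_pi fun p => isCompact_Icc
  have hxS : ∀ n, x n ∈ S := by
    intro n p _
    apply abs_le.1
    change |if (p.2 : ℝ) ∈ JI p.1 (d n) then f n p.1 (p.2 : ℝ) else 0| ≤ _
    split_ifs with h
    · exact (hb n p.1 _ h).trans (le_abs_self _)
    · rw [abs_zero]
      exact abs_nonneg _
  obtain ⟨y, -, φ, hφ, hlim⟩ := hS.tendsto_subseq hxS
  have hdφ : Tendsto (fun n => d (φ n)) atTop (𝓝 0) := hd.comp hφ.tendsto_atTop
  have hmem : ∀ (i : Fin 3) (s : ℝ), s ∈ Ioo 0 (lenI i) →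
      ∀ᶠ n in atTop, s ∈ JI i (d (φ n)) := by
    intro i s hs
    have h1 : ∀ᶠ n in atTop, d (φ n) < min s (lenI i - s) :=
      hdφ.eventually_lt_const (lt_min hs.1 (by linarith [hs.2]))
    filter_upwards [h1] with n hn
    have h2 := lt_min_iff.1 hn
    exact ⟨h2.1.le, by linarith [h2.2]⟩
  have hq : ∀ (i : Fin 3) (q : ℚ), (q : ℝ) ∈ Ioo 0 (lenI i) →
      Tendsto (fun n => f (φ n) i (q : ℝ)) atTop (𝓝 (y (i, q))) := by
    intro i q hqi
    have h1 := (tendsto_pi_nhds.1 hlim) (i, q)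
    refine h1.congr' ?_
    filter_upwards [hmem i q hqi] with n hn
    change (if ((i, q).2 : ℝ) ∈ JI (i, q).1 (d (φ n)) then f (φ n) (i, q).1 ((i, q).2 : ℝ)
      else 0) = _
    rw [if_pos hn]
  have hcau : ∀ (i : Fin 3) (s : ℝ), s ∈ Ioo 0 (lenI i) →
      CauchySeq (fun n => f (φ n) i s) := by
    intro i s hs
    obtain ⟨δ, hδ0, hδ1, hδ2⟩ : ∃ δ : ℝ, 0 < δ ∧ δ ≤ s ∧ δ ≤ lenI i - s :=
      ⟨min s (lenI i - s), lt_min hs.1 (by linarith [hs.2]), min_le_left _ _, min_le_right _ _⟩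
    have h1 : ∀ᶠ n in atTop, d (φ n) < δ / 2 := hdφ.eventually_lt_const (by positivity)
    have hlip : ∀ᶠ n in atTop, ∀ q ∈ Icc (s - δ / 4) (s + δ / 4),
        |f (φ n) i s - f (φ n) i q| ≤ 2 * (2 * |C| / δ) / (δ / 4) * |s - q| := by
      filter_upwards [h1] with n hn q hq2
      have hsub : Icc (s - δ / 2) (s + δ / 2) ⊆ JI i (d (φ n)) := by
        intro z hz
        exact ⟨by linarith [hz.1], by linarith [hz.2]⟩
      refine lip_of_bound (a := s - δ / 2) (b := s + δ / 2) (by positivity)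
        ((hc (φ n) i).subset hsub (convex_Icc _ _)) ?_ ⟨by linarith, by linarith⟩
        ⟨by linarith [hq2.1], by linarith [hq2.2]⟩
      intro z hz
      refine (hb (φ n) i z (hsub hz)).trans ?_
      have hr : δ / 2 ≤ rI i z := le_min (by linarith [hz.1]) (by linarith [hz.2])
      have hr0 : 0 < rI i z := lt_of_lt_of_le (by positivity) hr
      calc C / rI i z ≤ |C| / rI i z := by gcongr; exact le_abs_self C
        _ ≤ |C| / (δ / 2) := by gcongr
        _ = 2 * |C| / δ := by field_simp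
    rw [Metric.cauchySeq_iff']
    intro ε hε
    obtain ⟨Λ, hΛ⟩ : ∃ Λ : ℝ, Λ = 2 * (2 * |C| / δ) / (δ / 4) := ⟨_, rfl⟩
    have hΛ0 : 0 ≤ Λ := by rw [hΛ]; positivity
    rw [← hΛ] at hlip
    have hη : 0 < min (δ / 4) (ε / (4 * (Λ + 1))) := lt_min (by positivity) (by positivity)
    obtain ⟨q, hq1, hq2⟩ := exists_rat_btwn (lt_add_of_pos_right s hη)
    have hq3 : (q : ℝ) ≤ s + δ / 4 := by linarith [min_le_left (δ / 4) (ε / (4 * (Λ + 1)))]
    have hqm : (q : ℝ) ∈ Icc (s - δ / 4) (s + δ / 4) := ⟨by linarith, hq3⟩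
    have hqI : (q : ℝ) ∈ Ioo 0 (lenI i) := ⟨by linarith [hs.1], by linarith⟩
    have hΛq : Λ * |s - q| ≤ ε / 4 := by
      have e1 : |s - q| ≤ ε / (4 * (Λ + 1)) := by
        rw [abs_sub_comm, abs_of_pos (by linarith)]
        linarith [min_le_right (δ / 4) (ε / (4 * (Λ + 1)))]
      calc Λ * |s - q| ≤ (Λ + 1) * (ε / (4 * (Λ + 1))) := by
            apply mul_le_mul (by linarith) e1 (abs_nonneg _) (by linarith)
        _ = ε / 4 := by field_simp
    have hcq := Metric.cauchySeq_iff.1 (hq i q hqI).cauchySeq (ε / 4) (by positivity)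
    obtain ⟨N1, hN1⟩ := hcq
    obtain ⟨N2, hN2⟩ := eventually_atTop.1 hlip
    refine ⟨max N1 N2, fun n hn => ?_⟩
    have l1 := hN2 n ((le_max_right _ _).trans hn) q hqm
    have l2 := hN2 (max N1 N2) (le_max_right _ _) q hqm
    have l3 := hN1 n ((le_max_left _ _).trans hn) (max N1 N2) (le_max_left _ _)
    rw [Real.dist_eq] at l3 ⊢
    rw [abs_le] at l1 l2
    rw [abs_lt] at l3 ⊢
    constructor
    · linarith [l1.1, l1.2, l2.1, l2.2, l3.1, l3.2]
    · linarith [l1.1, l1.2, l2.1, l2.2, l3.1, l3.2]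
  have key : ∀ (i : Fin 3) (s : ℝ), ∃ w : ℝ, s ∈ Ioo 0 (lenI i) →
      Tendsto (fun n => f (φ n) i s) atTop (𝓝 w) := by
    intro i s
    by_cases hs : s ∈ Ioo 0 (lenI i)
    · obtain ⟨w, hw⟩ := cauchySeq_tendsto_of_complete (hcau i s hs)
      exact ⟨w, fun _ => hw⟩
    · exact ⟨0, fun h => absurd h hs⟩
  choose W hW using key
  refine ⟨φ, hφ, W, fun i => ⟨convex_Ioo _ _, ?_⟩, fun i s hs => hW i s hs⟩
  intro u hu v hv a b ha hb' hab
  have hz : a • u + b • v ∈ Ioo 0 (lenI i) := convex_Ioo _ _ hu hv ha hb' hab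
  refine le_of_tendsto_of_tendsto (((hW i u hu).const_smul a).add ((hW i v hv).const_smul b))
    (hW i _ hz) ?_
  filter_upwards [hmem i u hu, hmem i v hv] with n h1 h2
  exact (hc (φ n) i).2 h1 h2 ha hb' hab

/-- Convergence of the slopes of supporting lines.

Proof. `(f n (s + h) - f n s) / h ≤ a n ≤ (f n s - f n (s - h)) / h`, both sides tend to `m`. -/
theorem slope_tendsto {f : ℕ → ℝ → ℝ} {F : ℝ → ℝ} {a : ℕ → ℝ} {s h c m : ℝ} (hh : 0 < h)
    (hconv : ∀ x ∈ Icc (s - h) (s + h), Tendsto (fun n => f n x) atTop (𝓝 (F x)))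
    (haff : ∀ x ∈ Icc (s - h) (s + h), F x = c + m * x)
    (hsup : ∀ᶠ n in atTop, ∀ x ∈ Icc (s - h) (s + h), f n x ≤ f n s + a n * (x - s)) :
    Tendsto a atTop (𝓝 m) := by
  have hs0 : s ∈ Icc (s - h) (s + h) := ⟨by linarith, by linarith⟩
  have hs1 : s + h ∈ Icc (s - h) (s + h) := ⟨by linarith, le_rfl⟩
  have hs2 : s - h ∈ Icc (s - h) (s + h) := ⟨le_rfl, by linarith⟩
  have t1 : Tendsto (fun n => (f n (s + h) - f n s) / h) atTop (𝓝 m) := by
    have e1 : (F (s + h) - F s) / h = m := by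
      rw [haff _ hs1, haff _ hs0]
      field_simp
      ring
    rw [← e1]
    exact ((hconv _ hs1).sub (hconv _ hs0)).div_const h
  have t2 : Tendsto (fun n => (f n s - f n (s - h)) / h) atTop (𝓝 m) := by
    have e1 : (F s - F (s - h)) / h = m := by
      rw [haff _ hs2, haff _ hs0]
      field_simp
      ring
    rw [← e1]
    exact ((hconv _ hs0).sub (hconv _ hs2)).div_const h
  refine tendsto_of_tendsto_of_tendsto_of_le_of_le' t1 t2 ?_ ?_
  · filter_upwards [hsup] with n hn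
    have h1 := hn _ hs1
    rw [add_sub_cancel_left] at h1
    rw [div_le_iff₀ hh]
    linarith
  · filter_upwards [hsup] with n hn
    have h1 := hn _ hs2
    have e2 : s - h - s = -h := by ring
    rw [e2] at h1
    rw [le_div_iff₀ hh]
    linarith

end Pool.Agent.MP4eed4eI
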