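import Pool.Agent.Lib.MP_4eed4e_an_I.MInt
import Pool.Agent.Lib.MP_4eed4e_an_I.WSel
import Pool.Agent.Lib.MP_4eed4e_an_I.CShape

set_option autoImplicit false

/-!
Project I, block E: the triangles of the supporting lines.
-/

namespace Pool.Agent.MP4eed4eI

open Pool.Agent.MP4eed4eP MeasureTheory Set Filter Topology

private theorem ESup_s3 : (17 / 10 : ℝ) ≤ √3 ∧ √3 ≤ 18 / 10 := by
  constructor
  · exact Real.le_sqrt_of_sq_le (by norm_num)
  · rw [Real.sqrt_le_left (by norm_num)]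
    norm_num

/-- The places of the supporting lines. -/
private noncomputable def ESup_s : Fin 3 → ℝ := ![√3 / 2, 1 / 2, 3 / 2]

private theorem ESup_in {i : Fin 3} {u d : ℝ} (hu : u ∈ Icc (ESup_s i - 1 / 4) (ESup_s i + 1 / 4))
    (hd : d ≤ 1 / 10) : u ∈ Icc d (lenI i - d) := by
  obtain ⟨h1, h2⟩ := ESup_s3
  obtain ⟨ha, hb⟩ := hu
  fin_cases i
  · change √3 / 2 - 1 / 4 ≤ u at ha
    change u ≤ √3 / 2 + 1 / 4 at hb
    change d ≤ u ∧ u ≤ √3 - d
    constructor <;> linarith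
  · change 1 / 2 - 1 / 4 ≤ u at ha
    change u ≤ 1 / 2 + 1 / 4 at hb
    change d ≤ u ∧ u ≤ 1 - d
    constructor <;> linarith
  · change 3 / 2 - 1 / 4 ≤ u at ha
    change u ≤ 3 / 2 + 1 / 4 at hb
    change d ≤ u ∧ u ≤ 2 - d
    constructor <;> linarith

private theorem ESup_shp {c a : Fin 3 → ℝ} {k : ℝ} {i : Fin 3} {u : ℝ}
    (hu : u ∈ Icc (ESup_s i - 1 / 4) (ESup_s i + 1 / 4)) : shp c a k i u = c i + a i * u := by
  unfold shp
  split_ifs with h
  · subst h
    have ha : (3 / 2 : ℝ) - 1 / 4 ≤ u := hu.1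
    rw [max_eq_right (by linarith), mul_zero, sub_zero]
  · rw [sub_zero]

private theorem ESup_VI {D : Set P} {ε : ℝ} (hε : 0 < ε) (hε1 : ε ≤ 1 / 10 ^ 6) (h : Near ε D)
    {i : Fin 3} {s α u : ℝ} (ha : ∀ v ∈ D, tI i v < VI D i s + α * (sI i v - s))
    (hu : u ∈ JI i (8 * √ε)) : VI D i u ≤ VI D i s + α * (u - s) := by
  refine csSup_le ⟨_, base_mem hε hε1 h hu⟩ fun t ht => ?_
  have h1 := ha _ ht
  rw [tI_ptI, sI_ptI] at h1
  exact h1.le

/-- Proof. Let `s i = ![√3 / 2, 1 / 2, 3 / 2] i`. `exists_support` at `s i` (for large `n` it is in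
`JI i (8 √ε)`) gives `α n i`; put `y n i = α n i`, `x n i = VI (D n) i (s i) - α n i * s i`. Near
`s i` (distance `h = 1/4`) `shp c a k i` is affine with slope `a i` and constant `c i`
(`1 - s < 0` there for `i = 2`). For `|u - s i| ≤ h`, `VI (D n) i u ≤ VI (D n) i (s i) + α (u - s i)`
(the points of `D` on the line `sI i = u` satisfy it: `csSup_le`; nonempty by `base_mem`). So
`slope_tendsto` for `VI (D n) i / ε n` and `α n i / ε n`. -/
theorem Setup.support {D : ℕ → Set P} {ε : ℕ → ℝ} {W : Fin 3 → ℝ → ℝ} (h : Setup D ε W)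
    {c a : Fin 3 → ℝ} {k : ℝ} (hW : ∀ i, ∀ s ∈ Ioo 0 (lenI i), W i s = shp c a k i s) :
    ∃ x y : ℕ → Fin 3 → ℝ, (∀ᶠ n in atTop, ∀ v ∈ D n, ∀ i, tI i v < x n i + y n i * sI i v) ∧
      (∀ i, Tendsto (fun n => x n i / ε n) atTop (𝓝 (c i))) ∧
      ∀ i, Tendsto (fun n => y n i / ε n) atTop (𝓝 (a i)) := by
  have hε1 : ∀ n, ε n ≤ 1 / 10 ^ 6 := fun n => (h.small n).trans (by norm_num)
  have he : ∀ n, 8 * √(ε n) ≤ 1 / 10 := by
    intro n
    have h1 : √(ε n) ≤ 1 / 1000 := by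
      rw [Real.sqrt_le_left (by norm_num)]
      exact (hε1 n).trans (by norm_num)
    linarith
  have hmem : ∀ i u, u ∈ Icc (ESup_s i - 1 / 4) (ESup_s i + 1 / 4) → ∀ n,
      u ∈ JI i (8 * √(ε n)) := fun i u hu n => ESup_in hu (he n)
  have hs : ∀ i, ESup_s i ∈ Icc (ESup_s i - 1 / 4) (ESup_s i + 1 / 4) := fun i =>
    ⟨by linarith, by linarith⟩
  have hex : ∀ n i, ∃ a : ℝ, ∀ v ∈ D n,
      tI i v < VI (D n) i (ESup_s i) + a * (sI i v - ESup_s i) := fun n i =>
    exists_support (h.pos n) (hε1 n) (h.near n) (hmem i _ (hs i) n)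
  choose α hα using hex
  have hIoo : ∀ i u, u ∈ Icc (ESup_s i - 1 / 4) (ESup_s i + 1 / 4) → u ∈ Ioo 0 (lenI i) := by
    intro i u hu
    have h1 := ESup_in hu (d := 1 / 10) le_rfl
    exact ⟨by linarith [h1.1], by linarith [h1.2]⟩
  have hc : ∀ i u, u ∈ Icc (ESup_s i - 1 / 4) (ESup_s i + 1 / 4) →
      Tendsto (fun n => VI (D n) i u / ε n) atTop (𝓝 (W i u)) := fun i u hu =>
    h.conv i u (hIoo i u hu)
  have haff : ∀ i u, u ∈ Icc (ESup_s i - 1 / 4) (ESup_s i + 1 / 4) → W i u = c i + a i * u := by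
    intro i u hu
    rw [hW i u (hIoo i u hu), ESup_shp hu]
  have hy : ∀ i, Tendsto (fun n => α n i / ε n) atTop (𝓝 (a i)) := by
    intro i
    refine slope_tendsto (f := fun n u => VI (D n) i u / ε n) (F := W i) (s := ESup_s i)
      (h := 1 / 4) (c := c i) (by norm_num) (hc i) (haff i) (Eventually.of_forall ?_)
    intro n u hu
    have h1 := ESup_VI (h.pos n) (hε1 n) (h.near n) (hα n i) (hmem i u hu n)
    change VI (D n) i u / ε n ≤ VI (D n) i (ESup_s i) / ε n + α n i / ε n * (u - ESup_s i)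
    rw [div_mul_eq_mul_div, ← add_div]
    exact div_le_div_of_nonneg_right h1 (h.pos n).le
  refine ⟨fun n i => VI (D n) i (ESup_s i) - α n i * ESup_s i, α, Eventually.of_forall ?_, ?_, hy⟩
  · intro n v hv i
    have h1 := hα n i v hv
    change tI i v < VI (D n) i (ESup_s i) - α n i * ESup_s i + α n i * sI i v
    linarith
  · intro i
    have h1 := (hc i _ (hs i)).sub ((hy i).mul_const (ESup_s i))
    rw [haff i _ (hs i), add_sub_cancel_right] at h1
    refine h1.congr fun n => ?_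
    change VI (D n) i (ESup_s i) / ε n - α n i / ε n * ESup_s i =
      (VI (D n) i (ESup_s i) - α n i * ESup_s i) / ε n
    rw [sub_div, div_mul_eq_mul_div]

end Pool.Agent.MP4eed4eI
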