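import Pool.Agent.Lib.MP_4eed4e_an_I.IDefs

set_option autoImplicit false

/-!
Project I, block G: the coordinates adapted to the sides.
-/

namespace Pool.Agent.MP4eed4eI

open Pool.Agent.MP4eed4eP MeasureTheory Set Filter Topology

private theorem co_s2 : √(3 : ℝ) * √3 = 3 := Real.mul_self_sqrt (by norm_num)

private theorem co_s0 : 0 < √(3 : ℝ) := by positivity

private theorem co_s1 : 1 < √(3 : ℝ) := by
  nlinarith [co_s2, co_s0]

private theorem co_s3 : √(3 : ℝ) < 9 / 5 := by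
  nlinarith [co_s2, co_s0]

private theorem co_s17 : 17 / 10 < √(3 : ℝ) := by
  nlinarith [co_s2, co_s0]

theorem lenI_bounds (i : Fin 3) : 1 ≤ lenI i ∧ lenI i ≤ 2 := by
  have h1 := co_s1
  have h2 := co_s3
  fin_cases i
  · change 1 ≤ √(3 : ℝ) ∧ √(3 : ℝ) ≤ 2
    exact ⟨by linarith, by linarith⟩
  · change (1 : ℝ) ≤ 1 ∧ (1 : ℝ) ≤ 2
    norm_num
  · change (1 : ℝ) ≤ 2 ∧ (2 : ℝ) ≤ 2
    norm_num

theorem sI_ptI (i : Fin 3) (s t : ℝ) : sI i (ptI i s t) = s := by
  fin_cases i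
  · rfl
  · rfl
  · change (√3 * ((√3 * s - t) / 2) + (s + √3 * t) / 2) / 2 = s
    linear_combination (s / 4) * co_s2

theorem tI_ptI (i : Fin 3) (s t : ℝ) : tI i (ptI i s t) = t := by
  fin_cases i
  · change - -t = t
    ring
  · change √3 + t - √3 = t
    ring
  · change (-((√3 * s - t) / 2) + √3 * ((s + √3 * t) / 2)) / 2 = t
    linear_combination (t / 4) * co_s2

theorem ptI_sI_tI (i : Fin 3) (v : P) : ptI i (sI i v) (tI i v) = v := by
  fin_cases i
  · change ((v.1, - -v.2) : P) = v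
    rw [neg_neg]
  · change ((√3 + (v.1 - √3), v.2) : P) = v
    rw [add_sub_cancel]
  · change (((√3 * ((√3 * v.1 + v.2) / 2) - (-v.1 + √3 * v.2) / 2) / 2,
      ((√3 * v.1 + v.2) / 2 + √3 * ((-v.1 + √3 * v.2) / 2)) / 2) : P) = v
    ext
    · dsimp only
      linear_combination (v.1 / 4) * co_s2
    · dsimp only
      linear_combination (v.2 / 4) * co_s2

theorem mem_T0_iff (v : P) : v ∈ T0 ↔ ∀ i, tI i v < 0 := by
  constructor
  · rintro ⟨h1, h2, h3⟩ i
    fin_cases i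
    · change -v.2 < 0
      linarith
    · change v.1 - √3 < 0
      linarith
    · change (-v.1 + √3 * v.2) / 2 < 0
      linarith
  · intro h
    have h1 : -v.2 < 0 := h 0
    have h2 : v.1 - √3 < 0 := h 1
    have h3 : (-v.1 + √3 * v.2) / 2 < 0 := h 2
    exact ⟨by linarith, by linarith, by linarith⟩

private theorem co_lin (a b c d : ℝ) (h : |a * d - b * c| = 1) :
    MeasurePreserving (fun v : P => (a * v.1 + b * v.2, c * v.1 + d * v.2)) volume volume := by
  have hdet : LinearMap.det (Matrix.toLin (Module.Basis.finTwoProd ℝ) (Module.Basis.finTwoProd ℝ)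
      !![a, b; c, d]) = a * d - b * c := by
    rw [LinearMap.det_toLin, Matrix.det_fin_two_of]
  have hne : LinearMap.det (Matrix.toLin (Module.Basis.finTwoProd ℝ) (Module.Basis.finTwoProd ℝ)
      !![a, b; c, d]) ≠ 0 := by
    rw [hdet]
    intro h0
    rw [h0, abs_zero] at h
    exact zero_ne_one h
  have h1 := Measure.map_linearMap_addHaar_eq_smul_addHaar (volume : Measure P) hne
  refine ⟨by fun_prop, ?_⟩
  have h2 : (fun v : P => (a * v.1 + b * v.2, c * v.1 + d * v.2)) =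
      Matrix.toLin (Module.Basis.finTwoProd ℝ) (Module.Basis.finTwoProd ℝ) !![a, b; c, d] :=
    funext fun v => (Matrix.toLin_finTwoProd_apply a b c d v).symm
  rw [h2, h1, hdet, abs_inv, h, inv_one, ENNReal.ofReal_one, one_smul]

/-- `ptI i` is an isometry of the plane, so it preserves the measure.

Proof. `i = 2`: a linear map with determinant `1` or `-1`
(`Real.map_linearMap_volume_pi_eq_smul_volume_pi`
or `MeasureTheory.Measure.addHaar_preimage_linearMap`); `i = 0, 1`: reflections, translations and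
the
exchange of the coordinates. Compare `PG.lamL_cf` and the lemmas of `PB/BTr` (`six_props`). -/
theorem mp_ptI (i : Fin 3) : MeasurePreserving (fun x : P => ptI i x.1 x.2) volume volume := by
  fin_cases i
  · have h := co_lin 1 0 0 (-1) (by norm_num)
    have e : (fun v : P => ((1 : ℝ) * v.1 + 0 * v.2, (0 : ℝ) * v.1 + -1 * v.2)) =
        fun x : P => ptI 0 x.1 x.2 := by
      funext x
      change ((1 * x.1 + 0 * x.2, 0 * x.1 + -1 * x.2) : P) = (x.1, -x.2)
      ext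
      · dsimp only
        ring
      · dsimp only
        ring
    rw [e] at h
    exact h
  · have h := (measurePreserving_add_left (volume : Measure P) ((√3, 0) : P)).comp
      (co_lin 0 1 1 0 (by norm_num))
    have e : ((fun v : P => ((√3, 0) : P) + v) ∘
        fun v : P => ((0 : ℝ) * v.1 + 1 * v.2, (1 : ℝ) * v.1 + 0 * v.2)) =
        fun x : P => ptI 1 x.1 x.2 := by
      funext x
      change (((√3, 0) : P) + (0 * x.1 + 1 * x.2, 1 * x.1 + 0 * x.2) : P) = (√3 + x.2, x.1)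
      ext
      · change √3 + (0 * x.1 + 1 * x.2) = √3 + x.2
        ring
      · change 0 + (1 * x.1 + 0 * x.2) = x.1
        ring
    rw [e] at h
    exact h
  · have h := co_lin (√3 / 2) (-1 / 2) (1 / 2) (√3 / 2) (by
      have : √(3 : ℝ) / 2 * (√3 / 2) - -1 / 2 * (1 / 2) = 1 := by
        linear_combination (1 / 4 : ℝ) * co_s2
      rw [this, abs_one])
    have e : (fun v : P => (√3 / 2 * v.1 + -1 / 2 * v.2, (1 : ℝ) / 2 * v.1 + √3 / 2 * v.2)) =
        fun x : P => ptI 2 x.1 x.2 := by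
      funext x
      change ((√3 / 2 * x.1 + -1 / 2 * x.2, 1 / 2 * x.1 + √3 / 2 * x.2) : P) =
        ((√3 * x.1 - x.2) / 2, (x.1 + √3 * x.2) / 2)
      ext
      · dsimp only
        ring
      · dsimp only
        ring
    rw [e] at h
    exact h

private theorem co_cpt (i : Fin 3) : Continuous (fun x : P => ptI i x.1 x.2) := by
  fin_cases i
  · change Continuous (fun x : P => ((x.1, -x.2) : P))
    fun_prop
  · change Continuous (fun x : P => ((√3 + x.2, x.1) : P))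
    fun_prop
  · change Continuous (fun x : P => (((√3 * x.1 - x.2) / 2, (x.1 + √3 * x.2) / 2) : P))
    fun_prop

theorem me_ptI (i : Fin 3) : MeasurableEmbedding (fun x : P => ptI i x.1 x.2) := by
  refine (co_cpt i).measurableEmbedding (fun x y h => ?_)
  have h' : ptI i x.1 x.2 = ptI i y.1 y.2 := h
  have h1 := congrArg (sI i) h'
  have h2 := congrArg (tI i) h'
  rw [sI_ptI, sI_ptI] at h1
  rw [tI_ptI, tI_ptI] at h2
  exact Prod.ext h1 h2

theorem continuous_ptI (i : Fin 3) : Continuous (fun x : P => ptI i x.1 x.2) := by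
  exact co_cpt i

theorem continuous_sI (i : Fin 3) : Continuous (sI i) := by
  fin_cases i
  · exact continuous_fst
  · exact continuous_snd
  · change Continuous (fun v : P => (√3 * v.1 + v.2) / 2)
    fun_prop

theorem continuous_tI (i : Fin 3) : Continuous (tI i) := by
  fin_cases i
  · change Continuous (fun v : P => -v.2)
    fun_prop
  · change Continuous (fun v : P => v.1 - √3)
    fun_prop
  · change Continuous (fun v : P => (-v.1 + √3 * v.2) / 2)
    fun_prop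

/-- `sI`, `tI` are affine. -/
theorem sI_comb (i : Fin 3) {a b : ℝ} (h : a + b = 1) (v w : P) :
    sI i (a • v + b • w) = a * sI i v + b * sI i w := by
  clear h
  fin_cases i
  · rfl
  · rfl
  · change (√3 * (a * v.1 + b * w.1) + (a * v.2 + b * w.2)) / 2 =
      a * ((√3 * v.1 + v.2) / 2) + b * ((√3 * w.1 + w.2) / 2)
    ring

theorem tI_comb (i : Fin 3) {a b : ℝ} (h : a + b = 1) (v w : P) :
    tI i (a • v + b • w) = a * tI i v + b * tI i w := by
  fin_cases i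
  · change -(a * v.2 + b * w.2) = a * -v.2 + b * -w.2
    ring
  · change a * v.1 + b * w.1 - √3 = a * (v.1 - √3) + b * (w.1 - √3)
    linear_combination √3 * h
  · change (-(a * v.1 + b * w.1) + √3 * (a * v.2 + b * w.2)) / 2 =
      a * ((-v.1 + √3 * v.2) / 2) + b * ((-w.1 + √3 * w.2) / 2)
    ring

theorem ptI_comb (i : Fin 3) {a b : ℝ} (h : a + b = 1) (s s' t t' : ℝ) :
    ptI i (a * s + b * s') (a * t + b * t') = a • ptI i s t + b • ptI i s' t' := by
  fin_cases i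
  · change ((a * s + b * s', -(a * t + b * t')) : P) = (a * s + b * s', a * -t + b * -t')
    ext
    · rfl
    · dsimp only
      ring
  · change ((√3 + (a * t + b * t'), a * s + b * s') : P) =
      (a * (√3 + t) + b * (√3 + t'), a * s + b * s')
    ext
    · dsimp only
      linear_combination (-√3) * h
    · rfl
  · change (((√3 * (a * s + b * s') - (a * t + b * t')) / 2,
        (a * s + b * s' + √3 * (a * t + b * t')) / 2) : P) =
      (a * ((√3 * s - t) / 2) + b * ((√3 * s' - t') / 2),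
        a * ((s + √3 * t) / 2) + b * ((s' + √3 * t') / 2))
    ext
    · dsimp only
      ring
    · dsimp only
      ring

private theorem co_dist (v w : P) : |v.1 - w.1| ≤ dist v w ∧ |v.2 - w.2| ≤ dist v w := by
  rw [Prod.dist_eq, Real.dist_eq, Real.dist_eq]
  exact ⟨le_max_left _ _, le_max_right _ _⟩

private theorem co_lip {c x y d : ℝ} (hc : 0 ≤ c) (hc' : c ≤ 9 / 10) (hx : |x| ≤ d)
    (hy : |y| ≤ d) : |c * x + 1 / 2 * y| ≤ 7 / 5 * d := by
  have hd : 0 ≤ d := (abs_nonneg x).trans hx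
  have h1 : |c * x + 1 / 2 * y| ≤ |c * x| + |1 / 2 * y| := abs_add_le _ _
  rw [abs_mul, abs_mul, abs_of_nonneg hc, abs_of_nonneg (by norm_num : (0 : ℝ) ≤ 1 / 2)] at h1
  have h2 : c * |x| ≤ 9 / 10 * d :=
    mul_le_mul hc' hx (abs_nonneg _) (by norm_num)
  linarith

/-- Lipschitz bounds in the sup norm; `(1 + √3) / 2 < 7 / 5`. -/
theorem abs_sI_sub (i : Fin 3) (v w : P) : |sI i v - sI i w| ≤ 7 / 5 * dist v w := by
  obtain ⟨h1, h2⟩ := co_dist v w
  have h0 : 0 ≤ dist v w := dist_nonneg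
  have h3 := co_s0
  have h4 := co_s3
  fin_cases i
  · change |v.1 - w.1| ≤ 7 / 5 * dist v w
    linarith
  · change |v.2 - w.2| ≤ 7 / 5 * dist v w
    linarith
  · change |(√3 * v.1 + v.2) / 2 - (√3 * w.1 + w.2) / 2| ≤ 7 / 5 * dist v w
    have e : (√3 * v.1 + v.2) / 2 - (√3 * w.1 + w.2) / 2 =
        √3 / 2 * (v.1 - w.1) + 1 / 2 * (v.2 - w.2) := by ring
    rw [e]
    exact co_lip (by linarith) (by linarith) h1 h2

theorem abs_tI_sub (i : Fin 3) (v w : P) : |tI i v - tI i w| ≤ 7 / 5 * dist v w := by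
  obtain ⟨h1, h2⟩ := co_dist v w
  have h0 : 0 ≤ dist v w := dist_nonneg
  have h3 := co_s0
  have h4 := co_s3
  fin_cases i
  · change |-v.2 - -w.2| ≤ 7 / 5 * dist v w
    rw [neg_sub_neg, abs_sub_comm]
    linarith
  · change |v.1 - √3 - (w.1 - √3)| ≤ 7 / 5 * dist v w
    rw [sub_sub_sub_cancel_right]
    linarith
  · change |(-v.1 + √3 * v.2) / 2 - (-w.1 + √3 * w.2) / 2| ≤ 7 / 5 * dist v w
    have e : (-v.1 + √3 * v.2) / 2 - (-w.1 + √3 * w.2) / 2 =
        √3 / 2 * (v.2 - w.2) + 1 / 2 * (w.1 - v.1) := by ring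
    rw [e]
    rw [abs_sub_comm] at h1
    exact co_lip (by linarith) (by linarith) h2 h1

theorem dist_ptI_le (i : Fin 3) (s t s' t' : ℝ) :
    dist (ptI i s t) (ptI i s' t') ≤ |s - s'| + |t - t'| := by
  have h1 := abs_nonneg (s - s')
  have h2 := abs_nonneg (t - t')
  have h3 := co_s0
  have h4 := co_s3
  have key : ∀ c d x y : ℝ, 0 ≤ c → c ≤ 1 → 0 ≤ d → d ≤ 1 →
      |c * x + d * y| ≤ |x| + |y| := by
    intro c d x y hc hc' hd hd'
    have h5 : |c * x + d * y| ≤ |c * x| + |d * y| := abs_add_le _ _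
    rw [abs_mul, abs_mul, abs_of_nonneg hc, abs_of_nonneg hd] at h5
    have h6 := mul_le_mul_of_nonneg_right hc' (abs_nonneg x)
    have h7 := mul_le_mul_of_nonneg_right hd' (abs_nonneg y)
    linarith
  rw [Prod.dist_eq, Real.dist_eq, Real.dist_eq]
  fin_cases i
  · refine max_le ?_ ?_
    · change |s - s'| ≤ |s - s'| + |t - t'|
      linarith
    · change |-t - -t'| ≤ |s - s'| + |t - t'|
      rw [neg_sub_neg, abs_sub_comm]
      linarith
  · refine max_le ?_ ?_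
    · change |√3 + t - (√3 + t')| ≤ |s - s'| + |t - t'|
      rw [add_sub_add_left_eq_sub]
      linarith
    · change |s - s'| ≤ |s - s'| + |t - t'|
      linarith
  · refine max_le ?_ ?_
    · change |(√3 * s - t) / 2 - (√3 * s' - t') / 2| ≤ |s - s'| + |t - t'|
      have e : (√3 * s - t) / 2 - (√3 * s' - t') / 2 =
          √3 / 2 * (s - s') + 1 / 2 * (t' - t) := by ring
      rw [e, abs_sub_comm t t']
      exact key _ _ _ _ (by linarith) (by linarith) (by norm_num) (by norm_num)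
    · change |(s + √3 * t) / 2 - (s' + √3 * t') / 2| ≤ |s - s'| + |t - t'|
      have e : (s + √3 * t) / 2 - (s' + √3 * t') / 2 =
          1 / 2 * (s - s') + √3 / 2 * (t - t') := by ring
      rw [e]
      exact key _ _ _ _ (by norm_num) (by norm_num) (by linarith) (by linarith)

private theorem co_cor {v w : P} {r : ℝ} (h1 : v.1 - w.1 ≤ r) (h2 : w.1 - v.1 ≤ r)
    (h3 : v.2 - w.2 ≤ r) (h4 : w.2 - v.2 ≤ r) : dist v w ≤ r := by
  rw [Prod.dist_eq, Real.dist_eq, Real.dist_eq]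
  exact max_le (abs_le.2 ⟨by linarith, h1⟩) (abs_le.2 ⟨by linarith, h3⟩)

/-- Multiplication of inequalities by `√3`. -/
private theorem co_mul {x y : ℝ} (h : x ≤ y) : √3 * x ≤ √3 * y :=
  mul_le_mul_of_nonneg_left h co_s0.le

/-- Upper bound by a nonnegative multiple. -/
private theorem co_up {x : ℝ} (h : 0 ≤ x) : √3 * x ≤ 9 / 5 * x ∧ 17 / 10 * x ≤ √3 * x :=
  ⟨mul_le_mul_of_nonneg_right co_s3.le h, mul_le_mul_of_nonneg_right co_s17.le h⟩

/-- Division by `√3`. -/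
private theorem co_div {x y : ℝ} (h : √3 * x ≤ 3 * y) : x ≤ √3 * y := by
  have h1 := co_mul h
  have h2 : √3 * (√3 * x) = 3 * x := by linear_combination x * co_s2
  have h3 : √3 * (3 * y) = 3 * (√3 * y) := by ring
  linarith

private theorem co_d01 {v : P} {τ : ℝ} (h : |tI 0 v| ≤ τ) (h' : |tI 1 v| ≤ τ) :
    dist v (corI 1) ≤ 4 * τ := by
  have hτ : 0 ≤ τ := (abs_nonneg _).trans h
  obtain ⟨a1, a2⟩ : -τ ≤ -v.2 ∧ -v.2 ≤ τ := abs_le.1 h
  obtain ⟨b1, b2⟩ : -τ ≤ v.1 - √3 ∧ v.1 - √3 ≤ τ := abs_le.1 h'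
  change dist v ((√3, 0) : P) ≤ 4 * τ
  refine co_cor ?_ ?_ ?_ ?_ <;> dsimp only <;> linarith

private theorem co_d02 {v : P} {τ : ℝ} (h : |tI 0 v| ≤ τ) (h' : |tI 2 v| ≤ τ) :
    dist v (corI 0) ≤ 4 * τ := by
  have hτ : 0 ≤ τ := (abs_nonneg _).trans h
  obtain ⟨a1, a2⟩ : -τ ≤ -v.2 ∧ -v.2 ≤ τ := abs_le.1 h
  obtain ⟨b1, b2⟩ : -τ ≤ (-v.1 + √3 * v.2) / 2 ∧ (-v.1 + √3 * v.2) / 2 ≤ τ := abs_le.1 h'
  have c1 := co_mul (by linarith : v.2 ≤ τ)
  have c2 := co_mul (by linarith : -v.2 ≤ τ)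
  have c3 := (co_up hτ).1
  have c4 : √3 * -v.2 = -(√3 * v.2) := by ring
  change dist v ((0, 0) : P) ≤ 4 * τ
  refine co_cor ?_ ?_ ?_ ?_ <;> dsimp only <;> linarith

private theorem co_d12 {v : P} {τ : ℝ} (h : |tI 1 v| ≤ τ) (h' : |tI 2 v| ≤ τ) :
    dist v (corI 2) ≤ 4 * τ := by
  have hτ : 0 ≤ τ := (abs_nonneg _).trans h
  obtain ⟨a1, a2⟩ : -τ ≤ v.1 - √3 ∧ v.1 - √3 ≤ τ := abs_le.1 h
  obtain ⟨b1, b2⟩ : -τ ≤ (-v.1 + √3 * v.2) / 2 ∧ (-v.1 + √3 * v.2) / 2 ≤ τ := abs_le.1 h'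
  have c1 : v.2 - 1 ≤ √3 * τ := by
    refine co_div ?_
    have : √3 * (v.2 - 1) = √3 * v.2 - √3 := by ring
    linarith
  have c2 : 1 - v.2 ≤ √3 * τ := by
    refine co_div ?_
    have : √3 * (1 - v.2) = √3 - √3 * v.2 := by ring
    linarith
  have c3 := (co_up hτ).1
  change dist v ((√3, 1) : P) ≤ 4 * τ
  refine co_cor ?_ ?_ ?_ ?_ <;> dsimp only <;> linarith

/-- Two lines at an angle of 30, 60 or 90 degrees: a point which is close to two sides is close to
their common corner (sup norm); the constant is `1 / sin (15°) = 3.87`.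

Proof. For each pair of sides solve for the coordinates: for the sides 0 and 2,
`v.2 = - tI 0 v`, `v.1 = √3 v.2 - 2 tI 2 v`, so `|v.1| ≤ (√3 + 2) τ`; similarly for the other pairs.
-/
theorem dist_cor_le {i j : Fin 3} (hij : i ≠ j) : ∃ k : Fin 3, ∀ (v : P) (τ : ℝ),
    |tI i v| ≤ τ → |tI j v| ≤ τ → dist v (corI k) ≤ 4 * τ := by
  have h3 := co_s0
  have h4 := co_s3
  have h5 := co_s17
  fin_cases i <;> fin_cases j
  · exact absurd rfl hij
  · exact ⟨1, fun v τ h h' => co_d01 h h'⟩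
  · exact ⟨0, fun v τ h h' => co_d02 h h'⟩
  · exact ⟨1, fun v τ h h' => co_d01 h' h⟩
  · exact absurd rfl hij
  · exact ⟨2, fun v τ h h' => co_d12 h h'⟩
  · exact ⟨0, fun v τ h h' => co_d02 h' h⟩
  · exact ⟨2, fun v τ h h' => co_d12 h' h⟩
  · exact absurd rfl hij

/-- If all `tI j v ≤ τ`, `-a ≤ tI i v`, and `sI i v` is close to an end of the side `i` or beyond
it,
then `v` is close to a corner. Here `sI i v ≤ b` or `lenI i - b ≤ sI i v`.

Proof. Case analysis. Example `i = 0`, `sI 0 v = v.1 ≤ b`: `tI 2 v ≤ τ` gives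
`- v.1 ≤ 2 τ - √3 v.2`, `v.2 = - tI 0 v ≥ -τ`, so `- v.1 ≤ 2 τ + √3 τ`; together
`dist v (corI 0) ≤ max (max b (4 τ)) (max τ a)`. Use `τ ≥ 0`, `a ≥ 0`, `b ≥ 0`; the other cases are
similar (`i = 0`: `tI 1 v ≤ τ`; `i = 1`: `tI 0 v ≤ τ`, `tI 2 v ≤ τ`; `i = 2`: `tI 0 v ≤ τ`,
`tI 1 v ≤ τ`; in the last two cases the bound contains also `2 a`). -/
theorem near_cor_of_end (i : Fin 3) {v : P} {τ a b : ℝ} (hτ : 0 ≤ τ) (ha : 0 ≤ a) (hb : 0 ≤ b)
    (h : ∀ j, tI j v ≤ τ) (hi : -a ≤ tI i v) (hs : sI i v ≤ b ∨ lenI i - b ≤ sI i v) :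
    ∃ k : Fin 3, dist v (corI k) ≤ b + 2 * a + 4 * τ := by
  have h0 : -v.2 ≤ τ := h 0
  have h1 : v.1 - √3 ≤ τ := h 1
  have h2 : (-v.1 + √3 * v.2) / 2 ≤ τ := h 2
  have s0 := co_s0
  have s3 := co_s3
  obtain ⟨uτ, uτ'⟩ := co_up hτ
  obtain ⟨ua, ua'⟩ := co_up ha
  obtain ⟨ub, ub'⟩ := co_up hb
  have m0 := co_mul h0
  have e0 : √3 * -v.2 = -(√3 * v.2) := by ring
  rw [e0] at m0
  have c1 : v.2 - 1 ≤ √3 * τ := by
    refine co_div ?_
    have : √3 * (v.2 - 1) = √3 * v.2 - √3 := by ring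
    linarith
  fin_cases i
  · have hi' : -a ≤ -v.2 := hi
    have hs' : v.1 ≤ b ∨ √3 - b ≤ v.1 := hs
    rcases hs' with hs' | hs'
    · refine ⟨0, ?_⟩
      change dist v ((0, 0) : P) ≤ b + 2 * a + 4 * τ
      refine co_cor ?_ ?_ ?_ ?_ <;> dsimp only <;> linarith
    · refine ⟨1, ?_⟩
      change dist v ((√3, 0) : P) ≤ b + 2 * a + 4 * τ
      refine co_cor ?_ ?_ ?_ ?_ <;> dsimp only <;> linarith
  · have hi' : -a ≤ v.1 - √3 := hi
    have hs' : v.2 ≤ b ∨ 1 - b ≤ v.2 := hs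
    rcases hs' with hs' | hs'
    · refine ⟨1, ?_⟩
      change dist v ((√3, 0) : P) ≤ b + 2 * a + 4 * τ
      refine co_cor ?_ ?_ ?_ ?_ <;> dsimp only <;> linarith
    · refine ⟨2, ?_⟩
      change dist v ((√3, 1) : P) ≤ b + 2 * a + 4 * τ
      refine co_cor ?_ ?_ ?_ ?_ <;> dsimp only <;> linarith
  · have hi' : -a ≤ (-v.1 + √3 * v.2) / 2 := hi
    have hs' : (√3 * v.1 + v.2) / 2 ≤ b ∨ 2 - b ≤ (√3 * v.1 + v.2) / 2 := hs
    have ev1 : v.1 = √3 * ((√3 * v.1 + v.2) / 2) / 2 - (-v.1 + √3 * v.2) / 2 / 2 := by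
      linear_combination (-v.1 / 4) * co_s2
    have ev2 : v.2 = (√3 * v.1 + v.2) / 2 / 2 + √3 * ((-v.1 + √3 * v.2) / 2) / 2 := by
      linear_combination (-v.2 / 4) * co_s2
    have m2 := co_mul h2
    have m3 := co_mul hi'
    have e3 : √3 * -a = -(√3 * a) := by ring
    rw [e3] at m3
    rcases hs' with hs' | hs'
    · refine ⟨0, ?_⟩
      have m4 := co_mul hs'
      change dist v ((0, 0) : P) ≤ b + 2 * a + 4 * τ
      refine co_cor ?_ ?_ ?_ ?_ <;> dsimp only <;> linarith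
    · refine ⟨2, ?_⟩
      have m4 := co_mul hs'
      have e4 : √3 * (2 - b) = 2 * √3 - √3 * b := by ring
      rw [e4] at m4
      change dist v ((√3, 1) : P) ≤ b + 2 * a + 4 * τ
      refine co_cor ?_ ?_ ?_ ?_ <;> dsimp only <;> linarith

/-- In the same situation `sI i v` is not far beyond the ends of the side. -/
theorem sI_range (i : Fin 3) {v : P} {τ a : ℝ} (hτ : 0 ≤ τ) (ha : 0 ≤ a)
    (h : ∀ j, tI j v ≤ τ) (hi : -a ≤ tI i v) :
    -(4 * τ + 2 * a) ≤ sI i v ∧ sI i v ≤ lenI i + 4 * τ + 2 * a := by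
  clear hi
  have h0 : -v.2 ≤ τ := h 0
  have h1 : v.1 - √3 ≤ τ := h 1
  have h2 : (-v.1 + √3 * v.2) / 2 ≤ τ := h 2
  have s0 := co_s0
  have s3 := co_s3
  obtain ⟨uτ, uτ'⟩ := co_up hτ
  have m0 := co_mul h0
  have e0 : √3 * -v.2 = -(√3 * v.2) := by ring
  rw [e0] at m0
  have c1 : v.2 - 1 ≤ √3 * τ := by
    refine co_div ?_
    have : √3 * (v.2 - 1) = √3 * v.2 - √3 := by ring
    linarith
  fin_cases i
  · change -(4 * τ + 2 * a) ≤ v.1 ∧ v.1 ≤ √3 + 4 * τ + 2 * a
    exact ⟨by linarith, by linarith⟩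
  · change -(4 * τ + 2 * a) ≤ v.2 ∧ v.2 ≤ 1 + 4 * τ + 2 * a
    exact ⟨by linarith, by linarith⟩
  · change -(4 * τ + 2 * a) ≤ (√3 * v.1 + v.2) / 2 ∧ (√3 * v.1 + v.2) / 2 ≤ 2 + 4 * τ + 2 * a
    constructor
    · have m1 := co_mul (by linarith : -v.1 ≤ 2 * τ + √3 * τ)
      have e1 : √3 * -v.1 = -(√3 * v.1) := by ring
      have e2 : √3 * (2 * τ + √3 * τ) = 2 * (√3 * τ) + 3 * τ := by
        linear_combination τ * co_s2
      linarith
    · have m1 := co_mul h1
      have e1 : √3 * (v.1 - √3) = √3 * v.1 - 3 := by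
        linear_combination (-1 : ℝ) * co_s2
      linarith

end Pool.Agent.MP4eed4eI
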