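import Pool.Agent.Lib.MP_4eed4e_an_I.LDef
import Pool.Agent.Lib.MP_4eed4e_an_I.GCo

set_option autoImplicit false

/-!
Project I, block L: a set between given lines is contained in an affine image of `T0`.
-/

namespace Pool.Agent.MP4eed4eI

open Pool.Agent.MP4eed4eP MeasureTheory Set Filter Topology

/-- The affine map of the data `c`, `a`: it maps the lines of the sides of `T0` to lines which are
the lines `tI i v = c i + a i * sI i v` up to the second order. -/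
noncomputable def afI (c a : Fin 3 → ℝ) : P → P :=
  afn (m11 c) (a 1) (-a 0) (m22 c a) (-√3 * c 0 - 2 * c 2, -c 0)

/-- The key identities.

Proof. Direct computation (`ring` after `√3 * √3 = 3`); `i = 0, 1, 2` separately. For `v : P`:
`tI i (afI c a v) - tI i v = c i + a i * sI i v + γ i * tI i v`. -/
theorem afI_tI (c a : Fin 3 → ℝ) (v : P) :
    tI 0 (afI c a v) = tI 0 v + c 0 + a 0 * sI 0 v + m22 c a * tI 0 v ∧
    tI 1 (afI c a v) = tI 1 v + c 1 + a 1 * sI 1 v + m11 c * tI 1 v ∧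
    tI 2 (afI c a v) = tI 2 v + c 2 + a 2 * sI 2 v +
      (m11 c - √3 * (a 1 - a 0) + 3 * m22 c a) / 4 * tI 2 v := by
  have hs : √(3 : ℝ) * √3 = 3 := Real.mul_self_sqrt (by norm_num)
  have hp : (0 : ℝ) < √3 := Real.sqrt_pos.2 (by norm_num)
  have h1 : √3 * m11 c = c 1 + √3 * c 0 + 2 * c 2 := by
    unfold m11
    field_simp
  have h2 : √3 * m22 c a = 4 * a 2 + c 1 + √3 * c 0 + 2 * c 2 + a 1 + 3 * a 0 := by
    unfold m22
    field_simp
  refine ⟨?_, ?_, ?_⟩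
  · change -(v.2 + -c 0 + -a 0 * v.1 + m22 c a * v.2) =
      -v.2 + c 0 + a 0 * v.1 + m22 c a * -v.2
    ring
  · change v.1 + (-√3 * c 0 - 2 * c 2) + m11 c * v.1 + a 1 * v.2 - √3 =
      v.1 - √3 + c 1 + a 1 * v.2 + m11 c * (v.1 - √3)
    linear_combination h1
  · change (-(v.1 + (-√3 * c 0 - 2 * c 2) + m11 c * v.1 + a 1 * v.2) +
        √3 * (v.2 + -c 0 + -a 0 * v.1 + m22 c a * v.2)) / 2 =
      (-v.1 + √3 * v.2) / 2 + c 2 + a 2 * ((√3 * v.1 + v.2) / 2) +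
        (m11 c - √3 * (a 1 - a 0) + 3 * m22 c a) / 4 * ((-v.1 + √3 * v.2) / 2)
    have h3 : 3 * m22 c a = √3 * (4 * a 2 + c 1 + √3 * c 0 + 2 * c 2 + a 1 + 3 * a 0) := by
      rw [← h2]
      linear_combination (-m22 c a) * hs
    have h4 : 3 * m11 c = √3 * (c 1 + √3 * c 0 + 2 * c 2) := by
      rw [← h1]
      linear_combination (-m11 c) * hs
    have h5 : (m11 c - √3 * (a 1 - a 0) + 3 * m22 c a) / 4 =
        m11 c + √3 * a 0 + √3 * a 2 := by
      linear_combination (1 / 4 : ℝ) * h3 - (1 / 4 : ℝ) * h4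
    rw [h5]
    linear_combination (v.2 / 2) * h2 - (v.2 / 2) * h1 -
      (v.2 * (a 0 + a 2) / 2) * hs

private theorem LGeo_s : 17 / 10 ≤ √(3 : ℝ) ∧ √(3 : ℝ) ≤ 9 / 5 := by
  constructor
  · refine Real.le_sqrt_of_sq_le ?_
    norm_num
  · rw [Real.sqrt_le_left (by norm_num)]
    norm_num

private theorem LGeo_mul {x y A B : ℝ} (h : |x| ≤ A) (h' : |y| ≤ B) : |x * y| ≤ A * B := by
  rw [abs_mul]
  exact mul_le_mul h h' (abs_nonneg _) ((abs_nonneg _).trans h)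

private theorem LGeo_sI {x y m : ℝ} (hx : |x| ≤ m) (hy : |y| ≤ m) :
    |(√3 * x + y) / 2| ≤ 7 / 5 * m := by
  have s2 := LGeo_s.2
  have s1 := LGeo_s.1
  have hm0 : 0 ≤ m := (abs_nonneg _).trans hx
  have h1 : |√3 * x| ≤ 9 / 5 * m := LGeo_mul (by rw [abs_of_pos (by linarith)]; exact s2) hx
  have h2 := abs_le.1 h1
  have h3 := abs_le.1 hy
  rw [abs_le]
  constructor <;> linarith

/-- The region is bounded.

Proof. With `x = w.1`, `y = w.2`, `m = max |x| |y|`: `-y < e + e m`, `x < √3 + e + e m`,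
`√3 y < x + 2 e + 3 e m`, so `|x| ≤ 2 + 5 e + 5 e m`, `|y| ≤ 1 + 3 e + 3 e m`, `m ≤ 3`. -/
theorem reg_bdd {e : ℝ} (he : 0 ≤ e) (he' : e ≤ 1 / 100) {c a : Fin 3 → ℝ}
    (h : ∀ i, |c i| ≤ e ∧ |a i| ≤ e) {w : P} (hw : ∀ i, tI i w < c i + a i * sI i w) :
    |w.1| ≤ 3 ∧ |w.2| ≤ 3 := by
  have s1 := LGeo_s.1
  have s2 := LGeo_s.2
  have hp : (0 : ℝ) < √3 := by linarith
  obtain ⟨m, hm⟩ : ∃ m, m = max |w.1| |w.2| := ⟨_, rfl⟩
  have hx : |w.1| ≤ m := hm ▸ le_max_left _ _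
  have hy : |w.2| ≤ m := hm ▸ le_max_right _ _
  have hm0 : 0 ≤ m := (abs_nonneg _).trans hx
  have h0 : -w.2 < c 0 + a 0 * w.1 := hw 0
  have h1 : w.1 - √3 < c 1 + a 1 * w.2 := hw 1
  have h2 : (-w.1 + √3 * w.2) / 2 < c 2 + a 2 * ((√3 * w.1 + w.2) / 2) := hw 2
  have c0 := abs_le.1 ((h 0).1.trans he')
  have c1 := abs_le.1 ((h 1).1.trans he')
  have c2 := abs_le.1 ((h 2).1.trans he')
  have p0 := LGeo_mul ((h 0).2.trans he') hx
  have p1 := LGeo_mul ((h 1).2.trans he') hy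
  have p2 := LGeo_mul ((h 2).2.trans he') (LGeo_sI hx hy)
  have q0 := abs_le.1 p0
  have q1 := abs_le.1 p1
  have q2 := abs_le.1 p2
  have hx' := abs_le.1 hx
  have hy' := abs_le.1 hy
  have k1 : √3 * -w.2 ≤ 9 / 5 * (1 / 100 + 1 / 100 * m) := by
    have e1 : √3 * -w.2 ≤ √3 * (1 / 100 + 1 / 100 * m) :=
      mul_le_mul_of_nonneg_left (by linarith) hp.le
    have e2 : √3 * (1 / 100 + 1 / 100 * m) ≤ 9 / 5 * (1 / 100 + 1 / 100 * m) :=
      mul_le_mul_of_nonneg_right s2 (by linarith)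
    linarith
  have k2 : √3 * -w.2 = -(√3 * w.2) := by ring
  have k3 : w.2 ≤ 11 / 10 + 3 / 100 * m := by
    rcases le_or_gt 0 w.2 with hw2 | hw2
    · have e1 : 17 / 10 * w.2 ≤ √3 * w.2 := mul_le_mul_of_nonneg_right s1 hw2
      linarith
    · linarith
  have k4 : |w.1| ≤ 181 / 100 + 5 / 100 * m := by
    rw [abs_le]
    constructor <;> linarith
  have k5 : |w.2| ≤ 181 / 100 + 5 / 100 * m := by
    rw [abs_le]
    constructor <;> linarith
  have k6 : m ≤ 181 / 100 + 5 / 100 * m := by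
    rw [hm] at k4 k5 ⊢
    exact max_le k4 k5
  constructor <;> linarith

private theorem LGeo_div {x B D : ℝ} (h : |√3 * x| ≤ B) (h' : B ≤ 17 / 10 * D) : |x| ≤ D := by
  have s1 := LGeo_s.1
  rw [abs_mul, abs_of_pos (by linarith)] at h
  have h1 : 17 / 10 * |x| ≤ √3 * |x| := mul_le_mul_of_nonneg_right s1 (abs_nonneg x)
  linarith

private theorem LGeo_solve {k l p q x y : ℝ} (h : 0 < (1 + k) * (1 + l) + p * q) :
    ∃ v : P, v.1 + k * v.1 + p * v.2 = x ∧ v.2 - q * v.1 + l * v.2 = y := by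
  obtain ⟨D, hD⟩ : ∃ D, D = (1 + k) * (1 + l) + p * q := ⟨_, rfl⟩
  rw [← hD] at h
  have hne : D ≠ 0 := h.ne'
  refine ⟨(((1 + l) * x - p * y) / D, ((1 + k) * y + q * x) / D), ?_, ?_⟩
  · dsimp only
    refine mul_right_cancel₀ hne ?_
    have e1 : ((1 + l) * x - p * y) / D * D = (1 + l) * x - p * y := div_mul_cancel₀ _ hne
    have e2 : ((1 + k) * y + q * x) / D * D = (1 + k) * y + q * x := div_mul_cancel₀ _ hne
    linear_combination (1 + k) * e1 + p * e2 - x * hD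
  · dsimp only
    refine mul_right_cancel₀ hne ?_
    have e1 : ((1 + l) * x - p * y) / D * D = (1 + l) * x - p * y := div_mul_cancel₀ _ hne
    have e2 : ((1 + k) * y + q * x) / D * D = (1 + k) * y + q * x := div_mul_cancel₀ _ hne
    linear_combination (1 + l) * e2 - q * e1 - y * hD

/-- The containment, with data which are a little larger.

Proof. Let `c' i = c i + K e²` (`K` large, `e` small so that `K e² ≤ e`), `|c'|, |a| ≤ 2 e`. The map
`afI c' a` is a bijection of the plane (the determinant is close to `1`; the entries of the matrix are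
`≤ 20 e`): `w = afI c' a v`. By `reg_bdd` `w` is bounded, so `v` is bounded (`|v - w| ≤ C e (1 + |v|)`)
and `|sI i w - sI i v| ≤ C e`. `afI_tI` for `c'` gives
`(1 + γ i) tI i v = tI i w - c' i - a i * sI i v < c i - c' i + a i * (sI i w - sI i v)
≤ -K e² + C e² ≤ 0`, hence `tI i v < 0` for all `i`: `v ∈ T0` (`mem_T0_iff`). If `e = 0` then all
data are `0` and the claim is trivial (the same argument works: strict inequality in the first
step). -/
theorem geo_in : ∃ K e0 : ℝ, 0 < K ∧ 0 < e0 ∧ ∀ e : ℝ, 0 ≤ e → e ≤ e0 → ∀ c a : Fin 3 → ℝ,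
    (∀ i, |c i| ≤ e ∧ |a i| ≤ e) → ∀ w : P, (∀ i, tI i w < c i + a i * sI i w) →
    w ∈ afI (fun i => c i + K * e ^ 2) a '' T0 := by
  refine ⟨100, 1 / 100, by norm_num, by norm_num, ?_⟩
  intro e he he' c a h w hw
  obtain ⟨hw1, hw2⟩ := reg_bdd he he' h hw
  have s1 := LGeo_s.1
  have s2 := LGeo_s.2
  have hp : (0 : ℝ) < √3 := by linarith
  have hee : 100 * e ^ 2 ≤ e := by nlinarith
  have hee0 : 0 ≤ e ^ 2 := sq_nonneg e
  obtain ⟨c', hc'⟩ : ∃ c' : Fin 3 → ℝ, c' = fun i => c i + 100 * e ^ 2 := ⟨_, rfl⟩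
  have hc'i : ∀ i, c' i = c i + 100 * e ^ 2 := fun i => by rw [hc']
  rw [← hc']
  have hcb : ∀ i, |c' i| ≤ 2 * e := by
    intro i
    have h1 := abs_le.1 (h i).1
    rw [hc'i, abs_le]
    constructor <;> linarith
  have hab : ∀ i, |a i| ≤ e := fun i => (h i).2
  obtain ⟨k, hk⟩ : ∃ k, k = m11 c' := ⟨_, rfl⟩
  obtain ⟨l, hl⟩ : ∃ l, l = m22 c' a := ⟨_, rfl⟩
  have g1 : √3 * k = c' 1 + √3 * c' 0 + 2 * c' 2 := by
    rw [hk]
    unfold m11
    field_simp
  have g2 : √3 * l = 4 * a 2 + c' 1 + √3 * c' 0 + 2 * c' 2 + a 1 + 3 * a 0 := by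
    rw [hl]
    unfold m22
    field_simp
  have hs3 : |√(3 : ℝ)| ≤ 9 / 5 := by
    rw [abs_of_pos hp]
    exact s2
  have r0 := abs_le.1 (LGeo_mul hs3 (hcb 0))
  have r1 := abs_le.1 (hcb 1)
  have r2 := abs_le.1 (hcb 2)
  have t0 := abs_le.1 (hab 0)
  have t1 := abs_le.1 (hab 1)
  have t2 := abs_le.1 (hab 2)
  have hkb : |k| ≤ 6 * e := LGeo_div (B := 96 / 10 * e) (by
    rw [g1, abs_le]
    constructor <;> linarith) (by linarith)
  have hlb : |l| ≤ 11 * e := LGeo_div (B := 176 / 10 * e) (by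
    rw [g2, abs_le]
    constructor <;> linarith) (by linarith)
  obtain ⟨v, hv1, hv2⟩ := LGeo_solve (k := k) (l := l) (p := a 1) (q := a 0)
    (x := w.1 - (-√3 * c' 0 - 2 * c' 2)) (y := w.2 + c' 0)
    (by
      have u1 := abs_le.1 hkb
      have u2 := abs_le.1 hlb
      nlinarith [mul_nonneg (by linarith : 0 ≤ e - a 0) (by linarith : 0 ≤ e + a 1),
        mul_nonneg (by linarith : 0 ≤ e + a 0) (by linarith : 0 ≤ e - a 1),
        mul_nonneg (by linarith : 0 ≤ 6 * e + k) (by linarith : 0 ≤ 11 * e + l),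
        mul_nonneg (by linarith : 0 ≤ 6 * e - k) (by linarith : 0 ≤ 11 * e - l)])
  have hwv : w = afI c' a v := by
    change w = (v.1 + (-√3 * c' 0 - 2 * c' 2) + m11 c' * v.1 + a 1 * v.2,
      v.2 + -c' 0 + -a 0 * v.1 + m22 c' a * v.2)
    rw [← hk, ← hl]
    ext
    · dsimp only
      linarith
    · dsimp only
      linarith
  -- bounds for `v`
  obtain ⟨m, hm⟩ : ∃ m, m = max |v.1| |v.2| := ⟨_, rfl⟩
  have hx : |v.1| ≤ m := hm ▸ le_max_left _ _
  have hy : |v.2| ≤ m := hm ▸ le_max_right _ _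
  have hm0 : 0 ≤ m := (abs_nonneg _).trans hx
  have i1 := abs_le.1 hw1
  have i2 := abs_le.1 hw2
  have j1 := abs_le.1 (LGeo_mul hkb hx)
  have j2 := abs_le.1 (LGeo_mul (hab 1) hy)
  have j3 := abs_le.1 (LGeo_mul (hab 0) hx)
  have j4 := abs_le.1 (LGeo_mul hlb hy)
  have i3 := abs_le.1 (hcb 0)
  have hem : e * m ≤ 1 / 100 * m := mul_le_mul_of_nonneg_right he' hm0
  have hem0 : 0 ≤ e * m := mul_nonneg he hm0
  have d1 : |v.1| ≤ 3 + 8 * e + 12 * (e * m) := by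
    rw [abs_le]
    constructor <;> linarith
  have d2 : |v.2| ≤ 3 + 8 * e + 12 * (e * m) := by
    rw [abs_le]
    constructor <;> linarith
  have d3 : m ≤ 3 + 8 * e + 12 * (e * m) := by
    rw [hm] at d1 d2 ⊢
    exact max_le d1 d2
  have hm4 : m ≤ 4 := by linarith
  have hem4 : e * m ≤ 4 * e := by
    have := mul_le_mul_of_nonneg_left hm4 he
    linarith
  have hd : dist w v ≤ 50 * e := by
    rw [Prod.dist_eq, Real.dist_eq, Real.dist_eq]
    refine max_le (abs_le.2 ⟨?_, ?_⟩) (abs_le.2 ⟨?_, ?_⟩) <;> linarith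
  have hsd : ∀ i, |a i * (sI i w - sI i v)| ≤ 70 * e ^ 2 := by
    intro i
    have h1 := abs_sI_sub i w v
    have h2 := LGeo_mul (hab i) (h1.trans (mul_le_mul_of_nonneg_left hd (by norm_num)))
    have h3 : e * (7 / 5 * (50 * e)) = 70 * e ^ 2 := by ring
    rw [h3] at h2
    exact h2
  obtain ⟨f0, f1, f2⟩ := afI_tI c' a v
  rw [← hwv] at f0 f1 f2
  rw [← hk] at f1 f2
  rw [← hl] at f0 f2
  have key : ∀ (i : Fin 3) (γ : ℝ), -(1 / 2) ≤ γ →
      tI i w = tI i v + c' i + a i * sI i v + γ * tI i v → tI i v < 0 := by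
    intro i γ hγ hi
    have h1 := hw i
    have h2 := abs_le.1 (hsd i)
    have h3 := hc'i i
    have h4 : a i * (sI i w - sI i v) = a i * sI i w - a i * sI i v := by ring
    have h5 : (1 + γ) * tI i v < 0 := by
      have : (1 + γ) * tI i v = tI i v + γ * tI i v := by ring
      linarith
    by_contra hcon
    have h6 : 0 ≤ (1 + γ) * tI i v := mul_nonneg (by linarith) (not_lt.1 hcon)
    linarith
  have u1 := abs_le.1 hkb
  have u2 := abs_le.1 hlb
  have u3 := abs_le.1 (LGeo_mul hs3 (by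
    rw [abs_le]
    constructor <;> linarith : |a 1 - a 0| ≤ 2 * e))
  refine ⟨v, (mem_T0_iff v).2 fun i => ?_, hwv.symm⟩
  fin_cases i
  · exact key 0 l (by linarith) f0
  · exact key 1 k (by linarith) f1
  · exact key 2 _ (by linarith) f2

end Pool.Agent.MP4eed4eI
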