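import Pool.Agent.Lib.MP_4eed4e_an_I.LHad

set_option autoImplicit false

/-!
Project I, block L: three integrals and three inequalities.
-/

namespace Pool.Agent.MP4eed4eI

open Pool.Agent.MP4eed4eP MeasureTheory Set Filter Topology

private theorem lnum_ss (a b c d : ℝ) (hc : c = a - b) (hd : d = a + b) :
    Real.sin a * Real.sin b = (Real.cos c - Real.cos d) / 2 := by
  subst hc hd
  rw [Real.cos_sub, Real.cos_add]
  ring

private theorem lnum_sq (a d : ℝ) (hd : d = a + a) :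
    Real.sin a * Real.sin a = (1 - Real.cos d) / 2 := by
  rw [lnum_ss a a 0 d (by ring) hd, Real.cos_zero]

private theorem lnum_int0 (c : ℝ) (hc : c ≠ 0) :
    ∫ t in (0 : ℝ)..1, Real.cos (c * t) = Real.sin c / c := by
  have hd : ∀ t ∈ uIcc (0 : ℝ) 1, HasDerivAt (fun t => Real.sin (c * t) / c)
      (Real.cos (c * t)) t := by
    intro t _
    have h1 : HasDerivAt (fun t : ℝ => c * t) c t := by
      simpa using (hasDerivAt_id t).const_mul c
    have h2 := (h1.sin).div_const c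
    rwa [mul_div_cancel_right₀ _ hc] at h2
  rw [intervalIntegral.integral_eq_sub_of_hasDerivAt hd
    ((by fun_prop : Continuous fun t : ℝ => Real.cos (c * t)).intervalIntegrable _ _)]
  simp

private theorem lnum_int1 (c : ℝ) (hc : c ≠ 0) :
    ∫ t in (0 : ℝ)..1, t * Real.cos (c * t) =
      Real.sin c / c + (Real.cos c - 1) / c ^ 2 := by
  have hd : ∀ t ∈ uIcc (0 : ℝ) 1, HasDerivAt
      (fun t => t * (Real.sin (c * t) / c) + Real.cos (c * t) / c ^ 2)
      (t * Real.cos (c * t)) t := by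
    intro t _
    have h1 : HasDerivAt (fun t : ℝ => c * t) c t := by
      simpa using (hasDerivAt_id t).const_mul c
    have h2 := (h1.sin).div_const c
    have h3 := (h1.cos).div_const (c ^ 2)
    have h4 := ((hasDerivAt_id t).mul h2).add h3
    refine h4.congr_deriv ?_
    simp only [id]
    field_simp
    ring
  rw [intervalIntegral.integral_eq_sub_of_hasDerivAt hd
    ((by fun_prop : Continuous fun t : ℝ => t * Real.cos (c * t)).intervalIntegrable _ _)]
  simp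
  ring

private theorem lnum_sum0 {n : ℕ} (b : ℝ) (a c : Fin n → ℝ) (hc : ∀ i, c i ≠ 0) :
    ∫ t in (0 : ℝ)..1, (b + ∑ i, a i * Real.cos (c i * t)) =
      b + ∑ i, a i * (Real.sin (c i) / c i) := by
  have h1 : ∀ i ∈ (Finset.univ : Finset (Fin n)), IntervalIntegrable
      (fun t : ℝ => a i * Real.cos (c i * t)) volume 0 1 := fun i _ =>
    (by fun_prop : Continuous fun t : ℝ => a i * Real.cos (c i * t)).intervalIntegrable _ _
  rw [intervalIntegral.integral_add intervalIntegrable_const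
    ((by fun_prop : Continuous fun t : ℝ =>
      ∑ i, a i * Real.cos (c i * t)).intervalIntegrable _ _),
    intervalIntegral.integral_finset_sum h1]
  simp only [intervalIntegral.integral_const_mul, lnum_int0 _ (hc _)]
  simp

private theorem lnum_sum1 {n : ℕ} (b : ℝ) (a c : Fin n → ℝ) (hc : ∀ i, c i ≠ 0) :
    ∫ t in (0 : ℝ)..1, (b + ∑ i, a i * Real.cos (c i * t)) * t =
      b / 2 + ∑ i, a i * (Real.sin (c i) / c i + (Real.cos (c i) - 1) / c i ^ 2) := by
  have h0 : ∀ t : ℝ, (b + ∑ i, a i * Real.cos (c i * t)) * t =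
      b * t + ∑ i, a i * (t * Real.cos (c i * t)) := by
    intro t
    rw [add_mul, Finset.sum_mul]
    congr 1
    exact Finset.sum_congr rfl fun i _ => by ring
  have h1 : ∀ i ∈ (Finset.univ : Finset (Fin n)), IntervalIntegrable
      (fun t : ℝ => a i * (t * Real.cos (c i * t))) volume 0 1 := fun i _ =>
    (by fun_prop : Continuous fun t : ℝ =>
      a i * (t * Real.cos (c i * t))).intervalIntegrable _ _
  simp only [h0]
  rw [intervalIntegral.integral_add
    ((by fun_prop : Continuous fun t : ℝ => b * t).intervalIntegrable _ _)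
    ((by fun_prop : Continuous fun t : ℝ =>
      ∑ i, a i * (t * Real.cos (c i * t))).intervalIntegrable _ _),
    intervalIntegral.integral_finset_sum h1]
  have h2 : ∫ t in (0 : ℝ)..1, b * t = b / 2 := by
    rw [intervalIntegral.integral_const_mul, integral_id]
    ring
  rw [h2]
  congr 1
  refine Finset.sum_congr rfl fun i _ => ?_
  rw [intervalIntegral.integral_const_mul, lnum_int1 _ (hc i)]

private theorem lnum_step (k k' s c s' c' : ℝ) (hk : k' = k + 1)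
    (h : Real.sin (k * (Real.pi / 3)) = s ∧ Real.cos (k * (Real.pi / 3)) = c)
    (hs : s' = s * (1 / 2) + c * (√3 / 2)) (hc : c' = c * (1 / 2) - s * (√3 / 2)) :
    Real.sin (k' * (Real.pi / 3)) = s' ∧ Real.cos (k' * (Real.pi / 3)) = c' := by
  subst hk
  rw [add_mul, one_mul, Real.sin_add, Real.cos_add, h.1, h.2, Real.sin_pi_div_three,
    Real.cos_pi_div_three, hs, hc]
  exact ⟨rfl, rfl⟩

private theorem lnum_val :
    (Real.sin (1 * (Real.pi / 3)) = √3 / 2 ∧ Real.cos (1 * (Real.pi / 3)) = 1 / 2) ∧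
    (Real.sin (2 * (Real.pi / 3)) = √3 / 2 ∧ Real.cos (2 * (Real.pi / 3)) = -1 / 2) ∧
    (Real.sin (3 * (Real.pi / 3)) = 0 ∧ Real.cos (3 * (Real.pi / 3)) = -1) ∧
    (Real.sin (4 * (Real.pi / 3)) = -√3 / 2 ∧ Real.cos (4 * (Real.pi / 3)) = -1 / 2) ∧
    (Real.sin (5 * (Real.pi / 3)) = -√3 / 2 ∧ Real.cos (5 * (Real.pi / 3)) = 1 / 2) ∧
    (Real.sin (6 * (Real.pi / 3)) = 0 ∧ Real.cos (6 * (Real.pi / 3)) = 1) ∧
    (Real.sin (8 * (Real.pi / 3)) = √3 / 2 ∧ Real.cos (8 * (Real.pi / 3)) = -1 / 2) ∧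
    (Real.sin (9 * (Real.pi / 3)) = 0 ∧ Real.cos (9 * (Real.pi / 3)) = -1) ∧
    (Real.sin (10 * (Real.pi / 3)) = -√3 / 2 ∧ Real.cos (10 * (Real.pi / 3)) = -1 / 2) := by
  have h3 : √3 * √3 = 3 := Real.mul_self_sqrt (by norm_num)
  have v1 : Real.sin (1 * (Real.pi / 3)) = √3 / 2 ∧ Real.cos (1 * (Real.pi / 3)) = 1 / 2 := by
    rw [one_mul]
    exact ⟨Real.sin_pi_div_three, Real.cos_pi_div_three⟩
  have v2 := lnum_step 1 2 _ _ (√3 / 2) (-1 / 2) (by norm_num) v1 (by ring)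
    (by linear_combination (1 / 4) * h3)
  have v3 := lnum_step 2 3 _ _ 0 (-1) (by norm_num) v2 (by ring)
    (by linear_combination (1 / 4) * h3)
  have v4 := lnum_step 3 4 _ _ (-√3 / 2) (-1 / 2) (by norm_num) v3 (by ring) (by ring)
  have v5 := lnum_step 4 5 _ _ (-√3 / 2) (1 / 2) (by norm_num) v4 (by ring)
    (by linear_combination (-1 / 4) * h3)
  have v6 := lnum_step 5 6 _ _ 0 1 (by norm_num) v5 (by ring)
    (by linear_combination (-1 / 4) * h3)
  have v7 := lnum_step 6 7 _ _ (√3 / 2) (1 / 2) (by norm_num) v6 (by ring) (by ring)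
  have v8 := lnum_step 7 8 _ _ (√3 / 2) (-1 / 2) (by norm_num) v7 (by ring)
    (by linear_combination (1 / 4) * h3)
  have v9 := lnum_step 8 9 _ _ 0 (-1) (by norm_num) v8 (by ring)
    (by linear_combination (1 / 4) * h3)
  have v10 := lnum_step 9 10 _ _ (-√3 / 2) (-1 / 2) (by norm_num) v9 (by ring) (by ring)
  exact ⟨v1, v2, v3, v4, v5, v6, v8, v9, v10⟩

private noncomputable def lnumA : Fin 9 → ℝ := ![2, -9 / 2, 6, 3, -6, -3, -2, -2, -1 / 2]

private noncomputable def lnumC : Fin 9 → ℝ :=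
  ![1 * (Real.pi / 3), 2 * (Real.pi / 3), 3 * (Real.pi / 3), 4 * (Real.pi / 3),
    5 * (Real.pi / 3), 6 * (Real.pi / 3), 8 * (Real.pi / 3), 9 * (Real.pi / 3),
    10 * (Real.pi / 3)]

private theorem lnumC_ne (i : Fin 9) : lnumC i ≠ 0 := by
  have := Real.pi_pos
  fin_cases i <;> simp [lnumC] <;> positivity

private theorem lnum_gA (y : ℝ) :
    gA k1 y ^ 2 = 7 + ∑ i, lnumA i * Real.cos (lnumC i * y) := by
  rw [gA_k1]
  simp only [Fin.sum_univ_succ, Fin.sum_univ_zero, lnumA, lnumC, Matrix.cons_val_zero,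
    Matrix.cons_val_succ]
  have h55 := lnum_sq (5 * Real.pi * y / 3) (10 * (Real.pi / 3) * y) (by ring)
  have h44 := lnum_sq (4 * Real.pi * y / 3) (8 * (Real.pi / 3) * y) (by ring)
  have h11 := lnum_sq (Real.pi * y / 3) (2 * (Real.pi / 3) * y) (by ring)
  have h54 := lnum_ss (5 * Real.pi * y / 3) (4 * Real.pi * y / 3) (1 * (Real.pi / 3) * y)
    (9 * (Real.pi / 3) * y) (by ring) (by ring)
  have h51 := lnum_ss (5 * Real.pi * y / 3) (Real.pi * y / 3) (4 * (Real.pi / 3) * y)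
    (6 * (Real.pi / 3) * y) (by ring) (by ring)
  have h41 := lnum_ss (4 * Real.pi * y / 3) (Real.pi * y / 3) (3 * (Real.pi / 3) * y)
    (5 * (Real.pi / 3) * y) (by ring) (by ring)
  linear_combination h55 + 4 * h44 + 9 * h11 + 4 * h54 + 6 * h51 + 12 * h41

/-- Proof. Expand the square (`gO_k1`) with the product formulas; antiderivatives of `t cos (k π t)`.
Values: `∫ t sin² = 1 / 4`, `∫ t sin (π t) sin (2 π t) = -8 / (9 π²)`, `∫ t sin (π t) sin (3 π t) = 0`,
`∫ t sin (2 π t) sin (3 π t) = -24 / (25 π²)`. An explicit antiderivative of the whole integrand and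
`intervalIntegral.integral_eq_sub_of_hasDerivAt` is an alternative. CHECKED NUMERICALLY. -/
theorem int_gO : ∫ t in (0 : ℝ)..1, gO k1 t ^ 2 * t = 21 / 2 + 9728 / (225 * Real.pi ^ 2) := by
  have hpi := Real.pi_pos
  have h1 : ∀ t : ℝ, gO k1 t ^ 2 * t = (21 + ∑ i, (![-24, -15 / 2, 20, -13, 4, -1 / 2] :
      Fin 6 → ℝ) i * Real.cos ((![Real.pi, 2 * Real.pi, 3 * Real.pi, 4 * Real.pi, 5 * Real.pi,
        6 * Real.pi] : Fin 6 → ℝ) i * t)) * t := by
    intro t
    rw [gO_k1]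
    simp only [Fin.sum_univ_succ, Fin.sum_univ_zero, Matrix.cons_val_zero, Matrix.cons_val_succ]
    have h11 := lnum_sq (Real.pi * t) (2 * Real.pi * t) (by ring)
    have h22 := lnum_sq (2 * Real.pi * t) (4 * Real.pi * t) (by ring)
    have h33 := lnum_sq (3 * Real.pi * t) (6 * Real.pi * t) (by ring)
    have h21 := lnum_ss (2 * Real.pi * t) (Real.pi * t) (Real.pi * t) (3 * Real.pi * t)
      (by ring) (by ring)
    have h31 := lnum_ss (3 * Real.pi * t) (Real.pi * t) (2 * Real.pi * t) (4 * Real.pi * t)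
      (by ring) (by ring)
    have h32 := lnum_ss (3 * Real.pi * t) (2 * Real.pi * t) (Real.pi * t) (5 * Real.pi * t)
      (by ring) (by ring)
    linear_combination t * (25 * h11 + 16 * h22 + h33 - 40 * h21 + 10 * h31 - 8 * h32)
  simp only [h1]
  rw [lnum_sum1]
  · have s2 : Real.sin (2 * Real.pi) = 0 := Real.sin_two_pi
    have s3 : Real.sin (3 * Real.pi) = 0 := by simpa using Real.sin_nat_mul_pi 3
    have s4 : Real.sin (4 * Real.pi) = 0 := by simpa using Real.sin_nat_mul_pi 4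
    have s5 : Real.sin (5 * Real.pi) = 0 := by simpa using Real.sin_nat_mul_pi 5
    have s6 : Real.sin (6 * Real.pi) = 0 := by simpa using Real.sin_nat_mul_pi 6
    have c2 : Real.cos (2 * Real.pi) = 1 := Real.cos_two_pi
    have c3 : Real.cos (3 * Real.pi) = -1 := by
      have := Real.cos_nat_mul_pi 3
      norm_num at this
      exact this
    have c4 : Real.cos (4 * Real.pi) = 1 := by
      have := Real.cos_nat_mul_pi 4
      norm_num at this
      exact this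
    have c5 : Real.cos (5 * Real.pi) = -1 := by
      have := Real.cos_nat_mul_pi 5
      norm_num at this
      exact this
    have c6 : Real.cos (6 * Real.pi) = 1 := by
      have := Real.cos_nat_mul_pi 6
      norm_num at this
      exact this
    simp only [Fin.sum_univ_succ, Fin.sum_univ_zero, Matrix.cons_val_zero,
      Matrix.cons_val_succ, Real.sin_pi, Real.cos_pi, s2, s3, s4, s5, s6, c2, c3, c4, c5, c6]
    field_simp
    ring
  · intro i
    fin_cases i <;> simp <;> positivity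

/-- Proof. The products of sines are sums of cosines `cos (k π y / 3)`; all terms with `√3` cancel.
With `s_j = sin (j π y / 3)`: `gA² = s5² + 4 s4² + 9 s1² + 4 s5 s4 + 6 s5 s1 + 12 s4 s1`. Values:
`∫ s5² = 1/2 + 3√3/(40π)`, `∫ s4² = 1/2 - 3√3/(32π)`, `∫ s1² = 1/2 - 3√3/(8π)`,
`∫ s5 s4 = 3√3/(4π)`, `∫ s5 s1 = -3√3/(16π)`, `∫ s4 s1 = 3√3/(20π)`. CHECKED NUMERICALLY. -/
theorem int_gA : ∫ y in (0 : ℝ)..1, gA k1 y ^ 2 = 7 := by
  have hpi := Real.pi_pos
  simp only [lnum_gA]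
  rw [lnum_sum0 7 lnumA lnumC lnumC_ne]
  obtain ⟨⟨a1, -⟩, ⟨a2, -⟩, ⟨a3, -⟩, ⟨a4, -⟩, ⟨a5, -⟩, ⟨a6, -⟩, ⟨a8, -⟩, ⟨a9, -⟩, ⟨a10, -⟩⟩ :=
    lnum_val
  simp only [Fin.sum_univ_succ, Fin.sum_univ_zero, lnumA, lnumC, Matrix.cons_val_zero,
    Matrix.cons_val_succ, a1, a2, a3, a4, a5, a6, a8, a9, a10]
  field_simp
  ring

/-- Proof. As before. Values: `∫ y s5² = 1/4 + 3√3/(40π) + 27/(400π²)`,
`∫ y s4² = 1/4 - 3√3/(32π) + 27/(256π²)`, `∫ y s1² = 1/4 - 3√3/(8π) + 27/(16π²)`,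
`∫ y s5 s4 = 3√3/(4π) - 9/(4π²) + 1/(9π²)`, `∫ y s5 s1 = -3√3/(16π) - 27/(64π²)`,
`∫ y s4 s1 = -1/π² + 3√3/(20π) + 9/(100π²)`. CHECKED NUMERICALLY. -/
theorem int_gAy : ∫ y in (0 : ℝ)..1, gA k1 y ^ 2 * y = 7 / 2 - 91151 / (14400 * Real.pi ^ 2) := by
  have hpi := Real.pi_pos
  simp only [lnum_gA]
  rw [lnum_sum1 7 lnumA lnumC lnumC_ne]
  obtain ⟨⟨a1, b1⟩, ⟨a2, b2⟩, ⟨a3, b3⟩, ⟨a4, b4⟩, ⟨a5, b5⟩, ⟨a6, b6⟩, ⟨a8, b8⟩, ⟨a9, b9⟩,
    ⟨a10, b10⟩⟩ := lnum_val
  simp only [Fin.sum_univ_succ, Fin.sum_univ_zero, lnumA, lnumC, Matrix.cons_val_zero,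
    Matrix.cons_val_succ, a1, a2, a3, a4, a5, a6, a8, a9, a10, b1, b2, b3, b4, b5, b6, b8, b9,
    b10]
  field_simp
  ring

/-- Proof. From `e_sum`, `e_A1`, `e_A2`: `A1 = 7 π² / 4 - 4864 / 675`,
`A2 = √3 (7 π² / 12 - 91151 / 86400)`, `4 e11 = S - A2 + √3 A1 = √3 (7 π² / 3 + 91151 / 86400 -
4864 / 675)`, `e12 = A1 - √3 e11`, `e22 = S - e11`; `9.86 < π² < 9.88` (`Real.pi_gt_d6`,
`Real.pi_lt_d6`), `√3 ^ 2 = 3`. Numerically `e11 = 7.30845`, `e12 = -2.59272`, `e22 = 12.63532`,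
`6 e22 - 8 e11 - 2 √3 e12 = 26.3`. -/
theorem e_ineq : 0 < √3 / 2 * (e22 - e11) - e12 ∧ 0 < e22 - e11 ∧
    0 < 6 * e22 - 8 * e11 - 2 * √3 * e12 := by
  have hpi := Real.pi_pos
  have hq : Real.pi ^ 2 < 10 := by
    have := Real.pi_lt_d2
    nlinarith
  have hq0 : Real.pi ^ 2 ≠ 0 := by positivity
  have hr0 : 0 < √3 := Real.sqrt_pos.2 (by norm_num)
  have hr : √3 * √3 = 3 := Real.mul_self_sqrt (by norm_num)
  have h1 := e_sum
  have h2 := e_A1
  have h3 := e_A2
  rw [int_gA, int_gO] at h2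
  rw [int_gAy] at h3
  have h2' : √3 * e11 + e12 = 7 * Real.pi ^ 2 / 4 - 4864 / 675 := by
    rw [h2]
    field_simp
    ring
  have h3' : √3 * e12 + e22 = √3 * (7 * Real.pi ^ 2 / 12 - 91151 / 86400) := by
    rw [h3]
    field_simp
    ring
  have h4 : e11 = √3 * ((7 * Real.pi ^ 2 / 3 - (4864 / 675 - 91151 / 86400)) / 4) := by
    linear_combination (1 / 4) * h1 + (1 / 4) * √3 * h2' - (1 / 4) * h3' - (1 / 4) * e11 * hr
  refine ⟨?_, ?_, ?_⟩
  · have h5 : √3 / 2 * (e22 - e11) - e12 = 4864 / 675 := by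
      linear_combination (√3 / 2) * h1 - h2' + (7 * Real.pi ^ 2 / 12) * hr
    rw [h5]
    norm_num
  · have h5 : e22 - e11 = √3 * ((4864 / 675 - 91151 / 86400) / 2) := by
      linear_combination h1 - 2 * h4
    rw [h5]
    exact mul_pos hr0 (by norm_num)
  · have h5 : 6 * e22 - 8 * e11 - 2 * √3 * e12 = √3 * (-(7 * Real.pi ^ 2 / 6) +
        2 * (4864 / 675 - 91151 / 86400) + 9728 / 675) := by
      linear_combination 6 * h1 - 8 * h4 - 2 * √3 * h2' + 2 * e11 * hr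
    rw [h5]
    exact mul_pos hr0 (by linarith)

end Pool.Agent.MP4eed4eI
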