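import Pool.Agent.Lib.MP_4eed4e_an_I.LAf
import Pool.Agent.Lib.MP_4eed4e_an_I.LGeo
import Pool.Agent.Lib.MP_4eed4e_an_I.LNum
import Pool.Agent.Lib.MP_4eed4e_an_PG.GClose

set_option autoImplicit false

/-!
Project I, block L: the first eigenvalue of the nearby triangles (interface).
-/

namespace Pool.Agent.MP4eed4eI

open Pool.Agent.MP4eed4eP MeasureTheory Set Filter Topology

private theorem OutL_add (c a : Fin 3 → ℝ) (x : ℝ) :
    FFI (fun i => c i + x) a = FFI c a + 2 / nuI * ((3 + √3) / √3 * (e11 + e22)) * x := by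
  unfold FFI m11 m22
  ring

private theorem OutL_mul {s x y : ℝ} (hs : 0 ≤ s) (hs' : s ≤ 1.8) (h : |x| ≤ y) :
    -(1.8 * y) ≤ s * x ∧ s * x ≤ 1.8 * y := by
  have h1 : |s * x| ≤ 1.8 * y := by
    rw [abs_mul, abs_of_nonneg hs]
    exact mul_le_mul hs' h (abs_nonneg x) (by norm_num)
  exact abs_le.1 h1

/-- Proof. `geo_in`: `D ⊆ afI c' a '' T0` with `c' = c + K e²`; `PG.lamL_mono`; `aff_low` for
`e' = 20 e`: `lamL T0 1 - 2 / nuI * (m11 c' * e11 + (a 1 - a 0) * e12 + m22 c' a * e22) - C e²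
≤ lamL (afI c' a '' T0) 1 ≤ lamL D 1`, and the bracket differs from the one of `FFI c a` by at most
`C K e²` (`m11 c' = m11 c + (1 + √3 + 2) / √3 K e²`, `m22 c' a = m22 c a + (3 + √3) / √3 K e²`). -/
theorem lamL_near : ∃ C e0 : ℝ, 0 < C ∧ 0 < e0 ∧ ∀ e : ℝ, 0 ≤ e → e ≤ e0 → ∀ c a : Fin 3 → ℝ,
    (∀ i, |c i| ≤ e ∧ |a i| ≤ e) → ∀ D : Set P, IsOpen D → D.Nonempty →
    (∀ v ∈ D, ∀ i, tI i v < c i + a i * sI i v) →
    lamL T0 1 - FFI c a - C * e ^ 2 ≤ lamL D 1 := by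
  obtain ⟨K, e0, hK, he0, hgeo⟩ := geo_in
  obtain ⟨C1, e1, hC1, he1, haff⟩ := aff_low
  refine ⟨400 * C1 + |2 / nuI * ((3 + √3) / √3 * (e11 + e22))| * K,
    min (min e0 (1 / K)) (e1 / 20), by positivity, by positivity, ?_⟩
  intro e he hee c a hca D hDo hDn hD
  have hee0 : e ≤ e0 := hee.trans ((min_le_left _ _).trans (min_le_left _ _))
  have heeK : e ≤ 1 / K := hee.trans ((min_le_left _ _).trans (min_le_right _ _))
  have hee1 : 20 * e ≤ e1 := by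
    have := hee.trans (min_le_right _ _)
    linarith
  have hKe : K * e ≤ 1 := by
    have := mul_le_mul_of_nonneg_left heeK hK.le
    rwa [mul_one_div_cancel hK.ne'] at this
  have hKe2 : K * e ^ 2 ≤ e := by
    have := mul_le_mul_of_nonneg_right hKe he
    nlinarith
  have hKe0 : 0 ≤ K * e ^ 2 := by positivity
  have hs1 : (1.7 : ℝ) ≤ √3 := Real.le_sqrt_of_sq_le (by norm_num)
  have hs2 : √3 ≤ (1.8 : ℝ) := (Real.sqrt_le_left (by norm_num)).2 (by norm_num)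
  have hs0 : (0 : ℝ) < √3 := by linarith
  have hc : ∀ i, |c i + K * e ^ 2| ≤ 2 * e := by
    intro i
    refine (abs_add_le _ _).trans ?_
    rw [abs_of_nonneg hKe0]
    linarith [(hca i).1]
  have h1 := PG.lamL_mono hDo hDn (fun v hv => hgeo e he hee0 c a hca v (hD v hv)) 1
  have b0 := OutL_mul hs0.le hs2 (hc 0)
  have c1 := abs_le.1 (hc 1)
  have c2 := abs_le.1 (hc 2)
  have a0 := abs_le.1 (hca 0).2
  have a1 := abs_le.1 (hca 1).2
  have a2 := abs_le.1 (hca 2).2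
  have hse : 1.7 * e ≤ √3 * e := mul_le_mul_of_nonneg_right hs1 he
  have hm11 : |m11 (fun i => c i + K * e ^ 2)| ≤ 20 * e := by
    unfold m11
    rw [abs_div, abs_of_pos hs0, div_le_iff₀ hs0, abs_le]
    constructor
    · linarith [b0.1, c1.1, c2.1]
    · linarith [b0.2, c1.2, c2.2]
  have hm22 : |m22 (fun i => c i + K * e ^ 2) a| ≤ 20 * e := by
    unfold m22
    rw [abs_div, abs_of_pos hs0, div_le_iff₀ hs0, abs_le]
    constructor
    · linarith [b0.1, c1.1, c2.1, a0.1, a1.1, a2.1]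
    · linarith [b0.2, c1.2, c2.2, a0.2, a1.2, a2.2]
  have h2 := haff (20 * e) (by linarith) hee1 (m11 (fun i => c i + K * e ^ 2)) (a 1) (-a 0)
    (m22 (fun i => c i + K * e ^ 2) a)
    (-√3 * (c 0 + K * e ^ 2) - 2 * (c 2 + K * e ^ 2), -(c 0 + K * e ^ 2)) hm11
    (by linarith [(hca 1).2]) (by rw [abs_neg]; linarith [(hca 0).2]) hm22
  have h3 : FFI (fun i => c i + K * e ^ 2) a ≤
      FFI c a + |2 / nuI * ((3 + √3) / √3 * (e11 + e22))| * (K * e ^ 2) := by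
    rw [OutL_add]
    have := mul_le_mul_of_nonneg_right
      (le_abs_self (2 / nuI * ((3 + √3) / √3 * (e11 + e22)))) hKe0
    linarith
  have h4 : FFI (fun i => c i + K * e ^ 2) a = 2 / nuI *
      (m11 (fun i => c i + K * e ^ 2) * e11 + (a 1 + -a 0) * e12 +
        m22 (fun i => c i + K * e ^ 2) a * e22) := by
    unfold FFI
    ring
  have h5 : lamL (afI (fun i => c i + K * e ^ 2) a '' T0) 1 = lamL (afn
      (m11 (fun i => c i + K * e ^ 2)) (a 1) (-a 0) (m22 (fun i => c i + K * e ^ 2) a)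
      (-√3 * (c 0 + K * e ^ 2) - 2 * (c 2 + K * e ^ 2), -(c 0 + K * e ^ 2)) '' T0) 1 := rfl
  rw [← h4, ← h5] at h2
  linarith

/-- The first order term `F c a` of the first eigenvalue of the triangle
`{v | ∀ i, tI i v < c i + a i * sI i v}`. -/
theorem exists_FF : ∃ F : (Fin 3 → ℝ) → (Fin 3 → ℝ) → ℝ,
    Continuous (fun x : (Fin 3 → ℝ) × (Fin 3 → ℝ) => F x.1 x.2) ∧
    (∀ (t : ℝ) c a, F (t • c) (t • a) = t * F c a) ∧
    (∃ C e0 : ℝ, 0 < C ∧ 0 < e0 ∧ ∀ e : ℝ, 0 ≤ e → e ≤ e0 → ∀ c a : Fin 3 → ℝ,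
      (∀ i, |c i| ≤ e ∧ |a i| ≤ e) → ∀ D : Set P, IsOpen D → D.Nonempty →
      (∀ v ∈ D, ∀ i, tI i v < c i + a i * sI i v) → lamL T0 1 - F c a - C * e ^ 2 ≤ lamL D 1) ∧
    ∃ al be ga : ℝ, 0 < al ∧ 0 < be ∧ 0 < ga ∧ ∀ (c a : Fin 3 → ℝ) (k : ℝ),
      ∑ i, (c i * lenI i + a i * lenI i ^ 2 / 2) = k / 2 →
      F c a = -(al * (a 1 - a 0 - k) + be * (-a 1 - a 2 - k) + ga * k) := by
  have hs : (0 : ℝ) < √3 := Real.sqrt_pos.2 (by norm_num)
  have hn := nuI_pos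
  obtain ⟨h1, h2, h3⟩ := e_ineq
  refine ⟨FFI, FFI_cont, FFI_hom, lamL_near, _, _, _, ?_, ?_, ?_, FFI_alg⟩
  · positivity
  · positivity
  · positivity

end Pool.Agent.MP4eed4eI
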