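import Pool.Agent.Lib.MP_4eed4e_an_I.EShape
import Pool.Agent.Lib.MP_4eed4e_an_I.ESup
import Pool.Agent.Lib.MP_4eed4e_an_I.OutL

set_option autoImplicit false

/-!
Project I, block E: the limit is an infinitesimal rigid motion.
-/

namespace Pool.Agent.MP4eed4eI

open Pool.Agent.MP4eed4eP MeasureTheory Set Filter Topology

private theorem eAff_nonempty {D : Set P} {ε : ℝ} (hε : 0 < ε) (hs : ε ≤ 1 / 10 ^ 10)
    (h : Near ε D) : D.Nonempty := by
  have h1 : √ε ≤ 1 / 10 ^ 5 := by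
    rw [Real.sqrt_le_iff]
    exact ⟨by norm_num, hs.trans (by norm_num)⟩
  refine ⟨_, base_mem hε (hs.trans (by norm_num)) h (i := 1) (s := 1 / 2) ⟨?_, ?_⟩⟩
  · linarith
  · change 1 / 2 ≤ 1 - 8 * √ε
    linarith

private theorem eAff_bound {x y : ℕ → Fin 3 → ℝ} {ε : ℕ → ℝ} {c a : Fin 3 → ℝ}
    (hx : ∀ i, Tendsto (fun n => x n i / ε n) atTop (𝓝 (c i)))
    (hy : ∀ i, Tendsto (fun n => y n i / ε n) atTop (𝓝 (a i))) :
    ∃ K : ℝ, 0 < K ∧ ∀ᶠ n in atTop, ∀ i, |x n i / ε n| ≤ K ∧ |y n i / ε n| ≤ K := by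
  refine ⟨1 + ∑ i, (|c i| + |a i|), by positivity, ?_⟩
  rw [Filter.eventually_all]
  intro i
  have hi : |c i| + |a i| ≤ ∑ j, (|c j| + |a j|) :=
    Finset.single_le_sum (f := fun j => |c j| + |a j|) (fun j _ => by positivity)
      (Finset.mem_univ i)
  have hc := abs_nonneg (c i)
  have ha := abs_nonneg (a i)
  have e1 : ∀ᶠ n in atTop, |x n i / ε n| < |c i| + 1 :=
    (hx i).abs.eventually_lt_const (by linarith)
  have e2 : ∀ᶠ n in atTop, |y n i / ε n| < |a i| + 1 :=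
    (hy i).abs.eventually_lt_const (by linarith)
  filter_upwards [e1, e2] with n p q
  exact ⟨by linarith, by linarith⟩

/-- Proof. `exists_FF`, `Setup.support`. There is `K` with `|x n i|, |y n i| ≤ K ε n` for large `n`.
So
(`D n` is nonempty by `base_mem`) `lamL T0 1 - F (x n) (y n) - C K² ε² ≤ lamL (D n) 1 ≤ lamL T0 1`,
`-(C K² ε) ≤ F (x n / ε) (y n / ε)`, in the limit `0 ≤ F c a`. The last property of `F` and the
signs
give `a 1 - a 0 - k = 0`, `-a 1 - a 2 - k = 0`, `k = 0`. -/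
theorem Setup.affine {D : ℕ → Set P} {ε : ℕ → ℝ} {W : Fin 3 → ℝ → ℝ} (h : Setup D ε W) :
    ∃ c a : Fin 3 → ℝ, (∀ i, ∀ s ∈ Ioo 0 (lenI i), W i s = c i + a i * s) ∧ a 1 = a 0 ∧
      a 2 = -a 0 ∧ c 1 + √3 * c 0 + 2 * c 2 = 0 := by
  obtain ⟨c, a, k, hW, hk, h1, h2, hsum⟩ := h.shape
  obtain ⟨x, y, hD, hx, hy⟩ := h.support hW
  obtain ⟨F, hFc, hFh, ⟨C, e0, hC, he0, hlow⟩, al, be, ga, hal, hbe, hga, hF⟩ := exists_FF
  obtain ⟨K, hK0, hK⟩ := eAff_bound hx hy
  have hlimK : Tendsto (fun n => K * ε n) atTop (𝓝 0) := by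
    have := h.lim.const_mul K
    rwa [mul_zero] at this
  have hKe : ∀ᶠ n in atTop, K * ε n < e0 := hlimK.eventually_lt_const he0
  have hev : ∀ᶠ n in atTop, -(C * K ^ 2 * ε n) ≤
      F (fun i => x n i / ε n) (fun i => y n i / ε n) := by
    filter_upwards [hD, hK, hKe] with n hDn hKn hKen
    have hε := h.pos n
    have hxn : ∀ i, |x n i| ≤ K * ε n ∧ |y n i| ≤ K * ε n := by
      intro i
      obtain ⟨p, q⟩ := hKn i
      rw [abs_div, abs_of_pos hε, div_le_iff₀ hε] at p q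
      exact ⟨p, q⟩
    have hl := hlow (K * ε n) (by positivity) hKen.le (x n) (y n) hxn (D n) (h.near n).op
      (eAff_nonempty hε (h.small n) (h.near n)) hDn
    have hone := h.one n
    have hh := hFh (ε n) (fun i => x n i / ε n) (fun i => y n i / ε n)
    have ex : (ε n • fun i => x n i / ε n) = x n := by
      funext i
      change ε n * (x n i / ε n) = x n i
      rw [mul_div_cancel₀ _ hε.ne']
    have ey : (ε n • fun i => y n i / ε n) = y n := by
      funext i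
      change ε n * (y n i / ε n) = y n i
      rw [mul_div_cancel₀ _ hε.ne']
    rw [ex, ey] at hh
    have h3 : -(C * (K * ε n) ^ 2) ≤ F (x n) (y n) := by linarith
    rw [hh] at h3
    have h4 : ε n * -(C * K ^ 2 * ε n) ≤
        ε n * F (fun i => x n i / ε n) (fun i => y n i / ε n) := by
      have : ε n * -(C * K ^ 2 * ε n) = -(C * (K * ε n) ^ 2) := by ring
      rw [this]
      exact h3
    exact le_of_mul_le_mul_left h4 hε
  have hFlim : Tendsto (fun n => F (fun i => x n i / ε n) (fun i => y n i / ε n)) atTop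
      (𝓝 (F c a)) := by
    have h3 : Tendsto (fun n => ((fun i => x n i / ε n, fun i => y n i / ε n) :
        (Fin 3 → ℝ) × (Fin 3 → ℝ))) atTop (𝓝 (c, a)) :=
      (tendsto_pi_nhds.2 hx).prodMk_nhds (tendsto_pi_nhds.2 hy)
    exact (hFc.tendsto (c, a)).comp h3
  have hz : Tendsto (fun n => -(C * K ^ 2 * ε n)) atTop (𝓝 0) := by
    have := (h.lim.const_mul (C * K ^ 2)).neg
    rwa [mul_zero, neg_zero] at this
  have hF0 : 0 ≤ F c a := le_of_tendsto_of_tendsto hz hFlim hev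
  rw [hF c a k hsum] at hF0
  have p1 : 0 ≤ al * (a 1 - a 0 - k) := mul_nonneg hal.le h1
  have p2 : 0 ≤ be * (-a 1 - a 2 - k) := mul_nonneg hbe.le h2
  have p3 : 0 ≤ ga * k := mul_nonneg hga.le hk
  have q1 : a 1 - a 0 - k = 0 := by
    have : al * (a 1 - a 0 - k) = 0 := by linarith
    exact (mul_eq_zero.1 this).resolve_left hal.ne'
  have q2 : -a 1 - a 2 - k = 0 := by
    have : be * (-a 1 - a 2 - k) = 0 := by linarith
    exact (mul_eq_zero.1 this).resolve_left hbe.ne'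
  have q3 : k = 0 := by
    have : ga * k = 0 := by linarith
    exact (mul_eq_zero.1 this).resolve_left hga.ne'
  refine ⟨c, a, fun i s hs => ?_, by linarith, by linarith, ?_⟩
  · rw [hW i s hs, shp, q3]
    split_ifs <;> ring
  · have hs3 : √(3 : ℝ) * √3 = 3 := Real.mul_self_sqrt (by norm_num)
    rw [Fin.sum_univ_three] at hsum
    have l0 : lenI 0 = √3 := rfl
    have l1 : lenI 1 = 1 := rfl
    have l2 : lenI 2 = 2 := rfl
    rw [l0, l1, l2, q3] at hsum
    have e1 : a 1 = a 0 := by linarith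
    have e2 : a 2 = -a 0 := by linarith
    rw [e1, e2] at hsum
    linear_combination hsum - (a 0 / 2) * hs3

end Pool.Agent.MP4eed4eI
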