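import Pool.Agent.Lib.MP_4eed4e_an_I.MDefs
import Pool.Agent.Lib.MP_4eed4e_an_I.WSel

set_option autoImplicit false

/-!
Project I, block M: existence of the limit.
-/

namespace Pool.Agent.MP4eed4eI

open Pool.Agent.MP4eed4eP MeasureTheory Set Filter Topology

/-- Proof. Drop finitely many terms (`ε n ≤ 1 / 10 ^ 10`). `helly` for `f n i s = VI (D n) i s / ε n`,
`d n = 16 * √(ε n)`: `concave_VI` (restricted), and for `s ∈ JI i (d n)` `rI i s ≥ d n`, so
`VI_le`, `VI_ge` give `|f n i s| ≤ max 33 (4 / rI i s) ≤ 40 / rI i s` (`rI i s ≤ 1`). -/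
theorem exists_setup {D : ℕ → Set P} {ε : ℕ → ℝ} (hpos : ∀ n, 0 < ε n)
    (hlim : Tendsto ε atTop (𝓝 0)) (hN : ∀ n, Near (ε n) (D n))
    (hv : ∀ n, volume (D n \ T0) = ENNReal.ofReal (ε n))
    (h1 : ∀ k, 1 ≤ k → ∀ᶠ n in atTop, lamL T0 k ≤ lamL (D n) k)
    (h2 : ∀ n, lamL (D n) 1 ≤ lamL T0 1) :
    ∃ φ : ℕ → ℕ, StrictMono φ ∧ ∃ W, Setup (fun n => D (φ n)) (fun n => ε (φ n)) W := by
  obtain ⟨N, hNε⟩ : ∃ N, ∀ n, N ≤ n → ε n ≤ 1 / 10 ^ 10 := by
    have h := hlim.eventually_le_const (show (0 : ℝ) < 1 / 10 ^ 10 by norm_num)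
    exact eventually_atTop.1 h
  have hshift : Tendsto (fun n : ℕ => n + N) atTop atTop := tendsto_add_atTop_nat N
  have hlim' : Tendsto (fun n => ε (n + N)) atTop (𝓝 0) := hlim.comp hshift
  have hε1 : ∀ n, ε (n + N) ≤ 1 / 10 ^ 6 := fun n =>
    (hNε (n + N) (Nat.le_add_left N n)).trans (by norm_num)
  obtain ⟨φ, hφ, W, hW1, hW2⟩ := helly (fun n i s => VI (D (n + N)) i s / ε (n + N))
    (fun n => 16 * √(ε (n + N))) (fun n => mul_pos (by norm_num) (Real.sqrt_pos.2 (hpos _)))
    (by
      have h := (hlim'.sqrt).const_mul (16 : ℝ)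
      simpa using h) 33
    (by
      intro n i
      have h := concave_VI (hpos (n + N)) (hε1 n) (hN (n + N)) i
      have h' := (h.subset (t := JI i (8 * √(ε (n + N)))) (s := JI i (16 * √(ε (n + N))))
        (by
          have := Real.sqrt_nonneg (ε (n + N))
          intro x hx
          exact ⟨by linarith [hx.1], by linarith [hx.2]⟩) (convex_Icc _ _)).smul
          (c := (ε (n + N))⁻¹) (inv_nonneg.2 (hpos _).le)
      refine h'.congr fun x _ => ?_
      simp only [smul_eq_mul]
      rw [div_eq_inv_mul])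
    (by
      intro n i s hs
      have he := hpos (n + N)
      have hsq := Real.sqrt_pos.2 he
      have hr : 16 * √(ε (n + N)) ≤ rI i s := le_min hs.1 (by linarith [hs.2])
      have hr0 : 0 < rI i s := lt_of_lt_of_le (by positivity) hr
      have hr1 : rI i s ≤ 1 := by
        have h1 : rI i s ≤ s := min_le_left _ _
        have h2 : rI i s ≤ lenI i - s := min_le_right _ _
        have h3 := (lenI_bounds i).2
        linarith
      have hup := VI_le he (hε1 n) (hN (n + N)) (i := i) (s := s)
        ⟨by linarith [hs.1], by linarith [hs.2]⟩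
      have hlo := VI_ge he (hε1 n) (hN (n + N)) hr
      rw [abs_le]
      constructor
      · rw [le_div_iff₀ he]
        refine le_trans ?_ hlo
        rw [← sub_nonneg]
        have : -(4 * ε (n + N) / rI i s) - -(33 / rI i s) * ε (n + N) =
            29 * ε (n + N) / rI i s := by
          field_simp
          ring
        rw [this]
        positivity
      · rw [div_le_iff₀ he]
        refine hup.trans ?_
        have : (33 : ℝ) ≤ 33 / rI i s := by
          rw [le_div_iff₀ hr0]
          linarith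
        exact mul_le_mul_of_nonneg_right this he.le)
  refine ⟨fun n => φ n + N, fun a b hab => Nat.add_lt_add_right (hφ hab) N, W, ?_⟩
  exact {
    pos := fun n => hpos _
    small := fun n => hNε _ (Nat.le_add_left N _)
    lim := hlim'.comp hφ.tendsto_atTop
    near := fun n => hN _
    vol := fun n => hv _
    up := fun k hk => (hshift.comp hφ.tendsto_atTop).eventually (h1 k hk)
    one := fun n => h2 _
    conc := hW1
    conv := hW2 }

end Pool.Agent.MP4eed4eI
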