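import Pool.Agent.Lib.MP_4eed4e_an_I.ERig
import Pool.Agent.Lib.MP_4eed4e_an_I.EAff
import Pool.Agent.Lib.MP_4eed4e_an_I.MSet

set_option autoImplicit false

/-!
Project I, block E: a better rigid motion.
-/

namespace Pool.Agent.MP4eed4eI

open Pool.Agent.MP4eed4eP MeasureTheory Set Filter Topology

private theorem EFin_norm {v : P} {τ : ℝ} (hτ1 : τ ≤ 1 / 100) (h : ∀ j, tI j v ≤ τ) :
    ‖v‖ ≤ 10 := by
  have a1 : -v.2 ≤ τ := h 0
  have a2 : v.1 - √3 ≤ τ := h 1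
  have a3 : (-v.1 + √3 * v.2) / 2 ≤ τ := h 2
  have s1 : √3 * √3 = 3 := Real.mul_self_sqrt (by norm_num)
  have s2 : 0 ≤ √3 := Real.sqrt_nonneg 3
  have s3 : √3 ≤ 7 / 4 := by nlinarith
  have s4 : 1 ≤ √3 := by nlinarith
  have b4 : -1 ≤ v.2 := by linarith
  have b1 : v.1 ≤ 2 := by linarith
  have b2 : -2 ≤ v.1 := by nlinarith
  have b3 : v.2 ≤ 3 := by
    by_contra hcon
    push Not at hcon
    nlinarith
  rw [Prod.norm_def, max_le_iff, Real.norm_eq_abs, Real.norm_eq_abs, abs_le, abs_le]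
  refine ⟨⟨?_, ?_⟩, ?_, ?_⟩ <;> linarith

/-- Proof. `c`, `a` from `Setup.affine`. Let `θ = -(ε n a 0)`, `b = (ε n c 1, -(ε n c 0))`,
`rig (-θ) b'` the inverse (`rig_inverse`). `rig (-θ) b' '' D \ T0` has the same volume as its image
`D \ rig θ b '' T0` under `rig θ b` (`volume_rig`); if `v = rig θ b w` belongs to it then some
`tI i w ≥ 0` (`mem_T0_iff`), and `‖v‖ ≤ 10` (`tI_le_crude`: all `tI j v ≤ 1/100`), so `rig_side` gives
`x i + y i * sI i v ≤ tI i v` with `x i = ε c i - K ε²`, `y i = ε a i`. `vol_out` (with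
`C1 = max |c| + max |a| + K`) and `tendsto_pos`: the bound divided by `ε n` tends to
`∑ ∫ max (W i s - (c i + a i s)) 0 = 0`. -/
theorem Setup.final {D : ℕ → Set P} {ε : ℕ → ℝ} {W : Fin 3 → ℝ → ℝ} (h : Setup D ε W) {η : ℝ}
    (hη : 0 < η) : ∃ (n : ℕ) (θ : ℝ) (b : P),
      volume ((rig θ b '' D n) \ T0) ≤ ENNReal.ofReal (η * ε n) := by
  obtain ⟨c, a, hW, ha1, ha2, hc0⟩ := h.affine
  obtain ⟨K, ε1, hK, hε1, hside⟩ := rig_side ha1 ha2 hc0
  obtain ⟨C1, hC1⟩ : ∃ C1 : ℝ, C1 = ∑ i, |c i| + ∑ i, |a i| + K := ⟨_, rfl⟩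
  have hsc : ∀ i, |c i| ≤ ∑ i, |c i| := fun i =>
    Finset.single_le_sum (f := fun i => |c i|) (fun j _ => abs_nonneg _) (Finset.mem_univ i)
  have hsa : ∀ i, |a i| ≤ ∑ i, |a i| := fun i =>
    Finset.single_le_sum (f := fun i => |a i|) (fun j _ => abs_nonneg _) (Finset.mem_univ i)
  have hsc0 : 0 ≤ ∑ i, |c i| := Finset.sum_nonneg fun j _ => abs_nonneg _
  have hsa0 : 0 ≤ ∑ i, |a i| := Finset.sum_nonneg fun j _ => abs_nonneg _
  obtain ⟨C, hC, hvol⟩ := vol_out C1 (by rw [hC1]; positivity)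
  have hsm : ∀ n, ε n ≤ 1 / 10 ^ 6 := fun n => (h.small n).trans (by norm_num)
  -- the limit of the bound
  have hx : ∀ i, Tendsto (fun n => (ε n * c i - K * ε n ^ 2) / ε n) atTop (𝓝 (c i)) := by
    intro i
    have h1 : ∀ n, (ε n * c i - K * ε n ^ 2) / ε n = c i - K * ε n := by
      intro n
      have := (h.pos n).ne'
      field_simp
    simp only [h1]
    have h2 := (h.lim.const_mul K).const_sub (c i)
    rwa [mul_zero, sub_zero] at h2
  have hy : ∀ i, Tendsto (fun n => (ε n * a i) / ε n) atTop (𝓝 (a i)) := by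
    intro i
    have h1 : ∀ n, (ε n * a i) / ε n = a i := by
      intro n
      have := (h.pos n).ne'
      field_simp
    simp only [h1]
    exact tendsto_const_nhds
  have hz : ∀ i, ∫ s in (0 : ℝ)..(lenI i), max (W i s - (c i + a i * s)) 0 = 0 := by
    intro i
    have hl := (lenI_bounds i).1
    rw [intervalIntegral.integral_of_le (by linarith), integral_Ioc_eq_integral_Ioo]
    refine (setIntegral_congr_fun measurableSet_Ioo (g := fun _ => (0 : ℝ)) ?_).trans (by simp)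
    intro s hs
    show max (W i s - (c i + a i * s)) 0 = 0
    rw [hW i s hs, sub_self, max_self]
  have hlim : Tendsto (fun n => (∑ i, (∫ s in (8 * √(ε n))..(lenI i - 8 * √(ε n)),
      max (VI (D n) i s - ((ε n * c i - K * ε n ^ 2) + (ε n * a i) * s)) 0) / ε n) +
        C * √(ε n)) atTop (𝓝 0) := by
    have h1 : Tendsto (fun n => √(ε n)) atTop (𝓝 (√0)) :=
      (Real.continuous_sqrt.tendsto 0).comp h.lim
    rw [Real.sqrt_zero] at h1
    have h2 := h1.const_mul C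
    rw [mul_zero] at h2
    have h3 : Tendsto (fun n => ∑ i, (∫ s in (8 * √(ε n))..(lenI i - 8 * √(ε n)),
        max (VI (D n) i s - ((ε n * c i - K * ε n ^ 2) + (ε n * a i) * s)) 0) / ε n) atTop
        (𝓝 (∑ i, ∫ s in (0 : ℝ)..(lenI i), max (W i s - (c i + a i * s)) 0)) :=
      tendsto_finsetSum _ fun i _ => h.tendsto_pos i (hx i) (hy i)
    rw [Finset.sum_eq_zero fun i _ => hz i] at h3
    have h4 := h3.add h2
    rwa [add_zero] at h4
  obtain ⟨n, hn1, hn2⟩ := ((hlim.eventually (gt_mem_nhds hη)).and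
    (h.lim.eventually (gt_mem_nhds hε1))).exists
  have hε := h.pos n
  have hεs : ε n ≤ 1 := (h.small n).trans (by norm_num)
  obtain ⟨b', hb1, hb2⟩ := rig_inverse (-(ε n * a 0)) (ε n * c 1, -(ε n * c 0))
  refine ⟨n, -(-(ε n * a 0)), b', ?_⟩
  rw [← volume_rig (-(ε n * a 0)) (ε n * c 1, -(ε n * c 0))]
  have hsub : rig (-(ε n * a 0)) (ε n * c 1, -(ε n * c 0)) ''
      ((rig (-(-(ε n * a 0))) b' '' D n) \ T0) ⊆
      {v | v ∈ D n ∧ ∃ i, (ε n * c i - K * ε n ^ 2) + (ε n * a i) * sI i v ≤ tI i v} := by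
    rintro _ ⟨w, ⟨⟨u, hu, rfl⟩, hw⟩, rfl⟩
    rw [hb2 u]
    refine ⟨hu, ?_⟩
    rw [mem_T0_iff] at hw
    push Not at hw
    obtain ⟨i, hi⟩ := hw
    refine ⟨i, ?_⟩
    have h1 : ‖u‖ ≤ 10 := by
      refine EFin_norm (τ := 10 * √(ε n)) ?_ fun j => tI_le_crude hε (hsm n) (h.near n) hu j
      have h2 : √(ε n) ≤ 1 / 1000 := by
        rw [Real.sqrt_le_left (by norm_num)]
        exact (h.small n).trans (by norm_num)
      linarith
    have h2 := hside (ε n) hε.le hn2.le (rig (-(-(ε n * a 0))) b' u) (by rwa [hb2 u]) i hi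
    rwa [hb2 u] at h2
  refine (measure_mono hsub).trans ?_
  have hv := hvol (ε n) (D n) (fun i => ε n * c i - K * ε n ^ 2) (fun i => ε n * a i) hε (hsm n)
    (h.near n) ?_ ?_
  · refine hv.trans (ENNReal.ofReal_le_ofReal ?_)
    have h1 : ∑ i, (∫ s in (8 * √(ε n))..(lenI i - 8 * √(ε n)),
        max (VI (D n) i s - ((ε n * c i - K * ε n ^ 2) + (ε n * a i) * s)) 0) +
        C * (ε n * √(ε n)) = ((∑ i, (∫ s in (8 * √(ε n))..(lenI i - 8 * √(ε n)),
        max (VI (D n) i s - ((ε n * c i - K * ε n ^ 2) + (ε n * a i) * s)) 0) / ε n) +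
          C * √(ε n)) * ε n := by
      rw [add_mul, Finset.sum_mul]
      congr 1
      · refine Finset.sum_congr rfl fun i _ => ?_
        rw [div_mul_cancel₀ _ hε.ne']
      · ring
    show ∑ i, (∫ s in (8 * √(ε n))..(lenI i - 8 * √(ε n)),
        max (VI (D n) i s - ((ε n * c i - K * ε n ^ 2) + (ε n * a i) * s)) 0) +
        C * (ε n * √(ε n)) ≤ η * ε n
    rw [h1]
    exact mul_le_mul_of_nonneg_right hn1.le hε.le
  · intro i
    show |ε n * c i - K * ε n ^ 2| ≤ C1 * ε n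
    refine (abs_sub _ _).trans ?_
    rw [abs_mul, abs_mul, abs_of_pos hε, abs_of_pos hK, abs_of_pos (by positivity : 0 < ε n ^ 2),
      hC1]
    have e1 := mul_le_mul_of_nonneg_left (hsc i) hε.le
    have e2 : K * ε n ^ 2 ≤ K * ε n := by
      refine mul_le_mul_of_nonneg_left ?_ hK.le
      nlinarith
    nlinarith [mul_nonneg hsa0 hε.le]
  · intro i
    show |ε n * a i| ≤ C1 * ε n
    rw [abs_mul, abs_of_pos hε, hC1]
    have e1 := mul_le_mul_of_nonneg_left (hsa i) hε.le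
    nlinarith [mul_nonneg hsc0 hε.le, mul_nonneg hK.le hε.le]

/-- Theorem S. Proof. `exists_setup` and `Setup.final`. -/
theorem thmS {D : ℕ → Set P} {ε : ℕ → ℝ} (hpos : ∀ n, 0 < ε n)
    (hlim : Tendsto ε atTop (𝓝 0)) (hN : ∀ n, Near (ε n) (D n))
    (hv : ∀ n, volume (D n \ T0) = ENNReal.ofReal (ε n))
    (h1 : ∀ k, 1 ≤ k → ∀ᶠ n in atTop, lamL T0 k ≤ lamL (D n) k)
    (h2 : ∀ n, lamL (D n) 1 ≤ lamL T0 1)
    {η : ℝ} (hη : 0 < η) : ∃ (n : ℕ) (θ : ℝ) (b : P),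
      volume ((rig θ b '' D n) \ T0) ≤ ENNReal.ofReal (η * ε n) := by
  obtain ⟨φ, -, W, h⟩ := exists_setup hpos hlim hN hv h1 h2
  obtain ⟨n, θ, b, h3⟩ := h.final hη
  exact ⟨φ n, θ, b, h3⟩

end Pool.Agent.MP4eed4eI
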