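import Pool.Agent.Lib.MP_4eed4e_an_I.GCo
import Pool.Agent.Lib.MP_4eed4e_an_P.OutG
import Pool.Agent.Lib.MP_4eed4e_an_PH.HPoly

set_option autoImplicit false

/-!
Project I, block E: rigid motions.
-/

namespace Pool.Agent.MP4eed4eI

open Pool.Agent.MP4eed4eP MeasureTheory Set Filter Topology

private theorem ERig_lin (a b c d : ℝ) (h : |a * d - b * c| = 1) :
    MeasurePreserving (fun v : P => (a * v.1 + b * v.2, c * v.1 + d * v.2)) volume volume := by
  have hdet : LinearMap.det (Matrix.toLin (Module.Basis.finTwoProd ℝ) (Module.Basis.finTwoProd ℝ)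
      !![a, b; c, d]) = a * d - b * c := by
    rw [LinearMap.det_toLin, Matrix.det_fin_two_of]
  have hne : LinearMap.det (Matrix.toLin (Module.Basis.finTwoProd ℝ) (Module.Basis.finTwoProd ℝ)
      !![a, b; c, d]) ≠ 0 := by
    rw [hdet]
    intro h0
    rw [h0, abs_zero] at h
    exact zero_ne_one h
  have h1 := Measure.map_linearMap_addHaar_eq_smul_addHaar (volume : Measure P) hne
  refine ⟨by fun_prop, ?_⟩
  have h2 : (fun v : P => (a * v.1 + b * v.2, c * v.1 + d * v.2)) =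
      Matrix.toLin (Module.Basis.finTwoProd ℝ) (Module.Basis.finTwoProd ℝ) !![a, b; c, d] :=
    funext fun v => (Matrix.toLin_finTwoProd_apply a b c d v).symm
  rw [h2, h1, hdet, abs_inv, h, inv_one, ENNReal.ofReal_one, one_smul]

private theorem ERig_inj (θ : ℝ) (b : P) : Function.Injective (rig θ b) := by
  obtain ⟨b', hb'⟩ := H.rig_inv θ b
  exact Function.LeftInverse.injective (g := rig (-θ) b') fun v => (hb' v).1

private theorem ERig_cont (θ : ℝ) (b : P) : Continuous (rig θ b) := by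
  change Continuous fun v : P => ((Real.cos θ * v.1 - Real.sin θ * v.2 + b.1,
    Real.sin θ * v.1 + Real.cos θ * v.2 + b.2) : P)
  fun_prop

/-- Proof. `rig θ b` is a rotation followed by a translation; compare `PB/BTr` (the private lemma
for linear maps of determinant one) or `MeasurePreserving` of a linear isometry; on `P = ℝ × ℝ` use
`Real.map_matrix_volume_pi_eq_smul_volume_pi` or `addHaar_preimage_linearMap`. -/
theorem mp_rig (θ : ℝ) (b : P) : MeasurePreserving (rig θ b) volume volume := by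
  have h := (measurePreserving_add_right (volume : Measure P) b).comp
    (ERig_lin (Real.cos θ) (-Real.sin θ) (Real.sin θ) (Real.cos θ) (by
      have e : Real.cos θ * Real.cos θ - -Real.sin θ * Real.sin θ = 1 := by
        linear_combination Real.cos_sq_add_sin_sq θ
      rw [e, abs_one]))
  have e : ((fun v : P => v + b) ∘ fun v : P => (Real.cos θ * v.1 + -Real.sin θ * v.2,
      Real.sin θ * v.1 + Real.cos θ * v.2)) = rig θ b := by
    funext v
    ext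
    · change Real.cos θ * v.1 + -Real.sin θ * v.2 + b.1 =
        Real.cos θ * v.1 - Real.sin θ * v.2 + b.1
      ring
    · rfl
  rw [e] at h
  exact h

theorem me_rig (θ : ℝ) (b : P) : MeasurableEmbedding (rig θ b) := by
  exact (ERig_cont θ b).measurableEmbedding (ERig_inj θ b)

theorem volume_rig (θ : ℝ) (b : P) (S : Set P) : volume (rig θ b '' S) = volume S := by
  rw [← (mp_rig θ b).measure_preimage_emb (me_rig θ b) (rig θ b '' S),
    preimage_image_eq _ (ERig_inj θ b)]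

theorem isOpen_rig (θ : ℝ) (b : P) {S : Set P} (h : IsOpen S) : IsOpen (rig θ b '' S) := by
  obtain ⟨b', hb'⟩ := H.rig_inv θ b
  have e : rig θ b '' S = rig (-θ) b' ⁻¹' S := by
    ext v
    constructor
    · rintro ⟨w, hw, rfl⟩
      rw [mem_preimage, (hb' w).1]
      exact hw
    · intro hv
      exact ⟨_, hv, (hb' v).2⟩
  rw [e]
  exact h.preimage (ERig_cont _ _)

theorem convex_rig (θ : ℝ) (b : P) {S : Set P} (h : Convex ℝ S) : Convex ℝ (rig θ b '' S) := by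
  rintro _ ⟨v, hv, rfl⟩ _ ⟨w, hw, rfl⟩ a c ha hc hac
  refine ⟨a • v + c • w, h hv hw ha hc hac, ?_⟩
  ext
  · simp only [rig, Prod.fst_add, Prod.snd_add, Prod.smul_fst, Prod.smul_snd, smul_eq_mul]
    linear_combination (-b.1) * hac
  · simp only [rig, Prod.fst_add, Prod.snd_add, Prod.smul_fst, Prod.smul_snd, smul_eq_mul]
    linear_combination (-b.2) * hac

theorem bounded_rig (θ : ℝ) (b : P) {S : Set P} (h : Bornology.IsBounded S) :
    Bornology.IsBounded (rig θ b '' S) := by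
  have hK : IsCompact (closure S) := h.isCompact_closure
  exact (hK.image (ERig_cont θ b)).isBounded.subset (image_mono subset_closure)

/-- The coordinate `tI i` after a rotation.

Proof. Expand; `i = 0, 1, 2` (`fin_cases`), `√3 ^ 2 = 3`. -/
theorem tI_rig (θ : ℝ) (b w : P) (i : Fin 3) :
    tI i (rig θ b w) = Real.cos θ * (tI i w + ![0, √3, 0] i) - ![0, √3, 0] i
      - Real.sin θ * (![1, 1, -1] i * sI i w) + ![-b.2, b.1, (-b.1 + √3 * b.2) / 2] i := by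
  fin_cases i
  · change -(Real.sin θ * w.1 + Real.cos θ * w.2 + b.2) =
      Real.cos θ * (-w.2 + 0) - 0 - Real.sin θ * (1 * w.1) + -b.2
    ring
  · change Real.cos θ * w.1 - Real.sin θ * w.2 + b.1 - √3 =
      Real.cos θ * (w.1 - √3 + √3) - √3 - Real.sin θ * (1 * w.2) + b.1
    ring
  · change (-(Real.cos θ * w.1 - Real.sin θ * w.2 + b.1) +
        √3 * (Real.sin θ * w.1 + Real.cos θ * w.2 + b.2)) / 2 =
      Real.cos θ * ((-w.1 + √3 * w.2) / 2 + 0) - 0 -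
        Real.sin θ * (-1 * ((√3 * w.1 + w.2) / 2)) + (-b.1 + √3 * b.2) / 2
    ring

/-- Proof. `rig_inv` (block PH). -/
theorem rig_inverse (θ : ℝ) (b : P) : ∃ b' : P, (∀ v, rig (-θ) b' (rig θ b v) = v) ∧
    ∀ v, rig θ b (rig (-θ) b' v) = v := by
  obtain ⟨b', hb'⟩ := H.rig_inv θ b
  exact ⟨b', fun v => (hb' v).1, fun v => (hb' v).2⟩

private theorem ERig_sin {x : ℝ} (h : |x| ≤ 1) : |Real.sin x - x| ≤ x ^ 2 := by
  have key : ∀ y : ℝ, 0 ≤ y → y ≤ 1 → |Real.sin y - y| ≤ y ^ 2 := by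
    intro y h0 h1
    rcases h0.eq_or_lt with h2 | h2
    · rw [← h2]
      simp
    · have h3 := Real.sin_gt_sub_cube h2
      have h4 := Real.sin_le h0
      have h5 : y ^ 3 ≤ y ^ 2 := pow_le_pow_of_le_one h0 h1 (by norm_num)
      have h6 : 0 ≤ y ^ 3 := by positivity
      rw [abs_le]
      exact ⟨by linarith, by linarith [sq_nonneg y]⟩
  rcases le_total 0 x with h0 | h0
  · exact key x h0 ((le_abs_self x).trans h)
  · have h1 := key (-x) (by linarith) ((neg_le_abs x).trans h)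
    rw [Real.sin_neg, neg_sq, ← abs_neg] at h1
    have e : -(-Real.sin x - -x) = Real.sin x - x := by ring
    rwa [e] at h1

private theorem ERig_sI {w : P} {r : ℝ} (h1 : |w.1| ≤ r) (h2 : |w.2| ≤ r) (i : Fin 3) :
    |sI i w| ≤ 3 / 2 * r := by
  have hr : 0 ≤ r := (abs_nonneg _).trans h1
  have hs3 : √(3 : ℝ) * √3 = 3 := Real.mul_self_sqrt (by norm_num)
  have hs0 : 0 < √(3 : ℝ) := by positivity
  have hs2 : √(3 : ℝ) ≤ 2 := by nlinarith
  fin_cases i
  · change |w.1| ≤ 3 / 2 * r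
    linarith
  · change |w.2| ≤ 3 / 2 * r
    linarith
  · change |(√3 * w.1 + w.2) / 2| ≤ 3 / 2 * r
    have h3 : |(√3 * w.1 + w.2) / 2| ≤ (√3 * |w.1| + |w.2|) / 2 := by
      rw [abs_div, abs_of_pos (two_pos : (0 : ℝ) < 2)]
      have h4 := abs_add_le (√3 * w.1) w.2
      rw [abs_mul, abs_of_pos hs0] at h4
      linarith
    have h5 : √3 * |w.1| ≤ 2 * r := mul_le_mul hs2 h1 (abs_nonneg _) (by norm_num)
    linarith

/-- Bounds for the preimage `w` of `v`. -/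
private theorem ERig_pre {θ q : ℝ} {b v w : P} (hθ : |θ| ≤ q) (hq : q ≤ 1) {t : ℝ}
    (hb1 : |b.1| ≤ t) (hb2 : |b.2| ≤ t) (ht : t ≤ 1) (hv : v = rig θ b w) (hn : ‖v‖ ≤ 10) :
    |w.1| ≤ 22 ∧ |w.2| ≤ 22 ∧ dist w v ≤ 33 * (q + t) := by
  have hv1 : v.1 = Real.cos θ * w.1 - Real.sin θ * w.2 + b.1 := by rw [hv]; rfl
  have hv2 : v.2 = Real.sin θ * w.1 + Real.cos θ * w.2 + b.2 := by rw [hv]; rfl
  have hn1 : |v.1| ≤ 10 := (norm_fst_le v).trans hn
  have hn2 : |v.2| ≤ 10 := (norm_snd_le v).trans hn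
  have hcs := Real.cos_sq_add_sin_sq θ
  have hq0 : 0 ≤ q := (abs_nonneg _).trans hθ
  have ht0 : 0 ≤ t := (abs_nonneg _).trans hb1
  have hc1 := Real.abs_cos_le_one θ
  have hs1 := Real.abs_sin_le_one θ
  have hu1 : |v.1 - b.1| ≤ 11 := by
    have := abs_sub v.1 b.1
    linarith
  have hu2 : |v.2 - b.2| ≤ 11 := by
    have := abs_sub v.2 b.2
    linarith
  have key : ∀ x y z u : ℝ, |x| ≤ 1 → |z| ≤ 1 → |y| ≤ 11 → |u| ≤ 11 → |x * y + z * u| ≤ 22 := by
    intro x y z u hx hz hy hu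
    have h := abs_add_le (x * y) (z * u)
    rw [abs_mul, abs_mul] at h
    have h1 := mul_le_mul hx hy (abs_nonneg _) zero_le_one
    have h2 := mul_le_mul hz hu (abs_nonneg _) zero_le_one
    linarith
  have hw1 : |w.1| ≤ 22 := by
    have e : w.1 = Real.cos θ * (v.1 - b.1) + Real.sin θ * (v.2 - b.2) := by
      rw [hv1, hv2]
      linear_combination (-w.1) * hcs
    rw [e]
    exact key _ _ _ _ hc1 hs1 hu1 hu2
  have hw2 : |w.2| ≤ 22 := by
    have e : w.2 = Real.cos θ * (v.2 - b.2) + -Real.sin θ * (v.1 - b.1) := by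
      rw [hv1, hv2]
      linear_combination (-w.2) * hcs
    rw [e]
    exact key _ _ _ _ hc1 (by rwa [abs_neg]) hu2 hu1
  refine ⟨hw1, hw2, ?_⟩
  have hcos : |1 - Real.cos θ| ≤ q / 2 := by
    have h1 := Real.one_sub_sq_div_two_le_cos (x := θ)
    have h2 := Real.cos_le_one θ
    rw [abs_of_nonneg (by linarith)]
    have h3 : θ ^ 2 ≤ q := by
      rw [← sq_abs]
      calc |θ| ^ 2 = |θ| * |θ| := by ring
        _ ≤ q * 1 := mul_le_mul hθ (hθ.trans hq) (abs_nonneg _) hq0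
        _ = q := mul_one q
    linarith
  have hsin : |Real.sin θ| ≤ q := Real.abs_sin_le_abs.trans hθ
  have key2 : ∀ x y z : ℝ, |x| ≤ 22 → |y| ≤ 22 → |z| ≤ t → ∀ σ : ℝ, |σ| ≤ q →
      |(1 - Real.cos θ) * x + σ * y - z| ≤ 33 * (q + t) := by
    intro x y z hx hy hz σ hσ
    have h1 := abs_sub ((1 - Real.cos θ) * x + σ * y) z
    have h2 := abs_add_le ((1 - Real.cos θ) * x) (σ * y)
    rw [abs_mul, abs_mul] at h2
    have h3 := mul_le_mul hcos hx (abs_nonneg _) (by linarith)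
    have h4 := mul_le_mul hσ hy (abs_nonneg _) hq0
    linarith
  rw [Prod.dist_eq, Real.dist_eq, Real.dist_eq]
  refine max_le ?_ ?_
  · have e : w.1 - v.1 = (1 - Real.cos θ) * w.1 + Real.sin θ * w.2 - b.1 := by
      rw [hv1]
      ring
    rw [e]
    exact key2 _ _ _ hw1 hw2 hb1 _ hsin
  · have e : w.2 - v.2 = (1 - Real.cos θ) * w.2 + -Real.sin θ * w.1 - b.2 := by
      rw [hv2]
      ring
    rw [e]
    exact key2 _ _ _ hw2 hw1 hb2 _ (by rwa [abs_neg])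

/-- Proof. `tI_rig` with `θ = -(ε a 0)`, `b = (ε c 1, -(ε c 0))`:
`tI i (rig θ b w) = cos θ tI i w - (1 - cos θ) h_i + ε c i + sin (ε a 0) (![1, 1, -1] i * sI i w)`,
and `![1, 1, -1] i * a 0 = a i`. `cos θ ≥ 0` for small `ε`, `1 - cos θ ≤ ε² a_0²`,
`|sin (ε a 0) - ε a 0| ≤ ε³ |a 0|³`, `|sI i w - sI i (rig θ b w)| ≤ K' ε` as `w` is bounded. -/
theorem rig_side {c a : Fin 3 → ℝ} (h1 : a 1 = a 0) (h2 : a 2 = -a 0)
    (h0 : c 1 + √3 * c 0 + 2 * c 2 = 0) : ∃ K ε1 : ℝ, 0 < K ∧ 0 < ε1 ∧ ∀ ε : ℝ, 0 ≤ ε → ε ≤ ε1 →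
    ∀ w : P, ‖rig (-(ε * a 0)) (ε * c 1, -(ε * c 0)) w‖ ≤ 10 → ∀ i, 0 ≤ tI i w →
      ε * c i - K * ε ^ 2 + ε * a i * sI i (rig (-(ε * a 0)) (ε * c 1, -(ε * c 0)) w) ≤
        tI i (rig (-(ε * a 0)) (ε * c 1, -(ε * c 0)) w) := by
  have hs3 : √(3 : ℝ) * √3 = 3 := Real.mul_self_sqrt (by norm_num)
  have hs0 : 0 < √(3 : ℝ) := by positivity
  have hs2 : √(3 : ℝ) ≤ 2 := by nlinarith
  obtain ⟨A, hA⟩ : ∃ A, A = |a 0| := ⟨_, rfl⟩
  obtain ⟨C, hC⟩ : ∃ C, C = |c 0| + |c 1| := ⟨_, rfl⟩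
  have hA0 : 0 ≤ A := hA ▸ abs_nonneg _
  have hC0 : 0 ≤ C := by rw [hC]; positivity
  refine ⟨1 + 41 * A ^ 2 + 50 * A * (A + C), 1 / (1 + A + C), by positivity, by positivity, ?_⟩
  intro ε hε0 hε1 w hw i hi
  have hε2 : ε * (1 + A + C) ≤ 1 := by rwa [le_div_iff₀ (by positivity)] at hε1
  have hεA0 : 0 ≤ ε * A := mul_nonneg hε0 hA0
  have hεC0 : 0 ≤ ε * C := mul_nonneg hε0 hC0
  have hεA : ε * A ≤ 1 := by nlinarith
  have hεC : ε * C ≤ 1 := by nlinarith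
  obtain ⟨θ, hθ⟩ : ∃ θ, θ = -(ε * a 0) := ⟨_, rfl⟩
  obtain ⟨b, hb⟩ : ∃ b : P, b = (ε * c 1, -(ε * c 0)) := ⟨_, rfl⟩
  rw [← hθ, ← hb] at hw ⊢
  obtain ⟨v, hv⟩ : ∃ v, v = rig θ b w := ⟨_, rfl⟩
  have htI := tI_rig θ b w i
  rw [← hv] at hw htI ⊢
  have hθ1 : |θ| ≤ ε * A := by rw [hθ, abs_neg, abs_mul, abs_of_nonneg hε0, ← hA]
  have hb1 : |b.1| ≤ ε * C := by
    rw [hb]
    change |ε * c 1| ≤ ε * C
    rw [abs_mul, abs_of_nonneg hε0, hC]
    exact mul_le_mul_of_nonneg_left (by linarith [abs_nonneg (c 0)]) hε0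
  have hb2 : |b.2| ≤ ε * C := by
    rw [hb]
    change |-(ε * c 0)| ≤ ε * C
    rw [abs_neg, abs_mul, abs_of_nonneg hε0, hC]
    exact mul_le_mul_of_nonneg_left (by linarith [abs_nonneg (c 1)]) hε0
  obtain ⟨hw1, hw2, hd⟩ := ERig_pre hθ1 hεA hb1 hb2 hεC hv hw
  have hsI := ERig_sI hw1 hw2 i
  have hsd := (abs_sI_sub i w v).trans (mul_le_mul_of_nonneg_left hd (by norm_num))
  have hcos0 : 0 ≤ Real.cos θ := by
    have h1 := Real.one_sub_sq_div_two_le_cos (x := θ)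
    have h2 : θ ^ 2 ≤ 1 := by
      rw [← sq_abs]
      exact pow_le_one₀ (abs_nonneg _) (hθ1.trans hεA)
    linarith
  have hcos1 : 1 - Real.cos θ ≤ (ε * A) ^ 2 / 2 := by
    have h1 := Real.one_sub_sq_div_two_le_cos (x := θ)
    have h2 : θ ^ 2 ≤ (ε * A) ^ 2 := by
      rw [← sq_abs]
      exact pow_le_pow_left₀ (abs_nonneg _) hθ1 2
    linarith
  have hbi : ![-b.2, b.1, (-b.1 + √3 * b.2) / 2] i = ε * c i := by
    rw [hb]
    fin_cases i
    · change - -(ε * c 0) = ε * c 0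
      ring
    · rfl
    · change (-(ε * c 1) + √3 * -(ε * c 0)) / 2 = ε * c 2
      linear_combination (-ε / 2) * h0
  have hai : a i = ![1, 1, -1] i * a 0 := by
    fin_cases i
    · change a 0 = 1 * a 0
      ring
    · change a 1 = 1 * a 0
      rw [h1, one_mul]
    · change a 2 = -1 * a 0
      rw [h2, neg_one_mul]
  have hσ : |(![1, 1, -1] : Fin 3 → ℝ) i| = 1 := by
    fin_cases i
    · change |(1 : ℝ)| = 1
      exact abs_one
    · change |(1 : ℝ)| = 1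
      exact abs_one
    · change |(-1 : ℝ)| = 1
      rw [abs_neg, abs_one]
  have hh : (![0, √3, 0] : Fin 3 → ℝ) i ≤ 2 ∧ 0 ≤ (![0, √3, 0] : Fin 3 → ℝ) i := by
    fin_cases i
    · change (0 : ℝ) ≤ 2 ∧ (0 : ℝ) ≤ 0
      norm_num
    · exact ⟨hs2, hs0.le⟩
    · change (0 : ℝ) ≤ 2 ∧ (0 : ℝ) ≤ 0
      norm_num
  obtain ⟨σ, hσd⟩ : ∃ σ, σ = (![1, 1, -1] : Fin 3 → ℝ) i := ⟨_, rfl⟩
  obtain ⟨η, hηd⟩ : ∃ η, η = (![0, √3, 0] : Fin 3 → ℝ) i := ⟨_, rfl⟩
  rw [hbi, ← hσd, ← hηd] at htI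
  rw [← hσd] at hai hσ
  rw [← hηd] at hh
  have hsx : |Real.sin (ε * a 0) - ε * a 0| ≤ (ε * A) ^ 2 := by
    have h3 : |ε * a 0| = ε * A := by rw [abs_mul, abs_of_nonneg hε0, ← hA]
    have h4 := ERig_sin (x := ε * a 0) (by rw [h3]; exact hεA)
    rwa [← sq_abs (ε * a 0), h3] at h4
  have hsθ : Real.sin θ = -Real.sin (ε * a 0) := by rw [hθ, Real.sin_neg]
  have hmain : tI i v - (ε * c i + ε * a i * sI i v) = Real.cos θ * tI i w -
      (1 - Real.cos θ) * η + σ * ((Real.sin (ε * a 0) - ε * a 0) * sI i w +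
        ε * a 0 * (sI i w - sI i v)) := by
    rw [htI, hsθ, hai]
    ring
  have hB1 : 0 ≤ Real.cos θ * tI i w := mul_nonneg hcos0 hi
  have hB2 : (1 - Real.cos θ) * η ≤ (ε * A) ^ 2 := by
    have h5 : (1 - Real.cos θ) * η ≤ (ε * A) ^ 2 / 2 * 2 :=
      mul_le_mul hcos1 hh.1 hh.2 (by positivity)
    linarith
  have hB3 : |σ * ((Real.sin (ε * a 0) - ε * a 0) * sI i w + ε * a 0 * (sI i w - sI i v))| ≤
      (ε * A) ^ 2 * (3 / 2 * 22) + ε * A * (7 / 5 * (33 * (ε * A + ε * C))) := by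
    rw [abs_mul, hσ, one_mul]
    refine (abs_add_le _ _).trans (add_le_add ?_ ?_)
    · rw [abs_mul]
      exact mul_le_mul hsx hsI (abs_nonneg _) (by positivity)
    · rw [abs_mul, abs_mul, abs_of_nonneg hε0, ← hA]
      exact mul_le_mul_of_nonneg_left hsd hεA0
  have hB4 := (abs_le.1 hB3).1
  have hfin : (ε * A) ^ 2 + ((ε * A) ^ 2 * (3 / 2 * 22) +
      ε * A * (7 / 5 * (33 * (ε * A + ε * C)))) ≤
      (1 + 41 * A ^ 2 + 50 * A * (A + C)) * ε ^ 2 := by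
    have h6 : 0 ≤ ε ^ 2 := sq_nonneg ε
    have h7 : 0 ≤ A * C := mul_nonneg hA0 hC0
    nlinarith [mul_nonneg h6 (sq_nonneg A), mul_nonneg h6 h7]
  linarith

end Pool.Agent.MP4eed4eI
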