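import Pool.Agent.Lib.MP_4eed4e_an_I.MSum
import Pool.Agent.Lib.MP_4eed4e_an_I.CIneq

set_option autoImplicit false

/-!
Project I, block E: the limit is affine up to one kink, with three sign conditions.
-/

namespace Pool.Agent.MP4eed4eI

open Pool.Agent.MP4eed4eP MeasureTheory Set Filter Topology

/-- Proof. `mean_zero`, `lim_b` for `b = 2` and `shape` give the form of `W`; then `vI_congr`,
`lim_b` for `b = 1` with `sign_x`, `lim_a` for `a = 2` with `sign_y`, and `area_shp`. -/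
theorem Setup.shape {D : ℕ → Set P} {ε : ℕ → ℝ} {W : Fin 3 → ℝ → ℝ} (h : Setup D ε W) :
    ∃ (c a : Fin 3 → ℝ) (k : ℝ), (∀ i, ∀ s ∈ Ioo 0 (lenI i), W i s = shp c a k i s) ∧ 0 ≤ k ∧
      0 ≤ a 1 - a 0 - k ∧ 0 ≤ -a 1 - a 2 - k ∧
      ∑ i, (c i * lenI i + a i * lenI i ^ 2 / 2) = k / 2 := by
  have hm := h.mean_zero
  have hb2 := lim_b h.int (fun κ => h.LI_le κ) (b := 2) (by norm_num)
  have hb1 := lim_b h.int (fun κ => h.LI_le κ) (b := 1) (by norm_num)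
  have ha2 := lim_a h.int (fun κ => h.LI_le κ) (a := 2) (by norm_num)
  have e1 : (3 : ℝ) * ((2 : ℕ) : ℝ) = 6 := by norm_num
  have e2 : (2 : ℝ) * ((2 : ℕ) : ℝ) = 4 := by norm_num
  have e3 : ((2 : ℕ) : ℝ) = 2 := by norm_num
  have e4 : (3 : ℝ) * ((1 : ℕ) : ℝ) = 3 := by norm_num
  have e5 : (2 : ℝ) * ((1 : ℕ) : ℝ) = 2 := by norm_num
  have e6 : ((1 : ℕ) : ℝ) = 1 := by norm_num
  rw [e1, e2, e3] at hb2
  rw [e4, e5, e6] at hb1
  rw [e2, e3] at ha2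
  obtain ⟨c, a, k, hk, hW⟩ := Pool.Agent.MP4eed4eI.shape h.conc h.int hm hb2
  have hv : ∀ x, vI W x = vI (shp c a k) x := fun x => (vI_congr hW x).1
  have hw : ∀ x, wI W x = wI (shp c a k) x := fun x => (vI_congr hW x).2
  simp only [hv, hw] at hm hb1 ha2
  exact ⟨c, a, k, hW, hk, sign_x c a k hm hb1, sign_y c a k hm ha2, area_shp c a k hm⟩

end Pool.Agent.MP4eed4eI
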