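import Pool.Agent.Lib.MP_4eed4e_an_I.IDefs

set_option autoImplicit false

/-!
Project I, block F: definitions.
-/

namespace Pool.Agent.MP4eed4eI

open Pool.Agent.MP4eed4eP MeasureTheory Set Filter Topology

/-- The normal derivative along the path `O, B, A` (hypotenuse, right side) is `π / √3 * gH κ`, up
to the sign. -/
noncomputable def gH (κ : KS) (s : ℝ) : ℝ := ∑ i, (Ci κ i : ℝ) * Real.sin (Bi κ i * (Real.pi * s / 3))

/-- Cosine transform along the path `O, B, A`. -/
noncomputable def vI (W : Fin 3 → ℝ → ℝ) (x : ℝ) : ℝ :=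
  (∫ s in (0 : ℝ)..2, W 2 s * Real.cos (Real.pi * x * s / 3)) +
    ∫ s in (0 : ℝ)..1, W 1 s * Real.cos (Real.pi * x * (3 - s) / 3)

/-- Cosine transform along the base. -/
noncomputable def wI (W : Fin 3 → ℝ → ℝ) (x : ℝ) : ℝ :=
  ∫ s in (0 : ℝ)..√3, W 0 s * Real.cos (Real.pi * x * s / √3)

end Pool.Agent.MP4eed4eI
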