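import Pool.Agent.Lib.MP_4eed4e_an_I.FNor

set_option autoImplicit false

/-!
Project I, block F: the first variation in terms of cosine transforms.
-/

namespace Pool.Agent.MP4eed4eI

open Pool.Agent.MP4eed4eP MeasureTheory Set Filter Topology

private theorem FExp_pt (x0 x1 x2 m0 m1 m2 t w : ℝ) :
    (x0 * Real.sin (m0 * t) + x1 * Real.sin (m1 * t) + x2 * Real.sin (m2 * t)) ^ 2 * w =
      ∑ k : Fin 6, (![x0 ^ 2 / 2, x1 ^ 2 / 2, x2 ^ 2 / 2, x0 * x1, x0 * x2, x1 * x2] k) *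
        (w * Real.cos (![0, 0, 0, m0 - m1, m0 - m2, m1 - m2] k * t) -
          w * Real.cos (![2 * m0, 2 * m1, 2 * m2, m0 + m1, m0 + m2, m1 + m2] k * t)) := by
  have h0 : ∀ m : ℝ, Real.cos (2 * m * t) = 1 - 2 * Real.sin (m * t) ^ 2 := fun m => by
    rw [mul_assoc, Real.cos_two_mul, Real.cos_sq']
    ring
  have h1 : ∀ m n : ℝ, Real.cos ((m - n) * t) =
      Real.cos (m * t) * Real.cos (n * t) + Real.sin (m * t) * Real.sin (n * t) := fun m n => by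
    rw [sub_mul, Real.cos_sub]
  have h2 : ∀ m n : ℝ, Real.cos ((m + n) * t) =
      Real.cos (m * t) * Real.cos (n * t) - Real.sin (m * t) * Real.sin (n * t) := fun m n => by
    rw [add_mul, Real.cos_add]
  simp only [Fin.sum_univ_six, Matrix.cons_val, h0, h1, h2, zero_mul, Real.cos_zero]
  ring

private theorem FExp_int (x0 x1 x2 m0 m1 m2 : ℝ) {θ W : ℝ → ℝ} (hθ : Continuous θ) {L : ℝ}
    (hW : IntervalIntegrable W volume 0 L) {I : ℝ → ℝ}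
    (hI : ∀ y, I y = ∫ s in (0 : ℝ)..L, W s * Real.cos (y * θ s)) :
    (∫ s in (0 : ℝ)..L, (x0 * Real.sin (m0 * θ s) + x1 * Real.sin (m1 * θ s) +
        x2 * Real.sin (m2 * θ s)) ^ 2 * W s) =
      x0 ^ 2 / 2 * (I 0 - I (2 * m0)) + x1 ^ 2 / 2 * (I 0 - I (2 * m1)) +
        x2 ^ 2 / 2 * (I 0 - I (2 * m2)) + x0 * x1 * (I (m0 - m1) - I (m0 + m1)) +
        x0 * x2 * (I (m0 - m2) - I (m0 + m2)) + x1 * x2 * (I (m1 - m2) - I (m1 + m2)) := by
  have hF : ∀ y, IntervalIntegrable (fun s => W s * Real.cos (y * θ s)) volume 0 L := fun y =>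
    hW.mul_continuousOn (by fun_prop)
  have hD : ∀ a y z, IntervalIntegrable
      (fun s => a * (W s * Real.cos (y * θ s) - W s * Real.cos (z * θ s))) volume 0 L :=
    fun a y z => ((hF y).sub (hF z)).const_mul a
  have hE : ∀ a y z, (∫ s in (0 : ℝ)..L,
      a * (W s * Real.cos (y * θ s) - W s * Real.cos (z * θ s))) = a * (I y - I z) :=
    fun a y z => by
      rw [intervalIntegral.integral_const_mul, intervalIntegral.integral_sub (hF y) (hF z),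
        hI y, hI z]
  simp only [FExp_pt]
  rw [intervalIntegral.integral_finset_sum (fun k _ => hD _ _ _)]
  simp only [hE]
  simp only [Fin.sum_univ_six, Matrix.cons_val]

/-- Proof. `LI κ W` is the sum of three integrals (`Fin.sum_univ_three`); `qI_zero`, `qI_one`,
`qI_two`; in the second one substitute nothing, `gH κ (3 - s)` already has the argument `3 - s`.
`(∑ x_i sin (m_i θ))² = ∑ x_i² (1 - cos (2 m_i θ)) / 2 +
∑_{i < j} x_i x_j (cos ((m_i - m_j) θ) - cos ((m_i + m_j) θ))`. Integrate (each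
`W i * cos` is integrable: bounded continuous times integrable). -/
theorem LI_eq (κ : KS) {W : Fin 3 → ℝ → ℝ} (hi : ∀ i, IntervalIntegrable (W i) volume 0 (lenI i)) :
    LI κ W = Real.pi ^ 2 / 18 *
      (3 * ((Ci κ 0 : ℝ) ^ 2 * (vI W 0 - vI W (2 * Bi κ 0)) +
          (Ci κ 1 : ℝ) ^ 2 * (vI W 0 - vI W (2 * Bi κ 1)) +
          (Ci κ 2 : ℝ) ^ 2 * (vI W 0 - vI W (2 * Bi κ 2))) +
        6 * ((Ci κ 0 : ℝ) * Ci κ 1 * (vI W (Bi κ 0 - Bi κ 1) - vI W (Bi κ 0 + Bi κ 1)) +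
          (Ci κ 0 : ℝ) * Ci κ 2 * (vI W (Bi κ 0 - Bi κ 2) - vI W (Bi κ 0 + Bi κ 2)) +
          (Ci κ 1 : ℝ) * Ci κ 2 * (vI W (Bi κ 1 - Bi κ 2) - vI W (Bi κ 1 + Bi κ 2))) +
        ((Bi κ 0 : ℝ) ^ 2 * (wI W 0 - wI W (2 * Ci κ 0)) +
          (Bi κ 1 : ℝ) ^ 2 * (wI W 0 - wI W (2 * Ci κ 1)) +
          (Bi κ 2 : ℝ) ^ 2 * (wI W 0 - wI W (2 * Ci κ 2))) +
        2 * ((Bi κ 0 : ℝ) * Bi κ 1 * (wI W (Ci κ 0 - Ci κ 1) - wI W (Ci κ 0 + Ci κ 1)) +
          (Bi κ 0 : ℝ) * Bi κ 2 * (wI W (Ci κ 0 - Ci κ 2) - wI W (Ci κ 0 + Ci κ 2)) +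
          (Bi κ 1 : ℝ) * Bi κ 2 * (wI W (Ci κ 1 - Ci κ 2) - wI W (Ci κ 1 + Ci κ 2)))) := by
  have hv : ∀ y, vI W y = (∫ s in (0 : ℝ)..2, W 2 s * Real.cos (y * (Real.pi * s / 3))) +
      ∫ s in (0 : ℝ)..1, W 1 s * Real.cos (y * (Real.pi * (3 - s) / 3)) := fun y => by
    have e1 : ∀ s : ℝ, Real.pi * y * s / 3 = y * (Real.pi * s / 3) := fun s => by ring
    simp only [vI, e1]
  have hw : ∀ y, wI W y = ∫ s in (0 : ℝ)..√3, W 0 s * Real.cos (y * (Real.pi * (s / √3))) :=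
    fun y => by
      have e1 : ∀ s : ℝ, Real.pi * y * s / √3 = y * (Real.pi * (s / √3)) := fun s => by ring
      simp only [wI, e1]
  have h2 := FExp_int (Ci κ 0) (Ci κ 1) (Ci κ 2) (Bi κ 0) (Bi κ 1) (Bi κ 2)
    (θ := fun s => Real.pi * s / 3) (by fun_prop) (hi 2) (fun _ => rfl)
  have h1 := FExp_int (Ci κ 0) (Ci κ 1) (Ci κ 2) (Bi κ 0) (Bi κ 1) (Bi κ 2)
    (θ := fun s => Real.pi * (3 - s) / 3) (by fun_prop) (hi 1) (fun _ => rfl)
  have h0 := FExp_int (Bi κ 0) (Bi κ 1) (Bi κ 2) (Ci κ 0) (Ci κ 1) (Ci κ 2)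
    (θ := fun s => Real.pi * (s / √3)) (by fun_prop) (hi 0) (fun _ => rfl)
  have l0 : lenI 0 = √3 := rfl
  have l1 : lenI 1 = 1 := rfl
  have l2 : lenI 2 = 2 := rfl
  rw [l0] at h0
  rw [l1] at h1
  rw [l2] at h2
  simp only [LI, Fin.sum_univ_three, qI_zero, qI_one, qI_two, gH, gO, l0, l1, l2,
    mul_assoc _ _ (W _ _), intervalIntegral.integral_const_mul, hv, hw]
  rw [h0, h1, h2]
  ring

end Pool.Agent.MP4eed4eI
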