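import Pool.Agent.Lib.MP_4eed4e_an_I.FDefs
import Mathlib.Analysis.Fourier.RiemannLebesgueLemma

set_option autoImplicit false

/-!
Project I, block F: the Riemann-Lebesgue lemma for the cosine transforms.
-/

namespace Pool.Agent.MP4eed4eI

open Pool.Agent.MP4eed4eP MeasureTheory Set Filter Topology

/-- Proof. `Real.tendsto_integral_exp_smul_cocompact` (or
`tendsto_integral_exp_inner_smul_cocompact`) for the indicator of the interval times `f`; the real
part; `cos (c x s + θ)` with a linear change of the frequency. -/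
theorem cos_tendsto {f : ℝ → ℝ} {a b c : ℝ} (hc : c ≠ 0) (hab : a ≤ b)
    (hf : IntervalIntegrable f volume a b) :
    Tendsto (fun x : ℝ => ∫ s in a..b, f s * Real.cos (c * x * s)) atTop (𝓝 0) := by
  set g : ℝ → ℂ := (Ioc a b).indicator (fun v => (f v : ℂ)) with hg
  have hgi : Integrable g := by
    rw [hg, integrable_indicator_iff measurableSet_Ioc]
    exact ((intervalIntegrable_iff_integrableOn_Ioc_of_le hab).1 hf).ofReal
  have key : ∀ x : ℝ, (∫ s in a..b, f s * Real.cos (c * x * s)) =
      (∫ v : ℝ, (Real.fourierChar (-(v * (c / (2 * Real.pi) * x)))) • g v).re := by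
    intro x
    have hint : Integrable
        (fun v : ℝ => (Real.fourierChar (-(v * (c / (2 * Real.pi) * x)))) • g v) := by
      have := (Real.fourierIntegral_convergent_iff (f := g) (μ := volume)
        (c / (2 * Real.pi) * x)).2 hgi
      refine this.congr (Eventually.of_forall fun v => ?_)
      simp [mul_comm]
    have h1 := Complex.reCLM.integral_comp_comm hint
    rw [Complex.reCLM_apply] at h1
    rw [← h1, intervalIntegral.integral_of_le hab, ← integral_indicator measurableSet_Ioc]
    refine integral_congr_ae (Eventually.of_forall fun v => ?_)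
    by_cases hv : v ∈ Ioc a b
    · simp only [hg, indicator_of_mem hv, Complex.reCLM_apply, Circle.smul_def, smul_eq_mul,
        Real.fourierChar_apply]
      rw [Complex.re_mul_ofReal, Complex.exp_ofReal_mul_I_re, mul_comm]
      congr 1
      rw [← Real.cos_neg]
      congr 1
      field_simp
    · simp only [hg, indicator_of_notMem hv, smul_zero, map_zero]
  have h := Real.tendsto_integral_exp_smul_cocompact g
  have h2 : Tendsto (fun x : ℝ => c / (2 * Real.pi) * x) atTop (cocompact ℝ) := by
    have hc2 : c / (2 * Real.pi) ≠ 0 := div_ne_zero hc (by positivity)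
    exact (Homeomorph.mulLeft₀ _ hc2).isClosedEmbedding.tendsto_cocompact.comp atTop_le_cocompact
  have h3 := (Complex.continuous_re.tendsto _).comp (h.comp h2)
  rw [Complex.zero_re] at h3
  refine h3.congr fun x => ?_
  rw [key x]
  rfl

theorem vI_tendsto {W : Fin 3 → ℝ → ℝ} (hi : ∀ i, IntervalIntegrable (W i) volume 0 (lenI i)) :
    Tendsto (vI W) atTop (𝓝 0) := by
  have h2 : IntervalIntegrable (W 2) volume 0 2 := hi 2
  have h1 : IntervalIntegrable (W 1) volume 0 1 := hi 1
  have h1' : IntervalIntegrable (fun u => W 1 (3 - u)) volume 2 3 := by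
    have h := (h1.comp_sub_left 3).symm
    norm_num at h
    exact h
  have hp : Real.pi / 3 ≠ 0 := by positivity
  have t2 := cos_tendsto hp (by norm_num : (0 : ℝ) ≤ 2) h2
  have t1 := cos_tendsto hp (by norm_num : (2 : ℝ) ≤ 3) h1'
  have t := t2.add t1
  rw [add_zero] at t
  refine t.congr fun x => ?_
  unfold vI
  congr 1
  · refine intervalIntegral.integral_congr fun s _ => ?_
    congr 2
    ring
  · have hs := intervalIntegral.integral_comp_sub_left (a := 0) (b := 1)
      (fun u => W 1 (3 - u) * Real.cos (Real.pi / 3 * x * u)) (3 : ℝ)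
    norm_num at hs
    rw [← hs]
    refine intervalIntegral.integral_congr fun s _ => ?_
    congr 2
    ring

theorem wI_tendsto {W : Fin 3 → ℝ → ℝ} (hi : ∀ i, IntervalIntegrable (W i) volume 0 (lenI i)) :
    Tendsto (wI W) atTop (𝓝 0) := by
  have h0 : IntervalIntegrable (W 0) volume 0 (√3) := hi 0
  have hp : Real.pi / √3 ≠ 0 := by positivity
  have t := cos_tendsto hp (Real.sqrt_nonneg 3) h0
  refine t.congr fun x => ?_
  unfold wI
  refine intervalIntegral.integral_congr fun s _ => ?_
  congr 2
  ring

theorem vI_neg (W : Fin 3 → ℝ → ℝ) (x : ℝ) : vI W (-x) = vI W x := by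
  unfold vI
  congr 1
  · refine intervalIntegral.integral_congr fun s _ => ?_
    rw [← Real.cos_neg]
    congr 2
    ring
  · refine intervalIntegral.integral_congr fun s _ => ?_
    rw [← Real.cos_neg]
    congr 2
    ring

theorem wI_neg (W : Fin 3 → ℝ → ℝ) (x : ℝ) : wI W (-x) = wI W x := by
  unfold wI
  refine intervalIntegral.integral_congr fun s _ => ?_
  rw [← Real.cos_neg]
  congr 2
  ring

/-- The value at `0`. -/
theorem vI_wI_zero (W : Fin 3 → ℝ → ℝ) :
    vI W 0 + wI W 0 = ∑ i, ∫ s in (0 : ℝ)..(lenI i), W i s := by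
  rw [Fin.sum_univ_three]
  simp only [vI, wI, mul_zero, zero_mul, zero_div, Real.cos_zero, mul_one]
  simp [lenI]
  ring

end Pool.Agent.MP4eed4eI
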