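import Pool.Agent.Lib.MP_4eed4e_an_I.FExp
import Pool.Agent.Lib.MP_4eed4e_an_I.FRL

set_option autoImplicit false

/-!
Project I, block F: the limits of the first variations.
-/

namespace Pool.Agent.MP4eed4eI

open Pool.Agent.MP4eed4eP MeasureTheory Set Filter Topology

private theorem FLim_v0 (x y z : ℝ) : (![x, y, z] : Fin 3 → ℝ) 0 = x := rfl

private theorem FLim_v1 (x y z : ℝ) : (![x, y, z] : Fin 3 → ℝ) 1 = y := rfl

private theorem FLim_v2 (x y z : ℝ) : (![x, y, z] : Fin 3 → ℝ) 2 = z := rfl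

private theorem FLim_lim {f : ℝ → ℝ} (hf : Tendsto f atTop (𝓝 0)) (hn : ∀ x, f (-x) = f x)
    {N : ℕ → ℝ} (hN : Tendsto N atTop atTop) (α β : ℝ) :
    Tendsto (fun n => f (α * N n + β)) atTop (𝓝 (if α = 0 then f β else 0)) := by
  rcases lt_trichotomy α 0 with h | h | h
  · rw [if_neg h.ne]
    have h1 : Tendsto (fun n => -α * N n + -β) atTop atTop :=
      tendsto_atTop_add_const_right _ _ (hN.const_mul_atTop (neg_pos.2 h))
    refine (hf.comp h1).congr fun n => ?_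
    rw [Function.comp_apply, ← hn (α * N n + β)]
    congr 1
    ring
  · rw [if_pos h, h]
    refine tendsto_const_nhds.congr fun n => ?_
    rw [zero_mul, zero_add]
  · rw [if_neg h.ne']
    have h1 : Tendsto (fun n => α * N n + β) atTop atTop :=
      tendsto_atTop_add_const_right _ _ (hN.const_mul_atTop h)
    exact hf.comp h1

private theorem FLim_div {N : ℕ → ℝ} (hN : Tendsto N atTop atTop) (hN0 : ∀ n, 0 < N n)
    (α β : ℝ) : Tendsto (fun n => (α * N n + β) * (N n)⁻¹) atTop (𝓝 α) := by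
  have h1 : Tendsto (fun n => (N n)⁻¹) atTop (𝓝 0) := tendsto_inv_atTop_zero.comp hN
  have h2 : Tendsto (fun n => α + β * (N n)⁻¹) atTop (𝓝 (α + β * 0)) :=
    tendsto_const_nhds.add (h1.const_mul β)
  rw [mul_zero, add_zero] at h2
  refine h2.congr fun n => ?_
  rw [add_mul, mul_assoc, mul_inv_cancel₀ (hN0 n).ne', mul_one]

private theorem FLim_key {W : Fin 3 → ℝ → ℝ}
    (hi : ∀ i, IntervalIntegrable (W i) volume 0 (lenI i)) (h : ∀ κ, LI κ W ≤ 0) (κ : ℕ → KS)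
    {N : ℕ → ℝ} (hN : Tendsto N atTop atTop) (hN0 : ∀ n, 0 < N n) (c c' b b' : Fin 3 → ℝ)
    (hC : ∀ n i, (Ci (κ n) i : ℝ) = c i * N n + c' i)
    (hB : ∀ n i, (Bi (κ n) i : ℝ) = b i * N n + b' i) :
    3 * (c 0 ^ 2 * (vI W 0 - if 2 * b 0 = 0 then vI W (2 * b' 0) else 0) +
        c 1 ^ 2 * (vI W 0 - if 2 * b 1 = 0 then vI W (2 * b' 1) else 0) +
        c 2 ^ 2 * (vI W 0 - if 2 * b 2 = 0 then vI W (2 * b' 2) else 0)) +
      6 * (c 0 * c 1 * ((if b 0 - b 1 = 0 then vI W (b' 0 - b' 1) else 0) -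
          if b 0 + b 1 = 0 then vI W (b' 0 + b' 1) else 0) +
        c 0 * c 2 * ((if b 0 - b 2 = 0 then vI W (b' 0 - b' 2) else 0) -
          if b 0 + b 2 = 0 then vI W (b' 0 + b' 2) else 0) +
        c 1 * c 2 * ((if b 1 - b 2 = 0 then vI W (b' 1 - b' 2) else 0) -
          if b 1 + b 2 = 0 then vI W (b' 1 + b' 2) else 0)) +
      (b 0 ^ 2 * (wI W 0 - if 2 * c 0 = 0 then wI W (2 * c' 0) else 0) +
        b 1 ^ 2 * (wI W 0 - if 2 * c 1 = 0 then wI W (2 * c' 1) else 0) +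
        b 2 ^ 2 * (wI W 0 - if 2 * c 2 = 0 then wI W (2 * c' 2) else 0)) +
      2 * (b 0 * b 1 * ((if c 0 - c 1 = 0 then wI W (c' 0 - c' 1) else 0) -
          if c 0 + c 1 = 0 then wI W (c' 0 + c' 1) else 0) +
        b 0 * b 2 * ((if c 0 - c 2 = 0 then wI W (c' 0 - c' 2) else 0) -
          if c 0 + c 2 = 0 then wI W (c' 0 + c' 2) else 0) +
        b 1 * b 2 * ((if c 1 - c 2 = 0 then wI W (c' 1 - c' 2) else 0) -
          if c 1 + c 2 = 0 then wI W (c' 1 + c' 2) else 0)) ≤ 0 := by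
  have hV := FLim_lim (vI_tendsto hi) (vI_neg W) hN
  have hW := FLim_lim (wI_tendsto hi) (wI_neg W) hN
  have dc := fun i => FLim_div hN hN0 (c i) (c' i)
  have db := fun i => FLim_div hN hN0 (b i) (b' i)
  have T1 := ((((dc 0).pow 2).mul ((tendsto_const_nhds (x := vI W 0)).sub
    (hV (2 * b 0) (2 * b' 0)))).add (((dc 1).pow 2).mul ((tendsto_const_nhds (x := vI W 0)).sub
    (hV (2 * b 1) (2 * b' 1))))).add (((dc 2).pow 2).mul
    ((tendsto_const_nhds (x := vI W 0)).sub (hV (2 * b 2) (2 * b' 2))))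
  have T2 := ((((dc 0).mul (dc 1)).mul ((hV (b 0 - b 1) (b' 0 - b' 1)).sub
    (hV (b 0 + b 1) (b' 0 + b' 1)))).add (((dc 0).mul (dc 2)).mul
    ((hV (b 0 - b 2) (b' 0 - b' 2)).sub (hV (b 0 + b 2) (b' 0 + b' 2))))).add
    (((dc 1).mul (dc 2)).mul ((hV (b 1 - b 2) (b' 1 - b' 2)).sub
    (hV (b 1 + b 2) (b' 1 + b' 2))))
  have T3 := ((((db 0).pow 2).mul ((tendsto_const_nhds (x := wI W 0)).sub
    (hW (2 * c 0) (2 * c' 0)))).add (((db 1).pow 2).mul ((tendsto_const_nhds (x := wI W 0)).sub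
    (hW (2 * c 1) (2 * c' 1))))).add (((db 2).pow 2).mul
    ((tendsto_const_nhds (x := wI W 0)).sub (hW (2 * c 2) (2 * c' 2))))
  have T4 := ((((db 0).mul (db 1)).mul ((hW (c 0 - c 1) (c' 0 - c' 1)).sub
    (hW (c 0 + c 1) (c' 0 + c' 1)))).add (((db 0).mul (db 2)).mul
    ((hW (c 0 - c 2) (c' 0 - c' 2)).sub (hW (c 0 + c 2) (c' 0 + c' 2))))).add
    (((db 1).mul (db 2)).mul ((hW (c 1 - c 2) (c' 1 - c' 2)).sub
    (hW (c 1 + c 2) (c' 1 + c' 2))))
  have T := (((T1.const_mul 3).add (T2.const_mul 6)).add T3).add (T4.const_mul 2)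
  refine le_of_tendsto' T fun n => ?_
  have h1 := h (κ n)
  rw [LI_eq (κ n) hi] at h1
  have h2 : 0 < Real.pi ^ 2 / 18 := by positivity
  have h3 := nonpos_of_mul_nonpos_right h1 h2
  simp only [hC, hB] at h3
  have h4 : 0 < (N n)⁻¹ ^ 2 := by
    have := hN0 n
    positivity
  have e1 : ∀ i, 2 * (b i * N n + b' i) = 2 * b i * N n + 2 * b' i := fun i => by ring
  have e2 : ∀ i j, b i * N n + b' i - (b j * N n + b' j) =
      (b i - b j) * N n + (b' i - b' j) := fun i j => by ring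
  have e3 : ∀ i j, b i * N n + b' i + (b j * N n + b' j) =
      (b i + b j) * N n + (b' i + b' j) := fun i j => by ring
  have e4 : ∀ i, 2 * (c i * N n + c' i) = 2 * c i * N n + 2 * c' i := fun i => by ring
  have e5 : ∀ i j, c i * N n + c' i - (c j * N n + c' j) =
      (c i - c j) * N n + (c' i - c' j) := fun i j => by ring
  have e6 : ∀ i j, c i * N n + c' i + (c j * N n + c' j) =
      (c i + c j) * N n + (c' i + c' j) := fun i j => by ring
  simp only [e1, e2, e3, e4, e5, e6] at h3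
  have h5 := mul_nonpos_of_nonneg_of_nonpos h4.le h3
  refine le_of_eq_of_le ?_ h5
  ring

/-- Proof. `κ = (n, 5 n)`: `C = (n, -2 n, -3 n)`, `B = (5 n, 4 n, -n)`. `LI_eq` divided by `n ^ 2`
tends to `π² / 18 * 42 * (vI W 0 + wI W 0)` (all other arguments tend to infinity or minus
infinity; `vI_neg`, `wI_neg`). -/
theorem lim_zero {W : Fin 3 → ℝ → ℝ} (hi : ∀ i, IntervalIntegrable (W i) volume 0 (lenI i))
    (h : ∀ κ, LI κ W ≤ 0) : vI W 0 + wI W 0 ≤ 0 := by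
  have hN : Tendsto (fun n : ℕ => (n : ℝ) + 1) atTop atTop :=
    tendsto_atTop_add_const_right _ _ tendsto_natCast_atTop_atTop
  have key := FLim_key hi h (fun n => ⟨(n + 1, 5 * (n + 1)), by
      refine ⟨?_, ?_, ?_⟩
      · change 1 ≤ n + 1
        omega
      · change 3 * (n + 1) < 5 * (n + 1)
        omega
      · change (n + 1) % 2 = 5 * (n + 1) % 2
        omega⟩) hN (fun n => by positivity) ![1, -2, -3] ![0, 0, 0] ![5, 4, -1] ![0, 0, 0]
    (fun n i => by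
      fin_cases i
      · change ((((n + 1 : ℕ) : ℤ)) : ℝ) = 1 * ((n : ℝ) + 1) + 0
        push_cast
        ring
      · change ((((n + 1 : ℕ) : ℤ) - ((5 * (n + 1) : ℕ) : ℤ)) / 2 : ℤ) = -2 * ((n : ℝ) + 1) + 0
        have e1 : (((n + 1 : ℕ) : ℤ) - ((5 * (n + 1) : ℕ) : ℤ)) / 2 = -2 * ((n : ℤ) + 1) := by
          omega
        rw [e1]
        push_cast
        ring
      · change ((-((((n + 1 : ℕ) : ℤ) + ((5 * (n + 1) : ℕ) : ℤ)) / 2) : ℤ) : ℝ) =
          -3 * ((n : ℝ) + 1) + 0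
        have e1 : (((n + 1 : ℕ) : ℤ) + ((5 * (n + 1) : ℕ) : ℤ)) / 2 = 3 * ((n : ℤ) + 1) := by
          omega
        rw [e1]
        push_cast
        ring)
    (fun n i => by
      fin_cases i
      · change ((((5 * (n + 1) : ℕ) : ℤ)) : ℝ) = 5 * ((n : ℝ) + 1) + 0
        push_cast
        ring
      · change ((((3 * ((n + 1 : ℕ) : ℤ) + ((5 * (n + 1) : ℕ) : ℤ)) / 2 : ℤ)) : ℝ) =
          4 * ((n : ℝ) + 1) + 0
        have e1 : (3 * ((n + 1 : ℕ) : ℤ) + ((5 * (n + 1) : ℕ) : ℤ)) / 2 = 4 * ((n : ℤ) + 1) := by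
          omega
        rw [e1]
        push_cast
        ring
      · change ((((3 * ((n + 1 : ℕ) : ℤ) - ((5 * (n + 1) : ℕ) : ℤ)) / 2 : ℤ)) : ℝ) =
          -1 * ((n : ℝ) + 1) + 0
        have e1 : (3 * ((n + 1 : ℕ) : ℤ) - ((5 * (n + 1) : ℕ) : ℤ)) / 2 = -((n : ℤ) + 1) := by
          omega
        rw [e1]
        push_cast
        ring)
  simp only [FLim_v0, FLim_v1, FLim_v2] at key
  norm_num at key
  linarith

/-- Proof. `κ = (b, 2 n + b)`, `n > b`: `C = (b, -n, -(n + b))`, `B = (2 n + b, 2 b + n, b - n)`.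
Divided by `n ^ 2` the limit of `LI_eq` is `π² / 18` times
`6 vI 0 - 6 vI (3 b) + 6 wI 0 - 4 wI (2 b) - 2 wI b`: the terms which remain are `C_1²`, `C_2²`,
`C_1 C_2` with `B_1 + B_2 = 3 b`, `B_0² (wI 0 - wI (2 b))`, `B_1²`, `B_2²` and `B_1 B_2` with
`C_1 - C_2 = b`. -/
theorem lim_b {W : Fin 3 → ℝ → ℝ} (hi : ∀ i, IntervalIntegrable (W i) volume 0 (lenI i))
    (h : ∀ κ, LI κ W ≤ 0) {b : ℕ} (hb : 1 ≤ b) :
    3 * vI W 0 - 3 * vI W (3 * b) + 3 * wI W 0 - 2 * wI W (2 * b) - wI W b ≤ 0 := by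
  have hN : Tendsto (fun n : ℕ => (n : ℝ) + (b + 1)) atTop atTop :=
    tendsto_atTop_add_const_right _ _ tendsto_natCast_atTop_atTop
  have key := FLim_key hi h (fun n => ⟨(b, 2 * (n + (b + 1)) + b), by
      refine ⟨?_, ?_, ?_⟩
      · exact hb
      · change 3 * b < 2 * (n + (b + 1)) + b
        omega
      · change b % 2 = (2 * (n + (b + 1)) + b) % 2
        omega⟩) hN (fun n => by positivity) ![0, -1, -1] ![b, 0, -b] ![2, 1, -1] ![b, 2 * b, b]
    (fun n i => by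
      fin_cases i
      · change ((((b : ℕ) : ℤ)) : ℝ) = 0 * ((n : ℝ) + (b + 1)) + b
        push_cast
        ring
      · change ((((b : ℕ) : ℤ) - ((2 * (n + (b + 1)) + b : ℕ) : ℤ)) / 2 : ℤ) =
          -1 * ((n : ℝ) + (b + 1)) + 0
        have e1 : (((b : ℕ) : ℤ) - ((2 * (n + (b + 1)) + b : ℕ) : ℤ)) / 2 =
            -((n : ℤ) + (b + 1)) := by
          omega
        rw [e1]
        push_cast
        ring
      · change ((-((((b : ℕ) : ℤ) + ((2 * (n + (b + 1)) + b : ℕ) : ℤ)) / 2) : ℤ) : ℝ) =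
          -1 * ((n : ℝ) + (b + 1)) + -b
        have e1 : (((b : ℕ) : ℤ) + ((2 * (n + (b + 1)) + b : ℕ) : ℤ)) / 2 =
            (n : ℤ) + (b + 1) + b := by
          omega
        rw [e1]
        push_cast
        ring)
    (fun n i => by
      fin_cases i
      · change ((((2 * (n + (b + 1)) + b : ℕ) : ℤ)) : ℝ) = 2 * ((n : ℝ) + (b + 1)) + b
        push_cast
        ring
      · change ((((3 * ((b : ℕ) : ℤ) + ((2 * (n + (b + 1)) + b : ℕ) : ℤ)) / 2 : ℤ)) : ℝ) =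
          1 * ((n : ℝ) + (b + 1)) + 2 * b
        have e1 : (3 * ((b : ℕ) : ℤ) + ((2 * (n + (b + 1)) + b : ℕ) : ℤ)) / 2 =
            (n : ℤ) + (b + 1) + 2 * b := by
          omega
        rw [e1]
        push_cast
        ring
      · change ((((3 * ((b : ℕ) : ℤ) - ((2 * (n + (b + 1)) + b : ℕ) : ℤ)) / 2 : ℤ)) : ℝ) =
          -1 * ((n : ℝ) + (b + 1)) + b
        have e1 : (3 * ((b : ℕ) : ℤ) - ((2 * (n + (b + 1)) + b : ℕ) : ℤ)) / 2 =
            -((n : ℤ) + (b + 1)) + b := by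
          omega
        rw [e1]
        push_cast
        ring)
  simp only [FLim_v0, FLim_v1, FLim_v2] at key
  norm_num at key
  have e1 : (2 : ℝ) * b + b = 3 * b := by ring
  rw [e1] at key
  linarith

/-- Proof. `κ = (n, 3 n + 2 a)`: `C = (n, -(n + a), -(2 n + a))`, `B = (3 n + 2 a, 3 n + a, -a)`.
Divided by `n ^ 2` the limit of `LI_eq` is `π² / 18` times
`18 vI 0 - 12 vI (2 a) - 6 vI a + 18 wI 0 - 18 wI a`: the terms which remain are `C_0²`, `C_1²`,
`C_2² (vI 0 - vI (2 a))`, `C_0 C_1` with `B_0 - B_1 = a`, `B_0²`, `B_1²` and `B_0 B_1` with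
`C_0 + C_1 = -a`. -/
theorem lim_a {W : Fin 3 → ℝ → ℝ} (hi : ∀ i, IntervalIntegrable (W i) volume 0 (lenI i))
    (h : ∀ κ, LI κ W ≤ 0) {a : ℕ} (ha : 1 ≤ a) :
    3 * vI W 0 - 2 * vI W (2 * a) - vI W a + 3 * wI W 0 - 3 * wI W a ≤ 0 := by
  have hN : Tendsto (fun n : ℕ => (n : ℝ) + 1) atTop atTop :=
    tendsto_atTop_add_const_right _ _ tendsto_natCast_atTop_atTop
  have key := FLim_key hi h (fun n => ⟨(n + 1, 3 * (n + 1) + 2 * a), by
      refine ⟨?_, ?_, ?_⟩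
      · change 1 ≤ n + 1
        omega
      · change 3 * (n + 1) < 3 * (n + 1) + 2 * a
        omega
      · change (n + 1) % 2 = (3 * (n + 1) + 2 * a) % 2
        omega⟩) hN (fun n => by positivity) ![1, -1, -2] ![0, -a, -a] ![3, 3, 0] ![2 * a, a, -a]
    (fun n i => by
      fin_cases i
      · change ((((n + 1 : ℕ) : ℤ)) : ℝ) = 1 * ((n : ℝ) + 1) + 0
        push_cast
        ring
      · change ((((n + 1 : ℕ) : ℤ) - ((3 * (n + 1) + 2 * a : ℕ) : ℤ)) / 2 : ℤ) =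
          -1 * ((n : ℝ) + 1) + -a
        have e1 : (((n + 1 : ℕ) : ℤ) - ((3 * (n + 1) + 2 * a : ℕ) : ℤ)) / 2 =
            -((n : ℤ) + 1) - a := by
          omega
        rw [e1]
        push_cast
        ring
      · change ((-((((n + 1 : ℕ) : ℤ) + ((3 * (n + 1) + 2 * a : ℕ) : ℤ)) / 2) : ℤ) : ℝ) =
          -2 * ((n : ℝ) + 1) + -a
        have e1 : (((n + 1 : ℕ) : ℤ) + ((3 * (n + 1) + 2 * a : ℕ) : ℤ)) / 2 =
            2 * ((n : ℤ) + 1) + a := by
          omega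
        rw [e1]
        push_cast
        ring)
    (fun n i => by
      fin_cases i
      · change ((((3 * (n + 1) + 2 * a : ℕ) : ℤ)) : ℝ) = 3 * ((n : ℝ) + 1) + 2 * a
        push_cast
        ring
      · change ((((3 * ((n + 1 : ℕ) : ℤ) + ((3 * (n + 1) + 2 * a : ℕ) : ℤ)) / 2 : ℤ)) : ℝ) =
          3 * ((n : ℝ) + 1) + a
        have e1 : (3 * ((n + 1 : ℕ) : ℤ) + ((3 * (n + 1) + 2 * a : ℕ) : ℤ)) / 2 =
            3 * ((n : ℤ) + 1) + a := by
          omega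
        rw [e1]
        push_cast
        ring
      · change ((((3 * ((n + 1 : ℕ) : ℤ) - ((3 * (n + 1) + 2 * a : ℕ) : ℤ)) / 2 : ℤ)) : ℝ) =
          0 * ((n : ℝ) + 1) + -a
        have e1 : (3 * ((n + 1 : ℕ) : ℤ) - ((3 * (n + 1) + 2 * a : ℕ) : ℤ)) / 2 = -(a : ℤ) := by
          omega
        rw [e1]
        push_cast
        ring)
  simp only [FLim_v0, FLim_v1, FLim_v2] at key
  norm_num at key
  have e1 : (2 : ℝ) * a - a = a := by ring
  rw [e1, vI_neg, wI_neg] at key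
  linarith

end Pool.Agent.MP4eed4eI
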