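import Pool.Agent.Lib.MP_4eed4e_an_I.IDefs
import Pool.Agent.Lib.MP_4eed4e_an_PB.BTa
import Pool.Agent.Lib.MP_4eed4e_an_PE.EHad
import Pool.Agent.Lib.MP_4eed4e_an_PE.EUh
import Pool.Agent.Lib.MP_4eed4e_an_PG.GPoin

set_option autoImplicit false

/-!
Project I, block T: the weak equation on the plane, bounds of the eigenfunctions on the plane.
-/

namespace Pool.Agent.MP4eed4eI

open Pool.Agent.MP4eed4eP MeasureTheory Set Filter Topology

/-- Integration by parts for Lipschitz functions. -/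
private theorem TGrn_parts {f w : P → ℝ} {K : NNReal} (hf : LipschitzWith K f)
    (hw : LipC univ w) (v : P) :
    ∫ x, fderiv ℝ f x v * w x = -∫ x, f x * fderiv ℝ w x v := by
  obtain ⟨⟨K', hK'⟩, hcomp, -⟩ := hw
  have h1 := LipschitzWith.integral_lineDeriv_mul_eq (μ := (volume : Measure P)) hf hK' hcomp v
  have e1 : ∫ x, lineDeriv ℝ f x v * w x = ∫ x, fderiv ℝ f x v * w x := by
    refine integral_congr_ae ?_
    filter_upwards [hf.ae_differentiableAt (μ := (volume : Measure P))] with x hx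
    rw [hx.lineDeriv_eq_fderiv]
  have e2 : ∫ x, lineDeriv ℝ w x (-v) * f x = -∫ x, f x * fderiv ℝ w x v := by
    rw [← integral_neg]
    refine integral_congr_ae ?_
    filter_upwards [hK'.ae_differentiableAt (μ := (volume : Measure P))] with x hx
    rw [hx.lineDeriv_eq_fderiv, map_neg]
    ring
  rw [← e1, h1, e2]

/-- The product of a bounded continuous function and a derivative of `w`. -/
private theorem TGrn_int {f w : P → ℝ} (hf : Continuous f) {C : ℝ} (hC : ∀ x, |f x| ≤ C)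
    (hw : LipC univ w) (v : P) : Integrable (fun x => f x * fderiv ℝ w x v) := by
  obtain ⟨⟨K', hK'⟩, hcomp, -⟩ := hw
  refine PG.integrable_of_bound (C := C * (K' * ‖v‖))
    (hf.measurable.mul (measurable_fderiv_apply_const ℝ w v)) hcomp (fun x hx => ?_)
    fun x => ?_
  · rw [PG.fderiv_zero_off x hx]
    simp
  · rw [abs_mul]
    exact mul_le_mul (hC x) (PG.fderiv_bound hK' x v) (abs_nonneg _)
      ((abs_nonneg _).trans (hC x))

/-- The product of a continuous function and `w`. -/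
private theorem TGrn_int2 {f w : P → ℝ} (hf : Continuous f) (hw : LipC univ w) :
    Integrable (fun x => f x * w x) := by
  obtain ⟨⟨K', hK'⟩, hcomp, -⟩ := hw
  exact (hf.mul hK'.continuous).integrable_of_hasCompactSupport hcomp.mul_left

private theorem TGrn_uf3 (κ : KS) (v : P) : |uf κ v| ≤ 3 := by
  unfold uf
  refine (Finset.abs_sum_le_sum_abs _ _).trans ?_
  have h1 : ∀ i : Fin 3, |Real.sin (Ci κ i * (Real.pi * v.1 / √3)) *
      Real.sin (Bi κ i * (Real.pi * v.2 / 3))| ≤ 1 := by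
    intro i
    rw [abs_mul]
    exact mul_le_one₀ (Real.abs_sin_le_one _) (abs_nonneg _) (Real.abs_sin_le_one _)
  refine (Finset.sum_le_sum fun i _ => h1 i).trans ?_
  simp

private theorem TGrn_e1 : ‖((1 : ℝ), (0 : ℝ))‖ = 1 := by simp [Prod.norm_def]

private theorem TGrn_e2 : ‖((0 : ℝ), (1 : ℝ))‖ = 1 := by simp [Prod.norm_def]

/-- The weak equation on the plane, for Lipschitz functions with compact support.

Proof. Integration by parts on each line (the slices of `w` are Lipschitz with compact support: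
`PE.int_slice_h`, `PE.int_slice_v` with `Z = d1 (uf κ)`, `Z = d2 (uf κ)` on an interval which
contains the support), Fubini, `lap_uf`. -/
theorem weak_uf (κ : KS) {w : P → ℝ} (hw : LipC univ w) :
    ∫ x, (d1 (uf κ) x * d1 w x + d2 (uf κ) x * d2 w x) = (mu κ)⁻¹ * ∫ x, uf κ x * w x := by
  obtain ⟨K0, hK0⟩ := PE.lip_uf κ
  obtain ⟨⟨K1, hK1⟩, K2, hK2⟩ := PE.lip_d_uf κ
  have b1 : ∀ x, |d1 (uf κ) x| ≤ K0 := fun x => by
    have h := PG.fderiv_bound hK0 x (1, 0)
    rwa [TGrn_e1, mul_one] at h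
  have b2 : ∀ x, |d2 (uf κ) x| ≤ K0 := fun x => by
    have h := PG.fderiv_bound hK0 x (0, 1)
    rwa [TGrn_e2, mul_one] at h
  have c0 : Continuous (uf κ) := hK0.continuous
  have c11 : Continuous (d1 (d1 (uf κ))) := (PE.cd_d1 (PE.cd_d1_uf κ 1)).continuous
  have c22 : Continuous (d2 (d2 (uf κ))) := (PE.cd_d2 (PE.cd_d2_uf κ 1)).continuous
  have i1 : Integrable (fun x => d1 (uf κ) x * d1 w x) := TGrn_int hK1.continuous b1 hw (1, 0)
  have i2 : Integrable (fun x => d2 (uf κ) x * d2 w x) := TGrn_int hK2.continuous b2 hw (0, 1)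
  have p1 : ∫ x, d1 (d1 (uf κ)) x * w x = -∫ x, d1 (uf κ) x * d1 w x :=
    TGrn_parts hK1 hw (1, 0)
  have p2 : ∫ x, d2 (d2 (uf κ)) x * w x = -∫ x, d2 (uf κ) x * d2 w x :=
    TGrn_parts hK2 hw (0, 1)
  rw [integral_add i1 i2, ← integral_const_mul]
  have e1 : ∫ x, d1 (uf κ) x * d1 w x = -∫ x, d1 (d1 (uf κ)) x * w x := by rw [p1, neg_neg]
  have e2 : ∫ x, d2 (uf κ) x * d2 w x = -∫ x, d2 (d2 (uf κ)) x * w x := by rw [p2, neg_neg]
  rw [e1, e2, ← neg_add, ← integral_add (TGrn_int2 c11 hw) (TGrn_int2 c22 hw), ← integral_neg]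
  refine integral_congr_ae (Eventually.of_forall fun x => ?_)
  have h := lap_uf κ x
  show -(d1 (d1 (uf κ)) x * w x + d2 (d2 (uf κ)) x * w x) = (mu κ)⁻¹ * (uf κ x * w x)
  linear_combination (-w x) * h

/-- `uf κ` and its derivatives of order one and two are bounded on the plane.

Proof. `uf κ` is a sum of three products of sines; its derivatives are such sums again. A bound for
the derivatives gives the Lipschitz constants (`Convex.norm_image_sub_le_of_norm_fderiv_le`). -/
theorem uf_bounds (κ : KS) : ∃ K : ℝ, 0 < K ∧ (∀ v, |uf κ v| ≤ K) ∧ (∀ v, |d1 (uf κ) v| ≤ K) ∧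
    (∀ v, |d2 (uf κ) v| ≤ K) ∧ (∀ v w, |uf κ v - uf κ w| ≤ K * dist v w) ∧
    (∀ v w, |d1 (uf κ) v - d1 (uf κ) w| ≤ K * dist v w) ∧
    ∀ v w, |d2 (uf κ) v - d2 (uf κ) w| ≤ K * dist v w := by
  obtain ⟨K0, hK0⟩ := PE.lip_uf κ
  obtain ⟨⟨K1, hK1⟩, K2, hK2⟩ := PE.lip_d_uf κ
  have n0 : (0 : ℝ) ≤ K0 := K0.2
  have n1 : (0 : ℝ) ≤ K1 := K1.2
  have n2 : (0 : ℝ) ≤ K2 := K2.2
  refine ⟨3 + K0 + K1 + K2, by linarith, fun v => ?_, fun v => ?_, fun v => ?_, fun v w => ?_,
    fun v w => ?_, fun v w => ?_⟩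
  · linarith [TGrn_uf3 κ v]
  · have h := PG.fderiv_bound hK0 v (1, 0)
    rw [TGrn_e1, mul_one] at h
    have h' : |d1 (uf κ) v| ≤ K0 := h
    linarith
  · have h := PG.fderiv_bound hK0 v (0, 1)
    rw [TGrn_e2, mul_one] at h
    have h' : |d2 (uf κ) v| ≤ K0 := h
    linarith
  · have h := hK0.dist_le_mul v w
    rw [Real.dist_eq] at h
    exact h.trans (mul_le_mul_of_nonneg_right (by linarith) dist_nonneg)
  · have h := hK1.dist_le_mul v w
    rw [Real.dist_eq] at h
    exact h.trans (mul_le_mul_of_nonneg_right (by linarith) dist_nonneg)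
  · have h := hK2.dist_le_mul v w
    rw [Real.dist_eq] at h
    exact h.trans (mul_le_mul_of_nonneg_right (by linarith) dist_nonneg)

/-- `uf κ` and its gradient vanish at the corners.

Proof. `PE.d1_base`, `PE.d2_right`, `PE.grad_hyp`: the derivatives along the sides vanish on the
sides; at each corner two of them give both partial derivatives. -/
theorem uf_corner (κ : KS) (j : Fin 3) :
    uf κ (corI j) = 0 ∧ d1 (uf κ) (corI j) = 0 ∧ d2 (uf κ) (corI j) = 0 := by
  have hs : (√3 : ℝ) ≠ 0 := by positivity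
  have a0 := PE.grad_hyp κ 0
  rw [mul_zero, PE.d1_base, mul_zero, zero_add] at a0
  have a1 := PE.grad_hyp κ 1
  rw [mul_one, PE.d2_right, add_zero] at a1
  have a1' : d1 (uf κ) (√3, 1) = 0 := (mul_eq_zero.1 a1).resolve_left hs
  fin_cases j
  · exact ⟨uf_bd1 κ 0, PE.d1_base κ 0, a0⟩
  · exact ⟨uf_bd1 κ √3, PE.d1_base κ √3, PE.d2_right κ 0⟩
  · exact ⟨uf_bd2 κ 1, a1', PE.d2_right κ 1⟩

/-- `uf κ` vanishes on the line of each side, and so does its derivative along the side. -/
theorem uf_side (κ : KS) (i : Fin 3) (s : ℝ) : uf κ (ptI i s 0) = 0 := by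
  fin_cases i
  · show uf κ (s, -0) = 0
    rw [neg_zero]
    exact uf_bd1 κ s
  · show uf κ (√3 + 0, s) = 0
    rw [add_zero]
    exact uf_bd2 κ s
  · show uf κ ((√3 * s - 0) / 2, (s + √3 * 0) / 2) = 0
    rw [sub_zero, mul_zero, add_zero, mul_div_assoc]
    exact uf_bd3 κ (s / 2)

/-- Near the corners: first and second order vanishing.

Proof. `uf_bounds`, `uf_corner`; for `uf κ` the mean value inequality on the segment (ball) with the
bound `K * dist` of the gradient. -/
theorem uf_near (κ : KS) : ∃ K : ℝ, 0 < K ∧ ∀ (j : Fin 3) (v : P),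
    |d1 (uf κ) v| ≤ K * dist v (corI j) ∧ |d2 (uf κ) v| ≤ K * dist v (corI j) ∧
      |uf κ v| ≤ K * dist v (corI j) ^ 2 := by
  obtain ⟨K, hK, -, -, -, -, h1, h2⟩ := uf_bounds κ
  have g1 : ∀ (j : Fin 3) (v : P), |d1 (uf κ) v| ≤ K * dist v (corI j) := by
    intro j v
    have h := h1 v (corI j)
    rwa [(uf_corner κ j).2.1, sub_zero] at h
  have g2 : ∀ (j : Fin 3) (v : P), |d2 (uf κ) v| ≤ K * dist v (corI j) := by
    intro j v
    have h := h2 v (corI j)
    rwa [(uf_corner κ j).2.2, sub_zero] at h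
  have hfd : ∀ v : P, ‖fderiv ℝ (uf κ) v‖ ≤ |d1 (uf κ) v| + |d2 (uf κ) v| := by
    intro v
    refine ContinuousLinearMap.opNorm_le_bound _ (by positivity) fun y => ?_
    have e : fderiv ℝ (uf κ) v y = y.1 * d1 (uf κ) v + y.2 * d2 (uf κ) v := by
      have e1 : y = y.1 • ((1 : ℝ), (0 : ℝ)) + y.2 • ((0 : ℝ), (1 : ℝ)) := by
        ext <;> simp
      conv_lhs => rw [e1]
      rw [map_add, map_smul, map_smul, smul_eq_mul, smul_eq_mul]
      rfl
    rw [e, Real.norm_eq_abs]
    have y1 : |y.1| ≤ ‖y‖ := by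
      rw [← Real.norm_eq_abs]
      exact norm_fst_le y
    have y2 : |y.2| ≤ ‖y‖ := by
      rw [← Real.norm_eq_abs]
      exact norm_snd_le y
    refine (abs_add_le _ _).trans ?_
    rw [abs_mul, abs_mul, add_mul]
    refine add_le_add ?_ ?_
    · rw [mul_comm |d1 (uf κ) v|]
      exact mul_le_mul_of_nonneg_right y1 (abs_nonneg _)
    · rw [mul_comm |d2 (uf κ) v|]
      exact mul_le_mul_of_nonneg_right y2 (abs_nonneg _)
  refine ⟨2 * K, by linarith, fun j v => ⟨?_, ?_, ?_⟩⟩
  · refine (g1 j v).trans (mul_le_mul_of_nonneg_right (by linarith) dist_nonneg)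
  · refine (g2 j v).trans (mul_le_mul_of_nonneg_right (by linarith) dist_nonneg)
  · have hd : ∀ x ∈ Metric.closedBall (corI j) (dist v (corI j)),
        DifferentiableAt ℝ (uf κ) x := fun x _ =>
      (PE.cd_uf κ 1).differentiable (by norm_num) x
    have hb : ∀ x ∈ Metric.closedBall (corI j) (dist v (corI j)),
        ‖fderiv ℝ (uf κ) x‖ ≤ 2 * K * dist v (corI j) := by
      intro x hx
      have hx' : dist x (corI j) ≤ dist v (corI j) := hx
      have k1 := (g1 j x).trans (mul_le_mul_of_nonneg_left hx' hK.le)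
      have k2 := (g2 j x).trans (mul_le_mul_of_nonneg_left hx' hK.le)
      have k3 := hfd x
      linarith
    have h3 := (convex_closedBall (corI j) (dist v (corI j))).norm_image_sub_le_of_norm_fderiv_le
      (x := corI j) (y := v) hd hb (Metric.mem_closedBall_self dist_nonneg)
      (Metric.mem_closedBall.2 le_rfl)
    rw [(uf_corner κ j).1, sub_zero, Real.norm_eq_abs, ← dist_eq_norm] at h3
    refine h3.trans (le_of_eq ?_)
    ring

end Pool.Agent.MP4eed4eI
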