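import Pool.Agent.Lib.MP_4eed4e_an_I.FDefs
import Pool.Agent.Lib.MP_4eed4e_an_I.GCo
import Pool.Agent.Lib.MP_4eed4e_an_I.TGrn
import Pool.Agent.Lib.MP_4eed4e_an_PB.BTz

set_option autoImplicit false

/-!
Project I, block F: the normal derivatives of the eigenfunctions.
-/

namespace Pool.Agent.MP4eed4eI

open Pool.Agent.MP4eed4eP MeasureTheory Set Filter Topology

private theorem FNor_pt0 (s : ℝ) : ptI 0 s 0 = (s, 0) := by
  simp [ptI]

private theorem FNor_pt1 (s : ℝ) : ptI 1 s 0 = (√3, s) := by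
  simp [ptI]

private theorem FNor_pt2 (s : ℝ) : ptI 2 s 0 = (√3 * s / 2, s / 2) := by
  simp [ptI]

private theorem FNor_par (κ : KS) (i : Fin 3) : ∃ k : ℤ, Bi κ i = Ci κ i + 2 * k := by
  obtain ⟨⟨M, M'⟩, h1, h2, h3⟩ := κ
  simp only at h1 h2 h3
  fin_cases i
  · refine ⟨((M' : ℤ) - M) / 2, ?_⟩
    simp only [Bi, Ci]
    change (M' : ℤ) = M + 2 * (((M' : ℤ) - M) / 2)
    omega
  · refine ⟨((M : ℤ) + M') / 2, ?_⟩
    simp only [Bi, Ci]
    change (3 * (M : ℤ) + M') / 2 = ((M : ℤ) - M') / 2 + 2 * (((M : ℤ) + M') / 2)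
    omega
  · refine ⟨(M : ℤ), ?_⟩
    simp only [Bi, Ci]
    change (3 * (M : ℤ) - M') / 2 = -(((M : ℤ) + M') / 2) + 2 * (M : ℤ)
    omega

private theorem FNor_cos (κ : KS) (i : Fin 3) :
    Real.cos (Bi κ i * Real.pi) = Real.cos (Ci κ i * Real.pi) := by
  obtain ⟨k, hk⟩ := FNor_par κ i
  rw [hk]
  push_cast
  rw [show ((Ci κ i : ℝ) + 2 * k) * Real.pi = Ci κ i * Real.pi + k * (2 * Real.pi) by ring]
  exact Real.cos_add_int_mul_two_pi _ _

private theorem FNor_gH (κ : KS) (s : ℝ) : gH κ (3 - s) = -gA κ s := by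
  unfold gH gA
  rw [← Finset.sum_neg_distrib]
  refine Finset.sum_congr rfl fun i _ => ?_
  have h1 : (Bi κ i : ℝ) * (Real.pi * (3 - s) / 3) =
      Bi κ i * Real.pi - Bi κ i * (Real.pi * s / 3) := by ring
  rw [h1, Real.sin_sub, Real.sin_int_mul_pi, FNor_cos]
  ring

private theorem FNor_diff (κ : KS) : Differentiable ℝ (uf κ) :=
  (contDiff_uf κ).differentiable (by simp)

private theorem FNor_d2 (κ : KS) (s : ℝ) : d2 (uf κ) (0, s) = 0 := by
  have h1 := PE.deriv_slice_v (x := ((0 : ℝ), s)) (FNor_diff κ (0, s))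
  rw [← h1]
  have h3 : (fun t => uf κ ((((0 : ℝ), s) : P).1, t)) = fun _ => (0 : ℝ) := by
    funext t
    simp [uf]
  rw [h3, deriv_const]

private theorem FNor_s (c t : ℝ) : HasDerivAt (fun t => Real.sin (c * (Real.pi * t / √3)))
    (c * Real.pi / √3 * Real.cos (c * (Real.pi * t / √3))) t := by
  have h := ((((hasDerivAt_id' t).const_mul Real.pi).div_const (√3)).const_mul c).sin
  convert h using 1
  ring

private theorem FNor_d1 (κ : KS) (s : ℝ) : d1 (uf κ) (0, s) = Real.pi / √3 * gH κ s := by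
  have h1 := PE.deriv_slice_h (x := ((0 : ℝ), s)) (FNor_diff κ (0, s))
  rw [← h1]
  have h2 : HasDerivAt (fun t => uf κ (t, s)) (∑ i, (Ci κ i * Real.pi / √3 *
      Real.cos (Ci κ i * (Real.pi * 0 / √3))) * Real.sin (Bi κ i * (Real.pi * s / 3))) 0 := by
    unfold uf
    refine HasDerivAt.fun_sum fun i _ => ?_
    exact (FNor_s (Ci κ i) 0).mul_const (Real.sin (Bi κ i * (Real.pi * s / 3)))
  have h3 : deriv (fun t => uf κ (t, ((0 : ℝ), s).2)) ((0 : ℝ), s).1 = _ := h2.deriv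
  rw [h3]
  unfold gH
  rw [Finset.mul_sum]
  refine Finset.sum_congr rfl fun i _ => ?_
  rw [mul_zero, zero_div, mul_zero, Real.cos_zero]
  ring

/-- The rotation as a linear map. -/
private noncomputable def FNor_R : P →L[ℝ] P :=
  ((1 / 2 : ℝ) • ContinuousLinearMap.fst ℝ ℝ ℝ - (√3 / 2) • ContinuousLinearMap.snd ℝ ℝ ℝ).prod
    ((√3 / 2) • ContinuousLinearMap.fst ℝ ℝ ℝ + (1 / 2 : ℝ) • ContinuousLinearMap.snd ℝ ℝ ℝ)

private theorem FNor_R_apply (v : P) : FNor_R v = rt v := by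
  simp only [FNor_R, rt]
  ext
  · simp
    ring
  · simp
    ring

private theorem FNor_rt (κ : KS) (v : P) : uf κ (rt v) = uf κ v := by
  rw [uf_eq_uz, uf_eq_uz, uz_rt]
  have h := κ.2.2.2
  omega

private theorem FNor_grad (κ : KS) (v : P) :
    d1 (uf κ) v = 1 / 2 * d1 (uf κ) (rt v) + √3 / 2 * d2 (uf κ) (rt v) ∧
    d2 (uf κ) v = -(√3 / 2) * d1 (uf κ) (rt v) + 1 / 2 * d2 (uf κ) (rt v) := by
  have h1 : uf κ = uf κ ∘ FNor_R := by
    funext w
    rw [Function.comp_apply, FNor_R_apply, FNor_rt]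
  have h2 : fderiv ℝ (uf κ) v = (fderiv ℝ (uf κ) (rt v)).comp FNor_R := by
    conv_lhs => rw [h1]
    have h3 := (FNor_diff κ (FNor_R v)).hasFDerivAt.comp v FNor_R.hasFDerivAt
    rw [h3.fderiv, FNor_R_apply]
  have e1 : FNor_R (1, 0) = (1 / 2 : ℝ) • ((1, 0) : P) + (√3 / 2) • ((0, 1) : P) := by
    rw [FNor_R_apply]
    simp [rt]
  have e2 : FNor_R (0, 1) = (-(√3 / 2)) • ((1, 0) : P) + (1 / 2 : ℝ) • ((0, 1) : P) := by
    rw [FNor_R_apply]
    simp [rt]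
  constructor
  · rw [d1, h2, ContinuousLinearMap.comp_apply, e1, map_add, map_smul, map_smul]
    rfl
  · rw [d2, h2, ContinuousLinearMap.comp_apply, e2, map_add, map_smul, map_smul]
    rfl

private theorem FNor_sq : (√3 : ℝ) ^ 2 = 3 := Real.sq_sqrt (by norm_num)

private theorem FNor_rt2 (s : ℝ) : rt (√3 * s / 2, s / 2) = (0, s) := by
  have h := FNor_sq
  simp only [rt]
  ext
  · simp only
    ring
  · simp only
    linear_combination (s / 4) * h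

/-- Proof. `PE.d1_base` and `d2_uf` (block PB). -/
theorem qI_zero (κ : KS) (s : ℝ) : qI κ 0 s = Real.pi ^ 2 / 9 * gO κ (s / √3) ^ 2 := by
  rw [qI, FNor_pt0, PE.d1_base, d2_uf]
  ring

/-- Proof. `PE.d2_right` and `d1_uf`; `sin (B π (3 - s) / 3) = -cos (B π) sin (B π s / 3)` for an
integer `B`, and `cos (C_i π) cos (B_i π) = 1` as `C_i = B_i` mod 2 (from the definitions: `κ.1.1` and
`κ.1.2` have the same parity). So `gH κ (3 - s) = - gA κ s`. -/
theorem qI_one (κ : KS) (s : ℝ) : qI κ 1 s = Real.pi ^ 2 / 3 * gH κ (3 - s) ^ 2 := by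
  rw [qI, FNor_pt1, PE.d2_right, d1_uf, FNor_gH]
  have h := FNor_sq
  have h4 : (√3 : ℝ) ≠ 0 := by positivity
  rw [mul_pow, div_pow, h]
  ring

/-- The hypotenuse.

Proof. The rotation `rt` by 60 degrees satisfies `uf κ (rt v) = uf κ v` (`uf_eq_uz`, `uz_rt`); it maps
the line `y = x / √3` to the line `x = 0` (`rt (ptI 2 s t) = (-t, s)`). So the gradient of `uf κ` at
`ptI 2 s 0` has the same norm as the gradient at `(0, s)`, where `d2 = 0` and
`d1 (uf κ) (0, s) = ∑ C_i π / √3 sin (B_i π s / 3) = π / √3 * gH κ s`. -/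
theorem qI_two (κ : KS) (s : ℝ) : qI κ 2 s = Real.pi ^ 2 / 3 * gH κ s ^ 2 := by
  have h := FNor_sq
  obtain ⟨h1, h2⟩ := FNor_grad κ (√3 * s / 2, s / 2)
  rw [FNor_rt2, FNor_d1, FNor_d2] at h1 h2
  rw [qI, FNor_pt2, h1, h2]
  have h4 : (Real.pi / √3) ^ 2 = Real.pi ^ 2 / 3 := by rw [div_pow, h]
  have h5 : (1 / 2 * (Real.pi / √3 * gH κ s) + √3 / 2 * 0) ^ 2 +
      (-(√3 / 2) * (Real.pi / √3 * gH κ s) + 1 / 2 * 0) ^ 2 =
      (1 / 4 + (√3) ^ 2 / 4) * ((Real.pi / √3) ^ 2 * gH κ s ^ 2) := by ring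
  rw [h5, h4, h]
  ring

theorem qI_nonneg (κ : KS) (i : Fin 3) (s : ℝ) : 0 ≤ qI κ i s := by
  unfold qI
  positivity

theorem continuous_qI (κ : KS) (i : Fin 3) : Continuous (qI κ i) := by
  fin_cases i
  · change Continuous (qI κ 0)
    rw [show qI κ 0 = _ from funext (qI_zero κ)]
    unfold gO
    fun_prop
  · change Continuous (qI κ 1)
    rw [show qI κ 1 = _ from funext (qI_one κ)]
    unfold gH
    fun_prop
  · change Continuous (qI κ 2)
    rw [show qI κ 2 = _ from funext (qI_two κ)]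
    unfold gH
    fun_prop

/-- Proof. `uf_near`: the ends `ptI i 0 0`, `ptI i (lenI i) 0` are corners. -/
theorem qI_le (κ : KS) : ∃ K : ℝ, 0 < K ∧ ∀ i, ∀ s ∈ Icc 0 (lenI i), qI κ i s ≤ K * rI i s ^ 2 := by
  obtain ⟨K, hK, h⟩ := uf_near κ
  have hb : ∀ (j : Fin 3) (i : Fin 3) (s r : ℝ), dist (ptI i s 0) (corI j) ≤ r →
      qI κ i s ≤ 2 * K ^ 2 * r ^ 2 := by
    intro j i s r hr
    obtain ⟨h1, h2, -⟩ := h j (ptI i s 0)
    have hr0 : 0 ≤ r := dist_nonneg.trans hr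
    have h3 : |d1 (uf κ) (ptI i s 0)| ≤ K * r := h1.trans (mul_le_mul_of_nonneg_left hr hK.le)
    have h4 : |d2 (uf κ) (ptI i s 0)| ≤ K * r := h2.trans (mul_le_mul_of_nonneg_left hr hK.le)
    have h5 : d1 (uf κ) (ptI i s 0) ^ 2 ≤ (K * r) ^ 2 := sq_le_sq' (abs_le.1 h3).1 (abs_le.1 h3).2
    have h6 : d2 (uf κ) (ptI i s 0) ^ 2 ≤ (K * r) ^ 2 := sq_le_sq' (abs_le.1 h4).1 (abs_le.1 h4).2
    unfold qI
    calc _ ≤ (K * r) ^ 2 + (K * r) ^ 2 := add_le_add h5 h6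
      _ = 2 * K ^ 2 * r ^ 2 := by ring
  have hc : ∀ i : Fin 3, (∃ j, ptI i 0 0 = corI j) ∧ ∃ j, ptI i (lenI i) 0 = corI j := by
    intro i
    fin_cases i
    · exact ⟨⟨0, by simp [ptI, corI]⟩, ⟨1, by simp [ptI, corI, lenI]⟩⟩
    · exact ⟨⟨1, by simp [ptI, corI]⟩, ⟨2, by simp [ptI, corI, lenI]⟩⟩
    · exact ⟨⟨0, by simp [ptI, corI]⟩, ⟨2, by simp [ptI, corI, lenI]⟩⟩
  refine ⟨2 * K ^ 2, by positivity, fun i s hs => ?_⟩
  obtain ⟨⟨j, hj⟩, ⟨j', hj'⟩⟩ := hc i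
  rcases le_total s (lenI i - s) with h1 | h1
  · have h2 : rI i s = s := min_eq_left h1
    rw [h2]
    refine hb j i s s ?_
    rw [← hj]
    refine (dist_ptI_le i s 0 0 0).trans ?_
    rw [sub_zero, sub_zero, abs_zero, add_zero, abs_of_nonneg hs.1]
  · have h2 : rI i s = lenI i - s := min_eq_right h1
    rw [h2]
    refine hb j' i s (lenI i - s) ?_
    rw [← hj']
    refine (dist_ptI_le i s 0 (lenI i) 0).trans ?_
    rw [sub_zero, abs_zero, add_zero, abs_sub_comm, abs_of_nonneg (sub_nonneg.2 hs.2)]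

end Pool.Agent.MP4eed4eI
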