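import Mathlib

set_option autoImplicit false

/-!
Project I, block G: one-dimensional facts about concave functions.
-/

namespace Pool.Agent.MP4eed4eI

open MeasureTheory Set Filter Topology

private theorem half_le {f : ℝ → ℝ} {a b s : ℝ} (hf : ConcaveOn ℝ (Icc a b) f) :
    (∀ x ∈ Icc a s, f x ≤ f s) ∨ (∀ x ∈ Icc s b, f x ≤ f s) := by
  by_contra h
  rw [not_or] at h
  obtain ⟨h1, h2⟩ := h
  push Not at h1 h2
  obtain ⟨x, hx, hfx⟩ := h1
  obtain ⟨y, hy, hfy⟩ := h2
  have h3 : min (f x) (f y) ≤ f s := by
    refine ConcaveOn.min_le_of_mem_Icc (hf.subset (Icc_subset_Icc hx.1 hy.2) (convex_Icc x y))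
      ⟨le_rfl, hx.2.trans hy.1⟩ ⟨hx.2.trans hy.1, le_rfl⟩ ⟨hx.2, hy.1⟩
  have h4 := lt_min hfx hfy
  exact absurd h3 (not_le.mpr h4)

private theorem int_lower {f : ℝ → ℝ} {a b c d C : ℝ} (hac : a ≤ c) (hcd : c ≤ d) (hdb : d ≤ b)
    (hi : IntervalIntegrable f volume a b) (hC : ∀ x ∈ Icc c d, C ≤ |f x|) :
    C * (d - c) ≤ ∫ x in a..b, |f x| := by
  have hi' : IntervalIntegrable (fun x => |f x|) volume a b := hi.abs
  have h1 : ∫ x in c..d, |f x| ≤ ∫ x in a..b, |f x| :=
    intervalIntegral.integral_mono_interval hac hcd hdb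
      (ae_of_all _ (fun x => abs_nonneg _)) hi'
  have hi2 : IntervalIntegrable (fun x => |f x|) volume c d :=
    hi'.mono_set (by
      rw [uIcc_of_le hcd, uIcc_of_le (by linarith)]
      exact Icc_subset_Icc hac hdb)
  have h2 : ∫ x in c..d, C ≤ ∫ x in c..d, |f x| :=
    intervalIntegral.integral_mono_on hcd intervalIntegrable_const hi2 hC
  rw [intervalIntegral.integral_const, smul_eq_mul] at h2
  linarith [mul_comm (d - c) C]

/-- Proof. If `f s < - m / min (s - a) (b - s)`: by concavity `f ≤ f s` on `[a, s]` or on `[s, b]`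
(if `f x > f s` and `f y > f s` with `x < s < y` then `f s > f s`), where `f s < 0`; so
`∫ |f| ≥ |f s| * min (s - a) (b - s) > m`. -/
theorem concave_lower {f : ℝ → ℝ} {a b m s : ℝ} (hf : ConcaveOn ℝ (Icc a b) f)
    (hi : IntervalIntegrable f volume a b) (hm : ∫ x in a..b, |f x| ≤ m) (hs : s ∈ Ioo a b) :
    -(m / min (s - a) (b - s)) ≤ f s := by
  by_contra h
  push Not at h
  have hab : a < b := hs.1.trans hs.2
  have hm0 : 0 ≤ m :=
    (intervalIntegral.integral_nonneg hab.le (fun x _ => abs_nonneg _)).trans hm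
  have hd : 0 < min (s - a) (b - s) := lt_min (sub_pos.2 hs.1) (sub_pos.2 hs.2)
  have hq : 0 ≤ m / min (s - a) (b - s) := div_nonneg hm0 hd.le
  have hfs : f s < 0 := by linarith
  have hlt : m < -f s * min (s - a) (b - s) := by
    rw [← div_lt_iff₀ hd]
    linarith
  rcases half_le (s := s) hf with h1 | h1
  · have h2 := int_lower (C := -f s) le_rfl hs.1.le hs.2.le hi (fun x hx => by
      have h3 := h1 x hx
      rw [abs_of_neg (by linarith)]
      linarith)
    have h4 : -f s * min (s - a) (b - s) ≤ -f s * (s - a) :=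
      mul_le_mul_of_nonneg_left (min_le_left _ _) (by linarith)
    linarith
  · have h2 := int_lower (C := -f s) hs.1.le hs.2.le le_rfl hi (fun x hx => by
      have h3 := h1 x hx
      rw [abs_of_neg (by linarith)]
      linarith)
    have h4 : -f s * min (s - a) (b - s) ≤ -f s * (b - s) :=
      mul_le_mul_of_nonneg_left (min_le_right _ _) (by linarith)
    linarith

/-- One side: if `s` is in the left half. -/
private theorem upper_aux {f : ℝ → ℝ} {a b s : ℝ} (hab : a < b) (hf : ConcaveOn ℝ (Icc a b) f)
    (hi : IntervalIntegrable f volume a b) (hs : s ∈ Icc a b) (hL : (b - a) / 2 ≤ b - s)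
    (hM : 0 < f s) : f s * (b - a) / 16 ≤ ∫ x in a..b, |f x| := by
  set L := b - s with hLd
  have hL0 : 0 < L := by linarith
  have hml : f s * (b - a) / 16 ≤ f s * L / 8 := by
    have := mul_le_mul_of_nonneg_left hL hM.le
    linarith
  refine hml.trans ?_
  by_cases h : ∀ x ∈ Icc s (s + L / 4), f s / 2 ≤ f x
  · have h2 := int_lower (C := f s / 2) hs.1 (by linarith : s ≤ s + L / 4) (by linarith) hi
      (fun x hx => (h x hx).trans (le_abs_self _))
    have h3 : f s / 2 * (s + L / 4 - s) = f s * L / 8 := by ring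
    linarith
  · push Not at h
    obtain ⟨t, ht, hft⟩ := h
    have hst : s < t := lt_of_le_of_ne ht.1 (by rintro rfl; linarith)
    have h2 := int_lower (C := f s / 2) (by linarith [hs.1] : a ≤ s + 3 * L / 4)
      (by linarith : s + 3 * L / 4 ≤ b) le_rfl hi (fun x hx => by
        have hx1 : s + 3 * (t - s) ≤ x := by
          have := ht.2
          have := hx.1
          linarith
        have hxt : t < x := by linarith
        have h3 := hf.slope_anti_adjacent hs ⟨by linarith [hs.1], hx.2⟩ hst hxt
        have h4 : (f t - f s) / (t - s) ≤ -(f s / 2) / (t - s) := by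
          gcongr
          linarith
        have h5 : (f x - f t) ≤ -(f s / 2) / (t - s) * (x - t) := by
          rw [← div_le_iff₀ (by linarith)]
          exact h3.trans h4
        have h6 : -(f s / 2) / (t - s) * (x - t) ≤ -(f s / 2) / (t - s) * (2 * (t - s)) :=
          mul_le_mul_of_nonpos_left (by linarith)
            (div_nonpos_of_nonpos_of_nonneg (by linarith) (by linarith))
        have h7 : -(f s / 2) / (t - s) * (2 * (t - s)) = -f s := by
          have : t - s ≠ 0 := by linarith
          field_simp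
        have h8 : f x ≤ -(f s / 2) := by linarith
        have h9 := neg_le_abs (f x)
        linarith)
    have h3 : f s / 2 * (b - (s + 3 * L / 4)) = f s * L / 8 := by
      rw [hLd]
      ring
    linarith

/-- Proof. Let `M = f s > 0` and let `L ≥ (b - a) / 2` be the length of the longer side of `s`, say
the
right one. If `f ≥ M / 2` on `[s, s + L / 4]` then `∫ |f| ≥ M L / 8`. Otherwise there is
`s1 ∈ (s, s + L / 4]` with `f s1 < M / 2`, and concavity gives `f x ≤ -M / 2` for
`x ≥ s + 3 (s1 - s)`, in particular for `x ∈ [s + 3 L / 4, s + L]`, so again `∫ |f| ≥ M L / 8`. -/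
theorem concave_upper {f : ℝ → ℝ} {a b m s : ℝ} (hab : a < b) (hf : ConcaveOn ℝ (Icc a b) f)
    (hi : IntervalIntegrable f volume a b) (hm : ∫ x in a..b, |f x| ≤ m) (hs : s ∈ Icc a b) :
    f s ≤ 16 * m / (b - a) := by
  have hm0 : 0 ≤ m :=
    (intervalIntegral.integral_nonneg hab.le (fun x _ => abs_nonneg _)).trans hm
  have hba : 0 < b - a := sub_pos.2 hab
  rcases le_or_gt (f s) 0 with h0 | h0
  · exact h0.trans (div_nonneg (by linarith) hba.le)
  rw [le_div_iff₀ hba]
  rcases le_total ((b - a) / 2) (b - s) with hL | hL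
  · have := upper_aux hab hf hi hs hL h0
    linarith
  · have hf' : ConcaveOn ℝ (Icc (-b) (-a)) (fun x => f (-x)) := by
      refine ⟨convex_Icc _ _, fun x hx y hy p q hp hq hpq => ?_⟩
      have h1 := hf.2 (x := -x) ⟨by linarith [hx.2], by linarith [hx.1]⟩ (y := -y)
        ⟨by linarith [hy.2], by linarith [hy.1]⟩ hp hq hpq
      have h2 : p • -x + q • -y = -(p • x + q • y) := by
        simp only [smul_eq_mul]
        ring
      rw [h2] at h1
      exact h1
    have hi' : IntervalIntegrable (fun x => f (-x)) volume (-b) (-a) :=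
      ((IntervalIntegrable.iff_comp_neg (by simp)).1 hi).symm
    have h1 := upper_aux (a := -b) (b := -a) (s := -s) (by linarith) hf' hi'
      ⟨by linarith [hs.2], by linarith [hs.1]⟩ (by linarith) (by
        simpa using h0)
    have h2 : ∫ x in (-b)..(-a), |f (-x)| = ∫ x in a..b, |f x| := by
      have := intervalIntegral.integral_comp_neg (a := -b) (b := -a) (fun x => |f x|)
      rw [neg_neg, neg_neg] at this
      exact this
    rw [h2] at h1
    have h3 : f (- -s) = f s := by rw [neg_neg]
    simp only [h3] at h1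
    linarith

/-- Proof. `b - a ≥ 2 d`. The slope of `f` between two points of `[a + d, b - d]` is at most the
slope
on `[a + d / 2, a + d]` and at least the slope on `[b - d, b - d / 2]`; at these points
`|f| ≤ max (2 m / d) (8 m / d)` by `concave_lower`, `concave_upper`; so the slopes are bounded by
`2 * (8 m / d) / (d / 2) = 32 m / d ^ 2`. -/
theorem concave_lip {f : ℝ → ℝ} {a b m d s s' : ℝ} (hd : 0 < d) (hf : ConcaveOn ℝ (Icc a b) f)
    (hi : IntervalIntegrable f volume a b) (hm : ∫ x in a..b, |f x| ≤ m)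
    (hs : s ∈ Icc (a + d) (b - d)) (hs' : s' ∈ Icc (a + d) (b - d)) :
    |f s - f s'| ≤ 64 * m / d ^ 2 * |s - s'| := by
  have key : ∀ x y : ℝ, x ∈ Icc (a + d) (b - d) → y ∈ Icc (a + d) (b - d) → x < y →
      |f x - f y| ≤ 64 * m / d ^ 2 * |x - y| := by
    intro x y hx hy hxy
    have hab : a < b := by linarith [hx.1, hx.2]
    have hbd : 2 * d ≤ b - a := by linarith [hx.1, hx.2]
    have hm0 : 0 ≤ m :=
      (intervalIntegral.integral_nonneg hab.le (fun x _ => abs_nonneg _)).trans hm
    have hup : ∀ z ∈ Icc a b, f z ≤ 8 * m / d := by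
      intro z hz
      refine (concave_upper hab hf hi hm hz).trans ?_
      rw [div_le_div_iff₀ (by linarith) hd]
      nlinarith [mul_le_mul_of_nonneg_left hbd hm0]
    have hlo : ∀ z ∈ Icc (a + d / 2) (b - d / 2), -(2 * m / d) ≤ f z := by
      intro z hz
      have hz' : z ∈ Ioo a b := ⟨by linarith [hz.1], by linarith [hz.2]⟩
      refine le_trans ?_ (concave_lower hf hi hm hz')
      have h1 : d / 2 ≤ min (z - a) (b - z) := le_min (by linarith [hz.1]) (by linarith [hz.2])
      have h2 : m / min (z - a) (b - z) ≤ m / (d / 2) := by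
        gcongr
      have h3 : m / (d / 2) = 2 * m / d := by field_simp
      linarith
    have hslope1 := hf.slope_anti_adjacent (x := x - d / 2) (y := x) (z := y)
      ⟨by linarith [hx.1], by linarith [hx.2]⟩ ⟨by linarith [hy.1], by linarith [hy.2]⟩
      (by linarith) hxy
    have hslope2 := hf.slope_anti_adjacent (x := x) (y := y) (z := y + d / 2)
      ⟨by linarith [hx.1], by linarith [hx.2]⟩ ⟨by linarith [hy.1], by linarith [hy.2]⟩
      hxy (by linarith)
    have hyx : 0 < y - x := sub_pos.2 hxy
    have e1 : 8 * m / d + 2 * m / d = 10 * m / d := by ring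
    have h1 : (f x - f (x - d / 2)) / (x - (x - d / 2)) ≤ 20 * m / d ^ 2 := by
      rw [show x - (x - d / 2) = d / 2 by ring, div_le_iff₀ (by linarith)]
      have h3 : 20 * m / d ^ 2 * (d / 2) = 10 * m / d := by
        field_simp
        ring
      have h4 := hup x ⟨by linarith [hx.1], by linarith [hx.2]⟩
      have h5 := hlo (x - d / 2) ⟨by linarith [hx.1], by linarith [hx.2]⟩
      linarith
    have h2 : -(20 * m / d ^ 2) ≤ (f (y + d / 2) - f y) / (y + d / 2 - y) := by
      rw [show y + d / 2 - y = d / 2 by ring, le_div_iff₀ (by linarith)]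
      have h3 : -(20 * m / d ^ 2) * (d / 2) = -(10 * m / d) := by
        field_simp
        ring
      have h4 := hup y ⟨by linarith [hy.1], by linarith [hy.2]⟩
      have h5 := hlo (y + d / 2) ⟨by linarith [hy.1], by linarith [hy.2]⟩
      linarith
    have h3 : f y - f x ≤ 20 * m / d ^ 2 * (y - x) := by
      rw [← div_le_iff₀ hyx]
      exact hslope1.trans h1
    have h4 : -(20 * m / d ^ 2) * (y - x) ≤ f y - f x := by
      rw [← le_div_iff₀ hyx]
      exact h2.trans hslope2
    have hq : 0 ≤ m / d ^ 2 := by positivity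
    have h5 : |f x - f y| ≤ 20 * m / d ^ 2 * (y - x) := by
      rw [abs_le]
      constructor
      · linarith
      · linarith
    refine h5.trans ?_
    rw [abs_sub_comm x y, abs_of_pos hyx]
    have h6 : 20 * m / d ^ 2 ≤ 64 * m / d ^ 2 := by
      have e2 : 20 * m / d ^ 2 = 20 * (m / d ^ 2) := by ring
      have e3 : 64 * m / d ^ 2 = 64 * (m / d ^ 2) := by ring
      rw [e2, e3]
      linarith
    exact mul_le_mul_of_nonneg_right h6 hyx.le
  rcases lt_trichotomy s s' with h | h | h
  · exact key s s' hs hs' h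
  · rw [h, sub_self, sub_self, abs_zero, mul_zero]
  · rw [abs_sub_comm (f s), abs_sub_comm s]
    exact key s' s hs' hs h

/-- A concave function on a compact interval which is bounded below is integrable.

Proof. It is continuous on the open interval (`ConcaveOn.continuousOn_interior` or
`ConcaveOn.continuousOn`), bounded above (a supporting line at an interior point) and below. -/
theorem concave_integrable {f : ℝ → ℝ} {a b B : ℝ} (hab : a < b) (hf : ConcaveOn ℝ (Icc a b) f)
    (hB : ∀ x ∈ Icc a b, B ≤ f x) : IntervalIntegrable f volume a b := by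
  rw [intervalIntegrable_iff_integrableOn_Ioo_of_le hab.le]
  have hc : ContinuousOn f (Ioo a b) := by
    have h := hf.continuousOn_interior
    rwa [interior_Icc] at h
  have hup : ∀ x ∈ Icc a b, f x ≤ 2 * f ((a + b) / 2) - B := by
    intro x hx
    have hx' : a + b - x ∈ Icc a b := ⟨by linarith [hx.2], by linarith [hx.1]⟩
    have h1 := hf.2 hx hx' (by norm_num : (0 : ℝ) ≤ 1 / 2) (by norm_num : (0 : ℝ) ≤ 1 / 2)
      (by norm_num)
    have h2 : (1 / 2 : ℝ) • x + (1 / 2 : ℝ) • (a + b - x) = (a + b) / 2 := by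
      simp only [smul_eq_mul]
      ring
    rw [h2] at h1
    simp only [smul_eq_mul] at h1
    have h3 := hB _ hx'
    linarith
  refine IntegrableOn.of_bound ?_ (hc.aestronglyMeasurable measurableSet_Ioo)
    (max |B| |2 * f ((a + b) / 2) - B|) ?_
  · rw [Real.volume_Ioo]
    exact ENNReal.ofReal_lt_top
  · rw [ae_restrict_iff' measurableSet_Ioo]
    refine ae_of_all _ (fun x hx => ?_)
    have hx' := Ioo_subset_Icc_self hx
    rw [Real.norm_eq_abs, abs_le]
    have h1 := hB x hx'
    have h2 := hup x hx'
    have h3 := le_max_left |B| |2 * f ((a + b) / 2) - B|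
    have h4 := le_max_right |B| |2 * f ((a + b) / 2) - B|
    have h5 := neg_abs_le B
    have h6 := le_abs_self (2 * f ((a + b) / 2) - B)
    constructor
    · linarith
    · linarith

end Pool.Agent.MP4eed4eI
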