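import Pool.Agent.Lib.MP_4eed4e_an_I.GSec
import Pool.Agent.Lib.MP_4eed4e_an_I.GOne

set_option autoImplicit false

/-!
Project I, block G: area bounds the height functions.
-/

namespace Pool.Agent.MP4eed4eI

open Pool.Agent.MP4eed4eP MeasureTheory Set Filter Topology

private theorem garea_sqrt {ε : ℝ} (hε : 0 < ε) (hε1 : ε ≤ 1 / 10 ^ 6) :
    0 < √ε ∧ √ε ≤ 1 / 1000 := by
  refine ⟨Real.sqrt_pos.2 hε, ?_⟩
  rw [Real.sqrt_le_left (by norm_num)]
  refine hε1.trans (by norm_num)

private theorem garea_lt {ε : ℝ} (hε : 0 < ε) (hε1 : ε ≤ 1 / 10 ^ 6) (i : Fin 3) :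
    8 * √ε < lenI i - 8 * √ε := by
  have h1 := (garea_sqrt hε hε1).2
  have h2 := (lenI_bounds i).1
  linarith

theorem integrable_VI {D : Set P} {ε : ℝ} (hε : 0 < ε) (hε1 : ε ≤ 1 / 10 ^ 6) (h : Near ε D)
    (i : Fin 3) : IntervalIntegrable (VI D i) volume (8 * √ε) (lenI i - 8 * √ε) := by
  refine concave_integrable (B := -(2 * √ε)) (garea_lt hε hε1 i) (concave_VI hε hε1 h i) ?_
  intro x hx
  exact (VI_lower hε hε1 h hx).le

/-- The region between two graphs over the side `i` (Fubini in the coordinates of the side).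

Proof. `mp_ptI`, `me_ptI`: the volume of the image of `{x | x.1 ∈ J, f x.1 ≤ x.2 < g x.1}` (a
`regionBetween`-like set) is the integral of `max (g - f) 0` (`volume_regionBetween_eq_integral` or
`Measure.prod_apply`). -/
theorem vol_between (i : Fin 3) {a b : ℝ} (hab : a ≤ b) {f g : ℝ → ℝ}
    (hf : IntervalIntegrable f volume a b) (hg : IntervalIntegrable g volume a b) :
    volume {v : P | sI i v ∈ Ioo a b ∧ f (sI i v) < tI i v ∧ tI i v < g (sI i v)} =
      ENNReal.ofReal (∫ s in a..b, max (g s - f s) 0) := by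
  have hpre : (fun x : P => ptI i x.1 x.2) ⁻¹'
      {v : P | sI i v ∈ Ioo a b ∧ f (sI i v) < tI i v ∧ tI i v < g (sI i v)} =
      regionBetween f g (Ioo a b) := by
    ext x
    simp only [mem_preimage, mem_ofPred_eq, sI_ptI, tI_ptI, regionBetween, mem_Ioo]
  have hfI : IntegrableOn f (Ioo a b) := hf.1.mono_set Ioo_subset_Ioc_self
  have hgI : IntegrableOn g (Ioo a b) := hg.1.mono_set Ioo_subset_Ioc_self
  have hint : Integrable (fun s => max (g s - f s) 0) (volume.restrict (Ioo a b)) :=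
    (hgI.sub hfI).pos_part
  rw [← (mp_ptI i).measure_preimage_emb (me_ptI i), hpre, Measure.volume_eq_prod,
    volume_regionBetween_eq_lintegral hfI.aestronglyMeasurable.aemeasurable
      hgI.aestronglyMeasurable.aemeasurable measurableSet_Ioo,
    intervalIntegral.integral_of_le hab, integral_Ioc_eq_integral_Ioo,
    ofReal_integral_eq_lintegral_ofReal hint
      (Eventually.of_forall fun x => le_max_right _ _)]
  refine lintegral_congr fun x => ?_
  simp only [Pi.sub_apply]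
  rcases le_total (g x - f x) 0 with h1 | h1
  · rw [max_eq_right h1, ENNReal.ofReal_of_nonpos h1, ENNReal.ofReal_zero]
  · rw [max_eq_left h1]

/-- A point close to the side `i` from inside and not too close to the corners is in `T0`. -/
private theorem garea_T0 {ε : ℝ} (hε : 0 < ε) (i : Fin 3) {s t : ℝ}
    (hs : s ∈ Ioo (8 * √ε) (lenI i - 8 * √ε)) (ht : -(2 * √ε) < t) (ht0 : t < 0) :
    ptI i s t ∈ T0 := by
  have h0 := Real.sqrt_pos.2 hε
  have h3 : (1 : ℝ) < √3 := by
    rw [Real.lt_sqrt (by norm_num)]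
    norm_num
  have h3' : √3 < 2 := by
    rw [Real.sqrt_lt' (by norm_num)]
    norm_num
  have h33 : √3 * (√3 * t) = 3 * t := by
    rw [← mul_assoc, Real.mul_self_sqrt (by norm_num)]
  obtain ⟨hs1, hs2⟩ := hs
  rw [mem_T0_iff]
  intro j
  fin_cases i <;> fin_cases j <;> simp [lenI, tI, ptI] at hs1 hs2 ⊢ <;> nlinarith

/-- Proof. `V⁺`: `{v | sI i v ∈ J, 0 < tI i v < V (sI i v)} ⊆ D \ T0` (`mem_of_lt_VI`), so by
`vol_between` `∫ max V 0 ≤ ε`. `V⁻`: `{v | sI i v ∈ J, V (sI i v) < tI i v < 0} ⊆ T0 \ D`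
(`lt_VI_of_mem`; it lies in `T0` because `-2 √ε < V` and `sI i v ∈ J`, compare `base_mem`). -/
theorem integral_VI {D : Set P} {ε : ℝ} (hε : 0 < ε) (hε1 : ε ≤ 1 / 10 ^ 6) (h : Near ε D)
    (i : Fin 3) : ∫ s in (8 * √ε)..(lenI i - 8 * √ε), |VI D i s| ≤ 2 * ε := by
  have hab := garea_lt hε hε1 i
  have hI := integrable_VI hε hε1 h i
  have hsub : ∀ s, s ∈ Ioo (8 * √ε) (lenI i - 8 * √ε) → s ∈ JI i (8 * √ε) := fun s hs =>
    ⟨hs.1.le, hs.2.le⟩
  have hzero : IntervalIntegrable (fun _ : ℝ => (0 : ℝ)) volume (8 * √ε)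
      (lenI i - 8 * √ε) := intervalIntegrable_const
  have hpos : ∫ s in (8 * √ε)..(lenI i - 8 * √ε), max (VI D i s - 0) 0 ≤ ε := by
    have h1 := vol_between i hab.le hzero hI
    have h2 : {v : P | sI i v ∈ Ioo (8 * √ε) (lenI i - 8 * √ε) ∧ (0 : ℝ) < tI i v ∧
        tI i v < VI D i (sI i v)} ⊆ D \ T0 := by
      rintro v ⟨hv1, hv2, hv3⟩
      constructor
      · rw [← ptI_sI_tI i v]
        exact mem_of_lt_VI hε hε1 h (hsub _ hv1)
          (by have := Real.sqrt_nonneg ε; linarith) hv3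
      · intro hT
        exact absurd ((mem_T0_iff v).1 hT i) (not_lt.2 hv2.le)
    have h3 := (measure_mono h2).trans h.out
    rw [h1] at h3
    exact (ENNReal.ofReal_le_ofReal_iff hε.le).1 h3
  have hneg : ∫ s in (8 * √ε)..(lenI i - 8 * √ε), max (0 - VI D i s) 0 ≤ ε := by
    have h1 := vol_between i hab.le hI hzero
    have h2 : {v : P | sI i v ∈ Ioo (8 * √ε) (lenI i - 8 * √ε) ∧
        VI D i (sI i v) < tI i v ∧ tI i v < (0 : ℝ)} ⊆ T0 \ D := by
      rintro v ⟨hv1, hv2, hv3⟩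
      constructor
      · rw [← ptI_sI_tI i v]
        exact garea_T0 hε i hv1 ((VI_lower hε hε1 h (hsub _ hv1)).trans hv2) hv3
      · intro hD
        exact absurd (lt_VI_of_mem hε hε1 h i hD) (not_lt.2 hv2.le)
    have h3 := (measure_mono h2).trans h.inn
    rw [h1] at h3
    exact (ENNReal.ofReal_le_ofReal_iff hε.le).1 h3
  have hadd : ∫ s in (8 * √ε)..(lenI i - 8 * √ε), |VI D i s| =
      (∫ s in (8 * √ε)..(lenI i - 8 * √ε), max (VI D i s - 0) 0) +
        ∫ s in (8 * √ε)..(lenI i - 8 * √ε), max (0 - VI D i s) 0 := by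
    rw [← intervalIntegral.integral_add]
    · refine intervalIntegral.integral_congr fun s _ => ?_
      simp only [sub_zero, zero_sub]
      rcases le_total (VI D i s) 0 with h1 | h1
      · rw [abs_of_nonpos h1, max_eq_right h1, max_eq_left (by linarith), zero_add]
      · rw [abs_of_nonneg h1, max_eq_left h1, max_eq_right (by linarith), add_zero]
    · exact ⟨(hI.sub hzero).1.pos_part, (hI.sub hzero).2.pos_part⟩
    · exact ⟨(hzero.sub hI).1.pos_part, (hzero.sub hI).2.pos_part⟩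
  rw [hadd]
  linarith

end Pool.Agent.MP4eed4eI
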