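import Pool.Agent.Lib.MP_4eed4e_an_I.GArea

set_option autoImplicit false

/-!
Project I, block G: sharp bounds of the height functions.
-/

namespace Pool.Agent.MP4eed4eI

open Pool.Agent.MP4eed4eP MeasureTheory Set Filter Topology

private theorem GBd_e {ε : ℝ} (hε : 0 < ε) (hε1 : ε ≤ 1 / 10 ^ 6) :
    0 < √ε ∧ √ε ≤ 1 / 1000 := by
  refine ⟨Real.sqrt_pos.2 hε, ?_⟩
  rw [Real.sqrt_le_left (by norm_num)]
  refine hε1.trans (by norm_num)

private theorem GBd_J (i : Fin 3) (ε : ℝ) :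
    JI i (8 * √ε) = Icc (8 * √ε) (lenI i - 8 * √ε) := rfl

/-- Proof. `concave_upper` on `JI i (8 √ε)`, of length at least `1 - 16 √ε ≥ 0.98`, `m = 2 ε`. -/
theorem VI_le {D : Set P} {ε : ℝ} (hε : 0 < ε) (hε1 : ε ≤ 1 / 10 ^ 6) (h : Near ε D) {i : Fin 3}
    {s : ℝ} (hs : s ∈ JI i (8 * √ε)) : VI D i s ≤ 33 * ε := by
  obtain ⟨he, he1⟩ := GBd_e hε hε1
  obtain ⟨hl, -⟩ := lenI_bounds i
  have h1 := concave_upper (f := VI D i) (a := 8 * √ε) (b := lenI i - 8 * √ε) (m := 2 * ε)
    (s := s) (by linarith) (concave_VI hε hε1 h i) (integrable_VI hε hε1 h i)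
    (integral_VI hε hε1 h i) hs
  refine h1.trans ?_
  rw [div_le_iff₀ (by linarith)]
  have h2 : 32 ≤ 33 * (lenI i - 8 * √ε - 8 * √ε) := by linarith
  nlinarith [mul_le_mul_of_nonneg_left h2 hε.le]

/-- Proof. `concave_lower`; the distance to the ends of `JI i (8 √ε)` is at least `rI i s / 2`. -/
theorem VI_ge {D : Set P} {ε : ℝ} (hε : 0 < ε) (hε1 : ε ≤ 1 / 10 ^ 6) (h : Near ε D) {i : Fin 3}
    {s : ℝ} (hs : 16 * √ε ≤ rI i s) : -(4 * ε / rI i s) ≤ VI D i s := by
  obtain ⟨he, he1⟩ := GBd_e hε hε1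
  have h1 : 16 * √ε ≤ s := hs.trans (min_le_left _ _)
  have h2 : 16 * √ε ≤ lenI i - s := hs.trans (min_le_right _ _)
  have h3 := concave_lower (f := VI D i) (a := 8 * √ε) (b := lenI i - 8 * √ε) (m := 2 * ε)
    (s := s) (concave_VI hε hε1 h i) (integrable_VI hε hε1 h i)
    (integral_VI hε hε1 h i) ⟨by linarith, by linarith⟩
  refine le_trans ?_ h3
  have h4 : rI i s / 2 ≤ min (s - 8 * √ε) (lenI i - 8 * √ε - s) := by
    refine le_min ?_ ?_
    · have : rI i s ≤ s := min_le_left _ _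
      linarith
    · have : rI i s ≤ lenI i - s := min_le_right _ _
      linarith
  have h5 : 0 < rI i s := lt_of_lt_of_le (by linarith) hs
  rw [neg_le_neg_iff]
  calc 2 * ε / min (s - 8 * √ε) (lenI i - 8 * √ε - s) ≤ 2 * ε / (rI i s / 2) :=
        div_le_div_of_nonneg_left (by linarith) (by linarith) h4
    _ = 4 * ε / rI i s := by
        field_simp
        ring

/-- Proof. `concave_lip` with `d - 8 √ε ≥ d / 2`. -/
theorem VI_lip {D : Set P} {ε : ℝ} (hε : 0 < ε) (hε1 : ε ≤ 1 / 10 ^ 6) (h : Near ε D) {i : Fin 3}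
    {d : ℝ} (hd : 16 * √ε ≤ d) {s s' : ℝ} (hs : s ∈ JI i d) (hs' : s' ∈ JI i d) :
    |VI D i s - VI D i s'| ≤ 512 * ε / d ^ 2 * |s - s'| := by
  obtain ⟨he, he1⟩ := GBd_e hε hε1
  have hd0 : 0 < d := lt_of_lt_of_le (by linarith) hd
  have hd1 : d / 2 ≤ d - 8 * √ε := by linarith
  have h1 := concave_lip (f := VI D i) (a := 8 * √ε) (b := lenI i - 8 * √ε) (m := 2 * ε)
    (d := d - 8 * √ε) (s := s) (s' := s') (by linarith) (concave_VI hε hε1 h i)
    (integrable_VI hε hε1 h i) (integral_VI hε hε1 h i)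
    ⟨by linarith [hs.1], by linarith [hs.2]⟩ ⟨by linarith [hs'.1], by linarith [hs'.2]⟩
  refine h1.trans (mul_le_mul_of_nonneg_right ?_ (abs_nonneg _))
  calc 64 * (2 * ε) / (d - 8 * √ε) ^ 2 ≤ 64 * (2 * ε) / (d / 2) ^ 2 := by
        refine div_le_div_of_nonneg_left (by linarith) (by positivity) ?_
        exact pow_le_pow_left₀ (by linarith) hd1 2
    _ = 512 * ε / d ^ 2 := by
        field_simp
        ring

/-- Proof. `exists_support` at `s = lenI i / 2`: `V s ≤ 33 ε`, and at `s ± lenI i / 4` the values are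
at least `-16 ε`, so the slope is at most `196 ε` in absolute value. `|sI i v - s| ≤ 3` because all
`tI j v ≤ 1/100` (`tI_le_crude`, `sI_range` if `tI i v ≥ 0`; if `tI i v < 0` there is nothing to
prove). -/
theorem tI_le {D : Set P} {ε : ℝ} (hε : 0 < ε) (hε1 : ε ≤ 1 / 10 ^ 6) (h : Near ε D)
    {v : P} (hv : v ∈ D) (i : Fin 3) : tI i v ≤ 700 * ε := by
  obtain ⟨he, he1⟩ := GBd_e hε hε1
  obtain ⟨hl, hl2⟩ := lenI_bounds i
  by_cases h0 : tI i v < 0
  · linarith
  have h0 : 0 ≤ tI i v := not_lt.1 h0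
  have hs0 : lenI i / 2 ∈ JI i (8 * √ε) := ⟨by linarith, by linarith⟩
  obtain ⟨a, ha⟩ := exists_support hε hε1 h hs0
  have hV := VI_le hε hε1 h hs0
  have key : ∀ s1, s1 = lenI i / 4 ∨ s1 = 3 * lenI i / 4 →
      -(16 * ε) ≤ 33 * ε + a * (s1 - lenI i / 2) := by
    intro s1 hs1
    have hr : rI i s1 = lenI i / 4 := by
      unfold rI
      rcases hs1 with h1 | h1
      · rw [h1, min_eq_left (by linarith)]
      · rw [h1, min_eq_right (by linarith)]
        ring
    have hr2 : -(16 * ε) ≤ VI D i s1 := by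
      have h2 := VI_ge hε hε1 h (i := i) (s := s1) (by rw [hr]; linarith)
      rw [hr] at h2
      refine le_trans ?_ h2
      rw [neg_le_neg_iff, div_le_iff₀ (by linarith)]
      nlinarith [mul_le_mul_of_nonneg_left hl hε.le]
    have hs1' : s1 ∈ JI i (8 * √ε) := by
      rcases hs1 with h1 | h1
      · rw [h1]; exact ⟨by linarith, by linarith⟩
      · rw [h1]; exact ⟨by linarith, by linarith⟩
    have h3 : VI D i s1 ≤ VI D i (lenI i / 2) + a * (s1 - lenI i / 2) := by
      refine le_of_forall_lt fun c hc => ?_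
      have h4 : max c (-(2 * √ε)) < VI D i s1 := max_lt hc (VI_lower hε hε1 h hs1')
      have h5 := mem_of_lt_VI hε hε1 h hs1' (le_max_right _ _) h4
      have h6 := ha _ h5
      rw [tI_ptI, sI_ptI] at h6
      exact lt_of_le_of_lt (le_max_left _ _) h6
    linarith
  have k1 := key _ (Or.inl rfl)
  have k2 := key _ (Or.inr rfl)
  have k3 : a * lenI i ≤ 196 * ε := by nlinarith
  have k4 : -(196 * ε) ≤ a * lenI i := by nlinarith
  have hab : |a| ≤ 196 * ε := by
    rw [abs_le]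
    constructor
    · by_contra hc
      have hc := not_le.1 hc
      nlinarith
    · by_contra hc
      have hc := not_le.1 hc
      nlinarith
  have hr := sI_range i (v := v) (τ := 1 / 100) (a := 0) (by norm_num) le_rfl
    (fun j => (tI_le_crude hε hε1 h hv j).trans (by linarith)) (by linarith)
  have hb : |sI i v - lenI i / 2| ≤ 3 := by
    rw [abs_le]
    constructor <;> linarith [hr.1, hr.2]
  have h7 := ha v hv
  have h8 : a * (sI i v - lenI i / 2) ≤ 196 * ε * 3 := by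
    refine (le_abs_self _).trans ?_
    rw [abs_mul]
    exact mul_le_mul hab hb (abs_nonneg _) (by linarith)
  linarith

end Pool.Agent.MP4eed4eI
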