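import Pool.Agent.Lib.MP_4eed4e_an_I.GCo

set_option autoImplicit false

/-!
Project I, block G: crude estimates.
-/

namespace Pool.Agent.MP4eed4eI

open Pool.Agent.MP4eed4eP MeasureTheory Set Filter Topology

private theorem volume_ball_P (v : P) {r : ℝ} (hr : 0 ≤ r) :
    volume (Metric.closedBall v r) = ENNReal.ofReal ((2 * r) ^ 2) := by
  rw [← Prod.mk.eta (p := v), ← closedBall_prod_same, Measure.volume_eq_prod, Measure.prod_prod,
    Real.volume_closedBall, Real.volume_closedBall, ← ENNReal.ofReal_mul (by positivity), sq]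

/-- Proof. Suppose `v ∉ D`. Geometric Hahn-Banach (`geometric_hahn_banach_open_point`): a continuous
linear `f` with `f x < f v` for all `x ∈ D`. The closed ball (square) `B` around `v` with radius
`√ε` lies in `T0` (`abs_tI_sub`: `tI i x ≤ -2 √ε + 7/5 √ε < 0`). The reflection `x ↦ 2 v - x`
preserves `B` and the volume and exchanges `{f x ≥ f v}` with `{f x ≤ f v}`, so
`volume (B ∩ {f v ≤ f x}) ≥ volume B / 2 = 2 ε`; this set is contained in `T0 \ D`. -/
theorem mem_of_deep {D : Set P} {ε : ℝ} (hε : 0 < ε) (h : Near ε D) {v : P}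
    (hv : ∀ i, tI i v ≤ -(2 * √ε)) : v ∈ D := by
  by_contra hvD
  obtain ⟨f, hf⟩ := geometric_hahn_banach_open_point h.cv h.op hvD
  have hs : 0 < √ε := Real.sqrt_pos.2 hε
  have hB : Metric.closedBall v (√ε) ⊆ T0 := by
    intro x hx
    rw [mem_T0_iff]
    intro i
    have h1 := (abs_le.1 (abs_tI_sub i x v)).2
    have h2 : dist x v ≤ √ε := hx
    have h3 := hv i
    linarith
  have hvol : volume (Metric.closedBall v (√ε)) = ENNReal.ofReal (4 * ε) := by
    rw [volume_ball_P v hs.le, mul_pow, Real.sq_sqrt hε.le]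
    norm_num
  set A : Set P := Metric.closedBall v (√ε) ∩ {x | f v ≤ f x} with hA
  set A' : Set P := Metric.closedBall v (√ε) ∩ {x | f x ≤ f v} with hA'
  have hAT : A ⊆ T0 \ D := by
    rintro x ⟨hx, hx'⟩
    exact ⟨hB hx, fun hxD => absurd (hf x hxD) (not_lt.2 hx')⟩
  have hmA' : MeasurableSet A' :=
    Metric.isClosed_closedBall.measurableSet.inter
      (isClosed_le f.continuous continuous_const).measurableSet
  have hpre : (fun x : P => (2 : ℝ) • v - x) ⁻¹' A' = A := by
    ext x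
    have h1 : dist ((2 : ℝ) • v - x) v = dist x v := by
      rw [dist_eq_norm, dist_eq_norm, ← norm_neg (x - v)]
      congr 1
      rw [two_smul]
      abel
    simp only [hA, hA', mem_preimage, mem_inter_iff, Metric.mem_closedBall, h1, mem_ofPred_eq,
      map_sub, map_smul, smul_eq_mul]
    constructor
    · rintro ⟨h2, h3⟩
      exact ⟨h2, by linarith⟩
    · rintro ⟨h2, h3⟩
      exact ⟨h2, by linarith⟩
  have hAA : volume A = volume A' := by
    rw [← hpre]
    exact (Measure.measurePreserving_sub_left (volume : Measure P)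
      ((2 : ℝ) • v)).measure_preimage hmA'.nullMeasurableSet
  have hle : volume (Metric.closedBall v (√ε)) ≤ volume A + volume A' := by
    refine le_trans (measure_mono ?_) (measure_union_le A A')
    intro x hx
    rcases le_total (f v) (f x) with h1 | h1
    · exact Or.inl ⟨hx, h1⟩
    · exact Or.inr ⟨hx, h1⟩
  have hA2 : volume A ≤ ENNReal.ofReal ε := (measure_mono hAT).trans h.inn
  rw [hvol, ← hAA] at hle
  have h4 : ENNReal.ofReal (4 * ε) ≤ ENNReal.ofReal (2 * ε) := by
    refine hle.trans ((add_le_add hA2 hA2).trans ?_)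
    rw [← ENNReal.ofReal_add hε.le hε.le, two_mul]
  rw [ENNReal.ofReal_le_ofReal_iff (by linarith)] at h4
  linarith

/-- Proof. Let `c0 = (27/20, 7/20)`, `S` = closed ball (square) around `c0` of radius `1/20`:
`S ⊆ D` (`mem_of_deep`), `-23/50 ≤ tI i x` on `S`. Let `q ∈ D`, `τ = tI i q > 0`,
`lam = τ / (2 (23/50 + τ)) < 1`. The set `q + lam (S - q)` is contained in `D` and there
`tI i ≥ τ - lam (23/50 + τ) = τ / 2 > 0`, so it is disjoint from `T0`; its area is `lam² / 100 ≤ ε`.
So `lam ≤ 10 √ε`, `τ ≤ 20 √ε (23/50 + τ)`, and `√ε ≤ 1/1000`. -/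
theorem tI_le_crude {D : Set P} {ε : ℝ} (hε : 0 < ε) (hε1 : ε ≤ 1 / 10 ^ 6) (h : Near ε D)
    {v : P} (hv : v ∈ D) (i : Fin 3) : tI i v ≤ 10 * √ε := by
  have hs : 0 < √ε := Real.sqrt_pos.2 hε
  have hs1 : √ε ≤ 1 / 1000 := by
    rw [Real.sqrt_le_left (by norm_num)]
    refine hε1.trans_eq ?_
    norm_num
  have h3a : (1732 : ℝ) / 1000 < √3 := Real.lt_sqrt_of_sq_lt (by norm_num)
  have h3b : √3 < (17321 : ℝ) / 10000 := by
    rw [Real.sqrt_lt' (by norm_num)]
    norm_num
  set c0 : P := ((27 : ℝ) / 20, (7 : ℝ) / 20) with hc0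
  have key : ∀ x : P, dist x c0 ≤ 1 / 20 → ∀ j, tI j x ≤ -(3 / 10) ∧ -(23 / 50) ≤ tI j x := by
    intro x hx j
    rw [Prod.dist_eq, max_le_iff, Real.dist_eq, Real.dist_eq, abs_le, abs_le] at hx
    obtain ⟨⟨h1, h2⟩, h3, h4⟩ := hx
    simp only [hc0] at h1 h2 h3 h4
    fin_cases j
    · change -x.2 ≤ -(3 / 10) ∧ -(23 / 50) ≤ -x.2
      constructor <;> linarith
    · change x.1 - √3 ≤ -(3 / 10) ∧ -(23 / 50) ≤ x.1 - √3
      constructor <;> linarith
    · change (-x.1 + √3 * x.2) / 2 ≤ -(3 / 10) ∧ -(23 / 50) ≤ (-x.1 + √3 * x.2) / 2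
      constructor <;> nlinarith
  have hSD : ∀ x : P, dist x c0 ≤ 1 / 20 → x ∈ D := by
    intro x hx
    refine mem_of_deep hε h fun j => ?_
    have := (key x hx j).1
    linarith
  by_contra hcon
  push Not at hcon
  set τ := tI i v with hτ
  have hτ0 : 0 < τ := by linarith
  set lam : ℝ := τ / (2 * (23 / 50 + τ)) with hlam
  have hden : 0 < 2 * (23 / 50 + τ) := by linarith
  have hlam0 : 0 < lam := div_pos hτ0 hden
  have hlam1 : lam < 1 := by
    rw [hlam, div_lt_one hden]
    linarith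
  have hlam2 : lam * (2 * (23 / 50 + τ)) = τ := div_mul_cancel₀ _ hden.ne'
  have hsub : Metric.closedBall ((1 - lam) • v + lam • c0) (lam / 20) ⊆ D \ T0 := by
    intro y hy
    have hy' : dist y ((1 - lam) • v + lam • c0) ≤ lam / 20 := hy
    set x : P := lam⁻¹ • (y - (1 - lam) • v) with hx
    have hyx : (1 - lam) • v + lam • x = y := by
      rw [hx, smul_smul, mul_inv_cancel₀ hlam0.ne', one_smul]
      abel
    have hxd : dist x c0 ≤ 1 / 20 := by
      have h1 : dist y ((1 - lam) • v + lam • c0) = lam * dist x c0 := by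
        rw [← hyx, dist_add_left, dist_smul₀, Real.norm_eq_abs, abs_of_pos hlam0]
      rw [h1] at hy'
      have : lam * dist x c0 ≤ lam * (1 / 20) := by linarith
      exact le_of_mul_le_mul_left this hlam0
    refine ⟨?_, fun hyT => ?_⟩
    · rw [← hyx]
      exact h.cv hv (hSD x hxd) (by linarith) hlam0.le (by ring)
    · have h1 := (mem_T0_iff y).1 hyT i
      rw [← hyx, tI_comb i (by ring)] at h1
      have h2 := (key x hxd i).2
      have h3 : lam * -(23 / 50) ≤ lam * tI i x := mul_le_mul_of_nonneg_left h2 hlam0.le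
      rw [← hτ] at h1
      nlinarith
  have hvol := (measure_mono hsub).trans h.out
  rw [volume_ball_P _ (by positivity), ENNReal.ofReal_le_ofReal_iff hε.le] at hvol
  have hl10 : lam ≤ 10 * √ε := by
    have h1 : (2 * (lam / 20)) ^ 2 ≤ √ε ^ 2 := by rwa [Real.sq_sqrt hε.le]
    have h2 := (pow_le_pow_iff_left₀ (by positivity) hs.le two_ne_zero).1 h1
    linarith
  nlinarith

end Pool.Agent.MP4eed4eI
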