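import Pool.Agent.Lib.MP_4eed4e_an_I.GBd

set_option autoImplicit false

/-!
Project I, block G: the part of the triangle outside the domain.
-/

namespace Pool.Agent.MP4eed4eI

open Pool.Agent.MP4eed4eP MeasureTheory Set Filter Topology

private theorem GInn_geo {d a : ℝ} (hd : 0 < d) (ha : a ≤ d / 16) (i j : Fin 3) (hij : i ≠ j)
    {v : P} (h1 : d < sI i v) (h2 : sI i v < lenI i - d) (h3 : -a < tI i v) (h4 : tI i v < 0) :
    tI j v ≤ -(d / 4) := by
  have hs : (√3 : ℝ) ^ 2 = 3 := Real.sq_sqrt (by norm_num)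
  have hs0 : (0 : ℝ) ≤ √3 := Real.sqrt_nonneg _
  have hs1 : (1 : ℝ) ≤ √3 := Real.one_le_sqrt.2 (by norm_num)
  have hs2 : √3 ≤ 2 := by
    rw [Real.sqrt_le_left (by norm_num)]
    norm_num
  obtain ⟨x, y⟩ := v
  fin_cases i <;> fin_cases j <;> simp [sI, tI, lenI] at hij h1 h2 h3 h4 ⊢
  · linarith
  · have : √3 * y ≤ 2 * (d / 16) := mul_le_mul hs2 (by linarith) (by linarith) (by norm_num)
    linarith
  · linarith
  · have h5 : √3 * y ≤ √3 * (1 - d) := mul_le_mul_of_nonneg_left (by linarith) hs0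
    have h6 : d ≤ √3 * d := by nlinarith
    nlinarith
  · nlinarith
  · nlinarith

/-- Proof. The three sets `{v | sI i v ∈ Ioo d (lenI i - d), VI D i (sI i v) < tI i v < 0}` are
contained in `T0 \ D` (`lt_VI_of_mem`; `-(4 ε / d) ≤ VI`, so `tI i v` is small and, since
`sI i v ∈ JI i d`, the other `tI j v` are negative, at most `-d / 4`), and they are pairwise
disjoint for the same reason. `vol_between`, `Near.inn`. -/
theorem vol_inn {d : ℝ} (hd : 0 < d) (hd1 : d ≤ 1 / 4) : ∃ ε1 : ℝ, 0 < ε1 ∧ ε1 ≤ 1 / 10 ^ 6 ∧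
    ∀ (ε : ℝ) (D : Set P), 0 < ε → ε ≤ ε1 → Near ε D →
    ∑ i, (∫ s in d..(lenI i - d), max (-VI D i s) 0) ≤ ε := by
  refine ⟨min (1 / 10 ^ 6) (d ^ 2 / 256), by positivity, min_le_left _ _, ?_⟩
  intro ε D hε hεe h
  have hε1 : ε ≤ 1 / 10 ^ 6 := hεe.trans (min_le_left _ _)
  have hε2 : ε ≤ d ^ 2 / 256 := hεe.trans (min_le_right _ _)
  have hsq : 16 * √ε ≤ d := by
    have h1 : √ε ≤ d / 16 := by
      rw [Real.sqrt_le_left (by positivity)]
      calc ε ≤ d ^ 2 / 256 := hε2
        _ = (d / 16) ^ 2 := by ring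
    linarith
  have hsq0 : 0 ≤ √ε := Real.sqrt_nonneg _
  have hle : ∀ i, d ≤ lenI i - d := fun i => by
    have := (lenI_bounds i).1
    linarith
  have h4 : 4 * ε / d ≤ d / 64 := by
    rw [div_le_iff₀ hd]
    nlinarith
  -- the separating sets
  set B : Fin 3 → Set P := fun i => {v | sI i v ∈ Ioo d (lenI i - d) ∧ tI i v ∈ Ioo (-(d / 16)) 0}
    with hB
  set S : Fin 3 → Set P := fun i =>
    {v | sI i v ∈ Ioo d (lenI i - d) ∧ VI D i (sI i v) < tI i v ∧
      tI i v < (fun _ => (0 : ℝ)) (sI i v)}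
    with hS
  have hBm : ∀ i, MeasurableSet (B i) := fun i =>
    ((isOpen_Ioo.preimage (continuous_sI i)).inter
      (isOpen_Ioo.preimage (continuous_tI i))).measurableSet
  have hBd : ∀ i j, i ≠ j → Disjoint (B i) (B j) := by
    intro i j hij
    rw [Set.disjoint_left]
    rintro v ⟨hv1, hv2⟩ ⟨hw1, hw2⟩
    have := GInn_geo hd le_rfl i j hij hv1.1 hv1.2 hv2.1 hv2.2
    linarith [hw2.1]
  have hT0 : MeasurableSet T0 := by
    have : T0 = ⋂ i, {v | tI i v < 0} := by
      ext v
      rw [mem_iInter]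
      exact mem_T0_iff v
    rw [this]
    exact MeasurableSet.iInter fun i => (isOpen_Iio.preimage (continuous_tI i)).measurableSet
  have hSB : ∀ i, S i ⊆ (T0 \ D) ∩ B i := by
    intro i v hv
    obtain ⟨hv1, hv2, hv3⟩ := hv
    have hv3 : tI i v < 0 := hv3
    have hr : d ≤ rI i (sI i v) := le_min hv1.1.le (by linarith [hv1.2])
    have h5 := VI_ge hε hε1 h (hsq.trans hr)
    have h6 : 4 * ε / rI i (sI i v) ≤ 4 * ε / d :=
      div_le_div_of_nonneg_left (by linarith) hd hr
    have h7 : -(d / 16) < tI i v := by linarith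
    refine ⟨⟨?_, fun hvD => ?_⟩, hv1, h7, hv3⟩
    · rw [mem_T0_iff]
      intro j
      rcases eq_or_ne i j with rfl | hij
      · exact hv3
      · have := GInn_geo hd le_rfl i j hij hv1.1 hv1.2 h7 hv3
        linarith
    · exact absurd (lt_VI_of_mem hε hε1 h i hvD) (not_lt.2 hv2.le)
  have hvol : ∀ i, volume (S i) = ENNReal.ofReal (∫ s in d..(lenI i - d), max (-VI D i s) 0) := by
    intro i
    have hsub : uIcc d (lenI i - d) ⊆ uIcc (8 * √ε) (lenI i - 8 * √ε) := by
      rw [uIcc_of_le (hle i), uIcc_of_le (by linarith [hle i])]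
      exact Icc_subset_Icc (by linarith) (by linarith)
    have := vol_between i (hle i) (f := VI D i) (g := fun _ => (0 : ℝ))
      ((integrable_VI hε hε1 h i).mono_set hsub) intervalIntegrable_const
    rw [this]
    simp only [zero_sub]
  have hnn : ∀ i, 0 ≤ ∫ s in d..(lenI i - d), max (-VI D i s) 0 := fun i =>
    intervalIntegral.integral_nonneg (hle i) fun s _ => le_max_right _ _
  have hsum : ∑ i, volume (S i) ≤ ENNReal.ofReal ε := by
    calc ∑ i, volume (S i) ≤ ∑ i, volume ((T0 \ D) ∩ B i) :=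
          Finset.sum_le_sum fun i _ => measure_mono (hSB i)
      _ = volume (⋃ i ∈ (Finset.univ : Finset (Fin 3)), (T0 \ D) ∩ B i) := by
          rw [measure_biUnion_finset]
          · intro i _ j _ hij
            exact (hBd i j hij).mono inter_subset_right inter_subset_right
          · intro i _
            exact (hT0.diff h.op.measurableSet).inter (hBm i)
      _ ≤ volume (T0 \ D) := by
          refine measure_mono ?_
          intro v hv
          simp only [mem_iUnion] at hv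
          obtain ⟨i, _, hv⟩ := hv
          exact hv.1
      _ ≤ ENNReal.ofReal ε := h.inn
  rw [← ENNReal.ofReal_le_ofReal_iff hε.le, ENNReal.ofReal_sum_of_nonneg fun i _ => hnn i]
  refine le_trans (le_of_eq ?_) hsum
  exact Finset.sum_congr rfl fun i _ => (hvol i).symm

end Pool.Agent.MP4eed4eI
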