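import Pool.Agent.Lib.MP_4eed4e_an_I.GBd

set_option autoImplicit false

/-!
Project I, block G: the part of the domain outside a nearby triangle.
-/

namespace Pool.Agent.MP4eed4eI

open Pool.Agent.MP4eed4eP MeasureTheory Set Filter Topology

private theorem GOut_null (i : Fin 3) (c a : ℝ) :
    volume {v : P | tI i v = c + a * sI i v} = 0 := by
  have hm : MeasurableSet {v : P | tI i v = c + a * sI i v} :=
    (isClosed_eq (continuous_tI i)
      (continuous_const.add (continuous_const.mul (continuous_sI i)))).measurableSet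
  rw [← (mp_ptI i).measure_preimage hm.nullMeasurableSet]
  have h1 : (fun x : P => ptI i x.1 x.2) ⁻¹' {v : P | tI i v = c + a * sI i v} =
      {x : ℝ × ℝ | x.2 = c + a * x.1} := by
    ext x
    simp only [mem_preimage, Set.mem_ofPred_eq, tI_ptI, sI_ptI]
  have hm' : MeasurableSet {x : ℝ × ℝ | x.2 = c + a * x.1} :=
    (isClosed_eq continuous_snd
      (continuous_const.add (continuous_const.mul continuous_fst))).measurableSet
  rw [h1, Measure.volume_eq_prod, Measure.measure_prod_null hm']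
  refine Eventually.of_forall fun x => ?_
  have h2 : Prod.mk x ⁻¹' {x : ℝ × ℝ | x.2 = c + a * x.1} = {c + a * x} := by
    ext y
    simp only [mem_preimage, Set.mem_ofPred_eq, mem_singleton_iff]
  show volume (Prod.mk x ⁻¹' {x : ℝ × ℝ | x.2 = c + a * x.1}) = 0
  rw [h2, Real.volume_singleton]

private theorem GOut_rect (i : Fin 3) (p q p' q' : ℝ) :
    volume {v : P | sI i v ∈ Icc p q ∧ tI i v ∈ Icc p' q'} =
      ENNReal.ofReal (q - p) * ENNReal.ofReal (q' - p') := by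
  have hm : MeasurableSet {v : P | sI i v ∈ Icc p q ∧ tI i v ∈ Icc p' q'} :=
    ((isClosed_Icc.preimage (continuous_sI i)).inter
      (isClosed_Icc.preimage (continuous_tI i))).measurableSet
  rw [← (mp_ptI i).measure_preimage hm.nullMeasurableSet]
  have h1 : (fun x : P => ptI i x.1 x.2) ⁻¹'
      {v : P | sI i v ∈ Icc p q ∧ tI i v ∈ Icc p' q'} = Icc p q ×ˢ Icc p' q' := by
    ext x
    simp only [mem_preimage, Set.mem_ofPred_eq, tI_ptI, sI_ptI, mem_prod]
  rw [h1, Measure.volume_eq_prod, Measure.prod_prod, Real.volume_Icc, Real.volume_Icc]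

private theorem GOut_sI {v : P} {τ : ℝ} (hτ : 0 ≤ τ) (hτ1 : τ ≤ 1 / 1000)
    (h : ∀ j, tI j v ≤ τ) (i : Fin 3) : |sI i v| ≤ 3 := by
  have a1 : -v.2 ≤ τ := h 0
  have a2 : v.1 - √3 ≤ τ := h 1
  have a3 : (-v.1 + √3 * v.2) / 2 ≤ τ := h 2
  have s1 : √3 * √3 = 3 := Real.mul_self_sqrt (by norm_num)
  have s2 : 0 ≤ √3 := Real.sqrt_nonneg 3
  have s3 : √3 ≤ 7 / 4 := by nlinarith
  have s4 : 1 ≤ √3 := by nlinarith
  have b4 : -1 ≤ v.2 := by linarith
  have b1 : v.1 ≤ 2 := by linarith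
  have b2 : -1 ≤ v.1 := by nlinarith
  have b3 : v.2 ≤ 2 := by
    by_contra hcon
    push Not at hcon
    nlinarith
  rw [abs_le]
  fin_cases i
  · show -3 ≤ v.1 ∧ v.1 ≤ 3
    constructor <;> linarith
  · show -3 ≤ v.2 ∧ v.2 ≤ 3
    constructor <;> linarith
  · show -3 ≤ (√3 * v.1 + v.2) / 2 ∧ (√3 * v.1 + v.2) / 2 ≤ 3
    constructor <;> nlinarith

/-- Proof. Let `v ∈ D` with `c i + a i * sI i v ≤ tI i v`. `|sI i v| ≤ 3`, so
`-(4 C1 ε) ≤ tI i v ≤ 700 ε`. If `sI i v ∈ JI i (8 √ε)` then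
`c i + a i * sI i v ≤ tI i v < VI D i (sI i v)` (`lt_VI_of_mem`): `vol_between` (up to a null set,
the line or graph `tI = c + a sI`). Otherwise, by `sI_range` (`τ = 700 ε`), `sI i v` lies in one of
two
intervals of length `≤ 8 √ε + C' ε` at the ends, and `tI i v` in an interval of length `C' ε`: a
rectangle of area `≤ C'' ε √ε` (`mp_ptI`). Sum over the three sides. -/
theorem vol_out (C1 : ℝ) (hC1 : 0 ≤ C1) : ∃ C : ℝ, 0 < C ∧ ∀ (ε : ℝ) (D : Set P) (c a : Fin 3 → ℝ),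
    0 < ε → ε ≤ 1 / 10 ^ 6 → Near ε D → (∀ i, |c i| ≤ C1 * ε) → (∀ i, |a i| ≤ C1 * ε) →
    volume {v | v ∈ D ∧ ∃ i, c i + a i * sI i v ≤ tI i v} ≤ ENNReal.ofReal
      (∑ i, (∫ s in (8 * √ε)..(lenI i - 8 * √ε), max (VI D i s - (c i + a i * s)) 0) +
        C * (ε * √ε)) := by
  obtain ⟨C', hC'⟩ : ∃ C' : ℝ, C' = 2800 + 8 * C1 := ⟨_, rfl⟩
  have hC'0 : 0 ≤ C' := by rw [hC']; linarith
  refine ⟨6 * ((8 + C') * (700 + 4 * C1)), by positivity, fun ε D c a hε hε1 h hc ha => ?_⟩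
  obtain ⟨r, hr⟩ : ∃ r : ℝ, r = √ε := ⟨_, rfl⟩
  have hr0 : 0 < r := by rw [hr]; exact Real.sqrt_pos.2 hε
  have hr2 : r * r = ε := by rw [hr]; exact Real.mul_self_sqrt hε.le
  have hr1 : r ≤ 1 / 1000 := by
    by_contra hcon
    push Not at hcon
    nlinarith
  have hεr : ε ≤ r := by nlinarith
  rw [← hr]
  have hI : ∀ i, 0 ≤ ∫ s in (8 * r)..(lenI i - 8 * r), max (VI D i s - (c i + a i * s)) 0 := by
    intro i
    refine intervalIntegral.integral_nonneg ?_ fun s _ => le_max_right _ _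
    have := (lenI_bounds i).1
    linarith
  -- the pieces
  have hpt : ∀ v ∈ D, ∀ i, c i + a i * sI i v ≤ tI i v →
      -(4 * C1 * ε) ≤ tI i v ∧ tI i v ≤ 700 * ε ∧ -(C' * ε) ≤ sI i v ∧
        sI i v ≤ lenI i + C' * ε := by
    intro v hv i hi
    have h1 : ∀ j, tI j v ≤ 700 * ε := fun j => tI_le hε hε1 h hv j
    have h2 := GOut_sI (by linarith : 0 ≤ 700 * ε) (by linarith) h1 i
    have h3 : -(4 * C1 * ε) ≤ tI i v := by
      have e1 := (abs_le.1 (hc i)).1
      have e2 : |a i * sI i v| ≤ C1 * ε * 3 := by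
        rw [abs_mul]
        exact mul_le_mul (ha i) h2 (abs_nonneg _) (by positivity)
      have e3 := (abs_le.1 e2).1
      linarith
    have h4 := sI_range i (by linarith : 0 ≤ 700 * ε) (by positivity : 0 ≤ 4 * C1 * ε) h1 h3
    refine ⟨h3, h1 i, ?_, ?_⟩
    · rw [hC']
      linarith [h4.1]
    · rw [hC']
      linarith [h4.2]
  have hsub : {v | v ∈ D ∧ ∃ i, c i + a i * sI i v ≤ tI i v} ⊆ ⋃ i : Fin 3,
      ({v : P | sI i v ∈ Ioo (8 * r) (lenI i - 8 * r) ∧ c i + a i * sI i v < tI i v ∧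
        tI i v < VI D i (sI i v)} ∪ {v : P | tI i v = c i + a i * sI i v}) ∪
      ({v : P | sI i v ∈ Icc (-(C' * ε)) (8 * r) ∧ tI i v ∈ Icc (-(4 * C1 * ε)) (700 * ε)} ∪
        {v : P | sI i v ∈ Icc (lenI i - 8 * r) (lenI i + C' * ε) ∧
          tI i v ∈ Icc (-(4 * C1 * ε)) (700 * ε)}) := by
    rintro v ⟨hv, i, hi⟩
    obtain ⟨h1, h2, h3, h4⟩ := hpt v hv i hi
    refine mem_iUnion.2 ⟨i, ?_⟩
    by_cases h5 : sI i v ≤ 8 * r
    · exact Or.inr (Or.inl ⟨⟨h3, h5⟩, ⟨h1, h2⟩⟩)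
    by_cases h6 : lenI i - 8 * r ≤ sI i v
    · exact Or.inr (Or.inr ⟨⟨h6, h4⟩, ⟨h1, h2⟩⟩)
    push Not at h5 h6
    refine Or.inl ?_
    rcases hi.lt_or_eq with h7 | h7
    · exact Or.inl ⟨⟨h5, h6⟩, h7, lt_VI_of_mem hε hε1 h i hv⟩
    · exact Or.inr h7.symm
  have hK : ∀ i, volume ({v : P | sI i v ∈ Icc (-(C' * ε)) (8 * r) ∧
      tI i v ∈ Icc (-(4 * C1 * ε)) (700 * ε)} ∪
        {v : P | sI i v ∈ Icc (lenI i - 8 * r) (lenI i + C' * ε) ∧
          tI i v ∈ Icc (-(4 * C1 * ε)) (700 * ε)}) ≤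
      ENNReal.ofReal (2 * ((8 + C') * (700 + 4 * C1)) * (ε * r)) := by
    intro i
    refine (measure_union_le _ _).trans ?_
    rw [GOut_rect, GOut_rect, ← ENNReal.ofReal_mul (by nlinarith), ← ENNReal.ofReal_mul
      (by nlinarith), ← ENNReal.ofReal_add (by
        refine mul_nonneg ?_ ?_ <;> nlinarith) (by refine mul_nonneg ?_ ?_ <;> nlinarith)]
    refine ENNReal.ofReal_le_ofReal ?_
    have e1 : 8 * r - -(C' * ε) ≤ (8 + C') * r := by nlinarith
    have e2 : lenI i + C' * ε - (lenI i - 8 * r) ≤ (8 + C') * r := by nlinarith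
    have e3 : 700 * ε - -(4 * C1 * ε) = (700 + 4 * C1) * ε := by ring
    rw [e3]
    have e4 : 0 ≤ (700 + 4 * C1) * ε := by positivity
    have e5 := mul_le_mul_of_nonneg_right e1 e4
    have e6 := mul_le_mul_of_nonneg_right e2 e4
    calc _ ≤ (8 + C') * r * ((700 + 4 * C1) * ε) + (8 + C') * r * ((700 + 4 * C1) * ε) :=
        add_le_add e5 e6
      _ = _ := by ring
  have hB : ∀ i, volume ({v : P | sI i v ∈ Ioo (8 * r) (lenI i - 8 * r) ∧
      c i + a i * sI i v < tI i v ∧ tI i v < VI D i (sI i v)} ∪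
        {v : P | tI i v = c i + a i * sI i v}) ≤
      ENNReal.ofReal (∫ s in (8 * r)..(lenI i - 8 * r),
        max (VI D i s - (c i + a i * s)) 0) := by
    intro i
    refine (measure_union_le _ _).trans ?_
    rw [GOut_null, add_zero]
    have h1 : IntervalIntegrable (fun s : ℝ => c i + a i * s) volume (8 * r)
        (lenI i - 8 * r) :=
      (continuous_const.add (continuous_const.mul continuous_id)).intervalIntegrable _ _
    have h2 := integrable_VI hε hε1 h i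
    rw [← hr] at h2
    have h3 : 8 * r ≤ lenI i - 8 * r := by
      have := (lenI_bounds i).1
      linarith
    exact (vol_between i h3 h1 h2).le
  refine (measure_mono hsub).trans ((measure_iUnion_le _).trans ?_)
  rw [tsum_fintype]
  refine (Finset.sum_le_sum fun i _ => (measure_union_le _ _).trans
    (add_le_add (hB i) (hK i))).trans ?_
  have hK0 : 0 ≤ 2 * ((8 + C') * (700 + 4 * C1)) * (ε * r) := by positivity
  rw [Finset.sum_congr rfl (fun i _ => (ENNReal.ofReal_add (hI i) hK0).symm),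
    ← ENNReal.ofReal_sum_of_nonneg (fun i _ => add_nonneg (hI i) hK0)]
  refine ENNReal.ofReal_le_ofReal (le_of_eq ?_)
  rw [Finset.sum_add_distrib, Finset.sum_const, Finset.card_univ, Fintype.card_fin,
    nsmul_eq_mul]
  push_cast
  ring

end Pool.Agent.MP4eed4eI
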