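import Pool.Agent.Lib.MP_4eed4e_an_I.GDeep

set_option autoImplicit false

/-!
Project I, block G: the height functions.
-/

namespace Pool.Agent.MP4eed4eI

open Pool.Agent.MP4eed4eP MeasureTheory Set Filter Topology

private theorem GSec_s3 : (17 / 10 : ℝ) ≤ √3 ∧ √3 ≤ 18 / 10 := by
  constructor
  · exact Real.le_sqrt_of_sq_le (by norm_num)
  · rw [Real.sqrt_le_left (by norm_num)]
    norm_num

/-- Proof. `mem_of_deep`: `tI i` is `-2 √ε`; for `j ≠ i` compute `tI j (ptI i s t)`, e.g.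
`tI 2 (ptI 0 s (-d)) = (-s + √3 d) / 2 ≤ -d` if `s ≥ (2 + √3) d`, here `d = 2 √ε`, `s ≥ 8 √ε`. -/
theorem base_mem {D : Set P} {ε : ℝ} (hε : 0 < ε) (hε1 : ε ≤ 1 / 10 ^ 6) (h : Near ε D) {i : Fin 3}
    {s : ℝ} (hs : s ∈ JI i (8 * √ε)) : ptI i s (-(2 * √ε)) ∈ D := by
  obtain ⟨h1, h2⟩ := GSec_s3
  have h3 : √3 * √3 = 3 := Real.mul_self_sqrt (by norm_num)
  have hd : 0 < √ε := Real.sqrt_pos.2 hε
  refine mem_of_deep hε h fun j => ?_
  obtain ⟨ha, hb⟩ := hs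
  generalize √ε = d at ha hb hd ⊢
  have h4 : √3 * d ≤ 18 / 10 * d := mul_le_mul_of_nonneg_right h2 hd.le
  have h5 : 17 / 10 * s ≤ √3 * s := mul_le_mul_of_nonneg_right h1 (by linarith)
  fin_cases i <;> fin_cases j <;> simp [ptI, tI, lenI] at ha hb ⊢ <;> nlinarith

theorem bdd_VI {D : Set P} {ε : ℝ} (hε : 0 < ε) (hε1 : ε ≤ 1 / 10 ^ 6) (h : Near ε D) (i : Fin 3)
    (s : ℝ) : BddAbove {t | ptI i s t ∈ D} := by
  refine ⟨10 * √ε, fun t ht => ?_⟩
  have h1 := tI_le_crude hε hε1 h ht i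
  rwa [tI_ptI] at h1

/-- Proof. `D` is open, so `ptI i (sI i v) t ∈ D` for some `t > tI i v`; `le_csSup`. -/
private theorem GSec_lt {D : Set P} {ε : ℝ} (hε : 0 < ε) (hε1 : ε ≤ 1 / 10 ^ 6) (h : Near ε D)
    (i : Fin 3) {v : P} (hv : v ∈ D) : tI i v < VI D i (sI i v) := by
  have hcont : Continuous fun t : ℝ => ptI i (sI i v) t :=
    (continuous_ptI i).comp (by fun_prop : Continuous fun t : ℝ => ((sI i v, t) : P))
  have h0 : (fun t : ℝ => ptI i (sI i v) t) (tI i v) ∈ D := by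
    change ptI i (sI i v) (tI i v) ∈ D
    rw [ptI_sI_tI]
    exact hv
  have h1 : ∀ᶠ t in 𝓝 (tI i v), ptI i (sI i v) t ∈ D :=
    hcont.continuousAt.eventually (h.op.mem_nhds h0)
  obtain ⟨δ, hδ, h2⟩ := Metric.eventually_nhds_iff.1 h1
  have h3 : ptI i (sI i v) (tI i v + δ / 2) ∈ D := h2 (by
    rw [Real.dist_eq, add_sub_cancel_left, abs_of_pos (by positivity)]
    linarith)
  have h4 : tI i v + δ / 2 ≤ VI D i (sI i v) := le_csSup (bdd_VI hε hε1 h i (sI i v)) h3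
  linarith

theorem VI_lower {D : Set P} {ε : ℝ} (hε : 0 < ε) (hε1 : ε ≤ 1 / 10 ^ 6) (h : Near ε D) {i : Fin 3}
    {s : ℝ} (hs : s ∈ JI i (8 * √ε)) : -(2 * √ε) < VI D i s := by
  have h1 := GSec_lt hε hε1 h i (base_mem hε hε1 h hs)
  rwa [tI_ptI, sI_ptI] at h1

theorem VI_upper {D : Set P} {ε : ℝ} (hε : 0 < ε) (hε1 : ε ≤ 1 / 10 ^ 6) (h : Near ε D) {i : Fin 3}
    {s : ℝ} (hs : s ∈ JI i (8 * √ε)) : VI D i s ≤ 10 * √ε := by
  refine csSup_le ⟨_, base_mem hε hε1 h hs⟩ fun t ht => ?_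
  have h1 := tI_le_crude hε hε1 h ht i
  rwa [tI_ptI] at h1

/-- Proof. Some `t' > t` has `ptI i s t' ∈ D` (`exists_lt_of_lt_csSup`); convexity with `base_mem`
(`ptI_comb`). -/
theorem mem_of_lt_VI {D : Set P} {ε : ℝ} (hε : 0 < ε) (hε1 : ε ≤ 1 / 10 ^ 6) (h : Near ε D)
    {i : Fin 3} {s : ℝ} (hs : s ∈ JI i (8 * √ε)) {t : ℝ} (ht : -(2 * √ε) ≤ t)
    (ht' : t < VI D i s) : ptI i s t ∈ D := by
  have hb := base_mem hε hε1 h hs
  obtain ⟨t', ht1, ht2⟩ := exists_lt_of_lt_csSup (s := {t | ptI i s t ∈ D}) ⟨_, hb⟩ ht'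
  have ht1' : ptI i s t' ∈ D := ht1
  have hpos : 0 < t' + 2 * √ε := by linarith
  have hb0 : 0 ≤ (t + 2 * √ε) / (t' + 2 * √ε) := div_nonneg (by linarith) hpos.le
  have hb1 : (t + 2 * √ε) / (t' + 2 * √ε) ≤ 1 := by
    rw [div_le_one hpos]
    linarith
  have h2 := h.cv hb ht1' (sub_nonneg.2 hb1) hb0 (sub_add_cancel _ _)
  rw [← ptI_comb i (sub_add_cancel _ _), ← add_mul, sub_add_cancel, one_mul] at h2
  have h3 : (1 - (t + 2 * √ε) / (t' + 2 * √ε)) * -(2 * √ε) +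
      (t + 2 * √ε) / (t' + 2 * √ε) * t' = t := by
    field_simp
    ring
  rwa [h3] at h2

/-- Proof. `D` is open, so `ptI i (sI i v) t ∈ D` for some `t > tI i v`; `le_csSup`. -/
theorem lt_VI_of_mem {D : Set P} {ε : ℝ} (hε : 0 < ε) (hε1 : ε ≤ 1 / 10 ^ 6) (h : Near ε D)
    (i : Fin 3) {v : P} (hv : v ∈ D) : tI i v < VI D i (sI i v) :=
  GSec_lt hε hε1 h i hv

/-- Proof. Take `t < VI s`, `t' < VI s'` in the sections (nonempty by `base_mem`); `ptI_comb` and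
convexity of `D` give `a t + b t' < VI (a s + b s')` (`lt_VI_of_mem`). -/
theorem concave_VI {D : Set P} {ε : ℝ} (hε : 0 < ε) (hε1 : ε ≤ 1 / 10 ^ 6) (h : Near ε D)
    (i : Fin 3) : ConcaveOn ℝ (JI i (8 * √ε)) (VI D i) := by
  refine ⟨convex_Icc _ _, fun x hx y hy a b ha hb hab => ?_⟩
  simp only [smul_eq_mul]
  by_contra hn
  rw [not_le] at hn
  have hx1 : VI D i x - (a * VI D i x + b * VI D i y - VI D i (a * x + b * y)) < VI D i x := by
    linarith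
  have hy1 : VI D i y - (a * VI D i x + b * VI D i y - VI D i (a * x + b * y)) < VI D i y := by
    linarith
  obtain ⟨t1, ht1, ht1'⟩ := exists_lt_of_lt_csSup (s := {t | ptI i x t ∈ D})
    ⟨_, base_mem hε hε1 h hx⟩ hx1
  obtain ⟨t2, ht2, ht2'⟩ := exists_lt_of_lt_csSup (s := {t | ptI i y t ∈ D})
    ⟨_, base_mem hε hε1 h hy⟩ hy1
  have h1 : ptI i x t1 ∈ D := ht1
  have h2 : ptI i y t2 ∈ D := ht2
  have h3 := h.cv h1 h2 ha hb hab
  rw [← ptI_comb i hab] at h3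
  have h4 := GSec_lt hε hε1 h i h3
  rw [tI_ptI, sI_ptI] at h4
  have h5 := mul_le_mul_of_nonneg_left ht1'.le ha
  have h6 := mul_le_mul_of_nonneg_left ht2'.le hb
  have h7 : a * (a * VI D i x + b * VI D i y - VI D i (a * x + b * y)) +
      b * (a * VI D i x + b * VI D i y - VI D i (a * x + b * y)) =
      a * VI D i x + b * VI D i y - VI D i (a * x + b * y) := by
    rw [← add_mul, hab, one_mul]
  nlinarith

private theorem GSec_aff (i : Fin 3) : ∃ p q : P, ∀ s t s' t' : ℝ,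
    ptI i s' t' = ptI i s t + (s' - s) • p + (t' - t) • q := by
  fin_cases i
  · refine ⟨(1, 0), (0, -1), fun s t s' t' => ?_⟩
    ext <;> simp [ptI] <;> ring
  · refine ⟨(0, 1), (1, 0), fun s t s' t' => ?_⟩
    ext <;> simp [ptI]
  · refine ⟨(√3 / 2, 1 / 2), (-1 / 2, √3 / 2), fun s t s' t' => ?_⟩
    ext <;> simp [ptI] <;> ring

/-- Supporting lines.

Proof. `w = ptI i s (VI D i s) ∉ D` (`lt_VI_of_mem`). `geometric_hahn_banach_open_point`: `f` linear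
continuous, `f x < f w` on `D`. `f (ptI i s' t') = A + B s' + C t'` (affine). `ptI i s t ∈ D` for
`-2 √ε ≤ t < VI D i s` gives `C > 0`. So `t' < VI D i s - (B / C) (s' - s)` for
`ptI i s' t' ∈ D`. -/
theorem exists_support {D : Set P} {ε : ℝ} (hε : 0 < ε) (hε1 : ε ≤ 1 / 10 ^ 6) (h : Near ε D)
    {i : Fin 3} {s : ℝ} (hs : s ∈ JI i (8 * √ε)) :
    ∃ a : ℝ, ∀ v ∈ D, tI i v < VI D i s + a * (sI i v - s) := by
  have hw : ptI i s (VI D i s) ∉ D := by
    intro hw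
    have h1 := GSec_lt hε hε1 h i hw
    rw [tI_ptI, sI_ptI] at h1
    exact lt_irrefl _ h1
  obtain ⟨f, hf⟩ := geometric_hahn_banach_open_point h.cv h.op hw
  obtain ⟨p, q, hpq⟩ := GSec_aff i
  have key : ∀ s' t', ptI i s' t' ∈ D → (s' - s) * f p + (t' - VI D i s) * f q < 0 := by
    intro s' t' hm
    have h1 := hf _ hm
    rw [hpq s (VI D i s) s' t', map_add, map_add, map_smul, map_smul, smul_eq_mul,
      smul_eq_mul] at h1
    linarith
  have hq : 0 < f q := by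
    have h1 := key s _ (base_mem hε hε1 h hs)
    have h2 := VI_lower hε hε1 h hs
    rw [sub_self, zero_mul, zero_add] at h1
    by_contra hn
    rw [not_lt] at hn
    nlinarith
  refine ⟨-(f p / f q), fun v hv => ?_⟩
  have h1 := key (sI i v) (tI i v) (by rwa [ptI_sI_tI])
  have h2 : tI i v - VI D i s < -(f p / f q) * (sI i v - s) := by
    have h3 : -(f p / f q) * (sI i v - s) = -((sI i v - s) * f p) / f q := by
      field_simp
    rw [h3, lt_div_iff₀ hq]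
    linarith
  linarith

end Pool.Agent.MP4eed4eI
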