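import Pool.Agent.Lib.MP_4eed4e_an_I.GBd

set_option autoImplicit false

/-!
Project I, block G: the data for the test functions.
-/

namespace Pool.Agent.MP4eed4eI

open Pool.Agent.MP4eed4eP MeasureTheory Set Filter Topology

/-- The clamped height function, slightly lowered (`ε = r ^ 10`). -/
noncomputable def Vh (D : Set P) (r : ℝ) (i : Fin 3) (s : ℝ) : ℝ :=
  VI D i (max (r ^ 3 / 4) (min s (lenI i - r ^ 3 / 4))) - r ^ 20

private theorem GVh_sqrt {r : ℝ} (hr : 0 < r) : √(r ^ 10) = r ^ 5 := by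
  rw [show r ^ 10 = (r ^ 5) ^ 2 by ring]
  exact Real.sqrt_sq (by positivity)

private theorem GVh_pow {r : ℝ} (hr : 0 < r) (hr1 : r ≤ 1 / 10) (k : ℕ) :
    r ^ k ≤ 1 / 10 ^ k := by
  calc r ^ k ≤ (1 / 10) ^ k := pow_le_pow_left₀ hr.le hr1 k
    _ = 1 / 10 ^ k := by rw [div_pow, one_pow]

private theorem GVh_eps {r : ℝ} (hr : 0 < r) (hr1 : r ≤ 1 / 10) : r ^ 10 ≤ 1 / 10 ^ 6 := by
  refine (GVh_pow hr hr1 10).trans ?_
  norm_num

/-- `16 r ^ 5 ≤ r ^ 3 / 4`. -/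
private theorem GVh_five {r : ℝ} (hr : 0 < r) (hr1 : r ≤ 1 / 10) : 16 * r ^ 5 ≤ r ^ 3 / 4 := by
  have h1 : r ^ 2 ≤ 1 / 10 ^ 2 := GVh_pow hr hr1 2
  have h2 : 0 < r ^ 3 := by positivity
  have h3 : r ^ 5 = r ^ 3 * r ^ 2 := by ring
  rw [h3]
  nlinarith

private theorem GVh_half {r : ℝ} (hr : 0 < r) (hr1 : r ≤ 1 / 10) (i : Fin 3) :
    r ^ 3 / 4 ≤ lenI i - r ^ 3 / 4 := by
  have h1 : r ^ 3 ≤ 1 / 10 ^ 3 := GVh_pow hr hr1 3
  have h2 := (lenI_bounds i).1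
  norm_num at h1
  linarith

/-- The clamped point. -/
private theorem GVh_cl {r : ℝ} (hr : 0 < r) (hr1 : r ≤ 1 / 10) (i : Fin 3) (s : ℝ) :
    max (r ^ 3 / 4) (min s (lenI i - r ^ 3 / 4)) ∈ JI i (r ^ 3 / 4) :=
  ⟨le_max_left _ _, max_le (GVh_half hr hr1 i) (min_le_right _ _)⟩

private theorem GVh_J {r : ℝ} (hr : 0 < r) (hr1 : r ≤ 1 / 10) {i : Fin 3} {s : ℝ}
    (hs : s ∈ JI i (r ^ 3 / 4)) : s ∈ JI i (8 * √(r ^ 10)) ∧ 16 * √(r ^ 10) ≤ rI i s := by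
  have h1 := GVh_five hr hr1
  have h2 : 0 < r ^ 5 := by positivity
  rw [GVh_sqrt hr]
  refine ⟨⟨?_, ?_⟩, ?_⟩
  · have := hs.1
    linarith
  · have := hs.2
    linarith
  · refine le_min ?_ ?_
    · have := hs.1
      linarith
    · have := hs.2
      linarith

private theorem GVh_rI {r : ℝ} {i : Fin 3} {s : ℝ} (hs : s ∈ JI i (r ^ 3 / 4)) :
    r ^ 3 / 4 ≤ rI i s := by
  refine le_min hs.1 ?_
  have := hs.2
  linarith

/-- Both bounds of the height at the clamped point. -/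
private theorem GVh_VI {D : Set P} {r : ℝ} (hr : 0 < r) (hr1 : r ≤ 1 / 10) (h : Near (r ^ 10) D)
    {i : Fin 3} {s : ℝ} (hs : s ∈ JI i (r ^ 3 / 4)) :
    VI D i s ≤ 33 * r ^ 10 ∧ -(4 * r ^ 10 / rI i s) ≤ VI D i s := by
  have h1 := GVh_J hr hr1 hs
  exact ⟨VI_le (by positivity) (GVh_eps hr hr1) h h1.1,
    VI_ge (by positivity) (GVh_eps hr hr1) h h1.2⟩

/-- Proof. `√(r ^ 10) = r ^ 5`, `16 r ^ 5 ≤ r ^ 3 / 4`; `VI_le`, `VI_ge`: `4 r ^ 10 / (r ^ 3 / 4) =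
16 r ^ 7`. -/
theorem abs_Vh_le {D : Set P} {r : ℝ} (hr : 0 < r) (hr1 : r ≤ 1 / 10) (h : Near (r ^ 10) D)
    (i : Fin 3) (s : ℝ) : |Vh D r i s| ≤ 20 * r ^ 7 := by
  have hc := GVh_cl hr hr1 i s
  obtain ⟨h1, h2⟩ := GVh_VI hr hr1 h hc
  have h3 := GVh_rI hc
  have h7 : 0 < r ^ 7 := by positivity
  have h4 : 4 * r ^ 10 / rI i (max (r ^ 3 / 4) (min s (lenI i - r ^ 3 / 4))) ≤ 16 * r ^ 7 := by
    have h5 : 0 < r ^ 3 / 4 := by positivity
    rw [div_le_iff₀ (h5.trans_le h3)]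
    have h6 : 16 * r ^ 7 * (r ^ 3 / 4) ≤ 16 * r ^ 7 *
        rI i (max (r ^ 3 / 4) (min s (lenI i - r ^ 3 / 4))) :=
      mul_le_mul_of_nonneg_left h3 (by positivity)
    have h8 : 16 * r ^ 7 * (r ^ 3 / 4) = 4 * r ^ 10 := by ring
    linarith
  have h8 : r ^ 10 = r ^ 7 * r ^ 3 := by ring
  have h9 : r ^ 20 = r ^ 7 * r ^ 13 := by ring
  have h10 : r ^ 3 ≤ 1 / 10 ^ 3 := GVh_pow hr hr1 3
  have h11 : r ^ 13 ≤ 1 / 10 ^ 13 := GVh_pow hr hr1 13
  have h12 : 0 < r ^ 20 := by positivity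
  have h13 : r ^ 7 * r ^ 3 ≤ r ^ 7 * (1 / 10 ^ 3) := mul_le_mul_of_nonneg_left h10 h7.le
  have h14 : r ^ 7 * r ^ 13 ≤ r ^ 7 * (1 / 10 ^ 13) := mul_le_mul_of_nonneg_left h11 h7.le
  unfold Vh
  rw [abs_le]
  norm_num at h13 h14
  constructor
  · linarith
  · linarith

/-- The clamp is 1-Lipschitz. -/
private theorem GVh_clip (a b s s' : ℝ) :
    |max a (min s b) - max a (min s' b)| ≤ |s - s'| := by
  have h1 : |max (min s b) a - max (min s' b) a| ≤ |min s b - min s' b| :=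
    abs_max_sub_max_le_abs _ _ _
  have h2 : |min s b - min s' b| ≤ |s - s'| := by
    refine (abs_min_sub_min_le_max s b s' b).trans ?_
    rw [sub_self, abs_zero]
    exact max_le le_rfl (abs_nonneg _)
  rw [max_comm a, max_comm a]
  exact h1.trans h2

/-- Proof. `VI_lip` with `d = r ^ 3 / 4`; the clamp is 1-Lipschitz. -/
theorem lip_Vh {D : Set P} {r : ℝ} (hr : 0 < r) (hr1 : r ≤ 1 / 10) (h : Near (r ^ 10) D)
    (i : Fin 3) (s s' : ℝ) : |Vh D r i s - Vh D r i s'| ≤ 10000 * r ^ 4 * |s - s'| := by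
  have h1 := VI_lip (D := D) (ε := r ^ 10) (by positivity) (GVh_eps hr hr1) h (i := i)
    (d := r ^ 3 / 4) (by rw [GVh_sqrt hr]; exact GVh_five hr hr1) (GVh_cl hr hr1 i s)
    (GVh_cl hr hr1 i s')
  have h2 : 512 * r ^ 10 / (r ^ 3 / 4) ^ 2 = 8192 * r ^ 4 := by
    field_simp
    ring
  rw [h2] at h1
  have h3 := GVh_clip (r ^ 3 / 4) (lenI i - r ^ 3 / 4) s s'
  have h4 : 0 < r ^ 4 := by positivity
  unfold Vh
  rw [sub_sub_sub_cancel_right]
  calc _ ≤ 8192 * r ^ 4 * |max (r ^ 3 / 4) (min s (lenI i - r ^ 3 / 4)) -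
        max (r ^ 3 / 4) (min s' (lenI i - r ^ 3 / 4))| := h1
    _ ≤ 8192 * r ^ 4 * |s - s'| := mul_le_mul_of_nonneg_left h3 (by positivity)
    _ ≤ 10000 * r ^ 4 * |s - s'| := by
      refine mul_le_mul_of_nonneg_right ?_ (abs_nonneg _)
      linarith

/-- The distance to the ends grows by clamping. -/
private theorem GVh_grow {r : ℝ} (hr : 0 < r) (hr1 : r ≤ 1 / 10) (i : Fin 3) (s : ℝ) :
    rI i s ≤ rI i (max (r ^ 3 / 4) (min s (lenI i - r ^ 3 / 4))) := by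
  have h1 := GVh_half hr hr1 i
  have h2 : 0 < r ^ 3 := by positivity
  unfold rI
  rcases le_total s (r ^ 3 / 4) with h | h
  · rw [min_eq_left (h.trans h1), max_eq_left h]
    refine le_min ?_ ?_
    · exact (min_le_left _ _).trans h
    · exact (min_le_left _ _).trans (h.trans h1)
  · rcases le_total s (lenI i - r ^ 3 / 4) with h' | h'
    · rw [min_eq_left h', max_eq_right h]
    · rw [min_eq_right h', max_eq_right h1]
      refine le_min ?_ ?_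
      · refine (min_le_right _ _).trans ?_
        linarith
      · refine (min_le_right _ _).trans ?_
        linarith

/-- Proof. `VI_le`, `VI_ge`: if `s` is clamped then `rI` of the clamped point is
`r ^ 3 / 4 ≥ rI i s`. -/
theorem Vh_div {D : Set P} {r : ℝ} (hr : 0 < r) (hr1 : r ≤ 1 / 10) (h : Near (r ^ 10) D)
    (i : Fin 3) {s : ℝ} (hs : s ∈ Ioo 0 (lenI i)) :
    |Vh D r i s / r ^ 10| ≤ 34 + 4 / rI i s := by
  have hc := GVh_cl hr hr1 i s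
  obtain ⟨h1, h2⟩ := GVh_VI hr hr1 h hc
  have h3 : 0 < rI i s := lt_min hs.1 (sub_pos.2 hs.2)
  have h4 := GVh_grow hr hr1 i s
  have h10 : 0 < r ^ 10 := by positivity
  have h5 : 4 * r ^ 10 / rI i (max (r ^ 3 / 4) (min s (lenI i - r ^ 3 / 4))) ≤
      4 * r ^ 10 / rI i s := div_le_div_of_nonneg_left (by positivity) h3 h4
  have h6 : 4 * r ^ 10 / rI i s = 4 / rI i s * r ^ 10 := by ring
  have h7 : 0 < 4 / rI i s := by positivity
  have h8 : r ^ 20 = r ^ 10 * r ^ 10 := by ring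
  have h9 : r ^ 10 ≤ 1 := (GVh_eps hr hr1).trans (by norm_num)
  have h11 : r ^ 10 * r ^ 10 ≤ r ^ 10 * 1 := mul_le_mul_of_nonneg_left h9 h10.le
  have h12 : 0 < 4 / rI i s * r ^ 10 := by positivity
  have h13 : 0 < r ^ 20 := by positivity
  rw [abs_div, abs_of_pos h10, div_le_iff₀ h10]
  unfold Vh
  rw [abs_le, add_mul]
  constructor
  · linarith
  · linarith

/-- Proof. If `tI i v ≤ -(2 r ^ 5)` for all `i`: `mem_of_deep`. Otherwise `-(2 r ^ 5) < tI i v` for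
one `i`, and all `tI j v ≤ 20 r ^ 7`. If `sI i v ≤ r ^ 3 / 4` or `lenI i - r ^ 3 / 4 ≤ sI i v` then
`near_cor_of_end` gives a corner at distance `≤ r ^ 3 / 4 + 4 r ^ 5 + 80 r ^ 7 < r ^ 3`, a
contradiction. So the clamp is inactive, `tI i v ≤ VI D i (sI i v) - r ^ 20`: `mem_of_lt_VI`. -/
theorem Vh_mem {D : Set P} {r : ℝ} (hr : 0 < r) (hr1 : r ≤ 1 / 10) (h : Near (r ^ 10) D)
    {v : P} (hv : ∀ i, tI i v ≤ Vh D r i (sI i v)) (hc : ∀ j, r ^ 3 ≤ dist v (corI j)) :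
    v ∈ D := by
  by_cases hd : ∀ i, tI i v ≤ -(2 * √(r ^ 10))
  · exact mem_of_deep (by positivity) h hd
  · push Not at hd
    obtain ⟨i, hi⟩ := hd
    have hi' := hi
    rw [GVh_sqrt hr] at hi'
    have h7 : ∀ j, tI j v ≤ 20 * r ^ 7 := fun j =>
      (hv j).trans ((le_abs_self _).trans (abs_Vh_le hr hr1 h j _))
    have h3 : 0 < r ^ 3 := by positivity
    have key : r ^ 3 / 4 < sI i v ∧ sI i v < lenI i - r ^ 3 / 4 := by
      by_contra hcon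
      have hor : sI i v ≤ r ^ 3 / 4 ∨ lenI i - r ^ 3 / 4 ≤ sI i v := by
        rcases le_or_gt (sI i v) (r ^ 3 / 4) with h1 | h1
        · exact Or.inl h1
        · exact Or.inr (not_lt.1 fun h2 => hcon ⟨h1, h2⟩)
      obtain ⟨k, hk⟩ := near_cor_of_end i (τ := 20 * r ^ 7) (a := 2 * r ^ 5) (b := r ^ 3 / 4)
        (by positivity) (by positivity) (by positivity) h7 hi'.le hor
      have h8 := hc k
      have e5 : r ^ 5 = r ^ 3 * r ^ 2 := by ring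
      have e7 : r ^ 7 = r ^ 3 * r ^ 4 := by ring
      have b2 : r ^ 3 * r ^ 2 ≤ r ^ 3 * (1 / 10 ^ 2) :=
        mul_le_mul_of_nonneg_left (GVh_pow hr hr1 2) h3.le
      have b4 : r ^ 3 * r ^ 4 ≤ r ^ 3 * (1 / 10 ^ 4) :=
        mul_le_mul_of_nonneg_left (GVh_pow hr hr1 4) h3.le
      norm_num at b2 b4
      linarith
    have hJ : sI i v ∈ JI i (r ^ 3 / 4) := ⟨key.1.le, key.2.le⟩
    have h20 : 0 < r ^ 20 := by positivity
    have h9 := hv i
    unfold Vh at h9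
    rw [min_eq_left key.2.le, max_eq_right key.1.le] at h9
    have h10 := mem_of_lt_VI (D := D) (ε := r ^ 10) (by positivity) (GVh_eps hr hr1) h
      (GVh_J hr hr1 hJ).1 hi.le (by linarith)
    rwa [ptI_sI_tI] at h10

end Pool.Agent.MP4eed4eI
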