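import Pool.Agent.Lib.MP_4eed4e_an_I.IPub
import Pool.Agent.Lib.MP_4eed4e_an_P.PBase

set_option autoImplicit false

/-!
Project I: internal definitions. The plane is `P = ℝ × ℝ` (project P); `T0` is the triangle with the
corners `(0,0)`, `(√3,0)`, `(√3,1)`. Sides: `0` the base, `1` the right side, `2` the hypotenuse.
-/

namespace Pool.Agent.MP4eed4eI

open Pool.Agent.MP4eed4eP MeasureTheory Set Filter Topology

/-- The length of the side `i`. -/
noncomputable def lenI : Fin 3 → ℝ := ![√3, 1, 2]

/-- The point with the coordinate `s` along the side `i` and the outward distance `t`. -/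
noncomputable def ptI (i : Fin 3) (s t : ℝ) : P :=
  ![(s, -t), (√3 + t, s), ((√3 * s - t) / 2, (s + √3 * t) / 2)] i

/-- The coordinate along the side `i`. -/
noncomputable def sI (i : Fin 3) (v : P) : ℝ := ![v.1, v.2, (√3 * v.1 + v.2) / 2] i

/-- The outward distance from the line of the side `i`. -/
noncomputable def tI (i : Fin 3) (v : P) : ℝ := ![-v.2, v.1 - √3, (-v.1 + √3 * v.2) / 2] i

/-- The corners of the triangle. -/
noncomputable def corI : Fin 3 → P := ![(0, 0), (√3, 0), (√3, 1)]

/-- The smaller distance (sup norm) to a corner. -/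
noncomputable def dmin (v : P) : ℝ := min (dist v (corI 0)) (min (dist v (corI 1)) (dist v (corI 2)))

/-- The square of the gradient of the eigenfunction `uf κ` at the point `s` of the side `i`. -/
noncomputable def qI (κ : KS) (i : Fin 3) (s : ℝ) : ℝ :=
  d1 (uf κ) (ptI i s 0) ^ 2 + d2 (uf κ) (ptI i s 0) ^ 2

/-- The first variation functional. -/
noncomputable def LI (κ : KS) (W : Fin 3 → ℝ → ℝ) : ℝ :=
  ∑ i, ∫ s in (0 : ℝ)..(lenI i), qI κ i s * W i s

/-- The height of the set `D` over the side `i` at the place `s`. -/
noncomputable def VI (D : Set P) (i : Fin 3) (s : ℝ) : ℝ := sSup {t | ptI i s t ∈ D}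

/-- `∫_{T0} u²` for the eigenfunctions. -/
noncomputable def nuI : ℝ := 3 * √3 / 8

/-- `D` is open and convex and differs from `T0` by a set of measure at most `ε` on each side. -/
structure Near (ε : ℝ) (D : Set P) : Prop where
  op : IsOpen D
  cv : Convex ℝ D
  bd : Bornology.IsBounded D
  out : volume (D \ T0) ≤ ENNReal.ofReal ε
  inn : volume (T0 \ D) ≤ ENNReal.ofReal ε

/-- The interval of the parameters of the side `i` with distance at least `d` from the ends. -/
noncomputable def JI (i : Fin 3) (d : ℝ) : Set ℝ := Icc d (lenI i - d)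

/-- The distance to the ends of the side `i`. -/
noncomputable def rI (i : Fin 3) (s : ℝ) : ℝ := min s (lenI i - s)

end Pool.Agent.MP4eed4eI
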