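import Mathlib
import Pool.Agent.Lib.MP_4eed4e_an_P.PDefs

set_option autoImplicit false

/-!
Project I: the definition of the triangle which occurs in the final statement.
-/

namespace Pool.Agent.MP4eed4eI

open Pool.Agent.MP4eed4eP

/-- The open triangle with the vertices `(0, 0)`, `(√3, 0)`, `(√3, 1)`; its angles are
`π / 6`, `π / 2`, `π / 3`. -/
def T3 : Set E2 := interior (convexHull ℝ {!₂[(0 : ℝ), 0], !₂[√3, 0], !₂[√3, 1]})

end Pool.Agent.MP4eed4eI
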