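import Pool.Agent.Lib.MP_4eed4e_an_I.LRit
import Pool.Agent.Lib.MP_4eed4e_an_XL.LMain
import Pool.Agent.Lib.MP_4eed4e_an_PG.GClose
import Pool.Agent.Lib.MP_4eed4e_an_PB.BTr

set_option autoImplicit false

/-!
Project I, block L: the first eigenvalue of an affine image of `T0`.
-/

namespace Pool.Agent.MP4eed4eI

open Pool.Agent.MP4eed4eP Pool.Agent.MP4eed4eX.L MeasureTheory Set Filter Topology

private theorem LAf_lip (b c : P) (A B : P) :
    ∃ K, LipschitzWith K (fun v : P => b + linC A B (v - c)) := by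
  refine ⟨‖linC A B‖₊, LipschitzWith.of_dist_le_mul fun x y => ?_⟩
  rw [dist_add_left]
  refine ((linC A B).lipschitz.dist_le_mul _ _).trans ?_
  rw [dist_sub_right]

private theorem LAf_eq (n11 n12 n21 n22 : ℝ) (b v : P) :
    afn n11 n12 n21 n22 b v = b + linC (1 + n11, n21) (n12, 1 + n22) (v - 0) := by
  rw [linC_apply]
  ext
  · simp [afn]
    ring
  · simp [afn]
    ring

/-- The affine map is bi-Lipschitz with the columns `(1 + n11, n21)`, `(n12, 1 + n22)`.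

Proof. The inverse map is affine as well (Cramer's rule). Take the affine map of the inverse matrix;
both are linear maps plus constants (`ContinuousLinearMap.lipschitz`, `linC`). -/
theorem afn_aff {n11 n12 n21 n22 : ℝ} (b : P)
    (h : 0 < (1 + n11) * (1 + n22) - n12 * n21) :
    ∃ G : P → P, Aff (afn n11 n12 n21 n22 b) G (fun _ : Unit => T0)
      (fun _ => (1 + n11, n21)) (fun _ => (n12, 1 + n22)) := by
  obtain ⟨δ, hδ⟩ : ∃ δ, δ = (1 + n11) * (1 + n22) - n12 * n21 := ⟨_, rfl⟩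
  rw [← hδ] at h
  have h0 := h.ne'
  have hF : afn n11 n12 n21 n22 b =
      fun v => b + linC (1 + n11, n21) (n12, 1 + n22) (v - 0) :=
    funext fun v => LAf_eq n11 n12 n21 n22 b v
  refine ⟨fun v => 0 + linC ((1 + n22) / δ, -n21 / δ) (-n12 / δ, (1 + n11) / δ) (v - b),
    ?_, LAf_lip _ _ _ _, ?_, ?_, fun _ => ⟨b, fun x _ => ?_⟩, fun _ => ?_⟩
  · rw [hF]
    exact LAf_lip _ _ _ _
  · intro v
    rw [linC_apply]
    ext
    · simp only [afn, Prod.fst_add, Prod.fst_sub, Prod.snd_sub, Prod.smul_fst,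
        Prod.fst_zero, smul_eq_mul]
      field_simp
      rw [hδ]
      ring
    · simp only [afn, Prod.snd_add, Prod.fst_sub, Prod.snd_sub, Prod.smul_snd,
        Prod.snd_zero, smul_eq_mul]
      field_simp
      rw [hδ]
      ring
  · intro v
    rw [linC_apply]
    ext
    · simp only [afn, Prod.fst_add, Prod.snd_add, Prod.fst_sub, Prod.snd_sub, Prod.smul_fst,
        Prod.smul_snd, Prod.fst_zero, Prod.snd_zero, smul_eq_mul]
      field_simp
      rw [hδ]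
      ring
    · simp only [afn, Prod.fst_add, Prod.snd_add, Prod.fst_sub, Prod.snd_sub, Prod.smul_fst,
        Prod.smul_snd, Prod.fst_zero, Prod.snd_zero, smul_eq_mul]
      field_simp
      rw [hδ]
      ring
  · rw [LAf_eq, linC_apply, sub_zero]
  · simp only [det2]
    rw [hδ] at h
    linarith

private theorem LAf_mul {x y α β : ℝ} (hx : |x| ≤ α) (hy : |y| ≤ β) : |x * y| ≤ α * β := by
  rw [abs_mul]
  exact mul_le_mul hx hy (abs_nonneg _) ((abs_nonneg _).trans hx)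

/-- The estimates of the numerators. -/
private theorem LAf_num {e a b c d p q r : ℝ} (he : 0 ≤ e) (he1 : e ≤ 1 / 100) (ha : |a| ≤ e)
    (hb : |b| ≤ e) (hc : |c| ≤ e) (hd : |d| ≤ e) (hp : p = a + d) (hq : q = a * d - b * c)
    (hr : r = p ^ 2 + 2 * q + 2 * (p * q) + q ^ 2) :
    |p| ≤ 2 * e ∧ |q| ≤ 2 * e ^ 2 ∧ |r| ≤ 10 * e ^ 2 ∧
    |d ^ 2 + b ^ 2 + 4 * (a * p) - r + 2 * (a * r)| ≤ 22 * e ^ 2 ∧
    |-(a * b) - c * d + 2 * (p * b) + 2 * (p * c) + r * b + r * c| ≤ 22 * e ^ 2 ∧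
    |a ^ 2 + c ^ 2 + 4 * (d * p) - r + 2 * (d * r)| ≤ 22 * e ^ 2 := by
  have he2 : 0 ≤ e ^ 2 := sq_nonneg e
  have he3 : e * e ^ 2 ≤ 1 / 100 * e ^ 2 := mul_le_mul_of_nonneg_right he1 he2
  have he5 : e ^ 2 ≤ 1 / 100 := by nlinarith
  have he4 : e ^ 2 * e ^ 2 ≤ 1 / 100 * e ^ 2 := mul_le_mul_of_nonneg_right he5 he2
  have hp' : |p| ≤ 2 * e := by
    rw [hp]
    refine (abs_add_le _ _).trans ?_
    linarith
  have had := LAf_mul ha hd
  have hbc := LAf_mul hb hc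
  have hq' : |q| ≤ 2 * e ^ 2 := by
    rw [hq]
    refine (abs_sub _ _).trans ?_
    linarith
  have hpp := LAf_mul hp' hp'
  have hpq := LAf_mul hp' hq'
  have hqq := LAf_mul hq' hq'
  have hr' : |r| ≤ 10 * e ^ 2 := by
    rw [hr]
    obtain ⟨u1, u2⟩ := abs_le.1 hpp
    obtain ⟨u3, u4⟩ := abs_le.1 hq'
    obtain ⟨u5, u6⟩ := abs_le.1 hpq
    obtain ⟨u7, u8⟩ := abs_le.1 hqq
    rw [abs_le]
    constructor
    · linarith
    · linarith
  have hdd := LAf_mul hd hd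
  have hbb := LAf_mul hb hb
  have haa := LAf_mul ha ha
  have hcc := LAf_mul hc hc
  have hap := LAf_mul ha hp'
  have hdp := LAf_mul hd hp'
  have har := LAf_mul ha hr'
  have hdr := LAf_mul hd hr'
  have hab := LAf_mul ha hb
  have hcd := LAf_mul hc hd
  have hpb := LAf_mul hp' hb
  have hpc := LAf_mul hp' hc
  have hrb := LAf_mul hr' hb
  have hrc := LAf_mul hr' hc
  obtain ⟨r1, r2⟩ := abs_le.1 hr'
  refine ⟨hp', hq', hr', ?_, ?_, ?_⟩
  · obtain ⟨u1, u2⟩ := abs_le.1 hdd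
    obtain ⟨u3, u4⟩ := abs_le.1 hbb
    obtain ⟨u5, u6⟩ := abs_le.1 hap
    obtain ⟨u7, u8⟩ := abs_le.1 har
    rw [abs_le]
    constructor
    · linarith
    · linarith
  · obtain ⟨u1, u2⟩ := abs_le.1 hab
    obtain ⟨u3, u4⟩ := abs_le.1 hcd
    obtain ⟨u5, u6⟩ := abs_le.1 hpb
    obtain ⟨u7, u8⟩ := abs_le.1 hpc
    obtain ⟨u9, u10⟩ := abs_le.1 hrb
    obtain ⟨u11, u12⟩ := abs_le.1 hrc
    rw [abs_le]
    constructor
    · linarith
    · linarith
  · obtain ⟨u1, u2⟩ := abs_le.1 haa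
    obtain ⟨u3, u4⟩ := abs_le.1 hcc
    obtain ⟨u5, u6⟩ := abs_le.1 hdp
    obtain ⟨u7, u8⟩ := abs_le.1 hdr
    rw [abs_le]
    constructor
    · linarith
    · linarith

private theorem LAf_div {D N e : ℝ} (hD : 9 / 10 ≤ D) (hN : |N| ≤ 22 * e ^ 2) :
    |N / D ^ 2| ≤ 30 * e ^ 2 := by
  have h1 : 81 / 100 ≤ D ^ 2 := by nlinarith
  have h2 : 0 < D ^ 2 := by linarith
  rw [abs_div, abs_of_pos h2, div_le_iff₀ h2]
  have h3 : 30 * e ^ 2 * (81 / 100) ≤ 30 * e ^ 2 * D ^ 2 :=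
    mul_le_mul_of_nonneg_left h1 (by positivity)
  nlinarith [sq_nonneg e]

/-- The coefficients of the forms.

Proof. `det = 1 + n11 + n22 + O(e²)`; `|(n12² + (1 + n22)²) - (1 - 2 n11) det²| ≤ C e²` etc. With
`e ≤ 1 / 100`: `det ≥ 9 / 10`; multiply by `det²` and estimate the polynomials (each monomial of
degree `≥ 2` in the `n`'s is `≤ e²` in absolute value). -/
theorem coef_aff : ∃ C : ℝ, 0 < C ∧ ∀ e : ℝ, 0 ≤ e → e ≤ 1 / 100 → ∀ n11 n12 n21 n22 : ℝ,
    |n11| ≤ e → |n12| ≤ e → |n21| ≤ e → |n22| ≤ e →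
    9 / 10 ≤ (1 + n11) * (1 + n22) - n12 * n21 ∧
    |(n12 ^ 2 + (1 + n22) ^ 2) / ((1 + n11) * (1 + n22) - n12 * n21) ^ 2 - 1 + 2 * n11| ≤ C * e ^ 2 ∧
    |-((1 + n11) * n12 + n21 * (1 + n22)) / ((1 + n11) * (1 + n22) - n12 * n21) ^ 2 +
      (n12 + n21)| ≤ C * e ^ 2 ∧
    |((1 + n11) ^ 2 + n21 ^ 2) / ((1 + n11) * (1 + n22) - n12 * n21) ^ 2 - 1 + 2 * n22| ≤
      C * e ^ 2 := by
  refine ⟨30, by norm_num, fun e he he1 a b c d ha hb hc hd => ?_⟩
  obtain ⟨h1, h2, h3, h4, h5, h6⟩ := LAf_num he he1 ha hb hc hd rfl rfl rfl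
  obtain ⟨D, hD⟩ : ∃ D, D = (1 + a) * (1 + d) - b * c := ⟨_, rfl⟩
  have hD9 : 9 / 10 ≤ D := by
    obtain ⟨u1, u2⟩ := abs_le.1 h1
    obtain ⟨u3, u4⟩ := abs_le.1 h2
    rw [hD]
    nlinarith
  have hD0 : D ≠ 0 := by linarith
  rw [← hD]
  refine ⟨hD9, ?_, ?_, ?_⟩
  · convert LAf_div hD9 h4 using 2
    rw [eq_div_iff (pow_ne_zero 2 hD0)]
    field_simp
    rw [hD]
    ring
  · convert LAf_div hD9 h5 using 2
    rw [eq_div_iff (pow_ne_zero 2 hD0)]
    field_simp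
    rw [hD]
    ring
  · convert LAf_div hD9 h6 using 2
    rw [eq_div_iff (pow_ne_zero 2 hD0)]
    field_simp
    rw [hD]
    ring

private theorem LAf_l2 {g : P → ℝ} (hg : LipC T0 g) : l2 g = ∫ v in T0, g v * g v := by
  rw [l2, ← setIntegral_eq_integral_of_forall_compl_eq_zero (s := T0)]
  · refine integral_congr_ae (Eventually.of_forall fun y => ?_)
    dsimp only
    ring
  · intro x hx
    have h2 : x ∉ tsupport g := fun h => hx (hg.2.2 h)
    rw [image_eq_zero_of_notMem_tsupport h2]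
    norm_num

private theorem LAf_bdd : Bornology.IsBounded T0 := by
  have h3 : √3 < 2 := by
    rw [Real.sqrt_lt' (by norm_num)]
    norm_num
  have h1 : (1 : ℝ) ≤ √3 := by
    rw [Real.one_le_sqrt]
    norm_num
  refine (Metric.isBounded_closedBall (x := (0 : P)) (r := 2)).subset ?_
  rintro v ⟨h4, h5, h6⟩
  rw [mem_closedBall_zero_iff, Prod.norm_def, max_le_iff, Real.norm_eq_abs, Real.norm_eq_abs,
    abs_le, abs_le]
  have h7 : v.2 ≤ √3 * v.2 := le_mul_of_one_le_left h4.le h1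
  exact ⟨⟨by linarith, by linarith⟩, by linarith, by linarith⟩

private theorem LAf_ne : T0.Nonempty := by
  refine ⟨(3 / 2, 1 / 10), ?_, ?_, ?_⟩
  · norm_num
  · have : √3 < 2 := by
      rw [Real.sqrt_lt' (by norm_num)]
      norm_num
    show √3 * (1 / 10) < 3 / 2
    linarith
  · show (3 / 2 : ℝ) < √3
    rw [Real.lt_sqrt (by norm_num)]
    norm_num

/-- The energy of `f` in terms of `g`. -/
private theorem LAf_en {a b c d : ℝ} (w : P) (hD : 0 < (1 + a) * (1 + d) - b * c) {f : P → ℝ}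
    (hf : LipC (afn a b c d w '' T0) f) :
    LipC T0 (fun v => f (afn a b c d w v)) ∧
    l2 f = ((1 + a) * (1 + d) - b * c) * l2 (fun v => f (afn a b c d w v)) ∧
    en f = ((1 + a) * (1 + d) - b * c) * ∫ x in T0,
      ((1 + ((b ^ 2 + (1 + d) ^ 2) / ((1 + a) * (1 + d) - b * c) ^ 2 - 1)) *
        d1 (fun v => f (afn a b c d w v)) x ^ 2 +
      2 * (-((1 + a) * b + c * (1 + d)) / ((1 + a) * (1 + d) - b * c) ^ 2) *
        (d1 (fun v => f (afn a b c d w v)) x * d2 (fun v => f (afn a b c d w v)) x) +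
      (1 + (((1 + a) ^ 2 + c ^ 2) / ((1 + a) * (1 + d) - b * c) ^ 2 - 1)) *
        d2 (fun v => f (afn a b c d w v)) x ^ 2) := by
  obtain ⟨G, hG⟩ := afn_aff w hD
  have hO := PE.isOpen_T0
  have hC := cel_self hO
  have hg := lipC_comp hG hf
  refine ⟨hg, ?_, ?_⟩
  · rw [l2_eq_mform hC hO.measurableSet hG hf, mform, LAf_l2 hg]
    simp only [Finset.univ_unique, Finset.sum_const, Finset.card_singleton, one_smul, det2]
    congr 1
    ring
  · rw [en_eq_eform hC hO.measurableSet LAf_bdd hG hf, eform]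
    simp only [Finset.univ_unique, Finset.sum_const, Finset.card_singleton, one_smul]
    rw [← integral_const_mul]
    refine integral_congr_ae (Eventually.of_forall fun x => ?_)
    simp only [Pool.Agent.MP4eed4eX.L.n11, Pool.Agent.MP4eed4eX.L.n12,
      Pool.Agent.MP4eed4eX.L.n22, dt, det2]
    obtain ⟨D, hD'⟩ : ∃ D, D = (1 + a) * (1 + d) - b * c := ⟨_, rfl⟩
    have e : (1 + a) * (1 + d) - c * b = D := by rw [hD']; ring
    rw [e, ← hD']
    rw [← hD'] at hD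
    field_simp
    ring

/-- The lower bound for the first eigenvalue of the affine image.

Proof. Let `D = afn .. '' T0` (open, nonempty). Let `r ∈ PG.RS D 1`: there is a space of dimension
one, so an `f ≠ 0` with `LipC D f`, `en f ≤ r * l2 f`, `l2 f > 0` (`l2_pos`). Let `g v = f (afn .. v)`;
`LipC T0 g` (`lipC_comp`), and with `d = det2 A B`, `A = (1 + n11, n21)`, `B = (n12, 1 + n22)`:
`l2 f = d ∫_{T0} g²` (`l2_eq_mform`), `en f = ∫_{T0} (n11' (d1 g)² + 2 n12' d1 g d2 g + n22' (d2 g)²)`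
(`en_eq_eform`; `n11' = |B|² / d` and so on), with the cell `fun _ : Unit => T0` (`cel_self`). By
`coef_aff` and `ritz_low` with `s11 = |B|² / d² - 1` and so on (all of them `≤ δ := 3 e` for small
`e`): `en f ≥ (lam1 + (s11 e11 + 2 s12 e12 + s22 e22) / nuI - 360 lam1 e²) l2 f`, and the bracket
is `≥ lam1 - 2 / nuI * (..) - C e²`. So `r ≥` this number; `le_csInf` with `PG.RS_nonempty`.
`lamL T0 1 = lam1` is `first_T0`. -/
theorem aff_low : ∃ C e0 : ℝ, 0 < C ∧ 0 < e0 ∧ ∀ e : ℝ, 0 ≤ e → e ≤ e0 →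
    ∀ (n11 n12 n21 n22 : ℝ) (b : P), |n11| ≤ e → |n12| ≤ e → |n21| ≤ e → |n22| ≤ e →
    lamL T0 1 - 2 / nuI * (n11 * e11 + (n12 + n21) * e12 + n22 * e22) - C * e ^ 2 ≤
      lamL (afn n11 n12 n21 n22 b '' T0) 1 := by
  obtain ⟨C0, hC0, hcoef⟩ := coef_aff
  have hnu := nuI_pos
  have hl1 := lam1_pos
  refine ⟨C0 * (|e11| + 2 * |e12| + |e22|) / nuI + 360 * lam1, min (1 / 100) (1 / C0),
    by positivity, by positivity, fun e he he0 a b c d w ha hb hc hd => ?_⟩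
  have he1 : e ≤ 1 / 100 := he0.trans (min_le_left _ _)
  have he2 : e ≤ 1 / C0 := he0.trans (min_le_right _ _)
  have he3 : C0 * e ≤ 1 := by
    rw [le_div_iff₀ hC0] at he2
    linarith
  have he4 : C0 * e ^ 2 ≤ e := by
    nlinarith
  obtain ⟨hD9, h1, h2, h3⟩ := hcoef e he he1 a b c d ha hb hc hd
  have hD : 0 < (1 + a) * (1 + d) - b * c := by linarith
  obtain ⟨s11, hs11⟩ : ∃ s, s = (b ^ 2 + (1 + d) ^ 2) / ((1 + a) * (1 + d) - b * c) ^ 2 - 1 :=
    ⟨_, rfl⟩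
  obtain ⟨s12, hs12⟩ : ∃ s, s = -((1 + a) * b + c * (1 + d)) /
    ((1 + a) * (1 + d) - b * c) ^ 2 := ⟨_, rfl⟩
  obtain ⟨s22, hs22⟩ : ∃ s, s = ((1 + a) ^ 2 + c ^ 2) / ((1 + a) * (1 + d) - b * c) ^ 2 - 1 :=
    ⟨_, rfl⟩
  rw [← hs11] at h1
  rw [← hs12] at h2
  rw [← hs22] at h3
  have hb1 : |s11| ≤ 3 * e := by
    obtain ⟨u1, u2⟩ := abs_le.1 h1
    obtain ⟨u3, u4⟩ := abs_le.1 ha
    exact abs_le.2 ⟨by linarith, by linarith⟩
  have hb2 : |s12| ≤ 3 * e := by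
    obtain ⟨u1, u2⟩ := abs_le.1 h2
    obtain ⟨u3, u4⟩ := abs_le.1 hb
    obtain ⟨u5, u6⟩ := abs_le.1 hc
    exact abs_le.2 ⟨by linarith, by linarith⟩
  have hb3 : |s22| ≤ 3 * e := by
    obtain ⟨u1, u2⟩ := abs_le.1 h3
    obtain ⟨u3, u4⟩ := abs_le.1 hd
    exact abs_le.2 ⟨by linarith, by linarith⟩
  have hO := PE.isOpen_T0
  obtain ⟨G, hG⟩ := afn_aff w hD
  have hK : lamL T0 1 - 2 / nuI * (a * e11 + (b + c) * e12 + d * e22) -
      (C0 * (|e11| + 2 * |e12| + |e22|) / nuI + 360 * lam1) * e ^ 2 ≤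
      lam1 + (s11 * e11 + 2 * s12 * e12 + s22 * e22) / nuI - 40 * lam1 * (3 * e) ^ 2 := by
    have h0 : lamL T0 1 = lam1 := first_T0.1
    rw [h0]
    have h4 : 0 ≤ ((s11 + 2 * a) * e11 + 2 * ((s12 + (b + c)) * e12) + (s22 + 2 * d) * e22 +
        C0 * e ^ 2 * (|e11| + 2 * |e12| + |e22|)) / nuI := by
      refine div_nonneg ?_ hnu.le
      have k1 := LAf_mul h1 (le_refl |e11|)
      have k2 := LAf_mul h2 (le_refl |e12|)
      have k3 := LAf_mul h3 (le_refl |e22|)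
      have k4 := neg_le_of_abs_le k1
      have k5 := neg_le_of_abs_le k2
      have k6 := neg_le_of_abs_le k3
      have k7 : (s11 - 1 + 1 + 2 * a) * e11 = (s11 + 2 * a) * e11 := by ring
      nlinarith
    have h5 : ((s11 + 2 * a) * e11 + 2 * ((s12 + (b + c)) * e12) + (s22 + 2 * d) * e22 +
        C0 * e ^ 2 * (|e11| + 2 * |e12| + |e22|)) / nuI =
        (s11 * e11 + 2 * s12 * e12 + s22 * e22) / nuI +
        2 / nuI * (a * e11 + (b + c) * e12 + d * e22) +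
        C0 * (|e11| + 2 * |e12| + |e22|) / nuI * e ^ 2 := by
      field_simp
      ring
    rw [h5] at h4
    nlinarith
  refine hK.trans ?_
  show _ ≤ sInf (PG.RS (afn a b c d w '' T0) 1)
  refine le_csInf (PG.RS_nonempty (hG.isOpen_image hO) (LAf_ne.image _) 1) ?_
  rintro r ⟨V, hV, hVf⟩
  have hVne : V ≠ ⊥ := by
    rintro rfl
    rw [finrank_bot] at hV
    exact zero_ne_one hV
  obtain ⟨f, hfV, hf0⟩ := Submodule.exists_mem_ne_zero_of_ne_bot hVne
  obtain ⟨hf, hen⟩ := hVf f hfV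
  have hpos := l2_pos hf hf0
  obtain ⟨hg, hl, he'⟩ := LAf_en w hD hf
  have h6 := ritz_low hg (δ := 3 * e) (by linarith) (by linarith) hb1 hb2 hb3
  rw [← hs11, ← hs12, ← hs22] at he'
  have h7 := mul_le_mul_of_nonneg_left h6 hD.le
  rw [← he', mul_left_comm, ← hl] at h7
  exact le_of_mul_le_mul_right (h7.trans hen) hpos

end Pool.Agent.MP4eed4eI
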