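import Pool.Agent.Lib.MP_4eed4e_an_I.IDefs

set_option autoImplicit false

/-!
Project I, block L: the first eigenfunction, the matrix `e`, the affine map and the functional `FFI`.
-/

namespace Pool.Agent.MP4eed4eI

open Pool.Agent.MP4eed4eP MeasureTheory Set Filter Topology

/-- The parameter of the first eigenfunction. -/
def k1 : KS := ⟨(1, 5), by norm_num, by norm_num, by norm_num⟩

/-- The first eigenvalue. -/
noncomputable def lam1 : ℝ := 28 * Real.pi ^ 2 / 9

noncomputable def e11 : ℝ := ∫ x in T0, d1 (uf k1) x ^ 2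

noncomputable def e12 : ℝ := ∫ x in T0, d1 (uf k1) x * d2 (uf k1) x

noncomputable def e22 : ℝ := ∫ x in T0, d2 (uf k1) x ^ 2

/-- The matrix entries which belong to the data `c`, `a` of the sides. -/
noncomputable def m11 (c : Fin 3 → ℝ) : ℝ := (c 1 + √3 * c 0 + 2 * c 2) / √3

noncomputable def m22 (c a : Fin 3 → ℝ) : ℝ :=
  (4 * a 2 + c 1 + √3 * c 0 + 2 * c 2 + a 1 + 3 * a 0) / √3

/-- The affine map with the matrix entries `n11, n12, n21, n22` (added to the identity) and the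
translation `b`. -/
def afn (n11 n12 n21 n22 : ℝ) (b v : P) : P :=
  (v.1 + b.1 + n11 * v.1 + n12 * v.2, v.2 + b.2 + n21 * v.1 + n22 * v.2)

/-- The first order term of the first eigenvalue. -/
noncomputable def FFI (c a : Fin 3 → ℝ) : ℝ :=
  2 / nuI * (m11 c * e11 + (a 1 - a 0) * e12 + m22 c a * e22)

theorem lam1_pos : 0 < lam1 := by
  have := Real.pi_pos
  unfold lam1
  positivity

theorem nuI_pos : 0 < nuI := by
  unfold nuI
  positivity

theorem FFI_cont : Continuous (fun x : (Fin 3 → ℝ) × (Fin 3 → ℝ) => FFI x.1 x.2) := by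
  unfold FFI m11 m22
  fun_prop

theorem FFI_hom (t : ℝ) (c a : Fin 3 → ℝ) : FFI (t • c) (t • a) = t * FFI c a := by
  unfold FFI m11 m22
  simp only [Pi.smul_apply, smul_eq_mul]
  ring

/-- The formula L5 of the text. -/
theorem FFI_alg (c a : Fin 3 → ℝ) (k : ℝ)
    (h : ∑ i, (c i * lenI i + a i * lenI i ^ 2 / 2) = k / 2) :
    FFI c a = -(2 / nuI * (√3 / 2 * (e22 - e11) - e12) * (a 1 - a 0 - k) +
      2 / nuI * (2 / √3 * (e22 - e11)) * (-a 1 - a 2 - k) +
      2 / nuI * ((6 * e22 - 8 * e11 - 2 * √3 * e12) / (2 * √3)) * k) := by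
  have hs : √3 * √3 = 3 := Real.mul_self_sqrt (by norm_num)
  have hp : (0 : ℝ) < √3 := Real.sqrt_pos.2 (by norm_num)
  rw [Fin.sum_univ_three] at h
  simp only [lenI, Matrix.cons_val_zero, Matrix.cons_val_one, Matrix.cons_val] at h
  have h0 : c 1 = k / 2 - √3 * c 0 - a 0 * 3 / 2 - a 1 / 2 - 2 * c 2 - 2 * a 2 := by
    have : √3 ^ 2 = 3 := by rw [sq, hs]
    rw [this] at h
    linarith
  have e1 : m11 c = (k / 2 - 3 * a 0 / 2 - a 1 / 2 - 2 * a 2) / √3 := by
    unfold m11
    rw [h0]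
    congr 1
    ring
  have e2 : m22 c a = (2 * a 2 + k / 2 + 3 * a 0 / 2 + a 1 / 2) / √3 := by
    unfold m22
    rw [h0]
    congr 1
    ring
  have hi : √3 / 3 = 1 / √3 := by
    field_simp
    linarith
  have e3 : √3 / 2 = 3 / 2 * (1 / √3) := by
    rw [← hi]; ring
  unfold FFI
  rw [e1, e2]
  have e4 : (6 * e22 - 8 * e11 - 2 * √3 * e12) / (2 * √3) =
      (3 * e22 - 4 * e11) * (1 / √3) - e12 := by
    field_simp
    ring
  rw [e4, e3]
  ring

end Pool.Agent.MP4eed4eI
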