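import Pool.Agent.Lib.MP_4eed4e_an_I.IDefs
import Pool.Agent.Lib.MP_4eed4e_an_PB.BTc
import Pool.Agent.Lib.MP_4eed4e_an_PB.BTd
import Pool.Agent.Lib.MP_4eed4e_an_PE.EGre
import Pool.Agent.Lib.MP_4eed4e_an_PE.EHad
import Pool.Agent.Lib.MP_4eed4e_an_PC.CForm
import Pool.Agent.Lib.MP_4eed4e_an_PA.Par

set_option autoImplicit false

/-!
Project I, block T: Parseval and Bessel on `T0`, the gradients of the eigenfunctions.
-/

namespace Pool.Agent.MP4eed4eI

open Pool.Agent.MP4eed4eP MeasureTheory Set Filter Topology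

/-- The coefficient of `f` with respect to the (normalised) eigenfunction `uf κ`. -/
noncomputable def cf0 (f : P → ℝ) (κ : KS) : ℝ := (∫ x in T0, uf κ x * f x) / √nuI

private theorem tpar_nu : 0 < nuI := by
  unfold nuI
  positivity

private theorem tpar_c0 (κ : KS) : Continuous (uf κ) := (PE.cd_uf κ 0).continuous

private theorem tpar_c1 (κ : KS) : Continuous (d1 (uf κ)) := (PE.cd_d1_uf κ 0).continuous

private theorem tpar_c2 (κ : KS) : Continuous (d2 (uf κ)) := (PE.cd_d2_uf κ 0).continuous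

private theorem tpar_fin : IsFiniteMeasure ((volume : Measure P).restrict T0) :=
  ⟨by rw [Measure.restrict_apply_univ]; exact PE.volume_T0_lt_top⟩

private theorem tpar_mem {f : P → ℝ} (hf : Continuous f) : MemLp f 2 (volume.restrict T0) :=
  (memLp_two_iff_integrable_sq hf.aestronglyMeasurable).2 (PE.intOn_cont (hf.pow 2))

/-- Orthogonality of the gradients.

Proof. Divergence theorem on `T0` for the field `uf κ' • ∇ (uf κ)`: `PE.part_h`, `PE.part_v` with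
`ψ = uf κ'`, which vanishes on the three sides (`uf_bd1`, `uf_bd2`, `uf_bd3`), and `lap_uf`,
`orth_uf` (`nuI = 3 √3 / 8`). -/
theorem grad_orth (κ κ' : KS) :
    ∫ x in T0, (d1 (uf κ) x * d1 (uf κ') x + d2 (uf κ) x * d2 (uf κ') x) =
      if κ = κ' then (mu κ)⁻¹ * nuI else 0 := by
  obtain ⟨K, hK⟩ := PE.lip_uf κ'
  have hZ1 : ContDiff ℝ 1 (d1 (uf κ)) := by exact_mod_cast PE.cd_d1_uf κ 1
  have hZ2 : ContDiff ℝ 1 (d2 (uf κ)) := by exact_mod_cast PE.cd_d2_uf κ 1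
  have h1 := PE.part_h hK hZ1
  have h2 := PE.part_v hK hZ2
  have h3 : (0 : ℝ) < √3 := by positivity
  have z1 : ∫ y in (0 : ℝ)..1, (uf κ' (√3, y) * d1 (uf κ) (√3, y) -
      uf κ' (√3 * y, y) * d1 (uf κ) (√3 * y, y)) = 0 := by
    simp only [uf_bd2, uf_bd3, zero_mul, sub_zero, intervalIntegral.integral_zero]
  have z2 : ∫ x in (0 : ℝ)..√3, (uf κ' (x, x / √3) * d2 (uf κ) (x, x / √3) -
      uf κ' (x, 0) * d2 (uf κ) (x, 0)) = 0 := by
    have h4 : ∀ x : ℝ, uf κ' (x, x / √3) = 0 := by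
      intro x
      have h5 := uf_bd3 κ' (x / √3)
      rwa [mul_div_cancel₀ x h3.ne'] at h5
    simp only [h4, uf_bd1, zero_mul, sub_zero, intervalIntegral.integral_zero]
  rw [z1] at h1
  rw [z2] at h2
  have c0 := tpar_c0 κ
  have c0' := tpar_c0 κ'
  have cc1 : Continuous (d1 (d1 (uf κ))) := PE.continuous_d1 hZ1
  have cc2 : Continuous (d2 (d2 (uf κ))) := PE.continuous_d2 hZ2
  have i1 : IntegrableOn (fun x => d1 (uf κ') x * d1 (uf κ) x + uf κ' x * d1 (d1 (uf κ)) x) T0 :=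
    PE.intOn_cont (((tpar_c1 κ').mul (tpar_c1 κ)).add (c0'.mul cc1))
  have i2 : IntegrableOn (fun x => d2 (uf κ') x * d2 (uf κ) x + uf κ' x * d2 (d2 (uf κ)) x) T0 :=
    PE.intOn_cont (((tpar_c2 κ').mul (tpar_c2 κ)).add (c0'.mul cc2))
  have i3 : IntegrableOn (fun x => (mu κ)⁻¹ * (uf κ x * uf κ' x)) T0 :=
    PE.intOn_cont (continuous_const.mul (c0.mul c0'))
  have h6 : ∫ x in T0, (d1 (uf κ) x * d1 (uf κ') x + d2 (uf κ) x * d2 (uf κ') x) =
      ∫ x in T0, ((d1 (uf κ') x * d1 (uf κ) x + uf κ' x * d1 (d1 (uf κ)) x) +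
        (d2 (uf κ') x * d2 (uf κ) x + uf κ' x * d2 (d2 (uf κ)) x) +
          (mu κ)⁻¹ * (uf κ x * uf κ' x)) := by
    refine integral_congr_ae (Eventually.of_forall fun x => ?_)
    have h7 := lap_uf κ x
    dsimp only
    linear_combination (-uf κ' x) * h7
  have i12 : IntegrableOn (fun x => (d1 (uf κ') x * d1 (uf κ) x + uf κ' x * d1 (d1 (uf κ)) x) +
      (d2 (uf κ') x * d2 (uf κ) x + uf κ' x * d2 (d2 (uf κ)) x)) T0 := i1.add i2
  rw [h6, integral_add i12 i3, integral_add i1 i2, h1, h2, integral_const_mul, orth_uf]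
  by_cases h : κ = κ'
  · rw [if_pos h, if_pos h, nuI]
    ring
  · rw [if_neg h, if_neg h]
    ring

/-- `∫_{T0} |∇u|² - Λ u² = 0`. -/
theorem energy_T0 (κ : KS) :
    ∫ x in T0, (d1 (uf κ) x ^ 2 + d2 (uf κ) x ^ 2 - (mu κ)⁻¹ * uf κ x ^ 2) = 0 := by
  have h1 := grad_orth κ κ
  have h2 := orth_uf κ κ
  rw [if_pos rfl] at h1 h2
  have i1 : IntegrableOn (fun x => d1 (uf κ) x * d1 (uf κ) x + d2 (uf κ) x * d2 (uf κ) x) T0 :=
    PE.intOn_cont (((tpar_c1 κ).mul (tpar_c1 κ)).add ((tpar_c2 κ).mul (tpar_c2 κ)))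
  have i2 : IntegrableOn (fun x => (mu κ)⁻¹ * (uf κ x * uf κ x)) T0 :=
    PE.intOn_cont (continuous_const.mul ((tpar_c0 κ).mul (tpar_c0 κ)))
  have h3 : ∫ x in T0, (d1 (uf κ) x ^ 2 + d2 (uf κ) x ^ 2 - (mu κ)⁻¹ * uf κ x ^ 2) =
      ∫ x in T0, ((d1 (uf κ) x * d1 (uf κ) x + d2 (uf κ) x * d2 (uf κ) x) -
        (mu κ)⁻¹ * (uf κ x * uf κ x)) := by
    refine integral_congr_ae (Eventually.of_forall fun x => ?_)
    dsimp only
    ring
  rw [h3, integral_sub i1 i2, h1, integral_const_mul, h2, nuI]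
  ring

/-- Parseval.

Proof. The functions `uf κ / √nuI` on `T0` are orthonormal (`orth_uf`) and complete (`complete_uf`)
in `Lp ℝ 2 (volume.restrict T0)`; a Hilbert basis (`HilbertBasis.mkOfOrthogonalEqBot`) or
`PA.pars_of_cpl`. `f` vanishes off `T0`, so `l2 f = ∫ x in T0, f x ^ 2`. -/
theorem parseval_T0 {f : P → ℝ} (hf : LipC T0 f) : HasSum (fun κ => cf0 f κ ^ 2) (l2 f) := by
  have hfin := tpar_fin
  have hν := tpar_nu
  have hsν : 0 < √nuI := Real.sqrt_pos.2 hν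
  have hν2 : √nuI * √nuI = nuI := Real.mul_self_sqrt hν.le
  have hm : ∀ κ : KS, MemLp (fun x => uf κ x / √nuI) 2 (volume.restrict T0) := fun κ =>
    tpar_mem ((tpar_c0 κ).div_const _)
  have hfm : MemLp f 2 (volume.restrict T0) := tpar_mem hf.1.choose_spec.continuous
  let v : KS → Lp ℝ 2 ((volume : Measure P).restrict T0) := fun κ => (hm κ).toLp _
  have hin : ∀ (κ : KS) {g : P → ℝ} (hg : MemLp g 2 (volume.restrict T0)),
      (inner ℝ (v κ) (hg.toLp g) : ℝ) = (∫ x in T0, uf κ x * g x) / √nuI := by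
    intro κ g hg
    rw [L2.inner_def, ← integral_div]
    refine integral_congr_ae ?_
    filter_upwards [(hm κ).coeFn_toLp, hg.coeFn_toLp] with x h1 h2
    rw [h1, h2]
    simp only [RCLike.inner_apply, conj_trivial]
    ring
  have hon : Orthonormal ℝ v := by
    rw [orthonormal_iff_ite]
    intro κ κ'
    have h1 := hin κ (hm κ')
    have h2 : ∫ x in T0, uf κ x * (uf κ' x / √nuI) =
        (∫ x in T0, uf κ x * uf κ' x) / √nuI := by
      rw [← integral_div]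
      refine integral_congr_ae (Eventually.of_forall fun x => ?_)
      dsimp only
      ring
    rw [h2, orth_uf] at h1
    refine h1.trans ?_
    by_cases h : κ = κ'
    · rw [if_pos h, if_pos h, div_div, hν2, nuI]
      exact div_self (by positivity)
    · rw [if_neg h, if_neg h, zero_div, zero_div]
  have hc : ∀ g : Lp ℝ 2 ((volume : Measure P).restrict T0),
      (∀ κ, (inner ℝ (v κ) g : ℝ) = 0) → g = 0 := by
    intro g hg
    have h1 : ∀ κ, ∫ x in T0, uf κ x * g x = 0 := by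
      intro κ
      have h2 := hin κ (Lp.memLp g)
      rw [Lp.toLp_coeFn, hg κ] at h2
      have h3 := (div_eq_zero_iff.1 h2.symm).resolve_right hsν.ne'
      exact h3
    have h4 := complete_uf g (Lp.memLp g) h1
    exact (Lp.eq_zero_iff_ae_eq_zero).2 h4
  have hP := PA.pars_of_cpl hon hc (hfm.toLp f)
  have hn : ‖hfm.toLp f‖ ^ 2 = l2 f := by
    rw [← real_inner_self_eq_norm_sq, L2.inner_def, l2]
    have h1 : ∫ x, (inner ℝ ((hfm.toLp f) x) ((hfm.toLp f) x) : ℝ) ∂(volume.restrict T0) =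
        ∫ x in T0, f x ^ 2 := by
      refine integral_congr_ae ?_
      filter_upwards [hfm.coeFn_toLp] with x h2
      rw [h2]
      simp only [RCLike.inner_apply, conj_trivial]
      ring
    rw [h1]
    refine setIntegral_eq_integral_of_forall_compl_eq_zero fun x hx => ?_
    rw [image_eq_zero_of_notMem_tsupport fun h => hx (hf.2.2 h)]
    norm_num
  rw [hn] at hP
  refine hP.congr_fun fun κ => ?_
  rw [hin κ hfm, cf0]

/-- Bessel for the gradient.

Proof. `0 ≤ ∫_{T0} |∇f - ∑ κ ∈ S, (cf0 f κ / √nuI) • ∇ (uf κ)|²`; expand with `PE.green` and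
`grad_orth`; `en f = ∫_{T0} |∇f|²` since `f` vanishes off `T0`. -/
theorem bessel_T0 {f : P → ℝ} (hf : LipC T0 f) (S : Finset KS) :
    ∑ κ ∈ S, (mu κ)⁻¹ * cf0 f κ ^ 2 ≤ en f := by
  have hfin := tpar_fin
  have hν := tpar_nu
  have hsν : 0 < √nuI := Real.sqrt_pos.2 hν
  have hν2 : √nuI ^ 2 = nuI := Real.sq_sqrt hν.le
  obtain ⟨K, hK⟩ := hf.1
  let c : KS → ℝ := fun κ => cf0 f κ / √nuI
  have hcint : ∀ κ, ∫ x in T0, uf κ x * f x = cf0 f κ * √nuI := by
    intro κ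
    rw [cf0, div_mul_cancel₀ _ hsν.ne']
  have hc1 : ∀ κ, c κ * (cf0 f κ * √nuI) = cf0 f κ ^ 2 := by
    intro κ
    simp only [c]
    field_simp
  have hc2 : ∀ κ, c κ ^ 2 * nuI = cf0 f κ ^ 2 := by
    intro κ
    simp only [c]
    rw [div_pow, hν2]
    field_simp
  -- the integrals
  have iff1 : IntegrableOn (fun x => d1 f x ^ 2 + d2 f x ^ 2) T0 := by
    refine Measure.integrableOn_of_bounded PE.volume_T0_lt_top.ne
      (((measurable_d1 f).pow_const 2).add ((measurable_d2 f).pow_const 2)).aestronglyMeasurable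
      (M := (K : ℝ) ^ 2 + (K : ℝ) ^ 2) (Eventually.of_forall fun x => ?_)
    rw [Real.norm_eq_abs, abs_of_nonneg (by positivity)]
    have h1 := abs_d1_le hK x
    have h2 := abs_d2_le hK x
    have h3 : d1 f x ^ 2 ≤ (K : ℝ) ^ 2 := sq_le_sq' (by linarith [neg_abs_le (d1 f x)])
      ((le_abs_self _).trans h1)
    have h4 : d2 f x ^ 2 ≤ (K : ℝ) ^ 2 := sq_le_sq' (by linarith [neg_abs_le (d2 f x)])
      ((le_abs_self _).trans h2)
    linarith
  have iuf : ∀ κ, IntegrableOn (fun x => d1 (uf κ) x * d1 f x + d2 (uf κ) x * d2 f x) T0 := by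
    intro κ
    have h1 := PE.intOn_d1_mul hK (tpar_c1 κ)
    have h2 := PE.intOn_d2_mul hK (tpar_c2 κ)
    refine (h1.add h2).congr (Eventually.of_forall fun x => ?_)
    simp only [Pi.add_apply]
    ring
  have iuu : ∀ κ κ', IntegrableOn
      (fun x => d1 (uf κ) x * d1 (uf κ') x + d2 (uf κ) x * d2 (uf κ') x) T0 := fun κ κ' =>
    PE.intOn_cont (((tpar_c1 κ).mul (tpar_c1 κ')).add ((tpar_c2 κ).mul (tpar_c2 κ')))
  have hen : en f = ∫ x in T0, (d1 f x ^ 2 + d2 f x ^ 2) := by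
    rw [en]
    refine (setIntegral_eq_integral_of_forall_compl_eq_zero fun x hx => ?_).symm
    rw [d1_zero_of_notMem fun h => hx (hf.2.2 h), d2_zero_of_notMem fun h => hx (hf.2.2 h)]
    norm_num
  have h0 : 0 ≤ ∫ x in T0, ((d1 f x - ∑ κ ∈ S, c κ * d1 (uf κ) x) ^ 2 +
      (d2 f x - ∑ κ ∈ S, c κ * d2 (uf κ) x) ^ 2) :=
    integral_nonneg fun x => by positivity
  have e1 : ∀ x, (d1 f x - ∑ κ ∈ S, c κ * d1 (uf κ) x) ^ 2 +
      (d2 f x - ∑ κ ∈ S, c κ * d2 (uf κ) x) ^ 2 =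
      (d1 f x ^ 2 + d2 f x ^ 2) -
        ∑ κ ∈ S, 2 * c κ * (d1 (uf κ) x * d1 f x + d2 (uf κ) x * d2 f x) +
        ∑ κ ∈ S, ∑ κ' ∈ S, c κ * c κ' *
          (d1 (uf κ) x * d1 (uf κ') x + d2 (uf κ) x * d2 (uf κ') x) := by
    intro x
    have s1 : ∑ κ ∈ S, 2 * c κ * (d1 (uf κ) x * d1 f x + d2 (uf κ) x * d2 f x) =
        2 * (∑ κ ∈ S, c κ * d1 (uf κ) x) * d1 f x +
          2 * (∑ κ ∈ S, c κ * d2 (uf κ) x) * d2 f x := by
      rw [mul_assoc, mul_assoc, Finset.sum_mul, Finset.sum_mul, Finset.mul_sum, Finset.mul_sum,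
        ← Finset.sum_add_distrib]
      exact Finset.sum_congr rfl fun κ _ => by ring
    have s2 : ∑ κ ∈ S, ∑ κ' ∈ S, c κ * c κ' *
        (d1 (uf κ) x * d1 (uf κ') x + d2 (uf κ) x * d2 (uf κ') x) =
        (∑ κ ∈ S, c κ * d1 (uf κ) x) * (∑ κ ∈ S, c κ * d1 (uf κ) x) +
          (∑ κ ∈ S, c κ * d2 (uf κ) x) * (∑ κ ∈ S, c κ * d2 (uf κ) x) := by
      rw [Finset.sum_mul_sum, Finset.sum_mul_sum, ← Finset.sum_add_distrib]
      refine Finset.sum_congr rfl fun κ _ => ?_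
      rw [← Finset.sum_add_distrib]
      exact Finset.sum_congr rfl fun κ' _ => by ring
    rw [s1, s2]
    ring
  simp_rw [e1] at h0
  have i1 : IntegrableOn (fun x =>
      ∑ κ ∈ S, 2 * c κ * (d1 (uf κ) x * d1 f x + d2 (uf κ) x * d2 f x)) T0 :=
    integrable_finsetSum _ fun κ _ => (iuf κ).const_mul _
  have i2 : IntegrableOn (fun x => ∑ κ ∈ S, ∑ κ' ∈ S, c κ * c κ' *
      (d1 (uf κ) x * d1 (uf κ') x + d2 (uf κ) x * d2 (uf κ') x)) T0 :=
    integrable_finsetSum _ fun κ _ => integrable_finsetSum _ fun κ' _ => (iuu κ κ').const_mul _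
  have i01 : IntegrableOn (fun x => (d1 f x ^ 2 + d2 f x ^ 2) -
      ∑ κ ∈ S, 2 * c κ * (d1 (uf κ) x * d1 f x + d2 (uf κ) x * d2 f x)) T0 := iff1.sub i1
  rw [integral_add i01 i2, integral_sub iff1 i1, ← hen,
    integral_finsetSum _ (fun κ _ => (iuf κ).const_mul _),
    integral_finsetSum _ (fun κ _ => integrable_finsetSum _
      fun κ' _ => (iuu κ κ').const_mul _)] at h0
  have t1 : ∑ κ ∈ S, ∫ x in T0, 2 * c κ * (d1 (uf κ) x * d1 f x + d2 (uf κ) x * d2 f x) =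
      2 * ∑ κ ∈ S, (mu κ)⁻¹ * cf0 f κ ^ 2 := by
    rw [Finset.mul_sum]
    refine Finset.sum_congr rfl fun κ _ => ?_
    rw [integral_const_mul, PE.green κ hf, hcint κ]
    linear_combination (2 * (mu κ)⁻¹) * hc1 κ
  have t2 : ∑ κ ∈ S, ∫ x in T0, ∑ κ' ∈ S, c κ * c κ' *
      (d1 (uf κ) x * d1 (uf κ') x + d2 (uf κ) x * d2 (uf κ') x) =
      ∑ κ ∈ S, (mu κ)⁻¹ * cf0 f κ ^ 2 := by
    refine Finset.sum_congr rfl fun κ hκ => ?_
    rw [integral_finsetSum _ (fun κ' _ => (iuu κ κ').const_mul _)]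
    simp_rw [integral_const_mul, grad_orth]
    rw [Finset.sum_eq_single κ]
    · rw [if_pos rfl]
      linear_combination (mu κ)⁻¹ * hc2 κ
    · intro κ' _ hne
      rw [if_neg (Ne.symm hne), mul_zero]
    · intro h
      exact absurd hκ h
  rw [t1, t2] at h0
  linarith

end Pool.Agent.MP4eed4eI
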