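import Pool.Agent.Lib.MP_4eed4e_an_I.LDef
import Pool.Agent.Lib.MP_4eed4e_an_I.TPar
import Pool.Agent.Lib.MP_4eed4e_an_PE.EHad

set_option autoImplicit false

/-!
Project I, block L: the numbers `e11`, `e12`, `e22` by integrals over the two short sides.
-/

namespace Pool.Agent.MP4eed4eI

open Pool.Agent.MP4eed4eP MeasureTheory Set Filter Topology

private theorem lHad_cb : Ci k1 0 = 1 ∧ Ci k1 1 = -2 ∧ Ci k1 2 = -3 ∧
    Bi k1 0 = 5 ∧ Bi k1 1 = 4 ∧ Bi k1 2 = -1 := by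
  refine ⟨?_, ?_, ?_, ?_, ?_, ?_⟩ <;> rfl

theorem gO_k1 (t : ℝ) : gO k1 t = 5 * Real.sin (Real.pi * t) - 4 * Real.sin (2 * Real.pi * t) +
    Real.sin (3 * Real.pi * t) := by
  obtain ⟨c0, c1, c2, b0, b1, b2⟩ := lHad_cb
  rw [gO, Fin.sum_univ_three, c0, c1, c2, b0, b1, b2]
  push_cast
  have e1 : (1 : ℝ) * (Real.pi * t) = Real.pi * t := one_mul _
  have e2 : (-2 : ℝ) * (Real.pi * t) = -(2 * Real.pi * t) := by ring
  have e3 : (-3 : ℝ) * (Real.pi * t) = -(3 * Real.pi * t) := by ring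
  rw [e1, e2, e3, Real.sin_neg, Real.sin_neg]
  ring

theorem gA_k1 (y : ℝ) : gA k1 y = -Real.sin (5 * Real.pi * y / 3) -
    2 * Real.sin (4 * Real.pi * y / 3) - 3 * Real.sin (Real.pi * y / 3) := by
  obtain ⟨c0, c1, c2, b0, b1, b2⟩ := lHad_cb
  rw [gA, Fin.sum_univ_three, c0, c1, c2, b0, b1, b2]
  push_cast
  have p2 : Real.cos ((-2 : ℝ) * Real.pi) = 1 := by
    have : (-2 : ℝ) * Real.pi = -(2 * Real.pi) := by ring
    rw [this, Real.cos_neg, Real.cos_two_pi]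
  have p3 : Real.cos ((-3 : ℝ) * Real.pi) = -1 := by
    have : (-3 : ℝ) * Real.pi = -(Real.pi + 2 * Real.pi) := by ring
    rw [this, Real.cos_neg, Real.cos_add_two_pi, Real.cos_pi]
  have e1 : (5 : ℝ) * (Real.pi * y / 3) = 5 * Real.pi * y / 3 := by ring
  have e2 : (4 : ℝ) * (Real.pi * y / 3) = 4 * Real.pi * y / 3 := by ring
  have e3 : (-1 : ℝ) * (Real.pi * y / 3) = -(Real.pi * y / 3) := by ring
  rw [one_mul (Real.pi : ℝ), Real.cos_pi, p2, p3, e1, e2, e3, Real.sin_neg]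
  ring

private theorem lHad_c0 : Continuous (uf k1) := (PE.cd_uf k1 0).continuous

private theorem lHad_c1 : Continuous (d1 (uf k1)) := (PE.cd_d1_uf k1 0).continuous

private theorem lHad_c2 : Continuous (d2 (uf k1)) := (PE.cd_d2_uf k1 0).continuous

private theorem lHad_mu : (mu k1)⁻¹ = 28 * Real.pi ^ 2 / 9 := by
  have h : nrm k1 = 7 := by
    change (3 * ((1 : ℕ) : ℝ) ^ 2 + ((5 : ℕ) : ℝ) ^ 2) / 4 = 7
    norm_num
  have hp := Real.pi_pos.ne'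
  rw [mu, h]
  field_simp
  norm_num

/-- Proof. `energy_T0` and `orth_uf`: `lam1 * (3 √3 / 8)`. -/
theorem e_sum : e11 + e22 = 7 * √3 * Real.pi ^ 2 / 6 := by
  have h1 := grad_orth k1 k1
  rw [if_pos rfl, lHad_mu, nuI] at h1
  have i1 : IntegrableOn (fun x => d1 (uf k1) x ^ 2) T0 := PE.intOn_cont (lHad_c1.pow 2)
  have i2 : IntegrableOn (fun x => d2 (uf k1) x ^ 2) T0 := PE.intOn_cont (lHad_c2.pow 2)
  have h2 : e11 + e22 =
      ∫ x in T0, (d1 (uf k1) x * d1 (uf k1) x + d2 (uf k1) x * d2 (uf k1) x) := by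
    rw [e11, e22, ← integral_add i1 i2]
    refine integral_congr_ae (Eventually.of_forall fun x => ?_)
    dsimp only
    ring
  rw [h2, h1]
  ring

/-- Proof. `PE.hadamard k1 (√3, 1)` with `ψ = Prod.fst` (`W.1 - √3 W.2 = 0`): the left side is
`∫_{T0} Z1 = √3 * ∫ (|∇u|² - Λ u²) - 2 ∫ (√3 d1 u + d2 u) d1 u = - 2 (√3 e11 + e12)` (`energy_T0`).
-/
theorem e_A1 : √3 * e11 + e12 = Real.pi ^ 2 / 2 * ((∫ y in (0 : ℝ)..1, gA k1 y ^ 2) -
    (∫ t in (0 : ℝ)..1, gO k1 t ^ 2 * t) / 3) := by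
  have hs3 : √(3 : ℝ) * √3 = 3 := Real.mul_self_sqrt (by norm_num)
  have h := PE.hadamard k1 (√3, 1) (ψ := Prod.fst) LipschitzWith.prod_fst (fun y _ => by
    dsimp only
    ring)
  have g1 : ∀ x : P, d1 (Prod.fst : P → ℝ) x = 1 := fun x => by
    rw [d1, fderiv_fst]
    rfl
  have g2 : ∀ x : P, d2 (Prod.fst : P → ℝ) x = 0 := fun x => by
    rw [d2, fderiv_fst]
    rfl
  have i0 : IntegrableOn (fun x => √3 * (d1 (uf k1) x ^ 2 + d2 (uf k1) x ^ 2 -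
      (mu k1)⁻¹ * uf k1 x ^ 2)) T0 :=
    PE.intOn_cont (continuous_const.mul (((lHad_c1.pow 2).add (lHad_c2.pow 2)).sub
      (continuous_const.mul (lHad_c0.pow 2))))
  have i1 : IntegrableOn (fun x => √3 * d1 (uf k1) x ^ 2) T0 :=
    PE.intOn_cont (continuous_const.mul (lHad_c1.pow 2))
  have i2 : IntegrableOn (fun x => d1 (uf k1) x * d2 (uf k1) x) T0 :=
    PE.intOn_cont (lHad_c1.mul lHad_c2)
  have i12 : IntegrableOn (fun x => √3 * d1 (uf k1) x ^ 2 + d1 (uf k1) x * d2 (uf k1) x) T0 :=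
    i1.add i2
  have h2 : ∫ x in T0, (d1 Prod.fst x * PE.Z1 k1 (√3, 1) x + d2 Prod.fst x *
      PE.Z2 k1 (√3, 1) x) = -(2 * (√3 * e11 + e12)) := by
    have h3 : ∫ x in T0, (d1 Prod.fst x * PE.Z1 k1 (√3, 1) x + d2 Prod.fst x *
        PE.Z2 k1 (√3, 1) x) = ∫ x in T0, (√3 * (d1 (uf k1) x ^ 2 + d2 (uf k1) x ^ 2 -
        (mu k1)⁻¹ * uf k1 x ^ 2) - 2 * (√3 * d1 (uf k1) x ^ 2 +
          d1 (uf k1) x * d2 (uf k1) x)) := by
      refine integral_congr_ae (Eventually.of_forall fun x => ?_)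
      dsimp only
      rw [g1, g2, PE.Z1]
      ring
    rw [h3, integral_sub i0 (i12.const_mul 2), integral_const_mul, energy_T0,
      integral_const_mul, integral_add i1 i2, integral_const_mul, ← e11, ← e12]
    ring
  rw [h2] at h
  have h4 : ∫ t in (0 : ℝ)..1, gO k1 t ^ 2 * (Prod.fst ((√3 * t, 0) : P) : ℝ) =
      √3 * ∫ t in (0 : ℝ)..1, gO k1 t ^ 2 * t := by
    rw [← intervalIntegral.integral_const_mul]
    refine intervalIntegral.integral_congr fun t _ => ?_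
    dsimp only
    ring
  have h5 : ∫ y in (0 : ℝ)..1, gA k1 y ^ 2 * (Prod.fst ((√3, y) : P) : ℝ) =
      √3 * ∫ y in (0 : ℝ)..1, gA k1 y ^ 2 := by
    rw [← intervalIntegral.integral_const_mul]
    refine intervalIntegral.integral_congr fun t _ => ?_
    dsimp only
    ring
  rw [h4, h5] at h
  dsimp only at h
  linear_combination (-1 / 2 : ℝ) * h +
    (Real.pi ^ 2 / 6 * (∫ y in (0 : ℝ)..1, gA k1 y ^ 2) -
      Real.pi ^ 2 / 18 * ∫ t in (0 : ℝ)..1, gO k1 t ^ 2 * t) * hs3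

/-- Proof. The same with `ψ = Prod.snd`. -/
theorem e_A2 : √3 * e12 + e22 = √3 * Real.pi ^ 2 / 6 * ∫ y in (0 : ℝ)..1, gA k1 y ^ 2 * y := by
  have hs3 : √(3 : ℝ) * √3 = 3 := Real.mul_self_sqrt (by norm_num)
  have h := PE.hadamard k1 (√3, 1) (ψ := Prod.snd) LipschitzWith.prod_snd (fun y _ => by
    dsimp only
    ring)
  have g1 : ∀ x : P, d1 (Prod.snd : P → ℝ) x = 0 := fun x => by
    rw [d1, fderiv_snd]
    rfl
  have g2 : ∀ x : P, d2 (Prod.snd : P → ℝ) x = 1 := fun x => by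
    rw [d2, fderiv_snd]
    rfl
  have i0 : IntegrableOn (fun x => d1 (uf k1) x ^ 2 + d2 (uf k1) x ^ 2 -
      (mu k1)⁻¹ * uf k1 x ^ 2) T0 :=
    PE.intOn_cont (((lHad_c1.pow 2).add (lHad_c2.pow 2)).sub
      (continuous_const.mul (lHad_c0.pow 2)))
  have i1 : IntegrableOn (fun x => √3 * (d1 (uf k1) x * d2 (uf k1) x)) T0 :=
    PE.intOn_cont (continuous_const.mul (lHad_c1.mul lHad_c2))
  have i2 : IntegrableOn (fun x => d2 (uf k1) x ^ 2) T0 :=
    PE.intOn_cont (lHad_c2.pow 2)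
  have i12 : IntegrableOn (fun x => √3 * (d1 (uf k1) x * d2 (uf k1) x) + d2 (uf k1) x ^ 2) T0 :=
    i1.add i2
  have h2 : ∫ x in T0, (d1 Prod.snd x * PE.Z1 k1 (√3, 1) x + d2 Prod.snd x *
      PE.Z2 k1 (√3, 1) x) = -(2 * (√3 * e12 + e22)) := by
    have h3 : ∫ x in T0, (d1 Prod.snd x * PE.Z1 k1 (√3, 1) x + d2 Prod.snd x *
        PE.Z2 k1 (√3, 1) x) = ∫ x in T0, (d1 (uf k1) x ^ 2 + d2 (uf k1) x ^ 2 -
        (mu k1)⁻¹ * uf k1 x ^ 2 - 2 * (√3 * (d1 (uf k1) x * d2 (uf k1) x) +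
          d2 (uf k1) x ^ 2)) := by
      refine integral_congr_ae (Eventually.of_forall fun x => ?_)
      dsimp only
      rw [g1, g2, PE.Z2]
      ring
    rw [h3, integral_sub i0 (i12.const_mul 2), energy_T0,
      integral_const_mul, integral_add i1 i2, integral_const_mul, ← e12, ← e22]
    ring
  rw [h2] at h
  have h4 : ∫ t in (0 : ℝ)..1, gO k1 t ^ 2 * (Prod.snd ((√3 * t, 0) : P) : ℝ) = 0 := by
    simp only [mul_zero, intervalIntegral.integral_zero]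
  have h5 : ∫ y in (0 : ℝ)..1, gA k1 y ^ 2 * (Prod.snd ((√3, y) : P) : ℝ) =
      ∫ y in (0 : ℝ)..1, gA k1 y ^ 2 * y := rfl
  rw [h4, h5] at h
  dsimp only at h
  linear_combination (-1 / 2 : ℝ) * h

end Pool.Agent.MP4eed4eI
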