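import Pool.Agent.Lib.MP_4eed4e_an_I.IDefs
import Pool.Agent.Lib.MP_4eed4e_an_PE.EDer
import Pool.Agent.Lib.MP_4eed4e_an_PE.ECpl
import Pool.Agent.Lib.MP_4eed4e_an_PE.EOrt
import Pool.Agent.Lib.MP_4eed4e_an_PA.OutA
import Pool.Agent.Lib.MP_4eed4e_an_PD.DLam
import Pool.Agent.Lib.MP_4eed4e_an_PD.DTri

set_option autoImplicit false

/-!
Project I, block T: the spectrum of the triangle `T0`.
-/

namespace Pool.Agent.MP4eed4eI

open Pool.Agent.MP4eed4eP MeasureTheory Set Filter Topology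

private theorem TSpec_inf : Infinite KS := by
  refine Infinite.of_injective (fun n : ℕ => (⟨(1, 5 + 2 * n), by
    refine ⟨le_refl 1, ?_, ?_⟩
    · change 3 * 1 < 5 + 2 * n
      omega
    · change 1 % 2 = (5 + 2 * n) % 2
      omega⟩ : KS)) ?_
  intro a b hab
  have h1 : (5 + 2 * a : ℕ) = 5 + 2 * b := congrArg (fun κ : KS => κ.1.2) hab
  omega

/-- The eigenvalues of `T0` are the numbers `(mu κ)⁻¹` in increasing order.

Proof. Take `m = 0`, `th : Fin 0 → ℝ`: `Dom (cs th) = T0` (`Dom_cs`), so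
`lamL T0 k = PA.mm ioT (AA c) (RT c) GG k` (`lamL_Dom_eq`), `c = cs th`. `PE.exists_g` gives
`g κ : HH` with `ioT (g κ) = clT (uh th κ)`; it is an eigenvector in the strong form (block PE:
`EWeak`, `PA.strong_of_weak`, `PA.eig_of_strong`; compare the proof of `PE.fderiv_gen`), the
functions `RT c (clT (uh th κ))` are orthogonal with norm square `nu2` (`bform_uh`) and complete
(`cpl_uh`). Normalise: a `PA.Eig` system indexed by `KS` with the values `mu κ`. `PA.exists_enum`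
with `PA.finite_of_summable_sq` (`summable_mu`) enumerates it decreasingly, `PA.mm_eq` gives
`PA.mm .. (n + 1) = (mu (e n))⁻¹` (dense: `dense_GG`). -/
theorem lamL_T0 : ∃ e : ℕ ≃ KS, Antitone (fun n => mu (e n)) ∧
    ∀ n, lamL T0 (n + 1) = (mu (e n))⁻¹ := by
  obtain ⟨th, h⟩ : ∃ th : Fin 0 → ℝ, th ∈ MK 0 :=
    ⟨Fin.elim0, Subsingleton.strictMono _, fun i => i.elim0⟩
  have hc := cs_mem th h
  have hnu := PE.nu2_pos
  choose g0 hg0 hio0 using PE.exists_g th h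
  obtain ⟨q, hq⟩ : ∃ q : ℝ, q = (√PE.nu2)⁻¹ := ⟨_, rfl⟩
  have hq2 : q * q * PE.nu2 = 1 := by
    rw [hq]
    have h1 : √PE.nu2 * √PE.nu2 = PE.nu2 := Real.mul_self_sqrt hnu.le
    have h2 : √PE.nu2 ≠ 0 := (Real.sqrt_pos.2 hnu).ne'
    field_simp
    rw [sq, h1]
  have hq0 : q ≠ 0 := by
    intro h0
    rw [h0] at hq2
    simp at hq2
  have hinner : ∀ κ κ', (inner ℝ (RT (cs th) (ioT (q • g0 κ))) (RT (cs th) (ioT (q • g0 κ'))) : ℝ)
      = if κ = κ' then 1 else 0 := by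
    intro κ κ'
    rw [map_smul, map_smul, map_smul, map_smul, real_inner_smul_left, real_inner_smul_right,
      hio0, hio0, PE.inner_RT hc (PE.memLp_uh th h κ) (PE.memLp_uh th h κ'), PE.bform_uh th h]
    split_ifs with h1
    · rw [← hq2]
      unfold PE.nu2
      ring
    · simp
  have hon : Orthonormal ℝ (fun κ => RT (cs th) (ioT (q • g0 κ))) := by
    rw [orthonormal_iff_ite]
    exact hinner
  have hcpl : ∀ f : LL, (∀ κ, (inner ℝ (RT (cs th) (ioT (q • g0 κ))) f : ℝ) = 0) → f = 0 := by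
    intro f hf
    refine PE.cpl_uh th h f fun κ => ?_
    have h1 := hf κ
    rw [map_smul, map_smul, real_inner_smul_left, hio0] at h1
    exact (mul_eq_zero.1 h1).resolve_left hq0
  have hg : ∀ κ, AA (cs th) (q • g0 κ) = (mu κ)⁻¹ • ContinuousLinearMap.adjoint ioT
      (RT (cs th) (RT (cs th) (ioT (q • g0 κ)))) := by
    intro κ
    have h1 := PE.strong_eq th h κ (hg0 κ) (hio0 κ)
    simp only [map_smul]
    rw [h1, smul_comm]
  have hEig : PA.Eig (PA.SS ioT (AA (cs th)) (RT (cs th)))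
      (fun κ => RT (cs th) (ioT (q • g0 κ))) mu :=
    ⟨hon, hcpl, PE.mu_pos, fun κ => PA.eig_of_strong (coer_AA hc) (PE.mu_pos κ).ne' (hg κ)⟩
  have := TSpec_inf
  obtain ⟨e, he⟩ := PA.exists_enum mu PE.mu_pos
    (fun ε hε => PA.finite_of_summable_sq PE.mu_pos summable_mu hε)
  have hE : PA.Eig (PA.SS ioT (AA (cs th)) (RT (cs th)))
      (fun n => RT (cs th) (ioT (q • g0 (e n)))) (fun n => mu (e n)) := by
    refine ⟨hEig.on.comp _ e.injective, fun f hf => hEig.cpl f fun κ => ?_,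
      fun n => PE.mu_pos _, fun n => hEig.eig _⟩
    have h1 := hf (e.symm κ)
    simpa using h1
  refine ⟨e, he, fun n => ?_⟩
  rw [← Dom_cs th h, lamL_Dom_eq hc]
  exact PA.mm_eq (coer_AA hc) ((cut_chi 0).RR_sym _) hE he
    (Submodule.dense_iff_topologicalClosure_eq_top.2 dense_GG) n

/-- If `S` is the set of all `κ` with `(mu κ)⁻¹ < (mu κ0)⁻¹`, then `S` is finite and
`lamL T0 (card S + 1) ≥ (mu κ0)⁻¹`.

Proof. With `e` from `lamL_T0`: `e ⁻¹' S` is an initial segment of `ℕ` (antitone), so it is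
`{0, .., N - 1}`, `N = card S`, and `e N ∉ S`. -/
theorem lamL_T0_ge (κ0 : KS) : ∃ S : Finset KS, (∀ κ, κ ∈ S ↔ (mu κ)⁻¹ < (mu κ0)⁻¹) ∧
    (mu κ0)⁻¹ ≤ lamL T0 (S.card + 1) := by
  obtain ⟨e, he, hl⟩ := lamL_T0
  have hiff : ∀ κ, (mu κ)⁻¹ < (mu κ0)⁻¹ ↔ mu κ0 < mu κ := fun κ =>
    inv_lt_inv₀ (PE.mu_pos κ) (PE.mu_pos κ0)
  have hfin : {κ | (mu κ)⁻¹ < (mu κ0)⁻¹}.Finite := by
    refine (PA.finite_of_summable_sq PE.mu_pos summable_mu (PE.mu_pos κ0)).subset ?_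
    intro κ hκ
    exact ((hiff κ).1 hκ).le
  refine ⟨hfin.toFinset, fun κ => by rw [Set.Finite.mem_toFinset]; exact Iff.rfl, ?_⟩
  rw [hl]
  by_contra hcon
  have h1 : (mu (e hfin.toFinset.card))⁻¹ < (mu κ0)⁻¹ := not_le.1 hcon
  have h2 := (hiff _).1 h1
  have h3 : ∀ n ≤ hfin.toFinset.card, e n ∈ hfin.toFinset := by
    intro n hn
    rw [Set.Finite.mem_toFinset]
    have h4 : mu κ0 < mu (e n) := lt_of_lt_of_le h2 (he hn)
    exact (hiff _).2 h4
  have h5 : ((Finset.range (hfin.toFinset.card + 1)).map e.toEmbedding).card ≤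
      hfin.toFinset.card := by
    refine Finset.card_le_card fun κ hκ => ?_
    obtain ⟨n, hn, rfl⟩ := Finset.mem_map.1 hκ
    exact h3 n (Nat.lt_succ_iff.1 (Finset.mem_range.1 hn))
  rw [Finset.card_map, Finset.card_range] at h5
  omega

/-- The first eigenvalue belongs to `κ = (1, 5)`, `nrm κ = 7`; all other ones are larger.

Proof. `nrm κ = (3 M² + M'²) / 4` with `M ≥ 1`, `M' > 3 M`, `M = M'` mod 2: `M' ≥ 5`; if `M ≥ 2`
then `M' ≥ 8` and `nrm ≥ 19`; if `M = 1`, `M' ≥ 7` then `nrm ≥ 13`. `e 0` must be `(1, 5)`. -/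
theorem first_T0 : lamL T0 1 = 28 * Real.pi ^ 2 / 9 ∧ ∃ κ1 : KS, κ1.1 = (1, 5) ∧
    (mu κ1)⁻¹ = 28 * Real.pi ^ 2 / 9 ∧ ∀ κ, κ ≠ κ1 → 52 * Real.pi ^ 2 / 9 ≤ (mu κ)⁻¹ := by
  obtain ⟨e, he, hl⟩ := lamL_T0
  have hpi := Real.pi_pos
  have hinv : ∀ κ, (mu κ)⁻¹ = 4 * Real.pi ^ 2 * nrm κ / 9 := by
    intro κ
    unfold mu
    rw [inv_div]
  obtain ⟨κ1, h1⟩ : ∃ κ1 : KS, κ1.1 = (1, 5) := ⟨⟨(1, 5), by decide⟩, rfl⟩
  have h2 : (mu κ1)⁻¹ = 28 * Real.pi ^ 2 / 9 := by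
    rw [hinv]
    unfold nrm
    rw [h1]
    norm_num
    ring
  have h3 : ∀ κ, κ ≠ κ1 → 52 * Real.pi ^ 2 / 9 ≤ (mu κ)⁻¹ := by
    intro κ hκ
    have h4 : 13 ≤ nrm κ := by
      obtain ⟨⟨M, M'⟩, q1, q2, q3⟩ := κ
      simp only at q1 q2 q3
      unfold nrm
      change 13 ≤ (3 * (M : ℝ) ^ 2 + (M' : ℝ) ^ 2) / 4
      rcases Nat.lt_or_ge 1 M with hM | hM
      · have e1 : (2 : ℝ) ≤ M := by exact_mod_cast hM
        have e2 : (7 : ℝ) ≤ M' := by
          have : 7 ≤ M' := by omega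
          exact_mod_cast this
        nlinarith
      · have hM1 : M = 1 := by omega
        subst hM1
        have hM' : M' ≠ 5 := by
          rintro rfl
          exact hκ (Subtype.ext h1.symm)
        have e2 : (7 : ℝ) ≤ M' := by
          have : 7 ≤ M' := by omega
          exact_mod_cast this
        push_cast
        nlinarith
    rw [hinv]
    have h5 : 0 < Real.pi ^ 2 := by positivity
    nlinarith
  refine ⟨?_, κ1, h1, h2, h3⟩
  have h4 : e 0 = κ1 := by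
    by_contra hne
    have h5 := h3 _ hne
    have h6 : mu κ1 ≤ mu (e 0) := by
      have h7 := he (Nat.zero_le (e.symm κ1))
      simpa using h7
    have h8 : (mu (e 0))⁻¹ ≤ (mu κ1)⁻¹ := inv_anti₀ (PE.mu_pos κ1) h6
    rw [h2] at h8
    have h9 : 0 < Real.pi ^ 2 := by positivity
    nlinarith
  have h5 := hl 0
  rw [h4, h2, zero_add] at h5
  exact h5

end Pool.Agent.MP4eed4eI
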