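import Pool.Agent.Lib.MP_4eed4e_an_I.LDef
import Pool.Agent.Lib.MP_4eed4e_an_I.TSpec
import Pool.Agent.Lib.MP_4eed4e_an_I.TPar

set_option autoImplicit false

/-!
Project I, block L: a perturbation of the energy form on `T0`.
-/

namespace Pool.Agent.MP4eed4eI

open Pool.Agent.MP4eed4eP MeasureTheory Set Filter Topology

/-- `k1` is the parameter of `first_T0`. -/
theorem mu_k1 : (mu k1)⁻¹ = lam1 ∧ ∀ κ : KS, κ ≠ k1 → 52 * Real.pi ^ 2 / 9 ≤ (mu κ)⁻¹ := by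
  obtain ⟨_, κ1, h1, h2, h3⟩ := first_T0
  have h4 : κ1 = k1 := Subtype.ext h1
  rw [h4] at h2 h3
  exact ⟨h2, h3⟩

private theorem LRit_c1 : Continuous (d1 (uf k1)) := (PE.cd_d1_uf k1 0).continuous

private theorem LRit_c2 : Continuous (d2 (uf k1)) := (PE.cd_d2_uf k1 0).continuous

private theorem LRit_int {a b : P → ℝ} (ha : Measurable a) (hb : Measurable b) {K : ℝ}
    (h1 : ∀ x, |a x| ≤ K) (h2 : ∀ x, |b x| ≤ K) : IntegrableOn (fun x => a x * b x) T0 := by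
  refine Measure.integrableOn_of_bounded PE.volume_T0_lt_top.ne
    (ha.mul hb).aestronglyMeasurable (M := K * K) (Eventually.of_forall fun x => ?_)
  rw [Real.norm_eq_abs, abs_mul]
  exact mul_le_mul (h1 x) (h2 x) (abs_nonneg _) ((abs_nonneg _).trans (h1 x))

private theorem LRit_gg {g : P → ℝ} (hg : LipC T0 g) :
    IntegrableOn (fun x => d1 g x ^ 2) T0 ∧ IntegrableOn (fun x => d1 g x * d2 g x) T0 ∧
      IntegrableOn (fun x => d2 g x ^ 2) T0 := by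
  obtain ⟨K, hK⟩ := hg.1
  have h11 := LRit_int (measurable_d1 g) (measurable_d1 g) (abs_d1_le hK) (abs_d1_le hK)
  have h12 := LRit_int (measurable_d1 g) (measurable_d2 g) (abs_d1_le hK) (abs_d2_le hK)
  have h22 := LRit_int (measurable_d2 g) (measurable_d2 g) (abs_d2_le hK) (abs_d2_le hK)
  refine ⟨?_, h12, ?_⟩
  · simpa only [sq] using h11
  · simpa only [sq] using h22

private theorem LRit_uu : IntegrableOn (fun x => d1 (uf k1) x ^ 2) T0 ∧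
    IntegrableOn (fun x => d1 (uf k1) x * d2 (uf k1) x) T0 ∧
      IntegrableOn (fun x => d2 (uf k1) x ^ 2) T0 :=
  ⟨PE.intOn_cont (LRit_c1.pow 2), PE.intOn_cont (LRit_c1.mul LRit_c2),
    PE.intOn_cont (LRit_c2.pow 2)⟩

private theorem LRit_ug {g : P → ℝ} (hg : LipC T0 g) :
    IntegrableOn (fun x => d1 (uf k1) x * d1 g x + d2 (uf k1) x * d2 g x) T0 := by
  obtain ⟨K, hK⟩ := hg.1
  refine ((PE.intOn_d1_mul hK LRit_c1).add (PE.intOn_d2_mul hK LRit_c2)).congr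
    (Eventually.of_forall fun x => ?_)
  simp only [Pi.add_apply]
  ring

private theorem LRit_en {g : P → ℝ} (hg : LipC T0 g) :
    ∫ x in T0, (d1 g x ^ 2 + d2 g x ^ 2) = en g := by
  rw [en]
  refine setIntegral_eq_integral_of_forall_compl_eq_zero fun x hx => ?_
  rw [d1_zero_of_notMem fun h => hx (hg.2.2 h), d2_zero_of_notMem fun h => hx (hg.2.2 h)]
  norm_num

private theorem LRit_e : e11 + e22 = lam1 * nuI := by
  have h1 := grad_orth k1 k1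
  rw [if_pos rfl, mu_k1.1] at h1
  rw [← h1, e11, e22, ← integral_add LRit_uu.1 LRit_uu.2.2]
  refine integral_congr_ae (Eventually.of_forall fun x => ?_)
  dsimp only
  ring

private theorem LRit_sq : √nuI ^ 2 = nuI := Real.sq_sqrt nuI_pos.le

private theorem LRit_s : 0 < √nuI := Real.sqrt_pos.2 nuI_pos

/-- The gap: with `α = cf0 g k1`.

Proof. For a finite set `S` of parameters which contains `k1`: `bessel_T0` gives
`lam1 * α² + 52 π² / 9 * ∑ κ ∈ S \ {k1}, cf0 g κ ^ 2 ≤ en g`; by `parseval_T0` the supremum over `S` of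
the sum is `l2 g - α²` (`HasSum` and `le_of_tendsto`). The second claim is `le_hasSum` for
`parseval_T0`. -/
theorem gap_T0 {g : P → ℝ} (hg : LipC T0 g) :
    lam1 * cf0 g k1 ^ 2 + 52 * Real.pi ^ 2 / 9 * (l2 g - cf0 g k1 ^ 2) ≤ en g ∧
      cf0 g k1 ^ 2 ≤ l2 g := by
  have hP := parseval_T0 hg
  obtain ⟨m1, m2⟩ := mu_k1
  refine ⟨?_, le_hasSum hP k1 fun κ _ => sq_nonneg _⟩
  have h1 : HasSum (fun κ => 52 * Real.pi ^ 2 / 9 * cf0 g κ ^ 2 +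
      (if κ = k1 then (lam1 - 52 * Real.pi ^ 2 / 9) * cf0 g k1 ^ 2 else 0))
      (52 * Real.pi ^ 2 / 9 * l2 g + (lam1 - 52 * Real.pi ^ 2 / 9) * cf0 g k1 ^ 2) :=
    (hP.mul_left _).add (hasSum_ite_eq k1 _)
  have h2 : 52 * Real.pi ^ 2 / 9 * l2 g + (lam1 - 52 * Real.pi ^ 2 / 9) * cf0 g k1 ^ 2 ≤
      en g := by
    refine hasSum_le_of_sum_le h1 fun S =>
      le_trans (Finset.sum_le_sum fun κ _ => ?_) (bessel_T0 hg S)
    by_cases h : κ = k1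
    · subst h
      rw [if_pos rfl, m1]
      exact le_of_eq (by ring)
    · rw [if_neg h, add_zero]
      exact mul_le_mul_of_nonneg_right (m2 κ h) (sq_nonneg _)
  linarith

/-- The energy of the rest `g - (α / √nuI) u` on `T0`, `α = cf0 g k1`.

Proof. Expand the square: `∫_{T0} |∇g|² = en g` (`g` vanishes off `T0`),
`∫_{T0} ∇u·∇g = lam1 ∫_{T0} u g = lam1 α √nuI` (`PE.green`), `∫_{T0} |∇u|² = lam1 nuI` (`grad_orth`).
Integrability on `T0`: `d1 g`, `d2 g` are bounded and measurable, `d1 u`, `d2 u` are continuous. -/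
theorem rest_T0 {g : P → ℝ} (hg : LipC T0 g) :
    ∫ x in T0, ((d1 g x - cf0 g k1 / √nuI * d1 (uf k1) x) ^ 2 +
      (d2 g x - cf0 g k1 / √nuI * d2 (uf k1) x) ^ 2) = en g - lam1 * cf0 g k1 ^ 2 := by
  obtain ⟨c, hc⟩ : ∃ c, c = cf0 g k1 / √nuI := ⟨_, rfl⟩
  rw [← hc]
  have hs := LRit_s
  have hs2 := LRit_sq
  have hcα : c * √nuI = cf0 g k1 := by
    rw [hc, div_mul_cancel₀ _ hs.ne']
  have h1 : ∫ x in T0, (d1 (uf k1) x * d1 g x + d2 (uf k1) x * d2 g x) =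
      lam1 * (cf0 g k1 * √nuI) := by
    rw [PE.green k1 hg, mu_k1.1, cf0, div_mul_cancel₀ _ hs.ne']
  have h2 := grad_orth k1 k1
  rw [if_pos rfl, mu_k1.1] at h2
  have i1 : IntegrableOn (fun x => d1 g x ^ 2 + d2 g x ^ 2) T0 :=
    (LRit_gg hg).1.add (LRit_gg hg).2.2
  have i2 : IntegrableOn
      (fun x => 2 * c * (d1 (uf k1) x * d1 g x + d2 (uf k1) x * d2 g x)) T0 :=
    (LRit_ug hg).const_mul _
  have i3 : IntegrableOn (fun x => c ^ 2 *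
      (d1 (uf k1) x * d1 (uf k1) x + d2 (uf k1) x * d2 (uf k1) x)) T0 :=
    PE.intOn_cont (continuous_const.mul
      ((LRit_c1.mul LRit_c1).add (LRit_c2.mul LRit_c2)))
  have h3 : ∫ x in T0, ((d1 g x - c * d1 (uf k1) x) ^ 2 + (d2 g x - c * d2 (uf k1) x) ^ 2) =
      ∫ x in T0, ((d1 g x ^ 2 + d2 g x ^ 2) -
        2 * c * (d1 (uf k1) x * d1 g x + d2 (uf k1) x * d2 g x) +
        c ^ 2 * (d1 (uf k1) x * d1 (uf k1) x + d2 (uf k1) x * d2 (uf k1) x)) := by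
    refine integral_congr_ae (Eventually.of_forall fun x => ?_)
    dsimp only
    ring
  have i12 : IntegrableOn (fun x => (d1 g x ^ 2 + d2 g x ^ 2) -
      2 * c * (d1 (uf k1) x * d1 g x + d2 (uf k1) x * d2 g x)) T0 := i1.sub i2
  rw [h3, integral_add i12 i3, integral_sub i1 i2, integral_const_mul, integral_const_mul,
    h1, h2, LRit_en hg]
  linear_combination (-2 * lam1 * cf0 g k1 + lam1 * (c * √nuI + cf0 g k1)) * hcα -
    c ^ 2 * lam1 * hs2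

private theorem LRit_two {x y X Y : ℝ} (hx : |x| ≤ X) (hy : |y| ≤ Y) : -(X * Y) ≤ x * y := by
  have h1 := abs_le.1 (show |x * y| ≤ X * Y by
    rw [abs_mul]
    exact mul_le_mul hx hy (abs_nonneg _) ((abs_nonneg _).trans hx))
  exact h1.1

private theorem LRit_cross {δ s11 s12 s22 : ℝ} (h11 : |s11| ≤ δ) (h12 : |s12| ≤ δ)
    (h22 : |s22| ≤ δ) (y1 y2 z1 z2 : ℝ) :
    -(40 * δ ^ 2 * (y1 ^ 2 + y2 ^ 2)) - 1 / 10 * (z1 ^ 2 + z2 ^ 2) ≤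
      2 * (s11 * (y1 * z1) + s12 * (y1 * z2 + y2 * z1) + s22 * (y2 * z2)) := by
  have t1 := LRit_two h11 (le_of_eq (abs_mul y1 z1))
  have t2 := LRit_two h12 (le_of_eq (abs_mul y1 z2))
  have t3 := LRit_two h12 (le_of_eq (abs_mul y2 z1))
  have t4 := LRit_two h22 (le_of_eq (abs_mul y2 z2))
  have q1 : |y1| ^ 2 = y1 ^ 2 := sq_abs _
  have q2 : |y2| ^ 2 = y2 ^ 2 := sq_abs _
  have q3 : |z1| ^ 2 = z1 ^ 2 := sq_abs _
  have q4 : |z2| ^ 2 = z2 ^ 2 := sq_abs _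
  rw [← q1, ← q2, ← q3, ← q4]
  obtain ⟨a, ha⟩ : ∃ a, a = |y1| := ⟨_, rfl⟩
  obtain ⟨b, hb⟩ : ∃ b, b = |y2| := ⟨_, rfl⟩
  obtain ⟨c, hc⟩ : ∃ c, c = |z1| := ⟨_, rfl⟩
  obtain ⟨d, hd⟩ : ∃ d, d = |z2| := ⟨_, rfl⟩
  rw [← ha, ← hb, ← hc, ← hd]
  rw [← ha, ← hc] at t1
  rw [← ha, ← hd] at t2
  rw [← hb, ← hc] at t3
  rw [← hb, ← hd] at t4
  have h5 : 0 ≤ 20 * (δ * (a + b) - (c + d) / 20) ^ 2 := by positivity
  have h6 : 0 ≤ 20 * δ ^ 2 * (a - b) ^ 2 := by positivity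
  have h7 : 0 ≤ 1 / 20 * (c - d) ^ 2 := by positivity
  linarith

private theorem LRit_diag {δ s11 s12 s22 : ℝ} (hδ : 0 ≤ δ) (h11 : |s11| ≤ δ) (h12 : |s12| ≤ δ)
    (h22 : |s22| ≤ δ) (z1 z2 : ℝ) :
    -(2 * δ * (z1 ^ 2 + z2 ^ 2)) ≤ s11 * z1 ^ 2 + 2 * s12 * (z1 * z2) + s22 * z2 ^ 2 := by
  have t1 := mul_le_mul_of_nonneg_right (abs_le.1 h11).1 (sq_nonneg z1)
  have t4 := mul_le_mul_of_nonneg_right (abs_le.1 h22).1 (sq_nonneg z2)
  have t2 := LRit_two h12 (le_of_eq (abs_mul z1 z2))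
  have q3 : |z1| ^ 2 = z1 ^ 2 := sq_abs _
  have q4 : |z2| ^ 2 = z2 ^ 2 := sq_abs _
  have h7 : 0 ≤ δ * (|z1| - |z2|) ^ 2 := by positivity
  have h8 : δ * (|z1| - |z2|) ^ 2 = δ * z1 ^ 2 + δ * z2 ^ 2 - 2 * (δ * (|z1| * |z2|)) := by
    rw [← q3, ← q4]
    ring
  linarith

private theorem LRit_R {δ s11 s12 s22 : ℝ} (h11 : |s11| ≤ δ) (h12 : |s12| ≤ δ)
    (h22 : |s22| ≤ δ) : s11 * e11 + 2 * s12 * e12 + s22 * e22 ≤ 2 * δ * (lam1 * nuI) := by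
  obtain ⟨u11, u12, u22⟩ := LRit_uu
  have he := LRit_e
  have h1 : 0 ≤ e11 := integral_nonneg fun x => sq_nonneg _
  have h2 : 0 ≤ e22 := integral_nonneg fun x => sq_nonneg _
  have h3 : ∀ σ : ℝ, σ ^ 2 = 1 → 0 ≤ e11 + 2 * σ * e12 + e22 := by
    intro σ hσ
    have h4 : 0 ≤ ∫ x in T0, (d1 (uf k1) x + σ * d2 (uf k1) x) ^ 2 :=
      integral_nonneg fun x => sq_nonneg _
    have h5 : ∫ x in T0, (d1 (uf k1) x + σ * d2 (uf k1) x) ^ 2 =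
        ∫ x in T0, (d1 (uf k1) x ^ 2 + 2 * σ * (d1 (uf k1) x * d2 (uf k1) x) +
          d2 (uf k1) x ^ 2) := by
      refine integral_congr_ae (Eventually.of_forall fun x => ?_)
      dsimp only
      linear_combination (d2 (uf k1) x ^ 2) * hσ
    have i1 : IntegrableOn (fun x => d1 (uf k1) x ^ 2 +
        2 * σ * (d1 (uf k1) x * d2 (uf k1) x)) T0 := u11.add (u12.const_mul _)
    rw [h5, integral_add i1 u22, integral_add u11 (u12.const_mul _), integral_const_mul] at h4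
    exact h4
  have h6 := h3 1 (by norm_num)
  have h7 := h3 (-1) (by norm_num)
  have hδ : 0 ≤ δ := (abs_nonneg _).trans h11
  have h8 : |e12| ≤ (e11 + e22) / 2 := abs_le.2 ⟨by linarith, by linarith⟩
  have t1 := mul_le_mul_of_nonneg_right (abs_le.1 h11).2 h1
  have t2 := mul_le_mul_of_nonneg_right (abs_le.1 h22).2 h2
  have t3 : s12 * e12 ≤ δ * ((e11 + e22) / 2) := by
    refine (le_abs_self _).trans ?_
    rw [abs_mul]
    exact mul_le_mul h12 h8 (abs_nonneg _) hδ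
  rw [← he]
  linarith

/-- The perturbed form.

Proof. Write `α = cf0 g k1`, `w = u / √nuI`, `h_i = d_i g - α d_i w`, `E = ∫_{T0} (h1² + h2²)`
(`= en g - lam1 α²`, `rest_T0`). The pointwise identity for `d_i g = α d_i w + h_i` and the
inequality `2 α (s11 w1 h1 + s12 (w1 h2 + w2 h1) + s22 w2 h2) ≥ - δ (2 |α|) (|w1| + |w2|) (|h1| + |h2|)
≥ - 40 δ² α² (w1² + w2²) - (1 / 10) (h1² + h2²)`, `s11 h1² + 2 s12 h1 h2 + s22 h2² ≥ - 2 δ (h1² + h2²)`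
give after integration over `T0` (`∫ (w1² + w2²) = lam1`,
`∫ (s11 w1² + 2 s12 w1 w2 + s22 w2²) = (s11 e11 + 2 s12 e12 + s22 e22) / nuI =: R`):
`form ≥ lam1 α² + E + α² R - 40 δ² lam1 α² - (1 / 10 + 2 δ) E`. As `E ≥ (52 π² / 9) (l2 g - α²)
= (13 / 7) lam1 (l2 g - α²)` (`gap_T0`) and `|R| ≤ 2 δ lam1 ≤ lam1 / 10` (`e11 + e22 = lam1 nuI`,
`|e12| ≤ (e11 + e22) / 2`), `(1 - 1 / 10 - 2 δ) E ≥ (8 / 10) (13 / 7) lam1 (l2 g - α²)
≥ (lam1 + R) (l2 g - α²)`. Sum: `form ≥ (lam1 + R) l2 g - 40 δ² lam1 α²`, and `α² ≤ l2 g`. -/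
theorem ritz_low {g : P → ℝ} (hg : LipC T0 g) {δ : ℝ} (hδ : 0 ≤ δ) (hδ' : δ ≤ 1 / 20)
    {s11 s12 s22 : ℝ} (h11 : |s11| ≤ δ) (h12 : |s12| ≤ δ) (h22 : |s22| ≤ δ) :
    (lam1 + (s11 * e11 + 2 * s12 * e12 + s22 * e22) / nuI - 40 * lam1 * δ ^ 2) * l2 g ≤
      ∫ x in T0, ((1 + s11) * d1 g x ^ 2 + 2 * s12 * (d1 g x * d2 g x) +
        (1 + s22) * d2 g x ^ 2) := by
  obtain ⟨c, hc⟩ : ∃ c, c = cf0 g k1 / √nuI := ⟨_, rfl⟩
  have hs := LRit_s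
  have hs2 := LRit_sq
  have hnu := nuI_pos
  have hl := lam1_pos
  have he := LRit_e
  obtain ⟨hgap, hα⟩ := gap_T0 hg
  have hrest := rest_T0 hg
  rw [← hc] at hrest
  obtain ⟨g11, g12, g22⟩ := LRit_gg hg
  obtain ⟨u11, u12, u22⟩ := LRit_uu
  obtain ⟨a1, a2⟩ := abs_le.1 h11
  obtain ⟨b1, b2⟩ := abs_le.1 h12
  obtain ⟨c1, c2⟩ := abs_le.1 h22
  have hc2 : c ^ 2 * nuI = cf0 g k1 ^ 2 := by
    rw [hc, div_pow, hs2, div_mul_cancel₀ _ hnu.ne']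
  -- the integrable functions
  have iQ : IntegrableOn (fun x => (1 + s11) * d1 g x ^ 2 + 2 * s12 * (d1 g x * d2 g x) +
      (1 + s22) * d2 g x ^ 2) T0 :=
    ((g11.const_mul _).add (g12.const_mul _)).add (g22.const_mul _)
  have iA : IntegrableOn (fun x => d1 g x ^ 2 + d2 g x ^ 2) T0 := g11.add g22
  have iB : IntegrableOn (fun x => c ^ 2 * (s11 - 40 * δ ^ 2) * d1 (uf k1) x ^ 2 +
      c ^ 2 * (2 * s12) * (d1 (uf k1) x * d2 (uf k1) x)) T0 :=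
    (u11.const_mul _).add (u12.const_mul _)
  have iC : IntegrableOn (fun x => c ^ 2 * (s22 - 40 * δ ^ 2) * d2 (uf k1) x ^ 2) T0 :=
    u22.const_mul _
  have iD : IntegrableOn (fun x => (d1 g x - c * d1 (uf k1) x) ^ 2 +
      (d2 g x - c * d2 (uf k1) x) ^ 2) T0 := by
    have i0 : IntegrableOn (fun x => (d1 g x ^ 2 + d2 g x ^ 2) -
        2 * c * (d1 (uf k1) x * d1 g x + d2 (uf k1) x * d2 g x) +
        (c ^ 2 * d1 (uf k1) x ^ 2 + c ^ 2 * d2 (uf k1) x ^ 2)) T0 :=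
      (iA.sub ((LRit_ug hg).const_mul _)).add ((u11.const_mul _).add (u22.const_mul _))
    refine i0.congr (Eventually.of_forall fun x => ?_)
    dsimp only
    ring
  have iBC : IntegrableOn (fun x => (c ^ 2 * (s11 - 40 * δ ^ 2) * d1 (uf k1) x ^ 2 +
      c ^ 2 * (2 * s12) * (d1 (uf k1) x * d2 (uf k1) x)) +
      c ^ 2 * (s22 - 40 * δ ^ 2) * d2 (uf k1) x ^ 2) T0 := iB.add iC
  have iABC : IntegrableOn (fun x => (d1 g x ^ 2 + d2 g x ^ 2) +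
      ((c ^ 2 * (s11 - 40 * δ ^ 2) * d1 (uf k1) x ^ 2 +
      c ^ 2 * (2 * s12) * (d1 (uf k1) x * d2 (uf k1) x)) +
      c ^ 2 * (s22 - 40 * δ ^ 2) * d2 (uf k1) x ^ 2)) T0 := iA.add iBC
  have iD' : IntegrableOn (fun x => (1 / 10 + 2 * δ) * ((d1 g x - c * d1 (uf k1) x) ^ 2 +
      (d2 g x - c * d2 (uf k1) x) ^ 2)) T0 := iD.const_mul _
  -- the pointwise inequality
  have key : ∀ p1 p2 q1 q2 : ℝ, (q1 ^ 2 + q2 ^ 2) +
      ((c ^ 2 * (s11 - 40 * δ ^ 2) * p1 ^ 2 + c ^ 2 * (2 * s12) * (p1 * p2)) +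
      c ^ 2 * (s22 - 40 * δ ^ 2) * p2 ^ 2) -
      (1 / 10 + 2 * δ) * ((q1 - c * p1) ^ 2 + (q2 - c * p2) ^ 2) ≤
      (1 + s11) * q1 ^ 2 + 2 * s12 * (q1 * q2) + (1 + s22) * q2 ^ 2 := by
    intro p1 p2 q1 q2
    obtain ⟨y1, hy1⟩ : ∃ y, y = c * p1 := ⟨_, rfl⟩
    obtain ⟨y2, hy2⟩ : ∃ y, y = c * p2 := ⟨_, rfl⟩
    obtain ⟨z1, hz1⟩ : ∃ z, z = q1 - y1 := ⟨_, rfl⟩
    obtain ⟨z2, hz2⟩ : ∃ z, z = q2 - y2 := ⟨_, rfl⟩
    have e1 : q1 = y1 + z1 := by rw [hz1]; ring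
    have e2 : q2 = y2 + z2 := by rw [hz2]; ring
    have k1' := LRit_cross h11 h12 h22 y1 y2 z1 z2
    have k2' := LRit_diag hδ h11 h12 h22 z1 z2
    rw [← hy1, ← hy2, ← hz1, ← hz2]
    have f1 : c ^ 2 * (s11 - 40 * δ ^ 2) * p1 ^ 2 = (s11 - 40 * δ ^ 2) * y1 ^ 2 := by
      rw [hy1]; ring
    have f2 : c ^ 2 * (2 * s12) * (p1 * p2) = 2 * s12 * (y1 * y2) := by
      rw [hy1, hy2]; ring
    have f3 : c ^ 2 * (s22 - 40 * δ ^ 2) * p2 ^ 2 = (s22 - 40 * δ ^ 2) * y2 ^ 2 := by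
      rw [hy2]; ring
    rw [f1, f2, f3, e1, e2]
    nlinarith [k1', k2']
  have hmono : ∫ x in T0, ((d1 g x ^ 2 + d2 g x ^ 2) +
      ((c ^ 2 * (s11 - 40 * δ ^ 2) * d1 (uf k1) x ^ 2 +
      c ^ 2 * (2 * s12) * (d1 (uf k1) x * d2 (uf k1) x)) +
      c ^ 2 * (s22 - 40 * δ ^ 2) * d2 (uf k1) x ^ 2) -
      (1 / 10 + 2 * δ) * ((d1 g x - c * d1 (uf k1) x) ^ 2 +
      (d2 g x - c * d2 (uf k1) x) ^ 2)) ≤
      ∫ x in T0, ((1 + s11) * d1 g x ^ 2 + 2 * s12 * (d1 g x * d2 g x) +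
        (1 + s22) * d2 g x ^ 2) :=
    integral_mono (iABC.sub iD') iQ fun x => key _ _ _ _
  rw [integral_sub iABC iD', integral_add iA iBC, integral_add iB iC,
    integral_add (u11.const_mul _) (u12.const_mul _), integral_const_mul, integral_const_mul,
    integral_const_mul, integral_const_mul, hrest, LRit_en hg] at hmono
  change en g + ((c ^ 2 * (s11 - 40 * δ ^ 2) * e11 + c ^ 2 * (2 * s12) * e12) +
    c ^ 2 * (s22 - 40 * δ ^ 2) * e22) - (1 / 10 + 2 * δ) * (en g - lam1 * cf0 g k1 ^ 2) ≤ _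
    at hmono
  refine le_trans ?_ hmono
  -- the number R
  have hR := LRit_R h11 h12 h22
  obtain ⟨R, hR0⟩ : ∃ R, R = (s11 * e11 + 2 * s12 * e12 + s22 * e22) / nuI := ⟨_, rfl⟩
  have hR1 : R * nuI = s11 * e11 + 2 * s12 * e12 + s22 * e22 := by
    rw [hR0, div_mul_cancel₀ _ hnu.ne']
  rw [← hR0]
  have hR2 : R ≤ 2 * δ * lam1 := by
    rw [← hR1] at hR
    have h1 : R * nuI ≤ 2 * δ * lam1 * nuI := by linarith
    exact le_of_mul_le_mul_right h1 hnu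
  obtain ⟨A, hA⟩ : ∃ A, A = cf0 g k1 ^ 2 := ⟨_, rfl⟩
  rw [← hA] at hc2 hα hgap ⊢
  have h5 : (c ^ 2 * (s11 - 40 * δ ^ 2) * e11 + c ^ 2 * (2 * s12) * e12) +
      c ^ 2 * (s22 - 40 * δ ^ 2) * e22 = A * R - 40 * δ ^ 2 * lam1 * A := by
    rw [← hc2]
    have h6 : (c ^ 2 * (s11 - 40 * δ ^ 2) * e11 + c ^ 2 * (2 * s12) * e12) +
      c ^ 2 * (s22 - 40 * δ ^ 2) * e22 = c ^ 2 * (s11 * e11 + 2 * s12 * e12 + s22 * e22) -
      40 * δ ^ 2 * c ^ 2 * (e11 + e22) := by ring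
    rw [h6, ← hR1, he]
    ring
  rw [h5]
  have hA0 : 0 ≤ A := by rw [hA]; positivity
  have hE : 13 / 7 * lam1 * (l2 g - A) ≤ en g - lam1 * A := by
    have h7 : 52 * Real.pi ^ 2 / 9 = 13 / 7 * lam1 := by
      unfold lam1
      ring
    rw [h7] at hgap
    linarith
  have hX : 0 ≤ l2 g - A := by linarith
  have hX1 : 0 ≤ lam1 * (l2 g - A) := mul_nonneg hl.le hX
  have hE0 : 0 ≤ en g - lam1 * A := by linarith
  have hF : 8 / 10 * (en g - lam1 * A) ≤ (1 - (1 / 10 + 2 * δ)) * (en g - lam1 * A) :=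
    mul_le_mul_of_nonneg_right (by linarith) hE0
  have hG : R * (l2 g - A) ≤ 1 / 10 * (lam1 * (l2 g - A)) := by
    have h8 : R ≤ 1 / 10 * lam1 := by
      have h9 : δ * lam1 ≤ 1 / 20 * lam1 := mul_le_mul_of_nonneg_right hδ' hl.le
      linarith
    have h10 := mul_le_mul_of_nonneg_right h8 hX
    linarith
  have hH : 40 * lam1 * δ ^ 2 * A ≤ 40 * lam1 * δ ^ 2 * l2 g :=
    mul_le_mul_of_nonneg_left hα (by positivity)
  linarith

end Pool.Agent.MP4eed4eI
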