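import Pool.Agent.Lib.MP_4eed4e_an_I.GVh

set_option autoImplicit false

/-!
Project I, block M: the limit situation (definition).
-/

namespace Pool.Agent.MP4eed4eI

open Pool.Agent.MP4eed4eP MeasureTheory Set Filter Topology

/-- The domains `D n` are close to `T0`, their normal displacements divided by `ε n` converge. -/
structure Setup (D : ℕ → Set P) (ε : ℕ → ℝ) (W : Fin 3 → ℝ → ℝ) : Prop where
  pos : ∀ n, 0 < ε n
  small : ∀ n, ε n ≤ 1 / 10 ^ 10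
  lim : Tendsto ε atTop (𝓝 0)
  near : ∀ n, Near (ε n) (D n)
  vol : ∀ n, volume (D n \ T0) = ENNReal.ofReal (ε n)
  up : ∀ k, 1 ≤ k → ∀ᶠ n in atTop, lamL T0 k ≤ lamL (D n) k
  one : ∀ n, lamL (D n) 1 ≤ lamL T0 1
  conc : ∀ i, ConcaveOn ℝ (Ioo 0 (lenI i)) (W i)
  conv : ∀ i, ∀ s ∈ Ioo 0 (lenI i), Tendsto (fun n => VI (D n) i s / ε n) atTop (𝓝 (W i s))

end Pool.Agent.MP4eed4eI
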