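import Pool.Agent.Lib.MP_4eed4e_an_I.MDefs

set_option autoImplicit false

/-!
Project I, block M: bounds and integrability of the limit.
-/

namespace Pool.Agent.MP4eed4eI

open Pool.Agent.MP4eed4eP MeasureTheory Set Filter Topology

private theorem MInt_small {D : ℕ → Set P} {ε : ℕ → ℝ} {W : Fin 3 → ℝ → ℝ} (h : Setup D ε W)
    {d : ℝ} (hd : 0 < d) : ∀ᶠ n in atTop, 16 * √(ε n) ≤ d := by
  have h1 : Tendsto (fun n => 16 * √(ε n)) atTop (𝓝 (16 * √0)) :=
    ((Real.continuous_sqrt.tendsto 0).comp h.lim).const_mul 16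
  rw [Real.sqrt_zero, mul_zero] at h1
  exact (h1.eventually (gt_mem_nhds hd)).mono fun n hn => hn.le

private theorem MInt_six {D : ℕ → Set P} {ε : ℕ → ℝ} {W : Fin 3 → ℝ → ℝ} (h : Setup D ε W)
    (n : ℕ) : ε n ≤ 1 / 10 ^ 6 := by
  refine (h.small n).trans ?_
  norm_num

private theorem MInt_JI {ε : ℕ → ℝ} (i : Fin 3) {s d : ℝ} (hs : d ≤ rI i s) {n : ℕ}
    (hn : 16 * √(ε n) ≤ d) :
    s ∈ JI i (8 * √(ε n)) := by
  have h0 : 0 ≤ √(ε n) := Real.sqrt_nonneg _
  have h1 : rI i s ≤ s := min_le_left _ _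
  have h2 : rI i s ≤ lenI i - s := min_le_right _ _
  exact ⟨by linarith, by linarith⟩

private theorem MInt_bds {D : ℕ → Set P} {ε : ℕ → ℝ} {W : Fin 3 → ℝ → ℝ} (h : Setup D ε W)
    (i : Fin 3) {s d : ℝ} (hs : d ≤ rI i s) {n : ℕ} (hn : 16 * √(ε n) ≤ d) :
    VI (D n) i s / ε n ≤ 33 ∧ -(4 / rI i s) ≤ VI (D n) i s / ε n := by
  have hp := h.pos n
  have h1 := VI_le hp (MInt_six h n) (h.near n) (MInt_JI i hs hn)
  have h2 := VI_ge hp (MInt_six h n) (h.near n) (hn.trans hs)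
  refine ⟨?_, ?_⟩
  · rw [div_le_iff₀ hp]
    exact h1
  · rw [le_div_iff₀ hp]
    have h3 : -(4 / rI i s) * ε n = -(4 * ε n / rI i s) := by ring
    rw [h3]
    exact h2

private theorem MInt_rI {i : Fin 3} {s : ℝ} (hs : s ∈ Ioo 0 (lenI i)) : 0 < rI i s :=
  lt_min hs.1 (sub_pos.2 hs.2)

theorem Setup.le {D : ℕ → Set P} {ε : ℕ → ℝ} {W : Fin 3 → ℝ → ℝ} (h : Setup D ε W) (i : Fin 3)
    {s : ℝ} (hs : s ∈ Ioo 0 (lenI i)) : W i s ≤ 33 := by
  refine le_of_tendsto (h.conv i s hs) ((MInt_small h (MInt_rI hs)).mono fun n hn => ?_)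
  exact (MInt_bds h i le_rfl hn).1

theorem Setup.ge {D : ℕ → Set P} {ε : ℕ → ℝ} {W : Fin 3 → ℝ → ℝ} (h : Setup D ε W) (i : Fin 3)
    {s : ℝ} (hs : s ∈ Ioo 0 (lenI i)) : -(4 / rI i s) ≤ W i s := by
  refine ge_of_tendsto (h.conv i s hs) ((MInt_small h (MInt_rI hs)).mono fun n hn => ?_)
  exact (MInt_bds h i le_rfl hn).2

/-- Dominated convergence on `[d, len - d]`, for a continuous `G` (examples: `|x|`, `max x 0`,
`max (-x) 0`). -/
theorem Setup.tendsto_mid {D : ℕ → Set P} {ε : ℕ → ℝ} {W : Fin 3 → ℝ → ℝ} (h : Setup D ε W)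
    (i : Fin 3) {d : ℝ} (hd : 0 < d) (hd1 : d < 1) {G : ℝ → ℝ} (hG : Continuous G) :
    Tendsto (fun n => ∫ s in d..(lenI i - d), G (VI (D n) i s / ε n)) atTop
      (𝓝 (∫ s in d..(lenI i - d), G (W i s))) := by
  obtain ⟨hl, -⟩ := lenI_bounds i
  obtain ⟨δ, hδ⟩ : ∃ δ : ℝ, δ = min d (lenI i - d) := ⟨_, rfl⟩
  have hδ0 : 0 < δ := by
    rw [hδ]
    exact lt_min hd (by linarith)
  have hδd : δ ≤ d := by
    rw [hδ]
    exact min_le_left _ _
  have hδd' : δ ≤ lenI i - d := by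
    rw [hδ]
    exact min_le_right _ _
  have hr : ∀ s ∈ uIoc d (lenI i - d), δ ≤ rI i s := by
    intro s hs
    have h1 : min d (lenI i - d) < s := hs.1
    have h2 : s ≤ max d (lenI i - d) := hs.2
    rw [← hδ] at h1
    refine le_min h1.le ?_
    rcases max_choice d (lenI i - d) with h3 | h3
    · rw [h3] at h2
      linarith
    · rw [h3] at h2
      linarith
  have hIoo : ∀ s ∈ uIoc d (lenI i - d), s ∈ Ioo 0 (lenI i) := by
    intro s hs
    have h1 := hr s hs
    have h2 : rI i s ≤ s := min_le_left _ _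
    have h3 : rI i s ≤ lenI i - s := min_le_right _ _
    exact ⟨by linarith, by linarith⟩
  obtain ⟨C, hC⟩ := (isCompact_Icc (a := -(33 + 4 / δ))
    (b := 33 + 4 / δ)).exists_bound_of_continuousOn hG.continuousOn
  have hδ4 : 0 < 4 / δ := by positivity
  refine intervalIntegral.tendsto_integral_filter_of_dominated_convergence (fun _ => C) ?_ ?_
    intervalIntegrable_const ?_
  · refine (MInt_small h hδ0).mono fun n hn => ?_
    have h0 : 0 ≤ √(ε n) := Real.sqrt_nonneg _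
    have h1 := (integrable_VI (h.pos n) (MInt_six h n) (h.near n) i).1.aestronglyMeasurable
    have h2 : uIoc d (lenI i - d) ⊆ Ioc (8 * √(ε n)) (lenI i - 8 * √(ε n)) := by
      intro s hs
      have h3 := MInt_JI i (hr s hs) hn
      refine ⟨?_, h3.2⟩
      have h4 : min d (lenI i - d) < s := hs.1
      rw [← hδ] at h4
      linarith
    have h5 := h1.mono_measure (Measure.restrict_mono h2 le_rfl)
    have h6 := hG.comp_aestronglyMeasurable (h5.mul_const (ε n)⁻¹)
    simpa only [div_eq_mul_inv] using h6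
  · refine (MInt_small h hδ0).mono fun n hn => Eventually.of_forall fun s hs => ?_
    obtain ⟨h1, h2⟩ := MInt_bds h i (hr s hs) hn
    refine hC _ ⟨?_, ?_⟩
    · have h3 : 4 / rI i s ≤ 4 / δ :=
        div_le_div_of_nonneg_left (by norm_num) hδ0 (hr s hs)
      linarith
    · linarith
  · refine Eventually.of_forall fun s hs => ?_
    exact (hG.tendsto _).comp (h.conv i s (hIoo s hs))

/-- Proof. `integral_VI` gives `∫_d^{len - d} |VI / ε| ≤ 2`, so `∫_d^{len - d} |W| ≤ 2` for all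
small `d` (`tendsto_mid`); `W i` is continuous on the open interval (concave). Exhaustion:
`MeasureTheory.integrableOn_Ioc_of_intervalIntegral_norm_bounded` and similar lemmas. -/
theorem Setup.int {D : ℕ → Set P} {ε : ℕ → ℝ} {W : Fin 3 → ℝ → ℝ} (h : Setup D ε W) (i : Fin 3) :
    IntervalIntegrable (W i) volume 0 (lenI i) := by
  obtain ⟨hl, -⟩ := lenI_bounds i
  have hW : ContinuousOn (W i) (Ioo 0 (lenI i)) := (h.conc i).continuousOn isOpen_Ioo
  have key : ∀ d : ℝ, 0 < d → d < 1 / 2 → ∫ s in d..(lenI i - d), |W i s| ≤ 2 := by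
    intro d hd hd1
    refine le_of_tendsto (h.tendsto_mid i hd (by linarith) continuous_abs)
      ((MInt_small h hd).mono fun n hn => ?_)
    have h0 : 0 ≤ √(ε n) := Real.sqrt_nonneg _
    have hp := h.pos n
    have h1 := integral_VI hp (MInt_six h n) (h.near n) i
    have h2 := integrable_VI hp (MInt_six h n) (h.near n) i
    have h3 : ∫ s in d..(lenI i - d), |VI (D n) i s| ≤
        ∫ s in (8 * √(ε n))..(lenI i - 8 * √(ε n)), |VI (D n) i s| :=
      intervalIntegral.integral_mono_interval (by linarith) (by linarith) (by linarith)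
        (Eventually.of_forall fun s => abs_nonneg _) h2.abs
    have h4 : ∫ s in d..(lenI i - d), |VI (D n) i s / ε n| =
        (∫ s in d..(lenI i - d), |VI (D n) i s|) / ε n := by
      rw [← intervalIntegral.integral_div]
      refine intervalIntegral.integral_congr fun s _ => ?_
      simp only [abs_div, abs_of_pos hp]
    rw [h4, div_le_iff₀ hp]
    exact h3.trans h1
  rw [intervalIntegrable_iff_integrableOn_Ioc_of_le (by linarith)]
  have hlim : Tendsto (fun n : ℕ => 1 / ((n : ℝ) + 3)) atTop (𝓝 0) := by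
    have h1 := (tendsto_const_div_atTop_nhds_zero_nat (1 : ℝ)).comp (tendsto_add_atTop_nat 3)
    refine h1.congr fun n => ?_
    simp only [Function.comp_apply]
    push_cast
    rfl
  have hd0 : ∀ n : ℕ, 0 < 1 / ((n : ℝ) + 3) := fun n => by positivity
  have hd1 : ∀ n : ℕ, 1 / ((n : ℝ) + 3) < 1 / 2 := fun n => by
    refine one_div_lt_one_div_of_lt (by norm_num) ?_
    have : (0 : ℝ) ≤ n := Nat.cast_nonneg n
    linarith
  refine integrableOn_Ioc_of_intervalIntegral_norm_bounded (l := atTop) (I := 2)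
    (a := fun n : ℕ => 1 / ((n : ℝ) + 3)) (b := fun n : ℕ => lenI i - 1 / ((n : ℝ) + 3))
    ?_ hlim ?_ ?_
  · intro n
    refine (hW.mono ?_).integrableOn_Icc.mono_set Ioc_subset_Icc_self
    intro s hs
    have h1 := hd0 n
    exact ⟨h1.trans_le hs.1, hs.2.trans_lt (by linarith)⟩
  · have h1 := hlim.const_sub (lenI i)
    rwa [sub_zero] at h1
  · refine Eventually.of_forall fun n => ?_
    have h1 := key _ (hd0 n) (hd1 n)
    have h2 := hd1 n
    rw [intervalIntegral.integral_of_le (by linarith)] at h1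
    exact h1

/-- Integrals over `[d, len - d]` tend to the integral over `[0, len]`. -/
theorem tendsto_ends (i : Fin 3) {f : ℝ → ℝ} (hf : IntervalIntegrable f volume 0 (lenI i)) :
    Tendsto (fun d => ∫ s in d..(lenI i - d), f s) (𝓝[>] 0)
      (𝓝 (∫ s in (0 : ℝ)..(lenI i), f s)) := by
  obtain ⟨hl, -⟩ := lenI_bounds i
  have hc := intervalIntegral.continuousOn_primitive_interval' (a := 0) hf left_mem_uIcc
  rw [uIcc_of_le (by linarith)] at hc
  have hev : ∀ᶠ d : ℝ in 𝓝[>] 0, 0 < d ∧ d < 1 := by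
    filter_upwards [self_mem_nhdsWithin, mem_nhdsWithin_of_mem_nhds (gt_mem_nhds one_pos)]
      with d h1 h2
    exact ⟨h1, h2⟩
  have h1 : Tendsto (fun d : ℝ => ∫ s in (0 : ℝ)..d, f s) (𝓝[>] 0)
      (𝓝 (∫ s in (0 : ℝ)..(0 : ℝ), f s)) := by
    refine (hc 0 ⟨le_rfl, by linarith⟩).tendsto.comp (tendsto_nhdsWithin_iff.2 ⟨?_, ?_⟩)
    · exact tendsto_id.mono_left nhdsWithin_le_nhds
    · exact hev.mono fun d hd => ⟨hd.1.le, by linarith [hd.2]⟩
  have h2 : Tendsto (fun d : ℝ => ∫ s in (0 : ℝ)..(lenI i - d), f s) (𝓝[>] 0)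
      (𝓝 (∫ s in (0 : ℝ)..(lenI i), f s)) := by
    refine (hc (lenI i) ⟨by linarith, le_rfl⟩).tendsto.comp (tendsto_nhdsWithin_iff.2 ⟨?_, ?_⟩)
    · have h3 : Tendsto (fun d : ℝ => lenI i - d) (𝓝 0) (𝓝 (lenI i - 0)) :=
        tendsto_id.const_sub _
      rw [sub_zero] at h3
      exact h3.mono_left nhdsWithin_le_nhds
    · exact hev.mono fun d hd => ⟨by linarith [hd.2], by linarith [hd.1]⟩
  rw [intervalIntegral.integral_same] at h1
  have h3 := h2.sub h1
  rw [sub_zero] at h3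
  refine h3.congr' (hev.mono fun d hd => ?_)
  have h4 : ∀ x, x ∈ Icc 0 (lenI i) → IntervalIntegrable f volume 0 x := by
    intro x hx
    refine hf.mono_set ?_
    rw [uIcc_of_le hx.1, uIcc_of_le (by linarith)]
    exact Icc_subset_Icc le_rfl hx.2
  exact intervalIntegral.integral_interval_sub_left (h4 _ ⟨by linarith [hd.2], by linarith [hd.1]⟩)
    (h4 _ ⟨hd.1.le, by linarith [hd.2]⟩)

end Pool.Agent.MP4eed4eI
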