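import Pool.Agent.Lib.MP_4eed4e_an_I.UForm
import Pool.Agent.Lib.MP_4eed4e_an_PG.GClose

set_option autoImplicit false

/-!
Project I, block U: algebra and min-max.
-/

namespace Pool.Agent.MP4eed4eI

open Pool.Agent.MP4eed4eP MeasureTheory Set Filter Topology

/-- A quadratic form is negative definite.

Proof. Let `N = S.card`. `∑∑ a i a j M i j ≤ -G ∑ a i² + Cb r (∑ |a i|)² ≤ (-G + Cb r N) ∑ a i²`
(Cauchy-Schwarz `(∑ |a i|)² ≤ N ∑ a i²`). `2 a0 ∑ a i m i ≤ (G / 4) ∑ a i² + (4 / G) a0² ∑ m i²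
≤ (G / 4) ∑ a i² + (4 / G) N Cc r ^ 11 a0²`. So the form is at most
`-(3 G / 4 - Cb r N) ∑ a i² - (η r ^ 10 - Cc r ^ 11 - (4 / G) N Cc r ^ 11) a0²`; for small `r` the first
bracket is `≥ G / 2` and the second one `≥ η r ^ 10 / 2`; `c = min (G / 2) (η r ^ 10 / 2)`. -/
theorem quad_neg {ι : Type} (S : Finset ι) {G Cb Cc η : ℝ} (hG : 0 < G) (hb : 0 ≤ Cb)
    (hc : 0 ≤ Cc) (hη : 0 < η) : ∃ r1 : ℝ, 0 < r1 ∧ ∀ r : ℝ, 0 < r → r < r1 →
    ∀ (M : ι → ι → ℝ) (m : ι → ℝ) (q : ℝ), (∀ i ∈ S, M i i ≤ -G + Cb * r) →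
    (∀ i ∈ S, ∀ j ∈ S, i ≠ j → |M i j| ≤ Cb * r) → (∀ i ∈ S, m i ^ 2 ≤ Cc * r ^ 11) →
    q ≤ -(η * r ^ 10) + Cc * r ^ 11 → ∃ c : ℝ, 0 < c ∧ ∀ (a : ι → ℝ) (a0 : ℝ),
      (∑ i ∈ S, ∑ j ∈ S, a i * a j * M i j) + 2 * a0 * (∑ i ∈ S, a i * m i) + a0 ^ 2 * q ≤
        -c * ((∑ i ∈ S, a i ^ 2) + a0 ^ 2) := by
  classical
  have hN : (0 : ℝ) ≤ (S.card : ℝ) := Nat.cast_nonneg _
  have hK1 : 0 < Cb * S.card + 1 := by positivity
  have hK2 : 0 < Cc + 4 * S.card * Cc / G + 1 := by positivity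
  refine ⟨min (G / (4 * (Cb * S.card + 1))) (η / (2 * (Cc + 4 * S.card * Cc / G + 1))),
    lt_min (by positivity) (by positivity), ?_⟩
  intro r hr hr1 M m q hM hM2 hm hq
  have h1 : r < G / (4 * (Cb * S.card + 1)) := lt_of_lt_of_le hr1 (min_le_left _ _)
  have h2 : r < η / (2 * (Cc + 4 * S.card * Cc / G + 1)) := lt_of_lt_of_le hr1 (min_le_right _ _)
  have h3 : Cb * r * S.card ≤ G / 4 := by
    rw [lt_div_iff₀ (by positivity)] at h1
    nlinarith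
  have h4 : r * (Cc + 4 * S.card * Cc / G) ≤ η / 2 := by
    rw [lt_div_iff₀ (by positivity)] at h2
    nlinarith
  refine ⟨min (G / 2) (η * r ^ 10 / 2), lt_min (by positivity) (by positivity), ?_⟩
  intro a a0
  have hA : 0 ≤ ∑ i ∈ S, a i ^ 2 := Finset.sum_nonneg fun i _ => sq_nonneg _
  -- the double sum
  have e1 : ∑ i ∈ S, ∑ j ∈ S, a i * a j * M i j ≤
      ∑ i ∈ S, (-G * a i ^ 2 + Cb * r * (|a i| * ∑ j ∈ S, |a j|)) := by
    refine Finset.sum_le_sum fun i hi => ?_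
    have k1 : ∀ j ∈ S, a i * a j * M i j ≤
        (if i = j then -G * a i ^ 2 else 0) + Cb * r * (|a i| * |a j|) := by
      intro j hj
      by_cases hij : i = j
      · subst hij
        rw [if_pos rfl]
        have k2 := mul_le_mul_of_nonneg_left (hM i hi) (sq_nonneg (a i))
        have k3 : |a i| * |a i| = a i ^ 2 := by rw [abs_mul_abs_self, pow_two]
        rw [k3]
        nlinarith
      · rw [if_neg hij, zero_add]
        refine (le_abs_self _).trans ?_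
        rw [abs_mul, abs_mul]
        have k2 := mul_le_mul_of_nonneg_left (hM2 i hi j hj hij)
          (mul_nonneg (abs_nonneg (a i)) (abs_nonneg (a j)))
        linarith
    refine (Finset.sum_le_sum k1).trans (le_of_eq ?_)
    rw [Finset.sum_add_distrib, Finset.sum_ite_eq, if_pos hi, ← Finset.mul_sum,
      ← Finset.mul_sum]
  have e2 : ∑ i ∈ S, (-G * a i ^ 2 + Cb * r * (|a i| * ∑ j ∈ S, |a j|)) =
      -G * (∑ i ∈ S, a i ^ 2) + Cb * r * (∑ i ∈ S, |a i|) ^ 2 := by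
    rw [Finset.sum_add_distrib, ← Finset.mul_sum, ← Finset.mul_sum, ← Finset.sum_mul, pow_two]
  have e3 : (∑ i ∈ S, |a i|) ^ 2 ≤ S.card * ∑ i ∈ S, a i ^ 2 := by
    have k1 := sq_sum_le_card_mul_sum_sq (s := S) (f := fun i => |a i|)
    simpa only [sq_abs] using k1
  have e4 : Cb * r * (∑ i ∈ S, |a i|) ^ 2 ≤ G / 4 * ∑ i ∈ S, a i ^ 2 := by
    have k1 := mul_le_mul_of_nonneg_left e3 (mul_nonneg hb hr.le)
    have k2 := mul_le_mul_of_nonneg_right h3 hA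
    linarith
  -- the mixed term
  have e5 : 2 * a0 * (∑ i ∈ S, a i * m i) ≤
      G / 4 * (∑ i ∈ S, a i ^ 2) + 4 / G * a0 ^ 2 * (S.card * (Cc * r ^ 11)) := by
    have k1 : ∀ i ∈ S, 2 * a0 * (a i * m i) ≤ G / 4 * a i ^ 2 + 4 / G * a0 ^ 2 * (Cc * r ^ 11) := by
      intro i hi
      have k2 : 2 * a0 * (a i * m i) ≤ G / 4 * a i ^ 2 + 4 / G * (a0 * m i) ^ 2 := by
        have k3 : G / 4 * a i ^ 2 + 4 / G * (a0 * m i) ^ 2 - 2 * a0 * (a i * m i) =
            (G * a i / 2 - 2 * (a0 * m i)) ^ 2 / G := by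
          field_simp
          ring
        have k4 : 0 ≤ (G * a i / 2 - 2 * (a0 * m i)) ^ 2 / G := by positivity
        linarith
      have k5 : 4 / G * (a0 * m i) ^ 2 ≤ 4 / G * a0 ^ 2 * (Cc * r ^ 11) := by
        rw [mul_pow, ← mul_assoc]
        exact mul_le_mul_of_nonneg_left (hm i hi) (by positivity)
      linarith
    have k6 := Finset.sum_le_sum k1
    rw [← Finset.mul_sum, Finset.sum_add_distrib, ← Finset.mul_sum, Finset.sum_const,
      nsmul_eq_mul] at k6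
    linarith
  have e6 : a0 ^ 2 * q ≤ a0 ^ 2 * (-(η * r ^ 10) + Cc * r ^ 11) :=
    mul_le_mul_of_nonneg_left hq (sq_nonneg a0)
  have e7 : a0 ^ 2 * (Cc * r ^ 11) + 4 / G * a0 ^ 2 * (S.card * (Cc * r ^ 11)) ≤
      a0 ^ 2 * (η * r ^ 10 / 2) := by
    have k1 : a0 ^ 2 * (Cc * r ^ 11) + 4 / G * a0 ^ 2 * (S.card * (Cc * r ^ 11)) =
        a0 ^ 2 * r ^ 10 * (r * (Cc + 4 * S.card * Cc / G)) := by
      field_simp
    rw [k1]
    have k2 := mul_le_mul_of_nonneg_left h4 (mul_nonneg (sq_nonneg a0) (pow_nonneg hr.le 10))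
    linarith
  have c1 : min (G / 2) (η * r ^ 10 / 2) * (∑ i ∈ S, a i ^ 2) ≤ G / 2 * ∑ i ∈ S, a i ^ 2 :=
    mul_le_mul_of_nonneg_right (min_le_left _ _) hA
  have c2 : min (G / 2) (η * r ^ 10 / 2) * a0 ^ 2 ≤ η * r ^ 10 / 2 * a0 ^ 2 :=
    mul_le_mul_of_nonneg_right (min_le_right _ _) (sq_nonneg a0)
  rw [e2] at e1
  linarith

/-- The min-max value.

Proof. The functions `w i`, `i ∈ T`, are linearly independent: if `∑ a i • w i = 0` then
`0 ≤ -c ∑ a i²`. Let `V` be their span, `finrank V = T.card` (`finrank_span_eq_card` for the family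
indexed by `T` as a type). An element of `V` is `f = ∑ i ∈ T, a i • w i`; `l2 f ≤ C1 ∑ a i²` with
`C1 = T.card * ∑ i ∈ T, l2 (w i) + 1` (pointwise Cauchy-Schwarz), so
`en f = BU L f f + L l2 f ≤ -c ∑ a i² + L l2 f ≤ (L - c / C1) l2 f` (`BU_self`). So
`L - c / C1 ∈ PG.RS D T.card`, and `T.card ≥ 1`: `csInf_le (PG.RS_bddBelow ..)`. -/
theorem minmax_lt {D : Set P} {ι : Type} (T : Finset ι) (hT : T.Nonempty) (w : ι → P → ℝ)
    (hw : ∀ i, LipC D (w i)) {L c : ℝ} (hc : 0 < c)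
    (h : ∀ a : ι → ℝ, BU L (∑ i ∈ T, a i • w i) (∑ i ∈ T, a i • w i) ≤ -c * ∑ i ∈ T, a i ^ 2) :
    lamL D T.card < L := by
  classical
  have hL : ∀ a : ι → ℝ, LipC D (∑ i ∈ T, a i • w i) := by
    intro a
    have h1 : ∀ s : Finset ι, LipC D (∑ i ∈ s, a i • w i) := by
      intro s
      induction s using Finset.induction_on with
      | empty => simpa using PG.LipC.zero D
      | insert b s hb ih =>
        rw [Finset.sum_insert hb]
        exact PG.LipC.add (PG.LipC.smul (hw b) (a b)) ih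
    exact h1 T
  obtain ⟨C1, hC1⟩ : ∃ C1 : ℝ, C1 = (∑ i ∈ T, l2 (w i)) + 1 := ⟨_, rfl⟩
  have hl2 : ∀ f : P → ℝ, 0 ≤ l2 f := fun f => integral_nonneg fun x => by positivity
  have hC0 : 0 < C1 := by
    rw [hC1]
    have := Finset.sum_nonneg (s := T) fun i _ => hl2 (w i)
    linarith
  have hl : ∀ a : ι → ℝ, l2 (∑ i ∈ T, a i • w i) ≤ C1 * ∑ i ∈ T, a i ^ 2 := by
    intro a
    have hint : ∀ i ∈ T, Integrable (fun x => w i x ^ 2) := fun i _ =>
      PG.LipC.integrable_sq (hw i)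
    have k1 : l2 (∑ i ∈ T, a i • w i) ≤ ∫ x, (∑ i ∈ T, a i ^ 2) * ∑ i ∈ T, w i x ^ 2 := by
      refine integral_mono (PG.LipC.integrable_sq (hL a))
        ((integrable_finsetSum T hint).const_mul _) fun x => ?_
      show (∑ i ∈ T, a i • w i) x ^ 2 ≤ (∑ i ∈ T, a i ^ 2) * ∑ i ∈ T, w i x ^ 2
      have k2 : (∑ i ∈ T, a i • w i) x = ∑ i ∈ T, a i * w i x := by
        rw [Finset.sum_apply]
        rfl
      rw [k2]
      exact Finset.sum_mul_sq_le_sq_mul_sq T a fun i => w i x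
    rw [integral_const_mul, integral_finsetSum T hint] at k1
    have k3 : (∑ i ∈ T, ∫ x, w i x ^ 2) = ∑ i ∈ T, l2 (w i) := rfl
    rw [k3] at k1
    have k4 : 0 ≤ ∑ i ∈ T, a i ^ 2 := Finset.sum_nonneg fun i _ => sq_nonneg _
    rw [hC1]
    nlinarith
  have hen : ∀ a : ι → ℝ, en (∑ i ∈ T, a i • w i) ≤ (L - c / C1) * l2 (∑ i ∈ T, a i • w i) := by
    intro a
    have k1 := h a
    rw [BU_self (hL a)] at k1
    have k2 : c / C1 * l2 (∑ i ∈ T, a i • w i) ≤ c * ∑ i ∈ T, a i ^ 2 := by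
      rw [div_mul_eq_mul_div, div_le_iff₀ hC0]
      have k3 := mul_le_mul_of_nonneg_left (hl a) hc.le
      linarith
    linarith
  have hz : ∀ a : ι → ℝ, ∑ i ∈ T, a i • w i = 0 → ∀ i ∈ T, a i = 0 := by
    intro a ha
    have k1 := h a
    rw [ha] at k1
    have k2 : BU L (0 : P → ℝ) 0 = 0 := by
      have k3 := BU_smul L 0 (0 : P → ℝ) 0
      rwa [zero_smul, zero_mul] at k3
    rw [k2] at k1
    have k4 : 0 ≤ ∑ i ∈ T, a i ^ 2 := Finset.sum_nonneg fun i _ => sq_nonneg _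
    have k5 : ∑ i ∈ T, a i ^ 2 = 0 := by nlinarith
    intro i hi
    have k6 := (Finset.sum_eq_zero_iff_of_nonneg fun i _ => sq_nonneg (a i)).1 k5 i hi
    exact pow_eq_zero_iff two_ne_zero |>.1 k6
  have hsub : ∀ g : T → ℝ, ∃ a : ι → ℝ, (∀ i : T, a i = g i) ∧
      ∑ i, g i • w (i : ι) = ∑ i ∈ T, a i • w i := by
    intro g
    refine ⟨fun i => if hi : i ∈ T then g ⟨i, hi⟩ else 0, fun i => ?_, ?_⟩
    · exact dif_pos i.2
    · rw [← Finset.sum_coe_sort T]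
      refine Finset.sum_congr rfl fun i _ => ?_
      show g i • w (i : ι) = (if hi : (i : ι) ∈ T then g ⟨i, hi⟩ else 0) • w (i : ι)
      rw [dif_pos i.2]
  have hli : LinearIndependent ℝ fun i : T => w (i : ι) := by
    rw [Fintype.linearIndependent_iff]
    intro g hg i
    obtain ⟨a, ha, ha2⟩ := hsub g
    rw [ha2] at hg
    rw [← ha i]
    exact hz a hg i i.2
  obtain ⟨k, hk⟩ : ∃ k, T.card = k + 1 := ⟨T.card - 1, by
    have := hT.card_pos
    omega⟩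
  have hmem : L - c / C1 ∈ PG.RS D (k + 1) := by
    refine ⟨Submodule.span ℝ (range fun i : T => w (i : ι)), ?_, ?_⟩
    · rw [finrank_span_eq_card hli, Fintype.card_coe, hk]
    · intro f hf
      obtain ⟨g, hg⟩ := (Submodule.mem_span_range_iff_exists_fun ℝ).1 hf
      obtain ⟨a, -, ha2⟩ := hsub g
      rw [ha2] at hg
      rw [← hg]
      exact ⟨hL a, hen a⟩
  have hle : lamL D (k + 1) ≤ L - c / C1 := csInf_le (PG.RS_bddBelow D k) hmem
  rw [hk]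
  have : 0 < c / C1 := div_pos hc hC0
  linarith

end Pool.Agent.MP4eed4eI
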