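import Pool.Agent.Lib.MP_4eed4e_an_I.UCr
import Pool.Agent.Lib.MP_4eed4e_an_I.UAlg
import Pool.Agent.Lib.MP_4eed4e_an_I.TSpec

set_option autoImplicit false

/-!
Project I, block U: test functions give the sign of the first variations (interface).
-/

namespace Pool.Agent.MP4eed4eI

open Pool.Agent.MP4eed4eP MeasureTheory Set Filter Topology

private theorem OutU_min {ι : Type} (S : Finset ι) (f : ι → ℝ) (hf : ∀ i ∈ S, 0 < f i) :
    ∃ G : ℝ, 0 < G ∧ ∀ i ∈ S, G ≤ f i := by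
  classical
  induction S using Finset.induction_on with
  | empty => exact ⟨1, one_pos, fun i hi => absurd hi (Finset.notMem_empty i)⟩
  | insert a s ha ih =>
    obtain ⟨G, hG, h1⟩ := ih fun i hi => hf i (Finset.mem_insert_of_mem hi)
    refine ⟨min G (f a), lt_min hG (hf a (Finset.mem_insert_self a s)), fun i hi => ?_⟩
    rcases Finset.mem_insert.1 hi with rfl | h2
    · exact min_le_right _ _
    · exact (min_le_left _ _).trans (h1 i h2)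

private theorem OutU_max {ι : Type} (S : Finset ι) (f : ι → ℝ) :
    ∃ M : ℝ, 0 ≤ M ∧ ∀ i ∈ S, f i ≤ M := by
  refine ⟨∑ i ∈ S, |f i|, Finset.sum_nonneg fun i _ => abs_nonneg _, fun i hi => ?_⟩
  exact (le_abs_self _).trans (Finset.single_le_sum (f := fun i => |f i|)
    (fun j _ => abs_nonneg _) hi)

private theorem OutU_nu : 0 < nuI := by
  unfold nuI
  positivity

private theorem OutU_hyp {C r : ℝ} {h : Fin 3 → ℝ → ℝ} (hr : 0 < r) (h1 : r ≤ 1 / 10)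
    (h2 : r ≤ 1 / (1000 * (max C 0 + 1))) (hb : ∀ i s, |h i s| ≤ C * r ^ 7)
    (hl : ∀ i s s', |h i s - h i s'| ≤ C * r ^ 4 * |s - s'|) : Hyp (max C 0) r h := by
  have hC : C ≤ max C 0 := le_max_left _ _
  have h0 : 0 ≤ max C 0 := le_max_right _ _
  refine ⟨hr, h1, h0, ?_, fun i s => ?_, fun i s s' => ?_⟩
  · rw [le_div_iff₀ (by positivity)] at h2
    have h3 : max C 0 * r ≤ (max C 0 + 1) * r := mul_le_mul_of_nonneg_right (by linarith) hr.le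
    rw [le_div_iff₀ (by norm_num : (0 : ℝ) < 1000)]
    nlinarith
  · exact (hb i s).trans (mul_le_mul_of_nonneg_right hC (by positivity))
  · exact (hl i s s').trans (mul_le_mul_of_nonneg_right
      (mul_le_mul_of_nonneg_right hC (by positivity)) (abs_nonneg _))

private theorem OutU_sum {ι : Type} [DecidableEq ι] (S : Finset ι) {k0 : ι} (hk : k0 ∉ S)
    (M : ι → ι → ℝ) (hM : ∀ i j, M i j = M j i) (a : ι → ℝ) :
    ∑ i ∈ insert k0 S, ∑ j ∈ insert k0 S, a i * a j * M i j =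
      (∑ i ∈ S, ∑ j ∈ S, a i * a j * M i j) + 2 * a k0 * (∑ i ∈ S, a i * M k0 i) +
        a k0 ^ 2 * M k0 k0 := by
  rw [Finset.sum_insert hk, Finset.sum_insert hk]
  have h1 : ∑ i ∈ S, ∑ j ∈ insert k0 S, a i * a j * M i j =
      (∑ i ∈ S, a k0 * (a i * M k0 i)) + ∑ i ∈ S, ∑ j ∈ S, a i * a j * M i j := by
    rw [← Finset.sum_add_distrib]
    refine Finset.sum_congr rfl fun i _ => ?_
    rw [Finset.sum_insert hk, hM i k0]
    ring
  have h2 : ∑ j ∈ S, a k0 * a j * M k0 j = ∑ i ∈ S, a k0 * (a i * M k0 i) :=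
    Finset.sum_congr rfl fun i _ => by ring
  rw [h1, h2, ← Finset.mul_sum]
  ring

/-- Proof. Let `S` be the finset of `lamL_T0_ge κ0`, `Λ = (mu κ0)⁻¹`, `κ0 ∉ S`, `C1 = max C 0`. Constants:
`G > 0` with `G ≤ (Λ - (mu κ)⁻¹) nuI` for all `κ ∈ S` (finite set), `Cb` a common constant of
`BU_block C1 Λ κ κ'` for `κ, κ' ∈ S`, `Cc` a common constant of `BU_cross C1 κ0 κ`, `κ ∈ S`, and
`BU_first C1 κ0` (finite suprema; sums of positive numbers). `quad_neg` gives `r1`; `r0` = minimum of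
`r1`, `1 / 10`, `1 / (1000 (C1 + 1))`, so that `Hyp C1 r h` holds for `r < r0`. Suppose
`LI κ0 h > η r ^ 10`. `T = insert κ0 S`, `w κ = WU r h (uf κ)` (`WU_lipC`, `nice_uf`). `BU_sum` and
`Finset.sum_insert`: the form is the one of `quad_neg` with `M κ κ' = BU Λ (w κ) (w κ')`,
`m κ = BU Λ (w κ0) (w κ)`, `q = BU Λ (w κ0) (w κ0) ≤ -LI κ0 h + Cc r ^ 11` (`BU_comm`). `minmax_lt`:
`lamL D (S.card + 1) < Λ ≤ lamL T0 (S.card + 1) ≤ lamL D (S.card + 1)`, a contradiction. -/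
theorem test_ineq (κ0 : KS) : ∃ M : ℕ, 1 ≤ M ∧ ∀ C η : ℝ, 0 < η →
    ∃ r0 : ℝ, 0 < r0 ∧ ∀ r : ℝ, 0 < r → r < r0 →
    ∀ h : Fin 3 → ℝ → ℝ, (∀ i s, |h i s| ≤ C * r ^ 7) →
    (∀ i s s', |h i s - h i s'| ≤ C * r ^ 4 * |s - s'|) →
    ∀ D : Set P, IsOpen D →
    (∀ v, (∀ i, tI i v ≤ h i (sI i v)) → (∀ j, r ^ 3 ≤ dist v (corI j)) → v ∈ D) →
    lamL T0 M ≤ lamL D M → LI κ0 h ≤ η * r ^ 10 := by
  classical
  obtain ⟨S, hS, hge⟩ := lamL_T0_ge κ0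
  refine ⟨S.card + 1, by omega, ?_⟩
  intro C η hη
  have hk : κ0 ∉ S := fun hmem => lt_irrefl _ ((hS κ0).1 hmem)
  have hnu := OutU_nu
  obtain ⟨G, hG, hG'⟩ := OutU_min S (fun κ => ((mu κ0)⁻¹ - (mu κ)⁻¹) * nuI) fun κ hκ =>
    mul_pos (sub_pos.2 ((hS κ).1 hκ)) hnu
  choose Fb hFb0 hFb using fun κ κ' => BU_block (max C 0) (mu κ0)⁻¹ κ κ'
  choose Fc hFc0 hFc using fun κ => BU_cross (max C 0) κ0 κ
  obtain ⟨Ff, hFf0, hFf⟩ := BU_first (max C 0) κ0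
  obtain ⟨Cb, hCb0, hCb⟩ := OutU_max (S ×ˢ S) (fun p => Fb p.1 p.2)
  obtain ⟨Cc, hCc0, hCc⟩ := OutU_max S Fc
  obtain ⟨r1, hr1, hq⟩ := quad_neg S hG hCb0 (add_nonneg hCc0 hFf0.le) hη
  refine ⟨min r1 (min (1 / 10) (1 / (1000 * (max C 0 + 1)))), lt_min hr1 (lt_min (by norm_num)
    (by positivity)), ?_⟩
  intro r hr hrr h hb hl D hDo hD hup
  have hr2 : r < r1 := lt_of_lt_of_le hrr (min_le_left _ _)
  have hr3 : r ≤ 1 / 10 := (hrr.le.trans (min_le_right _ _)).trans (min_le_left _ _)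
  have hr4 : r ≤ 1 / (1000 * (max C 0 + 1)) :=
    (hrr.le.trans (min_le_right _ _)).trans (min_le_right _ _)
  have H : Hyp (max C 0) r h := OutU_hyp hr hr3 hr4 hb hl
  by_contra hcon
  have hLI : η * r ^ 10 < LI κ0 h := not_le.1 hcon
  obtain ⟨w, hw⟩ : ∃ w : KS → P → ℝ, w = fun κ => WU r h (uf κ) := ⟨_, rfl⟩
  have hwL : ∀ κ, LipC D (w κ) := by
    intro κ
    obtain ⟨K, hK⟩ := nice_uf κ
    rw [hw]
    exact WU_lipC H hK hD
  have r11 : 0 ≤ r ^ 11 := by positivity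
  have c1 : ∀ i ∈ S, BU (mu κ0)⁻¹ (w i) (w i) ≤ -G + Cb * r := by
    intro i hi
    have h1 := (abs_le.1 (hFb i i r h H)).2
    rw [if_pos rfl] at h1
    have h2 : Fb i i * r ≤ Cb * r :=
      mul_le_mul_of_nonneg_right (hCb (i, i) (Finset.mk_mem_product hi hi)) hr.le
    have h3 : G ≤ ((mu κ0)⁻¹ - (mu i)⁻¹) * nuI := hG' i hi
    have h4 : ((mu i)⁻¹ - (mu κ0)⁻¹) * nuI = -(((mu κ0)⁻¹ - (mu i)⁻¹) * nuI) := by ring
    rw [h4] at h1
    rw [hw]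
    linarith
  have c2 : ∀ i ∈ S, ∀ j ∈ S, i ≠ j → |BU (mu κ0)⁻¹ (w i) (w j)| ≤ Cb * r := by
    intro i hi j hj hij
    have h1 := hFb i j r h H
    rw [if_neg hij, mul_zero, sub_zero] at h1
    have h2 : Fb i j * r ≤ Cb * r :=
      mul_le_mul_of_nonneg_right (hCb (i, j) (Finset.mk_mem_product hi hj)) hr.le
    rw [hw]
    exact h1.trans h2
  have c3 : ∀ i ∈ S, BU (mu κ0)⁻¹ (w κ0) (w i) ^ 2 ≤ (Cc + Ff) * r ^ 11 := by
    intro i hi
    have h1 := hFc i r h H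
    rw [hw]
    refine h1.trans (mul_le_mul_of_nonneg_right ?_ r11)
    have := hCc i hi
    linarith
  have c4 : BU (mu κ0)⁻¹ (w κ0) (w κ0) ≤ -(η * r ^ 10) + (Cc + Ff) * r ^ 11 := by
    have h1 := hFf r h H
    have h2 : Ff * r ^ 11 ≤ (Cc + Ff) * r ^ 11 :=
      mul_le_mul_of_nonneg_right (by linarith) r11
    rw [hw]
    linarith
  obtain ⟨c, hc, hneg⟩ := hq r hr hr2 (fun i j => BU (mu κ0)⁻¹ (w i) (w j))
    (fun i => BU (mu κ0)⁻¹ (w κ0) (w i)) (BU (mu κ0)⁻¹ (w κ0) (w κ0)) c1 c2 c3 c4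
  have h1 : lamL D (insert κ0 S).card < (mu κ0)⁻¹ := by
    refine minmax_lt (insert κ0 S) (Finset.insert_nonempty κ0 S) w hwL hc fun a => ?_
    rw [BU_sum (insert κ0 S) w hwL a, OutU_sum S hk _ (fun i j => BU_comm _ _ _) a,
      Finset.sum_insert hk]
    have h2 := hneg a (a κ0)
    rw [add_comm (a κ0 ^ 2)]
    exact h2
  rw [Finset.card_insert_of_notMem hk] at h1
  linarith

end Pool.Agent.MP4eed4eI
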