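import Pool.Agent.Lib.MP_4eed4e_an_I.MInt
import Pool.Agent.Lib.MP_4eed4e_an_I.FNor
import Pool.Agent.Lib.MP_4eed4e_an_I.OutU

set_option autoImplicit false

/-!
Project I, block M: the first variations of the limit are not positive.
-/

namespace Pool.Agent.MP4eed4eI

open Pool.Agent.MP4eed4eP MeasureTheory Set Filter Topology

private theorem MLI_root {e : ℝ} (h0 : 0 < e) (h1 : e ≤ 1 / 10 ^ 10) :
    0 < e ^ ((10 : ℕ) : ℝ)⁻¹ ∧ e ^ ((10 : ℕ) : ℝ)⁻¹ ≤ 1 / 10 ∧ (e ^ ((10 : ℕ) : ℝ)⁻¹) ^ 10 = e := by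
  have h2 : 0 < e ^ ((10 : ℕ) : ℝ)⁻¹ := Real.rpow_pos_of_pos h0 _
  have h3 : (e ^ ((10 : ℕ) : ℝ)⁻¹) ^ 10 = e := Real.rpow_inv_natCast_pow h0.le (by norm_num)
  refine ⟨h2, ?_, h3⟩
  have h4 : (e ^ ((10 : ℕ) : ℝ)⁻¹) ^ 10 ≤ (1 / 10 : ℝ) ^ 10 := by
    rw [h3, div_pow, one_pow]
    exact h1
  exact (pow_le_pow_iff_left₀ h2.le (by norm_num) (by norm_num)).1 h4

private theorem MLI_cont {D : Set P} {r : ℝ} (hr : 0 < r) (hr1 : r ≤ 1 / 10)
    (h : Near (r ^ 10) D) (i : Fin 3) : Continuous (Vh D r i) := by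
  have h1 : LipschitzWith (10000 * r ^ 4).toNNReal (Vh D r i) := by
    refine LipschitzWith.of_dist_le_mul fun x y => ?_
    rw [Real.dist_eq, Real.dist_eq, Real.coe_toNNReal _ (by positivity)]
    exact lip_Vh hr hr1 h i x y
  exact h1.continuous

/-- Proof. Let `r n = ε n ^ (1/10)` (`Real.rpow`; `r n ^ 10 = ε n`, `0 < r n ≤ 1/10`, `r n → 0`) and
`h n = Vh (D n) (r n)`. For `η > 0`, `test_ineq κ η` with `C = 10000` applies for large `n`
(`abs_Vh_le`, `lip_Vh`, `Vh_mem`, `Setup.up`): `LI κ (h n) / ε n ≤ η`. For `s ∈ Ioo 0 (lenI i)`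
`h n i s / ε n → W i s` (the clamp is inactive for large `n`, and `r n ^ 20 / ε n → 0`), and
`|qI κ i s * h n i s / ε n| ≤ K rI² (34 + 4 / rI) ≤ 38 K` (`qI_le`, `Vh_div`, `rI ≤ 1`): dominated
convergence (`intervalIntegral.tendsto_integral_filter_of_dominated_convergence`; measurability:
`lip_Vh` gives continuity). So `LI κ W ≤ η`. -/
theorem Setup.LI_le {D : ℕ → Set P} {ε : ℕ → ℝ} {W : Fin 3 → ℝ → ℝ} (h : Setup D ε W) (κ : KS) :
    LI κ W ≤ 0 := by
  set r : ℕ → ℝ := fun n => ε n ^ ((10 : ℕ) : ℝ)⁻¹ with hr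
  have hroot : ∀ n, 0 < r n ∧ r n ≤ 1 / 10 ∧ r n ^ 10 = ε n := fun n =>
    MLI_root (h.pos n) (h.small n)
  have hnear : ∀ n, Near (r n ^ 10) (D n) := fun n => by
    rw [(hroot n).2.2]
    exact h.near n
  have hr0 : Tendsto r atTop (𝓝 0) := by
    have h1 : Tendsto (fun x : ℝ => x ^ ((10 : ℕ) : ℝ)⁻¹) (𝓝 0) (𝓝 (0 ^ ((10 : ℕ) : ℝ)⁻¹)) :=
      (Real.continuousAt_rpow_const 0 _ (Or.inr (by positivity))).tendsto
    rw [Real.zero_rpow (by norm_num)] at h1
    exact h1.comp h.lim
  have hr3 : Tendsto (fun n => r n ^ 3 / 4) atTop (𝓝 0) := by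
    have := (hr0.pow 3).div_const 4
    simpa using this
  have hr10 : Tendsto (fun n => r n ^ 10) atTop (𝓝 0) := by
    have := hr0.pow 10
    simpa using this
  obtain ⟨K, hK, hq⟩ := qI_le κ
  have hlim : Tendsto (fun n => LI κ (fun i s => Vh (D n) (r n) i s / ε n)) atTop
      (𝓝 (LI κ W)) := by
    unfold LI
    refine tendsto_finsetSum _ fun i _ => ?_
    have hl0 : 0 < lenI i := lt_of_lt_of_le one_pos (lenI_bounds i).1
    refine intervalIntegral.tendsto_integral_filter_of_dominated_convergence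
      (fun _ => 38 * K) (Eventually.of_forall fun n => ?_)
      (Eventually.of_forall fun n => Eventually.of_forall fun s hs => ?_) (by simp)
      (Eventually.of_forall fun s hs => ?_)
    · exact ((continuous_qI κ i).mul ((MLI_cont (hroot n).1 (hroot n).2.1 (hnear n)
        i).div_const _)).aestronglyMeasurable
    · rw [uIoc_of_le hl0.le] at hs
      have h1 := hq i s ⟨hs.1.le, hs.2⟩
      have h2 := qI_nonneg κ i s
      rcases hs.2.eq_or_lt with he | hlt
      · have h3 : rI i s = 0 := by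
          rw [rI, he, sub_self]
          exact min_eq_right hl0.le
        rw [h3] at h1
        have h4 : qI κ i s = 0 := le_antisymm (by simpa using h1) h2
        rw [h4, zero_mul, norm_zero]
        positivity
      · have h3 := Vh_div (hroot n).1 (hroot n).2.1 (hnear n) i ⟨hs.1, hlt⟩
        rw [(hroot n).2.2] at h3
        have h4 : 0 < rI i s := lt_min hs.1 (sub_pos.2 hlt)
        have h5 : rI i s ≤ 1 := by
          have h6 : rI i s ≤ s := min_le_left _ _
          have h7 : rI i s ≤ lenI i - s := min_le_right _ _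
          have h8 := (lenI_bounds i).2
          linarith
        rw [Real.norm_eq_abs, abs_mul, abs_of_nonneg h2]
        calc qI κ i s * |Vh (D n) (r n) i s / ε n|
            ≤ (K * rI i s ^ 2) * (34 + 4 / rI i s) :=
              mul_le_mul h1 h3 (abs_nonneg _) (by positivity)
          _ = K * (34 * rI i s ^ 2 + 4 * rI i s) := by
              field_simp
          _ ≤ K * 38 := by
              refine mul_le_mul_of_nonneg_left ?_ hK.le
              nlinarith
          _ = 38 * K := by ring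
    · rw [uIoc_of_le hl0.le] at hs
      rcases hs.2.eq_or_lt with he | hlt
      · have h1 := hq i s ⟨hs.1.le, hs.2⟩
        have h2 := qI_nonneg κ i s
        have h3 : rI i s = 0 := by
          rw [rI, he, sub_self]
          exact min_eq_right hl0.le
        rw [h3] at h1
        have h4 : qI κ i s = 0 := le_antisymm (by simpa using h1) h2
        rw [h4]
        simp
      · refine Tendsto.const_mul _ ?_
        have h1 := (h.conv i s ⟨hs.1, hlt⟩).sub hr10
        rw [sub_zero] at h1
        refine h1.congr' ?_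
        have e1 : ∀ᶠ n in atTop, r n ^ 3 / 4 < s := hr3.eventually_lt_const hs.1
        have e2 : ∀ᶠ n in atTop, r n ^ 3 / 4 < lenI i - s :=
          hr3.eventually_lt_const (sub_pos.2 hlt)
        filter_upwards [e1, e2] with n h2 h3
        have h4 : max (r n ^ 3 / 4) (min s (lenI i - r n ^ 3 / 4)) = s := by
          rw [min_eq_left (by linarith), max_eq_right h2.le]
        have h5 := (hroot n).2.2
        have h6 := h.pos n
        unfold Vh
        rw [h4, sub_div]
        have h7 : r n ^ 20 / ε n = r n ^ 10 := by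
          rw [show r n ^ 20 = r n ^ 10 * r n ^ 10 by ring, h5]
          field_simp
        rw [h7]
  have key : ∀ η : ℝ, 0 < η → LI κ W ≤ η := by
    intro η hη
    obtain ⟨M, hM, HM⟩ := test_ineq κ
    obtain ⟨r0, hr00, H⟩ := HM 10000 η hη
    refine le_of_tendsto hlim ?_
    have e1 : ∀ᶠ n in atTop, r n < r0 := hr0.eventually_lt_const hr00
    filter_upwards [e1, h.up M hM] with n hn hup
    obtain ⟨p1, p2, p3⟩ := hroot n
    have h1 := H (r n) p1 hn (Vh (D n) (r n))
      (fun i s => (abs_Vh_le p1 p2 (hnear n) i s).trans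
        (mul_le_mul_of_nonneg_right (by norm_num) (by positivity)))
      (fun i s s' => lip_Vh p1 p2 (hnear n) i s s') (D n) (h.near n).op
      (fun v hv hc => Vh_mem p1 p2 (hnear n) hv hc) hup
    have h2 : LI κ (fun i s => Vh (D n) (r n) i s / ε n) = LI κ (Vh (D n) (r n)) / ε n := by
      unfold LI
      rw [Finset.sum_div]
      refine Finset.sum_congr rfl fun i _ => ?_
      rw [← intervalIntegral.integral_div]
      refine intervalIntegral.integral_congr fun s _ => ?_
      show qI κ i s * (Vh (D n) (r n) i s / ε n) = qI κ i s * Vh (D n) (r n) i s / ε n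
      rw [mul_div_assoc]
    rw [h2, div_le_iff₀ (h.pos n), ← p3]
    exact h1
  refine le_of_forall_pos_le_add fun η hη => ?_
  rw [zero_add]
  exact key η hη

end Pool.Agent.MP4eed4eI
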