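import Pool.Agent.Lib.MP_4eed4e_an_I.MInt
import Pool.Agent.Lib.MP_4eed4e_an_I.GOut

set_option autoImplicit false

/-!
Project I, block M: limits of the outer area.
-/

namespace Pool.Agent.MP4eed4eI

open Pool.Agent.MP4eed4eP MeasureTheory Set Filter Topology

/-- Dominated convergence for the positive parts, relative to affine functions.

Proof. Put the integrand `0` outside the interval `(8 √ε, len - 8 √ε)`; it converges pointwise and
is
bounded by `33 + |l| + 1`. -/
theorem Setup.tendsto_pos {D : ℕ → Set P} {ε : ℕ → ℝ} {W : Fin 3 → ℝ → ℝ} (h : Setup D ε W)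
    (i : Fin 3) {c a : ℝ} {x y : ℕ → ℝ} (hx : Tendsto (fun n => x n / ε n) atTop (𝓝 c))
    (hy : Tendsto (fun n => y n / ε n) atTop (𝓝 a)) :
    Tendsto (fun n => (∫ s in (8 * √(ε n))..(lenI i - 8 * √(ε n)),
        max (VI (D n) i s - (x n + y n * s)) 0) / ε n) atTop
      (𝓝 (∫ s in (0 : ℝ)..(lenI i), max (W i s - (c + a * s)) 0)) := by
  obtain ⟨hl1, hl2⟩ := lenI_bounds i
  have hsq : ∀ n, 0 < √(ε n) ∧ √(ε n) ≤ 1 / 1000 := by
    intro n
    refine ⟨Real.sqrt_pos.2 (h.pos n), ?_⟩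
    rw [Real.sqrt_le_left (by norm_num)]
    exact (h.small n).trans (by norm_num)
  have hsm : ∀ n, ε n ≤ 1 / 10 ^ 6 := fun n => (h.small n).trans (by norm_num)
  have hsq0 : Tendsto (fun n => 8 * √(ε n)) atTop (𝓝 0) := by
    have h1 : Tendsto (fun n => √(ε n)) atTop (𝓝 (√0)) :=
      (Real.continuous_sqrt.tendsto 0).comp h.lim
    rw [Real.sqrt_zero] at h1
    have h2 := h1.const_mul 8
    rwa [mul_zero] at h2
  let G : ℕ → ℝ → ℝ := fun n s => max (VI (D n) i s / ε n - (x n / ε n + y n / ε n * s)) 0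
  let F : ℕ → ℝ → ℝ := fun n => (Ioc (8 * √(ε n)) (lenI i - 8 * √(ε n))).indicator (G n)
  have hab : ∀ n, 8 * √(ε n) ≤ lenI i - 8 * √(ε n) := by
    intro n
    have := hsq n
    linarith [this.2]
  have e1 : ∀ n, (∫ s in (8 * √(ε n))..(lenI i - 8 * √(ε n)),
      max (VI (D n) i s - (x n + y n * s)) 0) / ε n = ∫ s in (0 : ℝ)..(lenI i), F n s := by
    intro n
    have hε := h.pos n
    have e2 : ∫ s in (0 : ℝ)..(lenI i), F n s =
        ∫ s in (8 * √(ε n))..(lenI i - 8 * √(ε n)), G n s := by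
      rw [intervalIntegral.integral_of_le (by linarith), intervalIntegral.integral_of_le (hab n),
        setIntegral_indicator measurableSet_Ioc, inter_eq_right.2]
      intro s hs
      have := hsq n
      exact ⟨by linarith [hs.1], by linarith [hs.2]⟩
    rw [e2, ← intervalIntegral.integral_div]
    refine intervalIntegral.integral_congr fun s _ => ?_
    have e3 : VI (D n) i s / ε n - (x n / ε n + y n / ε n * s) =
        (VI (D n) i s - (x n + y n * s)) / ε n := by
      field_simp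
    show max (VI (D n) i s - (x n + y n * s)) 0 / ε n =
      max (VI (D n) i s / ε n - (x n / ε n + y n / ε n * s)) 0
    rw [e3, ← max_div_div_right hε.le, zero_div]
  simp only [e1]
  have hxb : ∀ᶠ n in atTop, |x n / ε n| ≤ |c| + 1 := by
    have h1 := hx.abs.eventually (gt_mem_nhds (lt_add_one |c|))
    exact h1.mono fun n hn => hn.le
  have hyb : ∀ᶠ n in atTop, |y n / ε n| ≤ |a| + 1 := by
    have h1 := hy.abs.eventually (gt_mem_nhds (lt_add_one |a|))
    exact h1.mono fun n hn => hn.le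
  refine intervalIntegral.tendsto_integral_filter_of_dominated_convergence
    (fun _ => 33 + ((|c| + 1) + (|a| + 1) * 2)) ?_ ?_ ?_ ?_
  · refine Eventually.of_forall fun n => AEStronglyMeasurable.restrict ?_
    rw [aestronglyMeasurable_indicator_iff measurableSet_Ioc]
    have h1 := (integrable_VI (h.pos n) (hsm n) (h.near n) i).1.aemeasurable
    have h3 : Measurable (fun s : ℝ => x n / ε n + y n / ε n * s) := by fun_prop
    have h2 := ((h1.div_const (ε n)).sub h3.aemeasurable).max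
      (aemeasurable_const (b := (0 : ℝ)))
    exact h2.aestronglyMeasurable
  · filter_upwards [hxb, hyb] with n hx' hy'
    refine Eventually.of_forall fun s hs => ?_
    rw [uIoc_of_le (by linarith : (0 : ℝ) ≤ lenI i)] at hs
    have hc1 : 0 ≤ |c| := abs_nonneg c
    have ha1 : 0 ≤ |a| := abs_nonneg a
    by_cases hs' : s ∈ Ioc (8 * √(ε n)) (lenI i - 8 * √(ε n))
    · have h1 : F n s = G n s := indicator_of_mem hs' _
      rw [h1, Real.norm_eq_abs, abs_of_nonneg (le_max_right _ _)]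
      have h2 : VI (D n) i s ≤ 33 * ε n :=
        VI_le (h.pos n) (hsm n) (h.near n) ⟨hs'.1.le, hs'.2⟩
      have h3 : VI (D n) i s / ε n ≤ 33 := by
        rw [div_le_iff₀ (h.pos n)]
        exact h2
      have h4 : |y n / ε n * s| ≤ (|a| + 1) * 2 := by
        rw [abs_mul, abs_of_pos hs.1]
        exact mul_le_mul hy' (hs.2.trans hl2) hs.1.le (by linarith)
      refine max_le ?_ (by linarith)
      have h5 := (abs_le.1 hx').1
      have h6 := (abs_le.1 h4).1
      linarith
    · have h1 : F n s = 0 := indicator_of_notMem hs' _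
      rw [h1, norm_zero]
      linarith
  · exact intervalIntegrable_const
  · have hne : ∀ᵐ s : ℝ, s ≠ lenI i := by
      have : ({lenI i} : Set ℝ)ᶜ ∈ ae (volume : Measure ℝ) :=
        compl_mem_ae_iff.2 Real.volume_singleton
      exact this
    filter_upwards [hne] with s hs1 hs2
    rw [uIoc_of_le (by linarith : (0 : ℝ) ≤ lenI i)] at hs2
    have hs3 : s < lenI i := lt_of_le_of_ne hs2.2 hs1
    have h1 : ∀ᶠ n in atTop, F n s = G n s := by
      have h2 := hsq0.eventually (gt_mem_nhds hs2.1)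
      have h3 := hsq0.eventually (gt_mem_nhds (sub_pos.2 hs3))
      filter_upwards [h2, h3] with n h4 h5
      have h6 : s ∈ Ioc (8 * √(ε n)) (lenI i - 8 * √(ε n)) := ⟨h4, by linarith⟩
      show (Ioc (8 * √(ε n)) (lenI i - 8 * √(ε n))).indicator (G n) s = G n s
      exact indicator_of_mem h6 (G n)
    have h2 : Tendsto (fun n => G n s) atTop (𝓝 (max (W i s - (c + a * s)) 0)) := by
      have h3 := (h.conv i s ⟨hs2.1, hs3⟩).sub (hx.add (hy.mul_const s))
      exact h3.max tendsto_const_nhds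
    exact h2.congr' (h1.mono fun n hn => hn.symm)

/-- Proof. `vol_out` with `c = a = 0`: `D \ T0 ⊆ {v ∈ D | ∃ i, 0 ≤ tI i v}` (`mem_T0_iff`), so
`ε ≤ ∑ ∫ max VI 0 + C ε √ε`; divide by `ε` and use `tendsto_pos`. -/
theorem Setup.pos_ge {D : ℕ → Set P} {ε : ℕ → ℝ} {W : Fin 3 → ℝ → ℝ} (h : Setup D ε W) :
    1 ≤ ∑ i, ∫ s in (0 : ℝ)..(lenI i), max (W i s) 0 := by
  obtain ⟨C, hC, hvol⟩ := vol_out 0 le_rfl
  have hsm : ∀ n, ε n ≤ 1 / 10 ^ 6 := fun n => (h.small n).trans (by norm_num)
  have key : ∀ n, 1 ≤ (∑ i, (∫ s in (8 * √(ε n))..(lenI i - 8 * √(ε n)),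
      max (VI (D n) i s - (0 + 0 * s)) 0) / ε n) + C * √(ε n) := by
    intro n
    have hε := h.pos n
    have h1 := hvol (ε n) (D n) (fun _ => 0) (fun _ => 0) hε (hsm n) (h.near n)
      (fun _ => by simp) (fun _ => by simp)
    have h2 : D n \ T0 ⊆ {v | v ∈ D n ∧ ∃ i, (fun _ => (0 : ℝ)) i + (fun _ => (0 : ℝ)) i *
        sI i v ≤ tI i v} := by
      rintro v ⟨hv, hv'⟩
      rw [mem_T0_iff] at hv'
      push Not at hv'
      obtain ⟨i, hi⟩ := hv'
      refine ⟨hv, i, ?_⟩
      simpa using hi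
    have h3 := (measure_mono h2).trans h1
    rw [h.vol n] at h3
    have h4 := (ENNReal.ofReal_le_ofReal_iff' (p := ε n)).1 h3
    rcases h4 with h4 | h4
    · have h5 : ε n / ε n ≤ (∑ i, (∫ s in (8 * √(ε n))..(lenI i - 8 * √(ε n)),
          max (VI (D n) i s - (0 + 0 * s)) 0) + C * (ε n * √(ε n))) / ε n :=
        div_le_div_of_nonneg_right h4 hε.le
      rw [div_self hε.ne', add_div, Finset.sum_div] at h5
      have h6 : C * (ε n * √(ε n)) / ε n = C * √(ε n) := by
        field_simp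
      rwa [h6] at h5
    · exact absurd hε (not_lt.2 h4)
  have hz : Tendsto (fun n => (0 : ℝ) / ε n) atTop (𝓝 0) := by
    simp only [zero_div]
    exact tendsto_const_nhds
  have hsq0 : Tendsto (fun n => C * √(ε n)) atTop (𝓝 0) := by
    have h1 : Tendsto (fun n => √(ε n)) atTop (𝓝 (√0)) :=
      (Real.continuous_sqrt.tendsto 0).comp h.lim
    rw [Real.sqrt_zero] at h1
    have h2 := h1.const_mul C
    rwa [mul_zero] at h2
  have hlim : Tendsto (fun n => (∑ i, (∫ s in (8 * √(ε n))..(lenI i - 8 * √(ε n)),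
      max (VI (D n) i s - (0 + 0 * s)) 0) / ε n) + C * √(ε n)) atTop
      (𝓝 ((∑ i, ∫ s in (0 : ℝ)..(lenI i), max (W i s - (0 + 0 * s)) 0) + 0)) := by
    refine Tendsto.add ?_ hsq0
    refine tendsto_finsetSum _ fun i _ => ?_
    exact h.tendsto_pos i (x := fun _ => 0) (y := fun _ => 0) hz hz
  have h1 := ge_of_tendsto' hlim key
  simpa using h1

end Pool.Agent.MP4eed4eI
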