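import Pool.Agent.Lib.MP_4eed4e_an_I.MPos
import Pool.Agent.Lib.MP_4eed4e_an_I.MLI
import Pool.Agent.Lib.MP_4eed4e_an_I.GInn
import Pool.Agent.Lib.MP_4eed4e_an_I.FLim

set_option autoImplicit false

/-!
Project I, block M: the limit has mean value zero.
-/

namespace Pool.Agent.MP4eed4eI

open Pool.Agent.MP4eed4eP MeasureTheory Set Filter Topology

private theorem MSum_mid {D : ℕ → Set P} {ε : ℕ → ℝ} {W : Fin 3 → ℝ → ℝ} (h : Setup D ε W)
    {d : ℝ} (hd : 0 < d) (hd1 : d ≤ 1 / 4) :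
    ∑ i, (∫ s in d..(lenI i - d), max (-W i s) 0) ≤ 1 := by
  obtain ⟨ε1, h1, -, h2⟩ := vol_inn hd hd1
  have h3 : Tendsto (fun n => ∑ i, ∫ s in d..(lenI i - d), max (-(VI (D n) i s / ε n)) 0) atTop
      (𝓝 (∑ i, ∫ s in d..(lenI i - d), max (-W i s) 0)) := by
    refine tendsto_finsetSum _ fun i _ => ?_
    exact h.tendsto_mid i hd (by linarith) (G := fun x => max (-x) 0) (by fun_prop)
  refine le_of_tendsto h3 ?_
  have h4 : ∀ᶠ n in atTop, ε n ≤ ε1 :=
    (h.lim.eventually (gt_mem_nhds h1)).mono fun n hn => hn.le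
  filter_upwards [h4] with n hn
  have h5 := h.pos n
  have h6 := h2 (ε n) (D n) h5 hn (h.near n)
  have h7 : ∀ i : Fin 3, (∫ s in d..(lenI i - d), max (-(VI (D n) i s / ε n)) 0) =
      (∫ s in d..(lenI i - d), max (-VI (D n) i s) 0) / ε n := by
    intro i
    rw [← intervalIntegral.integral_div]
    refine intervalIntegral.integral_congr fun s _ => ?_
    have h8 := max_div_div_right h5.le (-VI (D n) i s) 0
    rw [zero_div] at h8
    rw [← h8, neg_div]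
  rw [Finset.sum_congr rfl fun i _ => h7 i, ← Finset.sum_div]
  exact (div_le_one h5).2 h6

private theorem MSum_int_neg {D : ℕ → Set P} {ε : ℕ → ℝ} {W : Fin 3 → ℝ → ℝ} (h : Setup D ε W)
    (i : Fin 3) : IntervalIntegrable (fun s => max (-W i s) 0) volume 0 (lenI i) := by
  have h1 := (h.int i).neg
  exact ⟨h1.1.pos_part, h1.2.pos_part⟩

private theorem MSum_int_pos {D : ℕ → Set P} {ε : ℕ → ℝ} {W : Fin 3 → ℝ → ℝ} (h : Setup D ε W)
    (i : Fin 3) : IntervalIntegrable (fun s => max (W i s) 0) volume 0 (lenI i) := by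
  have h1 := h.int i
  exact ⟨h1.1.pos_part, h1.2.pos_part⟩

/-- Proof. For `0 < d ≤ 1/4`: `vol_inn` gives `∑ ∫_d^{len - d} max (-VI) 0 ≤ ε n` for large `n`, so
`∑ ∫_d^{len - d} max (-W) 0 ≤ 1` (`tendsto_mid`); `d → 0` (`tendsto_ends`, `Setup.int`). -/
theorem Setup.neg_le {D : ℕ → Set P} {ε : ℕ → ℝ} {W : Fin 3 → ℝ → ℝ} (h : Setup D ε W) :
    ∑ i, (∫ s in (0 : ℝ)..(lenI i), max (-W i s) 0) ≤ 1 := by
  have h1 : Tendsto (fun d => ∑ i, ∫ s in d..(lenI i - d), max (-W i s) 0) (𝓝[>] 0)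
      (𝓝 (∑ i, ∫ s in (0 : ℝ)..(lenI i), max (-W i s) 0)) :=
    tendsto_finsetSum _ fun i _ => tendsto_ends i (MSum_int_neg h i)
  refine le_of_tendsto h1 ?_
  have h2 : Ioo (0 : ℝ) (1 / 4) ∈ 𝓝[>] (0 : ℝ) := Ioo_mem_nhdsGT (by norm_num)
  filter_upwards [h2] with d hd
  exact MSum_mid h hd.1 hd.2.le

private theorem MSum_sum (W : Fin 3 → ℝ → ℝ) :
    vI W 0 + wI W 0 = ∑ i, ∫ s in (0 : ℝ)..(lenI i), W i s := by
  rw [Fin.sum_univ_three]
  simp only [vI, wI, mul_zero, zero_mul, zero_div, Real.cos_zero, mul_one]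
  have h0 : lenI 0 = √3 := rfl
  have h1 : lenI 1 = 1 := rfl
  have h2 : lenI 2 = 2 := rfl
  rw [h0, h1, h2]
  ring

/-- Proof. `W = max W 0 - max (-W) 0`; `pos_ge`, `neg_le`: the sum of the integrals is `≥ 0`;
`lim_zero` with `LI_le`: it is `≤ 0` (`vI_wI_zero`). -/
theorem Setup.mean_zero {D : ℕ → Set P} {ε : ℕ → ℝ} {W : Fin 3 → ℝ → ℝ} (h : Setup D ε W) :
    vI W 0 + wI W 0 = 0 := by
  refine le_antisymm (lim_zero h.int fun κ => h.LI_le κ) ?_
  rw [MSum_sum]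
  have h1 : ∀ i : Fin 3, (∫ s in (0 : ℝ)..(lenI i), W i s) =
      (∫ s in (0 : ℝ)..(lenI i), max (W i s) 0) - ∫ s in (0 : ℝ)..(lenI i), max (-W i s) 0 := by
    intro i
    rw [← intervalIntegral.integral_sub (MSum_int_pos h i) (MSum_int_neg h i)]
    refine intervalIntegral.integral_congr fun s _ => ?_
    rcases le_total 0 (W i s) with h2 | h2
    · rw [max_eq_left h2, max_eq_right (by linarith)]
      ring
    · rw [max_eq_right h2, max_eq_left (by linarith)]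
      ring
  rw [Finset.sum_congr rfl fun i _ => h1 i, Finset.sum_sub_distrib]
  have h2 := h.pos_ge
  have h3 := h.neg_le
  linarith

end Pool.Agent.MP4eed4eI
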