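import Pool.Agent.Lib.MP_4eed4e_an_I.AUp
import Pool.Agent.Lib.MP_4eed4e_an_I.ATri
import Pool.Agent.Lib.MP_4eed4e_an_XL.LMain

set_option autoImplicit false

/-!
Project I, block A: Theorem A (the area).
-/

namespace Pool.Agent.MP4eed4eI

open Pool.Agent.MP4eed4eP Pool.Agent.MP4eed4eX.L MeasureTheory Set Filter Topology

/-- The area of `T0`. Proof. `Measure.volume` of the region between two graphs (`regionBetween`,
`volume_regionBetween_eq_integral`), or `T0` is an image of `Tri`; compare `PE.fub_h`. -/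
theorem vol_T0 : volume T0 = ENNReal.ofReal (√3 / 2) := by
  have h1 : (volume T0).toReal = √3 / 2 := by
    have h2 : ∫ _x in T0, (1 : ℝ) = (volume T0).toReal := by
      rw [setIntegral_const, smul_eq_mul, mul_one]
      rfl
    have h3 : IntegrableOn (fun _ : P => (1 : ℝ)) T0 :=
      integrableOn_const (PE.volume_T0_lt_top).ne
    rw [← h2, PE.fub_h _ h3]
    simp only [intervalIntegral.integral_const, smul_eq_mul, mul_one]
    have h4 : IntervalIntegrable (fun y : ℝ => √3 * y) volume 0 1 :=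
      (continuous_const.mul continuous_id').intervalIntegrable _ _
    have h5 : IntervalIntegrable (fun _ : ℝ => √3) volume 0 1 := by simp
    rw [intervalIntegral.integral_sub h5 h4, intervalIntegral.integral_const,
      intervalIntegral.integral_const_mul, integral_id, smul_eq_mul]
    ring
  rw [← h1, ENNReal.ofReal_toReal (PE.volume_T0_lt_top).ne]

open Pointwise in
private theorem OutA_vol {κ : ℝ} (hκ : 0 < κ) (w : P) (D : Set P) :
    volume (sm κ w '' D) = ENNReal.ofReal (κ ^ 2) * volume D := by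
  have h1 : sm κ w '' D = (fun x : P => x + w) '' (κ • D) := by
    ext y
    simp only [mem_image, mem_smul_set, sm]
    constructor
    · rintro ⟨x, hx, rfl⟩
      exact ⟨κ • x, ⟨x, hx, rfl⟩, rfl⟩
    · rintro ⟨_, ⟨x, hx, rfl⟩, rfl⟩
      exact ⟨x, hx, rfl⟩
  have h2 : Module.finrank ℝ P = 2 := by simp [P]
  rw [h1, image_add_right, measure_preimage_add_right, Measure.addHaar_smul, h2,
    abs_of_nonneg (by positivity)]

/-- The similarity `sm κ w` multiplies the area by `κ²`.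

Proof. `Measure.addHaar_image_homothety`, or translation and `Measure.addHaar_smul` (the dimension
of
`P` is `2`). -/
theorem vol_sm {κ : ℝ} (hκ : 0 < κ) (w : P) (D : Set P) :
    volume (sm κ w '' D) = ENNReal.ofReal (κ ^ 2) * volume D := by
  exact OutA_vol hκ w D

/-- Theorem A. If no eigenvalue of `D` exceeds the corresponding eigenvalue of `T0`, then the area
of
`D` is at least the area of `T0`.

Proof. `exists_sm` gives `κ > 0`, `w` with `D' = sm κ w '' D`, `DU D'`. Suppose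
`volume D < volume T0`, i.e. `vD := (volume D).toReal < √3 / 2` (`vol_T0`, `volume D < ⊤`); then
`vD' = κ² vD`. Let `ε = (√3 / 2 - vD) κ² / (32 π) > 0` and `L0` from `box_upper` for `D'`. For large
`L`: with `n` from `tri_lower`,
`√3 L² / (16 π) - L √L ≤ ∑ k < n, max 0 (L - lamL T0 (k + 1)) ≤ ∑ k < n, max 0 (L - lamL D (k + 1))
= κ² ∑ k < n, max 0 (L / κ² - lamL D' (k + 1))` (`lamL_of_sm`)
`≤ κ² (κ² vD / (8 π) + ε) (L / κ²)² = (vD / (8 π) + ε / κ²) L²`; divide by `L²` and let `L → ∞`: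
contradiction, since `√3 / (16 π) - vD / (8 π) = (√3 / 2 - vD) / (8 π) > ε / κ²`. -/
theorem area_le {D : Set P} (hD : IsOpen D) (hb : Bornology.IsBounded D) (hne : D.Nonempty)
    (h : ∀ k, 1 ≤ k → lamL D k ≤ lamL T0 k) : volume T0 ≤ volume D := by
  by_contra hlt
  rw [not_le] at hlt
  have hpi := Real.pi_pos
  have hDt : volume D < ⊤ := hlt.trans PE.volume_T0_lt_top
  have hv : (volume D).toReal < √3 / 2 := by
    rw [vol_T0] at hlt
    exact (ENNReal.lt_ofReal_iff_toReal_lt hDt.ne).1 hlt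
  set vD := (volume D).toReal with hvD
  obtain ⟨κ, hκ, w, hD'⟩ := exists_sm hD hb hne
  have hκ2 : 0 < κ ^ 2 := by positivity
  have hvol : (volume (sm κ w '' D)).toReal = κ ^ 2 * vD := by
    rw [vol_sm hκ, ENNReal.toReal_mul, ENNReal.toReal_ofReal hκ2.le]
  set d := √3 / 2 - vD with hd
  have hd0 : 0 < d := sub_pos.2 hv
  have hε : 0 < d * κ ^ 2 / (32 * Real.pi) := by positivity
  obtain ⟨L0, hL0⟩ := box_upper (D := sm κ w '' D) hε
  set c := 3 * d / (32 * Real.pi) with hc
  have hc0 : 0 < c := by positivity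
  set t := max (1 / c + 1) (κ ^ 2 * |L0| + 1) with ht
  have ht1 : 1 / c + 1 ≤ t := le_max_left _ _
  have ht2 : κ ^ 2 * |L0| + 1 ≤ t := le_max_right _ _
  have hc1 : 0 < 1 / c := by positivity
  have ht0 : 1 ≤ t := by linarith
  have htp : 0 < t := by linarith
  have hL : L0 ≤ t ^ 2 / κ ^ 2 := by
    rw [le_div_iff₀ hκ2]
    have h1 : L0 * κ ^ 2 ≤ κ ^ 2 * |L0| := by
      rw [mul_comm]
      exact mul_le_mul_of_nonneg_left (le_abs_self _) hκ2.le
    nlinarith
  obtain ⟨n, hn⟩ := tri_lower (L := t ^ 2) (by positivity)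
  rw [Real.sqrt_sq htp.le] at hn
  have h1 : ∑ k ∈ Finset.range n, max 0 (t ^ 2 - lamL T0 (k + 1)) ≤
      ∑ k ∈ Finset.range n, max 0 (t ^ 2 - lamL D (k + 1)) :=
    Finset.sum_le_sum fun k _ => max_le_max le_rfl
      (sub_le_sub_left (h (k + 1) (Nat.le_add_left 1 k)) _)
  have h2 : ∑ k ∈ Finset.range n, max 0 (t ^ 2 - lamL D (k + 1)) =
      κ ^ 2 * ∑ k ∈ Finset.range n, max 0 (t ^ 2 / κ ^ 2 - lamL (sm κ w '' D) (k + 1)) := by
    rw [Finset.mul_sum]
    refine Finset.sum_congr rfl fun k _ => ?_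
    rw [mul_max_of_nonneg _ _ hκ2.le, mul_zero, mul_sub, lamL_of_sm hκ w D]
    congr 2
    field_simp
  have h3 := hL0 _ hL n
  rw [hvol] at h3
  have h4 := mul_le_mul_of_nonneg_left h3 hκ2.le
  have h5 : κ ^ 2 * ((κ ^ 2 * vD / (8 * Real.pi) + d * κ ^ 2 / (32 * Real.pi)) *
      (t ^ 2 / κ ^ 2) ^ 2) = (vD / (8 * Real.pi) + d / (32 * Real.pi)) * t ^ 4 := by
    field_simp
  rw [h5] at h4
  have h6 : √3 * (t ^ 2) ^ 2 / (16 * Real.pi) - t ^ 2 * t ≤
      (vD / (8 * Real.pi) + d / (32 * Real.pi)) * t ^ 4 := by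
    linarith
  have h7 : √3 * (t ^ 2) ^ 2 / (16 * Real.pi) -
      (vD / (8 * Real.pi) + d / (32 * Real.pi)) * t ^ 4 = c * t * t ^ 3 := by
    rw [hc, hd]
    field_simp
    ring
  have h8 : c * t * t ^ 3 ≤ 1 * t ^ 3 := by
    have e : t ^ 2 * t = 1 * t ^ 3 := by ring
    linarith
  have h9 : c * t ≤ 1 := le_of_mul_le_mul_right h8 (by positivity)
  have h10 : c * (1 / c + 1) ≤ c * t := mul_le_mul_of_nonneg_left ht1 hc0.le
  have h11 : c * (1 / c + 1) = 1 + c := by
    field_simp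
  linarith

end Pool.Agent.MP4eed4eI
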