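import Pool.Agent.Lib.MP_4eed4e_an_I.RTri
import Pool.Agent.Lib.MP_4eed4e_an_I.ERig

set_option autoImplicit false

/-!
Project I, block R: the best rigid motion.
-/

namespace Pool.Agent.MP4eed4eI

open Pool.Agent.MP4eed4eP MeasureTheory Set Filter Topology

private theorem RBest_open : IsOpen T0 := by
  have h1 : IsOpen {v : P | 0 < v.2} := isOpen_lt continuous_const continuous_snd
  have h2 : IsOpen {v : P | √3 * v.2 < v.1} :=
    isOpen_lt (continuous_const.mul continuous_snd) continuous_fst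
  have h3 : IsOpen {v : P | v.1 < √3} := isOpen_lt continuous_fst continuous_const
  exact h1.inter (h2.inter h3)

private theorem RBest_convex : Convex ℝ T0 := by
  intro v hv w hw a b ha hb hab
  rw [mem_T0_iff] at hv hw ⊢
  intro i
  rw [tI_comb i hab]
  rcases ha.eq_or_lt with h | h
  · have hb1 : b = 1 := by linarith
    rw [← h, hb1, zero_mul, zero_add, one_mul]
    exact hw i
  · have h1 : a * tI i v < 0 := mul_neg_of_pos_of_neg h (hv i)
    have h2 : b * tI i w ≤ 0 := mul_nonpos_of_nonneg_of_nonpos hb (hw i).le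
    linarith

private theorem RBest_pos : 0 < volume T0 := by
  rw [volume_T0, ENNReal.ofReal_pos]
  positivity

private theorem RBest_fin : volume T0 < ⊤ := by
  rw [volume_T0]
  exact ENNReal.ofReal_lt_top

/-- An open convex subset of `T0` with at least its area is `T0`.

Proof. If `v ∈ T0 \ D`: `geometric_hahn_banach_open_point` gives a half plane `{f x ≥ f v}` disjoint
from `D`; its intersection with a small ball around `v` inside `T0` has positive measure; so
`volume D < volume T0`. -/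
theorem eq_of_subset {D : Set P} (ho : IsOpen D) (hc : Convex ℝ D) (hs : D ⊆ T0)
    (hv : volume T0 ≤ volume D) : D = T0 := by
  by_contra hne
  obtain ⟨v, hv0, hvD⟩ : ∃ v ∈ T0, v ∉ D := by
    by_contra hcon
    push Not at hcon
    exact hne (Subset.antisymm hs hcon)
  obtain ⟨f, hf⟩ := geometric_hahn_banach_open_point hc ho hvD
  obtain ⟨a, ha⟩ : D.Nonempty := by
    rw [Set.nonempty_iff_ne_empty]
    rintro rfl
    rw [measure_empty] at hv
    exact absurd RBest_pos (not_lt.2 hv)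
  have hUo : IsOpen (T0 ∩ {x | f v < f x}) :=
    RBest_open.inter (isOpen_lt continuous_const f.continuous)
  have hUn : (T0 ∩ {x | f v < f x}).Nonempty := by
    have hc1 : Tendsto (fun t : ℝ => v + t • (v - a)) (𝓝[>] 0) (𝓝 v) := by
      have h1 : Continuous fun t : ℝ => v + t • (v - a) := by fun_prop
      have h2 := h1.tendsto 0
      rw [zero_smul, add_zero] at h2
      exact h2.mono_left nhdsWithin_le_nhds
    obtain ⟨t, ht1, ht2⟩ := ((hc1.eventually (RBest_open.mem_nhds hv0)).and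
      (self_mem_nhdsWithin (s := Ioi (0 : ℝ)))).exists
    have ht0 : 0 < t := ht2
    refine ⟨v + t • (v - a), ht1, ?_⟩
    have h3 : 0 < f (v - a) := by
      rw [map_sub, sub_pos]
      exact hf a ha
    change f v < f (v + t • (v - a))
    rw [map_add, map_smul, smul_eq_mul]
    have := mul_pos ht0 h3
    linarith
  have hpos := hUo.measure_pos volume hUn
  have hsub : D ⊆ T0 \ (T0 ∩ {x | f v < f x}) := by
    intro x hx
    refine ⟨hs hx, fun h => ?_⟩
    exact absurd (hf x hx) (not_lt.2 h.2.le)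
  have h1 : volume D ≤ volume (T0 \ (T0 ∩ {x | f v < f x})) := measure_mono hsub
  rw [measure_sdiff inter_subset_left hUo.measurableSet.nullMeasurableSet
    ((measure_mono inter_subset_left).trans_lt RBest_fin).ne] at h1
  have h2 : volume T0 - volume (T0 ∩ {x | f v < f x}) < volume T0 :=
    ENNReal.sub_lt_self RBest_fin.ne RBest_pos.ne' hpos.ne'
  exact absurd (hv.trans h1) (not_le.2 h2)

private theorem RBest_mod (θ : ℝ) : ∃ θ' ∈ Icc (0 : ℝ) (2 * Real.pi), ∀ b, rig θ' b = rig θ b := by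
  refine ⟨toIcoMod Real.two_pi_pos 0 θ, Ico_subset_Icc_self (toIcoMod_mem_Ico' _ θ), fun b => ?_⟩
  have h : toIcoMod Real.two_pi_pos 0 θ =
      θ - (toIcoDiv Real.two_pi_pos 0 θ : ℝ) * (2 * Real.pi) := by
    rw [← self_sub_toIcoDiv_zsmul, zsmul_eq_mul]
  funext v
  unfold rig
  rw [h, Real.cos_sub_int_mul_two_pi, Real.sin_sub_int_mul_two_pi]

private theorem RBest_norm (θ : ℝ) (b x : P) : ‖b‖ ≤ ‖rig θ b x‖ + 2 * ‖x‖ := by
  have hc := Real.abs_cos_le_one θ
  have hs := Real.abs_sin_le_one θ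
  have hx1 : |x.1| ≤ ‖x‖ := norm_fst_le x
  have hx2 : |x.2| ≤ ‖x‖ := norm_snd_le x
  have hy1 : |(rig θ b x).1| ≤ ‖rig θ b x‖ := norm_fst_le (rig θ b x)
  have hy2 : |(rig θ b x).2| ≤ ‖rig θ b x‖ := norm_snd_le (rig θ b x)
  have hx0 := norm_nonneg x
  have m : ∀ s t : ℝ, |s| ≤ 1 → |t| ≤ ‖x‖ → |s * t| ≤ ‖x‖ := by
    intro s t h1 h2
    rw [abs_mul]
    calc |s| * |t| ≤ 1 * ‖x‖ := mul_le_mul h1 h2 (abs_nonneg _) zero_le_one
      _ = ‖x‖ := one_mul _
  have c1 := abs_le.1 (m _ _ hc hx1)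
  have c2 := abs_le.1 (m _ _ hs hx2)
  have c3 := abs_le.1 (m _ _ hs hx1)
  have c4 := abs_le.1 (m _ _ hc hx2)
  have d1 := abs_le.1 hy1
  have d2 := abs_le.1 hy2
  have e1 : (rig θ b x).1 = Real.cos θ * x.1 - Real.sin θ * x.2 + b.1 := rfl
  have e2 : (rig θ b x).2 = Real.sin θ * x.1 + Real.cos θ * x.2 + b.2 := rfl
  rw [e1] at d1
  rw [e2] at d2
  rw [Prod.norm_def, Real.norm_eq_abs, Real.norm_eq_abs]
  refine max_le (abs_le.2 ⟨?_, ?_⟩) (abs_le.2 ⟨?_, ?_⟩) <;>
    linarith [c1.1, c1.2, c2.1, c2.2, c3.1, c3.2, c4.1, c4.2, d1.1, d1.2, d2.1, d2.2]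

private theorem RBest_cont :
    Continuous (fun z : (ℝ × P) × P => rig z.1.1 z.1.2 z.2) := by
  unfold rig
  fun_prop

/-- Proof. Choose `θ n`, `b n` with `volume (rig (θ n) (b n) '' D \ T0) ≤ 1 / (n + 1)`; reduce
`θ n` to `[0, 2 π]` (`rig` has period `2 π`). For large `n` the set `rig (θ n) (b n) '' D` meets
`T0` (otherwise the volume of the difference is `volume D ≥ volume T0 > 1 / (n+1)`), so `b n` is
bounded (`D`, `T0` bounded). Take a convergent subsequence `θ n → θ`, `b n → b`. Claim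
`rig θ b '' D ⊆ closure T0`: if `x ∈ D` and `y = rig θ b x ∉ closure T0`, choose a radius `ρ` such
that the ball of radius `2 ρ` around `y` misses `closure T0` and the Euclidean disc (or a small
ball) of radius `ρ` around `x` lies in `D`; for large `n` its image under `rig (θ n) (b n)` is
contained in the complement of `T0` and in `rig (θ n) (b n) '' D`, and has fixed positive volume, a
contradiction. `rig θ b '' D` is open, `interior (closure T0) = T0` (convex), and `eq_of_subset`. -/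
theorem exists_rig_eq {D : Set P} (ho : IsOpen D) (hc : Convex ℝ D) (hb : Bornology.IsBounded D)
    (hv : volume T0 ≤ volume D)
    (h : ∀ η : ℝ, 0 < η → ∃ (θ : ℝ) (b : P),
      volume ((rig θ b '' D) \ T0) ≤ ENNReal.ofReal η) :
    ∃ (θ : ℝ) (b : P), rig θ b '' D = T0 := by
  have hη : ∀ n : ℕ, (0 : ℝ) < 1 / ((n : ℝ) + 2) := fun n => by positivity
  have h1 : ∀ n : ℕ, ∃ p : ℝ × P, p.1 ∈ Icc (0 : ℝ) (2 * Real.pi) ∧
      volume ((rig p.1 p.2 '' D) \ T0) ≤ ENNReal.ofReal (1 / ((n : ℝ) + 2)) := by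
    intro n
    obtain ⟨θ, b, hb'⟩ := h _ (hη n)
    obtain ⟨θ', hθ', he⟩ := RBest_mod θ
    exact ⟨(θ', b), hθ', by rw [he b]; exact hb'⟩
  choose p hp1 hp2 using h1
  obtain ⟨R, hR⟩ := hb.exists_norm_le
  obtain ⟨R0, hR0⟩ := bounded_T0.exists_norm_le
  have hs3 : (1 : ℝ) < √3 := by
    rw [Real.lt_sqrt (by norm_num)]
    norm_num
  have hp3 : ∀ n, (p n).2 ∈ Metric.closedBall (0 : P) (R0 + 2 * R) := by
    intro n
    have h2 : ((rig (p n).1 (p n).2 '' D) ∩ T0).Nonempty := by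
      by_contra hcon
      rw [Set.not_nonempty_iff_eq_empty] at hcon
      have h3 : (rig (p n).1 (p n).2 '' D) \ T0 = rig (p n).1 (p n).2 '' D := by
        rw [sdiff_eq_left]
        exact Set.disjoint_iff_inter_eq_empty.2 hcon
      have h4 := hp2 n
      rw [h3, volume_rig] at h4
      have h5 := hv.trans h4
      rw [volume_T0, ENNReal.ofReal_le_ofReal_iff (hη n).le] at h5
      have h6 : 1 / ((n : ℝ) + 2) ≤ 1 / 2 := by
        refine one_div_le_one_div_of_le (by norm_num) ?_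
        have : (0 : ℝ) ≤ n := Nat.cast_nonneg n
        linarith
      linarith
    obtain ⟨_, ⟨x, hx, rfl⟩, hy⟩ := h2
    rw [mem_closedBall_zero_iff]
    have h3 := RBest_norm (p n).1 (p n).2 x
    have h4 := hR x hx
    have h5 := hR0 _ hy
    linarith
  have hK : IsCompact (Icc (0 : ℝ) (2 * Real.pi) ×ˢ Metric.closedBall (0 : P) (R0 + 2 * R)) :=
    isCompact_Icc.prod (isCompact_closedBall _ _)
  obtain ⟨q, -, φ, hφ, hq⟩ := hK.tendsto_subseq (x := p) fun n => ⟨hp1 n, hp3 n⟩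
  have hcl : rig q.1 q.2 '' D ⊆ closure T0 := by
    rintro _ ⟨x, hx, rfl⟩
    by_contra hcon
    have h2 : ∀ᶠ z : (ℝ × P) × P in 𝓝 q ×ˢ 𝓝 x, rig z.1.1 z.1.2 z.2 ∈ (closure T0)ᶜ := by
      rw [← nhds_prod_eq]
      have h3 := (RBest_cont.tendsto (q, x)).eventually
        ((isClosed_closure (s := T0)).isOpen_compl.mem_nhds hcon)
      exact h3
    obtain ⟨pa, hpa, pb, hpb, hab⟩ := Filter.eventually_prod_iff.1 h2
    obtain ⟨ρ, hρ, hball⟩ := Metric.mem_nhds_iff.1 (Filter.inter_mem hpb (ho.mem_nhds hx))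
    have hpos : 0 < volume (Metric.ball x ρ) := Metric.measure_ball_pos volume x hρ
    have h3 : ∀ᶠ n in atTop, volume (Metric.ball x ρ) ≤
        ENNReal.ofReal (1 / (((φ n : ℕ) : ℝ) + 2)) := by
      filter_upwards [hq.eventually hpa] with n hn
      refine le_trans ?_ (hp2 (φ n))
      rw [← volume_rig (p (φ n)).1 (p (φ n)).2 (Metric.ball x ρ)]
      refine measure_mono ?_
      rintro _ ⟨y, hy, rfl⟩
      refine ⟨⟨y, (hball hy).2, rfl⟩, fun h4 => ?_⟩
      exact (hab hn (hball hy).1) (subset_closure h4)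
    have h4 : Tendsto (fun n => ENNReal.ofReal (1 / (((φ n : ℕ) : ℝ) + 2))) atTop (𝓝 0) := by
      have h5 : Tendsto (fun n : ℕ => 1 / ((n : ℝ) + 2)) atTop (𝓝 0) := by
        have h6 : Tendsto (fun n : ℕ => (n : ℝ) + 2) atTop atTop :=
          tendsto_atTop_add_const_right _ _ tendsto_natCast_atTop_atTop
        exact (tendsto_const_nhds (x := (1 : ℝ))).div_atTop h6
      have h6 := (ENNReal.tendsto_ofReal h5).comp hφ.tendsto_atTop
      rw [ENNReal.ofReal_zero] at h6
      exact h6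
    have h5 : volume (Metric.ball x ρ) ≤ 0 := ge_of_tendsto h4 h3
    exact absurd hpos (not_lt.2 h5)
  refine ⟨q.1, q.2, eq_of_subset (isOpen_rig _ _ ho) (convex_rig _ _ hc) ?_ ?_⟩
  · have hne : T0.Nonempty := nonempty_of_measure_ne_zero RBest_pos.ne'
    have h2 : interior (closure T0) = interior T0 :=
      RBest_convex.interior_closure_eq_interior_of_nonempty_interior
        (by rw [RBest_open.interior_eq]; exact hne)
    rw [RBest_open.interior_eq] at h2
    rw [← h2]
    exact (isOpen_rig _ _ ho).subset_interior_iff.2 hcl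
  · rw [volume_rig]
    exact hv

/-- A nearly best rigid motion. Proof. If the infimum `m` of the real numbers
`(volume ((rig θ b '' D) \ T0)).toReal` (they are finite: `D` is bounded) is `0`, then
`exists_rig_eq` applies, against `hne`. So `m > 0`; choose `θ, b` with value `< 2 m`. Take
`rig 0 0` for the bound by `volume (D \ T0)`. -/
theorem exists_best {D : Set P} (ho : IsOpen D) (hc : Convex ℝ D) (hb : Bornology.IsBounded D)
    (hv : volume T0 ≤ volume D) (hne : ∀ (θ : ℝ) (b : P), rig θ b '' D ≠ T0) :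
    ∃ (θ : ℝ) (b : P) (ε : ℝ), 0 < ε ∧ volume ((rig θ b '' D) \ T0) = ENNReal.ofReal ε ∧
      (∀ (θ' : ℝ) (b' : P), ENNReal.ofReal ε ≤ 2 * volume ((rig θ' b' '' D) \ T0)) ∧
      ENNReal.ofReal ε ≤ 2 * volume (D \ T0) := by
  obtain ⟨m, hm⟩ : ∃ m, m = ⨅ p : ℝ × P, volume ((rig p.1 p.2 '' D) \ T0) := ⟨_, rfl⟩
  have hle : ∀ θ b, m ≤ volume ((rig θ b '' D) \ T0) := fun θ b => by
    rw [hm]
    exact iInf_le (fun p : ℝ × P => volume ((rig p.1 p.2 '' D) \ T0)) (θ, b)
  have hfin : volume D < ⊤ := hb.measure_lt_top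
  have hmtop : m ≠ ⊤ := by
    refine ne_top_of_le_ne_top hfin.ne ((hle 0 0).trans ?_)
    rw [← volume_rig 0 0 D]
    exact measure_mono sdiff_subset
  have hm0 : m ≠ 0 := by
    intro h0
    obtain ⟨θ, b, he⟩ := exists_rig_eq ho hc hb hv fun η hη => by
      have h1 : (⨅ p : ℝ × P, volume ((rig p.1 p.2 '' D) \ T0)) < ENNReal.ofReal η := by
        rw [← hm, h0]
        exact ENNReal.ofReal_pos.2 hη
      obtain ⟨p, hp⟩ := iInf_lt_iff.1 h1
      exact ⟨p.1, p.2, hp.le⟩
    exact hne θ b he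
  have h1 : (⨅ p : ℝ × P, volume ((rig p.1 p.2 '' D) \ T0)) < 2 * m := by
    rw [← hm, two_mul]
    exact ENNReal.lt_add_right hmtop hm0
  obtain ⟨p, hp⟩ := iInf_lt_iff.1 h1
  have hptop : volume ((rig p.1 p.2 '' D) \ T0) ≠ ⊤ := hp.ne_top
  have hp0 : volume ((rig p.1 p.2 '' D) \ T0) ≠ 0 := by
    intro h0
    have h2 := hle p.1 p.2
    rw [h0] at h2
    exact hm0 (nonpos_iff_eq_zero.1 h2)
  have h2 : ∀ (θ' : ℝ) (b' : P), volume ((rig p.1 p.2 '' D) \ T0) ≤
      2 * volume ((rig θ' b' '' D) \ T0) := fun θ' b' =>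
    hp.le.trans (mul_le_mul_right (hle θ' b') 2)
  refine ⟨p.1, p.2, (volume ((rig p.1 p.2 '' D) \ T0)).toReal,
    ENNReal.toReal_pos hp0 hptop, (ENNReal.ofReal_toReal hptop).symm, fun θ' b' => ?_, ?_⟩
  · rw [ENNReal.ofReal_toReal hptop]
    exact h2 θ' b'
  · rw [ENNReal.ofReal_toReal hptop]
    have h3 := h2 0 0
    have h4 : rig 0 0 '' D = D := by
      have h5 : rig 0 0 = id := funext fun v => H.rig_zero v
      rw [h5, Set.image_id]
    rw [h4] at h3
    exact h3

end Pool.Agent.MP4eed4eI
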