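import Pool.Agent.Lib.MP_4eed4e_an_I.RBest
import Pool.Agent.Lib.MP_4eed4e_an_I.EFin
import Pool.Agent.Lib.MP_4eed4e_an_I.OutA
import Pool.Agent.Lib.MP_4eed4e_an_PD.DEig
import Pool.Agent.Lib.MP_4eed4e_an_I.TSpec

set_option autoImplicit false

/-!
Project I, block R: the main theorem.
-/

namespace Pool.Agent.MP4eed4eI

open Pool.Agent.MP4eed4eP MeasureTheory Set Filter Topology

private theorem RMain_vol (S : Set E2) : volume (toP '' S) = volume S := by
  obtain ⟨e, he⟩ : ∃ e : E2 ≃L[ℝ] P,
      e = (EuclideanSpace.equiv (Fin 2) ℝ).trans (ContinuousLinearEquiv.finTwoArrow ℝ ℝ) :=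
    ⟨_, rfl⟩
  have h1 : (e : E2 → P) = toP := by
    rw [he]
    rfl
  have h2 : MeasurePreserving (e : E2 → P) volume volume := by
    rw [he]
    exact (volume_preserving_finTwoArrow ℝ).comp
      (EuclideanSpace.volume_preserving_symm_measurableEquiv_toLp (Fin 2))
  have h3 : MeasurableEmbedding (e : E2 → P) := e.toHomeomorph.measurableEmbedding
  have h4 := h2.measure_preimage_emb h3 (e '' S)
  rw [Set.preimage_image_eq S e.injective, h1] at h4
  exact h4.symm

/-- The theorem in the plane `P`.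

Proof. Suppose not: for every `n` there is `D n` which satisfies the hypotheses with `N = n`,
`δ = 1 / (n + 1)` and is not congruent to `T0`. `area_le`: `volume T0 ≤ volume (D n)`.
`exists_best`:
`θ n, b n, ε n`; `D' n = rig (θ n) (b n) '' D n`. `ε n ≤ 2 volume (D n \ T0) ≤ 60 / (n + 1) → 0`
(`volume_diff_le`). `Near (ε n) (D' n)`: `isOpen_rig`, `convex_rig`, `bounded_rig`, and
`volume (T0 \ D') ≤ volume (D' \ T0)` because `volume T0 ≤ volume D' < ∞` (`volume_rig`).
`lamL (D' n) k = lamL (D n) k` (`lamL_rig`). `thmS` with `η = 1 / 4`: some `n, θ, b` with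
`volume (rig θ b '' D' n \ T0) ≤ ε n / 4`; the composition of the two rigid motions is a rigid
motion
(`rig_comp`), so `ε n ≤ 2 * ε n / 4`, a contradiction. -/
theorem main_P : ∃ (N : ℕ) (δ : ℝ), 0 < δ ∧ ∀ D : Set P, IsOpen D → Convex ℝ D → D.Nonempty →
    (∀ v ∈ D, ∀ i, tI i v < δ) → (∀ k, 1 ≤ k → k ≤ N → lamL D k = lamL T0 k) →
    (volume T0 ≤ volume D ∨ ∀ k, N < k → lamL D k ≤ lamL T0 k) →
    ∃ (θ : ℝ) (b : P), rig θ b '' D = T0 := by
  by_contra hcon
  push Not at hcon
  have hδ : ∀ n : ℕ, (0 : ℝ) < 1 / ((n : ℝ) + 1) := fun n => by positivity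
  have hδ1 : ∀ n : ℕ, 1 / ((n : ℝ) + 1) ≤ 1 := fun n => by
    rw [div_le_one (by positivity)]
    have : (0 : ℝ) ≤ n := Nat.cast_nonneg n
    linarith
  choose D ho hc hne ht hl hv hnot using fun n : ℕ => hcon (n + 1) _ (hδ n)
  have hb : ∀ n, Bornology.IsBounded (D n) := fun n =>
    bounded_of_tI fun v hv i => lt_of_lt_of_le (ht n v hv i) (hδ1 n)
  have hvol : ∀ n, volume T0 ≤ volume (D n) := fun n => by
    rcases hv n with h | h
    · exact h
    · refine area_le (ho n) (hb n) (hne n) fun k hk => ?_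
      rcases Nat.lt_or_ge (n + 1) k with h1 | h1
      · exact h k h1
      · exact (hl n k hk h1).le
  choose θ b ε hε hεeq hεbest hε0 using fun n => exists_best (ho n) (hc n) (hb n) (hvol n)
    (hnot n)
  have hlim : Tendsto ε atTop (𝓝 0) := by
    have h1 : Tendsto (fun n : ℕ => 60 * (1 / ((n : ℝ) + 1))) atTop (𝓝 0) := by
      have := (tendsto_one_div_add_atTop_nhds_zero_nat (𝕜 := ℝ)).const_mul 60
      rwa [mul_zero] at this
    refine squeeze_zero (fun n => (hε n).le) (fun n => ?_) h1
    have h2 : ENNReal.ofReal (ε n) ≤ ENNReal.ofReal (60 * (1 / ((n : ℝ) + 1))) := by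
      refine (hε0 n).trans ?_
      refine (mul_le_mul_right (volume_diff_le (hδ n) (hδ1 n) (ht n)) 2).trans ?_
      rw [show (2 : ENNReal) = ENNReal.ofReal 2 by simp, ← ENNReal.ofReal_mul (by norm_num)]
      refine ENNReal.ofReal_le_ofReal (le_of_eq ?_)
      ring
    exact (ENNReal.ofReal_le_ofReal_iff (by positivity)).1 h2
  have hN : ∀ n, Near (ε n) (rig (θ n) (b n) '' D n) := by
    intro n
    refine ⟨isOpen_rig _ _ (ho n), convex_rig _ _ (hc n), bounded_rig _ _ (hb n),
      (hεeq n).le, ?_⟩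
    rw [← hεeq n]
    have hm1 : MeasurableSet (rig (θ n) (b n) '' D n) := (isOpen_rig _ _ (ho n)).measurableSet
    have hm2 : MeasurableSet T0 := by
      rw [← image_T3]
      obtain ⟨e, he, -⟩ := exists_toPL
      have : toP '' T3 = e '' T3 := by
        refine Set.image_congr fun x _ => (he x).symm
      rw [this]
      exact (e.toHomeomorph.isOpenMap _ isOpen_interior).measurableSet
    have e1 := measure_inter_add_sdiff (μ := volume) T0 hm1
    have e2 := measure_inter_add_sdiff (μ := volume) (rig (θ n) (b n) '' D n) hm2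
    have e3 : volume T0 ≤ volume (rig (θ n) (b n) '' D n) := by
      rw [volume_rig]
      exact hvol n
    rw [← e1, ← e2, Set.inter_comm T0] at e3
    have hfin : volume (rig (θ n) (b n) '' D n ∩ T0) ≠ ⊤ :=
      ((measure_mono Set.inter_subset_right).trans_lt bounded_T0.measure_lt_top).ne
    exact (ENNReal.add_le_add_iff_left hfin).1 e3
  obtain ⟨n, θ', b', h⟩ := thmS (D := fun n => rig (θ n) (b n) '' D n) hε hlim hN hεeq
    (fun k hk => by
      filter_upwards [eventually_ge_atTop k] with n hn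
      show lamL T0 k ≤ lamL (rig (θ n) (b n) '' D n) k
      rw [lamL_rig, hl n k hk (by omega)])
    (fun n => by
      show lamL (rig (θ n) (b n) '' D n) 1 ≤ lamL T0 1
      rw [lamL_rig, hl n 1 le_rfl (by omega)]) (η := 1 / 4) (by norm_num)
  have h1 : rig θ' b' '' (rig (θ n) (b n) '' D n) =
      rig (θ' + θ n) (rig θ' b' (b n)) '' D n := by
    rw [Set.image_image]
    exact Set.image_congr fun x _ => H.rig_comp θ' (θ n) b' (b n) x
  have h2 := hεbest n (θ' + θ n) (rig θ' b' (b n))
  rw [← h1] at h2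
  have h3 : ENNReal.ofReal (ε n) ≤ ENNReal.ofReal (1 / 2 * ε n) := by
    refine h2.trans ((mul_le_mul_right h 2).trans ?_)
    rw [show (2 : ENNReal) = ENNReal.ofReal 2 by simp, ← ENNReal.ofReal_mul (by norm_num)]
    refine ENNReal.ofReal_le_ofReal (le_of_eq ?_)
    ring
  have h4 := (ENNReal.ofReal_le_ofReal_iff (by have := hε n; positivity)).1 h3
  have := hε n
  linarith

/-- A convex domain near the triangle with the angles 30, 60 and 90 degrees which has the same first
`N` eigenvalues and at least the same area (or no larger further eigenvalues) is congruent to it.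

Proof. `main_P` for `D = toP '' Ω` (open, convex; `tI_thickening`, `image_T3`, `eig_eq`). `Ω` is
nonempty: `eig ∅ 1 = 0` (no one-dimensional space of functions with support in the empty set, `sInf
∅ = 0`) and `eig T3 1 = lamL T0 1 > 0` (`first_T0`). `exists_isometry` turns the rigid motion into
an isometry of `E2`. -/
theorem main : ∃ (N : ℕ) (δ : ℝ), 0 < δ ∧ ∀ Ω : Set E2, IsOpen Ω → Convex ℝ Ω →
    Ω ⊆ Metric.thickening δ T3 → (∀ k, 1 ≤ k → k ≤ N → eig Ω k = eig T3 k) →
    (volume T3 ≤ volume Ω ∨ ∀ k, N < k → eig Ω k ≤ eig T3 k) →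
    ∃ φ : E2 ≃ᵢ E2, φ '' Ω = T3 := by
  obtain ⟨N, δ, hδ, H⟩ := main_P
  refine ⟨N + 1, δ, hδ, fun Ω ho hc hsub hE hV => ?_⟩
  obtain ⟨e, he, -⟩ := exists_toPL
  have himg : ∀ S : Set E2, toP '' S = e '' S := fun S =>
    Set.image_congr fun x _ => (he x).symm
  have hE' : ∀ k, 1 ≤ k → k ≤ N + 1 → lamL (toP '' Ω) k = lamL T0 k := by
    intro k hk hkN
    rw [← eig_eq Ω ho k, hE k hk hkN, eig_eq T3 isOpen_interior k, image_T3]
  have hne : (toP '' Ω).Nonempty := by
    rw [Set.image_nonempty]
    by_contra hemp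
    rw [Set.not_nonempty_iff_eq_empty] at hemp
    have h1 := hE' 1 le_rfl (by omega)
    rw [hemp, Set.image_empty, first_T0.1] at h1
    have h2 : lamL ∅ 1 = 0 := by
      unfold lamL
      have h3 : {r : ℝ | ∃ V : Submodule ℝ (P → ℝ), Module.finrank ℝ V = 1 ∧
          ∀ f ∈ V, LipC ∅ f ∧ en f ≤ r * l2 f} = ∅ := by
        rw [Set.eq_empty_iff_forall_notMem]
        rintro r ⟨V, hV, hf⟩
        have hbot : V ≠ ⊥ := by
          rintro rfl
          rw [finrank_bot] at hV
          exact zero_ne_one hV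
        obtain ⟨f, hfV, hf0⟩ := Submodule.exists_mem_ne_zero_of_ne_bot hbot
        apply hf0
        have h4 := (hf f hfV).1.2.2
        rw [Set.subset_empty_iff, tsupport_eq_empty_iff] at h4
        exact h4
      rw [h3, Real.sInf_empty]
    rw [h2] at h1
    have hpi := Real.pi_pos
    have : 0 < 28 * Real.pi ^ 2 / 9 := by positivity
    linarith
  obtain ⟨θ, b, h⟩ := H (toP '' Ω)
    (by
      rw [himg]
      exact e.toHomeomorph.isOpenMap _ ho)
    (by
      rw [himg]
      exact hc.linear_image (e : E2 →L[ℝ] P).toLinearMap)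
    hne
    (by
      rintro v ⟨x, hx, rfl⟩ i
      exact tI_thickening (hsub hx) i)
    (fun k hk hkN => hE' k hk (by omega))
    (by
      rcases hV with h | h
      · left
        rw [← image_T3, RMain_vol, RMain_vol]
        exact h
      · right
        intro k hk
        rcases Nat.lt_or_ge (N + 1) k with h1 | h1
        · have h2 := h k h1
          rwa [eig_eq Ω ho k, eig_eq T3 isOpen_interior k, image_T3] at h2
        · exact (hE' k (by omega) h1).le)
  obtain ⟨φ, hφ⟩ := exists_isometry θ b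
  refine ⟨φ, ?_⟩
  have hinj : Function.Injective toP := fun x y hxy => by
    rw [← ofP_toP x, ← ofP_toP y, hxy]
  apply hinj.image_injective
  show toP '' (φ '' Ω) = toP '' T3
  rw [image_T3, ← h, Set.image_image, Set.image_image]
  exact Set.image_congr fun x _ => hφ x

end Pool.Agent.MP4eed4eI
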