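import Pool.Agent.Lib.MP_4eed4e_an_I.GCo
import Pool.Agent.Lib.MP_4eed4e_an_P.OutG

set_option autoImplicit false

/-!
Project I, block R: the triangle in the Euclidean plane, neighbourhoods.
-/

namespace Pool.Agent.MP4eed4eI

open Pool.Agent.MP4eed4eP MeasureTheory Set Filter Topology

private theorem RTri_s2 : √(3 : ℝ) * √3 = 3 := Real.mul_self_sqrt (by norm_num)

private theorem RTri_s0 : 0 < √(3 : ℝ) := by positivity

private theorem RTri_s3 : √(3 : ℝ) < 9 / 5 := by
  nlinarith [RTri_s2, RTri_s0]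

private theorem RTri_s17 : 17 / 10 < √(3 : ℝ) := by
  nlinarith [RTri_s2, RTri_s0]

theorem volume_T0 : volume T0 = ENNReal.ofReal (√3 / 2) := by
  have h0 := RTri_s0
  have e : T0 = regionBetween (fun _ => (0 : ℝ)) (fun x => x / √3) (Ioo 0 √3) := by
    ext v
    simp only [T0, regionBetween, Set.mem_ofPred_eq, mem_Ioo]
    constructor
    · rintro ⟨h1, h2, h3⟩
      have h4 : 0 < √3 * v.2 := mul_pos h0 h1
      refine ⟨⟨by linarith, h3⟩, h1, ?_⟩
      rw [lt_div_iff₀ h0]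
      linarith
    · rintro ⟨⟨-, h3⟩, h1, h2⟩
      rw [lt_div_iff₀ h0] at h2
      exact ⟨h1, by linarith, h3⟩
  have hf : IntegrableOn (fun _ : ℝ => (0 : ℝ)) (Ioo 0 √3) := integrableOn_zero
  have hg : IntegrableOn (fun x : ℝ => x / √3) (Ioo 0 √3) :=
    ((continuous_id.div_const _).integrableOn_Icc).mono_set Ioo_subset_Icc_self
  rw [e, Measure.volume_eq_prod,
    volume_regionBetween_eq_integral hf hg measurableSet_Ioo fun x hx =>
      div_nonneg hx.1.le h0.le]
  congr 1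
  have h1 : ∫ y in Ioo 0 √3, ((fun x : ℝ => x / √3) - fun _ : ℝ => (0 : ℝ)) y =
      ∫ y in Ioo 0 √3, y / √3 := by
    refine integral_congr_ae (Eventually.of_forall fun y => ?_)
    simp only [Pi.sub_apply, sub_zero]
  rw [h1, ← integral_Ioc_eq_integral_Ioo, ← intervalIntegral.integral_of_le h0.le,
    intervalIntegral.integral_div, integral_id]
  have h2 : √3 ^ 2 = (3 : ℝ) := Real.sq_sqrt (by norm_num)
  field_simp
  ring

private theorem RTri_ball {v : P} {r : ℝ} (h1 : -r ≤ v.1) (h2 : v.1 ≤ r) (h3 : -r ≤ v.2)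
    (h4 : v.2 ≤ r) : v ∈ Metric.closedBall (0 : P) r := by
  rw [Metric.mem_closedBall, Prod.dist_eq, Real.dist_eq, Real.dist_eq]
  refine max_le (abs_le.2 ?_) (abs_le.2 ?_)
  · rw [Prod.fst_zero, sub_zero]
    exact ⟨h1, h2⟩
  · rw [Prod.snd_zero, sub_zero]
    exact ⟨h3, h4⟩

theorem bounded_T0 : Bornology.IsBounded T0 := by
  refine (Metric.isBounded_closedBall (x := (0 : P)) (r := 2)).subset ?_
  rintro v ⟨h1, h2, h3⟩
  have h0 := RTri_s0
  have h4 := RTri_s3
  have h5 : 0 < √3 * v.2 := mul_pos h0 h1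
  have h6 : v.2 < 1 := by
    by_contra hc
    have : √3 * 1 ≤ √3 * v.2 := mul_le_mul_of_nonneg_left (not_lt.1 hc) h0.le
    linarith
  exact RTri_ball (by linarith) (by linarith) (by linarith) (by linarith)

private theorem RTri_conv : Convex ℝ {v : P | ∀ i, tI i v ≤ 0} := by
  intro v hv w hw a b ha hb hab i
  rw [tI_comb i hab]
  have h1 := mul_nonpos_of_nonneg_of_nonpos ha (hv i)
  have h2 := mul_nonpos_of_nonneg_of_nonpos hb (hw i)
  linarith

private theorem RTri_hull : convexHull ℝ ({((0 : ℝ), (0 : ℝ)), (√3, 0), (√3, 1)} : Set P) =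
    {v : P | ∀ i, tI i v ≤ 0} := by
  have h0 := RTri_s0
  apply Subset.antisymm
  · refine convexHull_min ?_ RTri_conv
    rintro v (rfl | rfl | rfl) i
    · fin_cases i
      · change -(0 : ℝ) ≤ 0
        linarith
      · change (0 : ℝ) - √3 ≤ 0
        linarith
      · change (-(0 : ℝ) + √3 * 0) / 2 ≤ 0
        linarith
    · fin_cases i
      · change -(0 : ℝ) ≤ 0
        linarith
      · change √3 - √3 ≤ 0
        linarith
      · change (-√3 + √3 * 0) / 2 ≤ 0
        linarith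
    · fin_cases i
      · change -(1 : ℝ) ≤ 0
        linarith
      · change √3 - √3 ≤ 0
        linarith
      · change (-√3 + √3 * 1) / 2 ≤ 0
        linarith
  · intro v hv
    have h1 : -v.2 ≤ 0 := hv 0
    have h2 : v.1 - √3 ≤ 0 := hv 1
    have h3 : (-v.1 + √3 * v.2) / 2 ≤ 0 := hv 2
    set S : Set P := {((0 : ℝ), (0 : ℝ)), (√3, 0), (√3, 1)} with hS
    have hz : ∀ i ∈ (Finset.univ : Finset (Fin 3)),
        (![((0 : ℝ), (0 : ℝ)), (√3, 0), (√3, 1)] : Fin 3 → P) i ∈ convexHull ℝ S := by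
      intro i _
      refine subset_convexHull ℝ S ?_
      fin_cases i
      · exact Or.inl rfl
      · exact Or.inr (Or.inl rfl)
      · exact Or.inr (Or.inr rfl)
    have hw : ∀ i ∈ (Finset.univ : Finset (Fin 3)),
        0 ≤ (![1 - v.1 / √3, v.1 / √3 - v.2, v.2] : Fin 3 → ℝ) i := by
      intro i _
      fin_cases i
      · change 0 ≤ 1 - v.1 / √3
        rw [sub_nonneg, div_le_one h0]
        linarith
      · change 0 ≤ v.1 / √3 - v.2
        rw [sub_nonneg, le_div_iff₀ h0]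
        linarith
      · change 0 ≤ v.2
        linarith
    have hs : ∑ i, (![1 - v.1 / √3, v.1 / √3 - v.2, v.2] : Fin 3 → ℝ) i = 1 := by
      rw [Fin.sum_univ_three]
      change 1 - v.1 / √3 + (v.1 / √3 - v.2) + v.2 = 1
      ring
    have h4 := (convex_convexHull ℝ S).sum_mem hw hs hz
    rw [Fin.sum_univ_three] at h4
    have h5 : (1 - v.1 / √3) • (((0 : ℝ), (0 : ℝ)) : P) + (v.1 / √3 - v.2) • ((√3, 0) : P) +
        v.2 • ((√3, 1) : P) = v := by
      ext
      · change (1 - v.1 / √3) * 0 + (v.1 / √3 - v.2) * √3 + v.2 * √3 = v.1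
        field_simp
        ring
      · change (1 - v.1 / √3) * 0 + (v.1 / √3 - v.2) * 0 + v.2 * 1 = v.2
        ring
    have h6 : (1 - v.1 / √3) • (((0 : ℝ), (0 : ℝ)) : P) + (v.1 / √3 - v.2) • ((√3, 0) : P) +
        v.2 • ((√3, 1) : P) ∈ convexHull ℝ S := h4
    rwa [h5] at h6

private theorem RTri_int : interior {v : P | ∀ i, tI i v ≤ 0} = T0 := by
  apply Subset.antisymm
  · intro v hv
    rw [mem_T0_iff]
    intro i
    obtain ⟨ε, hε, hball⟩ := Metric.mem_nhds_iff.1 (mem_interior_iff_mem_nhds.1 hv)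
    have h1 : ptI i (sI i v) (tI i v + ε / 4) ∈ Metric.ball v ε := by
      rw [Metric.mem_ball]
      have h2 := dist_ptI_le i (sI i v) (tI i v + ε / 4) (sI i v) (tI i v)
      rw [ptI_sI_tI, sub_self, abs_zero, zero_add, add_sub_cancel_left,
        abs_of_pos (by linarith)] at h2
      linarith
    have h3 := hball h1 i
    rw [tI_ptI] at h3
    linarith
  · refine interior_maximal ?_ ?_
    · intro v hv i
      exact ((mem_T0_iff v).1 hv i).le
    · have e : T0 = ⋂ i, {v : P | tI i v < 0} := by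
        ext v
        rw [mem_T0_iff, mem_iInter]
        rfl
      rw [e]
      exact isOpen_iInter_of_finite fun i => isOpen_lt (continuous_tI i) continuous_const

/-- Proof. `image_KK` (interior and convex hull commute with the linear homeomorphism `toP`); the
closed triangle with the three corners is `{v | ∀ i, tI i v ≤ 0}` (the convex combination
`v = λ_0 (0,0) + λ_1 (√3,0) + λ_2 (√3,1)` with `λ_2 = v.2`, `λ_1 = v.1/√3 - v.2`,
`λ_0 = 1 - v.1/√3`), and its interior is `T0`. -/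
theorem image_T3 : toP '' T3 = T0 := by
  obtain ⟨e, he, -⟩ := exists_toPL
  have he' : (toP : E2 → P) = e := funext fun x => (he x).symm
  have h1 : toP '' T3 = interior (convexHull ℝ (toP ''
      {!₂[(0 : ℝ), 0], !₂[√3, 0], !₂[√3, 1]})) := by
    rw [he', T3]
    have h2 := e.toHomeomorph.image_interior
      (convexHull ℝ {!₂[(0 : ℝ), 0], !₂[√3, 0], !₂[√3, 1]})
    have h3 : (e.toHomeomorph : E2 → P) = e := rfl
    rw [h3] at h2
    rw [h2]
    congr 1
    exact LinearMap.image_convexHull ((e : E2 →L[ℝ] P) : E2 →ₗ[ℝ] P) _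
  have h4 : toP '' {!₂[(0 : ℝ), 0], !₂[√3, 0], !₂[√3, 1]} =
      ({((0 : ℝ), (0 : ℝ)), (√3, 0), (√3, 1)} : Set P) := by
    rw [Set.image_insert_eq, Set.image_insert_eq, Set.image_singleton]
    simp [toP]
  rw [h1, h4, RTri_hull]
  exact RTri_int

/-- Proof. `tI i` is a linear functional of Euclidean norm one plus a constant. -/
theorem tI_toP_sub (i : Fin 3) (x y : E2) : |tI i (toP x) - tI i (toP y)| ≤ dist x y := by
  rw [EuclideanSpace.dist_eq, Fin.sum_univ_two, Real.dist_eq, Real.dist_eq, sq_abs, sq_abs]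
  refine Real.abs_le_sqrt ?_
  fin_cases i
  · change (-(x 1) - -(y 1)) ^ 2 ≤ (x 0 - y 0) ^ 2 + (x 1 - y 1) ^ 2
    nlinarith [sq_nonneg (x 0 - y 0)]
  · change (x 0 - √3 - (y 0 - √3)) ^ 2 ≤ (x 0 - y 0) ^ 2 + (x 1 - y 1) ^ 2
    nlinarith [sq_nonneg (x 1 - y 1)]
  · change ((-(x 0) + √3 * x 1) / 2 - (-(y 0) + √3 * y 1) / 2) ^ 2 ≤
      (x 0 - y 0) ^ 2 + (x 1 - y 1) ^ 2
    have e : (x 0 - y 0) ^ 2 + (x 1 - y 1) ^ 2 -
        ((-(x 0) + √3 * x 1) / 2 - (-(y 0) + √3 * y 1) / 2) ^ 2 =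
        ((√3 * (x 0 - y 0) + (x 1 - y 1)) / 2) ^ 2 := by
      linear_combination (-((x 1 - y 1) ^ 2 / 4) - (x 0 - y 0) ^ 2 / 4) * RTri_s2
    have h := sq_nonneg ((√3 * (x 0 - y 0) + (x 1 - y 1)) / 2)
    linarith

theorem tI_thickening {δ : ℝ} {x : E2} (hx : x ∈ Metric.thickening δ T3) (i : Fin 3) :
    tI i (toP x) < δ := by
  obtain ⟨z, hz, hd⟩ := Metric.mem_thickening_iff.1 hx
  have h1 : toP z ∈ T0 := by
    rw [← image_T3]
    exact mem_image_of_mem _ hz
  have h2 := (mem_T0_iff _).1 h1 i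
  have h3 := (abs_le.1 (tI_toP_sub i x z)).2
  linarith

theorem bounded_of_tI {D : Set P} (h : ∀ v ∈ D, ∀ i, tI i v < 1) : Bornology.IsBounded D := by
  refine (Metric.isBounded_closedBall (x := (0 : P)) (r := 5)).subset ?_
  intro v hv
  have h1 : -v.2 < 1 := h v hv 0
  have h2 : v.1 - √3 < 1 := h v hv 1
  have h3 : (-v.1 + √3 * v.2) / 2 < 1 := h v hv 2
  have h0 := RTri_s0
  have h4 := RTri_s3
  have h5 := RTri_s17
  have h6 : √3 * (-1) ≤ √3 * v.2 := mul_le_mul_of_nonneg_left (by linarith) h0.le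
  have h7 : v.2 ≤ 5 := by
    by_contra hc
    have : √3 * 5 ≤ √3 * v.2 := mul_le_mul_of_nonneg_left (not_le.1 hc).le h0.le
    linarith
  exact RTri_ball (by linarith) (by linarith) (by linarith) h7

/-- Proof. All `tI i v < 1` implies `v ∈ [-15/4, 11/4] ×ˢ [-1, 11/4]`. `D \ T0` is contained in the
union of `{v in the box | 0 ≤ tI i v < δ}`, `i = 0, 1, 2`, of areas at most `13/2 δ`, `15/4 δ` and
`15/2 δ` (rectangles; for `i = 2` for each `v.2` an interval of length `2 δ`; or use `mp_ptI` and a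
rectangle in the coordinates of the side with `|sI 2 v| ≤ 5`: area `10 δ`). -/
theorem volume_diff_le {D : Set P} {δ : ℝ} (hδ : 0 < δ) (hδ1 : δ ≤ 1)
    (h : ∀ v ∈ D, ∀ i, tI i v < δ) : volume (D \ T0) ≤ ENNReal.ofReal (30 * δ) := by
  have hA : ∀ i : Fin 3, volume {v : P | sI i v ∈ Icc (-4 : ℝ) 6 ∧ tI i v ∈ Ico 0 δ} =
      ENNReal.ofReal (10 * δ) := by
    intro i
    have hm : MeasurableSet {v : P | sI i v ∈ Icc (-4 : ℝ) 6 ∧ tI i v ∈ Ico 0 δ} :=
      ((continuous_sI i).measurable measurableSet_Icc).inter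
        ((continuous_tI i).measurable measurableSet_Ico)
    have h1 := (mp_ptI i).measure_preimage hm.nullMeasurableSet
    have h2 : (fun x : P => ptI i x.1 x.2) ⁻¹'
        {v : P | sI i v ∈ Icc (-4 : ℝ) 6 ∧ tI i v ∈ Ico 0 δ} =
        Icc (-4 : ℝ) 6 ×ˢ Ico 0 δ := by
      ext x
      simp only [mem_preimage, Set.mem_ofPred_eq, sI_ptI, tI_ptI, mem_prod]
    rw [h2, Measure.volume_eq_prod, Measure.prod_prod, Real.volume_Icc, Real.volume_Ico] at h1
    rw [← Measure.volume_eq_prod] at h1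
    rw [← h1, ← ENNReal.ofReal_mul (by norm_num)]
    congr 1
    ring
  have hsub : D \ T0 ⊆ ⋃ i : Fin 3, {v : P | sI i v ∈ Icc (-4 : ℝ) 6 ∧ tI i v ∈ Ico 0 δ} := by
    rintro v ⟨hv, hv0⟩
    rw [mem_T0_iff] at hv0
    push Not at hv0
    obtain ⟨i, hi⟩ := hv0
    have h1 := sI_range i (τ := 1) (a := 0) zero_le_one le_rfl
      (fun j => ((h v hv j).trans_le hδ1).le) (by rw [neg_zero]; exact hi)
    have h2 := (lenI_bounds i).2
    refine mem_iUnion.2 ⟨i, ⟨?_, ?_⟩, hi, h v hv i⟩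
    · linarith [h1.1]
    · linarith [h1.2]
  refine (measure_mono hsub).trans ((measure_iUnion_fintype_le _ _).trans ?_)
  rw [Fin.sum_univ_three, hA, hA, hA, ← ENNReal.ofReal_add (by linarith) (by linarith),
    ← ENNReal.ofReal_add (by linarith) (by linarith)]
  exact ENNReal.ofReal_le_ofReal (by linarith)

end Pool.Agent.MP4eed4eI
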