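import Pool.Agent.Lib.MP_4eed4e_an_I.UStr
import Pool.Agent.Lib.MP_4eed4e_an_PE.EFub

set_option autoImplicit false

/-!
Project I, block U: integrals over `EU h` and over `T0`.
-/

namespace Pool.Agent.MP4eed4eI

open Pool.Agent.MP4eed4eP MeasureTheory Set Filter Topology

private theorem UBd_r {C r : ℝ} {h : Fin 3 → ℝ → ℝ} (H : Hyp C r h) :
    0 ≤ C * r ^ 7 ∧ 24 * (C * r ^ 7) ≤ r ^ 6 ∧ C * r ^ 7 ≤ 1 ∧ 0 < r ^ 6 := by
  have h1 := H.rp
  have h2 := H.r1
  have h3 := H.cp
  have h4 := H.cr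
  have h5 : 0 < r ^ 6 := by positivity
  have h6 : r ^ 6 ≤ 1 := pow_le_one₀ h1.le (by linarith)
  have e : C * r ^ 7 = (C * r) * r ^ 6 := by ring
  have h7 : (C * r) * r ^ 6 ≤ 1 / 1000 * r ^ 6 := mul_le_mul_of_nonneg_right h4 h5.le
  refine ⟨by positivity, ?_, ?_, h5⟩
  · rw [e]
    linarith
  · rw [e]
    linarith

private theorem UBd_sub {C r : ℝ} {h : Fin 3 → ℝ → ℝ} (H : Hyp C r h) :
    (EU h \ T0) ∪ (T0 \ EU h) ⊆
      {v : P | ∃ j, dist v (corI j) < r ^ 3} ∪ ⋃ i, (FpU h i ∪ FmU h i) := by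
  intro v hv
  by_cases hc : ∃ j, dist v (corI j) < r ^ 3
  · exact Or.inl hc
  · right
    have hc' : ∀ j, r ^ 3 ≤ dist v (corI j) := by
      intro j
      by_contra hj
      exact hc ⟨j, not_le.1 hj⟩
    have h1 := ind_diff H hc'
    by_contra hn
    have hz : ∀ i, v ∉ FpU h i ∧ v ∉ FmU h i := by
      intro i
      constructor
      · intro h2
        exact hn (mem_iUnion.2 ⟨i, Or.inl h2⟩)
      · intro h2
        exact hn (mem_iUnion.2 ⟨i, Or.inr h2⟩)
    rw [Finset.sum_eq_zero (fun i _ => by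
      rw [indicator_of_notMem (hz i).1, indicator_of_notMem (hz i).2, sub_zero])] at h1
    rcases hv with ⟨h2, h3⟩ | ⟨h2, h3⟩
    · rw [indicator_of_mem h2, indicator_of_notMem h3] at h1
      norm_num at h1
    · rw [indicator_of_mem h2, indicator_of_notMem h3] at h1
      norm_num at h1

private theorem UBd_iEU {C r : ℝ} {h : Fin 3 → ℝ → ℝ} (H : Hyp C r h) {g : P → ℝ}
    (hg : Continuous g) : IntegrableOn g (EU h) := by
  have h1 : IntegrableOn g (Metric.closedBall (0 : P) 4) :=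
    hg.continuousOn.integrableOn_compact (isCompact_closedBall (0 : P) 4)
  exact h1.mono_set fun v hv => mem_closedBall_zero_iff.2 (bounded_EU H v hv)

private theorem UBd_iT0 {g : P → ℝ} (hg : Continuous g) : IntegrableOn g T0 := by
  have h1 : IntegrableOn g (Icc (0 : ℝ) √3 ×ˢ Icc (0 : ℝ) 1) :=
    hg.continuousOn.integrableOn_compact (isCompact_Icc.prod isCompact_Icc)
  exact h1.mono_set PE.T0_subset

private theorem UBd_iF {C r : ℝ} {h : Fin 3 → ℝ → ℝ} (H : Hyp C r h) {g : P → ℝ}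
    (hg : Continuous g) (i : Fin 3) : IntegrableOn g (FpU h i) ∧ IntegrableOn g (FmU h i) := by
  obtain ⟨c0, c1, c2, c3⟩ := UBd_r H
  have h1 : IntegrableOn g ((fun x : P => ptI i x.1 x.2) '' (Icc 0 (lenI i) ×ˢ Icc (-1) 1)) :=
    hg.continuousOn.integrableOn_compact
      ((isCompact_Icc.prod isCompact_Icc).image (continuous_ptI i))
  constructor
  · refine h1.mono_set fun v hv => ⟨(sI i v, tI i v), ⟨⟨hv.1.le, hv.2.1.le⟩, ?_, ?_⟩,
      ptI_sI_tI i v⟩
    · have h2 := hv.2.2.1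
      show -1 ≤ tI i v
      linarith
    · have h2 := hv.2.2.2
      have h3 := (abs_le.1 (H.bd i (sI i v))).2
      show tI i v ≤ 1
      linarith
  · refine h1.mono_set fun v hv => ⟨(sI i v, tI i v), ⟨⟨hv.1.le, hv.2.1.le⟩, ?_, ?_⟩,
      ptI_sI_tI i v⟩
    · have h2 := hv.2.2.1
      have h3 := (abs_le.1 (H.bd i (sI i v))).1
      show -1 ≤ tI i v
      linarith
    · have h2 := hv.2.2.2
      show tI i v ≤ 1
      linarith

private theorem UBd_ind (S : Set P) (g : P → ℝ) (v : P) :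
    S.indicator g v = S.indicator (fun _ => (1 : ℝ)) v * g v := by
  by_cases hv : v ∈ S
  · rw [indicator_of_mem hv, indicator_of_mem hv, one_mul]
  · rw [indicator_of_notMem hv, indicator_of_notMem hv, zero_mul]

private theorem UBd_01 (S : Set P) (v : P) :
    0 ≤ S.indicator (fun _ => (1 : ℝ)) v ∧ S.indicator (fun _ => (1 : ℝ)) v ≤ 1 := by
  by_cases hv : v ∈ S
  · rw [indicator_of_mem hv]
    exact ⟨zero_le_one, le_rfl⟩
  · rw [indicator_of_notMem hv]
    exact ⟨le_rfl, zero_le_one⟩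

/-- The area of the difference.

Proof. By `ind_diff` the difference is contained in `{v | ∃ j, dist v (corI j) < r ^ 3}` and the six
sets `FpU h i`, `FmU h i`; `vol_cor`, `vol_FU`; `C r ≤ 1 / 1000`. -/
theorem vol_diff {C r : ℝ} {h : Fin 3 → ℝ → ℝ} (H : Hyp C r h) :
    volume ((EU h \ T0) ∪ (T0 \ EU h)) ≤ ENNReal.ofReal (13 * r ^ 6) := by
  obtain ⟨c0, c1, c2, c3⟩ := UBd_r H
  have h1 : volume (⋃ i, (FpU h i ∪ FmU h i)) ≤ ENNReal.ofReal (24 * (C * r ^ 7)) := by
    refine (measure_iUnion_fintype_le volume _).trans ?_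
    have h2 : ∀ i : Fin 3, volume (FpU h i ∪ FmU h i) ≤ ENNReal.ofReal (8 * (C * r ^ 7)) := by
      intro i
      refine (measure_union_le _ _).trans ?_
      have h3 := vol_FU H i
      refine (add_le_add h3.1 h3.2).trans ?_
      rw [← ENNReal.ofReal_add (by linarith) (by linarith)]
      exact ENNReal.ofReal_le_ofReal (by linarith)
    refine (Finset.sum_le_sum fun i _ => h2 i).trans ?_
    rw [Fin.sum_univ_three, ← ENNReal.ofReal_add (by linarith) (by linarith),
      ← ENNReal.ofReal_add (by linarith) (by linarith)]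
    exact ENNReal.ofReal_le_ofReal (by linarith)
  refine (measure_mono (UBd_sub H)).trans ((measure_union_le _ _).trans ?_)
  refine (add_le_add (vol_cor H.rp) h1).trans ?_
  rw [← ENNReal.ofReal_add (by linarith) (by linarith)]
  exact ENNReal.ofReal_le_ofReal (by linarith)

/-- For bounded functions. -/
theorem int_diff_bd {C K r : ℝ} {h : Fin 3 → ℝ → ℝ} (H : Hyp C r h) {g : P → ℝ} (hg : Continuous g)
    (hb : ∀ v, |g v| ≤ K) : |(∫ v in EU h, g v) - ∫ v in T0, g v| ≤ 13 * K * r ^ 6 := by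
  have hK : 0 ≤ K := (abs_nonneg _).trans (hb 0)
  have hE := (isOpen_EU H).measurableSet
  have hT := PE.measurableSet_T0
  have hr6 : 0 ≤ 13 * r ^ 6 := by
    have := (UBd_r H).2.2.2
    linarith
  have hv := vol_diff H
  have hfin : volume ((EU h \ T0) ∪ (T0 \ EU h)) < ⊤ := hv.trans_lt ENNReal.ofReal_lt_top
  have hf1 : volume (EU h \ T0) < ⊤ := (measure_mono subset_union_left).trans_lt hfin
  have hf2 : volume (T0 \ EU h) < ⊤ := (measure_mono subset_union_right).trans_lt hfin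
  have e1 := integral_inter_add_sdiff hT (UBd_iEU H hg)
  have e2 := integral_inter_add_sdiff hE (UBd_iT0 hg)
  have n1 : ‖∫ v in EU h \ T0, g v‖ ≤ K * volume.real (EU h \ T0) :=
    norm_setIntegral_le_of_norm_le_const hf1 fun v _ => hb v
  have n2 : ‖∫ v in T0 \ EU h, g v‖ ≤ K * volume.real (T0 \ EU h) :=
    norm_setIntegral_le_of_norm_le_const hf2 fun v _ => hb v
  have hm : volume.real (EU h \ T0) + volume.real (T0 \ EU h) ≤ 13 * r ^ 6 := by
    have hd : Disjoint (EU h \ T0) (T0 \ EU h) := by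
      rw [Set.disjoint_left]
      intro v h1 h2
      exact h1.2 h2.1
    rw [← measureReal_union hd (hT.diff hE) hf1.ne hf2.ne]
    exact ENNReal.toReal_le_of_le_ofReal hr6 hv
  rw [← e1, ← e2, inter_comm T0 (EU h)]
  rw [Real.norm_eq_abs] at n1 n2
  have n3 := abs_le.1 n1
  have n4 := abs_le.1 n2
  have n5 := mul_le_mul_of_nonneg_left hm hK
  rw [mul_add] at n5
  refine abs_le.2 ⟨?_, ?_⟩
  · linarith [n3.1, n4.2]
  · linarith [n3.2, n4.1]

/-- For functions which vanish at the corners to the second order.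

Proof. `∫_{EU h} g - ∫_{T0} g - ∑ i (∫_{FpU h i} g - ∫_{FmU h i} g)` is the integral of `g` times a function
which vanishes outside `{v | ∃ j, dist v (corI j) < r ^ 3}` (`ind_diff`) and is `≤ 8` in absolute
value; there `|g| ≤ K r ^ 6`: at most `96 K r ^ 12` (`vol_cor`). All sets have finite measure
(`bounded_EU`), `g` is bounded on bounded sets. Add `strip_int`. -/
theorem int_diff {C K r : ℝ} {h : Fin 3 → ℝ → ℝ} (H : Hyp C r h) (hK : 0 ≤ K) {g : P → ℝ}
    (hg : ∀ v w, |g v - g w| ≤ K * dist v w) (hc : ∀ j v, |g v| ≤ K * dist v (corI j) ^ 2) :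
    |(∫ v in EU h, g v) - (∫ v in T0, g v) -
      ∑ i, ∫ s in (0 : ℝ)..(lenI i), g (ptI i s 0) * h i s| ≤
      K * (96 + 6 * C ^ 2) * r ^ 11 := by
  obtain ⟨c0, c1, c2, c3⟩ := UBd_r H
  have hgc : Continuous g := by
    have hl : LipschitzWith (Real.toNNReal K) g := by
      refine LipschitzWith.of_dist_le_mul fun v w => ?_
      rw [Real.coe_toNNReal _ hK, Real.dist_eq]
      exact hg v w
    exact hl.continuous
  have hE := (isOpen_EU H).measurableSet
  have hT := PE.measurableSet_T0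
  have iE : Integrable ((EU h).indicator g) := (integrable_indicator_iff hE).2 (UBd_iEU H hgc)
  have iT : Integrable (T0.indicator g) := (integrable_indicator_iff hT).2 (UBd_iT0 hgc)
  have iP : ∀ i, Integrable ((FpU h i).indicator g) := fun i =>
    (integrable_indicator_iff (meas_FU H i).1).2 (UBd_iF H hgc i).1
  have iM : ∀ i, Integrable ((FmU h i).indicator g) := fun i =>
    (integrable_indicator_iff (meas_FU H i).2).2 (UBd_iF H hgc i).2
  obtain ⟨ψ, hψ⟩ : ∃ ψ : P → ℝ, ψ = fun v => (EU h).indicator g v - T0.indicator g v -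
      ∑ i, ((FpU h i).indicator g v - (FmU h i).indicator g v) := ⟨_, rfl⟩
  have e1 : (∫ v in EU h, g v) - (∫ v in T0, g v) -
      ∑ i, ((∫ v in FpU h i, g v) - ∫ v in FmU h i, g v) = ∫ v, ψ v := by
    have iI : ∀ i ∈ (Finset.univ : Finset (Fin 3)),
        Integrable (fun v => (FpU h i).indicator g v - (FmU h i).indicator g v) :=
      fun i _ => (iP i).sub (iM i)
    have iS : Integrable
        (fun v => ∑ i, ((FpU h i).indicator g v - (FmU h i).indicator g v)) :=
      integrable_finsetSum _ iI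
    have iD : Integrable (fun v => (EU h).indicator g v - T0.indicator g v) := iE.sub iT
    have q1 := integral_sub iD iS
    have q2 := integral_sub iE iT
    have q3 := integral_finsetSum _ iI
    rw [hψ]
    refine Eq.trans ?_ q1.symm
    rw [q2, q3, integral_indicator hE, integral_indicator hT]
    congr 1
    refine Finset.sum_congr rfl fun i _ => ?_
    rw [integral_sub (iP i) (iM i), integral_indicator (meas_FU H i).1,
      integral_indicator (meas_FU H i).2]
  obtain ⟨φ, hφ⟩ : ∃ φ : P → ℝ, φ = fun v => (EU h).indicator (fun _ => (1 : ℝ)) v -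
      T0.indicator (fun _ => (1 : ℝ)) v - ∑ i, ((FpU h i).indicator (fun _ => (1 : ℝ)) v -
      (FmU h i).indicator (fun _ => (1 : ℝ)) v) := ⟨_, rfl⟩
  have e2 : ∀ v, ψ v = φ v * g v := by
    intro v
    rw [hψ, hφ]
    show (EU h).indicator g v - T0.indicator g v -
      ∑ i, ((FpU h i).indicator g v - (FmU h i).indicator g v) = _
    simp only [fun (S : Set P) => UBd_ind S g v]
    rw [sub_mul, sub_mul, Finset.sum_mul]
    congr 1
    refine Finset.sum_congr rfl fun i _ => ?_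
    ring
  have b1 : ∀ v, |φ v| ≤ 8 := by
    intro v
    rw [hφ]
    show |(EU h).indicator (fun _ => (1 : ℝ)) v - T0.indicator (fun _ => (1 : ℝ)) v -
      ∑ i, ((FpU h i).indicator (fun _ => (1 : ℝ)) v -
      (FmU h i).indicator (fun _ => (1 : ℝ)) v)| ≤ 8
    rw [Fin.sum_univ_three]
    have a1 := UBd_01 (EU h) v
    have a2 := UBd_01 T0 v
    have a3 := fun i => UBd_01 (FpU h i) v
    have a4 := fun i => UBd_01 (FmU h i) v
    refine abs_le.2 ⟨?_, ?_⟩
    · linarith [a1.1, a2.2, (a3 0).2, (a3 1).2, (a3 2).2, (a4 0).1, (a4 1).1, (a4 2).1]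
    · linarith [a1.2, a2.1, (a3 0).1, (a3 1).1, (a3 2).1, (a4 0).2, (a4 1).2, (a4 2).2]
  have e3 : ∫ v in {v : P | ∃ j, dist v (corI j) < r ^ 3}, ψ v = ∫ v, ψ v := by
    refine setIntegral_eq_integral_of_forall_compl_eq_zero fun v hv => ?_
    have hc' : ∀ j, r ^ 3 ≤ dist v (corI j) := by
      intro j
      by_contra hj
      exact hv ⟨j, not_le.1 hj⟩
    have h1 := ind_diff H hc'
    have h2 : φ v = 0 := by
      rw [hφ]
      show (EU h).indicator (fun _ => (1 : ℝ)) v - T0.indicator (fun _ => (1 : ℝ)) v -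
        ∑ i, ((FpU h i).indicator (fun _ => (1 : ℝ)) v -
        (FmU h i).indicator (fun _ => (1 : ℝ)) v) = 0
      rw [h1, sub_self]
    rw [e2, h2, zero_mul]
  have hvc := vol_cor H.rp
  have n1 : ‖∫ v in {v : P | ∃ j, dist v (corI j) < r ^ 3}, ψ v‖ ≤
      (8 * (K * r ^ 6)) * volume.real {v : P | ∃ j, dist v (corI j) < r ^ 3} := by
    refine norm_setIntegral_le_of_norm_le_const (hvc.trans_lt ENNReal.ofReal_lt_top) ?_
    rintro v ⟨j, hj⟩
    rw [e2, norm_mul, Real.norm_eq_abs, Real.norm_eq_abs]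
    have h1 : |g v| ≤ K * r ^ 6 := by
      refine (hc j v).trans (mul_le_mul_of_nonneg_left ?_ hK)
      have h2 : dist v (corI j) ^ 2 ≤ (r ^ 3) ^ 2 :=
        pow_le_pow_left₀ dist_nonneg hj.le 2
      have h3 : (r ^ 3) ^ 2 = r ^ 6 := by ring
      rwa [h3] at h2
    exact mul_le_mul (b1 v) h1 (abs_nonneg _) (by norm_num)
  have n2 : volume.real {v : P | ∃ j, dist v (corI j) < r ^ 3} ≤ 12 * r ^ 6 :=
    ENNReal.toReal_le_of_le_ofReal (by linarith) hvc
  have n3 : |∫ v, ψ v| ≤ 96 * K * r ^ 11 := by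
    rw [← e3, ← Real.norm_eq_abs]
    refine n1.trans ?_
    have h1 : 0 ≤ 8 * (K * r ^ 6) := by positivity
    refine (mul_le_mul_of_nonneg_left n2 h1).trans ?_
    have h2 : 8 * (K * r ^ 6) * (12 * r ^ 6) = 96 * K * r ^ 11 * r := by ring
    rw [h2]
    have h3 : 0 ≤ 96 * K * r ^ 11 := mul_nonneg (by positivity) (pow_nonneg H.rp.le 11)
    exact mul_le_of_le_one_right h3 (by linarith [H.r1])
  have n4 : |∑ i, (((∫ v in FpU h i, g v) - ∫ v in FmU h i, g v) -
      ∫ s in (0 : ℝ)..(lenI i), g (ptI i s 0) * h i s)| ≤ 6 * K * C ^ 2 * r ^ 11 := by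
    refine (Finset.abs_sum_le_sum_abs _ _).trans ?_
    refine (Finset.sum_le_sum fun i _ => strip_int H hg i).trans ?_
    rw [Fin.sum_univ_three]
    linarith
  rw [← e1] at n3
  rw [Finset.sum_sub_distrib] at n4
  have m1 := abs_le.1 n3
  have m2 := abs_le.1 n4
  refine abs_le.2 ⟨?_, ?_⟩
  · linarith [m1.1, m2.1]
  · linarith [m1.2, m2.2]

end Pool.Agent.MP4eed4eI
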