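import Pool.Agent.Lib.MP_4eed4e_an_I.UForm
import Pool.Agent.Lib.MP_4eed4e_an_I.UBd
import Pool.Agent.Lib.MP_4eed4e_an_I.TPar
import Pool.Agent.Lib.MP_4eed4e_an_PE.EDer

set_option autoImplicit false

/-!
Project I, block U: the estimates for the bilinear form.
-/

namespace Pool.Agent.MP4eed4eI

open Pool.Agent.MP4eed4eP MeasureTheory Set Filter Topology

/-- Measurable and bounded on `E`. -/
private def UCrG (E : Set P) (F : P → ℝ) : Prop := Measurable F ∧ ∃ M, ∀ v ∈ E, |F v| ≤ M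

private theorem UCr_add {E : Set P} {F G : P → ℝ} (hF : UCrG E F) (hG : UCrG E G) :
    UCrG E (fun v => F v + G v) := by
  obtain ⟨a, M, hM⟩ := hF
  obtain ⟨b, N, hN⟩ := hG
  exact ⟨a.add b, M + N, fun v hv => (abs_add_le _ _).trans (add_le_add (hM v hv) (hN v hv))⟩

private theorem UCr_sub {E : Set P} {F G : P → ℝ} (hF : UCrG E F) (hG : UCrG E G) :
    UCrG E (fun v => F v - G v) := by
  obtain ⟨a, M, hM⟩ := hF
  obtain ⟨b, N, hN⟩ := hG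
  exact ⟨a.sub b, M + N, fun v hv => (abs_sub _ _).trans (add_le_add (hM v hv) (hN v hv))⟩

private theorem UCr_mul {E : Set P} {F G : P → ℝ} (hF : UCrG E F) (hG : UCrG E G) :
    UCrG E (fun v => F v * G v) := by
  obtain ⟨a, M, hM⟩ := hF
  obtain ⟨b, N, hN⟩ := hG
  refine ⟨a.mul b, M * N, fun v hv => ?_⟩
  rw [abs_mul]
  exact mul_le_mul (hM v hv) (hN v hv) (abs_nonneg _) ((abs_nonneg _).trans (hM v hv))

private theorem UCr_const (E : Set P) (c : ℝ) : UCrG E (fun _ => c) :=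
  ⟨measurable_const, |c|, fun _ _ => le_rfl⟩

private theorem UCr_sq {E : Set P} {F : P → ℝ} (hF : UCrG E F) : UCrG E (fun v => F v ^ 2) := by
  have h := UCr_mul hF hF
  have e : (fun v => F v ^ 2) = fun v => F v * F v := by
    funext v
    ring
  rw [e]
  exact h

private theorem UCr_int {E : Set P} (hv : volume E ≠ ⊤) (hE : MeasurableSet E) {F : P → ℝ}
    (hF : UCrG E F) : IntegrableOn F E := by
  obtain ⟨a, M, hM⟩ := hF
  refine Measure.integrableOn_of_bounded hv a.aestronglyMeasurable (M := M) ?_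
  rw [ae_restrict_iff' hE]
  exact Eventually.of_forall hM

private theorem UCr_lip {E : Set P} (hE : ∀ v ∈ E, ‖v‖ ≤ 4) {f : P → ℝ} {L : NNReal}
    (hf : LipschitzWith L f) : UCrG E f ∧ UCrG E (d1 f) ∧ UCrG E (d2 f) := by
  refine ⟨⟨hf.continuous.measurable, |f 0| + L * 4, fun v hv => ?_⟩,
    ⟨measurable_d1 f, L, fun v _ => abs_d1_le hf v⟩,
    ⟨measurable_d2 f, L, fun v _ => abs_d2_le hf v⟩⟩
  have h1 := hf.dist_le_mul v 0
  rw [Real.dist_eq, dist_zero_right] at h1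
  have h2 : (L : ℝ) * ‖v‖ ≤ L * 4 := mul_le_mul_of_nonneg_left (hE v hv) L.2
  have h3 : |f v| ≤ |f 0| + |f v - f 0| := by
    have := abs_add_le (f 0) (f v - f 0)
    rwa [add_sub_cancel] at this
  linarith

private theorem UCr_u {K : ℝ} {u : P → ℝ} (hu : Nice K u) : ∃ L : NNReal, LipschitzWith L u :=
  ⟨⟨K, hu.pos.le⟩, LipschitzWith.of_dist_le_mul fun v w => by
    rw [Real.dist_eq]
    exact hu.l0 v w⟩

private theorem UCr_W {C K r : ℝ} {h : Fin 3 → ℝ → ℝ} {u : P → ℝ} (H : Hyp C r h)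
    (hu : Nice K u) : ∃ L : NNReal, LipschitzWith L (WU r h u) :=
  (WU_lipC H hu (D := univ) fun v _ _ => mem_univ v).1

private theorem UCr_vol {C r : ℝ} {h : Fin 3 → ℝ → ℝ} (H : Hyp C r h) :
    MeasurableSet (EU h) ∧ volume (EU h) ≠ ⊤ ∧ volume.real (EU h) ≤ 64 := by
  have h1 : EU h ⊆ Metric.closedBall (0 : ℝ) 4 ×ˢ Metric.closedBall (0 : ℝ) 4 := by
    intro v hv
    have h2 := bounded_EU H v hv
    rw [Prod.norm_def] at h2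
    refine ⟨?_, ?_⟩
    · rw [mem_closedBall_zero_iff]
      exact (le_max_left _ _).trans h2
    · rw [mem_closedBall_zero_iff]
      exact (le_max_right _ _).trans h2
  have h2 : volume (EU h) ≤ ENNReal.ofReal 64 := by
    refine (measure_mono h1).trans ?_
    rw [Measure.volume_eq_prod, Measure.prod_prod, Real.volume_closedBall,
      ← ENNReal.ofReal_mul (by norm_num)]
    exact ENNReal.ofReal_le_ofReal (by norm_num)
  refine ⟨(isOpen_EU H).measurableSet, ?_, ?_⟩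
  · exact (lt_of_le_of_lt h2 ENNReal.ofReal_lt_top).ne
  · exact ENNReal.toReal_le_of_le_ofReal (by norm_num) h2

/-- Comparison of an integral over `EU h` with a bound. -/
private theorem UCr_bd {C r : ℝ} {h : Fin 3 → ℝ → ℝ} (H : Hyp C r h) {F : P → ℝ} {M : ℝ}
    (hM : ∀ v, |F v| ≤ M) : |∫ v in EU h, F v| ≤ 64 * M := by
  obtain ⟨-, h2, h3⟩ := UCr_vol H
  have h4 := norm_setIntegral_le_of_norm_le_const (μ := volume) (s := EU h) (f := F) (C := M)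
    h2.lt_top fun v _ => hM v
  rw [Real.norm_eq_abs] at h4
  have h5 : 0 ≤ M := (abs_nonneg _).trans (hM 0)
  have h6 := mul_le_mul_of_nonneg_left h3 h5
  linarith

/-- The energy of the test functions is bounded.

Proof. On `EU h`: `W = u - HU`, so `|∇W|² + W² ≤ 2 (3 K²) + 2 (|∇HU|² + HU²)` a.e. (`grad_WU`); the
area of `EU h` is at most `64` (`bounded_EU`), `energy_HU`, `r ≤ 1`. -/
theorem energy_WU (C K : ℝ) : ∃ C' : ℝ, 0 < C' ∧ ∀ (r : ℝ) (h : Fin 3 → ℝ → ℝ) (u : P → ℝ),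
    Hyp C r h → Nice K u →
    ∫ v in EU h, (d1 (WU r h u) v ^ 2 + d2 (WU r h u) v ^ 2 + WU r h u v ^ 2) ≤ C' := by
  obtain ⟨C1, hC1, h1⟩ := energy_HU C K
  refine ⟨384 * K ^ 2 + 2 * C1, by positivity, fun r h u H hu => ?_⟩
  obtain ⟨hE, hv, hv2⟩ := UCr_vol H
  have hb := bounded_EU H
  obtain ⟨Lu, hLu⟩ := UCr_u hu
  obtain ⟨LH, hLH⟩ := HU_lip H hu
  obtain ⟨gu, gu1, gu2⟩ := UCr_lip hb hLu
  obtain ⟨gH, gH1, gH2⟩ := UCr_lip hb hLH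
  have hr := H.rp
  have hr1 : r ^ 11 ≤ 1 := pow_le_one₀ hr.le (by linarith [H.r1])
  have iu : IntegrableOn (fun v => 2 * (d1 u v ^ 2 + d2 u v ^ 2 + u v ^ 2)) (EU h) :=
    UCr_int hv hE (UCr_mul (UCr_const _ 2) (UCr_add (UCr_add (UCr_sq gu1) (UCr_sq gu2))
      (UCr_sq gu)))
  have iH : IntegrableOn (fun v => 2 * (d1 (HU r h u) v ^ 2 + d2 (HU r h u) v ^ 2 +
      HU r h u v ^ 2)) (EU h) :=
    UCr_int hv hE (UCr_mul (UCr_const _ 2) (UCr_add (UCr_add (UCr_sq gH1) (UCr_sq gH2))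
      (UCr_sq gH)))
  have key : ‖∫ v in EU h, (d1 (WU r h u) v ^ 2 + d2 (WU r h u) v ^ 2 + WU r h u v ^ 2)‖ ≤
      ∫ v in EU h, (2 * (d1 u v ^ 2 + d2 u v ^ 2 + u v ^ 2) +
        2 * (d1 (HU r h u) v ^ 2 + d2 (HU r h u) v ^ 2 + HU r h u v ^ 2)) := by
    refine norm_integral_le_of_norm_le (iu.add iH) ?_
    rw [ae_restrict_iff' hE]
    filter_upwards [grad_WU H hu] with v hg hvE
    obtain ⟨e1, e2⟩ := hg.1 hvE
    have e3 : WU r h u v = u v - HU r h u v := by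
      rw [WU, indicator_of_mem hvE, GU_eq]
    rw [e1, e2, e3, Real.norm_eq_abs, abs_of_nonneg (by positivity)]
    nlinarith [sq_nonneg (d1 u v + d1 (HU r h u) v), sq_nonneg (d2 u v + d2 (HU r h u) v),
      sq_nonneg (u v + HU r h u v)]
  have e4 : ∫ v in EU h, (2 * (d1 u v ^ 2 + d2 u v ^ 2 + u v ^ 2) +
        2 * (d1 (HU r h u) v ^ 2 + d2 (HU r h u) v ^ 2 + HU r h u v ^ 2)) =
      (∫ v in EU h, 2 * (d1 u v ^ 2 + d2 u v ^ 2 + u v ^ 2)) +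
      ∫ v in EU h, 2 * (d1 (HU r h u) v ^ 2 + d2 (HU r h u) v ^ 2 + HU r h u v ^ 2) :=
    integral_add iu iH
  have e5 : ∫ v in EU h, 2 * (d1 (HU r h u) v ^ 2 + d2 (HU r h u) v ^ 2 + HU r h u v ^ 2) =
      2 * ∫ v in EU h, (d1 (HU r h u) v ^ 2 + d2 (HU r h u) v ^ 2 + HU r h u v ^ 2) :=
    integral_const_mul _ _
  have e6 : |∫ v in EU h, 2 * (d1 u v ^ 2 + d2 u v ^ 2 + u v ^ 2)| ≤ 64 * (6 * K ^ 2) := by
    refine UCr_bd H fun v => ?_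
    have a1 : d1 u v ^ 2 ≤ K ^ 2 := by
      rw [← sq_abs (d1 u v)]
      exact pow_le_pow_left₀ (abs_nonneg _) (hu.b1 v) 2
    have a2 : d2 u v ^ 2 ≤ K ^ 2 := by
      rw [← sq_abs (d2 u v)]
      exact pow_le_pow_left₀ (abs_nonneg _) (hu.b2 v) 2
    have a3 : u v ^ 2 ≤ K ^ 2 := by
      rw [← sq_abs (u v)]
      exact pow_le_pow_left₀ (abs_nonneg _) (hu.b0 v) 2
    rw [abs_of_nonneg (by positivity)]
    linarith
  have e7 := h1 r h u H hu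
  have e8 := (le_abs_self _).trans e6
  have e9 : C1 * r ^ 11 ≤ C1 * 1 := mul_le_mul_of_nonneg_left hr1 hC1.le
  have e10 := (le_abs_self _).trans (key.trans (le_of_eq e4))
  rw [e5] at e10
  linarith

private theorem UCr_pt {L a b x1 x2 y1 y2 ρ : ℝ} (hρ : 0 < ρ) :
    |L * (a * b) - (x1 * y1 + x2 * y2)| ≤ (1 + |L|) * (ρ⁻¹ * (x1 ^ 2 + x2 ^ 2 + a ^ 2) +
      ρ * (y1 ^ 2 + y2 ^ 2 + b ^ 2)) / 2 := by
  have key : ∀ x y : ℝ, |x * y| ≤ (ρ⁻¹ * x ^ 2 + ρ * y ^ 2) / 2 := by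
    intro x y
    have h1 : ρ⁻¹ * x ^ 2 + ρ * y ^ 2 - 2 * |x * y| = ρ⁻¹ * (|x| - ρ * |y|) ^ 2 := by
      rw [abs_mul, ← sq_abs x, ← sq_abs y]
      field_simp
      ring
    have h2 : 0 ≤ ρ⁻¹ * (|x| - ρ * |y|) ^ 2 := by positivity
    linarith
  have k1 := key a b
  have k2 := key x1 y1
  have k3 := key x2 y2
  have hL := abs_nonneg L
  have hp : 0 < ρ⁻¹ := inv_pos.2 hρ
  have h1 : |L * (a * b) - (x1 * y1 + x2 * y2)| ≤ |L| * |a * b| + (|x1 * y1| + |x2 * y2|) := by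
    refine (abs_sub _ _).trans (add_le_add ?_ (abs_add_le _ _))
    rw [abs_mul]
  have h2 : |L| * |a * b| ≤ |L| * ((ρ⁻¹ * a ^ 2 + ρ * b ^ 2) / 2) :=
    mul_le_mul_of_nonneg_left k1 hL
  have h3 : 0 ≤ |L| * ((ρ⁻¹ * (x1 ^ 2 + x2 ^ 2) + ρ * (y1 ^ 2 + y2 ^ 2)) / 2) := by positivity
  have h4 : 0 ≤ (ρ⁻¹ * a ^ 2 + ρ * b ^ 2) / 2 := by positivity
  have h5 : (1 + |L|) * (ρ⁻¹ * (x1 ^ 2 + x2 ^ 2 + a ^ 2) + ρ * (y1 ^ 2 + y2 ^ 2 + b ^ 2)) / 2 =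
      |L| * ((ρ⁻¹ * a ^ 2 + ρ * b ^ 2) / 2) + ((ρ⁻¹ * x1 ^ 2 + ρ * y1 ^ 2) / 2 +
        (ρ⁻¹ * x2 ^ 2 + ρ * y2 ^ 2) / 2) + (ρ⁻¹ * a ^ 2 + ρ * b ^ 2) / 2 +
        |L| * ((ρ⁻¹ * (x1 ^ 2 + x2 ^ 2) + ρ * (y1 ^ 2 + y2 ^ 2)) / 2) := by ring
  rw [h5]
  linarith

/-- The Cauchy-Schwarz inequality for the correction terms.

Proof. `|f1 g1 + f2 g2| + |f g|`; `(∫ F G)² ≤ ∫ F² ∫ G²` on `EU h` with
`F² = d1 HU² + d2 HU² + HU²`, `G² = d1 W² + d2 W² + W²` and the factor `(1 + |L|)²`; a direct proof: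
for every `t > 0` the absolute value of the integral is
`≤ (1 + |L|) (t ∫ F² + t⁻¹ ∫ G²) / 2`; take `t = r ^ (-11/2)`, or use the discriminant lemma
(`discrim_le_zero`). `energy_HU`, `energy_WU`. -/
theorem corr_le (C K L : ℝ) : ∃ C' : ℝ, 0 < C' ∧
    ∀ (r : ℝ) (h : Fin 3 → ℝ → ℝ) (u u' : P → ℝ), Hyp C r h → Nice K u → Nice K u' →
    (L * (∫ v in EU h, HU r h u v * WU r h u' v) -
      ∫ v in EU h, (d1 (HU r h u) v * d1 (WU r h u') v +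
        d2 (HU r h u) v * d2 (WU r h u') v)) ^ 2 ≤ C' * r ^ 11 := by
  obtain ⟨C1, hC1, h1⟩ := energy_HU C K
  obtain ⟨C2, hC2, h2⟩ := energy_WU C K
  refine ⟨((1 + |L|) * (C1 + C2) / 2) ^ 2, by positivity, fun r h u u' H hu hu' => ?_⟩
  obtain ⟨hE, hv, hv2⟩ := UCr_vol H
  have hb := bounded_EU H
  obtain ⟨LH, hLH⟩ := HU_lip H hu
  obtain ⟨LW, hLW⟩ := UCr_W H hu'
  obtain ⟨gH, gH1, gH2⟩ := UCr_lip hb hLH
  obtain ⟨gW, gW1, gW2⟩ := UCr_lip hb hLW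
  have hr := H.rp
  obtain ⟨ρ, hρ, hρ2⟩ : ∃ ρ : ℝ, 0 < ρ ∧ ρ ^ 2 = r ^ 11 :=
    ⟨√(r ^ 11), Real.sqrt_pos.2 (by positivity), Real.sq_sqrt (by positivity)⟩
  have i1 : IntegrableOn (fun v => HU r h u v * WU r h u' v) (EU h) :=
    UCr_int hv hE (UCr_mul gH gW)
  have i2 : IntegrableOn (fun v => d1 (HU r h u) v * d1 (WU r h u') v +
      d2 (HU r h u) v * d2 (WU r h u') v) (EU h) :=
    UCr_int hv hE (UCr_add (UCr_mul gH1 gW1) (UCr_mul gH2 gW2))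
  have gF := UCr_add (UCr_add (UCr_sq gH1) (UCr_sq gH2)) (UCr_sq gH)
  have gG := UCr_add (UCr_add (UCr_sq gW1) (UCr_sq gW2)) (UCr_sq gW)
  have i3 : IntegrableOn (fun v => (1 + |L|) * ρ⁻¹ / 2 * (d1 (HU r h u) v ^ 2 +
      d2 (HU r h u) v ^ 2 + HU r h u v ^ 2)) (EU h) :=
    UCr_int hv hE (UCr_mul (UCr_const _ _) gF)
  have i4 : IntegrableOn (fun v => (1 + |L|) * ρ / 2 * (d1 (WU r h u') v ^ 2 +
      d2 (WU r h u') v ^ 2 + WU r h u' v ^ 2)) (EU h) :=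
    UCr_int hv hE (UCr_mul (UCr_const _ _) gG)
  have e1 : L * (∫ v in EU h, HU r h u v * WU r h u' v) -
      ∫ v in EU h, (d1 (HU r h u) v * d1 (WU r h u') v +
        d2 (HU r h u) v * d2 (WU r h u') v) =
      ∫ v in EU h, (L * (HU r h u v * WU r h u' v) - (d1 (HU r h u) v * d1 (WU r h u') v +
        d2 (HU r h u) v * d2 (WU r h u') v)) := by
    rw [← integral_const_mul]
    exact (integral_sub (i1.const_mul L) i2).symm
  have e2 : ‖∫ v in EU h, (L * (HU r h u v * WU r h u' v) - (d1 (HU r h u) v *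
      d1 (WU r h u') v + d2 (HU r h u) v * d2 (WU r h u') v))‖ ≤
      ∫ v in EU h, ((1 + |L|) * ρ⁻¹ / 2 * (d1 (HU r h u) v ^ 2 +
      d2 (HU r h u) v ^ 2 + HU r h u v ^ 2) + (1 + |L|) * ρ / 2 * (d1 (WU r h u') v ^ 2 +
      d2 (WU r h u') v ^ 2 + WU r h u' v ^ 2)) := by
    refine norm_integral_le_of_norm_le (i3.add i4) (Eventually.of_forall fun v => ?_)
    rw [Real.norm_eq_abs]
    refine (UCr_pt hρ).trans (le_of_eq ?_)
    ring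
  have e3 : ∫ v in EU h, ((1 + |L|) * ρ⁻¹ / 2 * (d1 (HU r h u) v ^ 2 +
      d2 (HU r h u) v ^ 2 + HU r h u v ^ 2) + (1 + |L|) * ρ / 2 * (d1 (WU r h u') v ^ 2 +
      d2 (WU r h u') v ^ 2 + WU r h u' v ^ 2)) =
      (1 + |L|) * ρ⁻¹ / 2 * (∫ v in EU h, (d1 (HU r h u) v ^ 2 +
      d2 (HU r h u) v ^ 2 + HU r h u v ^ 2)) + (1 + |L|) * ρ / 2 *
      ∫ v in EU h, (d1 (WU r h u') v ^ 2 + d2 (WU r h u') v ^ 2 + WU r h u' v ^ 2) := by
    rw [← integral_const_mul, ← integral_const_mul]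
    exact integral_add i3 i4
  have h3 := h1 r h u H hu
  have h4 := h2 r h u' H hu'
  have hL := abs_nonneg L
  have h5 : (1 + |L|) * ρ⁻¹ / 2 * (∫ v in EU h, (d1 (HU r h u) v ^ 2 +
      d2 (HU r h u) v ^ 2 + HU r h u v ^ 2)) ≤ (1 + |L|) * ρ⁻¹ / 2 * (C1 * r ^ 11) :=
    mul_le_mul_of_nonneg_left h3 (by positivity)
  have h6 : (1 + |L|) * ρ / 2 * (∫ v in EU h, (d1 (WU r h u') v ^ 2 + d2 (WU r h u') v ^ 2 +
      WU r h u' v ^ 2)) ≤ (1 + |L|) * ρ / 2 * C2 :=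
    mul_le_mul_of_nonneg_left h4 (by positivity)
  have h7 : (1 + |L|) * ρ⁻¹ / 2 * (C1 * r ^ 11) = (1 + |L|) * C1 / 2 * ρ := by
    rw [← hρ2]
    field_simp
  rw [e1]
  rw [e3, Real.norm_eq_abs] at e2
  have h8 : |∫ v in EU h, (L * (HU r h u v * WU r h u' v) - (d1 (HU r h u) v *
      d1 (WU r h u') v + d2 (HU r h u) v * d2 (WU r h u') v))| ≤
      (1 + |L|) * (C1 + C2) / 2 * ρ := by
    have h9 : (1 + |L|) * (C1 + C2) / 2 * ρ = (1 + |L|) * C1 / 2 * ρ +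
        (1 + |L|) * ρ / 2 * C2 := by ring
    linarith
  rw [← sq_abs, ← hρ2, ← mul_pow]
  exact pow_le_pow_left₀ (abs_nonneg _) h8 2

private theorem UCr_nice (κ κ' : KS) : ∃ K, Nice K (uf κ) ∧ Nice K (uf κ') := by
  obtain ⟨K1, h1⟩ := nice_uf κ
  obtain ⟨K2, h2⟩ := nice_uf κ'
  exact ⟨max K1 K2, h1.mono (le_max_left _ _), h2.mono (le_max_right _ _)⟩

/-- Cross terms. Proof. `BU_form` with `L = (mu κ)⁻¹`: the first term vanishes; `corr_le`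
(`nice_uf`, `Nice.mono`). -/
theorem BU_cross (C : ℝ) (κ κ' : KS) : ∃ C' : ℝ, 0 < C' ∧
    ∀ (r : ℝ) (h : Fin 3 → ℝ → ℝ), Hyp C r h →
    BU (mu κ)⁻¹ (WU r h (uf κ)) (WU r h (uf κ')) ^ 2 ≤ C' * r ^ 11 := by
  obtain ⟨K, hu, hu'⟩ := UCr_nice κ κ'
  obtain ⟨C1, hC1, h1⟩ := corr_le C K (mu κ)⁻¹
  refine ⟨C1, hC1, fun r h H => ?_⟩
  rw [BU_form H hu hu' (mu κ)⁻¹, sub_self, zero_mul, zero_add]
  exact h1 r h (uf κ) (uf κ') H hu hu'

/-- The block of the lower eigenfunctions.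

Proof. `BU_form`, `corr_le` (the square root is `≤ C' r`), and
`∫_{EU h} uf κ * WU = ∫_{EU h} uf κ uf κ' - ∫_{EU h} uf κ * HU`; the last term is `≤ C' r` in
absolute value (Cauchy-Schwarz with `energy_HU`, `|uf κ| ≤ K`), the first one differs from
`∫_{T0} uf κ uf κ' = if κ = κ' then nuI else 0` (`orth_uf`, `nuI = 3 √3 / 8`) by at most
`13 K² r ^ 6` (`int_diff_bd`). -/
theorem BU_block (C L : ℝ) (κ κ' : KS) : ∃ C' : ℝ, 0 < C' ∧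
    ∀ (r : ℝ) (h : Fin 3 → ℝ → ℝ), Hyp C r h →
    |BU L (WU r h (uf κ)) (WU r h (uf κ')) - ((mu κ)⁻¹ - L) * (if κ = κ' then nuI else 0)| ≤
      C' * r := by
  obtain ⟨K, hu, hu'⟩ := UCr_nice κ κ'
  obtain ⟨C1, hC1, h1⟩ := corr_le C K L
  obtain ⟨C2, hC2, h2⟩ := energy_HU C K
  have hK := hu.pos
  refine ⟨|(mu κ)⁻¹ - L| * (32 * K ^ 2 + C2 / 2 + 13 * K ^ 2) + (C1 + 1), by positivity,
    fun r h H => ?_⟩
  obtain ⟨hE, hv, hv2⟩ := UCr_vol H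
  have hb := bounded_EU H
  have hr := H.rp
  have hr1 : r ≤ 1 := by linarith [H.r1]
  obtain ⟨Lu, hLu⟩ := UCr_u hu
  obtain ⟨Lu', hLu'⟩ := UCr_u hu'
  obtain ⟨LH, hLH⟩ := HU_lip H hu'
  obtain ⟨gu, -, -⟩ := UCr_lip hb hLu
  obtain ⟨gu', -, -⟩ := UCr_lip hb hLu'
  obtain ⟨gH, gH1, gH2⟩ := UCr_lip hb hLH
  -- the correction
  have hX : |L * (∫ v in EU h, HU r h (uf κ) v * WU r h (uf κ') v) -
      ∫ v in EU h, (d1 (HU r h (uf κ)) v * d1 (WU r h (uf κ')) v +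
        d2 (HU r h (uf κ)) v * d2 (WU r h (uf κ')) v)| ≤ (C1 + 1) * r := by
    have h3 := h1 r h (uf κ) (uf κ') H hu hu'
    refine abs_le_of_sq_le_sq ?_ (by positivity)
    refine h3.trans ?_
    have h4 : r ^ 11 ≤ r ^ 2 := pow_le_pow_of_le_one hr.le hr1 (by norm_num)
    have h5 : C1 * r ^ 11 ≤ C1 * r ^ 2 := mul_le_mul_of_nonneg_left h4 hC1.le
    have h6 : 0 < r ^ 2 := by positivity
    rw [mul_pow]
    nlinarith
  -- the main term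
  have hW : ∫ v in EU h, uf κ v * WU r h (uf κ') v = (∫ v in EU h, uf κ v * uf κ' v) -
      ∫ v in EU h, uf κ v * HU r h (uf κ') v := by
    rw [← integral_sub (UCr_int hv hE (UCr_mul gu gu')) (UCr_int hv hE (UCr_mul gu gH))]
    refine setIntegral_congr_fun hE fun v hvE => ?_
    show uf κ v * WU r h (uf κ') v = uf κ v * uf κ' v - uf κ v * HU r h (uf κ') v
    rw [WU, indicator_of_mem hvE, GU_eq]
    ring
  have hA : |∫ v in EU h, uf κ v * HU r h (uf κ') v| ≤ (32 * K ^ 2 + C2 / 2) * r := by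
    have i1 : IntegrableOn (fun v => r / 2 * uf κ v ^ 2) (EU h) :=
      UCr_int hv hE (UCr_mul (UCr_const _ _) (UCr_sq gu))
    have i2 : IntegrableOn (fun v => r⁻¹ / 2 * (d1 (HU r h (uf κ')) v ^ 2 +
        d2 (HU r h (uf κ')) v ^ 2 + HU r h (uf κ') v ^ 2)) (EU h) :=
      UCr_int hv hE (UCr_mul (UCr_const _ _) (UCr_add (UCr_add (UCr_sq gH1) (UCr_sq gH2))
        (UCr_sq gH)))
    have h3 : ‖∫ v in EU h, uf κ v * HU r h (uf κ') v‖ ≤ ∫ v in EU h, (r / 2 * uf κ v ^ 2 +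
        r⁻¹ / 2 * (d1 (HU r h (uf κ')) v ^ 2 + d2 (HU r h (uf κ')) v ^ 2 +
          HU r h (uf κ') v ^ 2)) := by
      refine norm_integral_le_of_norm_le (i1.add i2) (Eventually.of_forall fun v => ?_)
      rw [Real.norm_eq_abs, abs_mul]
      have hp : 0 < r⁻¹ := inv_pos.2 hr
      have a1 : r / 2 * uf κ v ^ 2 + r⁻¹ / 2 * HU r h (uf κ') v ^ 2 -
          |uf κ v| * |HU r h (uf κ') v| =
          r⁻¹ / 2 * (r * |uf κ v| - |HU r h (uf κ') v|) ^ 2 := by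
        rw [← sq_abs (uf κ v), ← sq_abs (HU r h (uf κ') v)]
        field_simp
        ring
      have a2 : 0 ≤ r⁻¹ / 2 * (r * |uf κ v| - |HU r h (uf κ') v|) ^ 2 := by positivity
      have a3 : 0 ≤ r⁻¹ / 2 * (d1 (HU r h (uf κ')) v ^ 2 + d2 (HU r h (uf κ')) v ^ 2) := by
        positivity
      have a4 : r⁻¹ / 2 * (d1 (HU r h (uf κ')) v ^ 2 + d2 (HU r h (uf κ')) v ^ 2 +
          HU r h (uf κ') v ^ 2) = r⁻¹ / 2 * (d1 (HU r h (uf κ')) v ^ 2 +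
          d2 (HU r h (uf κ')) v ^ 2) + r⁻¹ / 2 * HU r h (uf κ') v ^ 2 := by ring
      linarith
    have h4 : ∫ v in EU h, (r / 2 * uf κ v ^ 2 + r⁻¹ / 2 * (d1 (HU r h (uf κ')) v ^ 2 +
        d2 (HU r h (uf κ')) v ^ 2 + HU r h (uf κ') v ^ 2)) =
        r / 2 * (∫ v in EU h, uf κ v ^ 2) + r⁻¹ / 2 * ∫ v in EU h,
          (d1 (HU r h (uf κ')) v ^ 2 + d2 (HU r h (uf κ')) v ^ 2 +
            HU r h (uf κ') v ^ 2) := by
      rw [← integral_const_mul, ← integral_const_mul]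
      exact integral_add i1 i2
    rw [h4, Real.norm_eq_abs] at h3
    have h5 : |∫ v in EU h, uf κ v ^ 2| ≤ 64 * K ^ 2 := by
      refine UCr_bd H fun v => ?_
      rw [abs_pow]
      exact pow_le_pow_left₀ (abs_nonneg _) (hu.b0 v) 2
    have h6 := (le_abs_self _).trans h5
    have h7 := h2 r h (uf κ') H hu'
    have h8 : r / 2 * (∫ v in EU h, uf κ v ^ 2) ≤ r / 2 * (64 * K ^ 2) :=
      mul_le_mul_of_nonneg_left h6 (by positivity)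
    have h9 : r⁻¹ / 2 * (∫ v in EU h, (d1 (HU r h (uf κ')) v ^ 2 +
        d2 (HU r h (uf κ')) v ^ 2 + HU r h (uf κ') v ^ 2)) ≤ r⁻¹ / 2 * (C2 * r ^ 11) :=
      mul_le_mul_of_nonneg_left h7 (by positivity)
    have h10 : r⁻¹ / 2 * (C2 * r ^ 11) = C2 / 2 * r ^ 10 := by
      field_simp
    have h11 : r ^ 10 ≤ r ^ 1 := pow_le_pow_of_le_one hr.le hr1 (by norm_num)
    have h12 : C2 / 2 * r ^ 10 ≤ C2 / 2 * r ^ 1 := mul_le_mul_of_nonneg_left h11 (by positivity)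
    rw [pow_one] at h12
    linarith
  have hB : |(∫ v in EU h, uf κ v * uf κ' v) - (if κ = κ' then nuI else 0)| ≤
      13 * K ^ 2 * r := by
    have h3 := int_diff_bd H (g := fun v => uf κ v * uf κ' v) (K := K ^ 2)
      (hLu.continuous.mul hLu'.continuous) fun v => by
        rw [abs_mul, sq]
        exact mul_le_mul (hu.b0 v) (hu'.b0 v) (abs_nonneg _) hK.le
    have h4 : ∫ v in T0, uf κ v * uf κ' v = if κ = κ' then nuI else 0 := orth_uf κ κ'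
    rw [h4] at h3
    refine h3.trans ?_
    have h5 : r ^ 6 ≤ r ^ 1 := pow_le_pow_of_le_one hr.le hr1 (by norm_num)
    rw [pow_one] at h5
    exact mul_le_mul_of_nonneg_left h5 (by positivity)
  rw [BU_form H hu hu' L, hW]
  set A := ∫ v in EU h, uf κ v * HU r h (uf κ') v with hAd
  set B := ∫ v in EU h, uf κ v * uf κ' v with hBd
  set δ : ℝ := if κ = κ' then nuI else 0 with hδ
  set X := L * (∫ v in EU h, HU r h (uf κ) v * WU r h (uf κ') v) -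
      ∫ v in EU h, (d1 (HU r h (uf κ)) v * d1 (WU r h (uf κ')) v +
        d2 (HU r h (uf κ)) v * d2 (WU r h (uf κ')) v) with hXd
  have e1 : ((mu κ)⁻¹ - L) * (B - A) +
      L * (∫ v in EU h, HU r h (uf κ) v * WU r h (uf κ') v) -
      (∫ v in EU h, (d1 (HU r h (uf κ)) v * d1 (WU r h (uf κ')) v +
        d2 (HU r h (uf κ)) v * d2 (WU r h (uf κ')) v)) - ((mu κ)⁻¹ - L) * δ =
      ((mu κ)⁻¹ - L) * ((B - δ) - A) + X := by
    rw [hXd]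
    ring
  rw [e1]
  have e2 : |(B - δ) - A| ≤ 13 * K ^ 2 * r + (32 * K ^ 2 + C2 / 2) * r :=
    (abs_sub _ _).trans (add_le_add hB hA)
  have e3 : |((mu κ)⁻¹ - L) * ((B - δ) - A)| ≤
      |(mu κ)⁻¹ - L| * (13 * K ^ 2 * r + (32 * K ^ 2 + C2 / 2) * r) := by
    rw [abs_mul]
    exact mul_le_mul_of_nonneg_left e2 (abs_nonneg _)
  refine (abs_add_le _ _).trans ((add_le_add e3 hX).trans (le_of_eq ?_))
  ring

/-- The diagonal term of the top eigenfunction.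

Proof. `BU_diag`; the last integral is `≤ C' r ^ 11` (`energy_HU`, `(mu κ)⁻¹ > 0`); the first one is
`≥ LI κ h - C' r ^ 11` by `int_diff` for `g = d1 u ^ 2 + d2 u ^ 2 - (mu κ)⁻¹ u ^ 2`: `∫_{T0} g = 0`
(`energy_T0`), `g (ptI i s 0) = qI κ i s` (`uf_side`), `g` is Lipschitz and `|g v| ≤ K' dist²` by
`Nice`. -/
theorem BU_first (C : ℝ) (κ : KS) : ∃ C' : ℝ, 0 < C' ∧
    ∀ (r : ℝ) (h : Fin 3 → ℝ → ℝ), Hyp C r h →
    BU (mu κ)⁻¹ (WU r h (uf κ)) (WU r h (uf κ)) ≤ -LI κ h + C' * r ^ 11 := by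
  obtain ⟨K, hu⟩ := nice_uf κ
  obtain ⟨C1, hC1, h1⟩ := energy_HU C K
  have hK := hu.pos
  have hmu : 0 < (mu κ)⁻¹ := inv_pos.2 (PE.mu_pos κ)
  have hKp : 0 < (4 + 2 * (mu κ)⁻¹) * K ^ 2 := by positivity
  refine ⟨(4 + 2 * (mu κ)⁻¹) * K ^ 2 * (96 + 6 * C ^ 2) + C1, by positivity, fun r h H => ?_⟩
  obtain ⟨hE, hv, hv2⟩ := UCr_vol H
  have hb := bounded_EU H
  have hr := H.rp
  obtain ⟨LH, hLH⟩ := HU_lip H hu
  obtain ⟨gH, gH1, gH2⟩ := UCr_lip hb hLH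
  have sqd : ∀ {a b D : ℝ}, |a| ≤ K → |b| ≤ K → |a - b| ≤ K * D →
      |a ^ 2 - b ^ 2| ≤ 2 * K ^ 2 * D := by
    intro a b D ha hb hab
    have e1 : a ^ 2 - b ^ 2 = (a + b) * (a - b) := by ring
    rw [e1, abs_mul]
    have e2 : |a + b| ≤ 2 * K := (abs_add_le _ _).trans (by linarith)
    have e3 := mul_le_mul e2 hab (abs_nonneg _) (by positivity)
    refine e3.trans (le_of_eq ?_)
    ring
  -- the first integral
  have hg1 : ∀ v w, |(d1 (uf κ) v ^ 2 + d2 (uf κ) v ^ 2 - (mu κ)⁻¹ * uf κ v ^ 2) -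
      (d1 (uf κ) w ^ 2 + d2 (uf κ) w ^ 2 - (mu κ)⁻¹ * uf κ w ^ 2)| ≤
      (4 + 2 * (mu κ)⁻¹) * K ^ 2 * dist v w := by
    intro v w
    have a1 := sqd (hu.b1 v) (hu.b1 w) (hu.l1 v w)
    have a2 := sqd (hu.b2 v) (hu.b2 w) (hu.l2 v w)
    have a3 := sqd (hu.b0 v) (hu.b0 w) (hu.l0 v w)
    have a4 : |(mu κ)⁻¹ * (uf κ v ^ 2 - uf κ w ^ 2)| ≤ (mu κ)⁻¹ * (2 * K ^ 2 * dist v w) := by
      rw [abs_mul, abs_of_pos hmu]
      exact mul_le_mul_of_nonneg_left a3 hmu.le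
    have a5 : (d1 (uf κ) v ^ 2 + d2 (uf κ) v ^ 2 - (mu κ)⁻¹ * uf κ v ^ 2) -
        (d1 (uf κ) w ^ 2 + d2 (uf κ) w ^ 2 - (mu κ)⁻¹ * uf κ w ^ 2) =
        ((d1 (uf κ) v ^ 2 - d1 (uf κ) w ^ 2) + (d2 (uf κ) v ^ 2 - d2 (uf κ) w ^ 2)) -
        (mu κ)⁻¹ * (uf κ v ^ 2 - uf κ w ^ 2) := by ring
    rw [a5]
    refine (abs_sub _ _).trans ((add_le_add ((abs_add_le _ _).trans (add_le_add a1 a2))
      a4).trans (le_of_eq ?_))
    ring
  have hg2 : ∀ (j : Fin 3) (v : P), |d1 (uf κ) v ^ 2 + d2 (uf κ) v ^ 2 -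
      (mu κ)⁻¹ * uf κ v ^ 2| ≤ (4 + 2 * (mu κ)⁻¹) * K ^ 2 * dist v (corI j) ^ 2 := by
    intro j v
    obtain ⟨c1, c2, c3⟩ := hu.cn j v
    set D := dist v (corI j) with hD
    have a1 : d1 (uf κ) v ^ 2 ≤ (K * D) ^ 2 := by
      rw [← sq_abs (d1 (uf κ) v)]
      exact pow_le_pow_left₀ (abs_nonneg _) c1 2
    have a2 : d2 (uf κ) v ^ 2 ≤ (K * D) ^ 2 := by
      rw [← sq_abs (d2 (uf κ) v)]
      exact pow_le_pow_left₀ (abs_nonneg _) c2 2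
    have a3 : uf κ v ^ 2 ≤ K * (K * D ^ 2) := by
      rw [← sq_abs (uf κ v), sq]
      exact mul_le_mul (hu.b0 v) c3 (abs_nonneg _) hK.le
    have a4 : (mu κ)⁻¹ * uf κ v ^ 2 ≤ (mu κ)⁻¹ * (K * (K * D ^ 2)) :=
      mul_le_mul_of_nonneg_left a3 hmu.le
    have a5 : 0 ≤ (mu κ)⁻¹ * uf κ v ^ 2 := by positivity
    have a6 : 0 ≤ K ^ 2 * D ^ 2 := by positivity
    have a7 : 0 ≤ (mu κ)⁻¹ * (K ^ 2 * D ^ 2) := by positivity
    have a8 : 0 ≤ d1 (uf κ) v ^ 2 := sq_nonneg _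
    have a9 : 0 ≤ d2 (uf κ) v ^ 2 := sq_nonneg _
    have b1 : (4 + 2 * (mu κ)⁻¹) * K ^ 2 * D ^ 2 =
        4 * (K ^ 2 * D ^ 2) + 2 * ((mu κ)⁻¹ * (K ^ 2 * D ^ 2)) := by ring
    have b2 : (K * D) ^ 2 = K ^ 2 * D ^ 2 := by ring
    have b3 : (mu κ)⁻¹ * (K * (K * D ^ 2)) = (mu κ)⁻¹ * (K ^ 2 * D ^ 2) := by ring
    rw [b2] at a1 a2
    rw [b3] at a4
    rw [b1]
    refine abs_le.2 ⟨?_, ?_⟩
    · linarith
    · linarith
  have h3 := int_diff H hKp.le hg1 hg2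
  rw [energy_T0, sub_zero] at h3
  have h4 : ∑ i, ∫ s in (0 : ℝ)..(lenI i), (d1 (uf κ) (ptI i s 0) ^ 2 +
      d2 (uf κ) (ptI i s 0) ^ 2 - (mu κ)⁻¹ * uf κ (ptI i s 0) ^ 2) * h i s = LI κ h := by
    unfold LI
    refine Finset.sum_congr rfl fun i _ => ?_
    congr 1
    funext s
    rw [uf_side κ i s, qI]
    ring
  rw [h4] at h3
  have h5 := (abs_le.1 h3).1
  -- the second integral
  have i1 : IntegrableOn (fun v => d1 (HU r h (uf κ)) v ^ 2 + d2 (HU r h (uf κ)) v ^ 2 -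
      (mu κ)⁻¹ * HU r h (uf κ) v ^ 2) (EU h) :=
    UCr_int hv hE (UCr_sub (UCr_add (UCr_sq gH1) (UCr_sq gH2))
      (UCr_mul (UCr_const _ _) (UCr_sq gH)))
  have i2 : IntegrableOn (fun v => d1 (HU r h (uf κ)) v ^ 2 + d2 (HU r h (uf κ)) v ^ 2 +
      HU r h (uf κ) v ^ 2) (EU h) :=
    UCr_int hv hE (UCr_add (UCr_add (UCr_sq gH1) (UCr_sq gH2)) (UCr_sq gH))
  have h6 : ∫ v in EU h, (d1 (HU r h (uf κ)) v ^ 2 + d2 (HU r h (uf κ)) v ^ 2 -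
      (mu κ)⁻¹ * HU r h (uf κ) v ^ 2) ≤ ∫ v in EU h, (d1 (HU r h (uf κ)) v ^ 2 +
      d2 (HU r h (uf κ)) v ^ 2 + HU r h (uf κ) v ^ 2) := by
    refine integral_mono i1 i2 fun v => ?_
    have a1 : 0 ≤ (mu κ)⁻¹ * HU r h (uf κ) v ^ 2 := by positivity
    have a2 : 0 ≤ HU r h (uf κ) v ^ 2 := sq_nonneg _
    show d1 (HU r h (uf κ)) v ^ 2 + d2 (HU r h (uf κ)) v ^ 2 - (mu κ)⁻¹ * HU r h (uf κ) v ^ 2 ≤
      d1 (HU r h (uf κ)) v ^ 2 + d2 (HU r h (uf κ)) v ^ 2 + HU r h (uf κ) v ^ 2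
    linarith
  have h7 := h6.trans (h1 r h (uf κ) H hu)
  rw [BU_diag H hu]
  have h8 : ((4 + 2 * (mu κ)⁻¹) * K ^ 2 * (96 + 6 * C ^ 2) + C1) * r ^ 11 =
      (4 + 2 * (mu κ)⁻¹) * K ^ 2 * (96 + 6 * C ^ 2) * r ^ 11 + C1 * r ^ 11 := by ring
  rw [h8]
  linarith

end Pool.Agent.MP4eed4eI
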