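import Pool.Agent.Lib.MP_4eed4e_an_I.IDefs

set_option autoImplicit false

/-!
Project I, block U: definitions for the test functions.
-/

namespace Pool.Agent.MP4eed4eI

open Pool.Agent.MP4eed4eP MeasureTheory Set Filter Topology

/-- Hypotheses on the profile `h` of the domain; `r` is small. -/
structure Hyp (C r : ℝ) (h : Fin 3 → ℝ → ℝ) : Prop where
  rp : 0 < r
  r1 : r ≤ 1 / 10
  cp : 0 ≤ C
  cr : C * r ≤ 1 / 1000
  bd : ∀ i s, |h i s| ≤ C * r ^ 7
  lp : ∀ i s s', |h i s - h i s'| ≤ C * r ^ 4 * |s - s'|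

/-- Functions on the plane like the eigenfunctions of `T0`. -/
structure Nice (K : ℝ) (u : P → ℝ) : Prop where
  pos : 0 < K
  df : ContDiff ℝ 1 u
  b0 : ∀ v, |u v| ≤ K
  b1 : ∀ v, |d1 u v| ≤ K
  b2 : ∀ v, |d2 u v| ≤ K
  l0 : ∀ v w, |u v - u w| ≤ K * dist v w
  l1 : ∀ v w, |d1 u v - d1 u w| ≤ K * dist v w
  l2 : ∀ v w, |d2 u v - d2 u w| ≤ K * dist v w
  sd : ∀ i s, u (ptI i s 0) = 0
  cn : ∀ (j : Fin 3) (v : P), |d1 u v| ≤ K * dist v (corI j) ∧ |d2 u v| ≤ K * dist v (corI j) ∧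
    |u v| ≤ K * dist v (corI j) ^ 2

/-- The domain with the profile `h`. -/
def EU (h : Fin 3 → ℝ → ℝ) : Set P := {v | ∀ i, tI i v < h i (sI i v)}

/-- Cutoff at the corners. -/
noncomputable def chiU (r : ℝ) (v : P) : ℝ := max 0 (min 1 (dmin v / r ^ 3 - 1))

/-- Cutoff in the normal direction. -/
noncomputable def thU (x : ℝ) : ℝ := max 0 (min 1 (x + 2))

/-- One side of the correction. -/
noncomputable def S1 (r : ℝ) (h : Fin 3 → ℝ → ℝ) (u : P → ℝ) (i : Fin 3) (v : P) : ℝ :=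
  u (ptI i (sI i v) (h i (sI i v))) * thU (16 * tI i v / r ^ 3)

/-- The correction at the sides. -/
noncomputable def SU (r : ℝ) (h : Fin 3 → ℝ → ℝ) (u : P → ℝ) (v : P) : ℝ := ∑ i, S1 r h u i v

/-- The whole correction. -/
noncomputable def HU (r : ℝ) (h : Fin 3 → ℝ → ℝ) (u : P → ℝ) (v : P) : ℝ :=
  (1 - chiU r v) * u v + chiU r v * SU r h u v

/-- The test function before restriction to the domain; `GU = u - HU`. -/
noncomputable def GU (r : ℝ) (h : Fin 3 → ℝ → ℝ) (u : P → ℝ) (v : P) : ℝ :=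
  chiU r v * (u v - SU r h u v)

/-- The test function. -/
noncomputable def WU (r : ℝ) (h : Fin 3 → ℝ → ℝ) (u : P → ℝ) : P → ℝ := (EU h).indicator (GU r h u)

end Pool.Agent.MP4eed4eI
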