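import Pool.Agent.Lib.MP_4eed4e_an_I.UPt

set_option autoImplicit false

/-!
Project I, block U: energy of the correction.
-/

namespace Pool.Agent.MP4eed4eI

open Pool.Agent.MP4eed4eP MeasureTheory Set Filter Topology

private theorem UEn_cont : Continuous dmin := by
  refine Metric.continuous_iff.2 fun v ε hε => ⟨ε, hε, fun w hw => ?_⟩
  rw [Real.dist_eq]
  exact lt_of_le_of_lt (abs_dmin_sub w v) hw

private theorem UEn_A {r : ℝ} (hr : 0 < r) :
    volume {v : P | dmin v < 3 * r ^ 3} ≤ ENNReal.ofReal (108 * r ^ 6) := by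
  have h3 : 0 ≤ 2 * (3 * r ^ 3) := by positivity
  have e : {v : P | dmin v < 3 * r ^ 3} ⊆ ⋃ j, Metric.ball (corI j) (3 * r ^ 3) := by
    intro v hv
    by_contra hcon
    have h4 : 3 * r ^ 3 ≤ dmin v := le_dmin_iff.2 fun j => by
      by_contra hj
      exact hcon (mem_iUnion.2 ⟨j, Metric.mem_ball.2 (not_le.1 hj)⟩)
    exact absurd h4 (not_le.2 hv)
  have hb : ∀ j : Fin 3, volume (Metric.ball (corI j) (3 * r ^ 3)) =
      ENNReal.ofReal (36 * r ^ 6) := by
    intro j
    rw [← ball_prod_same, Measure.volume_eq_prod, Measure.prod_prod, Real.volume_ball,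
      Real.volume_ball, ← ENNReal.ofReal_mul h3]
    congr 1
    ring
  refine (measure_mono e).trans ((measure_iUnion_le _).trans ?_)
  rw [tsum_fintype, Fin.sum_univ_three, hb, hb, hb, ← ENNReal.ofReal_add (by positivity)
    (by positivity), ← ENNReal.ofReal_add (by positivity) (by positivity)]
  exact ENNReal.ofReal_le_ofReal (by linarith)

private theorem UEn_sI (i : Fin 3) (v : P) (hv : ‖v‖ ≤ 4) : |sI i v| ≤ 8 := by
  have h1 := abs_sI_sub i v 0
  have h2 : sI i 0 = 0 := by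
    fin_cases i <;> simp [sI]
  rw [h2, sub_zero, dist_zero_right] at h1
  linarith

private theorem UEn_meas {C r : ℝ} {h : Fin 3 → ℝ → ℝ} (H : Hyp C r h) (i : Fin 3) :
    MeasurableSet {v : P | v ∈ EU h ∧ -(r ^ 3 / 8) ≤ tI i v} :=
  (isOpen_EU H).measurableSet.inter
    (isClosed_le continuous_const (continuous_tI i)).measurableSet

private theorem UEn_B {C r : ℝ} {h : Fin 3 → ℝ → ℝ} (H : Hyp C r h) (i : Fin 3) :
    volume {v : P | v ∈ EU h ∧ -(r ^ 3 / 8) ≤ tI i v} ≤ ENNReal.ofReal (18 * r ^ 3) := by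
  have hr := H.rp
  rw [← (mp_ptI i).measure_preimage (UEn_meas H i).nullMeasurableSet]
  have hsub : (fun x : P => ptI i x.1 x.2) ⁻¹' {v : P | v ∈ EU h ∧ -(r ^ 3 / 8) ≤ tI i v} ⊆
      Icc (-8 : ℝ) 8 ×ˢ Icc (-(r ^ 3 / 8)) (r ^ 3) := by
    rintro ⟨s, t⟩ hx
    obtain ⟨h1, h2⟩ : ptI i s t ∈ EU h ∧ -(r ^ 3 / 8) ≤ tI i (ptI i s t) := hx
    have h3 := UEn_sI i _ (bounded_EU H _ h1)
    have h4 := h1 i
    rw [tI_ptI, sI_ptI] at h4
    rw [tI_ptI] at h2
    rw [sI_ptI] at h3
    have h5 := (abs_le.1 (H.bd i s)).2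
    have h6 : C * r ^ 7 ≤ r ^ 3 := by
      have e : C * r ^ 7 = (C * r) * r ^ 3 * r ^ 3 := by ring
      have e3 : r ^ 3 ≤ 1 := pow_le_one₀ hr.le (by linarith [H.r1])
      have e4 : 0 < r ^ 3 := by positivity
      have e5 := H.cr
      have e6 : 0 ≤ C * r := mul_nonneg H.cp hr.le
      rw [e]
      nlinarith [mul_nonneg e6 e4.le]
    exact ⟨abs_le.1 h3, ⟨h2, by linarith⟩⟩
  refine (measure_mono hsub).trans (le_of_eq ?_)
  have e1 : (0 : ℝ) ≤ 8 - -8 := by norm_num
  rw [Measure.volume_eq_prod, Measure.prod_prod, Real.volume_Icc, Real.volume_Icc,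
    ← ENNReal.ofReal_mul e1]
  congr 1
  ring

/-- Proof. `EU h` is covered by three sets: (a) `{dmin < 3 r ^ 3}`, of area at most
`3 (6 r ^ 3)²`, integrand `≤ 3 (C' r ^ 3)²` (`HU_corner`); (b) `{3 r ^ 3 ≤ dmin, ∃ i, -(r ^ 3 / 8) ≤ tI i v}`, of area at most
`C'' r ^ 3` (in the coordinates of the side `i` a rectangle `|sI i v| ≤ 12`,
`-(r ^ 3 / 8) ≤ tI i v ≤ r ^ 3`; `mp_ptI`, `bounded_EU`), integrand `≤ 3 (C' r ^ 4)²` (`HU_strip`);
(c) the rest, integrand `0` (`HU_inner`). Total `≤ C (r ^ 12 + r ^ 11)`. -/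
theorem energy_HU (C K : ℝ) : ∃ C' : ℝ, 0 < C' ∧ ∀ (r : ℝ) (h : Fin 3 → ℝ → ℝ) (u : P → ℝ),
    Hyp C r h → Nice K u →
    ∫ v in EU h, (d1 (HU r h u) v ^ 2 + d2 (HU r h u) v ^ 2 + HU r h u v ^ 2) ≤ C' * r ^ 11 := by
  obtain ⟨C1, hC1, hA⟩ := HU_corner C K
  obtain ⟨C2, hC2, hB⟩ := HU_strip C K
  refine ⟨324 * C1 ^ 2 + 162 * C2 ^ 2, by positivity, ?_⟩
  intro r h u H hu
  have hr := H.rp
  have hr3 : 0 < r ^ 3 := by positivity
  set A : Set P := {v : P | dmin v < 3 * r ^ 3} with hAd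
  set B : Fin 3 → Set P := fun i => {v : P | v ∈ EU h ∧ -(r ^ 3 / 8) ≤ tI i v} with hBd
  set cA : ℝ := 3 * (C1 * r ^ 3) ^ 2 with hcA
  set cB : ℝ := 3 * (C2 * r ^ 4) ^ 2 with hcB
  have hcA0 : 0 ≤ cA := by positivity
  have hcB0 : 0 ≤ cB := by positivity
  have mA : MeasurableSet A := (isOpen_Iio.preimage UEn_cont).measurableSet
  have mB : ∀ i, MeasurableSet (B i) := fun i => UEn_meas H i
  have vA : volume A ≤ ENNReal.ofReal (108 * r ^ 6) := UEn_A hr
  have vB : ∀ i, volume (B i) ≤ ENNReal.ofReal (18 * r ^ 3) := fun i => UEn_B H i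
  have fA : volume A ≠ ⊤ := (vA.trans_lt ENNReal.ofReal_lt_top).ne
  have fB : ∀ i, volume (B i) ≠ ⊤ := fun i => ((vB i).trans_lt ENNReal.ofReal_lt_top).ne
  set g : P → ℝ := fun v => A.indicator (fun _ => cA) v + ((B 0).indicator (fun _ => cB) v +
    ((B 1).indicator (fun _ => cB) v + (B 2).indicator (fun _ => cB) v)) with hg
  have iA : Integrable (A.indicator fun _ => cA) volume :=
    (integrable_indicator_iff mA).2 (integrableOn_const fA)
  have iB : ∀ i, Integrable ((B i).indicator fun _ => cB) volume := fun i =>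
    (integrable_indicator_iff (mB i)).2 (integrableOn_const (fB i))
  have ig : Integrable g volume := iA.add ((iB 0).add ((iB 1).add (iB 2)))
  have nA : ∀ v, 0 ≤ A.indicator (fun _ => cA) v := fun v => indicator_nonneg (fun _ _ => hcA0) v
  have nB : ∀ i v, 0 ≤ (B i).indicator (fun _ => cB) v := fun i v =>
    indicator_nonneg (fun _ _ => hcB0) v
  have g0 : ∀ v, 0 ≤ g v := fun v => by
    have := nA v
    have := nB 0 v
    have := nB 1 v
    have := nB 2 v
    simp only [hg]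
    linarith
  have sq3 : ∀ {a b c x : ℝ}, |a| ≤ x → |b| ≤ x → |c| ≤ x →
      a ^ 2 + b ^ 2 + c ^ 2 ≤ 3 * x ^ 2 := by
    intro a b c x ha hb hc
    have h1 := sq_le_sq' (abs_le.1 ha).1 (abs_le.1 ha).2
    have h2 := sq_le_sq' (abs_le.1 hb).1 (abs_le.1 hb).2
    have h3 := sq_le_sq' (abs_le.1 hc).1 (abs_le.1 hc).2
    linarith
  have key : ∀ v ∈ EU h,
      d1 (HU r h u) v ^ 2 + d2 (HU r h u) v ^ 2 + HU r h u v ^ 2 ≤ g v := by
    intro v hv
    have n0 := nA v
    have n1 := nB 0 v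
    have n2 := nB 1 v
    have n3 := nB 2 v
    by_cases h1 : v ∈ A
    · obtain ⟨e1, e2, e3⟩ := hA r h u H hu v h1
      have e4 := sq3 e1 e2 e3
      have e5 : A.indicator (fun _ => cA) v = cA := indicator_of_mem h1 _
      simp only [hg]
      linarith
    · have h2 : 3 * r ^ 3 ≤ dmin v := not_lt.1 h1
      by_cases h3 : ∃ i, -(r ^ 3 / 8) ≤ tI i v
      · obtain ⟨i, hi⟩ := h3
        obtain ⟨e1, e2, e3⟩ := hB r h u H hu v (by linarith)
        have e4 := sq3 e1 e2 e3
        have hm : v ∈ B i := ⟨hv, hi⟩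
        have e5 : (B i).indicator (fun _ => cB) v = cB := indicator_of_mem hm _
        have e6 : (B i).indicator (fun _ => cB) v ≤ g v := by
          simp only [hg]
          fin_cases i
          · simp only [Fin.zero_eta]
            linarith
          · simp only [Fin.mk_one]
            linarith
          · simp only [Fin.reduceFinMk]
            linarith
        linarith
      · push Not at h3
        obtain ⟨e1, e2, e3⟩ := HU_inner H hu (v := v) (by linarith) h3
        rw [e1, e2, e3]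
        have := g0 v
        linarith
  have s1 : ∫ v in EU h, (d1 (HU r h u) v ^ 2 + d2 (HU r h u) v ^ 2 + HU r h u v ^ 2) ≤
      ∫ v in EU h, g v := by
    refine integral_mono_of_nonneg (Eventually.of_forall fun v => by positivity)
      ig.integrableOn ?_
    exact (ae_restrict_iff' (isOpen_EU H).measurableSet).2 (Eventually.of_forall key)
  have s2 : ∫ v in EU h, g v ≤ ∫ v, g v :=
    setIntegral_le_integral ig (Eventually.of_forall g0)
  have rA : volume.real A ≤ 108 * r ^ 6 :=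
    ENNReal.toReal_le_of_le_ofReal (by positivity) vA
  have rB : ∀ i, volume.real (B i) ≤ 18 * r ^ 3 := fun i =>
    ENNReal.toReal_le_of_le_ofReal (by positivity) (vB i)
  have s3 : ∫ v, g v = volume.real A * cA + (volume.real (B 0) * cB + (volume.real (B 1) * cB +
      volume.real (B 2) * cB)) := by
    have p1 : ∫ v, g v = (∫ v, A.indicator (fun _ => cA) v) + ∫ v,
        ((B 0).indicator (fun _ => cB) v + ((B 1).indicator (fun _ => cB) v +
          (B 2).indicator (fun _ => cB) v)) := integral_add iA ((iB 0).add ((iB 1).add (iB 2)))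
    have p2 : (∫ v, ((B 0).indicator (fun _ => cB) v + ((B 1).indicator (fun _ => cB) v +
          (B 2).indicator (fun _ => cB) v))) = (∫ v, (B 0).indicator (fun _ => cB) v) +
        ∫ v, ((B 1).indicator (fun _ => cB) v + (B 2).indicator (fun _ => cB) v) :=
      integral_add (iB 0) ((iB 1).add (iB 2))
    have p3 : (∫ v, ((B 1).indicator (fun _ => cB) v + (B 2).indicator (fun _ => cB) v)) =
        (∫ v, (B 1).indicator (fun _ => cB) v) + ∫ v, (B 2).indicator (fun _ => cB) v :=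
      integral_add (iB 1) (iB 2)
    rw [p1, p2, p3, integral_indicator_const _ mA, integral_indicator_const _ (mB 0),
      integral_indicator_const _ (mB 1), integral_indicator_const _ (mB 2)]
    simp only [smul_eq_mul]
  have t1 : volume.real A * cA ≤ 108 * r ^ 6 * cA := mul_le_mul_of_nonneg_right rA hcA0
  have t2 : ∀ i, volume.real (B i) * cB ≤ 18 * r ^ 3 * cB := fun i =>
    mul_le_mul_of_nonneg_right (rB i) hcB0
  have t3 : 108 * r ^ 6 * cA + 54 * r ^ 3 * cB ≤ (324 * C1 ^ 2 + 162 * C2 ^ 2) * r ^ 11 := by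
    have e1 : 108 * r ^ 6 * cA = 324 * C1 ^ 2 * (r ^ 11 * r) := by
      rw [hcA]
      ring
    have e2 : 54 * r ^ 3 * cB = 162 * C2 ^ 2 * r ^ 11 := by
      rw [hcB]
      ring
    have e3 : r ^ 11 * r ≤ r ^ 11 := by
      have : 0 < r ^ 11 := by positivity
      nlinarith [H.r1]
    rw [e1, e2]
    have e4 : 324 * C1 ^ 2 * (r ^ 11 * r) ≤ 324 * C1 ^ 2 * r ^ 11 :=
      mul_le_mul_of_nonneg_left e3 (by positivity)
    linarith
  have t20 := t2 0
  have t21 := t2 1
  have t22 := t2 2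
  rw [s3] at s2
  linarith

end Pool.Agent.MP4eed4eI
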