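import Pool.Agent.Lib.MP_4eed4e_an_I.UEn
import Pool.Agent.Lib.MP_4eed4e_an_I.TGrn
import Pool.Agent.Lib.MP_4eed4e_an_PC.CForm

set_option autoImplicit false

/-!
Project I, block U: the bilinear form and the identities of U5.
-/

namespace Pool.Agent.MP4eed4eI

open Pool.Agent.MP4eed4eP MeasureTheory Set Filter Topology

/-- The bilinear form `∫ (∇f·∇g - L f g)`. -/
noncomputable def BU (L : ℝ) (f g : P → ℝ) : ℝ :=
  ∫ x, (d1 f x * d1 g x + d2 f x * d2 g x - L * (f x * g x))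

/-- Bounded measurable functions with compact support are integrable. -/
private theorem uForm_int {h : P → ℝ} (hm : Measurable h) {C : ℝ} (hb : ∀ x, |h x| ≤ C)
    (hc : HasCompactSupport h) : Integrable h := by
  have h1 : IntegrableOn h (tsupport h) :=
    Measure.integrableOn_of_bounded hc.isCompact.measure_lt_top.ne hm.aestronglyMeasurable
      (M := C) (Eventually.of_forall fun x => by rw [Real.norm_eq_abs]; exact hb x)
  rwa [integrableOn_iff_integrable_of_support_subset (subset_tsupport h)] at h1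

/-- Products with one factor of compact support. -/
private theorem uForm_mul {a b : P → ℝ} {A B : ℝ} (ha : Measurable a) (hb : Measurable b)
    (hA : ∀ x, |a x| ≤ A) (hB : ∀ x, |b x| ≤ B) (hc : HasCompactSupport b) :
    Integrable (fun x => a x * b x) := by
  refine uForm_int (C := A * B) (ha.mul hb) (fun x => ?_) hc.mul_left
  rw [abs_mul]
  exact mul_le_mul (hA x) (hB x) (abs_nonneg _) ((abs_nonneg _).trans (hA x))

/-- Integrability of the integrand of the form, in three parts. -/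
private theorem uForm_three {f g : P → ℝ} {K : NNReal} (hf : LipschitzWith K f)
    (hg : LipC univ g) : Integrable (fun x => d1 f x * d1 g x) ∧
      Integrable (fun x => d2 f x * d2 g x) ∧ Integrable (fun x => f x * g x) := by
  obtain ⟨K', hK'⟩ := hg.1
  exact ⟨uForm_mul (measurable_d1 f) (measurable_d1 g) (abs_d1_le hf) (abs_d1_le hK')
      hg.compact_d1,
    uForm_mul (measurable_d2 f) (measurable_d2 g) (abs_d2_le hf) (abs_d2_le hK')
      hg.compact_d2,
    (hf.continuous.mul hg.continuous).integrable_of_hasCompactSupport hg.2.1.mul_left⟩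

private theorem uForm_all {f g : P → ℝ} {K : NNReal} (hf : LipschitzWith K f)
    (hg : LipC univ g) (L : ℝ) :
    Integrable (fun x => d1 f x * d1 g x + d2 f x * d2 g x - L * (f x * g x)) := by
  obtain ⟨h1, h2, h3⟩ := uForm_three hf hg
  exact (h1.add h2).sub (h3.const_mul L)

theorem BU_comm (L : ℝ) (f g : P → ℝ) : BU L f g = BU L g f := by
  unfold BU
  refine integral_congr_ae (Eventually.of_forall fun x => ?_)
  dsimp only
  ring

theorem BU_self {D : Set P} {f : P → ℝ} (hf : LipC D f) (L : ℝ) :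
    BU L f f = en f - L * l2 f := by
  obtain ⟨K, hK⟩ := hf.1
  obtain ⟨h1, h2, h3⟩ := uForm_three hK (hf.mono (subset_univ D))
  unfold BU en l2
  have h12 : Integrable (fun x => d1 f x * d1 f x + d2 f x * d2 f x) := h1.add h2
  rw [integral_sub h12 (h3.const_mul L), integral_const_mul]
  congr 1
  · refine integral_congr_ae (Eventually.of_forall fun x => ?_)
    dsimp only
    ring
  · congr 1
    refine integral_congr_ae (Eventually.of_forall fun x => ?_)
    dsimp only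
    ring

/-- Proof. All products are integrable (bounded, measurable, with compact support);
`d1 (f + g) = d1 f + d1 g` almost everywhere. -/
theorem BU_add {D : Set P} {f g w : P → ℝ} (hf : LipC D f) (hg : LipC D g) (hw : LipC D w) (L : ℝ) :
    BU L (f + g) w = BU L f w + BU L g w := by
  obtain ⟨K, hK⟩ := hf.1
  obtain ⟨K', hK'⟩ := hg.1
  have hw' := hw.mono (subset_univ D)
  unfold BU
  rw [← integral_add (uForm_all hK hw' L) (uForm_all hK' hw' L)]
  refine integral_congr_ae ?_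
  filter_upwards [hf.ae_diff, hg.ae_diff] with x hx hx'
  rw [d1_add hx hx', d2_add hx hx', Pi.add_apply]
  ring

theorem BU_smul (L c : ℝ) (f w : P → ℝ) : BU L (c • f) w = c * BU L f w := by
  unfold BU
  rw [← integral_const_mul]
  refine integral_congr_ae (Eventually.of_forall fun x => ?_)
  dsimp only
  rw [d1_smul, d2_smul, Pi.smul_apply, smul_eq_mul]
  ring

private theorem uForm_lipC {D : Set P} {ι : Type} (S : Finset ι) (w : ι → P → ℝ)
    (hw : ∀ i, LipC D (w i)) (a : ι → ℝ) : LipC D (∑ i ∈ S, a i • w i) := by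
  classical
  induction S using Finset.induction_on with
  | empty =>
    rw [Finset.sum_empty]
    exact LipC.zero D
  | insert i S hi ih =>
    rw [Finset.sum_insert hi]
    exact ((hw i).smul (a i)).add ih

private theorem uForm_sum1 {D : Set P} {ι : Type} (S : Finset ι) (w : ι → P → ℝ)
    (hw : ∀ i, LipC D (w i)) (a : ι → ℝ) (L : ℝ) {g : P → ℝ} (hg : LipC D g) :
    BU L (∑ i ∈ S, a i • w i) g = ∑ i ∈ S, a i * BU L (w i) g := by
  classical
  induction S using Finset.induction_on with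
  | empty =>
    rw [Finset.sum_empty, Finset.sum_empty]
    have h := BU_smul L 0 (0 : P → ℝ) g
    rwa [zero_smul, zero_mul] at h
  | insert i S hi ih =>
    rw [Finset.sum_insert hi, Finset.sum_insert hi,
      BU_add ((hw i).smul (a i)) (uForm_lipC S w hw a) hg, BU_smul, ih]

/-- The quadratic form of a linear combination.

Proof. Induction over the finset with `BU_add`, `BU_smul`, `BU_comm` (first for the first argument,
then for the second). -/
theorem BU_sum {D : Set P} {ι : Type} (S : Finset ι) (w : ι → P → ℝ) (hw : ∀ i, LipC D (w i))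
    (a : ι → ℝ) (L : ℝ) : BU L (∑ i ∈ S, a i • w i) (∑ i ∈ S, a i • w i) =
      ∑ i ∈ S, ∑ j ∈ S, a i * a j * BU L (w i) (w j) := by
  rw [uForm_sum1 S w hw a L (uForm_lipC S w hw a)]
  refine Finset.sum_congr rfl fun i _ => ?_
  rw [BU_comm, uForm_sum1 S w hw a L (hw i), Finset.mul_sum]
  refine Finset.sum_congr rfl fun j _ => ?_
  rw [BU_comm]
  ring

private theorem uForm_univ {C K r : ℝ} {h : Fin 3 → ℝ → ℝ} (H : Hyp C r h) {u : P → ℝ}
    (hu : Nice K u) : LipC univ (WU r h u) :=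
  WU_lipC H hu fun v _ _ => mem_univ v

private theorem uForm_val (r : ℝ) (h : Fin 3 → ℝ → ℝ) (u : P → ℝ) {v : P} (hv : v ∈ EU h) :
    WU r h u v = u v - HU r h u v := by
  rw [WU, indicator_of_mem hv, GU_eq]

private theorem uForm_off (r : ℝ) (h : Fin 3 → ℝ → ℝ) (u : P → ℝ) {v : P} (hv : v ∉ EU h) :
    WU r h u v = 0 := indicator_of_notMem hv _

private theorem uForm_lip {K : ℝ} {u : P → ℝ} (hu : Nice K u) :
    LipschitzWith ⟨K, hu.pos.le⟩ u := LipschitzWith.of_dist_le_mul fun v w => by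
  rw [Real.dist_eq]
  exact hu.l0 v w

/-- The identity for two eigenfunctions.

Proof. Let `w = WU r h (uf κ')`; it is in `LipC univ` (`WU_lipC` with `D = univ`). By `grad_WU` the
gradient of `WU r h (uf κ)` is `∇(uf κ) - ∇(HU ..)` almost everywhere on `EU h` and `0` outside; the
gradient of `w` and `w` vanish outside `EU h` (a.e.), and `WU r h (uf κ) = uf κ - HU ..` on `EU h`
(`GU_eq`). So `BU = ∫ ∇(uf κ)·∇w - L ∫ uf κ w - ∫_{EU h} ∇(HU)·∇w + L ∫_{EU h} HU w`; and
`∫ ∇(uf κ)·∇w = (mu κ)⁻¹ ∫ uf κ w` (`weak_uf`). Integrability: `w` has compact support, the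
gradients
are bounded and measurable, `EU h` is bounded (`bounded_EU`). -/
theorem BU_form {C K r : ℝ} {h : Fin 3 → ℝ → ℝ} (H : Hyp C r h) {κ κ' : KS}
    (hu : Nice K (uf κ)) (hu' : Nice K (uf κ')) (L : ℝ) :
    BU L (WU r h (uf κ)) (WU r h (uf κ')) =
      ((mu κ)⁻¹ - L) * (∫ v in EU h, uf κ v * WU r h (uf κ') v) +
      L * (∫ v in EU h, HU r h (uf κ) v * WU r h (uf κ') v) -
      ∫ v in EU h, (d1 (HU r h (uf κ)) v * d1 (WU r h (uf κ')) v +
        d2 (HU r h (uf κ)) v * d2 (WU r h (uf κ')) v) := by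
  have hw := uForm_univ H hu'
  have g1 := grad_WU H hu
  have g2 := grad_WU H hu'
  obtain ⟨KY, hY⟩ := HU_lip H hu
  have hul := uForm_lip hu
  obtain ⟨a1, a2, a3⟩ := uForm_three hul hw
  obtain ⟨b1, b2, b3⟩ := uForm_three hY hw
  have hmain : BU L (WU r h (uf κ)) (WU r h (uf κ')) =
      ∫ x, ((d1 (uf κ) x * d1 (WU r h (uf κ')) x + d2 (uf κ) x * d2 (WU r h (uf κ')) x) -
        L * (uf κ x * WU r h (uf κ') x) + L * (HU r h (uf κ) x * WU r h (uf κ') x) -
        (d1 (HU r h (uf κ)) x * d1 (WU r h (uf κ')) x +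
          d2 (HU r h (uf κ)) x * d2 (WU r h (uf κ')) x)) := by
    unfold BU
    refine integral_congr_ae ?_
    filter_upwards [g1, g2] with x h1 h2
    by_cases hx : x ∈ EU h
    · rw [(h1.1 hx).1, (h1.1 hx).2, uForm_val r h (uf κ) hx]
      ring
    · rw [(h2.2 hx).1, (h2.2 hx).2, uForm_off r h (uf κ') hx]
      ring
  have e1 : ∫ v in EU h, uf κ v * WU r h (uf κ') v = ∫ v, uf κ v * WU r h (uf κ') v :=
    setIntegral_eq_integral_of_forall_compl_eq_zero fun x hx => by
      rw [uForm_off r h (uf κ') hx, mul_zero]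
  have e2 : ∫ v in EU h, HU r h (uf κ) v * WU r h (uf κ') v =
      ∫ v, HU r h (uf κ) v * WU r h (uf κ') v :=
    setIntegral_eq_integral_of_forall_compl_eq_zero fun x hx => by
      rw [uForm_off r h (uf κ') hx, mul_zero]
  have e3 : ∫ v in EU h, (d1 (HU r h (uf κ)) v * d1 (WU r h (uf κ')) v +
      d2 (HU r h (uf κ)) v * d2 (WU r h (uf κ')) v) =
      ∫ v, (d1 (HU r h (uf κ)) v * d1 (WU r h (uf κ')) v +
        d2 (HU r h (uf κ)) v * d2 (WU r h (uf κ')) v) := by
    refine setIntegral_eq_integral_of_ae_compl_eq_zero ?_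
    filter_upwards [g2] with x h2 hx
    rw [(h2.2 hx).1, (h2.2 hx).2]
    ring
  have a12 : Integrable (fun x => d1 (uf κ) x * d1 (WU r h (uf κ')) x +
      d2 (uf κ) x * d2 (WU r h (uf κ')) x) := a1.add a2
  have b12 : Integrable (fun x => d1 (HU r h (uf κ)) x * d1 (WU r h (uf κ')) x +
      d2 (HU r h (uf κ)) x * d2 (WU r h (uf κ')) x) := b1.add b2
  have c1 : Integrable (fun x => L * (uf κ x * WU r h (uf κ') x)) := a3.const_mul L
  have c2 : Integrable (fun x => L * (HU r h (uf κ) x * WU r h (uf κ') x)) := b3.const_mul L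
  have d3 : Integrable (fun x => (d1 (uf κ) x * d1 (WU r h (uf κ')) x +
      d2 (uf κ) x * d2 (WU r h (uf κ')) x) - L * (uf κ x * WU r h (uf κ') x)) := a12.sub c1
  have d4 : Integrable (fun x => (d1 (uf κ) x * d1 (WU r h (uf κ')) x +
      d2 (uf κ) x * d2 (WU r h (uf κ')) x) - L * (uf κ x * WU r h (uf κ') x) +
      L * (HU r h (uf κ) x * WU r h (uf κ') x)) := d3.add c2
  rw [hmain, integral_sub d4 b12, integral_add d3 c2, integral_sub a12 c1,
    integral_const_mul, integral_const_mul, weak_uf κ hw, e1, e2, e3]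
  ring

/-- The identity on the diagonal.

Proof. Put `u = uf κ`, `W = WU r h u`, `Y = HU r h u`, `Λ = (mu κ)⁻¹`. On `EU h` `W = u - Y`,
`∇W = ∇u - ∇Y` a.e. `weak_uf` with `w = W`: `∫_E ∇u·(∇u - ∇Y) = Λ ∫_E u (u - Y)`, i.e.
`∫_E (|∇u|² - Λ u²) = ∫_E (∇u·∇Y - Λ u Y)`. Expand
`∫_E (|∇u - ∇Y|² - Λ (u - Y)²) = ∫_E (|∇u|² - Λ u²) - 2 ∫_E (∇u·∇Y - Λ u Y) + ∫_E (|∇Y|² - Λ Y²)`.
-/
theorem BU_diag {C K r : ℝ} {h : Fin 3 → ℝ → ℝ} (H : Hyp C r h) {κ : KS} (hu : Nice K (uf κ)) :
    BU (mu κ)⁻¹ (WU r h (uf κ)) (WU r h (uf κ)) =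
      -(∫ v in EU h, (d1 (uf κ) v ^ 2 + d2 (uf κ) v ^ 2 - (mu κ)⁻¹ * uf κ v ^ 2)) +
      ∫ v in EU h, (d1 (HU r h (uf κ)) v ^ 2 + d2 (HU r h (uf κ)) v ^ 2 -
        (mu κ)⁻¹ * HU r h (uf κ) v ^ 2) := by
  have hw := uForm_univ H hu
  have g1 := grad_WU H hu
  obtain ⟨KY, hY⟩ := HU_lip H hu
  have hul := uForm_lip hu
  have hEo := isOpen_EU H
  have hsub : EU h ⊆ Metric.closedBall (0 : P) 4 := fun v hv => by
    rw [mem_closedBall_zero_iff]
    exact bounded_EU H v hv
  have hfin : volume (EU h) ≠ ⊤ :=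
    ((measure_mono hsub).trans_lt (isCompact_closedBall (0 : P) 4).measure_lt_top).ne
  have hcont : ∀ {f : P → ℝ}, Continuous f → IntegrableOn f (EU h) := fun hf =>
    (hf.continuousOn.integrableOn_compact (isCompact_closedBall (0 : P) 4)).mono_set hsub
  have hmb : ∀ {f : P → ℝ} (M : ℝ), Measurable f → (∀ x, |f x| ≤ M) → IntegrableOn f (EU h) :=
    fun M hf hM => Measure.integrableOn_of_bounded hfin hf.aestronglyMeasurable (M := M)
      (Eventually.of_forall fun x => by rw [Real.norm_eq_abs]; exact hM x)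
  have hmul : ∀ {f g : P → ℝ} {A B : ℝ}, Measurable f → Measurable g → (∀ x, |f x| ≤ A) →
      (∀ x, |g x| ≤ B) → IntegrableOn (fun x => f x * g x) (EU h) := by
    intro f g A B hf hg hA hB
    refine hmb (A * B) (hf.mul hg) fun x => ?_
    rw [abs_mul]
    exact mul_le_mul (hA x) (hB x) (abs_nonneg _) ((abs_nonneg _).trans (hA x))
  have m1u := measurable_d1 (uf κ)
  have m2u := measurable_d2 (uf κ)
  have m1Y := measurable_d1 (HU r h (uf κ))
  have m2Y := measurable_d2 (HU r h (uf κ))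
  have iA : IntegrableOn (fun x => d1 (uf κ) x * d1 (uf κ) x + d2 (uf κ) x * d2 (uf κ) x -
      (mu κ)⁻¹ * (uf κ x * uf κ x)) (EU h) :=
    ((hmul m1u m1u (abs_d1_le hul) (abs_d1_le hul)).add
      (hmul m2u m2u (abs_d2_le hul) (abs_d2_le hul))).sub
      ((hcont (hul.continuous.mul hul.continuous)).const_mul _)
  have iB : IntegrableOn (fun x => d1 (uf κ) x * d1 (HU r h (uf κ)) x +
      d2 (uf κ) x * d2 (HU r h (uf κ)) x - (mu κ)⁻¹ * (uf κ x * HU r h (uf κ) x)) (EU h) :=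
    ((hmul m1u m1Y (abs_d1_le hul) (abs_d1_le hY)).add
      (hmul m2u m2Y (abs_d2_le hul) (abs_d2_le hY))).sub
      ((hcont (hul.continuous.mul hY.continuous)).const_mul _)
  have iC : IntegrableOn (fun x => d1 (HU r h (uf κ)) x * d1 (HU r h (uf κ)) x +
      d2 (HU r h (uf κ)) x * d2 (HU r h (uf κ)) x -
      (mu κ)⁻¹ * (HU r h (uf κ) x * HU r h (uf κ) x)) (EU h) :=
    ((hmul m1Y m1Y (abs_d1_le hY) (abs_d1_le hY)).add
      (hmul m2Y m2Y (abs_d2_le hY) (abs_d2_le hY))).sub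
      ((hcont (hY.continuous.mul hY.continuous)).const_mul _)
  -- the weak equation
  have key1 : (∫ x in EU h, (d1 (uf κ) x * d1 (uf κ) x + d2 (uf κ) x * d2 (uf κ) x -
      (mu κ)⁻¹ * (uf κ x * uf κ x))) -
      ∫ x in EU h, (d1 (uf κ) x * d1 (HU r h (uf κ)) x +
        d2 (uf κ) x * d2 (HU r h (uf κ)) x - (mu κ)⁻¹ * (uf κ x * HU r h (uf κ) x)) = 0 := by
    obtain ⟨a1, a2, a3⟩ := uForm_three hul hw
    have a12 : Integrable (fun x => d1 (uf κ) x * d1 (WU r h (uf κ)) x +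
        d2 (uf κ) x * d2 (WU r h (uf κ)) x) := a1.add a2
    have h0 : ∫ x, (d1 (uf κ) x * d1 (WU r h (uf κ)) x + d2 (uf κ) x * d2 (WU r h (uf κ)) x -
        (mu κ)⁻¹ * (uf κ x * WU r h (uf κ) x)) = 0 := by
      rw [integral_sub a12 (a3.const_mul _), integral_const_mul, weak_uf κ hw, sub_self]
    have h1 : ∫ x in EU h, (d1 (uf κ) x * d1 (WU r h (uf κ)) x +
        d2 (uf κ) x * d2 (WU r h (uf κ)) x - (mu κ)⁻¹ * (uf κ x * WU r h (uf κ) x)) =
        ∫ x, (d1 (uf κ) x * d1 (WU r h (uf κ)) x + d2 (uf κ) x * d2 (WU r h (uf κ)) x -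
        (mu κ)⁻¹ * (uf κ x * WU r h (uf κ) x)) := by
      refine setIntegral_eq_integral_of_ae_compl_eq_zero ?_
      filter_upwards [g1] with x h2 hx
      rw [(h2.2 hx).1, (h2.2 hx).2, uForm_off r h (uf κ) hx]
      ring
    rw [← integral_sub iA iB, ← h0, ← h1]
    refine setIntegral_congr_ae hEo.measurableSet ?_
    filter_upwards [g1] with x h2 hx
    rw [(h2.1 hx).1, (h2.1 hx).2, uForm_val r h (uf κ) hx]
    ring
  have key2 : BU (mu κ)⁻¹ (WU r h (uf κ)) (WU r h (uf κ)) =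
      (∫ x in EU h, (d1 (uf κ) x * d1 (uf κ) x + d2 (uf κ) x * d2 (uf κ) x -
        (mu κ)⁻¹ * (uf κ x * uf κ x))) -
      2 * (∫ x in EU h, (d1 (uf κ) x * d1 (HU r h (uf κ)) x +
        d2 (uf κ) x * d2 (HU r h (uf κ)) x - (mu κ)⁻¹ * (uf κ x * HU r h (uf κ) x))) +
      ∫ x in EU h, (d1 (HU r h (uf κ)) x * d1 (HU r h (uf κ)) x +
        d2 (HU r h (uf κ)) x * d2 (HU r h (uf κ)) x -
        (mu κ)⁻¹ * (HU r h (uf κ) x * HU r h (uf κ) x)) := by
    have h1 : BU (mu κ)⁻¹ (WU r h (uf κ)) (WU r h (uf κ)) =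
        ∫ x in EU h, (d1 (WU r h (uf κ)) x * d1 (WU r h (uf κ)) x +
          d2 (WU r h (uf κ)) x * d2 (WU r h (uf κ)) x -
          (mu κ)⁻¹ * (WU r h (uf κ) x * WU r h (uf κ) x)) := by
      unfold BU
      symm
      refine setIntegral_eq_integral_of_ae_compl_eq_zero ?_
      filter_upwards [g1] with x h2 hx
      rw [(h2.2 hx).1, (h2.2 hx).2, uForm_off r h (uf κ) hx]
      ring
    have iAB : IntegrableOn (fun x => (d1 (uf κ) x * d1 (uf κ) x + d2 (uf κ) x * d2 (uf κ) x -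
        (mu κ)⁻¹ * (uf κ x * uf κ x)) - 2 * (d1 (uf κ) x * d1 (HU r h (uf κ)) x +
        d2 (uf κ) x * d2 (HU r h (uf κ)) x - (mu κ)⁻¹ * (uf κ x * HU r h (uf κ) x))) (EU h) :=
      iA.sub (iB.const_mul 2)
    rw [h1, ← integral_const_mul, ← integral_sub iA (iB.const_mul 2), ← integral_add iAB iC]
    refine setIntegral_congr_ae hEo.measurableSet ?_
    filter_upwards [g1] with x h2 hx
    rw [(h2.1 hx).1, (h2.1 hx).2, uForm_val r h (uf κ) hx]
    ring
  have f1 : ∫ v in EU h, (d1 (uf κ) v ^ 2 + d2 (uf κ) v ^ 2 - (mu κ)⁻¹ * uf κ v ^ 2) =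
      ∫ x in EU h, (d1 (uf κ) x * d1 (uf κ) x + d2 (uf κ) x * d2 (uf κ) x -
        (mu κ)⁻¹ * (uf κ x * uf κ x)) := by
    refine integral_congr_ae (Eventually.of_forall fun x => ?_)
    dsimp only
    ring
  have f2 : ∫ v in EU h, (d1 (HU r h (uf κ)) v ^ 2 + d2 (HU r h (uf κ)) v ^ 2 -
      (mu κ)⁻¹ * HU r h (uf κ) v ^ 2) =
      ∫ x in EU h, (d1 (HU r h (uf κ)) x * d1 (HU r h (uf κ)) x +
        d2 (HU r h (uf κ)) x * d2 (HU r h (uf κ)) x -
        (mu κ)⁻¹ * (HU r h (uf κ) x * HU r h (uf κ) x)) := by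
    refine integral_congr_ae (Eventually.of_forall fun x => ?_)
    dsimp only
    ring
  rw [key2, f1, f2]
  linarith

end Pool.Agent.MP4eed4eI
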