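import Pool.Agent.Lib.MP_4eed4e_an_I.UDefs
import Pool.Agent.Lib.MP_4eed4e_an_I.GCo
import Pool.Agent.Lib.MP_4eed4e_an_I.TGrn
import Pool.Agent.Lib.MP_4eed4e_an_PB.BTa

set_option autoImplicit false

/-!
Project I, block U: elementary facts about the domain and the cutoffs.
-/

namespace Pool.Agent.MP4eed4eI

open Pool.Agent.MP4eed4eP MeasureTheory Set Filter Topology

/-- Proof. `uf_bounds`, `uf_side`, `uf_near`, `contDiff_uf`; take the larger constant. -/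
theorem nice_uf (κ : KS) : ∃ K, Nice K (uf κ) := by
  obtain ⟨K, hK, h0, h1, h2, l0, l1, l2⟩ := uf_bounds κ
  obtain ⟨L, hL, hn⟩ := uf_near κ
  have g : ∀ {x y : ℝ}, 0 ≤ y → x ≤ K * y → x ≤ (K + L) * y := by
    intro x y hy hx
    exact hx.trans (mul_le_mul_of_nonneg_right (by linarith) hy)
  have g' : ∀ {x y : ℝ}, 0 ≤ y → x ≤ L * y → x ≤ (K + L) * y := by
    intro x y hy hx
    exact hx.trans (mul_le_mul_of_nonneg_right (by linarith) hy)
  exact ⟨K + L,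
    { pos := by linarith
      df := PE.cd_uf κ 1
      b0 := fun v => by linarith [h0 v]
      b1 := fun v => by linarith [h1 v]
      b2 := fun v => by linarith [h2 v]
      l0 := fun v w => g dist_nonneg (l0 v w)
      l1 := fun v w => g dist_nonneg (l1 v w)
      l2 := fun v w => g dist_nonneg (l2 v w)
      sd := uf_side κ
      cn := fun j v => ⟨g' dist_nonneg (hn j v).1, g' dist_nonneg (hn j v).2.1,
        g' (sq_nonneg _) (hn j v).2.2⟩ }⟩

theorem Nice.mono {K K' : ℝ} {u : P → ℝ} (hu : Nice K u) (h : K ≤ K') : Nice K' u := by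
  have g : ∀ {x y : ℝ}, 0 ≤ y → x ≤ K * y → x ≤ K' * y := by
    intro x y hy hx
    exact hx.trans (mul_le_mul_of_nonneg_right h hy)
  exact
    { pos := lt_of_lt_of_le hu.pos h
      df := hu.df
      b0 := fun v => (hu.b0 v).trans h
      b1 := fun v => (hu.b1 v).trans h
      b2 := fun v => (hu.b2 v).trans h
      l0 := fun v w => g dist_nonneg (hu.l0 v w)
      l1 := fun v w => g dist_nonneg (hu.l1 v w)
      l2 := fun v w => g dist_nonneg (hu.l2 v w)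
      sd := hu.sd
      cn := fun j v => ⟨g dist_nonneg (hu.cn j v).1, g dist_nonneg (hu.cn j v).2.1,
        g (sq_nonneg _) (hu.cn j v).2.2⟩ }

private theorem UGeo_c7 {C r : ℝ} {h : Fin 3 → ℝ → ℝ} (H : Hyp C r h) :
    0 ≤ C * r ^ 7 ∧ C * r ^ 7 ≤ r ^ 3 / 1000000 ∧ r ^ 3 ≤ 1 / 1000 ∧ 0 < r ^ 3 := by
  have h1 := H.rp
  have h2 := H.r1
  have h3 := H.cp
  have h4 := H.cr
  have h5 : 0 < r ^ 3 := by positivity
  have h6 : r ^ 3 ≤ 1 / 1000 := by
    have : r ^ 3 ≤ (1 / 10) ^ 3 := pow_le_pow_left₀ h1.le h2 3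
    linarith
  refine ⟨by positivity, ?_, h6, h5⟩
  have e : C * r ^ 7 = (C * r) * (r ^ 3 * r ^ 3) := by ring
  rw [e]
  have h7 : r ^ 3 * r ^ 3 ≤ 1 / 1000 * r ^ 3 := mul_le_mul_of_nonneg_right h6 h5.le
  have h8 : (C * r) * (r ^ 3 * r ^ 3) ≤ 1 / 1000 * (1 / 1000 * r ^ 3) :=
    mul_le_mul h4 h7 (by positivity) (by norm_num)
  linarith

private theorem UGeo_cont {C r : ℝ} {h : Fin 3 → ℝ → ℝ} (H : Hyp C r h) (i : Fin 3) :
    Continuous (h i) := by
  have h0 : 0 ≤ C * r ^ 4 := mul_nonneg H.cp (pow_nonneg H.rp.le 4)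
  have h1 : LipschitzWith (Real.toNNReal (C * r ^ 4)) (h i) := by
    refine LipschitzWith.of_dist_le_mul fun x y => ?_
    rw [Real.coe_toNNReal _ h0, Real.dist_eq, Real.dist_eq]
    exact H.lp i x y
  exact h1.continuous

/-- Proof. If `tI j v ≥ -τ`, `j ≠ i`, `τ = r ^ 3 / 7`, then `|tI i v|, |tI j v| ≤ τ`
(`C r ^ 7 ≤ τ`), so a corner has distance `≤ 4 τ < r ^ 3` (`dist_cor_le`). The range of `sI i v`:
`near_cor_of_end` with `b = r ^ 3 / 4`, `a = r ^ 3 / 7`, `τ = C r ^ 7 ≤ r ^ 6 / 1000`: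
`r ^ 3 / 4 + 2 r ^ 3 / 7 + 4 C r ^ 7 < r ^ 3`. -/
theorem strip_unique {C r : ℝ} {h : Fin 3 → ℝ → ℝ} (H : Hyp C r h) {v : P}
    (hv : ∀ i, tI i v ≤ C * r ^ 7) (hc : ∀ j, r ^ 3 ≤ dist v (corI j)) {i : Fin 3}
    (hi : -(r ^ 3 / 7) ≤ tI i v) :
    (∀ j, j ≠ i → tI j v < -(r ^ 3 / 7)) ∧ r ^ 3 / 4 < sI i v ∧ sI i v < lenI i - r ^ 3 / 4 := by
  obtain ⟨c0, c1, c2, c3⟩ := UGeo_c7 H
  have key : ¬ (sI i v ≤ r ^ 3 / 4 ∨ lenI i - r ^ 3 / 4 ≤ sI i v) := by
    intro hs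
    obtain ⟨k, hk⟩ := near_cor_of_end i c0 (by linarith : 0 ≤ r ^ 3 / 7)
      (by linarith : 0 ≤ r ^ 3 / 4) hv hi hs
    have := hc k
    linarith
  rw [not_or, not_le, not_le] at key
  refine ⟨fun j hj => ?_, key.1, key.2⟩
  by_contra hcon
  rw [not_lt] at hcon
  obtain ⟨k, hk⟩ := dist_cor_le (Ne.symm hj)
  have h1 : |tI i v| ≤ r ^ 3 / 7 := abs_le.2 ⟨hi, (hv i).trans (by linarith)⟩
  have h2 : |tI j v| ≤ r ^ 3 / 7 := abs_le.2 ⟨hcon, (hv j).trans (by linarith)⟩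
  have h3 := hk v (r ^ 3 / 7) h1 h2
  have := hc k
  linarith

theorem isOpen_EU {C r : ℝ} {h : Fin 3 → ℝ → ℝ} (H : Hyp C r h) : IsOpen (EU h) := by
  have e : EU h = ⋂ i, {v | tI i v < h i (sI i v)} := by
    ext v
    rw [mem_iInter]
    exact Iff.rfl
  rw [e]
  exact isOpen_iInter_of_finite fun i =>
    isOpen_lt (continuous_tI i) ((UGeo_cont H i).comp (continuous_sI i))

/-- The closure is contained in the set with `≤`; on the frontier one of them is an equality. -/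
theorem closure_EU {C r : ℝ} {h : Fin 3 → ℝ → ℝ} (H : Hyp C r h) {v : P}
    (hv : v ∈ closure (EU h)) : ∀ i, tI i v ≤ h i (sI i v) := by
  intro i
  have h1 : IsClosed {w | tI i w ≤ h i (sI i w)} :=
    isClosed_le (continuous_tI i) ((UGeo_cont H i).comp (continuous_sI i))
  have h2 : EU h ⊆ {w | tI i w ≤ h i (sI i w)} := fun w hw => (hw i).le
  exact closure_minimal h2 h1 hv

theorem frontier_EU {C r : ℝ} {h : Fin 3 → ℝ → ℝ} (H : Hyp C r h) {v : P}
    (hv : v ∈ frontier (EU h)) :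
    (∀ i, tI i v ≤ h i (sI i v)) ∧ ∃ i, tI i v = h i (sI i v) := by
  have h1 := closure_EU H hv.1
  refine ⟨h1, ?_⟩
  by_contra hcon
  rw [not_exists] at hcon
  have h2 : v ∈ EU h := fun i => lt_of_le_of_ne (h1 i) (hcon i)
  have h3 := hv.2
  rw [(isOpen_EU H).interior_eq] at h3
  exact h3 h2

private theorem UGeo_graph {g : ℝ → ℝ} (hg : Continuous g) :
    volume {x : P | x.2 = g x.1} = 0 := by
  have hm : MeasurableSet {x : P | x.2 = g x.1} :=
    measurableSet_eq_fun measurable_snd (hg.measurable.comp measurable_fst)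
  rw [Measure.volume_eq_prod, Measure.measure_prod_null hm]
  refine Eventually.of_forall fun x => ?_
  have e : Prod.mk x ⁻¹' {x : P | x.2 = g x.1} = {g x} := by
    ext y
    exact Iff.rfl
  show volume (Prod.mk x ⁻¹' {x : P | x.2 = g x.1}) = 0
  rw [e]
  exact Real.volume_singleton

/-- Proof. The set is contained in three graphs `{v | tI i v = h i (sI i v)}`; in the coordinates of
the side (`mp_ptI`, `me_ptI`) a graph of a continuous function, of measure zero (Fubini,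
`measure_prod_null`). -/
theorem null_frontier_EU {C r : ℝ} {h : Fin 3 → ℝ → ℝ} (H : Hyp C r h) :
    volume (frontier (EU h)) = 0 := by
  have h1 : frontier (EU h) ⊆ ⋃ i, {v | tI i v = h i (sI i v)} := by
    intro v hv
    obtain ⟨i, hi⟩ := (frontier_EU H hv).2
    exact mem_iUnion.2 ⟨i, hi⟩
  refine measure_mono_null h1 (measure_iUnion_null fun i => ?_)
  rw [← (mp_ptI i).measure_preimage_emb (me_ptI i)]
  have e : (fun x : P => ptI i x.1 x.2) ⁻¹' {v | tI i v = h i (sI i v)} =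
      {x : P | x.2 = h i x.1} := by
    ext x
    change tI i (ptI i x.1 x.2) = h i (sI i (ptI i x.1 x.2)) ↔ x.2 = h i x.1
    rw [sI_ptI, tI_ptI]
  rw [e]
  exact UGeo_graph (UGeo_cont H i)

/-- Proof. All `tI i v < 1/1000`; compare `bounded_of_tI`. -/
theorem bounded_EU {C r : ℝ} {h : Fin 3 → ℝ → ℝ} (H : Hyp C r h) :
    ∀ v ∈ EU h, ‖v‖ ≤ 4 := by
  intro v hv
  obtain ⟨c0, c1, c2, c3⟩ := UGeo_c7 H
  have hb : ∀ i, tI i v ≤ 1 / 1000 := by
    intro i
    have h1 := (hv i).le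
    have h2 := (abs_le.1 (H.bd i (sI i v))).2
    linarith
  have h0 : -v.2 ≤ 1 / 1000 := hb 0
  have h1 : v.1 - √3 ≤ 1 / 1000 := hb 1
  have h2 : (-v.1 + √3 * v.2) / 2 ≤ 1 / 1000 := hb 2
  have s2 : √(3 : ℝ) * √3 = 3 := Real.mul_self_sqrt (by norm_num)
  have s0 : 0 < √(3 : ℝ) := by positivity
  have s1 : 1 < √(3 : ℝ) := by nlinarith
  have s3 : √(3 : ℝ) < 9 / 5 := by nlinarith
  have m0 : √3 * (-v.2) ≤ √3 * (1 / 1000) := mul_le_mul_of_nonneg_left h0 s0.le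
  have l1 : -4 ≤ v.1 := by nlinarith
  have u2 : v.2 ≤ 4 := by
    by_contra hcon
    rw [not_le] at hcon
    have : 1 * 4 ≤ √3 * v.2 := mul_le_mul s1.le hcon.le (by norm_num) s0.le
    nlinarith
  rw [Prod.norm_def, Real.norm_eq_abs, Real.norm_eq_abs]
  exact max_le (abs_le.2 ⟨l1, by linarith⟩) (abs_le.2 ⟨by linarith, u2⟩)

theorem le_dmin_iff {v : P} {x : ℝ} : x ≤ dmin v ↔ ∀ j, x ≤ dist v (corI j) := by
  unfold dmin
  rw [le_min_iff, le_min_iff]
  constructor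
  · rintro ⟨h0, h1, h2⟩ j
    fin_cases j
    · exact h0
    · exact h1
    · exact h2
  · intro h
    exact ⟨h 0, h 1, h 2⟩

theorem abs_dmin_sub (v w : P) : |dmin v - dmin w| ≤ dist v w := by
  unfold dmin
  have h : ∀ j, |dist v (corI j) - dist w (corI j)| ≤ dist v w := fun j =>
    abs_dist_sub_le v w (corI j)
  refine (abs_min_sub_min_le_max _ _ _ _).trans (max_le (h 0) ?_)
  exact (abs_min_sub_min_le_max _ _ _ _).trans (max_le (h 1) (h 2))

private theorem UGeo_clip (a b : ℝ) :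
    |max 0 (min 1 a) - max 0 (min 1 b)| ≤ |a - b| := by
  have h1 := abs_max_sub_max_le_max (0 : ℝ) (min 1 a) 0 (min 1 b)
  have h2 := abs_min_sub_min_le_max (1 : ℝ) a 1 b
  rw [sub_self, abs_zero, max_eq_right (abs_nonneg (min 1 a - min 1 b))] at h1
  rw [sub_self, abs_zero, max_eq_right (abs_nonneg (a - b))] at h2
  exact h1.trans h2

/-- `0 ≤ chiU ≤ 1`, `chiU = 0` for `dmin v ≤ r ^ 3`, `chiU = 1` for `dmin v ≥ 2 r ^ 3`. -/
theorem chiU_facts {r : ℝ} (hr : 0 < r) (v : P) : 0 ≤ chiU r v ∧ chiU r v ≤ 1 ∧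
    (dmin v ≤ r ^ 3 → chiU r v = 0) ∧ (2 * r ^ 3 ≤ dmin v → chiU r v = 1) := by
  have h3 : 0 < r ^ 3 := by positivity
  unfold chiU
  refine ⟨le_max_left _ _, max_le zero_le_one (min_le_left _ _), fun h => ?_, fun h => ?_⟩
  · have h4 : dmin v / r ^ 3 ≤ 1 := (div_le_one h3).2 h
    rw [min_eq_right (by linarith), max_eq_left (by linarith)]
  · have h4 : 2 ≤ dmin v / r ^ 3 := (le_div_iff₀ h3).2 h
    rw [min_eq_left (by linarith), max_eq_right zero_le_one]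

theorem chiU_lip {r : ℝ} (hr : 0 < r) (v w : P) : |chiU r v - chiU r w| ≤ dist v w / r ^ 3 := by
  have h3 : 0 < r ^ 3 := by positivity
  refine (UGeo_clip _ _).trans ?_
  have e : dmin v / r ^ 3 - 1 - (dmin w / r ^ 3 - 1) = (dmin v - dmin w) / r ^ 3 := by ring
  rw [e, abs_div, abs_of_pos h3]
  exact div_le_div_of_nonneg_right (abs_dmin_sub v w) h3.le

/-- `0 ≤ thU ≤ 1`, `thU = 1` for `x ≥ -1`, `thU = 0` for `x ≤ -2`, 1-Lipschitz. -/
theorem thU_facts (x : ℝ) : 0 ≤ thU x ∧ thU x ≤ 1 ∧ (-1 ≤ x → thU x = 1) ∧ (x ≤ -2 → thU x = 0) ∧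
    ∀ y, |thU x - thU y| ≤ |x - y| := by
  unfold thU
  refine ⟨le_max_left _ _, max_le zero_le_one (min_le_left _ _), fun h => ?_, fun h => ?_,
    fun y => ?_⟩
  · rw [min_eq_left (by linarith), max_eq_right zero_le_one]
  · rw [min_eq_right (by linarith), max_eq_left (by linarith)]
  · have h1 := UGeo_clip (x + 2) (y + 2)
    rwa [add_sub_add_right_eq_sub] at h1

end Pool.Agent.MP4eed4eI
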