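import Pool.Agent.Lib.MP_4eed4e_an_I.USum
import Pool.Agent.Lib.MP_4eed4e_an_PC.CBase

set_option autoImplicit false

/-!
Project I, block U: the test functions are Lipschitz with compact support in the domain.
-/

namespace Pool.Agent.MP4eed4eI

open Pool.Agent.MP4eed4eP MeasureTheory Set Filter Topology

private theorem ul_cross {E : Set P} (hE : IsOpen E) {x y : P} (hx : x ∈ E) (hy : y ∉ E) :
    ∃ z ∈ frontier E, dist x z ≤ dist x y := by
  have hpre : IsPreconnected (segment ℝ x y) := (convex_segment x y).isPreconnected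
  have hdist : ∀ z ∈ segment ℝ x y, dist x z ≤ dist x y := fun z hz => by
    have h1 := dist_add_dist_of_mem_segment hz
    have h2 := dist_nonneg (x := z) (y := y)
    linarith
  by_contra hcon
  have hnf : ∀ z ∈ segment ℝ x y, z ∉ frontier E := fun z hz hf => hcon ⟨z, hf, hdist z hz⟩
  have key : ∀ z ∈ segment ℝ x y, z ∉ E → z ∉ closure E := fun z hz hzE hc =>
    hnf z hz (by rw [hE.frontier_eq]; exact ⟨hc, hzE⟩)
  have h1 : segment ℝ x y ⊆ E ∪ (closure E)ᶜ := by
    intro z hz
    by_cases hzE : z ∈ E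
    · exact Or.inl hzE
    · exact Or.inr (key z hz hzE)
  obtain ⟨z, -, hz1, hz2⟩ := hpre E (closure E)ᶜ hE isClosed_closure.isOpen_compl h1
    ⟨x, left_mem_segment ℝ x y, hx⟩
    ⟨y, right_mem_segment ℝ x y, key y (right_mem_segment ℝ x y) hy⟩
  exact hz2 (subset_closure hz1)

/-- Proof. For `x, y` on different sides the segment from `x` to `y` meets the frontier
(`exists_mem_frontier...` or connectedness), where `g = 0`. The Lipschitz constant of `g` works. -/
theorem indicator_lip {E : Set P} (hE : IsOpen E) {g : P → ℝ} {L : NNReal} (hg : LipschitzWith L g)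
    (h0 : ∀ x ∈ frontier E, g x = 0) : LipschitzWith L (E.indicator g) := by
  have main : ∀ x ∈ E, ∀ y ∉ E, |g x| ≤ L * dist x y := by
    intro x hx y hy
    obtain ⟨z, hz, hd⟩ := ul_cross hE hx hy
    have h1 := hg.dist_le_mul x z
    rw [Real.dist_eq, h0 z hz, sub_zero] at h1
    exact h1.trans (mul_le_mul_of_nonneg_left hd L.2)
  refine LipschitzWith.of_dist_le_mul fun x y => ?_
  by_cases hx : x ∈ E <;> by_cases hy : y ∈ E
  · rw [indicator_of_mem hx, indicator_of_mem hy]
    exact hg.dist_le_mul x y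
  · rw [indicator_of_mem hx, indicator_of_notMem hy, Real.dist_eq, sub_zero]
    exact main x hx y hy
  · rw [indicator_of_notMem hx, indicator_of_mem hy, Real.dist_eq, zero_sub, abs_neg,
      dist_comm x y]
    exact main y hy x hx
  · rw [indicator_of_notMem hx, indicator_of_notMem hy, dist_self]
    exact mul_nonneg L.2 dist_nonneg

private theorem ul_mk {f : P → ℝ} {M : ℝ} (hM : 0 ≤ M)
    (h : ∀ v w, |f v - f w| ≤ M * dist v w) : ∃ L : NNReal, LipschitzWith L f :=
  ⟨⟨M, hM⟩, LipschitzWith.of_dist_le_mul fun v w => by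
    rw [Real.dist_eq]
    exact h v w⟩

/-- Proof. `chiU` is bounded by one and Lipschitz; `u - SU` is bounded and Lipschitz. -/
theorem GU_lip {C K r : ℝ} {h : Fin 3 → ℝ → ℝ} {u : P → ℝ} (H : Hyp C r h) (hu : Nice K u) :
    ∃ L : NNReal, LipschitzWith L (GU r h u) := by
  obtain ⟨C', hC', hS⟩ := SU_bounds C K
  obtain ⟨-, -, h3, h4⟩ := hS r h u H hu
  have hr := H.rp
  have hK := hu.pos
  have hb : ∀ v, |u v - SU r h u v| ≤ K + C' * r ^ 7 := fun v => by
    have h5 := abs_sub (u v) (SU r h u v)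
    have h6 := hu.b0 v
    have h7 := h3 v
    linarith
  have hl : ∀ v w, |(u v - SU r h u v) - (u w - SU r h u w)| ≤ (K + C' * r ^ 4) * dist v w := by
    intro v w
    have h5 : (u v - SU r h u v) - (u w - SU r h u w) =
        (u v - u w) - (SU r h u v - SU r h u w) := by ring
    rw [h5]
    have h6 := abs_sub (u v - u w) (SU r h u v - SU r h u w)
    have h7 := hu.l0 v w
    have h8 := h4 v w
    linarith
  refine ul_mk (M := (K + C' * r ^ 7) / r ^ 3 + (K + C' * r ^ 4)) (by positivity) fun v w => ?_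
  have h5 : GU r h u v - GU r h u w =
      (chiU r v - chiU r w) * (u v - SU r h u v) +
        chiU r w * ((u v - SU r h u v) - (u w - SU r h u w)) := by
    simp only [GU]
    ring
  rw [h5]
  have h6 : |(chiU r v - chiU r w) * (u v - SU r h u v)| ≤
      (dist v w / r ^ 3) * (K + C' * r ^ 7) := by
    rw [abs_mul]
    exact mul_le_mul (chiU_lip hr v w) (hb v) (abs_nonneg _) (by positivity)
  have h7 : |chiU r w * ((u v - SU r h u v) - (u w - SU r h u w))| ≤
      1 * ((K + C' * r ^ 4) * dist v w) := by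
    rw [abs_mul]
    have h8 := chiU_facts hr w
    refine mul_le_mul ?_ (hl v w) (abs_nonneg _) zero_le_one
    rw [abs_of_nonneg h8.1]
    exact h8.2.1
  refine (abs_add_le _ _).trans ((add_le_add h6 h7).trans (le_of_eq ?_))
  field_simp

theorem GU_eq (r : ℝ) (h : Fin 3 → ℝ → ℝ) (u : P → ℝ) (v : P) :
    GU r h u v = u v - HU r h u v := by
  simp only [GU, HU]
  ring

theorem HU_lip {C K r : ℝ} {h : Fin 3 → ℝ → ℝ} {u : P → ℝ} (H : Hyp C r h) (hu : Nice K u) :
    ∃ L : NNReal, LipschitzWith L (HU r h u) := by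
  obtain ⟨L, hL⟩ := GU_lip H hu
  refine ul_mk (M := K + L) (add_nonneg hu.pos.le L.2) fun v w => ?_
  have h1 := GU_eq r h u v
  have h2 := GU_eq r h u w
  have h3 : HU r h u v - HU r h u w = (u v - u w) - (GU r h u v - GU r h u w) := by
    rw [h1, h2]
    ring
  rw [h3]
  have h4 := abs_sub (u v - u w) (GU r h u v - GU r h u w)
  have h5 := hu.l0 v w
  have h6 := hL.dist_le_mul v w
  rw [Real.dist_eq] at h6
  linarith

private theorem ul_small {C r : ℝ} {h : Fin 3 → ℝ → ℝ} (H : Hyp C r h) :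
    C * r ^ 7 ≤ r ^ 3 / 1000 := by
  have hr := H.rp
  have h1 : C * r ^ 7 = (C * r) * r ^ 6 := by ring
  have h2 : r ^ 6 ≤ r ^ 3 := pow_le_pow_of_le_one hr.le (by linarith [H.r1]) (by norm_num)
  have h3 : (C * r) * r ^ 6 ≤ 1 / 1000 * r ^ 6 :=
    mul_le_mul_of_nonneg_right H.cr (by positivity)
  linarith

/-- Proof. `frontier_EU`: `tI i v = h i (sI i v)` for some `i`. If `dmin v ≤ r ^ 3`, `chiU = 0`.
Otherwise `strip_unique` (`tI i v ≥ -C r ^ 7 ≥ -r ^ 3 / 7`): `tI j v < -r ^ 3 / 7`, so
`16 tI j v / r ^ 3 ≤ -2` and `S1 j = 0` for `j ≠ i`; `16 tI i v / r ^ 3 ≥ -1`, so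
`S1 i v = u (ptI i (sI i v) (tI i v)) = u v` (`ptI_sI_tI`). -/
theorem GU_frontier {C K r : ℝ} {h : Fin 3 → ℝ → ℝ} {u : P → ℝ} (H : Hyp C r h) (hu : Nice K u)
    {v : P} (hv : v ∈ frontier (EU h)) : GU r h u v = 0 := by
  obtain ⟨hle, i, hi⟩ := frontier_EU H hv
  have hr := H.rp
  have hr3 : 0 < r ^ 3 := by positivity
  have hsm := ul_small H
  by_cases hd : dmin v ≤ r ^ 3
  · rw [GU, (chiU_facts hr v).2.2.1 hd, zero_mul]
  have hc : ∀ j, r ^ 3 ≤ dist v (corI j) := le_dmin_iff.1 (not_le.1 hd).le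
  have hv' : ∀ j, tI j v ≤ C * r ^ 7 := fun j =>
    (hle j).trans ((le_abs_self _).trans (H.bd j _))
  have hi' : -(r ^ 3 / 1000) ≤ tI i v := by
    rw [hi]
    have h1 := neg_abs_le (h i (sI i v))
    have h2 := H.bd i (sI i v)
    linarith
  obtain ⟨hj, -⟩ := strip_unique H hv' hc (i := i) (by linarith)
  have hS : SU r h u v = u v := by
    rw [SU, Finset.sum_eq_single i]
    · have h1 : thU (16 * tI i v / r ^ 3) = 1 := by
        refine (thU_facts _).2.2.1 ?_
        rw [le_div_iff₀ hr3]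
        linarith
      rw [S1, h1, mul_one, ← hi, ptI_sI_tI]
    · intro j _ hji
      have h1 : thU (16 * tI j v / r ^ 3) = 0 := by
        refine (thU_facts _).2.2.2.1 ?_
        rw [div_le_iff₀ hr3]
        have := hj j hji
        linarith
      rw [S1, h1, mul_zero]
    · intro hi2
      exact absurd (Finset.mem_univ i) hi2
  rw [GU, hS, sub_self, mul_zero]

private theorem ul_cont_dmin : Continuous dmin := by
  have h : LipschitzWith 1 dmin := LipschitzWith.of_dist_le_mul fun v w => by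
    rw [Real.dist_eq, NNReal.coe_one, one_mul]
    exact abs_dmin_sub v w
  exact h.continuous

/-- Proof. The support is contained in `closure (EU h) ∩ {v | r ^ 3 ≤ dmin v}`, a compact set
(`bounded_EU`), contained in `D` by hypothesis. -/
theorem WU_lipC {C K r : ℝ} {h : Fin 3 → ℝ → ℝ} {u : P → ℝ} (H : Hyp C r h) (hu : Nice K u)
    {D : Set P} (hD : ∀ v, (∀ i, tI i v ≤ h i (sI i v)) → (∀ j, r ^ 3 ≤ dist v (corI j)) → v ∈ D) :
    LipC D (WU r h u) := by
  obtain ⟨L, hL⟩ := GU_lip H hu
  refine ⟨⟨L, indicator_lip (isOpen_EU H) hL fun x hx => GU_frontier H hu hx⟩, ?_, ?_⟩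
  · refine HasCompactSupport.intro (isCompact_closedBall (0 : P) 4) fun v hv => ?_
    refine indicator_of_notMem (fun hE => hv ?_) _
    rw [mem_closedBall_zero_iff]
    exact bounded_EU H v hE
  · intro v hv
    have h1 : Function.support (WU r h u) ⊆ EU h ∩ {w | r ^ 3 ≤ dmin w} := by
      intro w hw
      have hE : w ∈ EU h := by
        by_contra hE
        exact hw (indicator_of_notMem hE _)
      refine ⟨hE, ?_⟩
      by_contra hd
      refine hw ?_
      rw [WU, indicator_of_mem hE, GU, (chiU_facts H.rp w).2.2.1 (not_le.1 hd).le, zero_mul]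
    have h2 : v ∈ closure (EU h) ∩ {w | r ^ 3 ≤ dmin w} := by
      have h3 : v ∈ closure (EU h ∩ {w | r ^ 3 ≤ dmin w}) := closure_mono h1 hv
      refine ⟨closure_mono inter_subset_left h3, ?_⟩
      have h4 : IsClosed {w : P | r ^ 3 ≤ dmin w} := isClosed_le continuous_const ul_cont_dmin
      exact h4.closure_subset (closure_mono inter_subset_right h3)
    exact hD v (closure_EU H h2.1) (le_dmin_iff.1 h2.2)

theorem WU_add (r : ℝ) (h : Fin 3 → ℝ → ℝ) (u u' : P → ℝ) :
    WU r h (u + u') = WU r h u + WU r h u' := by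
  have hS : ∀ v, SU r h (u + u') v = SU r h u v + SU r h u' v := fun v => by
    simp only [SU, S1, Pi.add_apply, add_mul, Finset.sum_add_distrib]
  have hG : GU r h (u + u') = GU r h u + GU r h u' := by
    funext v
    simp only [GU, Pi.add_apply, hS v]
    ring
  rw [WU, WU, WU, hG, indicator_add']

theorem WU_smul (r : ℝ) (h : Fin 3 → ℝ → ℝ) (c : ℝ) (u : P → ℝ) :
    WU r h (c • u) = c • WU r h u := by
  have hS : ∀ v, SU r h (c • u) v = c * SU r h u v := fun v => by
    simp only [SU, S1, Pi.smul_apply, smul_eq_mul, Finset.mul_sum, mul_assoc]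
  have hG : GU r h (c • u) = c • GU r h u := by
    funext v
    simp only [GU, Pi.smul_apply, smul_eq_mul, hS v]
    ring
  rw [WU, WU, hG]
  exact indicator_const_smul (EU h) c (GU r h u)

/-- Proof. `WU = u - HU` near a point of the open set `EU h`; `HU` is differentiable almost
everywhere. Outside the closure `WU = 0`; the frontier is a null set. -/
theorem grad_WU {C K r : ℝ} {h : Fin 3 → ℝ → ℝ} {u : P → ℝ} (H : Hyp C r h) (hu : Nice K u) :
    ∀ᵐ v : P, (v ∈ EU h → d1 (WU r h u) v = d1 u v - d1 (HU r h u) v ∧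
      d2 (WU r h u) v = d2 u v - d2 (HU r h u) v) ∧
      (v ∉ EU h → d1 (WU r h u) v = 0 ∧ d2 (WU r h u) v = 0) := by
  obtain ⟨L, hL⟩ := HU_lip H hu
  have hn : ∀ᵐ v : P, v ∉ frontier (EU h) :=
    measure_eq_zero_iff_ae_notMem.1 (null_frontier_EU H)
  filter_upwards [ae_diff hL, hn] with v hv hf
  refine ⟨fun hE => ?_, fun hE => ?_⟩
  · have he : WU r h u =ᶠ[𝓝 v] fun w => u w - HU r h u w := by
      filter_upwards [(isOpen_EU H).mem_nhds hE] with w hw
      rw [WU, indicator_of_mem hw, GU_eq]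
    have hu' : DifferentiableAt ℝ u v := (hu.df.differentiable one_ne_zero) v
    have hd : fderiv ℝ (WU r h u) v = fderiv ℝ u v - fderiv ℝ (HU r h u) v := by
      rw [he.fderiv_eq]
      exact fderiv_fun_sub hu' hv
    simp only [d1, d2, hd]
    exact ⟨rfl, rfl⟩
  · have hcl : v ∉ closure (EU h) := fun hc => hf (by
      rw [(isOpen_EU H).frontier_eq]
      exact ⟨hc, hE⟩)
    have he : WU r h u =ᶠ[𝓝 v] fun _ => (0 : ℝ) := by
      filter_upwards [isClosed_closure.isOpen_compl.mem_nhds hcl] with w hw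
      exact indicator_of_notMem (fun h' => hw (subset_closure h')) _
    have hd : fderiv ℝ (WU r h u) v = 0 := by
      rw [he.fderiv_eq]
      simp
    simp [d1, d2, hd]

end Pool.Agent.MP4eed4eI
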