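import Pool.Agent.Lib.MP_4eed4e_an_I.ULip

set_option autoImplicit false

/-!
Project I, block U: pointwise bounds of the correction.
-/

namespace Pool.Agent.MP4eed4eI

open Pool.Agent.MP4eed4eP MeasureTheory Set Filter Topology

/-- Proof. `norm_fderiv_le_of_lipschitzOn` (on a ball around `v` inside `U`), `‖(1,0)‖ = 1`. -/
theorem d_le_of_local {U : Set P} (hU : IsOpen U) {f : P → ℝ} {L : ℝ} (hL : 0 ≤ L)
    (h : ∀ v ∈ U, ∀ w ∈ U, |f v - f w| ≤ L * dist v w) {v : P} (hv : v ∈ U) :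
    |d1 f v| ≤ L ∧ |d2 f v| ≤ L := by
  have h1 : ‖fderiv ℝ f v‖ ≤ L := by
    refine norm_fderiv_le_of_lip' ℝ hL ?_
    filter_upwards [hU.mem_nhds hv] with x hx
    rw [Real.norm_eq_abs, ← dist_eq_norm]
    exact h x hx v hv
  constructor
  · have h2 := (fderiv ℝ f v).le_opNorm (1, 0)
    have h3 : ‖((1 : ℝ), (0 : ℝ))‖ = 1 := by simp [Prod.norm_def]
    rw [h3, mul_one] at h2
    exact h2.trans h1
  · have h2 := (fderiv ℝ f v).le_opNorm (0, 1)
    have h3 : ‖((0 : ℝ), (1 : ℝ))‖ = 1 := by simp [Prod.norm_def]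
    rw [h3, mul_one] at h2
    exact h2.trans h1

private theorem UPt_op (A : P →L[ℝ] ℝ) : ‖A‖ ≤ |A (1, 0)| + |A (0, 1)| := by
  refine A.opNorm_le_bound (by positivity) fun x => ?_
  obtain ⟨a, b⟩ := x
  have h1 : ((a, b) : P) = a • ((1, 0) : P) + b • ((0, 1) : P) := by
    simp
  have ha : |a| ≤ ‖((a, b) : P)‖ := by
    rw [Prod.norm_def]
    exact le_max_left _ _
  have hb : |b| ≤ ‖((a, b) : P)‖ := by
    rw [Prod.norm_def]
    exact le_max_right _ _
  have h2 : A (a, b) = a * A (1, 0) + b * A (0, 1) := by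
    rw [h1, map_add, map_smul, map_smul, smul_eq_mul, smul_eq_mul]
  rw [h2, Real.norm_eq_abs]
  calc |a * A (1, 0) + b * A (0, 1)| ≤ |a * A (1, 0)| + |b * A (0, 1)| := abs_add_le _ _
    _ = |A (1, 0)| * |a| + |A (0, 1)| * |b| := by rw [abs_mul, abs_mul]; ring
    _ ≤ |A (1, 0)| * ‖((a, b) : P)‖ + |A (0, 1)| * ‖((a, b) : P)‖ :=
        add_le_add (mul_le_mul_of_nonneg_left ha (abs_nonneg _))
          (mul_le_mul_of_nonneg_left hb (abs_nonneg _))
    _ = (|A (1, 0)| + |A (0, 1)|) * ‖((a, b) : P)‖ := by ring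

private theorem UPt_lip {K : ℝ} {u : P → ℝ} (hu : Nice K u) (j : Fin 3) {ρ : ℝ} :
    ∀ x ∈ Metric.ball (corI j) ρ, ∀ y ∈ Metric.ball (corI j) ρ,
      |u x - u y| ≤ 2 * K * ρ * dist x y := by
  intro x hx y hy
  have hK := hu.pos
  have h1 : ∀ z ∈ Metric.ball (corI j) ρ, ‖fderiv ℝ u z‖ ≤ 2 * K * ρ := by
    intro z hz
    have hz : dist z (corI j) < ρ := hz
    have h2 := hu.cn j z
    have h3 : K * dist z (corI j) ≤ K * ρ := mul_le_mul_of_nonneg_left hz.le hK.le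
    refine (UPt_op _).trans ?_
    have h4 : |fderiv ℝ u z (1, 0)| ≤ K * dist z (corI j) := h2.1
    have h5 : |fderiv ℝ u z (0, 1)| ≤ K * dist z (corI j) := h2.2.1
    linarith
  have h6 := (convex_ball (corI j) ρ).norm_image_sub_le_of_norm_fderiv_le
    (𝕜 := ℝ) (f := u) (fun z _ => (hu.df.differentiable (by norm_num)).differentiableAt) h1 hy hx
  rw [Real.norm_eq_abs, ← dist_eq_norm] at h6
  exact h6

private theorem UPt_pow {r : ℝ} (hr : 0 < r) (hr1 : r ≤ 1 / 10) {a b : ℕ} (hab : a ≤ b) :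
    r ^ b ≤ r ^ a :=
  pow_le_pow_of_le_one hr.le (by linarith) hab

/-- Near a corner.

Proof. Let `j` be a corner with `dist v (corI j) < 3 r ^ 3`, `U` the ball. On `U`:
`|u| ≤ 9 K r ^ 6`, `u` has Lipschitz constant `6 K r ^ 3` (`|d1 u|, |d2 u| ≤ 3 K r ^ 3`, convexity),
`chiU` has Lipschitz constant `1 / r ^ 3`, and `SU_bounds`. So `HU` is Lipschitz on `U` with
constant `9 K r ^ 3 + 6 K r ^ 3 + C'' r ^ 4 + C'' r ^ 4`, and `|HU| ≤ 9 K r ^ 6 + C'' r ^ 7`. -/
theorem HU_corner (C K : ℝ) : ∃ C' : ℝ, 0 < C' ∧ ∀ (r : ℝ) (h : Fin 3 → ℝ → ℝ) (u : P → ℝ),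
    Hyp C r h → Nice K u → ∀ v, dmin v < 3 * r ^ 3 →
    |d1 (HU r h u) v| ≤ C' * r ^ 3 ∧ |d2 (HU r h u) v| ≤ C' * r ^ 3 ∧
      |HU r h u v| ≤ C' * r ^ 3 := by
  obtain ⟨D, hD, hS⟩ := SU_bounds C K
  refine ⟨15 * |K| + 2 * D, by positivity, ?_⟩
  intro r h u H hu v hv
  obtain ⟨-, -, hS1, hS2⟩ := hS r h u H hu
  have hr := H.rp
  have hr3 : 0 < r ^ 3 := by positivity
  have hK := hu.pos
  rw [abs_of_pos hK]
  obtain ⟨j, hj⟩ : ∃ j, dist v (corI j) < 3 * r ^ 3 := by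
    by_contra hcon
    push Not at hcon
    exact absurd (le_dmin_iff.2 hcon) (not_le.2 hv)
  have hu9 : ∀ x ∈ Metric.ball (corI j) (3 * r ^ 3), |u x| ≤ 9 * K * r ^ 6 := by
    intro x hx
    have hx : dist x (corI j) < 3 * r ^ 3 := hx
    refine (hu.cn j x).2.2.trans ?_
    calc K * dist x (corI j) ^ 2 ≤ K * (3 * r ^ 3) ^ 2 :=
          mul_le_mul_of_nonneg_left (pow_le_pow_left₀ dist_nonneg hx.le 2) hK.le
      _ = 9 * K * r ^ 6 := by ring
  have hp43 : r ^ 4 ≤ r ^ 3 := UPt_pow hr H.r1 (by norm_num)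
  have hp63 : r ^ 6 ≤ r ^ 3 := UPt_pow hr H.r1 (by norm_num)
  have hp73 : r ^ 7 ≤ r ^ 3 := UPt_pow hr H.r1 (by norm_num)
  have key : ∀ x ∈ Metric.ball (corI j) (3 * r ^ 3), ∀ y ∈ Metric.ball (corI j) (3 * r ^ 3),
      |HU r h u x - HU r h u y| ≤ (15 * K + 2 * D) * r ^ 3 * dist x y := by
    intro x hx y hy
    have e : HU r h u x - HU r h u y = (1 - chiU r x) * (u x - u y) +
        (-(chiU r x - chiU r y)) * u y + chiU r x * (SU r h u x - SU r h u y) +
        (chiU r x - chiU r y) * SU r h u y := by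
      unfold HU
      ring
    have hd : 0 ≤ dist x y := dist_nonneg
    obtain ⟨c0, c1, -, -⟩ := chiU_facts hr x
    have hc := chiU_lip hr x y
    have t1 : |(1 - chiU r x) * (u x - u y)| ≤ 6 * K * r ^ 3 * dist x y := by
      rw [abs_mul, abs_of_nonneg (by linarith : (0 : ℝ) ≤ 1 - chiU r x)]
      have := UPt_lip hu j x hx y hy
      calc (1 - chiU r x) * |u x - u y| ≤ 1 * |u x - u y| :=
            mul_le_mul_of_nonneg_right (by linarith) (abs_nonneg _)
        _ ≤ 6 * K * r ^ 3 * dist x y := by linarith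
    have t2 : |(-(chiU r x - chiU r y)) * u y| ≤ 9 * K * r ^ 3 * dist x y := by
      rw [abs_mul, abs_neg]
      calc |chiU r x - chiU r y| * |u y| ≤ dist x y / r ^ 3 * (9 * K * r ^ 6) :=
            mul_le_mul hc (hu9 y hy) (abs_nonneg _) (by positivity)
        _ = 9 * K * r ^ 3 * dist x y := by
            field_simp
    have t3 : |chiU r x * (SU r h u x - SU r h u y)| ≤ D * r ^ 3 * dist x y := by
      rw [abs_mul, abs_of_nonneg c0]
      calc chiU r x * |SU r h u x - SU r h u y| ≤ 1 * |SU r h u x - SU r h u y| :=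
            mul_le_mul_of_nonneg_right c1 (abs_nonneg _)
        _ ≤ D * r ^ 4 * dist x y := by linarith [hS2 x y]
        _ ≤ D * r ^ 3 * dist x y := by
            refine mul_le_mul_of_nonneg_right ?_ hd
            exact mul_le_mul_of_nonneg_left hp43 hD.le
    have t4 : |(chiU r x - chiU r y) * SU r h u y| ≤ D * r ^ 3 * dist x y := by
      rw [abs_mul]
      calc |chiU r x - chiU r y| * |SU r h u y| ≤ dist x y / r ^ 3 * (D * r ^ 7) :=
            mul_le_mul hc (hS1 y) (abs_nonneg _) (by positivity)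
        _ = D * r ^ 4 * dist x y := by
            field_simp
        _ ≤ D * r ^ 3 * dist x y := by
            refine mul_le_mul_of_nonneg_right ?_ hd
            exact mul_le_mul_of_nonneg_left hp43 hD.le
    rw [e]
    calc |(1 - chiU r x) * (u x - u y) + (-(chiU r x - chiU r y)) * u y +
          chiU r x * (SU r h u x - SU r h u y) + (chiU r x - chiU r y) * SU r h u y|
        ≤ |(1 - chiU r x) * (u x - u y)| + |(-(chiU r x - chiU r y)) * u y| +
          |chiU r x * (SU r h u x - SU r h u y)| + |(chiU r x - chiU r y) * SU r h u y| := by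
          refine (abs_add_le _ _).trans (add_le_add_left ?_ _)
          refine (abs_add_le _ _).trans (add_le_add_left ?_ _)
          exact abs_add_le _ _
      _ ≤ (15 * K + 2 * D) * r ^ 3 * dist x y := by linarith
  have hb := d_le_of_local Metric.isOpen_ball (by positivity) key (v := v) hj
  refine ⟨hb.1, hb.2, ?_⟩
  obtain ⟨c0, c1, -, -⟩ := chiU_facts hr v
  have hv9 := hu9 v hj
  have hs := hS1 v
  unfold HU
  calc |(1 - chiU r v) * u v + chiU r v * SU r h u v|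
      ≤ |(1 - chiU r v) * u v| + |chiU r v * SU r h u v| := abs_add_le _ _
    _ = (1 - chiU r v) * |u v| + chiU r v * |SU r h u v| := by
        rw [abs_mul, abs_mul, abs_of_nonneg (by linarith : (0 : ℝ) ≤ 1 - chiU r v),
          abs_of_nonneg c0]
    _ ≤ 1 * |u v| + 1 * |SU r h u v| :=
        add_le_add (mul_le_mul_of_nonneg_right (by linarith) (abs_nonneg _))
          (mul_le_mul_of_nonneg_right c1 (abs_nonneg _))
    _ ≤ 9 * K * r ^ 6 + D * r ^ 7 := by linarith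
    _ ≤ 9 * K * r ^ 3 + D * r ^ 3 :=
        add_le_add (mul_le_mul_of_nonneg_left hp63 (by positivity))
          (mul_le_mul_of_nonneg_left hp73 hD.le)
    _ ≤ (15 * K + 2 * D) * r ^ 3 := by nlinarith [mul_pos hK hr3, mul_pos hD hr3]

private theorem UPt_cont : Continuous dmin := by
  refine Metric.continuous_iff.2 fun v ε hε => ⟨ε, hε, fun w hw => ?_⟩
  rw [Real.dist_eq]
  exact lt_of_le_of_lt (abs_dmin_sub w v) hw

/-- In the strips and in the interior.

Proof. The set `{dmin > 2 r ^ 3}` is open and `chiU = 1`, `HU = SU` there: `SU_bounds`,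
`d_le_of_local`. -/
theorem HU_strip (C K : ℝ) : ∃ C' : ℝ, 0 < C' ∧ ∀ (r : ℝ) (h : Fin 3 → ℝ → ℝ) (u : P → ℝ),
    Hyp C r h → Nice K u → ∀ v, 2 * r ^ 3 < dmin v →
    |d1 (HU r h u) v| ≤ C' * r ^ 4 ∧ |d2 (HU r h u) v| ≤ C' * r ^ 4 ∧
      |HU r h u v| ≤ C' * r ^ 4 := by
  obtain ⟨D, hD, hS⟩ := SU_bounds C K
  refine ⟨D, hD, ?_⟩
  intro r h u H hu v hv
  obtain ⟨-, -, hS1, hS2⟩ := hS r h u H hu
  have hr := H.rp
  have hU : IsOpen {w : P | 2 * r ^ 3 < dmin w} := isOpen_Ioi.preimage UPt_cont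
  have hH : ∀ w ∈ {w : P | 2 * r ^ 3 < dmin w}, HU r h u w = SU r h u w := by
    intro w hw
    have hw : 2 * r ^ 3 < dmin w := hw
    unfold HU
    rw [(chiU_facts hr w).2.2.2 hw.le]
    ring
  have key : ∀ x ∈ {w : P | 2 * r ^ 3 < dmin w}, ∀ y ∈ {w : P | 2 * r ^ 3 < dmin w},
      |HU r h u x - HU r h u y| ≤ D * r ^ 4 * dist x y := by
    intro x hx y hy
    rw [hH x hx, hH y hy]
    exact hS2 x y
  have hb := d_le_of_local hU (by positivity) key (v := v) hv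
  refine ⟨hb.1, hb.2, ?_⟩
  rw [hH v hv]
  exact (hS1 v).trans (mul_le_mul_of_nonneg_left (UPt_pow hr H.r1 (by norm_num)) hD.le)

/-- Proof. In the open set `{dmin > 2 r ^ 3} ∩ {∀ i, tI i v < -(r ^ 3 / 8)}` all `S1` vanish, so
`HU = 0` near `v`. -/
theorem HU_inner {C K r : ℝ} {h : Fin 3 → ℝ → ℝ} {u : P → ℝ} (H : Hyp C r h) (hu : Nice K u) {v : P}
    (h2 : 2 * r ^ 3 < dmin v) (hv : ∀ i, tI i v < -(r ^ 3 / 8)) :
    d1 (HU r h u) v = 0 ∧ d2 (HU r h u) v = 0 ∧ HU r h u v = 0 := by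
  have hr := H.rp
  have hr3 : 0 < r ^ 3 := by positivity
  have hU : IsOpen ({w : P | 2 * r ^ 3 < dmin w} ∩ ⋂ i, {w : P | tI i w < -(r ^ 3 / 8)}) :=
    (isOpen_Ioi.preimage UPt_cont).inter
      (isOpen_iInter_of_finite fun i => isOpen_Iio.preimage (continuous_tI i))
  have hH : ∀ w ∈ {w : P | 2 * r ^ 3 < dmin w} ∩ ⋂ i, {w : P | tI i w < -(r ^ 3 / 8)},
      HU r h u w = 0 := by
    rintro w ⟨hw, hw2⟩
    have hw : 2 * r ^ 3 < dmin w := hw
    have hw3 : ∀ i, tI i w < -(r ^ 3 / 8) := fun i => mem_iInter.1 hw2 i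
    unfold HU
    rw [(chiU_facts hr w).2.2.2 hw.le]
    have hs : SU r h u w = 0 := by
      unfold SU
      refine Finset.sum_eq_zero fun i _ => ?_
      unfold S1
      have : 16 * tI i w / r ^ 3 ≤ -2 := by
        rw [div_le_iff₀ hr3]
        linarith [hw3 i]
      rw [(thU_facts _).2.2.2.1 this, mul_zero]
    rw [hs]
    ring
  have hvU : v ∈ {w : P | 2 * r ^ 3 < dmin w} ∩ ⋂ i, {w : P | tI i w < -(r ^ 3 / 8)} :=
    ⟨h2, mem_iInter.2 hv⟩
  have hb := d_le_of_local hU (f := HU r h u) (L := 0) le_rfl (by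
    intro x hx y hy
    rw [hH x hx, hH y hy]
    simp) hvU
  exact ⟨abs_nonpos_iff.1 hb.1, abs_nonpos_iff.1 hb.2, hH v hvU⟩

end Pool.Agent.MP4eed4eI
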