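import Pool.Agent.Lib.MP_4eed4e_an_I.UGeo

set_option autoImplicit false

/-!
Project I, block U: the difference of the domain `EU h` and the triangle `T0`.
-/

namespace Pool.Agent.MP4eed4eI

open Pool.Agent.MP4eed4eP MeasureTheory Set Filter Topology

/-- The part of `EU h` outside `T0` along the side `i`. -/
def FpU (h : Fin 3 → ℝ → ℝ) (i : Fin 3) : Set P :=
  {v | 0 < sI i v ∧ sI i v < lenI i ∧ 0 ≤ tI i v ∧ tI i v < h i (sI i v)}

/-- The part of `T0` outside `EU h` along the side `i`. -/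
def FmU (h : Fin 3 → ℝ → ℝ) (i : Fin 3) : Set P :=
  {v | 0 < sI i v ∧ sI i v < lenI i ∧ h i (sI i v) ≤ tI i v ∧ tI i v < 0}

private theorem UReg_c7 {C r : ℝ} {h : Fin 3 → ℝ → ℝ} (H : Hyp C r h) :
    0 ≤ C * r ^ 7 ∧ C * r ^ 7 < r ^ 3 / 7 ∧ 0 < r ^ 3 := by
  have h1 := H.rp
  have h2 := H.r1
  have h3 := H.cp
  have h4 := H.cr
  have h5 : 0 < r ^ 3 := by positivity
  have h6 : r ^ 3 ≤ 1 / 1000 := by
    have : r ^ 3 ≤ (1 / 10) ^ 3 := pow_le_pow_left₀ h1.le h2 3
    linarith
  refine ⟨by positivity, ?_, h5⟩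
  have e : C * r ^ 7 = (C * r) * (r ^ 3 * r ^ 3) := by ring
  rw [e]
  have h7 : r ^ 3 * r ^ 3 ≤ 1 / 1000 * r ^ 3 := mul_le_mul_of_nonneg_right h6 h5.le
  have h8 : (C * r) * (r ^ 3 * r ^ 3) ≤ 1 / 1000 * (1 / 1000 * r ^ 3) :=
    mul_le_mul h4 h7 (by positivity) (by norm_num)
  linarith

private theorem UReg_cont {C r : ℝ} {h : Fin 3 → ℝ → ℝ} (H : Hyp C r h) (i : Fin 3) :
    Continuous (h i) := by
  have h0 : 0 ≤ C * r ^ 4 := mul_nonneg H.cp (pow_nonneg H.rp.le 4)
  have h1 : LipschitzWith (Real.toNNReal (C * r ^ 4)) (h i) := by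
    refine LipschitzWith.of_dist_le_mul fun x y => ?_
    rw [Real.coe_toNNReal _ h0, Real.dist_eq, Real.dist_eq]
    exact H.lp i x y
  exact h1.continuous

/-- Proof. With `v = ptI m s t`: `m = 0`: `(s, -t)`, `tI 1 = s - √3 < 0`, `tI 2 = (-s - √3 t) / 2`;
`m = 1`: `(√3 + t, s)`, `tI 0 = -s`, `tI 2 = (-√3 - t + √3 s) / 2`; `m = 2`: `tI 0 = -(s + √3 t)
/ 2`,
`tI 1 = (√3 s - t) / 2 - √3`. -/
theorem tI_other {m : Fin 3} {v : P} (h0 : 0 < sI m v) (h1 : sI m v < lenI m) (j : Fin 3) :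
    tI j v ≤ |tI m v| := by
  have s0 : 0 < √(3 : ℝ) := by positivity
  have s2 : √(3 : ℝ) * √3 = 3 := Real.mul_self_sqrt (by norm_num)
  have s3 : √(3 : ℝ) ≤ 2 := by nlinarith
  have ha := abs_nonneg (tI m v)
  have hb := le_abs_self (tI m v)
  have hd := neg_le_abs (tI m v)
  have he : √(3 : ℝ) * |tI m v| ≤ 2 * |tI m v| := mul_le_mul_of_nonneg_right s3 ha
  have hf : √(3 : ℝ) * tI m v ≤ √3 * |tI m v| := mul_le_mul_of_nonneg_left hb s0.le
  have hg : √(3 : ℝ) * -tI m v ≤ √3 * |tI m v| := mul_le_mul_of_nonneg_left hd s0.le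
  generalize hA : |tI m v| = A at *
  fin_cases m
  · change 0 < v.1 at h0
    change v.1 < √3 at h1
    change 0 ≤ A at ha
    change -v.2 ≤ A at hb
    change - -v.2 ≤ A at hd
    change √3 * - -v.2 ≤ √3 * A at hg
    fin_cases j
    · exact hb
    · change v.1 - √3 ≤ A
      linarith
    · change (-v.1 + √3 * v.2) / 2 ≤ A
      linarith
  · change 0 < v.2 at h0
    change v.2 < 1 at h1
    change 0 ≤ A at ha
    change v.1 - √3 ≤ A at hb
    change -(v.1 - √3) ≤ A at hd
    have h2 : √3 * v.2 ≤ √3 * 1 := mul_le_mul_of_nonneg_left h1.le s0.le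
    fin_cases j
    · change -v.2 ≤ A
      linarith
    · exact hb
    · change (-v.1 + √3 * v.2) / 2 ≤ A
      linarith
  · change 0 < (√3 * v.1 + v.2) / 2 at h0
    change (√3 * v.1 + v.2) / 2 < 2 at h1
    change 0 ≤ A at ha
    change (-v.1 + √3 * v.2) / 2 ≤ A at hb
    change -((-v.1 + √3 * v.2) / 2) ≤ A at hd
    change √3 * -((-v.1 + √3 * v.2) / 2) ≤ √3 * A at hg
    have h2 : √3 * ((√3 * v.1 + v.2) / 2) ≤ √3 * 2 := mul_le_mul_of_nonneg_left h1.le s0.le
    have e1 : √3 * ((√3 * v.1 + v.2) / 2) = 3 * v.1 / 2 + √3 * v.2 / 2 := by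
      linear_combination (v.1 / 2) * s2
    have e2 : √3 * -((-v.1 + √3 * v.2) / 2) = √3 * v.1 / 2 - 3 * v.2 / 2 := by
      linear_combination (-v.2 / 2) * s2
    rw [e1] at h2
    rw [e2] at hg
    fin_cases j
    · change -v.2 ≤ A
      linarith
    · change v.1 - √3 ≤ A
      linarith
    · exact hb

/-- Away from the corners the difference of the indicator functions is the sum of the indicator
functions of the strips.

Proof. (a) `v ∈ EU h`, `v ∉ T0`: some `0 ≤ tI i v < h i (sI i v)` (`mem_T0_iff`); `strip_unique`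
for `i`
(all `tI j v < h j .. ≤ C r ^ 7`): `tI j v < -(r ^ 3 / 7) < -C r ^ 7 ≤ h j ..` for `j ≠ i`, and
the range
of `sI i v`. So `v ∈ FpU h i` and `v` is in no other set. (b) `v ∈ T0`, `v ∉ EU h`: some
`h i (sI i v) ≤ tI i v < 0`, `tI i v ≥ -C r ^ 7 ≥ -(r ^ 3 / 7)`; the same with `FmU h i`. (c) `v`
in both:
no set contains `v` (for `FpU` as `tI i v < 0`, for `FmU` as `tI i v < h i ..`). (d) `v` in none: if
`v ∈ FpU h m` then all `tI j v ≤ C r ^ 7` (`tI_other`), so by `strip_unique` `tI j v < -(r ^ 3 /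
7)` for
`j ≠ m`, and `v ∈ EU h`; if `v ∈ FmU h m` then in the same way `v ∈ T0`. -/
theorem ind_diff {C r : ℝ} {h : Fin 3 → ℝ → ℝ} (H : Hyp C r h) {v : P}
    (hc : ∀ j, r ^ 3 ≤ dist v (corI j)) :
    (EU h).indicator (fun _ => (1 : ℝ)) v - T0.indicator (fun _ => (1 : ℝ)) v =
      ∑ i, ((FpU h i).indicator (fun _ => (1 : ℝ)) v -
        (FmU h i).indicator (fun _ => (1 : ℝ)) v) := by
  obtain ⟨c0, c1, c3⟩ := UReg_c7 H
  have hh : ∀ j s, -(C * r ^ 7) ≤ h j s ∧ h j s ≤ C * r ^ 7 := fun j s => abs_le.1 (H.bd j s)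
  have hp : ∀ m, v ∈ FpU h m → v ∈ EU h ∧ v ∉ T0 := by
    rintro m ⟨h1, h2, h3, h4⟩
    have hall : ∀ j, tI j v ≤ C * r ^ 7 := by
      intro j
      have := tI_other h1 h2 j
      rw [abs_of_nonneg h3] at this
      linarith [(hh m (sI m v)).2]
    obtain ⟨k1, -, -⟩ := strip_unique H hall hc (i := m) (by linarith)
    refine ⟨fun j => ?_, fun hT => ?_⟩
    · by_cases hj : j = m
      · rw [hj]
        exact h4
      · have := k1 j hj
        linarith [(hh j (sI j v)).1]
    · have := (mem_T0_iff v).1 hT m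
      linarith
  have hm : ∀ m, v ∈ FmU h m → v ∉ EU h ∧ v ∈ T0 := by
    rintro m ⟨h1, h2, h3, h4⟩
    have h5 := (hh m (sI m v)).1
    have hall : ∀ j, tI j v ≤ C * r ^ 7 := by
      intro j
      have := tI_other h1 h2 j
      rw [abs_of_neg h4] at this
      linarith
    obtain ⟨k1, -, -⟩ := strip_unique H hall hc (i := m) (by linarith)
    refine ⟨fun hE => ?_, (mem_T0_iff v).2 fun j => ?_⟩
    · have : tI m v < h m (sI m v) := hE m
      linarith
    · by_cases hj : j = m
      · rw [hj]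
        exact h4
      · have := k1 j hj
        linarith
  by_cases hE : v ∈ EU h
  · by_cases hT : v ∈ T0
    · have e1 : ∀ i, v ∉ FpU h i := fun i hi => (hp i hi).2 hT
      have e2 : ∀ i, v ∉ FmU h i := fun i hi => (hm i hi).1 hE
      rw [indicator_of_mem hE, indicator_of_mem hT, sub_self]
      refine (Finset.sum_eq_zero fun i _ => ?_).symm
      rw [indicator_of_notMem (e1 i), indicator_of_notMem (e2 i), sub_self]
    · have e2 : ∀ i, v ∉ FmU h i := fun i hi => (hm i hi).1 hE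
      rw [mem_T0_iff, not_forall] at hT
      obtain ⟨i, hi⟩ := hT
      rw [not_lt] at hi
      have hall : ∀ j, tI j v ≤ C * r ^ 7 := fun j => (hE j).le.trans (hh j (sI j v)).2
      obtain ⟨k1, k2, k3⟩ := strip_unique H hall hc (i := i) (by linarith)
      have hF : v ∈ FpU h i := ⟨by linarith, by linarith, hi, hE i⟩
      have hT' := (hp i hF).2
      rw [indicator_of_mem hE, indicator_of_notMem hT', sub_zero,
        Finset.sum_eq_single i]
      · rw [indicator_of_mem hF, indicator_of_notMem (e2 i), sub_zero]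
      · intro j _ hj
        have e3 : v ∉ FpU h j := fun hF' => by
          have := k1 j hj
          have := hF'.2.2.1
          linarith
        rw [indicator_of_notMem e3, indicator_of_notMem (e2 j), sub_self]
      · intro hne
        exact absurd (Finset.mem_univ i) hne
  · by_cases hT : v ∈ T0
    · have e1 : ∀ i, v ∉ FpU h i := fun i hi => (hp i hi).2 hT
      have hE2 : ¬ ∀ j, tI j v < h j (sI j v) := hE
      rw [not_forall] at hE2
      obtain ⟨i, hi⟩ := hE2
      rw [not_lt] at hi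
      have hT2 := (mem_T0_iff v).1 hT
      have hall : ∀ j, tI j v ≤ C * r ^ 7 := fun j => (hT2 j).le.trans c0
      have h5 := (hh i (sI i v)).1
      obtain ⟨k1, k2, k3⟩ := strip_unique H hall hc (i := i) (by linarith)
      have hF : v ∈ FmU h i := ⟨by linarith, by linarith, hi, hT2 i⟩
      rw [indicator_of_notMem hE, indicator_of_mem hT, Finset.sum_eq_single i]
      · rw [indicator_of_mem hF, indicator_of_notMem (e1 i)]
      · intro j _ hj
        have e3 : v ∉ FmU h j := fun hF' => by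
          have h6 := k1 j hj
          have h7 := hF'.2.2.1
          have h8 := (hh j (sI j v)).1
          linarith
        rw [indicator_of_notMem (e1 j), indicator_of_notMem e3, sub_self]
      · intro hne
        exact absurd (Finset.mem_univ i) hne
    · have e1 : ∀ i, v ∉ FpU h i := fun i hi => hE (hp i hi).1
      have e2 : ∀ i, v ∉ FmU h i := fun i hi => hT (hm i hi).2
      rw [indicator_of_notMem hE, indicator_of_notMem hT, sub_self]
      refine (Finset.sum_eq_zero fun i _ => ?_).symm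
      rw [indicator_of_notMem (e1 i), indicator_of_notMem (e2 i), sub_self]

theorem meas_FU {C r : ℝ} {h : Fin 3 → ℝ → ℝ} (H : Hyp C r h) (i : Fin 3) :
    MeasurableSet (FpU h i) ∧ MeasurableSet (FmU h i) := by
  have hs : Measurable (sI i) := (continuous_sI i).measurable
  have ht : Measurable (tI i) := (continuous_tI i).measurable
  have hh : Measurable fun v => h i (sI i v) := (UReg_cont H i).measurable.comp hs
  have e1 : MeasurableSet {v : P | 0 < sI i v} := measurableSet_lt measurable_const hs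
  have e2 : MeasurableSet {v : P | sI i v < lenI i} := measurableSet_lt hs measurable_const
  have e3 : MeasurableSet {v : P | 0 ≤ tI i v} := measurableSet_le measurable_const ht
  have e4 : MeasurableSet {v : P | tI i v < h i (sI i v)} := measurableSet_lt ht hh
  have e5 : MeasurableSet {v : P | h i (sI i v) ≤ tI i v} := measurableSet_le hh ht
  have e6 : MeasurableSet {v : P | tI i v < 0} := measurableSet_lt ht measurable_const
  exact ⟨e1.inter (e2.inter (e3.inter e4)), e1.inter (e2.inter (e5.inter e6))⟩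

/-- Proof. In the coordinates of the side (`mp_ptI`, `me_ptI`) the sets are contained in the
rectangle `[0, lenI i] × [-C r ^ 7, C r ^ 7]`. -/
theorem vol_FU {C r : ℝ} {h : Fin 3 → ℝ → ℝ} (H : Hyp C r h) (i : Fin 3) :
    volume (FpU h i) ≤ ENNReal.ofReal (4 * C * r ^ 7) ∧
      volume (FmU h i) ≤ ENNReal.ofReal (4 * C * r ^ 7) := by
  obtain ⟨c0, c1, c3⟩ := UReg_c7 H
  have hh : ∀ s, -(C * r ^ 7) ≤ h i s ∧ h i s ≤ C * r ^ 7 := fun s => abs_le.1 (H.bd i s)
  have key : volume {v : P | 0 < sI i v ∧ sI i v < lenI i ∧ -(C * r ^ 7) ≤ tI i v ∧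
      tI i v ≤ C * r ^ 7} ≤ ENNReal.ofReal (4 * C * r ^ 7) := by
    rw [← (mp_ptI i).measure_preimage_emb (me_ptI i)]
    have e : (fun x : P => ptI i x.1 x.2) ⁻¹' {v : P | 0 < sI i v ∧ sI i v < lenI i ∧
        -(C * r ^ 7) ≤ tI i v ∧ tI i v ≤ C * r ^ 7} ⊆
        Icc (0 : ℝ) 2 ×ˢ Icc (-(C * r ^ 7)) (C * r ^ 7) := by
      rintro x hx
      obtain ⟨h1, h2, h3, h4⟩ := hx
      rw [sI_ptI] at h1 h2
      rw [tI_ptI] at h3 h4
      exact ⟨⟨h1.le, h2.le.trans (lenI_bounds i).2⟩, ⟨h3, h4⟩⟩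
    refine (measure_mono e).trans ?_
    rw [Measure.volume_eq_prod, Measure.prod_prod, Real.volume_Icc, Real.volume_Icc,
      ← ENNReal.ofReal_mul (by norm_num)]
    exact ENNReal.ofReal_le_ofReal (by linarith)
  refine ⟨(measure_mono ?_).trans key, (measure_mono ?_).trans key⟩
  · rintro v ⟨h1, h2, h3, h4⟩
    exact ⟨h1, h2, by linarith, by linarith [(hh (sI i v)).2]⟩
  · rintro v ⟨h1, h2, h3, h4⟩
    exact ⟨h1, h2, by linarith [(hh (sI i v)).1], by linarith⟩

/-- Proof. The union of three balls (squares of side `2 r ^ 3`). -/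
theorem vol_cor {r : ℝ} (hr : 0 < r) :
    volume {v : P | ∃ j, dist v (corI j) < r ^ 3} ≤ ENNReal.ofReal (12 * r ^ 6) := by
  have h3 : 0 ≤ 2 * r ^ 3 := by positivity
  have e : {v : P | ∃ j, dist v (corI j) < r ^ 3} ⊆ ⋃ j, Metric.ball (corI j) (r ^ 3) := by
    rintro v ⟨j, hj⟩
    exact mem_iUnion.2 ⟨j, hj⟩
  have hb : ∀ j : Fin 3, volume (Metric.ball (corI j) (r ^ 3)) = ENNReal.ofReal (4 * r ^ 6) := by
    intro j
    rw [← ball_prod_same, Measure.volume_eq_prod, Measure.prod_prod, Real.volume_ball,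
      Real.volume_ball, ← ENNReal.ofReal_mul h3]
    congr 1
    ring
  refine (measure_mono e).trans ((measure_iUnion_le _).trans ?_)
  rw [tsum_fintype, Fin.sum_univ_three, hb, hb, hb, ← ENNReal.ofReal_add (by positivity)
    (by positivity), ← ENNReal.ofReal_add (by positivity) (by positivity)]
  exact ENNReal.ofReal_le_ofReal (by linarith)

end Pool.Agent.MP4eed4eI
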