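import Pool.Agent.Lib.MP_4eed4e_an_I.UReg

set_option autoImplicit false

/-!
Project I, block U: the integral over the strip along one side.
-/

namespace Pool.Agent.MP4eed4eI

open Pool.Agent.MP4eed4eP MeasureTheory Set Filter Topology

private theorem UStr_cont {C r : ℝ} {h : Fin 3 → ℝ → ℝ} (H : Hyp C r h) (i : Fin 3) :
    Continuous (h i) := by
  have h0 : 0 ≤ C * r ^ 4 := mul_nonneg H.cp (pow_nonneg H.rp.le 4)
  have h1 : LipschitzWith (Real.toNNReal (C * r ^ 4)) (h i) := by
    refine LipschitzWith.of_dist_le_mul fun x y => ?_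
    rw [Real.coe_toNNReal _ h0, Real.dist_eq, Real.dist_eq]
    exact H.lp i x y
  exact h1.continuous

private theorem UStr_fub {f : P → ℝ} (hf : Continuous f) {h : ℝ → ℝ} (hh : Continuous h)
    {B L : ℝ} (hB : ∀ s, |h s| ≤ B) (hL : 0 ≤ L) :
    (∫ x in {x : P | 0 < x.1 ∧ x.1 < L ∧ 0 ≤ x.2 ∧ x.2 < h x.1}, f x) -
      ∫ x in {x : P | 0 < x.1 ∧ x.1 < L ∧ h x.1 ≤ x.2 ∧ x.2 < 0}, f x =
      ∫ s in (0 : ℝ)..L, ∫ t in (0 : ℝ)..(h s), f (s, t) := by
  set A : Set P := {x : P | 0 < x.1 ∧ x.1 < L ∧ 0 ≤ x.2 ∧ x.2 < h x.1} with hA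
  set A' : Set P := {x : P | 0 < x.1 ∧ x.1 < L ∧ h x.1 ≤ x.2 ∧ x.2 < 0} with hA'
  have hh1 : Measurable fun x : P => h x.1 := hh.measurable.comp measurable_fst
  have mA : MeasurableSet A :=
    (measurableSet_lt measurable_const measurable_fst).inter
      ((measurableSet_lt measurable_fst measurable_const).inter
        ((measurableSet_le measurable_const measurable_snd).inter
          (measurableSet_lt measurable_snd hh1)))
  have mA' : MeasurableSet A' :=
    (measurableSet_lt measurable_const measurable_fst).inter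
      ((measurableSet_lt measurable_fst measurable_const).inter
        ((measurableSet_le hh1 measurable_snd).inter
          (measurableSet_lt measurable_snd measurable_const)))
  have hI : IntegrableOn f (Icc ((0 : ℝ), -B) (L, B)) :=
    hf.continuousOn.integrableOn_compact isCompact_Icc
  have sA : A ⊆ Icc ((0 : ℝ), -B) (L, B) := by
    rintro x ⟨h1, h2, h3, h4⟩
    have h5 := abs_le.1 (hB x.1)
    exact ⟨⟨h1.le, by show -B ≤ x.2; linarith [h5.1, h5.2, le_trans h3 h4.le]⟩,
      ⟨h2.le, by show x.2 ≤ B; linarith [h5.2]⟩⟩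
  have sA' : A' ⊆ Icc ((0 : ℝ), -B) (L, B) := by
    rintro x ⟨h1, h2, h3, h4⟩
    have h5 := abs_le.1 (hB x.1)
    exact ⟨⟨h1.le, by show -B ≤ x.2; linarith [h5.1]⟩,
      ⟨h2.le, by show x.2 ≤ B; linarith [h5.1, h5.2, le_trans h3 h4.le]⟩⟩
  have iA : Integrable (A.indicator f) := (integrable_indicator_iff mA).2 (hI.mono_set sA)
  have iA' : Integrable (A'.indicator f) := (integrable_indicator_iff mA').2 (hI.mono_set sA')
  rw [← integral_indicator mA, ← integral_indicator mA', ← integral_sub iA iA']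
  have iD : Integrable (fun x => A.indicator f x - A'.indicator f x)
      ((volume : Measure ℝ).prod (volume : Measure ℝ)) := by
    rw [← Measure.volume_eq_prod]
    exact iA.sub iA'
  rw [Measure.volume_eq_prod, integral_prod _ iD]
  have key : ∀ s : ℝ, (∫ t : ℝ, (A.indicator f (s, t) - A'.indicator f (s, t))) =
      (Ioo (0 : ℝ) L).indicator (fun s => ∫ t in (0 : ℝ)..(h s), f (s, t)) s := by
    intro s
    by_cases hs : s ∈ Ioo (0 : ℝ) L
    · rw [indicator_of_mem hs]
      have e1 : ∀ t : ℝ, A.indicator f (s, t) = (Ico 0 (h s)).indicator (fun t => f (s, t)) t := by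
        intro t
        by_cases ht : t ∈ Ico 0 (h s)
        · rw [indicator_of_mem ht, indicator_of_mem]
          exact ⟨hs.1, hs.2, ht.1, ht.2⟩
        · rw [indicator_of_notMem ht, indicator_of_notMem]
          exact fun hc => ht ⟨hc.2.2.1, hc.2.2.2⟩
      have e2 : ∀ t : ℝ, A'.indicator f (s, t) = (Ico (h s) 0).indicator (fun t => f (s, t)) t := by
        intro t
        by_cases ht : t ∈ Ico (h s) 0
        · rw [indicator_of_mem ht, indicator_of_mem]
          exact ⟨hs.1, hs.2, ht.1, ht.2⟩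
        · rw [indicator_of_notMem ht, indicator_of_notMem]
          exact fun hc => ht ⟨hc.2.2.1, hc.2.2.2⟩
      have hc : Continuous fun t : ℝ => f (s, t) := hf.comp (by fun_prop)
      have j : ∀ a b : ℝ, Integrable ((Ico a b).indicator fun t => f (s, t)) := fun a b =>
        (integrable_indicator_iff measurableSet_Ico).2
          ((hc.continuousOn.integrableOn_compact isCompact_Icc).mono_set Ico_subset_Icc_self)
      simp only [e1, e2]
      rw [integral_sub (j _ _) (j _ _), integral_indicator measurableSet_Ico,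
        integral_indicator measurableSet_Ico, intervalIntegral,
        integral_Ico_eq_integral_Ioo, integral_Ico_eq_integral_Ioo,
        integral_Ioc_eq_integral_Ioo, integral_Ioc_eq_integral_Ioo]
    · rw [indicator_of_notMem hs]
      have e1 : ∀ t : ℝ, A.indicator f (s, t) - A'.indicator f (s, t) = 0 := by
        intro t
        rw [indicator_of_notMem, indicator_of_notMem, sub_zero]
        · exact fun hc => hs ⟨hc.1, hc.2.1⟩
        · exact fun hc => hs ⟨hc.1, hc.2.1⟩
      simp only [e1]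
      exact integral_zero _ _
  simp only [key]
  rw [integral_indicator measurableSet_Ioo, intervalIntegral.integral_of_le hL,
    integral_Ioc_eq_integral_Ioo]

/-- Fubini in the coordinates of the side.

Proof. `mp_ptI`, `me_ptI` (`MeasurePreserving.setIntegral_preimage_emb` or
`MeasurePreserving.integral_comp`): `∫_{FpU} g - ∫_{FmU} g` is the integral over `(s, t)`,
`0 < s < lenI i`, of `(1_{0 ≤ t < h s} - 1_{h s ≤ t < 0}) g (ptI i s t)`; Fubini
(`integral_prod`), and for fixed `s` the inner integral is the interval integral from `0` to `h s`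
(`intervalIntegral.integral_of_le`, case `h s ≥ 0` and `h s < 0`). -/
theorem strip_fub {C r : ℝ} {h : Fin 3 → ℝ → ℝ} (H : Hyp C r h) {g : P → ℝ} (hg : Continuous g)
    (i : Fin 3) : (∫ v in FpU h i, g v) - ∫ v in FmU h i, g v =
      ∫ s in (0 : ℝ)..(lenI i), ∫ t in (0 : ℝ)..(h i s), g (ptI i s t) := by
  have c1 : ∀ F : Set P, (∫ v in F, g v) =
      ∫ x in (fun x : P => ptI i x.1 x.2) ⁻¹' F, g (ptI i x.1 x.2) := fun F =>
    ((mp_ptI i).setIntegral_preimage_emb (me_ptI i) g F).symm
  rw [c1, c1]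
  have e1 : (fun x : P => ptI i x.1 x.2) ⁻¹' FpU h i =
      {x : P | 0 < x.1 ∧ x.1 < lenI i ∧ 0 ≤ x.2 ∧ x.2 < h i x.1} := by
    ext x
    change (0 < sI i (ptI i x.1 x.2) ∧ sI i (ptI i x.1 x.2) < lenI i ∧
      0 ≤ tI i (ptI i x.1 x.2) ∧ tI i (ptI i x.1 x.2) < h i (sI i (ptI i x.1 x.2))) ↔
      (0 < x.1 ∧ x.1 < lenI i ∧ 0 ≤ x.2 ∧ x.2 < h i x.1)
    rw [sI_ptI, tI_ptI]
  have e2 : (fun x : P => ptI i x.1 x.2) ⁻¹' FmU h i =
      {x : P | 0 < x.1 ∧ x.1 < lenI i ∧ h i x.1 ≤ x.2 ∧ x.2 < 0} := by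
    ext x
    change (0 < sI i (ptI i x.1 x.2) ∧ sI i (ptI i x.1 x.2) < lenI i ∧
      h i (sI i (ptI i x.1 x.2)) ≤ tI i (ptI i x.1 x.2) ∧ tI i (ptI i x.1 x.2) < 0) ↔
      (0 < x.1 ∧ x.1 < lenI i ∧ h i x.1 ≤ x.2 ∧ x.2 < 0)
    rw [sI_ptI, tI_ptI]
  rw [e1, e2]
  exact UStr_fub (f := fun x : P => g (ptI i x.1 x.2)) (hg.comp (continuous_ptI i))
    (UStr_cont H i) (H.bd i) (by linarith [(lenI_bounds i).1])

/-- Proof. `strip_fub`, and `|∫ t in 0..h, g (ptI i s t) - g (ptI i s 0) h| ≤ K h² ≤ K C² r ^ 14`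
(`dist_ptI_le`); integrate over `[0, lenI i]`, `lenI i ≤ 2`. The function `s ↦ h i s` is continuous
(Lipschitz), the inner integral is a continuous function of `s` or use
`intervalIntegral.norm_integral_le_of_norm_le_const` for the difference. `r ^ 14 ≤ r ^ 11`. -/
theorem strip_int {C K r : ℝ} {h : Fin 3 → ℝ → ℝ} (H : Hyp C r h) {g : P → ℝ}
    (hg : ∀ v w, |g v - g w| ≤ K * dist v w) (i : Fin 3) :
    |(∫ v in FpU h i, g v) - (∫ v in FmU h i, g v) - ∫ s in (0 : ℝ)..(lenI i), g (ptI i s 0) * h i s| ≤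
      2 * K * C ^ 2 * r ^ 11 := by
  have hK : 0 ≤ K := by
    have h1 := hg (0, 0) (1, 0)
    have h2 : dist ((0 : ℝ), (0 : ℝ)) ((1 : ℝ), (0 : ℝ)) = 1 := by simp [Prod.dist_eq]
    rw [h2, mul_one] at h1
    exact (abs_nonneg _).trans h1
  have gc : Continuous g := by
    have h1 : LipschitzWith (Real.toNNReal K) g := by
      refine LipschitzWith.of_dist_le_mul fun x y => ?_
      rw [Real.coe_toNNReal _ hK, Real.dist_eq]
      exact hg x y
    exact h1.continuous
  have hL := lenI_bounds i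
  have hr := H.rp
  have hC := H.cp
  have hcont := UStr_cont H i
  have cp : Continuous fun x : P => g (ptI i x.1 x.2) := gc.comp (continuous_ptI i)
  rw [strip_fub H gc i]
  have c1 : Continuous fun s : ℝ => ∫ t in (0 : ℝ)..(h i s), g (ptI i s t) := by
    have h1 : Continuous (Function.uncurry fun s t : ℝ => g (ptI i s t)) := cp
    exact intervalIntegral.continuous_parametric_intervalIntegral_of_continuous h1 hcont
  have c2 : Continuous fun s : ℝ => g (ptI i s 0) * h i s :=
    (cp.comp (by fun_prop : Continuous fun s : ℝ => ((s, 0) : P))).mul hcont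
  rw [← intervalIntegral.integral_sub (c1.intervalIntegrable _ _) (c2.intervalIntegrable _ _)]
  have key : ∀ s ∈ uIoc (0 : ℝ) (lenI i),
      ‖(∫ t in (0 : ℝ)..(h i s), g (ptI i s t)) - g (ptI i s 0) * h i s‖ ≤ K * (C * r ^ 7) ^ 2 := by
    intro s _
    have hb := H.bd i s
    have e1 : g (ptI i s 0) * h i s = ∫ t in (0 : ℝ)..(h i s), g (ptI i s 0) := by
      rw [intervalIntegral.integral_const, sub_zero, smul_eq_mul, mul_comm]
    have c3 : Continuous fun t : ℝ => g (ptI i s t) :=
      cp.comp (by fun_prop : Continuous fun t : ℝ => ((s, t) : P))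
    rw [e1, ← intervalIntegral.integral_sub (c3.intervalIntegrable _ _)
      (continuous_const.intervalIntegrable _ _)]
    have h2 : ∀ t ∈ uIoc (0 : ℝ) (h i s), ‖g (ptI i s t) - g (ptI i s 0)‖ ≤ K * (C * r ^ 7) := by
      intro t ht
      rw [Real.norm_eq_abs]
      refine (hg _ _).trans (mul_le_mul_of_nonneg_left ?_ hK)
      refine (dist_ptI_le i s t s 0).trans ?_
      rw [sub_self, abs_zero, zero_add, sub_zero]
      have ht' : t ∈ uIcc (0 : ℝ) (h i s) := uIoc_subset_uIcc ht
      have h3 := abs_sub_left_of_mem_uIcc ht'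
      rw [sub_zero, sub_zero] at h3
      exact h3.trans hb
    have h4 := intervalIntegral.norm_integral_le_of_norm_le_const h2
    rw [sub_zero] at h4
    refine h4.trans ?_
    have h5 : 0 ≤ K * (C * r ^ 7) := by positivity
    calc K * (C * r ^ 7) * |h i s| ≤ K * (C * r ^ 7) * (C * r ^ 7) :=
          mul_le_mul_of_nonneg_left hb h5
      _ = K * (C * r ^ 7) ^ 2 := by ring
  have h6 := intervalIntegral.norm_integral_le_of_norm_le_const key
  rw [Real.norm_eq_abs, sub_zero, abs_of_nonneg (by linarith : 0 ≤ lenI i)] at h6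
  refine h6.trans ?_
  have h7 : r ^ 14 ≤ r ^ 11 := pow_le_pow_of_le_one hr.le (by linarith [H.r1]) (by norm_num)
  calc K * (C * r ^ 7) ^ 2 * lenI i ≤ K * (C * r ^ 7) ^ 2 * 2 :=
        mul_le_mul_of_nonneg_left hL.2 (by positivity)
    _ = 2 * K * C ^ 2 * r ^ 14 := by ring
    _ ≤ 2 * K * C ^ 2 * r ^ 11 := mul_le_mul_of_nonneg_left h7 (by positivity)

end Pool.Agent.MP4eed4eI
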