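import Pool.Agent.Lib.MP_4eed4e_an_I.UGeo

set_option autoImplicit false

/-!
Project I, block U: size and Lipschitz constant of the correction at the sides.
-/

namespace Pool.Agent.MP4eed4eI

open Pool.Agent.MP4eed4eP MeasureTheory Set Filter Topology

/-- The direction of the side `i`. -/
private noncomputable def USum_e : Fin 3 → P := ![(1, 0), (0, 1), (√3 / 2, 1 / 2)]

private theorem USum_pt (i : Fin 3) (s t : ℝ) : ptI i s t = ptI i 0 t + s • USum_e i := by
  fin_cases i
  · change ((s, -t) : P) = ((0, -t) : P) + s • ((1, 0) : P)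
    ext
    · change s = 0 + s * 1
      ring
    · change -t = -t + s * 0
      ring
  · change ((√3 + t, s) : P) = ((√3 + t, 0) : P) + s • ((0, 1) : P)
    ext
    · change √3 + t = √3 + t + s * 0
      ring
    · change s = 0 + s * 1
      ring
  · change (((√3 * s - t) / 2, (s + √3 * t) / 2) : P) =
      (((√3 * 0 - t) / 2, (0 + √3 * t) / 2) : P) + s • ((√3 / 2, 1 / 2) : P)
    ext
    · change (√3 * s - t) / 2 = (√3 * 0 - t) / 2 + s * (√3 / 2)
      ring
    · change (s + √3 * t) / 2 = (0 + √3 * t) / 2 + s * (1 / 2)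
      ring

private theorem USum_e_le (i : Fin 3) : |(USum_e i).1| + |(USum_e i).2| ≤ 2 := by
  have h1 : √(3 : ℝ) ≤ 2 := by
    rw [Real.sqrt_le_left (by norm_num)]
    norm_num
  have h2 : 0 ≤ √(3 : ℝ) := Real.sqrt_nonneg 3
  fin_cases i
  · change |(1 : ℝ)| + |(0 : ℝ)| ≤ 2
    norm_num
  · change |(0 : ℝ)| + |(1 : ℝ)| ≤ 2
    norm_num
  · change |√(3 : ℝ) / 2| + |(1 : ℝ) / 2| ≤ 2
    rw [abs_of_nonneg (by positivity), abs_of_nonneg (by norm_num)]
    linarith

private theorem USum_der {K : ℝ} {u : P → ℝ} (hu : Nice K u) (i : Fin 3) (s t : ℝ) :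
    HasDerivAt (fun s => u (ptI i s t))
      ((USum_e i).1 * d1 u (ptI i s t) + (USum_e i).2 * d2 u (ptI i s t)) s := by
  have h1 : HasDerivAt (fun s : ℝ => ptI i s t) (USum_e i) s := by
    have h2 : (fun s : ℝ => ptI i s t) = fun s => ptI i 0 t + s • USum_e i :=
      funext fun s => USum_pt i s t
    rw [h2]
    have h3 := ((hasDerivAt_id s).smul_const (USum_e i)).const_add (ptI i 0 t)
    rw [one_smul] at h3
    exact h3
  have h2 : HasFDerivAt u (fderiv ℝ u (ptI i s t)) (ptI i s t) :=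
    (hu.df.differentiable one_ne_zero _).hasFDerivAt
  have h3 := h2.comp_hasDerivAt s h1
  have h4 : fderiv ℝ u (ptI i s t) (USum_e i) =
      (USum_e i).1 * d1 u (ptI i s t) + (USum_e i).2 * d2 u (ptI i s t) := by
    have h5 : USum_e i = (USum_e i).1 • ((1, 0) : P) + (USum_e i).2 • ((0, 1) : P) := by
      ext
      · change (USum_e i).1 = (USum_e i).1 * 1 + (USum_e i).2 * 0
        ring
      · change (USum_e i).2 = (USum_e i).1 * 0 + (USum_e i).2 * 1
        ring
    unfold d1 d2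
    conv_lhs => rw [h5]
    rw [map_add, map_smul, map_smul, smul_eq_mul, smul_eq_mul]
  rw [h4] at h3
  exact h3

private theorem USum_lip {K : ℝ} {u : P → ℝ} (hu : Nice K u) (i : Fin 3) (t s s' : ℝ) :
    |u (ptI i s t) - u (ptI i s' t)| ≤ 2 * K * |t| * |s - s'| := by
  have hK := hu.pos
  have h0 : ∀ s, (USum_e i).1 * d1 u (ptI i s 0) + (USum_e i).2 * d2 u (ptI i s 0) = 0 := by
    intro s
    have h1 := USum_der hu i s 0
    have h2 : (fun s => u (ptI i s 0)) = fun _ => 0 := funext fun s => hu.sd i s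
    rw [h2] at h1
    exact h1.unique (hasDerivAt_const s 0)
  have hb : ∀ s, |(USum_e i).1 * d1 u (ptI i s t) + (USum_e i).2 * d2 u (ptI i s t)| ≤
      2 * K * |t| := by
    intro s
    have h1 : (USum_e i).1 * d1 u (ptI i s t) + (USum_e i).2 * d2 u (ptI i s t) =
        (USum_e i).1 * (d1 u (ptI i s t) - d1 u (ptI i s 0)) +
          (USum_e i).2 * (d2 u (ptI i s t) - d2 u (ptI i s 0)) := by
      linear_combination h0 s
    have h2 : dist (ptI i s t) (ptI i s 0) ≤ |t| := by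
      have := dist_ptI_le i s t s 0
      rwa [sub_self, abs_zero, zero_add, sub_zero] at this
    have h3 : |d1 u (ptI i s t) - d1 u (ptI i s 0)| ≤ K * |t| :=
      (hu.l1 _ _).trans (mul_le_mul_of_nonneg_left h2 hK.le)
    have h4 : |d2 u (ptI i s t) - d2 u (ptI i s 0)| ≤ K * |t| :=
      (hu.l2 _ _).trans (mul_le_mul_of_nonneg_left h2 hK.le)
    have h5 := USum_e_le i
    have h6 : 0 ≤ K * |t| := by positivity
    rw [h1]
    calc |(USum_e i).1 * (d1 u (ptI i s t) - d1 u (ptI i s 0)) +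
          (USum_e i).2 * (d2 u (ptI i s t) - d2 u (ptI i s 0))|
        ≤ |(USum_e i).1| * (K * |t|) + |(USum_e i).2| * (K * |t|) := by
          refine (abs_add_le _ _).trans ?_
          rw [abs_mul, abs_mul]
          exact add_le_add (mul_le_mul_of_nonneg_left h3 (abs_nonneg _))
            (mul_le_mul_of_nonneg_left h4 (abs_nonneg _))
      _ = (|(USum_e i).1| + |(USum_e i).2|) * (K * |t|) := by ring
      _ ≤ 2 * (K * |t|) := mul_le_mul_of_nonneg_right h5 h6
      _ = 2 * K * |t| := by ring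
  have h1 := Convex.norm_image_sub_le_of_norm_hasDerivWithin_le (s := univ)
    (f := fun s => u (ptI i s t)) (x := s') (y := s)
    (fun x _ => (USum_der hu i x t).hasDerivWithinAt) (fun x _ => hb x) convex_univ
    (mem_univ _) (mem_univ _)
  rw [Real.norm_eq_abs, Real.norm_eq_abs] at h1
  exact h1

private theorem USum_val {K : ℝ} {u : P → ℝ} (hu : Nice K u) (i : Fin 3) (s t : ℝ) :
    |u (ptI i s t)| ≤ K * |t| := by
  have h2 : dist (ptI i s t) (ptI i s 0) ≤ |t| := by
    have := dist_ptI_le i s t s 0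
    rwa [sub_self, abs_zero, zero_add, sub_zero] at this
  have h1 := hu.l0 (ptI i s t) (ptI i s 0)
  rw [hu.sd, sub_zero] at h1
  exact h1.trans (mul_le_mul_of_nonneg_left h2 hu.pos.le)

private theorem USum_w {C K r : ℝ} {h : Fin 3 → ℝ → ℝ} {u : P → ℝ} (H : Hyp C r h)
    (hu : Nice K u) (i : Fin 3) (s s' : ℝ) :
    |u (ptI i s (h i s)) - u (ptI i s' (h i s'))| ≤ 3 * (K * C) * r ^ 4 * |s - s'| := by
  have hK := hu.pos
  have hr := H.rp
  have hC := H.cp
  have h1 := USum_lip hu i (h i s) s s'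
  have h2 : |u (ptI i s' (h i s)) - u (ptI i s' (h i s'))| ≤ K * |h i s - h i s'| := by
    have h3 := dist_ptI_le i s' (h i s) s' (h i s')
    rw [sub_self, abs_zero, zero_add] at h3
    exact (hu.l0 _ _).trans (mul_le_mul_of_nonneg_left h3 hK.le)
  have h3 := abs_sub_le (u (ptI i s (h i s))) (u (ptI i s' (h i s))) (u (ptI i s' (h i s')))
  have h4 : 2 * K * |h i s| * |s - s'| ≤ 2 * (K * C) * r ^ 4 * |s - s'| := by
    have h5 : |h i s| ≤ C * r ^ 4 := by
      refine (H.bd i s).trans (mul_le_mul_of_nonneg_left ?_ hC)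
      exact pow_le_pow_of_le_one hr.le (H.r1.trans (by norm_num)) (by norm_num)
    have h6 : 2 * K * |h i s| ≤ 2 * K * (C * r ^ 4) :=
      mul_le_mul_of_nonneg_left h5 (by positivity)
    have h7 := mul_le_mul_of_nonneg_right h6 (abs_nonneg (s - s'))
    refine h7.trans (le_of_eq ?_)
    ring
  have h5 : K * |h i s - h i s'| ≤ K * C * r ^ 4 * |s - s'| := by
    have h6 := mul_le_mul_of_nonneg_left (H.lp i s s') hK.le
    refine h6.trans (le_of_eq ?_)
    ring
  have h6 : 3 * (K * C) * r ^ 4 * |s - s'| =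
      2 * (K * C) * r ^ 4 * |s - s'| + K * C * r ^ 4 * |s - s'| := by ring
  rw [h6]
  linarith

private theorem USum_S1 {C K r : ℝ} {h : Fin 3 → ℝ → ℝ} {u : P → ℝ} (H : Hyp C r h)
    (hu : Nice K u) (i : Fin 3) (v : P) : |S1 r h u i v| ≤ K * C * r ^ 7 := by
  obtain ⟨t0, t1, -, -, -⟩ := thU_facts (16 * tI i v / r ^ 3)
  have hK := hu.pos
  have hr := H.rp
  have hC := H.cp
  have h1 : |u (ptI i (sI i v) (h i (sI i v)))| ≤ K * C * r ^ 7 := by
    refine (USum_val hu i _ _).trans ?_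
    have h2 := mul_le_mul_of_nonneg_left (H.bd i (sI i v)) hK.le
    refine h2.trans (le_of_eq ?_)
    ring
  unfold S1
  rw [abs_mul, abs_of_nonneg t0]
  calc |u (ptI i (sI i v) (h i (sI i v)))| * thU (16 * tI i v / r ^ 3)
      ≤ K * C * r ^ 7 * 1 := mul_le_mul h1 t1 t0 (by positivity)
    _ = K * C * r ^ 7 := mul_one _

private theorem USum_S1_lip {C K r : ℝ} {h : Fin 3 → ℝ → ℝ} {u : P → ℝ} (H : Hyp C r h)
    (hu : Nice K u) (i : Fin 3) (v w : P) :
    |S1 r h u i v - S1 r h u i w| ≤ 27 * (K * C) * r ^ 4 * dist v w := by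
  obtain ⟨t0, t1, -, -, tl⟩ := thU_facts (16 * tI i v / r ^ 3)
  have hK := hu.pos
  have hr := H.rp
  have hC := H.cp
  have hd : 0 ≤ dist v w := dist_nonneg
  have a1 : |u (ptI i (sI i v) (h i (sI i v))) - u (ptI i (sI i w) (h i (sI i w)))| ≤
      3 * (K * C) * r ^ 4 * (7 / 5 * dist v w) :=
    (USum_w H hu i _ _).trans (mul_le_mul_of_nonneg_left (abs_sI_sub i v w) (by positivity))
  have a2 : |u (ptI i (sI i w) (h i (sI i w)))| ≤ K * C * r ^ 7 := by
    refine (USum_val hu i _ _).trans ?_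
    have h2 := mul_le_mul_of_nonneg_left (H.bd i (sI i w)) hK.le
    refine h2.trans (le_of_eq ?_)
    ring
  have a3 : |thU (16 * tI i v / r ^ 3) - thU (16 * tI i w / r ^ 3)| ≤
      16 * (7 / 5 * dist v w) / r ^ 3 := by
    refine (tl _).trans ?_
    have h1 : 16 * tI i v / r ^ 3 - 16 * tI i w / r ^ 3 = 16 * (tI i v - tI i w) / r ^ 3 := by
      ring
    rw [h1, abs_div, abs_mul, abs_of_pos (by positivity : 0 < r ^ 3),
      abs_of_pos (by norm_num : (0 : ℝ) < 16)]
    exact div_le_div_of_nonneg_right (mul_le_mul_of_nonneg_left (abs_tI_sub i v w)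
      (by norm_num)) (by positivity)
  have e : S1 r h u i v - S1 r h u i w =
      (u (ptI i (sI i v) (h i (sI i v))) - u (ptI i (sI i w) (h i (sI i w)))) *
        thU (16 * tI i v / r ^ 3) + u (ptI i (sI i w) (h i (sI i w))) *
        (thU (16 * tI i v / r ^ 3) - thU (16 * tI i w / r ^ 3)) := by
    unfold S1
    ring
  rw [e]
  have b1 : |(u (ptI i (sI i v) (h i (sI i v))) - u (ptI i (sI i w) (h i (sI i w)))) *
        thU (16 * tI i v / r ^ 3)| ≤ 3 * (K * C) * r ^ 4 * (7 / 5 * dist v w) := by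
    rw [abs_mul, abs_of_nonneg t0]
    calc _ ≤ 3 * (K * C) * r ^ 4 * (7 / 5 * dist v w) * 1 :=
          mul_le_mul a1 t1 t0 (by positivity)
      _ = 3 * (K * C) * r ^ 4 * (7 / 5 * dist v w) := mul_one _
  have b2 : |u (ptI i (sI i w) (h i (sI i w))) *
        (thU (16 * tI i v / r ^ 3) - thU (16 * tI i w / r ^ 3))| ≤
      K * C * r ^ 7 * (16 * (7 / 5 * dist v w) / r ^ 3) := by
    rw [abs_mul]
    exact mul_le_mul a2 a3 (abs_nonneg _) (by positivity)
  have b3 : K * C * r ^ 7 * (16 * (7 / 5 * dist v w) / r ^ 3) =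
      112 / 5 * (K * C) * r ^ 4 * dist v w := by
    have : r ^ 7 = r ^ 4 * r ^ 3 := by ring
    rw [this]
    field_simp
    ring
  rw [b3] at b2
  refine (abs_add_le _ _).trans ((add_le_add b1 b2).trans ?_)
  have h0 : 0 ≤ K * C * r ^ 4 * dist v w := by positivity
  have e1 : 3 * (K * C) * r ^ 4 * (7 / 5 * dist v w) + 112 / 5 * (K * C) * r ^ 4 * dist v w =
      133 / 5 * (K * C * r ^ 4 * dist v w) := by ring
  have e2 : 27 * (K * C) * r ^ 4 * dist v w = 27 * (K * C * r ^ 4 * dist v w) := by ring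
  rw [e1, e2]
  exact mul_le_mul_of_nonneg_right (by norm_num) h0

/-- Proof. For one side. Value: `u (ptI i s 0) = 0` and `dist (ptI i s t) (ptI i s 0) ≤ |t|`, so
`|u (ptI i s (h s))| ≤ K C r ^ 7`. Lipschitz: `u (ptI i s t) - u (ptI i s' t)` for fixed `t`: the
derivative of `s ↦ u (ptI i s t) - u (ptI i s 0)` is bounded by `2 K |t|` (`l1`, `l2`; the second
term is `0`), so the difference is at most `2 K C r ^ 7 |s - s'|` for `|t| ≤ C r ^ 7`; and
`|u (ptI i s' t) - u (ptI i s' t')| ≤ K |t - t'|` with `|h s - h s'| ≤ C r ^ 4 |s - s'|`. The cutoff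
`thU (16 tI / r ^ 3)` is bounded by one with Lipschitz constant `16 * (7/5) / r ^ 3`
(`abs_tI_sub`). Together with `C' = 100 K (C + 1)`, say. Sum over the three sides. -/
theorem SU_bounds (C K : ℝ) : ∃ C' : ℝ, 0 < C' ∧ ∀ (r : ℝ) (h : Fin 3 → ℝ → ℝ) (u : P → ℝ),
    Hyp C r h → Nice K u → (∀ i v, |S1 r h u i v| ≤ C' * r ^ 7) ∧
    (∀ i v w, |S1 r h u i v - S1 r h u i w| ≤ C' * r ^ 4 * dist v w) ∧
    (∀ v, |SU r h u v| ≤ C' * r ^ 7) ∧ ∀ v w, |SU r h u v - SU r h u w| ≤ C' * r ^ 4 * dist v w := by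
  refine ⟨81 * (|K| * |C|) + 1, by positivity, fun r h u H hu => ?_⟩
  have hK := hu.pos
  have hr := H.rp
  have hC := H.cp
  rw [abs_of_pos hK, abs_of_nonneg hC]
  have hKC : 0 ≤ K * C := by positivity
  have r7 : 0 < r ^ 7 := by positivity
  have r4 : 0 < r ^ 4 := by positivity
  have s1 := USum_S1 H hu
  have s2 := USum_S1_lip H hu
  refine ⟨fun i v => (s1 i v).trans ?_, fun i v w => (s2 i v w).trans ?_, fun v => ?_,
    fun v w => ?_⟩
  · exact mul_le_mul_of_nonneg_right (by linarith) r7.le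
  · exact mul_le_mul_of_nonneg_right (mul_le_mul_of_nonneg_right (by linarith) r4.le) dist_nonneg
  · have h1 : |SU r h u v| ≤ ∑ _i : Fin 3, K * C * r ^ 7 := by
      unfold SU
      exact (Finset.abs_sum_le_sum_abs _ _).trans (Finset.sum_le_sum fun i _ => s1 i v)
    rw [Finset.sum_const, Finset.card_univ, Fintype.card_fin, nsmul_eq_mul] at h1
    refine h1.trans ?_
    push_cast
    rw [← mul_assoc]
    exact mul_le_mul_of_nonneg_right (by linarith) r7.le
  · have h1 : |SU r h u v - SU r h u w| ≤ ∑ _i : Fin 3, 27 * (K * C) * r ^ 4 * dist v w := by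
      unfold SU
      rw [← Finset.sum_sub_distrib]
      exact (Finset.abs_sum_le_sum_abs _ _).trans (Finset.sum_le_sum fun i _ => s2 i v w)
    rw [Finset.sum_const, Finset.card_univ, Fintype.card_fin, nsmul_eq_mul] at h1
    refine h1.trans ?_
    push_cast
    have e1 : 3 * (27 * (K * C) * r ^ 4 * dist v w) = 81 * (K * C) * r ^ 4 * dist v w := by ring
    rw [e1]
    exact mul_le_mul_of_nonneg_right (mul_le_mul_of_nonneg_right (by linarith) r4.le) dist_nonneg

end Pool.Agent.MP4eed4eI
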